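import Mathlib
import Pool.Agent.Lib.MP_f9aece_nt_gt.Defs
import Pool.Agent.Lib.MP_f9aece_nt_h20.Chi

/-!
The law of `log |zeta|` under the measure `|zeta| ^ 2`: definitions.

Everything about one group of primes (`GF`, `bp`, `tex`, `lin`), the windows (`phi`, `psi`, `c0`, `HH`,
`Env`), the torus (`Om`, `mu`, `ch`, `om`, `TP`) and the means over `t` (`un`, `ga`) is that of the
library `GT`.
-/

set_option autoImplicit false

namespace Pool.Agent.Lib.G2

open MeasureTheory Set Filter Topology Complex ProbabilityTheory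
open scoped ComplexConjugate
open Pool.Agent.Lib.MP_f9aece_nt (VV)
open Pool.Agent.Lib.J4 (V2)
open Pool.Agent.Lib.GT

/-- the coefficients of the exponential and of the two Euler factors -/
structure Dat where
  g : ℕ → ℂ
  g' : ℕ → ℂ
  a : ℕ → ℂ
  a' : ℕ → ℂ
  b : ℕ → ℂ
  b' : ℕ → ℂ

/-- the standing bounds -/
def Dat.Ok (D : Dat) : Prop := ∀ p : ℕ, ‖D.g p‖ ≤ 2 / Real.sqrt p ∧ ‖D.g' p‖ ≤ 2 / Real.sqrt p ∧
  ‖D.a p‖ ≤ 1 / Real.sqrt p ∧ ‖D.a' p‖ ≤ 1 / Real.sqrt p ∧ ‖D.b p‖ ≤ 1 / Real.sqrt p ∧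
  ‖D.b' p‖ ≤ 1 / Real.sqrt p

/-- one factor -/
noncomputable def hf (D : Dat) (p : ℕ) (y : ℝ) : ℂ :=
  cexp (D.g p * e1 y + D.g' p * conj (e1 y))
    * (((1 - D.a p * e1 y)⁻¹ * (1 - D.a' p * conj (e1 y))⁻¹)
      * ((1 - D.b p * e1 y)⁻¹ * (1 - D.b' p * conj (e1 y))⁻¹))

/-- the exponential and the Euler factors -/
noncomputable def HF (S : Finset ℕ) (D : Dat) (x : Om) : ℂ :=
  cexp (∑ p ∈ S, (D.g p * e1 (x p) + D.g' p * conj (e1 (x p))))
    * ∏ p ∈ S, (((1 - D.a p * e1 (x p))⁻¹ * (1 - D.a' p * conj (e1 (x p)))⁻¹)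
      * ((1 - D.b p * e1 (x p))⁻¹ * (1 - D.b' p * conj (e1 (x p)))⁻¹))

/-- the exponent: sum of the products of the coefficients of `e1 (x p)` and of its conjugate -/
noncomputable def sab (S : Finset ℕ) (h : ℕ → ℝ) (z z' μ1 μ2 : ℂ) (D : Dat) : ℂ :=
  ∑ p ∈ S, ((h p : ℂ) * ((z + conj z') / 2 + μ1) + D.g p + D.a p + D.b p)
    * ((h p : ℂ) * ((z + conj z') / 2 + conj μ2) + D.g' p + D.a' p + D.b' p)

/-! ### parameters -/

/-- `v`, `p0`, `J`, `Y` determine the groups of primes, `i` is the level (it only enters the sizes `r`),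
`sg = 1` or `-1` is the direction of the tilt, `be` the size of the tilt and `b` the inverse of the
width of the windows -/
structure Par where
  v : ℕ
  p0 : ℕ
  J : ℕ
  i : ℕ
  Y : ℝ
  sg : ℝ
  be : ℝ
  b : ℝ

namespace Par

variable (A : Par)

/-- the logarithmic scales -/
noncomputable def Yf (g : ℕ) : ℝ := A.Y * Real.exp (-((A.v : ℝ) * g))

/-- the groups -/
noncomputable def S (g : ℕ) : Finset ℕ :=
  (Finset.Icc 1 ⌊Real.exp (A.Yf g)⌋₊).filter
    fun p => p.Prime ∧ A.p0 < p ∧ Real.exp (A.Yf (g + 1)) < p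

/-- size parameters -/
def r (g : ℕ) : ℕ := A.v * (g + 1 + A.i)

/-- all the primes of the groups -/
noncomputable def U : Finset ℕ := (Finset.range A.J).biUnion A.S

/-- the coefficients of the prime sums -/
noncomputable def h (_A : Par) (p : ℕ) : ℝ := (p : ℝ) ^ (-(1 / 2) : ℝ)

/-- the prime sums of the groups -/
noncomputable def P (g : ℕ) (x : Om) : ℂ := lin (A.S g) (fun p => (A.h p : ℂ)) x

/-- the real part of the prime sum outside the groups of `s` -/
noncomputable def Xt (s : Finset ℕ) (x : Om) : ℝ := ∑ g ∈ Finset.range A.J \ s, (A.P g x).re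

/-- the same with the sign -/
noncomputable def X (s : Finset ℕ) (x : Om) : ℝ := A.sg * A.Xt s x

/-- twice the variance -/
noncomputable def vt : ℝ := ∑ p ∈ A.U, A.h p ^ 2

/-- the variance -/
noncomputable def s2 : ℝ := A.vt / 2

/-- standing assumptions -/
structure Ok (A : Par) : Prop where
  hv : 4 ≤ A.v
  hp : 1000 ≤ A.p0
  hY : 1 ≤ A.Y
  hJ : A.Yf A.J ≤ Real.log A.p0 ∧ ∀ g < A.J, Real.log A.p0 < A.Yf g
  hsg : A.sg = 1 ∨ A.sg = -1
  hbe : 0 < A.be
  hbb : A.be ≤ A.b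
  hb : A.b ≤ 1 / 20
  hs : 1 ≤ A.s2

/-- the size of a window of the density at the level `y` under the tilt -/
noncomputable def G (y : ℝ) : ℝ :=
  1 / Real.sqrt A.s2 * Real.exp (-(A.be * y) + A.be ^ 2 * A.s2 / 2)

/-- the complex tilts -/
noncomputable def zz (η : ℝ) : ℂ := A.be / 2 + I * (A.b * η)

/-- the complex tilts with the sign -/
noncomputable def sz (η : ℝ) : ℂ := A.sg * A.zz η

/-- the transform of the truncated exponentials -/
noncomputable def q (s : Finset ℕ) (y : ℝ) (x : Om) : ℂ :=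
  ∫ η, (phi η : ℂ) * (cexp (-(A.zz η * y)) *
    ∏ g ∈ Finset.range A.J \ s, tex (KK (A.r g)) (A.sz η * ((A.P g x).re : ℂ))) ∂me

/-- the mollifier -/
noncomputable def mo (μ : ℂ) (s : Finset ℕ) (x : Om) : ℂ :=
  ∏ g ∈ Finset.range A.J \ s, tex (KK (A.r g)) (μ * A.P g x)

/-- the powers -/
noncomputable def bb (g : ℕ) (x : Om) : ℝ := bp (A.r g) (A.S g) (fun p => (A.h p : ℂ)) x

/-- the weights: without the truncated exponentials of the groups of `s`, with the powers of the groups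
of `s'` -/
noncomputable def Wg (s s' : Finset ℕ) (y : ℝ) (x : Om) : ℝ :=
  A.b / c0 * (∏ g ∈ s', A.bb g x) * ‖A.q s y x‖ ^ 2

/-- the weights with `s' = s` -/
noncomputable def W (s : Finset ℕ) (y : ℝ) (x : Om) : ℝ := A.Wg s s y x

/-- no large prime sum outside `s` -/
def Good (s : Finset ℕ) (x : Om) : Prop := ∀ g ∈ Finset.range A.J \ s, ‖A.P g x‖ ≤ RR (A.r g)

/-- large prime sums in `s` -/
def Bad (s : Finset ℕ) (x : Om) : Prop := ∀ g ∈ s, RR (A.r g) < ‖A.P g x‖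

/-- the Euler product over the primes of the groups, at distance `κ` to the left of the line -/
noncomputable def FU (κ u : ℝ) (x : Om) : ℂ :=
  ∏ p ∈ A.U, (1 - (p : ℂ) ^ (-(1 / 2 - κ + I * u) : ℂ) * e1 (x p))⁻¹

/-- `∏ (1 - 1/p)⁻¹` over the primes of the groups -/
noncomputable def PU : ℝ := ∏ p ∈ A.U, (1 - (p : ℝ)⁻¹)⁻¹

end Par

/-- integers without prime factor in the groups, `a < log n ≤ b` -/
noncomputable def RoU (A : Par) (a b : ℝ) : Finset ℕ :=
  (Finset.Icc 1 ⌊Real.exp b⌋₊).filter fun n => Real.exp a < n ∧ ∀ p ∈ n.primeFactors, p ∉ A.U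

/-- smooth sums: the weight is `1` for `log n ≤ a - w` and `0` for `log n ≥ a` -/
noncomputable def Sm (w a : ℝ) (x : Om) : ℂ :=
  ∑ n ∈ Finset.Icc 1 ⌊Real.exp a⌋₊, (Real.smoothTransition ((a - Real.log n) / w) : ℂ)
    * ((n : ℂ) ^ (-(1 / 2) : ℂ) * ch x n)

/-- zeta on the critical line -/
noncomputable def ze (t : ℝ) : ℂ := riemannZeta (1 / 2 + I * t)

end Pool.Agent.Lib.G2
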