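import Mathlib
import Pool.Agent.Lib.MP_f9aece_nt_g2.Defs

/-!
The law of `log |zeta|` under the measure `|zeta| ^ 2`: statements of the modules, first part (torus).
Module `X` proves `theorem x : X`; modules using `X` take it as a hypothesis.
-/

set_option autoImplicit false

namespace Pool.Agent.Lib.G2

open MeasureTheory Set Filter Topology Complex ProbabilityTheory
open scoped ComplexConjugate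
open Pool.Agent.Lib.MP_f9aece_nt (VV)
open Pool.Agent.Lib.J4 (V2)
open Pool.Agent.Lib.GT

/-! ### B: one group -/

/-- B1: one prime -/
def OnePrime : Prop := ∀ α β a a' b b' : ℂ, ‖α‖ + ‖a‖ + ‖b‖ ≤ 1 / 2 → ‖β‖ + ‖a'‖ + ‖b'‖ ≤ 1 / 2 →
  ‖∫ x, cexp (α * e1 x + β * conj (e1 x)) * (((1 - a * e1 x)⁻¹ * (1 - a' * conj (e1 x))⁻¹)
        * ((1 - b * e1 x)⁻¹ * (1 - b' * conj (e1 x))⁻¹)) ∂u1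
    - (1 + (α + a + b) * (β + a' + b'))‖
    ≤ 2 * ((‖α‖ + ‖a‖ + ‖b‖) * (‖β‖ + ‖a'‖ + ‖b'‖)) ^ 2

/-- B2: the product over a set of primes -/
def ProdPrimes : Prop := ∃ C : ℝ, 0 ≤ C ∧ ∀ S : Finset ℕ, (∀ p ∈ S, p.Prime ∧ 1000 ≤ p) → ∀ D : Dat,
  (∀ p ∈ S, ‖D.g p‖ ≤ 4 / Real.sqrt p ∧ ‖D.g' p‖ ≤ 4 / Real.sqrt p ∧
    ‖D.a p‖ ≤ 1 / Real.sqrt p ∧ ‖D.a' p‖ ≤ 1 / Real.sqrt p ∧ ‖D.b p‖ ≤ 1 / Real.sqrt p ∧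
    ‖D.b' p‖ ≤ 1 / Real.sqrt p) →
  ‖∫ x, HF S D x ∂mu - cexp (∑ p ∈ S, (D.g p + D.a p + D.b p) * (D.g' p + D.a' p + D.b' p))‖
    ≤ C * V2 S * ‖cexp (∑ p ∈ S, (D.g p + D.a p + D.b p) * (D.g' p + D.a' p + D.b' p))‖

/-- B3: exponential moments -/
def ExpMom : Prop := ∀ S : Finset ℕ, (∀ p ∈ S, p.Prime ∧ 1000 ≤ p) → ∀ D : Dat, D.Ok →
  ∀ c : ℕ → ℂ, (∀ p ∈ S, ‖c p‖ ≤ 1 / Real.sqrt p) → ∀ κ : ℝ, 0 ≤ κ → κ ≤ 8 →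
  ∫ x, Real.exp (κ * ‖lin S c x‖) * ‖HF S D x‖ ∂mu ≤ 4 * Real.exp (200 * VV S)

/-- B4: the truncated exponentials of a group -/
def GroupMain : Prop := ∃ C : ℝ, 0 ≤ C ∧ ∀ (S : Finset ℕ) (r : ℕ), (∀ p ∈ S, p.Prime ∧ 1000 ≤ p) →
  1 ≤ r → VV S ≤ 2 * r → ∀ h : ℕ → ℝ, (∀ p ∈ S, 0 ≤ h p ∧ h p ≤ 1 / Real.sqrt p) →
  ∀ z z' μ1 μ2 : ℂ, ‖z‖ ≤ 1 → ‖z'‖ ≤ 1 → ‖μ1‖ ≤ 1 → ‖μ2‖ ≤ 1 → ∀ D : Dat, D.Ok →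
  ‖∫ x, GF r S h z z' μ1 μ2 x * HF S D x ∂mu - cexp (sab S h z z' μ1 μ2 D)‖
    ≤ (Real.exp (-r) + C * V2 S) * ‖cexp (sab S h z z' μ1 μ2 D)‖

/-- B5: the powers of a group -/
def GroupBad : Prop := ∀ (S : Finset ℕ) (r : ℕ), (∀ p ∈ S, p.Prime ∧ 1000 ≤ p) →
  1 ≤ r → VV S ≤ 2 * r → ∀ h : ℕ → ℝ, (∀ p ∈ S, 0 ≤ h p ∧ h p ≤ 1 / Real.sqrt p) →
  ∀ z z' μ1 μ2 : ℂ, ‖z‖ ≤ 1 → ‖z'‖ ≤ 1 → ‖μ1‖ ≤ 1 → ‖μ2‖ ≤ 1 → ∀ D : Dat, D.Ok →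
  ∀ c : ℕ → ℂ, (∀ p ∈ S, ‖c p‖ ≤ 1 / Real.sqrt p) →
  ∫ x, bp r S c x * (1 + ‖GF r S h z z' μ1 μ2 x‖) * ‖HF S D x‖ ∂mu
    ≤ Real.exp (-(2 * r)) * ‖cexp (sab S h z z' μ1 μ2 D)‖

/-! ### B: all the groups -/

/-- the product over the groups: `s` without truncated exponentials, `s'` with powers -/
noncomputable def AllF (A : Par) (s s' : Finset ℕ) (c : ℕ → ℂ) (z z' μ1 μ2 : ℂ) (D : Dat) (x : Om) : ℂ :=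
  ∏ g ∈ Finset.range A.J, ((if g ∈ s then 1 else GF (A.r g) (A.S g) A.h z z' μ1 μ2 x)
    * (if g ∈ s' then (bp (A.r g) (A.S g) c x : ℂ) else 1) * HF (A.S g) D x)

/-- B6: the main term -/
def AllMain : Prop := ∃ C : ℝ, 0 ≤ C ∧ ∀ A : Par, A.Ok → ∀ z z' μ1 μ2 : ℂ, ‖z‖ ≤ 1 → ‖z'‖ ≤ 1 →
  ‖μ1‖ ≤ 1 → ‖μ2‖ ≤ 1 → ∀ D : Dat, D.Ok → ∀ c : ℕ → ℂ,
  ‖∫ x, AllF A ∅ ∅ c z z' μ1 μ2 D x ∂mu - cexp (sab A.U A.h z z' μ1 μ2 D)‖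
    ≤ C * (Real.exp (-A.v) + 1 / A.p0) * ‖cexp (sab A.U A.h z z' μ1 μ2 D)‖

/-- B7: the bound for the bad sets -/
def AllBd : Prop := ∃ C : ℝ, 0 ≤ C ∧ ∀ A : Par, A.Ok → ∀ z z' μ1 μ2 : ℂ, ‖z‖ ≤ 1 → ‖z'‖ ≤ 1 →
  ‖μ1‖ ≤ 1 → ‖μ2‖ ≤ 1 → ∀ D : Dat, D.Ok → ∀ c : ℕ → ℂ, (∀ p : ℕ, ‖c p‖ ≤ 1 / Real.sqrt p) →
  ∀ s s' : Finset ℕ, s ⊆ s' → s' ⊆ Finset.range A.J →
  ‖∫ x, AllF A s s' c z z' μ1 μ2 D x ∂mu‖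
    ≤ C * Real.exp (-(2 * ∑ g ∈ s', (A.r g : ℝ))) * ‖cexp (sab A.U A.h z z' μ1 μ2 D)‖

/-! ### N: numerical facts about the groups -/

/-- the size of the lengths -/
noncomputable def Par.KY (A : Par) : ℝ := A.v * (A.i + 1) * A.Y

/-- N1: sizes of the groups -/
def GroupNum : Prop := ∀ A : Par, A.Ok →
  (∀ g, ∀ p ∈ A.S g, p.Prime ∧ 1000 ≤ p ∧ A.p0 < p ∧ (p : ℝ) ≤ Real.exp (A.Yf g)) ∧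
  (∀ g, VV (A.S g) ≤ 2 * A.r g) ∧
  (∀ g h, g ≠ h → Disjoint (A.S g) (A.S h)) ∧
  (∀ p, p ∈ A.U ↔ p.Prime ∧ A.p0 < p ∧ (p : ℝ) ≤ Real.exp A.Y) ∧
  ∑ g ∈ Finset.range A.J, (A.r g : ℝ) ≤ 4 * A.KY ∧
  ∑ g ∈ Finset.range A.J, Real.exp (-(A.r g : ℝ)) ≤ 2 * Real.exp (-(A.v * (A.i + 1) : ℝ)) ∧
  ∑ g ∈ Finset.range A.J, (A.r g : ℝ) * A.Yf g ≤ 2 * A.KY ∧
  (∀ g < A.J, 6 ≤ A.Yf g)

/-- N2: Mertens bounds for the sums occurring in the exponents -/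
def PrimeSums : Prop := ∃ C : ℝ, 0 ≤ C ∧ ∀ A : Par, A.Ok →
  (∀ u : ℝ, ∑ p ∈ A.U, (p : ℝ)⁻¹ * ‖(p : ℂ) ^ (-(I * u) : ℂ) - 1‖ ^ 2
    ≤ 17 / 4 * Real.log (1 + A.Y * |u|) + C) ∧
  (∀ u : ℝ, ∑ p ∈ A.U, (p : ℝ)⁻¹ * ‖(p : ℂ) ^ (-(I * u) : ℂ) - 1‖
    ≤ 2 * Real.log (1 + A.Y * |u|) + C) ∧
  (∀ κ : ℝ, |κ| ≤ 1 / A.Y → ∑ p ∈ A.U, (p : ℝ)⁻¹ * |(p : ℝ) ^ κ - 1| ≤ C ∧
    ∑ p ∈ A.U, (p : ℝ)⁻¹ * |(p : ℝ) ^ (2 * κ) - 1| ≤ C)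

/-- N3: the variance and the Euler product; `exp vt` is comparable with `Y` -/
def Variance : Prop := (∃ C : ℝ, 0 ≤ C ∧ ∀ A : Par, 1000 ≤ A.p0 → 1 ≤ A.Y →
    (∀ p, p ∈ A.U ↔ p.Prime ∧ A.p0 < p ∧ (p : ℝ) ≤ Real.exp A.Y) →
    |A.vt - Real.log A.Y| ≤ C + Real.log A.p0) ∧
  (∀ A : Par, A.Ok → Real.exp A.vt ≤ A.PU ∧ A.PU ≤ (1 + 4 / A.p0) * Real.exp A.vt)

/-! ### C: the weights -/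

/-- C3: the weights as double integrals -/
def WForm : Prop := ∀ (A : Par) (s s' : Finset ℕ) (y : ℝ) (x : Om) (μ1 μ2 : ℂ),
  s ⊆ Finset.range A.J → s' ⊆ Finset.range A.J →
  (A.Wg s s' y x : ℂ) * (A.mo μ1 s x * conj (A.mo μ2 s x))
    = (A.b / c0 : ℝ) * ∫ w : ℝ × ℝ, (phi w.1 * phi w.2 : ℝ)
      * (cexp (-((A.zz w.1 + conj (A.zz w.2)) * y))
        * ∏ g ∈ Finset.range A.J, ((if g ∈ s then 1 else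
            GF (A.r g) (A.S g) A.h (A.sz w.1) (A.sz w.2) μ1 μ2 x)
          * (if g ∈ s' then (A.bb g x : ℂ) else 1))) ∂(me.prod me)

/-- C4: lengths -/
def WLen : Prop := ∀ A : Par, A.Ok → ∀ z z' μ1 μ2 : ℂ, ‖z‖ ≤ 1 → ‖z'‖ ≤ 1 → ‖μ1‖ ≤ 1 → ‖μ2‖ ≤ 1 →
  ∀ s s' : Finset ℕ, s ⊆ s' → s' ⊆ Finset.range A.J →
  TP (Real.exp (10 ^ 7 * A.KY)) (Real.exp (10 ^ 7 * A.KY))
    (fun x => ∏ g ∈ Finset.range A.J, ((if g ∈ s then 1 else GF (A.r g) (A.S g) A.h z z' μ1 μ2 x)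
          * (if g ∈ s' then (A.bb g x : ℂ) else 1)))

/-- C5: the weights along the flow, with a trigonometric polynomial -/
def WTransfer : Prop := ∃ C : ℝ, 0 ≤ C ∧ ∀ A : Par, A.Ok → ∀ s s' : Finset ℕ, s ⊆ s' →
  s' ⊆ Finset.range A.J →
  ∀ μ1 μ2 : ℂ, ‖μ1‖ ≤ 1 → ‖μ2‖ ≤ 1 → ∀ (N c : ℝ) (H : Om → ℂ), 1 ≤ N → TP N c H → ∀ x T y : ℝ, 0 < T →
  ‖∫ t, (A.Wg s s' y (om t) : ℂ) * (A.mo μ1 s (om t) * conj (A.mo μ2 s (om t))) * H (om t) ∂(un x T)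
      - ∫ w, (A.Wg s s' y w : ℂ) * (A.mo μ1 s w * conj (A.mo μ2 s w)) * H w ∂mu‖
    ≤ C * Real.exp (-(A.be * y)) * (Real.exp (2 * 10 ^ 7 * A.KY) * (c * N / T)) ∧
  ‖∫ t, (A.Wg s s' y (om t) : ℂ) * (A.mo μ1 s (om t) * conj (A.mo μ2 s (om t))) * H (om t) ∂(ga x T)
      - ∫ w, (A.Wg s s' y w : ℂ) * (A.mo μ1 s w * conj (A.mo μ2 s w)) * H w ∂mu‖
    ≤ C * Real.exp (-(A.be * y)) * (Real.exp (10 ^ 7 * A.KY) * (c *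
      Real.exp (-(T ^ 2 / (4 * (Real.exp (10 ^ 7 * A.KY) * N) ^ 2)))))

/-- C6: the Gaussian integral of the window -/
def WGauss : Prop := ∃ C : ℝ, 0 ≤ C ∧ ∀ A : Par, A.Ok → ∀ y : ℝ,
  ((A.b / c0 : ℝ) * ∫ w : ℝ × ℝ, (phi w.1 * phi w.2 : ℝ) * (cexp (-((A.zz w.1 + conj (A.zz w.2)) * y))
      * cexp ((A.zz w.1 + conj (A.zz w.2)) ^ 2 * A.vt / 4)) ∂(me.prod me)
    = ((∫ x, HH A.be A.b y x ∂(gaussianReal 0 (Real.toNNReal A.s2)) : ℝ) : ℂ)) ∧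
  A.b / c0 * ∫ w : ℝ × ℝ, (phi w.1 * phi w.2) * Real.exp (-(A.be * y)
      + (A.be ^ 2 - A.b ^ 2 * (w.1 - w.2) ^ 2) * A.vt / 4) ∂(me.prod me) ≤ C * A.G y ∧
  ∫ x, Env A.be A.b y x ∂(gaussianReal 0 (Real.toNNReal A.s2)) ≤ C * A.G y

/-- functions of the small primes -/
def Small (A : Par) (k0 : ℝ) (Q : Om → ℂ) : Prop :=
  Measurable Q ∧ Dep {p : ℕ | p ≤ A.p0} Q ∧ ∀ x, ‖Q x‖ ≤ k0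

/-- the condition on the exponents -/
def ExpBd (A : Par) (μ1 μ2 : ℂ) (D : Dat) (B : ℝ) : Prop := ∀ η η' : ℝ, |η| ≤ 1 / 2 → |η'| ≤ 1 / 2 →
  (sab A.U A.h (A.sz η) (A.sz η') μ1 μ2 D).re ≤ (A.be ^ 2 - A.b ^ 2 * (η - η') ^ 2) * A.vt / 4 + B

/-- C7: the weights on the torus, main term -/
def WMain : Prop := ∃ C : ℝ, 0 ≤ C ∧ ∀ A : Par, A.Ok → ∀ μ1 μ2 : ℂ, ‖μ1‖ ≤ 1 → ‖μ2‖ ≤ 1 →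
  ∀ D : Dat, D.Ok → ∀ B : ℝ, ExpBd A μ1 μ2 D B → ∀ (k0 : ℝ) (Q : Om → ℂ), Small A k0 Q → ∀ y : ℝ,
  ‖∫ x, (A.W ∅ y x : ℂ) * (A.mo μ1 ∅ x * conj (A.mo μ2 ∅ x)) * (HF A.U D x * Q x) ∂mu
    - (A.b / c0 : ℝ) * (∫ w : ℝ × ℝ, (phi w.1 * phi w.2 : ℝ)
        * (cexp (-((A.zz w.1 + conj (A.zz w.2)) * y))
          * cexp (sab A.U A.h (A.sz w.1) (A.sz w.2) μ1 μ2 D)) ∂(me.prod me)) * ∫ x, Q x ∂mu‖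
    ≤ C * (Real.exp (-A.v) + 1 / A.p0) * k0 * Real.exp B * A.G y

/-- C8: the weights on the torus, bound -/
def WBd : Prop := ∃ C : ℝ, 0 ≤ C ∧ ∀ A : Par, A.Ok → ∀ μ1 μ2 : ℂ, ‖μ1‖ ≤ 1 → ‖μ2‖ ≤ 1 →
  ∀ D : Dat, D.Ok → ∀ B : ℝ, ExpBd A μ1 μ2 D B → ∀ (k0 : ℝ) (Q : Om → ℂ), Small A k0 Q → ∀ y : ℝ,
  ∀ s s' : Finset ℕ, s ⊆ s' → s' ⊆ Finset.range A.J →
    ‖∫ x, (A.Wg s s' y x : ℂ) * (A.mo μ1 s x * conj (A.mo μ2 s x)) * (HF A.U D x * Q x) ∂mu‖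
      ≤ C * Real.exp (-(2 * ∑ g ∈ s', (A.r g : ℝ))) * k0 * Real.exp B * A.G y

/-- C9: pointwise, the weights at a good point -/
def Pointwise : Prop := ∃ C : ℝ, 0 ≤ C ∧ ∀ A : Par, A.Ok → ∀ s : Finset ℕ, s ⊆ Finset.range A.J →
  ∀ x : Om, A.Good s x →
  (∀ y : ℝ, ‖A.q s y x * Real.exp (-(A.be * (A.X s x - y) / 2)) - psi (A.b * (A.X s x - y))‖
    ≤ C * Real.exp (-A.v) / (1 + (A.b * (A.X s x - y)) ^ 2)) ∧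
  ∀ m : ℝ, m = 1 ∨ m = -1 →
    ‖A.mo m s x * cexp (-(m * ∑ g ∈ Finset.range A.J \ s, A.P g x)) - 1‖ ≤ C * Real.exp (-A.v)

/-- C10: the weights at a good point and the windows -/
def WPoint : Prop := ∃ (C C1 : ℝ) (v0 : ℕ), 1 ≤ C ∧ 1 ≤ C1 ∧ ∀ A : Par, A.Ok → v0 ≤ A.v →
  ∀ s : Finset ℕ, s ⊆ Finset.range A.J → ∀ x : Om, A.Good s x → A.Bad s x →
  (∀ V : ℝ, V < A.X s x →
    1 ≤ ENNReal.ofReal C * ∫⁻ y in Ioi (V - C1 / A.b), ENNReal.ofReal (A.W s y x)) ∧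
  (∀ V : ℝ, A.X s x ≤ V → ENNReal.ofReal (Real.exp (2 * (A.X s x - V)))
    ≤ ENNReal.ofReal C *
      ∫⁻ y in Iio (V + C1 / A.b), ENNReal.ofReal (Real.exp (A.b * (y - V)) * A.W s y x)) ∧
  (∀ y : ℝ, ENNReal.ofReal (Env A.be A.b y (A.X s x)) ≤ ENNReal.ofReal (C * A.b) *
    ∫⁻ y', ENNReal.ofReal (Real.exp (A.be * (y' - y)) / (1 + (A.b * (y' - y)) ^ 2) * A.W s y' x)) ∧
  (s = ∅ → ∀ y : ℝ, |A.W ∅ y x - HH A.be A.b y (A.X ∅ x)|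
    ≤ C * Real.exp (-A.v) * Env A.be A.b y (A.X ∅ x)) ∧
  ∀ m : ℝ, m = 1 ∨ m = -1 → 1 / 2 * Real.exp (2 * m * A.Xt s x) ≤ ‖A.mo m s x‖ ^ 2 ∧
    ‖A.mo m s x‖ ^ 2 ≤ 2 * Real.exp (2 * m * A.Xt s x)

/-! ### T: Euler products and smooth sums on the torus -/

/-- the size of the windows under the measure `|zeta| ^ 2` -/
noncomputable def Par.Gs (A : Par) (y : ℝ) : ℝ := A.G (y - A.sg * A.vt)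

/-- T1: the Euler products under the tilt -/
def FuBd : Prop := ∃ C : ℝ, 1 ≤ C ∧ ∀ A : Par, A.Ok → ∀ s s' : Finset ℕ, s ⊆ s' →
  s' ⊆ Finset.range A.J → ∀ y u κ : ℝ, |κ| ≤ 1 / A.Y →
  ∫ x, A.Wg s s' y x * ‖A.FU κ u x‖ ^ 2 ∂mu
    ≤ C * Real.exp (-(2 * ∑ g ∈ s', (A.r g : ℝ))) * (1 + A.Y * |u|) ^ 3 * (Real.exp A.vt * A.Gs y)

/-- T1b: the Euler products are continuous in the shift -/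
def FuDiff : Prop := ∃ C : ℝ, 1 ≤ C ∧ ∀ A : Par, A.Ok → ∀ y u : ℝ,
  ∫ x, A.W ∅ y x * ‖A.FU 0 u x - A.FU 0 0 x‖ ^ 2 ∂mu
    ≤ C * (A.Y * |u|) ^ 2 * (1 + A.Y * |u|) ^ 3 * (Real.exp A.vt * A.Gs y)

/-- T2: two Euler products and the mollifier -/
def FuFour : Prop := ∃ C : ℝ, 1 ≤ C ∧ ∀ A : Par, A.Ok → ∀ y u1 u2 : ℝ,
  ∫ x, A.W ∅ y x * ‖A.mo (-1) ∅ x‖ ^ 2 * (‖A.FU 0 u1 x‖ ^ 2 * ‖A.FU 0 u2 x‖ ^ 2) ∂mu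
    ≤ C * ((1 + A.Y * |u1|) ^ 9 * (1 + A.Y * |u2|) ^ 9) * (Real.exp A.vt * A.Gs y)

/-- T6: the Euler product on the line, main term -/
def FuMain : Prop := ∃ C : ℝ, 1 ≤ C ∧ ∀ A : Par, A.Ok → ∀ y : ℝ,
  |∫ x, A.W ∅ y x * ‖A.FU 0 0 x‖ ^ 2 ∂mu
      - Real.exp A.vt * ∫ z, HH A.be A.b (y - A.sg * A.vt) z ∂(gaussianReal 0 (Real.toNNReal A.s2))|
    ≤ C * (Real.exp (-A.v) + 1 / A.p0) * (Real.exp A.vt * A.Gs y)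

/-- T7: the inverse of the mollifier -/
def MoBd : Prop := ∃ C : ℝ, 1 ≤ C ∧ ∀ A : Par, A.Ok → ∀ s : Finset ℕ, s ⊆ Finset.range A.J → ∀ y : ℝ,
  ∫ x, A.W s y x * ‖A.mo 1 s x‖ ^ 2 ∂mu
    ≤ C * Real.exp (-(2 * ∑ g ∈ s, (A.r g : ℝ))) * (Real.exp A.vt * A.Gs y)

/-- integers without prime factor in the groups -/
noncomputable def Ro (A : Par) (N : ℕ) : Finset ℕ :=
  (Finset.Icc 1 N).filter fun n => ∀ p ∈ n.primeFactors, p ∉ A.U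

/-- integers with all prime factors in the groups -/
noncomputable def Smo (A : Par) (N : ℕ) : Finset ℕ :=
  (Finset.Icc 1 N).filter fun n => ∀ p ∈ n.primeFactors, p ∈ A.U

/-- sums with a weight of `log n` -/
noncomputable def Sr (N : ℕ) (ρ : ℝ → ℂ) (x : Om) : ℂ :=
  ∑ n ∈ Finset.Icc 1 N, ρ (Real.log n) * ((n : ℂ) ^ (-(1 / 2) : ℂ) * ch x n)

/-- the part of the sum belonging to the rough number `l` -/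
noncomputable def Sl (A : Par) (N : ℕ) (ρ : ℝ → ℂ) (l : ℕ) (x : Om) : ℂ :=
  ∑ m ∈ Smo A (N / l), ρ (Real.log l + Real.log m) * ((m : ℂ) ^ (-(1 / 2) : ℂ) * ch x m)

/-- T0a: sums on the torus through their rough parts -/
def SForm : Prop := ∀ A : Par, A.Ok → ∀ (f : Om → ℝ) (B : ℝ), Measurable f → (∀ x, 0 ≤ f x ∧ f x ≤ B) →
  Dep (A.U : Set ℕ) f → ∀ (N : ℕ) (ρ ρ' : ℝ → ℂ),
  (∫ x, f x * ‖Sr N ρ x‖ ^ 2 ∂mu = ∑ l ∈ Ro A N, (l : ℝ)⁻¹ * ∫ x, f x * ‖Sl A N ρ l x‖ ^ 2 ∂mu) ∧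
  (∫ x, f x * (‖Sr N ρ x‖ ^ 2 * ‖Sr N ρ' x‖ ^ 2) ∂mu
    ≤ ∑ l ∈ Ro A N, ∑ l' ∈ Ro A N, (l.divisors.card : ℝ) * l'.divisors.card * ((l : ℝ)⁻¹ * (l' : ℝ)⁻¹)
      * ∫ x, f x * (‖Sl A N ρ l x‖ ^ 2 * ‖Sl A N ρ' l' x‖ ^ 2) ∂mu)

/-- T0b: the part of the sum belonging to `l` through Euler products -/
def SKer : Prop := ∀ A : Par, A.Ok → ∀ (N l : ℕ), 1 ≤ l → ∀ (ρ K : ℝ → ℂ) (κ : ℝ), κ ≤ 1 / 4 →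
  Integrable K → (∀ n : ℕ, N < n → ρ (Real.log n) = 0) →
  (∀ ξ : ℝ, 0 ≤ ξ → ρ (Real.log l + ξ) = Real.exp (κ * ξ) * ∫ u, K u * cexp (-(I * u * ξ))) →
  ∀ x : Om, Sl A N ρ l x = ∫ u, K u * A.FU κ u x

/-- K1: the cut-offs as transforms -/
def Ker1 : Prop := ∃ C : ℝ, 1 ≤ C ∧ ∀ w a : ℝ, 0 < w →
  ∃ K : ℝ → ℂ, Continuous K ∧ (∀ u, ‖K u‖ ≤ C * ((|a| + w) / (1 + w * |u|) ^ 20)) ∧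
    (∀ u, |u| * ‖K u‖ ≤ C / (1 + w * |u|) ^ 19) ∧
    ∀ ξ : ℝ, 0 ≤ ξ → (Real.smoothTransition ((a - ξ) / w) : ℂ) = ∫ u, K u * cexp (-(I * u * ξ))

/-- K2: windows with an exponential factor as transforms -/
def Ker2 : Prop := ∃ C : ℝ, 1 ≤ C ∧ ∀ w Y c a : ℝ, 0 < Y → Y ≤ w → w ≤ c → c + w ≤ a → a ≤ c + 200 * w →
  ∃ K : ℝ → ℂ, Continuous K ∧
    (∀ u, ‖K u‖ ≤ C * (Real.exp (-((c - w) / Y)) * (Y / (1 + Y * |u|) ^ 8))) ∧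
    ∀ ξ : ℝ, 0 ≤ ξ → (Real.smoothTransition ((a - ξ) / w) - Real.smoothTransition ((c - ξ) / w) : ℂ)
      = Real.exp (1 / Y * ξ) * ∫ u, K u * cexp (-(I * u * ξ))

/-- T9: sums over rough numbers -/
def RouNum : Prop := ∀ p0 : ℕ, 1000 ≤ p0 → ∃ C : ℝ, 1 ≤ C ∧ ∀ A : Par, A.Ok → A.p0 = p0 →
  (∀ α β : ℝ, α ≤ β → ∀ N : ℕ,
    ∑ l ∈ (Ro A N).filter (fun l : ℕ => α < Real.log l ∧ Real.log l ≤ β), (l : ℝ)⁻¹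
      ≤ C * ((β - α) / A.Y + 1)) ∧
  (∀ N : ℕ, A.Y ≤ Real.log N →
    |∑ l ∈ Ro A N, (l : ℝ)⁻¹ - Real.log N / A.PU| ≤ C * (1 + Real.log (Real.log N / A.Y))) ∧
  (∀ N : ℕ, ∑ l ∈ Ro A N, (l.divisors.card : ℝ) * (l : ℝ)⁻¹ ≤ C * (Real.log N / A.Y + 1) ^ 2)

/-- T3: windows -/
def SmWin : Prop := ∀ p0 : ℕ, 1000 ≤ p0 → ∃ C : ℝ, 1 ≤ C ∧ ∀ A : Par, A.Ok → A.p0 = p0 → ∀ w c a : ℝ,
  A.Y ≤ w → w ≤ c → c ≤ a → a ≤ c + 100 * w → ∀ s : Finset ℕ, s ⊆ Finset.range A.J → ∀ y : ℝ,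
  ∫ x, A.W s y x * ‖Sm w a x - Sm w c x‖ ^ 2 ∂mu
    ≤ C * (w / A.Y) * Real.exp (-(2 * ∑ g ∈ s, (A.r g : ℝ))) * (Real.exp A.vt * A.Gs y)

/-- T4: upper bound for the smooth sums -/
def SmUp : Prop := ∀ p0 : ℕ, 1000 ≤ p0 → ∃ C : ℝ, 1 ≤ C ∧ ∀ A : Par, A.Ok → A.p0 = p0 → ∀ w a : ℝ,
  A.Y ≤ w → w ≤ a → ∀ s s' : Finset ℕ, s ⊆ s' → s' ⊆ Finset.range A.J → ∀ y : ℝ,
  ∫ x, A.Wg s s' y x * ‖Sm w a x‖ ^ 2 ∂mu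
    ≤ C * (a / w) ^ 2 * (a / A.Y) * Real.exp (-(2 * ∑ g ∈ s', (A.r g : ℝ))) * (Real.exp A.vt * A.Gs y)

/-- T5: asymptotics for the smooth sums -/
def SmMain : Prop := ∃ C : ℝ, 1 ≤ C ∧ ∀ p0 : ℕ, 1000 ≤ p0 → ∃ C' : ℝ, 1 ≤ C' ∧ ∀ A : Par, A.Ok →
  A.p0 = p0 → ∀ w c : ℝ, A.Y ≤ w → 2 * w ≤ c → ∀ y : ℝ,
  |∫ x, A.W ∅ y x * ‖Sm w c x‖ ^ 2 ∂mu
      - c * ∫ z, HH A.be A.b (y - A.sg * A.vt) z ∂(gaussianReal 0 (Real.toNNReal A.s2))|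
    ≤ (C * (Real.exp (-A.v) + 1 / A.p0 + A.Y / w) * c + C' * (w + Real.sqrt (c * A.Y))) * A.Gs y

/-- T8: two smooth sums and the mollifier -/
def SmFour : Prop := ∀ p0 : ℕ, 1000 ≤ p0 → ∃ C : ℝ, 1 ≤ C ∧ ∀ A : Par, A.Ok → A.p0 = p0 →
  ∀ w a c Λ : ℝ, A.Y ≤ w → w ≤ a → w ≤ c → a ≤ Λ → c ≤ Λ → ∀ y : ℝ,
  ∫ x, A.W ∅ y x * ‖A.mo (-1) ∅ x‖ ^ 2 * (‖Sm w a x‖ ^ 2 * ‖Sm w c x‖ ^ 2) ∂mu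
    ≤ C * (Λ / w) ^ 4 * (Λ / A.Y) ^ 4 * (Real.exp A.vt * A.Gs y)

end Pool.Agent.Lib.G2
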