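import Mathlib
import Pool.Agent.Lib.MP_f9aece_nt_g2.Stmts
import Pool.Agent.Lib.MP_f9aece_nt_gt.B1

/-!
B1: one prime.
-/

set_option autoImplicit false

namespace Pool.Agent.Lib.G2

open MeasureTheory Set Filter Topology Complex ProbabilityTheory
open scoped ComplexConjugate
open Pool.Agent.Lib.GT

/-- coefficients of `exp (α w) / ((1 - a w) (1 - b w))` -/
noncomputable def cf3 (α a b : ℂ) (n : ℕ) : ℂ :=
  ∑ k ∈ Finset.range (n + 1), cf α a k * b ^ (n - k)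

lemma cf3_zero (α a b : ℂ) : cf3 α a b 0 = 1 := by simp [cf3, cf_zero]

lemma cf3_one (α a b : ℂ) : cf3 α a b 1 = α + a + b := by
  simp [cf3, Finset.sum_range_succ, cf_zero, cf_one]
  ring

lemma norm_cf3_le (α a b : ℂ) (n : ℕ) : ‖cf3 α a b n‖ ≤ (‖α‖ + ‖a‖ + ‖b‖) ^ n := by
  unfold cf3
  rw [add_pow]
  refine (norm_sum_le _ _).trans (Finset.sum_le_sum fun k hk => ?_)
  have hk' : k ≤ n := by have := Finset.mem_range.mp hk; omega
  rw [norm_mul, norm_pow]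
  have h1 : (1 : ℝ) ≤ (n.choose k : ℝ) := by exact_mod_cast Nat.choose_pos hk'
  calc ‖cf α a k‖ * ‖b‖ ^ (n - k) ≤ (‖α‖ + ‖a‖) ^ k * ‖b‖ ^ (n - k) := by
        gcongr
        exact norm_cf_le α a k
    _ = (‖α‖ + ‖a‖) ^ k * ‖b‖ ^ (n - k) * 1 := (mul_one _).symm
    _ ≤ (‖α‖ + ‖a‖) ^ k * ‖b‖ ^ (n - k) * (n.choose k : ℝ) := by gcongr

lemma tsum_cf3 {α a b w : ℂ} (hw : ‖w‖ ≤ 1) (h : ‖α‖ + ‖a‖ + ‖b‖ ≤ 1 / 2) :
    cexp (α * w) * ((1 - a * w)⁻¹ * (1 - b * w)⁻¹) = ∑' n, cf3 α a b n * w ^ n := by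
  have hα := norm_nonneg α
  have hA := norm_nonneg a
  have hB := norm_nonneg b
  have ha : ‖a * w‖ < 1 := by
    rw [norm_mul]
    nlinarith [norm_nonneg w]
  have hb : ‖b * w‖ < 1 := by
    rw [norm_mul]
    nlinarith [norm_nonneg w]
  have h2 : (1 - b * w)⁻¹ = ∑' n : ℕ, (b * w) ^ n := (tsum_geometric_of_norm_lt_one hb).symm
  have s1 : Summable fun n : ℕ => ‖cf α a n * w ^ n‖ := by
    refine Summable.of_nonneg_of_le (fun _ => norm_nonneg _) (fun n => ?_)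
      (summable_geometric_of_lt_one (by positivity : 0 ≤ ‖α‖ + ‖a‖) (by linarith))
    rw [norm_mul, norm_pow]
    calc ‖cf α a n‖ * ‖w‖ ^ n ≤ (‖α‖ + ‖a‖) ^ n * 1 := by
          gcongr
          · exact norm_cf_le α a n
          · exact pow_le_one₀ (norm_nonneg _) hw
      _ = _ := mul_one _
  have s2 : Summable fun n : ℕ => ‖(b * w) ^ n‖ := by
    simp_rw [norm_pow]
    exact summable_geometric_of_lt_one (norm_nonneg _) hb
  rw [← mul_assoc, tsum_cf α a w ha, h2, tsum_mul_tsum_eq_tsum_sum_range_of_summable_norm s1 s2]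
  refine tsum_congr fun n => ?_
  unfold cf3
  rw [Finset.sum_mul]
  refine Finset.sum_congr rfl fun k hk => ?_
  have hk' : k ≤ n := by have := Finset.mem_range.mp hk; omega
  have h3 : w ^ n = w ^ k * w ^ (n - k) := by rw [← pow_add]; congr 1; omega
  rw [h3, mul_pow]
  ring

theorem onePrime : OnePrime := by
  intro α β a a' b b' h1 h2
  set Q : ℝ := ‖α‖ + ‖a‖ + ‖b‖ with hQ
  set Q' : ℝ := ‖β‖ + ‖a'‖ + ‖b'‖ with hQ'
  have hQ0 : 0 ≤ Q := by positivity
  have hQ0' : 0 ≤ Q' := by positivity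
  have e : ∀ x : ℝ, cexp (α * e1 x + β * conj (e1 x)) * (((1 - a * e1 x)⁻¹ * (1 - a' * conj (e1 x))⁻¹)
        * ((1 - b * e1 x)⁻¹ * (1 - b' * conj (e1 x))⁻¹))
      = (∑' n, cf3 α a b n * e1 x ^ n) * (∑' n, cf3 β a' b' n * conj (e1 x) ^ n) := by
    intro x
    rw [← tsum_cf3 (by rw [norm_e1]) h1, ← tsum_cf3 (by rw [Complex.norm_conj, norm_e1]) h2,
      Complex.exp_add]
    ring
  have sA : Summable fun n => ‖cf3 α a b n‖ :=
    Summable.of_nonneg_of_le (fun _ => norm_nonneg _) (norm_cf3_le α a b)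
      (summable_geometric_of_lt_one hQ0 (by linarith))
  have sB : Summable fun n => ‖cf3 β a' b' n‖ :=
    Summable.of_nonneg_of_le (fun _ => norm_nonneg _) (norm_cf3_le β a' b')
      (summable_geometric_of_lt_one hQ0' (by linarith))
  simp_rw [e]
  rw [integral_series sA sB]
  have hq : Q * Q' ≤ 1 / 4 := by nlinarith
  have hq0 : 0 ≤ Q * Q' := by positivity
  have hb : ∀ n, ‖cf3 α a b n * cf3 β a' b' n‖ ≤ (Q * Q') ^ n := by
    intro n
    rw [norm_mul, mul_pow]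
    exact mul_le_mul (norm_cf3_le _ _ _ _) (norm_cf3_le _ _ _ _) (norm_nonneg _) (by positivity)
  have sg : Summable fun n : ℕ => (Q * Q') ^ n := summable_geometric_of_lt_one hq0 (by linarith)
  have sAB : Summable fun n => cf3 α a b n * cf3 β a' b' n := Summable.of_norm_bounded sg hb
  rw [← sAB.sum_add_tsum_nat_add 2]
  simp only [Finset.sum_range_succ, Finset.range_zero, Finset.sum_empty, zero_add, cf3_zero, cf3_one,
    mul_one]
  rw [add_sub_cancel_left]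
  have s2 : Summable fun n : ℕ => (Q * Q') ^ (n + 2) := (summable_nat_add_iff 2).mpr sg
  have h3 : ‖∑' n, cf3 α a b (n + 2) * cf3 β a' b' (n + 2)‖ ≤ ∑' n : ℕ, (Q * Q') ^ (n + 2) :=
    tsum_of_norm_bounded s2.hasSum fun n => hb (n + 2)
  refine h3.trans ?_
  have h4 : ∑' n : ℕ, (Q * Q') ^ (n + 2) = (Q * Q') ^ 2 * (1 - Q * Q')⁻¹ := by
    rw [← tsum_geometric_of_lt_one hq0 (by linarith), ← tsum_mul_left]
    refine tsum_congr fun n => ?_
    rw [pow_add]
    ring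
  rw [h4]
  have h5 : (1 - Q * Q')⁻¹ ≤ 2 := by
    rw [inv_le_comm₀ (by linarith) (by norm_num)]
    linarith
  nlinarith [sq_nonneg (Q * Q')]

end Pool.Agent.Lib.G2
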