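import Mathlib
import Pool.Agent.Lib.MP_f9aece_nt_gt.B3
import Pool.Agent.Lib.MP_f9aece_nt_g2.B2

/-!
The law of `log |zeta|` under the measure `|zeta| ^ 2`, module B3: exponential moments.
-/

set_option autoImplicit false

namespace Pool.Agent.Lib.G2

open MeasureTheory Set Filter Topology Complex ProbabilityTheory
open scoped ComplexConjugate
open Pool.Agent.Lib.MP_f9aece_nt (VV)
open Pool.Agent.Lib.J4 (V2)
open Pool.Agent.Lib.GT (Om mu u1 e1 lin norm_e1 continuous_e1 integral_prod_real norm_inv_one_sub_le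
  integral_exp_re_le integrable_of_bd)

lemma norm_hf_le (D : Dat) (hD : D.Ok) {p : ℕ} (hp : 1000 ≤ p) (y : ℝ) :
    ‖hf D p y‖ ≤ Real.exp (((D.g p + conj (D.g' p) + D.a p + conj (D.a' p) + D.b p + conj (D.b' p))
      * e1 y).re + 8 * (p : ℝ)⁻¹) := by
  obtain ⟨hg, hg', ha, ha', hb, hb'⟩ := hD p
  have hp0 : (0 : ℝ) < p := by exact_mod_cast (by omega : 0 < p)
  have hp3 : (1000 : ℝ) ≤ p := by exact_mod_cast hp
  have hsq : 0 < Real.sqrt p := Real.sqrt_pos.mpr hp0
  have hsq2 : Real.sqrt p * Real.sqrt p = p := Real.mul_self_sqrt hp0.le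
  have hs10 : 10 ≤ Real.sqrt p := by
    rw [Real.le_sqrt' (by norm_num)]
    linarith
  have h10 : 1 / Real.sqrt p ≤ 1 / 10 := one_div_le_one_div_of_le (by norm_num) hs10
  have hinv : (1 / Real.sqrt p) ^ 2 = (p : ℝ)⁻¹ := by
    rw [div_pow, one_pow, sq, hsq2, one_div]
  have key : ∀ z : ℂ, ‖z‖ ≤ 1 / Real.sqrt p → ‖(1 - z * e1 y)⁻¹‖ ≤ Real.exp ((z * e1 y).re + 2 * (p : ℝ)⁻¹) := by
    intro z hz
    have e : ‖z * e1 y‖ = ‖z‖ := by rw [norm_mul, norm_e1, mul_one]
    refine (norm_inv_one_sub_le (z := z * e1 y) (by rw [e]; linarith)).trans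
      (Real.exp_le_exp.2 ?_)
    rw [e]
    have h3 : ‖z‖ ^ 2 ≤ (p : ℝ)⁻¹ := by rw [← hinv]; gcongr
    linarith
  have key' : ∀ z : ℂ, ‖z‖ ≤ 1 / Real.sqrt p →
      ‖(1 - z * conj (e1 y))⁻¹‖ ≤ Real.exp ((conj z * e1 y).re + 2 * (p : ℝ)⁻¹) := by
    intro z hz
    have e : ‖(1 - z * conj (e1 y))⁻¹‖ = ‖(1 - conj z * e1 y)⁻¹‖ := by
      rw [norm_inv, norm_inv, ← Complex.norm_conj (1 - z * conj (e1 y))]
      congr 2
      rw [map_sub, map_one, map_mul, Complex.conj_conj]
    rw [e]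
    exact key _ (by rw [Complex.norm_conj]; exact hz)
  have h6 : (D.g' p * conj (e1 y)).re = (conj (D.g' p) * e1 y).re := by
    rw [← Complex.conj_re, map_mul, Complex.conj_conj]
  unfold hf
  rw [norm_mul, norm_mul, norm_mul, norm_mul, Complex.norm_exp, Complex.add_re, h6]
  calc Real.exp ((D.g p * e1 y).re + (conj (D.g' p) * e1 y).re)
        * ((‖(1 - D.a p * e1 y)⁻¹‖ * ‖(1 - D.a' p * conj (e1 y))⁻¹‖)
          * (‖(1 - D.b p * e1 y)⁻¹‖ * ‖(1 - D.b' p * conj (e1 y))⁻¹‖))
      ≤ Real.exp ((D.g p * e1 y).re + (conj (D.g' p) * e1 y).re)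
        * ((Real.exp ((D.a p * e1 y).re + 2 * (p : ℝ)⁻¹)
          * Real.exp ((conj (D.a' p) * e1 y).re + 2 * (p : ℝ)⁻¹))
          * (Real.exp ((D.b p * e1 y).re + 2 * (p : ℝ)⁻¹)
          * Real.exp ((conj (D.b' p) * e1 y).re + 2 * (p : ℝ)⁻¹))) := by
        have i1 := key _ ha
        have i2 := key' _ ha'
        have i3 := key _ hb
        have i4 := key' _ hb'
        gcongr
    _ = _ := by
        rw [← Real.exp_add, ← Real.exp_add, ← Real.exp_add, ← Real.exp_add]
        congr 1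
        simp only [add_mul, Complex.add_re]
        ring

theorem expMom : ExpMom := by
  intro S hS D hD c hc κ hκ0 hκ
  have hsq : ∀ p ∈ S, 0 < Real.sqrt p ∧ Real.sqrt p * Real.sqrt p = p ∧ 30 ≤ Real.sqrt p ∧
      (0 : ℝ) < p := by
    intro p hp
    have hp3 : (1000 : ℝ) ≤ p := by exact_mod_cast (hS p hp).2
    refine ⟨Real.sqrt_pos.mpr (by linarith), Real.mul_self_sqrt (by linarith), ?_, by linarith⟩
    rw [Real.le_sqrt' (by norm_num)]
    linarith
  -- the four signs
  set σ : Fin 4 → ℂ := ![1 + I, 1 - I, -1 + I, -1 - I] with hσ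
  have hσn : ∀ j, ‖σ j‖ ≤ 1415 / 1000 := by
    intro j
    have h : ‖σ j‖ ^ 2 = 2 := by
      rw [← Complex.normSq_eq_norm_sq, Complex.normSq_apply]
      fin_cases j <;> simp [hσ] <;> norm_num
    nlinarith [norm_nonneg (σ j)]
  set Γ : Fin 4 → ℕ → ℂ := fun j p => κ * σ j * c p
    + (D.g p + conj (D.g' p) + D.a p + conj (D.a' p) + D.b p + conj (D.b' p)) with hΓ
  have hΓn : ∀ j, ∀ p ∈ S, ‖Γ j p‖ ≤ 194 / 10 / Real.sqrt p := by
    intro j p hp
    obtain ⟨h1, h2, h3, h4, h3', h4'⟩ := hD p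
    have hs := (hsq p hp).1
    have h5 := hc p hp
    have h6 : ‖(κ : ℂ) * σ j * c p‖ ≤ 8 * (1415 / 1000) * (1 / Real.sqrt p) := by
      rw [norm_mul, norm_mul, Complex.norm_real, Real.norm_of_nonneg hκ0]
      have := hσn j
      gcongr
    have h7 : ‖D.g p + conj (D.g' p) + D.a p + conj (D.a' p) + D.b p + conj (D.b' p)‖
        ≤ 2 / Real.sqrt p + 2 / Real.sqrt p + 1 / Real.sqrt p + 1 / Real.sqrt p
          + 1 / Real.sqrt p + 1 / Real.sqrt p := by
      refine (norm_add_le _ _).trans ?_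
      rw [Complex.norm_conj]
      refine add_le_add ((norm_add_le _ _).trans (add_le_add ?_ h3')) h4'
      refine (norm_add_le _ _).trans ?_
      rw [Complex.norm_conj]
      refine add_le_add ((norm_add_le _ _).trans (add_le_add ((norm_add_le _ _).trans ?_) h3)) h4
      rw [Complex.norm_conj]
      exact add_le_add h1 h2
    refine (norm_add_le _ _).trans ((add_le_add h6 h7).trans ?_)
    have e : 8 * (1415 / 1000) * (1 / Real.sqrt p) + (2 / Real.sqrt p + 2 / Real.sqrt p
      + 1 / Real.sqrt p + 1 / Real.sqrt p + 1 / Real.sqrt p + 1 / Real.sqrt p)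
        = (8 * (1415 / 1000) + 8) / Real.sqrt p := by ring
    rw [e]
    gcongr
    norm_num
  have hre : ∀ (x : Om) (f : ℕ → ℂ), (lin S f x).re = ∑ p ∈ S, (f p * e1 (x p)).re := by
    intro x f
    unfold lin
    rw [Complex.re_sum]
  have hV : ∑ p ∈ S, (p : ℝ)⁻¹ = VV S := rfl
  have hpt : ∀ x : Om, Real.exp (κ * ‖lin S c x‖) * ‖HF S D x‖
      ≤ ∑ j, Real.exp (8 * VV S) * ∏ p ∈ S, Real.exp ((Γ j p * e1 (x p)).re) := by
    intro x
    have h1 : Real.exp (κ * ‖lin S c x‖) ≤ ∑ j, Real.exp ((κ * σ j * lin S c x).re) := by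
      set w := lin S c x with hw
      have h2 : ‖w‖ ≤ |w.re| + |w.im| := Complex.norm_le_abs_re_add_abs_im w
      have h3 : ∃ j, |w.re| + |w.im| ≤ (σ j * w).re := by
        rcases le_total 0 w.re with hr | hr <;> rcases le_total 0 w.im with hi | hi
        · exact ⟨1, by simp [hσ, abs_of_nonneg hr, abs_of_nonneg hi, sub_mul]⟩
        · exact ⟨0, by simp [hσ, abs_of_nonneg hr, abs_of_nonpos hi, add_mul]⟩
        · exact ⟨3, by simp [hσ, abs_of_nonpos hr, abs_of_nonneg hi, sub_mul]⟩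
        · exact ⟨2, by simp [hσ, abs_of_nonpos hr, abs_of_nonpos hi, add_mul]⟩
      obtain ⟨j, hj⟩ := h3
      have h4 : κ * ‖w‖ ≤ (κ * σ j * w).re := by
        rw [mul_assoc, Complex.re_ofReal_mul]
        exact mul_le_mul_of_nonneg_left (h2.trans hj) hκ0
      exact (Real.exp_le_exp.mpr h4).trans (Finset.single_le_sum
        (f := fun j => Real.exp ((κ * σ j * w).re)) (fun i _ => (Real.exp_pos _).le)
        (Finset.mem_univ j))
    have h5 : ‖HF S D x‖ ≤ Real.exp (8 * VV S)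
        * ∏ p ∈ S, Real.exp (((D.g p + conj (D.g' p) + D.a p + conj (D.a' p)
            + D.b p + conj (D.b' p)) * e1 (x p)).re) := by
      rw [HF_eq_prod, norm_prod]
      have h6 : ∀ p ∈ S, ‖hf D p (x p)‖ ≤ Real.exp (8 * (p : ℝ)⁻¹)
          * Real.exp (((D.g p + conj (D.g' p) + D.a p + conj (D.a' p)
            + D.b p + conj (D.b' p)) * e1 (x p)).re) := by
        intro p hp
        refine (norm_hf_le D hD (hS p hp).2 (x p)).trans (le_of_eq ?_)
        rw [← Real.exp_add, add_comm]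
      refine (Finset.prod_le_prod (fun p _ => norm_nonneg _) h6).trans (le_of_eq ?_)
      rw [Finset.prod_mul_distrib, ← Real.exp_sum, ← Finset.mul_sum, hV]
    calc Real.exp (κ * ‖lin S c x‖) * ‖HF S D x‖
        ≤ (∑ j, Real.exp ((κ * σ j * lin S c x).re)) * (Real.exp (8 * VV S)
          * ∏ p ∈ S, Real.exp (((D.g p + conj (D.g' p) + D.a p + conj (D.a' p)
            + D.b p + conj (D.b' p)) * e1 (x p)).re)) := by
          gcongr
      _ = _ := by
          rw [Finset.sum_mul]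
          refine Finset.sum_congr rfl fun j _ => ?_
          have h7 : (κ * σ j * lin S c x).re = ∑ p ∈ S, (κ * σ j * c p * e1 (x p)).re := by
            unfold lin
            rw [Finset.mul_sum, Complex.re_sum]
            refine Finset.sum_congr rfl fun p _ => ?_
            congr 1
            ring
          rw [h7, Real.exp_sum]
          have h8 : ∏ p ∈ S, Real.exp ((Γ j p * e1 (x p)).re)
              = (∏ p ∈ S, Real.exp ((κ * σ j * c p * e1 (x p)).re)) * ∏ p ∈ S,
                Real.exp (((D.g p + conj (D.g' p) + D.a p + conj (D.a' p)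
            + D.b p + conj (D.b' p)) * e1 (x p)).re) := by
            rw [← Finset.prod_mul_distrib]
            refine Finset.prod_congr rfl fun p _ => ?_
            rw [← Real.exp_add]
            congr 1
            rw [hΓ]
            simp only
            rw [add_mul _ _ (e1 (x p)), Complex.add_re]
          rw [h8]
          ring
  -- integrate
  have hcont : ∀ j, Continuous fun x : Om => Real.exp (8 * VV S)
      * ∏ p ∈ S, Real.exp ((Γ j p * e1 (x p)).re) := by
    intro j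
    refine continuous_const.mul (continuous_finsetProd _ fun p _ => ?_)
    exact Real.continuous_exp.comp (Complex.continuous_re.comp
      (continuous_const.mul (continuous_e1.comp (continuous_apply p))))
  have hbd : ∀ j (x : Om), ‖Real.exp (8 * VV S) * ∏ p ∈ S, Real.exp ((Γ j p * e1 (x p)).re)‖
      ≤ Real.exp (8 * VV S) * ∏ p ∈ S, Real.exp ‖Γ j p‖ := by
    intro j x
    rw [Real.norm_of_nonneg (by positivity)]
    gcongr with p hp
    refine (Complex.re_le_norm _).trans ?_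
    rw [norm_mul, norm_e1, mul_one]
  have hint : ∀ j, Integrable (fun x : Om => Real.exp (8 * VV S)
      * ∏ p ∈ S, Real.exp ((Γ j p * e1 (x p)).re)) mu := fun j =>
    integrable_of_bd (hcont j).aestronglyMeasurable (hbd j)
  have hj : ∀ j, ∫ x, Real.exp (8 * VV S) * ∏ p ∈ S, Real.exp ((Γ j p * e1 (x p)).re) ∂mu
      ≤ Real.exp (200 * VV S) := by
    intro j
    rw [integral_const_mul, integral_prod_real S (fun p y => Real.exp ((Γ j p * e1 y).re)) fun p =>
      (Real.continuous_exp.comp (Complex.continuous_re.comp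
        (continuous_const.mul continuous_e1))).measurable]
    have h1 : ∏ p ∈ S, ∫ y, Real.exp ((Γ j p * e1 y).re) ∂u1 ≤ ∏ p ∈ S, Real.exp (190 * (p : ℝ)⁻¹) := by
      refine Finset.prod_le_prod (fun p _ => integral_nonneg fun y => (Real.exp_pos _).le) ?_
      intro p hp
      obtain ⟨hs0, hs1, hs2, hp0⟩ := hsq p hp
      have h2 : ‖Γ j p‖ ≤ 1 := by
        refine (hΓn j p hp).trans ?_
        rw [div_le_one hs0]
        linarith
      refine (integral_exp_re_le h2).trans (Real.exp_le_exp.mpr ?_)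
      have h3 : ‖Γ j p‖ ^ 2 ≤ (194 / 10 / Real.sqrt p) ^ 2 := by
        have := hΓn j p hp
        gcongr
      have h4 : (194 / 10 / Real.sqrt p) ^ 2 = (194 / 10) ^ 2 * (p : ℝ)⁻¹ := by
        rw [div_pow, sq (Real.sqrt p), hs1]
        rfl
      rw [h4] at h3
      have h5 : 0 < (p : ℝ)⁻¹ := by positivity
      nlinarith
    have h6 : ∏ p ∈ S, Real.exp (190 * (p : ℝ)⁻¹) = Real.exp (190 * VV S) := by
      rw [← Real.exp_sum, ← Finset.mul_sum, hV]
    rw [h6] at h1
    have hV0 : 0 ≤ VV S := Finset.sum_nonneg fun p _ => by positivity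
    calc Real.exp (8 * VV S) * ∏ p ∈ S, ∫ y, Real.exp ((Γ j p * e1 y).re) ∂u1
        ≤ Real.exp (8 * VV S) * Real.exp (190 * VV S) := by gcongr
      _ = Real.exp (198 * VV S) := by rw [← Real.exp_add]; ring_nf
      _ ≤ _ := Real.exp_le_exp.mpr (by linarith)
  calc ∫ x, Real.exp (κ * ‖lin S c x‖) * ‖HF S D x‖ ∂mu
      ≤ ∫ x, ∑ j, Real.exp (8 * VV S) * ∏ p ∈ S, Real.exp ((Γ j p * e1 (x p)).re) ∂mu := by
        refine integral_mono_of_nonneg (Eventually.of_forall fun x => by positivity)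
          (integrable_finsetSum _ fun j _ => hint j) (Eventually.of_forall hpt)
    _ = ∑ j, ∫ x, Real.exp (8 * VV S) * ∏ p ∈ S, Real.exp ((Γ j p * e1 (x p)).re) ∂mu :=
        integral_finsetSum _ fun j _ => hint j
    _ ≤ ∑ _j : Fin 4, Real.exp (200 * VV S) := Finset.sum_le_sum fun j _ => hj j
    _ = _ := by simp

end Pool.Agent.Lib.G2
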