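import Mathlib
import Pool.Agent.Lib.MP_f9aece_nt_gt.B4
import Pool.Agent.Lib.MP_f9aece_nt_g2.Stmts

/-!
The law of `log |zeta|` under `|zeta| ^ 2`: row B4 (`groupMain`).
-/

set_option autoImplicit false

namespace Pool.Agent.Lib.G2

open MeasureTheory Set Filter Topology Complex ProbabilityTheory
open scoped ComplexConjugate
open Pool.Agent.Lib.MP_f9aece_nt (VV)
open Pool.Agent.Lib.J4 (V2)
open Pool.Agent.Lib.GT

namespace B4a

open Pool.Agent.Lib.GT.B45 (GE GF_sub_le norm_inv_le one_div_sqrt_le sq_one_div_sqrt norm_lin_le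
  continuous_lin continuous_GF)

lemma measurable_HF (S : Finset ℕ) (D : Dat) : Measurable (HF S D) := by
  have he : ∀ p : ℕ, Measurable fun x : Om => e1 (x p) := fun p =>
    continuous_e1.measurable.comp (measurable_pi_apply p)
  have hc : ∀ p : ℕ, Measurable fun x : Om => conj (e1 (x p)) := fun p =>
    Complex.continuous_conj.measurable.comp (he p)
  unfold HF
  refine Measurable.mul ?_ ?_
  · refine Complex.measurable_exp.comp (Finset.measurable_fun_sum _ fun p _ => ?_)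
    exact ((he p).const_mul _).add ((hc p).const_mul _)
  · refine Finset.measurable_fun_prod _ fun p _ => ?_
    exact (((((he p).const_mul _).const_sub 1).inv).mul
      ((((hc p).const_mul _).const_sub 1).inv)).mul
      (((((he p).const_mul _).const_sub 1).inv).mul ((((hc p).const_mul _).const_sub 1).inv))

/-- the Euler factors are at most one half -/
def Hf (S : Finset ℕ) (D : Dat) : Prop :=
  ∀ p ∈ S, ‖D.a p‖ ≤ 1 / 2 ∧ ‖D.a' p‖ ≤ 1 / 2 ∧ ‖D.b p‖ ≤ 1 / 2 ∧ ‖D.b' p‖ ≤ 1 / 2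

lemma hf_of {S : Finset ℕ} (hS : ∀ p ∈ S, p.Prime ∧ 1000 ≤ p) {D : Dat} (hD : D.Ok) : Hf S D :=
  fun p hp => ⟨((hD p).2.2.1).trans (one_div_sqrt_le (hS p hp).2),
    ((hD p).2.2.2.1).trans (one_div_sqrt_le (hS p hp).2),
    ((hD p).2.2.2.2.1).trans (one_div_sqrt_le (hS p hp).2),
    ((hD p).2.2.2.2.2).trans (one_div_sqrt_le (hS p hp).2)⟩

lemma norm_HF_le (S : Finset ℕ) (D : Dat) (ha : Hf S D) (x : Om) :
    ‖HF S D x‖ ≤ Real.exp (∑ p ∈ S, (‖D.g p‖ + ‖D.g' p‖)) * ∏ _p ∈ S, (2 * 2 * (2 * 2) : ℝ) := by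
  unfold HF
  rw [norm_mul, norm_prod]
  have hc : ∀ p : ℕ, ‖conj (e1 (x p))‖ = 1 := fun p => by rw [Complex.norm_conj, norm_e1]
  refine mul_le_mul ?_ ?_ (Finset.prod_nonneg fun _ _ => norm_nonneg _) (Real.exp_pos _).le
  · rw [Complex.norm_exp]
    refine Real.exp_le_exp.2 ((Complex.re_le_norm _).trans ((norm_sum_le _ _).trans
      (Finset.sum_le_sum fun p _ => ?_)))
    refine (norm_add_le _ _).trans ?_
    rw [norm_mul, norm_mul, hc, norm_e1, mul_one, mul_one]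
  · refine Finset.prod_le_prod (fun _ _ => norm_nonneg _) fun p hp => ?_
    obtain ⟨h1, h2, h3, h4⟩ := ha p hp
    rw [norm_mul, norm_mul, norm_mul]
    exact mul_le_mul (mul_le_mul (norm_inv_le h1 (norm_e1 _)) (norm_inv_le h2 (hc p))
      (norm_nonneg _) (by norm_num)) (mul_le_mul (norm_inv_le h3 (norm_e1 _))
      (norm_inv_le h4 (hc p)) (norm_nonneg _) (by norm_num)) (by positivity) (by norm_num)

lemma integrable_expHF (S : Finset ℕ) (D : Dat) (ha : Hf S D) (c : ℕ → ℂ) {κ : ℝ} (hκ : 0 ≤ κ) :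
    Integrable (fun x => Real.exp (κ * ‖lin S c x‖) * ‖HF S D x‖) mu := by
  refine integrable_of_bd (C := Real.exp (κ * ∑ p ∈ S, ‖c p‖) *
    (Real.exp (∑ p ∈ S, (‖D.g p‖ + ‖D.g' p‖)) * ∏ _p ∈ S, (2 * 2 * (2 * 2) : ℝ))) ?_ fun x => ?_
  · refine Measurable.aestronglyMeasurable (Measurable.mul ?_ (measurable_HF S D).norm)
    exact (by fun_prop : Continuous fun x => Real.exp (κ * ‖lin S c x‖)).measurable
  · rw [norm_mul, norm_norm, Real.norm_eq_abs, Real.abs_exp]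
    refine mul_le_mul (Real.exp_le_exp.2 (mul_le_mul_of_nonneg_left (norm_lin_le S c x) hκ))
      (norm_HF_le S D ha x) (norm_nonneg _) (Real.exp_pos _).le

lemma norm_sab_le {S : Finset ℕ} {h : ℕ → ℝ} (hh : ∀ p ∈ S, 0 ≤ h p ∧ h p ≤ 1 / Real.sqrt p)
    {z z' μ1 μ2 : ℂ} (hz : ‖z‖ ≤ 1) (hz' : ‖z'‖ ≤ 1) (h1 : ‖μ1‖ ≤ 1) (h2 : ‖μ2‖ ≤ 1) {D : Dat}
    (hD : D.Ok) : ‖sab S h z z' μ1 μ2 D‖ ≤ 36 * VV S := by
  unfold sab VV
  rw [Finset.mul_sum]
  refine (norm_sum_le _ _).trans (Finset.sum_le_sum fun p hp => ?_)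
  obtain ⟨h3, h4, h5, h6, h9, h10⟩ := hD p
  obtain ⟨h7, h8⟩ := hh p hp
  set s := 1 / Real.sqrt p with hs
  have e2 : 2 / Real.sqrt p = 2 * s := by rw [hs]; ring
  rw [e2] at h3 h4
  have hs0 : 0 ≤ s := by positivity
  have hzz : ‖(z + conj z') / 2‖ ≤ 1 := by
    rw [norm_div, Complex.norm_ofNat]
    have := norm_add_le z (conj z')
    rw [Complex.norm_conj] at this
    linarith
  have key : ∀ (μ g a b : ℂ), ‖μ‖ ≤ 1 → ‖g‖ ≤ 2 * s → ‖a‖ ≤ s → ‖b‖ ≤ s →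
      ‖(h p : ℂ) * ((z + conj z') / 2 + μ) + g + a + b‖ ≤ 6 * s := by
    intro μ g a b hμ hg ha hb
    have a1 : ‖(h p : ℂ) * ((z + conj z') / 2 + μ)‖ ≤ s * 2 := by
      rw [norm_mul, Complex.norm_real, Real.norm_eq_abs, abs_of_nonneg h7]
      refine mul_le_mul h8 ((norm_add_le _ _).trans (by linarith)) (norm_nonneg _) hs0
    have a2 := norm_add_le ((h p : ℂ) * ((z + conj z') / 2 + μ) + g) a
    have a3 := norm_add_le ((h p : ℂ) * ((z + conj z') / 2 + μ)) g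
    have a4 := norm_add_le ((h p : ℂ) * ((z + conj z') / 2 + μ) + g + a) b
    linarith
  rw [norm_mul]
  have k1 := key μ1 (D.g p) (D.a p) (D.b p) h1 h3 h5 h9
  have k2 := key (conj μ2) (D.g' p) (D.a' p) (D.b' p) (by rwa [Complex.norm_conj]) h4 h6 h10
  calc _ ≤ (6 * s) * (6 * s) := mul_le_mul k1 k2 (norm_nonneg _) (by positivity)
    _ = 36 * (p : ℝ)⁻¹ := by rw [← sq_one_div_sqrt p, ← hs]; ring

lemma norm_cexp_sab_ge {S : Finset ℕ} {r : ℕ} (hV : VV S ≤ 2 * r) {h : ℕ → ℝ}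
    (hh : ∀ p ∈ S, 0 ≤ h p ∧ h p ≤ 1 / Real.sqrt p)
    {z z' μ1 μ2 : ℂ} (hz : ‖z‖ ≤ 1) (hz' : ‖z'‖ ≤ 1) (h1 : ‖μ1‖ ≤ 1) (h2 : ‖μ2‖ ≤ 1) {D : Dat}
    (hD : D.Ok) : Real.exp (-(72 * r)) ≤ ‖cexp (sab S h z z' μ1 μ2 D)‖ := by
  rw [Complex.norm_exp, Real.exp_le_exp]
  have a1 := norm_sab_le hh hz hz' h1 h2 hD
  have a2 := (abs_le.1 (Complex.abs_re_le_norm (sab S h z z' μ1 μ2 D))).1
  linarith

/-- the data with the exponentials absorbed -/
noncomputable def DE (h : ℕ → ℝ) (z z' μ1 μ2 : ℂ) (D : Dat) : Dat where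
  g p := D.g p + h p * ((z + conj z') / 2 + μ1)
  g' p := D.g' p + h p * ((z + conj z') / 2 + conj μ2)
  a := D.a
  a' := D.a'
  b := D.b
  b' := D.b'

lemma GE_mul_HF (S : Finset ℕ) (h : ℕ → ℝ) (z z' μ1 μ2 : ℂ) (D : Dat) (x : Om) :
    GE (lin S (fun p => (h p : ℂ)) x) z z' μ1 μ2 * HF S D x = HF S (DE h z z' μ1 μ2 D) x := by
  set P := lin S (fun p => (h p : ℂ)) x with hP
  have hre : ((P.re : ℝ) : ℂ) = (P + conj P) / 2 := Complex.re_eq_add_conj P
  have hPc : conj P = ∑ p ∈ S, (h p : ℂ) * conj (e1 (x p)) := by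
    rw [hP]
    unfold lin
    rw [map_sum]
    refine Finset.sum_congr rfl fun p _ => ?_
    rw [map_mul, Complex.conj_ofReal]
  have hPs : P = ∑ p ∈ S, (h p : ℂ) * e1 (x p) := rfl
  unfold GE HF
  rw [← Complex.exp_conj, ← Complex.exp_conj, ← Complex.exp_add, ← Complex.exp_add,
    ← Complex.exp_add, ← mul_assoc, ← Complex.exp_add]
  congr 2
  simp only [map_mul, Complex.conj_ofReal]
  rw [hre]
  have hs : ∑ p ∈ S, ((DE h z z' μ1 μ2 D).g p * e1 (x p)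
      + (DE h z z' μ1 μ2 D).g' p * conj (e1 (x p)))
      = ∑ p ∈ S, (D.g p * e1 (x p) + D.g' p * conj (e1 (x p)))
        + ((z + conj z') / 2 + μ1) * P + ((z + conj z') / 2 + conj μ2) * conj P := by
    rw [hPs, ← hPs, hPc]
    conv_rhs => rw [hPs]
    rw [Finset.mul_sum, Finset.mul_sum, ← Finset.sum_add_distrib, ← Finset.sum_add_distrib]
    refine Finset.sum_congr rfl fun p _ => ?_
    simp only [DE]
    ring
  rw [hs]
  ring

end B4a

open B4a in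
open Pool.Agent.Lib.GT.B45 (GE GF_sub_le one_div_sqrt_le continuous_GF continuous_lin) in
/-- B4 -/
theorem groupMain (h2 : ProdPrimes) (h3 : ExpMom) : GroupMain := by
  obtain ⟨C, hC, h2⟩ := h2
  refine ⟨C, hC, ?_⟩
  intro S r hS hr hV h hh z z' μ1 μ2 hz hz' hμ1 hμ2 D hD
  set P : Om → ℂ := lin S (fun p => (h p : ℂ)) with hP
  have ha : Hf S D := hf_of hS hD
  have hzz : ‖(z + conj z') / 2‖ ≤ 1 := by
    rw [norm_div, Complex.norm_ofNat]
    have := norm_add_le z (conj z')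
    rw [Complex.norm_conj] at this
    linarith
  have hbd : ∀ p ∈ S, ∀ (g μ : ℂ), ‖g‖ ≤ 2 / Real.sqrt p → ‖μ‖ ≤ 1 →
      ‖g + (h p : ℂ) * ((z + conj z') / 2 + μ)‖ ≤ 4 / Real.sqrt p := by
    intro p hp g μ hg hμ
    obtain ⟨h7, h8⟩ := hh p hp
    have a1 : ‖(h p : ℂ) * ((z + conj z') / 2 + μ)‖ ≤ 1 / Real.sqrt p * 2 := by
      rw [norm_mul, Complex.norm_real, Real.norm_eq_abs, abs_of_nonneg h7]
      exact mul_le_mul h8 ((norm_add_le _ _).trans (by linarith)) (norm_nonneg _) (by positivity)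
    have a2 := norm_add_le g ((h p : ℂ) * ((z + conj z') / 2 + μ))
    calc _ ≤ _ := a2
      _ ≤ 2 / Real.sqrt p + 1 / Real.sqrt p * 2 := add_le_add hg a1
      _ = 4 / Real.sqrt p := by ring
  -- the main term
  have hmain := h2 S hS (DE h z z' μ1 μ2 D) (fun p hp =>
    ⟨hbd p hp _ _ (hD p).1 hμ1, hbd p hp _ _ (hD p).2.1 (by rwa [Complex.norm_conj]),
      (hD p).2.2.1, (hD p).2.2.2.1, (hD p).2.2.2.2.1, (hD p).2.2.2.2.2⟩)
  have hsab : ∑ p ∈ S, ((DE h z z' μ1 μ2 D).g p + (DE h z z' μ1 μ2 D).a p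
      + (DE h z z' μ1 μ2 D).b p) * ((DE h z z' μ1 μ2 D).g' p + (DE h z z' μ1 μ2 D).a' p
      + (DE h z z' μ1 μ2 D).b' p) = sab S h z z' μ1 μ2 D := by
    unfold sab
    refine Finset.sum_congr rfl fun p _ => ?_
    simp only [DE]
    ring
  rw [hsab] at hmain
  -- the remainder
  have hi := integrable_expHF S D ha (fun p => (h p : ℂ)) (κ := 5) (by norm_num)
  have hm := h3 S hS D hD (fun p => (h p : ℂ)) (fun p hp => by
    rw [Complex.norm_real, Real.norm_eq_abs, abs_of_nonneg (hh p hp).1]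
    exact (hh p hp).2) 5 (by norm_num) (by norm_num)
  have hiE : Integrable (HF S (DE h z z' μ1 μ2 D)) mu :=
    integrable_of_bd (measurable_HF S _).aestronglyMeasurable
      (norm_HF_le S (DE h z z' μ1 μ2 D) (fun p hp => ha p hp))
  have hpt : ∀ x, ‖GF r S h z z' μ1 μ2 x * HF S D x - HF S (DE h z z' μ1 μ2 D) x‖
      ≤ 4 * (1 / 2) ^ (KK r) * (Real.exp (5 * ‖P x‖) * ‖HF S D x‖) := by
    intro x
    rw [← GE_mul_HF, ← sub_mul, norm_mul]
    have := GF_sub_le r S h hz hz' hμ1 hμ2 x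
    calc _ ≤ 4 * ((1 / 2) ^ (KK r) * Real.exp (5 * ‖P x‖)) * ‖HF S D x‖ :=
          mul_le_mul_of_nonneg_right this (norm_nonneg _)
      _ = _ := by ring
  have hmeas : AEStronglyMeasurable (fun x => GF r S h z z' μ1 μ2 x * HF S D x
      - HF S (DE h z z' μ1 μ2 D) x) mu :=
    ((((continuous_GF r S h z z' μ1 μ2).measurable.mul (measurable_HF S D)).sub
      (measurable_HF S _))).aestronglyMeasurable
  have hiR : Integrable (fun x => GF r S h z z' μ1 μ2 x * HF S D x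
      - HF S (DE h z z' μ1 μ2 D) x) mu :=
    Integrable.mono' (hi.const_mul _) hmeas (Eventually.of_forall hpt)
  have hR : ‖∫ x, (GF r S h z z' μ1 μ2 x * HF S D x - HF S (DE h z z' μ1 μ2 D) x) ∂mu‖
      ≤ 4 * (1 / 2) ^ (KK r) * (4 * Real.exp (200 * VV S)) := by
    refine (norm_integral_le_of_norm_le (hi.const_mul _) (Eventually.of_forall hpt)).trans ?_
    rw [integral_const_mul]
    gcongr
  have hsplit : ∫ x, GF r S h z z' μ1 μ2 x * HF S D x ∂mu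
      = ∫ x, (GF r S h z z' μ1 μ2 x * HF S D x - HF S (DE h z z' μ1 μ2 D) x) ∂mu
        + ∫ x, HF S (DE h z z' μ1 μ2 D) x ∂mu := by
    rw [← integral_add hiR hiE]
    congr 1
    funext x
    ring
  have hr1 : (1 : ℝ) ≤ r := by exact_mod_cast hr
  have hlow := norm_cexp_sab_ge hV hh hz hz' hμ1 hμ2 hD
  have hexp : Real.exp (200 * VV S) ≤ Real.exp (400 * r) := Real.exp_le_exp.2 (by linarith)
  have h12 : ((1 / 2 : ℝ)) ^ (KK r) ≤ Real.exp (-(500000 * r)) := by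
    have e1 : Real.exp (-(500000 * (r : ℝ))) = Real.exp (-(1 / 2)) ^ (KK r) := by
      rw [← Real.exp_nat_mul]
      unfold KK
      push_cast
      ring_nf
    rw [e1]
    refine pow_le_pow_left₀ (by norm_num) ?_ _
    have := Real.add_one_le_exp (-(1 / 2 : ℝ))
    linarith
  have h16 : (16 : ℝ) ≤ Real.exp (16 * r) := by
    have := Real.add_one_le_exp (16 * (r : ℝ))
    linarith
  have hRe : 4 * (1 / 2) ^ (KK r) * (4 * Real.exp (200 * VV S))
      ≤ Real.exp (-r) * ‖cexp (sab S h z z' μ1 μ2 D)‖ := by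
    calc 4 * (1 / 2) ^ (KK r) * (4 * Real.exp (200 * VV S))
        = 16 * ((1 / 2) ^ (KK r) * Real.exp (200 * VV S)) := by ring
      _ ≤ Real.exp (16 * r) * (Real.exp (-(500000 * r)) * Real.exp (400 * r)) := by gcongr
      _ = Real.exp (-(499584 * r)) := by
          rw [← Real.exp_add, ← Real.exp_add]; ring_nf
      _ ≤ Real.exp (-r + -(72 * r)) := Real.exp_le_exp.2 (by linarith)
      _ = Real.exp (-r) * Real.exp (-(72 * r)) := Real.exp_add _ _
      _ ≤ _ := by gcongr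
  rw [hsplit]
  calc _ = ‖∫ x, (GF r S h z z' μ1 μ2 x * HF S D x - HF S (DE h z z' μ1 μ2 D) x) ∂mu
        + (∫ x, HF S (DE h z z' μ1 μ2 D) x ∂mu - cexp (sab S h z z' μ1 μ2 D))‖ := by
        congr 1; ring
    _ ≤ _ := norm_add_le _ _
    _ ≤ Real.exp (-r) * ‖cexp (sab S h z z' μ1 μ2 D)‖
        + C * V2 S * ‖cexp (sab S h z z' μ1 μ2 D)‖ := add_le_add (hR.trans hRe) hmain
    _ = _ := by ring

end Pool.Agent.Lib.G2
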