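import Mathlib
import Pool.Agent.Lib.MP_f9aece_nt_g2.Stmts
import Pool.Agent.Lib.MP_f9aece_nt_gt.B5

/-!
The law of `log |zeta|` under `|zeta| ^ 2`: row B5 (`groupBad`), and the common lemmas for B4 and B5
(namespace `G2.B45`): bounds and measurability for `HF`, `sab`. The lemmas about truncated exponentials,
`lin`, `GF` and `bp` are those of `GT.B45`.
-/

set_option autoImplicit false

namespace Pool.Agent.Lib.G2

open MeasureTheory Set Filter Topology Complex ProbabilityTheory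
open scoped ComplexConjugate
open Pool.Agent.Lib.MP_f9aece_nt (VV)
open Pool.Agent.Lib.J4 (V2)
open Pool.Agent.Lib.GT
open Pool.Agent.Lib.GT.B45 (norm_inv_le one_div_sqrt_le sq_one_div_sqrt norm_lin_le norm_GF_le bp_le
  continuous_lin continuous_GF)

namespace B45

lemma measurable_HF (S : Finset ℕ) (D : Dat) : Measurable (HF S D) := by
  have he : ∀ p : ℕ, Measurable fun x : Om => e1 (x p) := fun p =>
    continuous_e1.measurable.comp (measurable_pi_apply p)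
  have hc : ∀ p : ℕ, Measurable fun x : Om => conj (e1 (x p)) := fun p =>
    Complex.continuous_conj.measurable.comp (he p)
  unfold HF
  refine Measurable.mul ?_ ?_
  · refine Complex.measurable_exp.comp (Finset.measurable_fun_sum _ fun p _ => ?_)
    exact ((he p).const_mul _).add ((hc p).const_mul _)
  · refine Finset.measurable_fun_prod _ fun p _ => ?_
    exact (((((he p).const_mul _).const_sub 1).inv).mul ((((hc p).const_mul _).const_sub 1).inv)).mul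
      (((((he p).const_mul _).const_sub 1).inv).mul ((((hc p).const_mul _).const_sub 1).inv))

/-- the coefficients of the Euler factors are at most `1 / 2` -/
def Half (S : Finset ℕ) (D : Dat) : Prop := ∀ p ∈ S, ‖D.a p‖ ≤ 1 / 2 ∧ ‖D.a' p‖ ≤ 1 / 2 ∧
  ‖D.b p‖ ≤ 1 / 2 ∧ ‖D.b' p‖ ≤ 1 / 2

lemma half_of_ok {S : Finset ℕ} {D : Dat} (hS : ∀ p ∈ S, p.Prime ∧ 1000 ≤ p) (hD : D.Ok) :
    Half S D := fun p hp =>
  ⟨((hD p).2.2.1).trans (one_div_sqrt_le (hS p hp).2),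
    ((hD p).2.2.2.1).trans (one_div_sqrt_le (hS p hp).2),
    ((hD p).2.2.2.2.1).trans (one_div_sqrt_le (hS p hp).2),
    ((hD p).2.2.2.2.2).trans (one_div_sqrt_le (hS p hp).2)⟩

lemma norm_HF_le (S : Finset ℕ) (D : Dat) (ha : Half S D) (x : Om) :
    ‖HF S D x‖ ≤ Real.exp (∑ p ∈ S, (‖D.g p‖ + ‖D.g' p‖)) * ∏ _p ∈ S, (2 * 2 * (2 * 2) : ℝ) := by
  unfold HF
  rw [norm_mul, norm_prod]
  have hc : ∀ p : ℕ, ‖conj (e1 (x p))‖ = 1 := fun p => by rw [Complex.norm_conj, norm_e1]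
  refine mul_le_mul ?_ ?_ (Finset.prod_nonneg fun _ _ => norm_nonneg _) (Real.exp_pos _).le
  · rw [Complex.norm_exp]
    refine Real.exp_le_exp.2 ((Complex.re_le_norm _).trans ((norm_sum_le _ _).trans
      (Finset.sum_le_sum fun p _ => ?_)))
    refine (norm_add_le _ _).trans ?_
    rw [norm_mul, norm_mul, hc, norm_e1, mul_one, mul_one]
  · refine Finset.prod_le_prod (fun _ _ => norm_nonneg _) fun p hp => ?_
    obtain ⟨h1, h2, h3, h4⟩ := ha p hp
    rw [norm_mul, norm_mul, norm_mul]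
    exact mul_le_mul (mul_le_mul (norm_inv_le h1 (norm_e1 _)) (norm_inv_le h2 (hc p))
      (norm_nonneg _) (by norm_num)) (mul_le_mul (norm_inv_le h3 (norm_e1 _)) (norm_inv_le h4 (hc p))
      (norm_nonneg _) (by norm_num)) (by positivity) (by norm_num)

lemma integrable_expHF (S : Finset ℕ) (D : Dat) (ha : Half S D) (c : ℕ → ℂ) {κ : ℝ} (hκ : 0 ≤ κ) :
    Integrable (fun x => Real.exp (κ * ‖lin S c x‖) * ‖HF S D x‖) mu := by
  refine integrable_of_bd (C := Real.exp (κ * ∑ p ∈ S, ‖c p‖) *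
    (Real.exp (∑ p ∈ S, (‖D.g p‖ + ‖D.g' p‖)) * ∏ _p ∈ S, (2 * 2 * (2 * 2) : ℝ))) ?_ fun x => ?_
  · refine Measurable.aestronglyMeasurable (Measurable.mul ?_ (measurable_HF S D).norm)
    exact (by fun_prop : Continuous fun x => Real.exp (κ * ‖lin S c x‖)).measurable
  · rw [norm_mul, norm_norm, Real.norm_eq_abs, Real.abs_exp]
    refine mul_le_mul (Real.exp_le_exp.2 (mul_le_mul_of_nonneg_left (norm_lin_le S c x) hκ))
      (norm_HF_le S D ha x) (norm_nonneg _) (Real.exp_pos _).le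

lemma norm_sab_le {S : Finset ℕ} {h : ℕ → ℝ} (hh : ∀ p ∈ S, 0 ≤ h p ∧ h p ≤ 1 / Real.sqrt p)
    {z z' μ1 μ2 : ℂ} (hz : ‖z‖ ≤ 1) (hz' : ‖z'‖ ≤ 1) (h1 : ‖μ1‖ ≤ 1) (h2 : ‖μ2‖ ≤ 1) {D : Dat}
    (hD : D.Ok) : ‖sab S h z z' μ1 μ2 D‖ ≤ 36 * VV S := by
  unfold sab VV
  rw [Finset.mul_sum]
  refine (norm_sum_le _ _).trans (Finset.sum_le_sum fun p hp => ?_)
  obtain ⟨h3, h4, h5, h6, h9, h10⟩ := hD p
  obtain ⟨h7, h8⟩ := hh p hp
  set s := 1 / Real.sqrt p with hs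
  have e2 : 2 / Real.sqrt p = 2 * s := by rw [hs]; ring
  rw [e2] at h3 h4
  have hs0 : 0 ≤ s := by positivity
  have hzz : ‖(z + conj z') / 2‖ ≤ 1 := by
    rw [norm_div, Complex.norm_ofNat]
    have := norm_add_le z (conj z')
    rw [Complex.norm_conj] at this
    linarith
  have key : ∀ (μ g a b : ℂ), ‖μ‖ ≤ 1 → ‖g‖ ≤ 2 * s → ‖a‖ ≤ s → ‖b‖ ≤ s →
      ‖(h p : ℂ) * ((z + conj z') / 2 + μ) + g + a + b‖ ≤ 6 * s := by
    intro μ g a b hμ hg ha hb
    have a1 : ‖(h p : ℂ) * ((z + conj z') / 2 + μ)‖ ≤ s * 2 := by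
      rw [norm_mul, Complex.norm_real, Real.norm_eq_abs, abs_of_nonneg h7]
      refine mul_le_mul h8 ((norm_add_le _ _).trans (by linarith)) (norm_nonneg _) hs0
    have a0 := norm_add_le ((h p : ℂ) * ((z + conj z') / 2 + μ) + g + a) b
    have a2 := norm_add_le ((h p : ℂ) * ((z + conj z') / 2 + μ) + g) a
    have a3 := norm_add_le ((h p : ℂ) * ((z + conj z') / 2 + μ)) g
    linarith
  rw [norm_mul]
  have k1 := key μ1 (D.g p) (D.a p) (D.b p) h1 h3 h5 h9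
  have k2 := key (conj μ2) (D.g' p) (D.a' p) (D.b' p) (by rwa [Complex.norm_conj]) h4 h6 h10
  calc _ ≤ (6 * s) * (6 * s) := mul_le_mul k1 k2 (norm_nonneg _) (by positivity)
    _ = 36 * (p : ℝ)⁻¹ := by rw [← sq_one_div_sqrt p, ← hs]; ring

lemma norm_cexp_sab_ge {S : Finset ℕ} {r : ℕ} (hV : VV S ≤ 2 * r) {h : ℕ → ℝ}
    (hh : ∀ p ∈ S, 0 ≤ h p ∧ h p ≤ 1 / Real.sqrt p)
    {z z' μ1 μ2 : ℂ} (hz : ‖z‖ ≤ 1) (hz' : ‖z'‖ ≤ 1) (h1 : ‖μ1‖ ≤ 1) (h2 : ‖μ2‖ ≤ 1) {D : Dat}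
    (hD : D.Ok) : Real.exp (-(72 * r)) ≤ ‖cexp (sab S h z z' μ1 μ2 D)‖ := by
  rw [Complex.norm_exp, Real.exp_le_exp]
  have a1 := norm_sab_le hh hz hz' h1 h2 hD
  have a2 := (abs_le.1 (Complex.abs_re_le_norm (sab S h z z' μ1 μ2 D))).1
  linarith

end B45

open B45 in
/-- B5 -/
theorem groupBad (h3 : ExpMom) : GroupBad := by
  intro S r hS hr hV h hh z z' μ1 μ2 hz hz' hμ1 hμ2 D hD c hc
  set P : Om → ℂ := lin S (fun p => (h p : ℂ)) with hP
  set L : Om → ℂ := lin S c with hL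
  have ha : Half S D := half_of_ok hS hD
  have hi1 := integrable_expHF S D ha c (κ := 2) (by norm_num)
  have hi2 := integrable_expHF S D ha (fun p => (h p : ℂ)) (κ := 8) (by norm_num)
  have hm1 := h3 S hS D hD c hc 2 (by norm_num) (by norm_num)
  have hm2 := h3 S hS D hD (fun p => (h p : ℂ)) (fun p hp => by
    rw [Complex.norm_real, Real.norm_eq_abs, abs_of_nonneg (hh p hp).1]
    exact (hh p hp).2) 8 (by norm_num) le_rfl
  have hpt : ∀ x, bp r S c x * (1 + ‖GF r S h z z' μ1 μ2 x‖) * ‖HF S D x‖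
      ≤ (1 / 10) ^ (1000 * r) * (Real.exp (2 * ‖L x‖) * ‖HF S D x‖
        + Real.exp (8 * ‖P x‖) * ‖HF S D x‖) := by
    intro x
    have b1 := bp_le hr S c x
    have b2 := norm_GF_le r S h hz hz' hμ1 hμ2 x
    rw [← hP] at b2
    rw [← hL] at b1
    have b3 : 1 + ‖GF r S h z z' μ1 μ2 x‖ ≤ 2 * Real.exp (4 * ‖P x‖) := by
      have : 1 ≤ Real.exp (4 * ‖P x‖) := Real.one_le_exp (by positivity)
      linarith
    have b4 : Real.exp ‖L x‖ * (2 * Real.exp (4 * ‖P x‖))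
        ≤ Real.exp (2 * ‖L x‖) + Real.exp (8 * ‖P x‖) := by
      have e1 : Real.exp (2 * ‖L x‖) = Real.exp ‖L x‖ ^ 2 := by
        rw [← Real.exp_nat_mul]; norm_num
      have e2 : Real.exp (8 * ‖P x‖) = Real.exp (4 * ‖P x‖) ^ 2 := by
        rw [← Real.exp_nat_mul]; ring_nf
      rw [e1, e2]
      nlinarith [sq_nonneg (Real.exp ‖L x‖ - Real.exp (4 * ‖P x‖))]
    calc bp r S c x * (1 + ‖GF r S h z z' μ1 μ2 x‖) * ‖HF S D x‖
        ≤ ((1 / 10) ^ (1000 * r) * Real.exp ‖L x‖) * (2 * Real.exp (4 * ‖P x‖)) * ‖HF S D x‖ := by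
          gcongr
      _ = (1 / 10) ^ (1000 * r) * (Real.exp ‖L x‖ * (2 * Real.exp (4 * ‖P x‖))) * ‖HF S D x‖ := by
          ring
      _ ≤ (1 / 10) ^ (1000 * r) * (Real.exp (2 * ‖L x‖) + Real.exp (8 * ‖P x‖)) * ‖HF S D x‖ := by
          gcongr
      _ = _ := by ring
  have hint : ∫ x, bp r S c x * (1 + ‖GF r S h z z' μ1 μ2 x‖) * ‖HF S D x‖ ∂mu
      ≤ (1 / 10) ^ (1000 * r) * (4 * Real.exp (200 * VV S) + 4 * Real.exp (200 * VV S)) := by
    calc _ ≤ ∫ x, (1 / 10) ^ (1000 * r) * (Real.exp (2 * ‖L x‖) * ‖HF S D x‖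
          + Real.exp (8 * ‖P x‖) * ‖HF S D x‖) ∂mu := by
          refine integral_mono_of_nonneg (Eventually.of_forall fun x => ?_)
            ((hi1.add hi2).const_mul _) (Eventually.of_forall hpt)
          have : 0 ≤ bp r S c x := by
            unfold bp RR
            positivity
          positivity
      _ = (1 / 10) ^ (1000 * r) * (∫ x, Real.exp (2 * ‖L x‖) * ‖HF S D x‖ ∂mu
          + ∫ x, Real.exp (8 * ‖P x‖) * ‖HF S D x‖ ∂mu) := by
          rw [integral_const_mul, integral_add hi1 hi2]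
      _ ≤ _ := by gcongr
  have hr1 : (1 : ℝ) ≤ r := by exact_mod_cast hr
  have hlow := norm_cexp_sab_ge hV hh hz hz' hμ1 hμ2 hD
  have hexp : Real.exp (200 * VV S) ≤ Real.exp (400 * r) := Real.exp_le_exp.2 (by linarith)
  have h10 : ((1 / 10 : ℝ)) ^ (1000 * r) ≤ Real.exp (-(1000 * r)) := by
    have e1 : Real.exp (-(1000 * (r : ℝ))) = Real.exp (-1) ^ (1000 * r) := by
      rw [← Real.exp_nat_mul]; push_cast; ring_nf
    rw [e1]
    refine pow_le_pow_left₀ (by norm_num) ?_ _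
    have := Real.exp_one_lt_d9
    rw [Real.exp_neg, one_div]
    exact inv_anti₀ (Real.exp_pos 1) (by linarith)
  have h8 : (8 : ℝ) ≤ Real.exp (8 * r) := by
    have := Real.add_one_le_exp (8 * (r : ℝ))
    linarith
  calc _ ≤ (1 / 10) ^ (1000 * r) * (4 * Real.exp (200 * VV S) + 4 * Real.exp (200 * VV S)) := hint
    _ = 8 * ((1 / 10) ^ (1000 * r) * Real.exp (200 * VV S)) := by ring
    _ ≤ Real.exp (8 * r) * (Real.exp (-(1000 * r)) * Real.exp (400 * r)) := by gcongr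
    _ = Real.exp (-(592 * r)) := by
        rw [← Real.exp_add, ← Real.exp_add]; ring_nf
    _ ≤ Real.exp (-(2 * r) + -(72 * r)) := Real.exp_le_exp.2 (by linarith)
    _ = Real.exp (-(2 * r)) * Real.exp (-(72 * r)) := Real.exp_add _ _
    _ ≤ _ := by gcongr

end Pool.Agent.Lib.G2
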