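import Mathlib
import Pool.Agent.Lib.MP_f9aece_nt_g2.Stmts
import Pool.Agent.Lib.MP_f9aece_nt_gt.B6

/-!
B6: the main term, product over the groups.
-/

set_option autoImplicit false

namespace Pool.Agent.Lib.G2

open MeasureTheory Set Filter Topology Complex ProbabilityTheory
open scoped ComplexConjugate
open Pool.Agent.Lib.MP_f9aece_nt (VV)
open Pool.Agent.Lib.J4 (V2)
open Pool.Agent.Lib.GT

namespace B6Aux

lemma meas_HF (S : Finset ℕ) (D : Dat) : Measurable (HF S D) := by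
  have he : ∀ p : ℕ, Measurable fun x : Om => e1 (x p) := fun p =>
    continuous_e1.measurable.comp (measurable_pi_apply p)
  have hc : ∀ p : ℕ, Measurable fun x : Om => conj (e1 (x p)) := fun p =>
    Complex.continuous_conj.measurable.comp (he p)
  unfold HF
  refine (Complex.measurable_exp.comp (Finset.measurable_fun_sum _ fun p _ => ?_)).mul
    (Finset.measurable_fun_prod _ fun p _ => ?_)
  · exact (measurable_const.mul (he p)).add (measurable_const.mul (hc p))
  · exact (((measurable_const.sub (measurable_const.mul (he p))).inv).mul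
      ((measurable_const.sub (measurable_const.mul (hc p))).inv)).mul
      (((measurable_const.sub (measurable_const.mul (he p))).inv).mul
      ((measurable_const.sub (measurable_const.mul (hc p))).inv))

lemma depHF (S : Finset ℕ) (D : Dat) : Dep (S : Set ℕ) (HF S D) := by
  intro x y hxy
  unfold HF
  congr 1
  · congr 1
    exact Finset.sum_congr rfl fun p hp => by rw [hxy p (Finset.mem_coe.2 hp)]
  · exact Finset.prod_congr rfl fun p hp => by rw [hxy p (Finset.mem_coe.2 hp)]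

end B6Aux

open B6Aux in
/-- **B6** -/
theorem allMain (h1 : GroupMain) (h3 : GroupNum) : AllMain := by
  obtain ⟨C, hC, hmain⟩ := h1
  refine ⟨(2 + C) * Real.exp (2 + C), by positivity, ?_⟩
  intro A hA z z' μ1 μ2 hz hz' hμ1 hμ2 D hD c
  obtain ⟨n1, n2, n3, n4, n5, n6, n7, n8⟩ := h3 A hA
  have hS : ∀ g, ∀ p ∈ A.S g, p.Prime ∧ 1000 ≤ p := fun g p hp => ⟨(n1 g p hp).1, (n1 g p hp).2.1⟩
  have hr : ∀ g, 1 ≤ A.r g := by
    intro g
    have := hA.hv
    unfold Par.r
    nlinarith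
  have hh : ∀ g, ∀ p ∈ A.S g, 0 ≤ A.h p ∧ A.h p ≤ 1 / Real.sqrt p := by
    intro g p hp
    unfold Par.h
    refine ⟨by positivity, ?_⟩
    have e : (1 : ℝ) / Real.sqrt p = (p : ℝ) ^ (-(1 / 2) : ℝ) := by
      rw [Real.rpow_neg (by positivity), ← Real.sqrt_eq_rpow, one_div]
    rw [e]
  -- the factors
  set E : ℕ → Om → ℂ := fun g x => GF (A.r g) (A.S g) A.h z z' μ1 μ2 x * HF (A.S g) D x with hE
  have hEm : ∀ g, Measurable (E g) := fun g =>
    (GT.B7Aux.measurable_GF _ _ _ _ _ _ _).mul (meas_HF _ _)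
  have hEd : ∀ g, Dep (A.S g : Set ℕ) (E g) := by
    intro g x y hxy
    simp only [hE]
    rw [GT.B7Aux.dep_GF _ _ _ _ _ _ _ x y hxy, depHF _ _ x y hxy]
  have hAll : ∀ x, AllF A ∅ ∅ c z z' μ1 μ2 D x = ∏ g ∈ Finset.range A.J, E g x := by
    intro x
    unfold AllF
    refine Finset.prod_congr rfl fun g _ => ?_
    simp [hE]
  have hprod : ∫ x, AllF A ∅ ∅ c z z' μ1 μ2 D x ∂mu = ∏ g ∈ Finset.range A.J, ∫ x, E g x ∂mu := by
    rw [integral_congr_ae (Eventually.of_forall hAll)]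
    exact integral_prod_of_dep (Finset.range A.J) A.S E (fun i _ j _ hij => n3 i j hij)
      (fun i _ => hEm i) (fun i _ => hEd i)
  have hU : cexp (sab A.U A.h z z' μ1 μ2 D) =
      ∏ g ∈ Finset.range A.J, cexp (sab (A.S g) A.h z z' μ1 μ2 D) := by
    rw [← Complex.exp_sum]
    congr 1
    unfold sab Par.U
    exact Finset.sum_biUnion fun i _ j _ hij => n3 i j hij
  have hV : ∑ g ∈ Finset.range A.J, V2 (A.S g) ≤ 1 / A.p0 := by
    have : ∑ g ∈ Finset.range A.J, V2 (A.S g) = ∑ p ∈ A.U, ((p : ℝ)⁻¹) ^ 2 := by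
      unfold Par.U V2
      exact (Finset.sum_biUnion fun i _ j _ hij => n3 i j hij).symm
    rw [this]
    exact GT.B6Aux.sum_sq_le (by have := hA.hp; omega) A.U fun p hp => ((n4 p).1 hp).2.1
  have hp0 : (0 : ℝ) < A.p0 := by
    have := hA.hp
    exact_mod_cast (by omega : 0 < A.p0)
  have hp1 : 1 / (A.p0 : ℝ) ≤ 1 := by
    rw [div_le_one hp0]
    have := hA.hp
    exact_mod_cast (by omega : 1 ≤ A.p0)
  have hev : Real.exp (-(A.v : ℝ)) ≤ 1 := by
    rw [Real.exp_le_one_iff]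
    have : (0 : ℝ) ≤ A.v := by positivity
    linarith
  have hn6 : ∑ g ∈ Finset.range A.J, Real.exp (-(A.r g : ℝ)) ≤ 2 * Real.exp (-(A.v : ℝ)) := by
    refine n6.trans (mul_le_mul_of_nonneg_left (Real.exp_le_exp.2 ?_) (by norm_num))
    have h1 : (0 : ℝ) ≤ A.v := by positivity
    have h2 : (0 : ℝ) ≤ A.i := by positivity
    nlinarith [mul_nonneg h1 h2]
  have key := GT.B6Aux.prod_pert (Finset.range A.J) (fun g => ∫ x, E g x ∂mu)
    (fun g => cexp (sab (A.S g) A.h z z' μ1 μ2 D))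
    (fun g => Real.exp (-(A.r g : ℝ)) + C * V2 (A.S g)) (fun g => Complex.exp_ne_zero _)
    (fun g _ => hmain (A.S g) (A.r g) (hS g) (hr g) (n2 g) A.h (hh g) z z' μ1 μ2 hz hz' hμ1 hμ2 D hD)
  rw [hprod, hU]
  refine key.trans (mul_le_mul_of_nonneg_right ?_ (norm_nonneg _))
  set x : ℝ := ∑ g ∈ Finset.range A.J, (Real.exp (-(A.r g : ℝ)) + C * V2 (A.S g)) with hx
  have hev0 := Real.exp_pos (-(A.v : ℝ))
  have hx1 : x ≤ 2 * Real.exp (-A.v) + C * (1 / A.p0) := by
    rw [hx, Finset.sum_add_distrib, ← Finset.mul_sum]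
    exact add_le_add hn6 (mul_le_mul_of_nonneg_left hV hC)
  have hx0 : 0 ≤ x := Finset.sum_nonneg fun g _ => by
    have : 0 ≤ V2 (A.S g) := Finset.sum_nonneg fun p _ => by positivity
    positivity
  have hx2 : x ≤ 2 + C := by
    refine hx1.trans ?_
    have := mul_le_mul_of_nonneg_left hp1 hC
    linarith
  have hx3 : x ≤ (2 + C) * (Real.exp (-A.v) + 1 / A.p0) := by
    refine hx1.trans ?_
    have e1 : 0 ≤ C * Real.exp (-(A.v : ℝ)) := by positivity
    have e2 : (0 : ℝ) ≤ 2 * (1 / A.p0) := by positivity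
    nlinarith
  calc x * Real.exp x ≤ (2 + C) * (Real.exp (-A.v) + 1 / A.p0) * Real.exp (2 + C) :=
        mul_le_mul hx3 (Real.exp_le_exp.2 hx2) (Real.exp_pos _).le (by positivity)
    _ = _ := by ring

end Pool.Agent.Lib.G2
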