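import Mathlib
import Pool.Agent.Lib.MP_f9aece_nt_g2.Stmts
import Pool.Agent.Lib.MP_f9aece_nt_gt.Stmts

/-!
The law of `log |zeta|` under the measure `|zeta| ^ 2`, C10: the weights at a good point and the
windows.
-/

set_option autoImplicit false

namespace Pool.Agent.Lib.G2

open MeasureTheory Set Filter Topology Complex ProbabilityTheory
open scoped ComplexConjugate
open Pool.Agent.Lib.GT

/-- a lower bound for an integral from a lower bound on an interval -/
private theorem lint_ge {f : ℝ → ℝ} {S : Set ℝ} {a l c : ℝ} (hS : Icc a (a + l) ⊆ S)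
    (hc : 0 ≤ c) (hf : ∀ y ∈ Icc a (a + l), c ≤ f y) :
    ENNReal.ofReal (c * l) ≤ ∫⁻ y in S, ENNReal.ofReal (f y) := by
  calc ENNReal.ofReal (c * l) = ∫⁻ _ in Icc a (a + l), ENNReal.ofReal c := by
        rw [setLIntegral_const, Real.volume_Icc, add_sub_cancel_left, ENNReal.ofReal_mul hc]
    _ ≤ ∫⁻ y in Icc a (a + l), ENNReal.ofReal (f y) :=
        setLIntegral_mono' measurableSet_Icc fun y hy => ENNReal.ofReal_le_ofReal (hf y hy)
    _ ≤ _ := lintegral_mono_set hS

private theorem psi_window (h1 : PsiBd) : ∃ (r1 κ ρ : ℝ), 0 < κ ∧ 0 < ρ ∧ ρ ≤ 1 ∧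
    ∀ r, |r - r1| ≤ ρ → κ ≤ ‖psi r‖ := by
  obtain ⟨C, hC, hb, hcont, hc0, hint⟩ := h1
  have hne : ∃ r1, psi r1 ≠ 0 := by
    by_contra hcon
    push Not at hcon
    have : c0 = 0 := by unfold c0; simp [hcon]
    linarith
  obtain ⟨r1, hr1⟩ := hne
  have hpos : 0 < ‖psi r1‖ := norm_pos_iff.2 hr1
  have hev : ∀ᶠ r in 𝓝 r1, ‖psi r1‖ / 2 < ‖psi r‖ :=
    (hcont.norm.tendsto r1).eventually (lt_mem_nhds (by linarith))
  obtain ⟨δ, hδ, hd⟩ := Metric.eventually_nhds_iff.1 hev
  refine ⟨r1, ‖psi r1‖ / 2, min (δ / 2) 1, by positivity, by positivity, min_le_right _ _, fun r hr => ?_⟩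
  refine (hd ?_).le
  rw [Real.dist_eq]
  have : min (δ / 2) 1 ≤ δ / 2 := min_le_left _ _
  linarith

private theorem one_le_bb (A : Par) (s : Finset ℕ) (x : Om) (hB : A.Bad s x) :
    1 ≤ ∏ g ∈ s, A.bb g x := by
  refine Finset.prod_induction _ (fun t : ℝ => 1 ≤ t) (fun a b ha hb => one_le_mul_of_one_le_of_one_le ha hb) le_rfl
    fun g hg => ?_
  unfold Par.bb bp
  rcases Nat.eq_zero_or_pos (A.r g) with h0 | h0
  · rw [h0]; simp [MM]
  · have h1 := hB g hg
    have h2 : (0 : ℝ) < RR (A.r g) := by unfold RR; positivity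
    refine one_le_pow₀ ?_
    rw [one_le_div h2]
    exact h1.le

/-- C10: the weights at a good point and the windows -/
theorem wPoint (h1 : PsiBd) (h9 : Pointwise) : WPoint := by
  obtain ⟨r1, κ, ρ, hκ, hρ, hρ1, hwin⟩ := psi_window h1
  obtain ⟨Cp, hCp, hpsi, hcont, hc0, hint⟩ := h1
  obtain ⟨C9, hC90, h9⟩ := h9
  set D : ℝ := |r1| + 1 with hD
  have hD1 : 1 ≤ D := by have := abs_nonneg r1; linarith
  set m : ℝ := 1 / c0 * (Real.exp (-D) * (κ / 2) ^ 2) with hm
  have hmpos : 0 < m := by positivity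
  set m3 : ℝ := m * (2 * ρ) * (Real.exp (-D) / (2 * (1 + D ^ 2))) with hm3
  have hm3pos : 0 < m3 := by positivity
  set C9' : ℝ := |C9| with hC9'
  have hC9n : 0 ≤ C9' := abs_nonneg _
  set C : ℝ := 1 + 1 / m3 + (2 * Cp * C9' + C9' ^ 2) / c0 with hCdef
  have hCm : 1 / m3 ≤ C := by
    have : 0 ≤ (2 * Cp * C9' + C9' ^ 2) / c0 := by positivity
    linarith
  have hC1 : 1 ≤ C := by
    have : 0 ≤ (2 * Cp * C9' + C9' ^ 2) / c0 := by positivity
    have : 0 ≤ 1 / m3 := by positivity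
    linarith
  have hCc : (2 * Cp * C9' + C9' ^ 2) / c0 ≤ C := by
    have : 0 ≤ 1 / m3 := by positivity
    linarith
  have hCm3 : 1 ≤ C * m3 := by
    have := mul_le_mul_of_nonneg_right hCm hm3pos.le
    rwa [one_div, inv_mul_cancel₀ hm3pos.ne'] at this
  set δ : ℝ := min (κ / 2) (1 / 4) with hδ
  have hδpos : 0 < δ := by positivity
  refine ⟨C, D + 1, ⌈C9' / δ⌉₊, hC1, by linarith, ?_⟩
  intro A hA hv s hs x hG hB
  have hb0 : 0 < A.b := hA.hbe.trans_le hA.hbb
  obtain ⟨hq, hmo⟩ := h9 A hA s hs x hG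
  set X : ℝ := A.X s x with hX
  -- the error
  have herr : C9 * Real.exp (-A.v) ≤ δ := by
    have e1 : C9' / δ ≤ A.v := (Nat.le_ceil _).trans (by exact_mod_cast hv)
    have e2 : (A.v : ℝ) + 1 ≤ Real.exp A.v := Real.add_one_le_exp _
    have e3 : C9 ≤ δ * Real.exp A.v := by
      have : C9 ≤ C9' := le_abs_self _
      have h4 : C9' ≤ A.v * δ := by rwa [div_le_iff₀ hδpos] at e1
      nlinarith [Real.exp_pos (A.v : ℝ)]
    rw [Real.exp_neg, ← div_eq_mul_inv, div_le_iff₀ (Real.exp_pos _)]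
    exact e3
  have hbb : 1 ≤ ∏ g ∈ s, A.bb g x := one_le_bb A s x hB
  -- the modulus of q
  have hqn : ∀ y, ‖A.q s y x‖ = Real.exp (A.be * (X - y) / 2) *
      ‖A.q s y x * Real.exp (-(A.be * (X - y) / 2))‖ := by
    intro y
    rw [norm_mul, Complex.norm_real, Real.norm_eq_abs, abs_of_pos (Real.exp_pos _), Real.exp_neg]
    have := Real.exp_pos (A.be * (X - y) / 2)
    field_simp
  have hexp2 : ∀ y, Real.exp (A.be * (X - y) / 2) ^ 2 = Real.exp (A.be * (X - y)) := by
    intro y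
    rw [← Real.exp_nat_mul]; congr 1; push_cast; ring
  -- lower bound of the weight on the window
  have hW : ∀ y, |A.b * (X - y) - r1| ≤ ρ → A.b * m ≤ A.W s y x := by
    intro y hy
    have hr : |A.b * (X - y)| ≤ D := by
      have := abs_sub_abs_le_abs_sub (A.b * (X - y)) r1
      linarith
    have e1 := hq y
    have e2 := hwin _ hy
    have e3 : C9 * Real.exp (-A.v) / (1 + (A.b * (X - y)) ^ 2) ≤ κ / 2 := by
      rw [div_le_iff₀ (by positivity)]
      have h5 : δ ≤ κ / 2 := min_le_left _ _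
      nlinarith [sq_nonneg (A.b * (X - y))]
    have e4 : κ / 2 ≤ ‖A.q s y x * Real.exp (-(A.be * (X - y) / 2))‖ := by
      have h6 := norm_sub_norm_le (psi (A.b * (X - y))) (A.q s y x * Real.exp (-(A.be * (X - y) / 2)))
      rw [norm_sub_rev] at h6
      linarith
    have e5 : Real.exp (-D) ≤ Real.exp (A.be * (X - y)) := by
      apply Real.exp_le_exp.2
      have h7 : |A.be * (X - y)| ≤ |A.b * (X - y)| := by
        rw [abs_mul, abs_mul, abs_of_pos hA.hbe, abs_of_pos hb0]
        exact mul_le_mul_of_nonneg_right hA.hbb (abs_nonneg _)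
      have h8 := neg_abs_le (A.be * (X - y))
      linarith
    have e6 : Real.exp (-D) * (κ / 2) ^ 2 ≤ ‖A.q s y x‖ ^ 2 := by
      rw [hqn y, mul_pow, hexp2]
      exact mul_le_mul e5 (pow_le_pow_left₀ (by positivity) e4 2) (by positivity) (Real.exp_pos _).le
    unfold Par.W Par.Wg
    calc A.b * m = A.b / c0 * 1 * (Real.exp (-D) * (κ / 2) ^ 2) := by rw [hm]; ring
      _ ≤ A.b / c0 * (∏ g ∈ s, A.bb g x) * ‖A.q s y x‖ ^ 2 := by
        refine mul_le_mul (mul_le_mul_of_nonneg_left hbb (by positivity)) e6 (by positivity) (by positivity)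
  -- the window
  set a : ℝ := X - (r1 + ρ) / A.b with ha
  have hwd : ∀ y ∈ Icc a (a + 2 * ρ / A.b), |A.b * (X - y) - r1| ≤ ρ := by
    intro y hy
    have h2 : A.b * (X - a) = r1 + ρ := by rw [ha]; field_simp; ring
    have h3 : A.b * (X - (a + 2 * ρ / A.b)) = r1 - ρ := by rw [ha]; field_simp; ring
    have h4 : A.b * (X - y) ≤ A.b * (X - a) := mul_le_mul_of_nonneg_left (by linarith [hy.1]) hb0.le
    have h5 : A.b * (X - (a + 2 * ρ / A.b)) ≤ A.b * (X - y) :=
      mul_le_mul_of_nonneg_left (by linarith [hy.2]) hb0.le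
    rw [abs_le]
    constructor <;> linarith
  have hwy : ∀ y ∈ Icc a (a + 2 * ρ / A.b), |A.b * (X - y)| ≤ D := by
    intro y hy
    have := abs_sub_abs_le_abs_sub (A.b * (X - y)) r1
    have := hwd y hy
    linarith
  have hwlt : ∀ y ∈ Icc a (a + 2 * ρ / A.b), X - (D + 1) / A.b < y ∧ y < X + (D + 1) / A.b := by
    intro y hy
    have h6 := hwy y hy
    rw [abs_le] at h6
    have h7 : A.b * ((D + 1) / A.b) = D + 1 := by field_simp
    constructor
    · by_contra hcon
      push Not at hcon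
      have := mul_le_mul_of_nonneg_left hcon hb0.le
      nlinarith
    · by_contra hcon
      push Not at hcon
      have := mul_le_mul_of_nonneg_left hcon hb0.le
      nlinarith
  have hlen : ∀ c : ℝ, A.b * c * (2 * ρ / A.b) = c * (2 * ρ) := by intro c; field_simp
  have hE1 : Real.exp (-D) / (2 * (1 + D ^ 2)) ≤ 1 := by
    rw [div_le_one (by positivity)]
    have : Real.exp (-D) ≤ 1 := Real.exp_le_one_iff.2 (by linarith)
    nlinarith [sq_nonneg D]
  have hE2 : Real.exp (-D) / (2 * (1 + D ^ 2)) ≤ Real.exp (-D) := by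
    rw [div_le_iff₀ (by positivity)]
    nlinarith [Real.exp_pos (-D), sq_nonneg D]
  have hprod : ∀ c : ℝ, ∀ I : ENNReal, m * (2 * ρ) * (Real.exp (-D) / (2 * (1 + D ^ 2))) * c ≤ c * m3 →
      0 ≤ c → ENNReal.ofReal (c * m3) ≤ I → ENNReal.ofReal c ≤ ENNReal.ofReal C * I := by
    intro c I _ hc hI
    calc ENNReal.ofReal c ≤ ENNReal.ofReal (C * (c * m3)) := by
          apply ENNReal.ofReal_le_ofReal
          nlinarith
      _ = ENNReal.ofReal C * ENNReal.ofReal (c * m3) := by rw [ENNReal.ofReal_mul (by linarith)]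
      _ ≤ _ := mul_le_mul_right hI _
  refine ⟨?_, ?_, ?_, ?_, ?_⟩
  · -- (1)
    intro V hV
    have h2 := lint_ge (f := fun y => A.W s y x) (S := Ioi (V - (D + 1) / A.b)) (a := a)
      (l := 2 * ρ / A.b) (c := A.b * m) (fun y hy => ?_) (by positivity) (fun y hy => hW y (hwd y hy))
    · rw [hlen] at h2
      have h3 := hprod 1 _ (by rw [hm3]; linarith) zero_le_one
        ((ENNReal.ofReal_le_ofReal (?_ : 1 * m3 ≤ m * (2 * ρ))).trans h2)
      · rwa [ENNReal.ofReal_one] at h3
      · rw [one_mul, hm3]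
        exact mul_le_of_le_one_right (by positivity) hE1
    · have := (hwlt y hy).1
      simp only [mem_Ioi]
      linarith
  · -- (2)
    intro V hV
    have h2 := lint_ge (f := fun y => Real.exp (A.b * (y - V)) * A.W s y x) (S := Iio (V + (D + 1) / A.b))
      (a := a) (l := 2 * ρ / A.b) (c := A.b * (Real.exp (2 * (X - V)) * Real.exp (-D) * m))
      (fun y hy => ?_) (by positivity) (fun y hy => ?_)
    · rw [hlen] at h2
      refine hprod (Real.exp (2 * (X - V))) _ (by rw [hm3]; linarith) (Real.exp_pos _).le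
        ((ENNReal.ofReal_le_ofReal ?_).trans h2)
      calc Real.exp (2 * (X - V)) * m3
          = (Real.exp (2 * (X - V)) * m * (2 * ρ)) * (Real.exp (-D) / (2 * (1 + D ^ 2))) := by
            rw [hm3]; ring
        _ ≤ (Real.exp (2 * (X - V)) * m * (2 * ρ)) * Real.exp (-D) :=
            mul_le_mul_of_nonneg_left hE2 (by positivity)
        _ = _ := by ring
    · have := (hwlt y hy).2
      simp only [mem_Iio]
      linarith
    · have h3 := hW y (hwd y hy)
      have h4 := hwy y hy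
      rw [abs_le] at h4
      have h5 : Real.exp (2 * (X - V)) * Real.exp (-D) ≤ Real.exp (A.b * (y - V)) := by
        rw [← Real.exp_add]
        apply Real.exp_le_exp.2
        have h6 : A.b * (y - V) = A.b * (X - V) - A.b * (X - y) := by ring
        have h7 : 2 * (X - V) ≤ A.b * (X - V) := by
          have := hA.hb
          nlinarith
        linarith
      calc A.b * (Real.exp (2 * (X - V)) * Real.exp (-D) * m)
          = (Real.exp (2 * (X - V)) * Real.exp (-D)) * (A.b * m) := by ring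
        _ ≤ Real.exp (A.b * (y - V)) * A.W s y x :=
          mul_le_mul h5 h3 (by positivity) (Real.exp_pos _).le
  · -- (3)
    intro y
    set E : ℝ := Real.exp (A.be * (X - y)) / (1 + (A.b * (X - y)) ^ 2) with hE
    have hEpos : 0 < E := by positivity
    have h2 := lint_ge (f := fun y' => Real.exp (A.be * (y' - y)) / (1 + (A.b * (y' - y)) ^ 2) * A.W s y' x)
      (S := univ) (a := a) (l := 2 * ρ / A.b)
      (c := A.b * (E * (Real.exp (-D) / (2 * (1 + D ^ 2))) * m))
      (subset_univ _) (by positivity) (fun y' hy' => ?_)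
    · rw [hlen, Measure.restrict_univ] at h2
      have h3 := hprod E _ (by rw [hm3]; linarith) hEpos.le
        ((ENNReal.ofReal_le_ofReal (le_of_eq ?_ : E * m3 ≤ _)).trans h2)
      · change ENNReal.ofReal (A.b * E) ≤ _
        rw [ENNReal.ofReal_mul hb0.le, mul_comm C A.b, ENNReal.ofReal_mul hb0.le, mul_assoc]
        exact mul_le_mul_right h3 _
      · rw [hm3]; ring
    · have h3 := hW y' (hwd y' hy')
      have h4 := hwy y' hy'
      have h4' := h4
      rw [abs_le] at h4
      have h5 : E * (Real.exp (-D) / (2 * (1 + D ^ 2))) ≤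
          Real.exp (A.be * (y' - y)) / (1 + (A.b * (y' - y)) ^ 2) := by
        rw [hE, div_mul_div_comm, ← Real.exp_add, div_le_div_iff₀ (by positivity) (by positivity)]
        have h6 : Real.exp (A.be * (X - y) + -D) ≤ Real.exp (A.be * (y' - y)) := by
          apply Real.exp_le_exp.2
          have h7 : |A.be * (X - y')| ≤ |A.b * (X - y')| := by
            rw [abs_mul, abs_mul, abs_of_pos hA.hbe, abs_of_pos hb0]
            exact mul_le_mul_of_nonneg_right hA.hbb (abs_nonneg _)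
          have h8 := le_abs_self (A.be * (X - y'))
          have h9 : A.be * (y' - y) = A.be * (X - y) - A.be * (X - y') := by ring
          linarith
        have h10 : 1 + (A.b * (y' - y)) ^ 2 ≤ (1 + (A.b * (X - y)) ^ 2) * (2 * (1 + D ^ 2)) := by
          have h11 : A.b * (y' - y) = A.b * (X - y) - A.b * (X - y') := by ring
          have h12 : (A.b * (X - y')) ^ 2 ≤ D ^ 2 := sq_le_sq' h4.1 h4.2
          rw [h11]
          nlinarith [sq_nonneg (A.b * (X - y) + A.b * (X - y')), sq_nonneg (A.b * (X - y)),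
            mul_nonneg (sq_nonneg (A.b * (X - y))) (sq_nonneg D)]
        exact mul_le_mul h6 h10 (by positivity) (Real.exp_pos _).le
      calc A.b * (E * (Real.exp (-D) / (2 * (1 + D ^ 2))) * m)
          = (E * (Real.exp (-D) / (2 * (1 + D ^ 2)))) * (A.b * m) := by ring
        _ ≤ _ := mul_le_mul h5 h3 (by positivity) (by positivity)
  · -- (4)
    intro hs0 y
    subst hs0
    set T : ℂ := A.q ∅ y x * Real.exp (-(A.be * (X - y) / 2)) with hT
    have e1 := hq y
    have e0 := hpsi (A.b * (X - y))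
    set R : ℝ := 1 + (A.b * (X - y)) ^ 2 with hR
    have hR1 : 1 ≤ R := by have := sq_nonneg (A.b * (X - y)); linarith
    set ε : ℝ := Real.exp (-A.v) with hε
    have hεpos : 0 < ε := Real.exp_pos _
    have hε1 : ε ≤ 1 := Real.exp_le_one_iff.2 (by simp)
    have e2 : ‖T - psi (A.b * (X - y))‖ ≤ C9' * ε / R := by
      refine e1.trans ?_
      have : C9 ≤ C9' := le_abs_self _
      gcongr
    have e3 : |‖T‖ ^ 2 - ‖psi (A.b * (X - y))‖ ^ 2| ≤ (2 * Cp * C9' + C9' ^ 2) * ε / R := by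
      have f1 : |‖T‖ - ‖psi (A.b * (X - y))‖| ≤ C9' * ε / R := (abs_norm_sub_norm_le _ _).trans e2
      have f2 : ‖T‖ + ‖psi (A.b * (X - y))‖ ≤ 2 * Cp + C9' := by
        have g1 : ‖T‖ ≤ ‖psi (A.b * (X - y))‖ + ‖T - psi (A.b * (X - y))‖ := by
          have := norm_add_le (psi (A.b * (X - y))) (T - psi (A.b * (X - y)))
          rwa [add_sub_cancel] at this
        have g2 : Cp / R ≤ Cp := div_le_self hCp hR1
        have g3 : C9' * ε / R ≤ C9' := (div_le_self (by positivity) hR1).trans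
          (mul_le_of_le_one_right hC9n hε1)
        linarith
      have f3 : ‖T‖ ^ 2 - ‖psi (A.b * (X - y))‖ ^ 2 =
          (‖T‖ - ‖psi (A.b * (X - y))‖) * (‖T‖ + ‖psi (A.b * (X - y))‖) := by ring
      rw [f3, abs_mul, abs_of_nonneg (by positivity : 0 ≤ ‖T‖ + ‖psi (A.b * (X - y))‖)]
      calc |‖T‖ - ‖psi (A.b * (X - y))‖| * (‖T‖ + ‖psi (A.b * (X - y))‖)
          ≤ (C9' * ε / R) * (2 * Cp + C9') := mul_le_mul f1 f2 (by positivity) (by positivity)
        _ = _ := by ring
    have e4 : A.W ∅ y x - HH A.be A.b y X =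
        A.b / c0 * (Real.exp (A.be * (X - y)) * (‖T‖ ^ 2 - ‖psi (A.b * (X - y))‖ ^ 2)) := by
      unfold Par.W Par.Wg HH
      rw [hqn y, mul_pow, hexp2, Finset.prod_empty, ← hT]
      ring
    rw [e4, abs_mul, abs_mul, abs_of_pos (Real.exp_pos _), abs_of_pos (by positivity : 0 < A.b / c0)]
    calc A.b / c0 * (Real.exp (A.be * (X - y)) * |‖T‖ ^ 2 - ‖psi (A.b * (X - y))‖ ^ 2|)
        ≤ A.b / c0 * (Real.exp (A.be * (X - y)) * ((2 * Cp * C9' + C9' ^ 2) * ε / R)) := by gcongr
      _ = (2 * Cp * C9' + C9' ^ 2) / c0 * (ε * (A.b * (Real.exp (A.be * (X - y)) / R))) := by ring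
      _ ≤ C * (ε * (A.b * (Real.exp (A.be * (X - y)) / R))) :=
          mul_le_mul_of_nonneg_right hCc (by positivity)
      _ = _ := by unfold Env; rw [hR]; ring
  · -- (5)
    intro m hm
    have h5 : δ ≤ 1 / 4 := min_le_right _ _
    have e1 : ‖A.mo m s x * cexp (-(m * ∑ g ∈ Finset.range A.J \ s, A.P g x)) - 1‖ ≤ 1 / 4 :=
      (hmo m hm).trans (herr.trans h5)
    have e2 : 3 / 4 ≤ ‖A.mo m s x * cexp (-(m * ∑ g ∈ Finset.range A.J \ s, A.P g x))‖ := by
      have h6 := norm_sub_norm_le (1 : ℂ)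
        (A.mo m s x * cexp (-(m * ∑ g ∈ Finset.range A.J \ s, A.P g x)))
      rw [norm_sub_rev, norm_one] at h6
      linarith
    have e2' : ‖A.mo m s x * cexp (-(m * ∑ g ∈ Finset.range A.J \ s, A.P g x))‖ ≤ 5 / 4 := by
      have h6 := norm_sub_norm_le
        (A.mo m s x * cexp (-(m * ∑ g ∈ Finset.range A.J \ s, A.P g x))) (1 : ℂ)
      rw [norm_one] at h6
      linarith
    have e3 : (-((m : ℂ) * ∑ g ∈ Finset.range A.J \ s, A.P g x)).re = -(m * A.Xt s x) := by
      unfold Par.Xt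
      rw [Complex.neg_re, Complex.re_ofReal_mul, Complex.re_sum]
    rw [norm_mul, Complex.norm_exp, e3] at e2 e2'
    have e4 : Real.exp (2 * m * A.Xt s x) * Real.exp (-(m * A.Xt s x)) ^ 2 = 1 := by
      rw [← Real.exp_nat_mul, ← Real.exp_add]
      have : 2 * m * A.Xt s x + ((2 : ℕ) : ℝ) * -(m * A.Xt s x) = 0 := by push_cast; ring
      rw [this, Real.exp_zero]
    set Z : ℝ := ‖A.mo m s x‖ * Real.exp (-(m * A.Xt s x)) with hZ
    have e6 : 0 < Real.exp (2 * m * A.Xt s x) := Real.exp_pos _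
    have e7 : ‖A.mo m s x‖ ^ 2 = Z ^ 2 * Real.exp (2 * m * A.Xt s x) := by
      calc ‖A.mo m s x‖ ^ 2
          = ‖A.mo m s x‖ ^ 2 * (Real.exp (2 * m * A.Xt s x) * Real.exp (-(m * A.Xt s x)) ^ 2) := by
            rw [e4, mul_one]
        _ = _ := by rw [hZ]; ring
    rw [e7]
    exact ⟨mul_le_mul_of_nonneg_right (by nlinarith) e6.le,
      mul_le_mul_of_nonneg_right (by nlinarith) e6.le⟩

end Pool.Agent.Lib.G2
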