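import Mathlib
import Pool.Agent.Lib.MP_f9aece_nt_g2.Stmts
import Pool.Agent.Lib.MP_f9aece_nt_gt.Cont
import Pool.Agent.Lib.MP_f9aece_nt_gt.D6a

/-!
The law of `log |zeta|` under `|zeta| ^ 2`: the Gaussian integral of the window (row C6).
-/

set_option autoImplicit false

namespace Pool.Agent.Lib.G2

open MeasureTheory Set Filter Topology Complex ProbabilityTheory
open scoped ComplexConjugate
open Pool.Agent.Lib.GT

namespace C6K

lemma cont_zz (A : Par) : Continuous A.zz := by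
  unfold Par.zz
  fun_prop

lemma b_pos {A : Par} (hA : A.Ok) : 0 < A.b := hA.hbe.trans_le hA.hbb

lemma G_pos {A : Par} (hA : A.Ok) (y : ℝ) : 0 < A.G y := by
  unfold Par.G
  have h : 0 < Real.sqrt A.s2 := Real.sqrt_pos.mpr (lt_of_lt_of_le one_pos hA.hs)
  positivity

lemma exp_int {s2 : ℝ} (hs : 0 ≤ s2) (z : ℂ) :
    ∫ x : ℝ, cexp (z * x) ∂(gaussianReal 0 (Real.toNNReal s2)) = cexp (z ^ 2 * s2 / 2) := by
  have h := complexMGF_id_gaussianReal (μ := 0) (v := Real.toNNReal s2) z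
  unfold complexMGF at h
  simp only [id_eq] at h
  rw [h]
  congr 1
  have e : ((Real.toNNReal s2 : ℝ) : ℂ) = s2 := by
    rw [Real.coe_toNNReal _ hs]
  have e' : ((Real.toNNReal s2 : NNReal) : ℂ) = ((Real.toNNReal s2 : ℝ) : ℂ) := rfl
  rw [e', e]
  push_cast
  ring

lemma zz_add (A : Par) (w : ℝ × ℝ) : A.zz w.1 + conj (A.zz w.2) = (A.be : ℂ) + I * (A.b * (w.1 - w.2) : ℝ) := by
  unfold Par.zz
  simp only [map_add, map_mul, Complex.conj_I, Complex.conj_ofReal, map_div₀, map_ofNat]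
  push_cast
  ring

lemma psi_sq (A : Par) (y x : ℝ) :
    ∫ w : ℝ × ℝ, ((phi w.1 * phi w.2 : ℝ) : ℂ) * cexp ((A.zz w.1 + conj (A.zz w.2)) * ((x - y : ℝ) : ℂ))
      ∂(me.prod me) = ((Real.exp (A.be * (x - y)) * ‖psi (A.b * (x - y))‖ ^ 2 : ℝ) : ℂ) := by
  have e1 : ∀ w : ℝ × ℝ, ((phi w.1 * phi w.2 : ℝ) : ℂ)
      * cexp ((A.zz w.1 + conj (A.zz w.2)) * ((x - y : ℝ) : ℂ))
      = ((Real.exp (A.be * (x - y)) : ℝ) : ℂ) * ((((phi w.1 : ℝ) : ℂ) * cexp (I * w.1 * (A.b * (x - y) : ℝ)))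
        * (((phi w.2 : ℝ) : ℂ) * cexp (-(I * w.2 * (A.b * (x - y) : ℝ))))) := by
    intro w
    rw [zz_add]
    push_cast
    have e2 : ((A.be : ℂ) + I * ((A.b : ℂ) * ((w.1 : ℂ) - w.2))) * ((x : ℂ) - y)
        = (A.be : ℂ) * ((x : ℂ) - y) + (I * w.1 * (A.b * ((x : ℂ) - y)) + -(I * w.2 * (A.b * ((x : ℂ) - y)))) := by
      ring
    rw [e2, Complex.exp_add, Complex.exp_add]
    ring
  simp only [e1]
  rw [integral_const_mul, integral_prod_mul (fun η : ℝ => ((phi η : ℝ) : ℂ) * cexp (I * η * (A.b * (x - y) : ℝ)))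
    (fun η : ℝ => ((phi η : ℝ) : ℂ) * cexp (-(I * η * (A.b * (x - y) : ℝ))))]
  have e3 : ∫ η, ((phi η : ℝ) : ℂ) * cexp (-(I * η * (A.b * (x - y) : ℝ))) ∂me
      = conj (psi (A.b * (x - y))) := by
    unfold psi
    rw [← integral_conj]
    refine integral_congr_ae (Eventually.of_forall fun η => ?_)
    beta_reduce
    rw [map_mul, Complex.conj_ofReal, ← Complex.exp_conj]
    congr 2
    simp only [map_mul, Complex.conj_I, Complex.conj_ofReal]
    ring
  have e4 : ∫ η, ((phi η : ℝ) : ℂ) * cexp (I * η * (A.b * (x - y) : ℝ)) ∂me = psi (A.b * (x - y)) := rfl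
  rw [e3, e4, Complex.mul_conj, Complex.normSq_eq_norm_sq]
  push_cast
  ring

lemma part_one {A : Par} (hA : A.Ok) (y : ℝ) :
    ((A.b / c0 : ℝ) : ℂ) * ∫ w : ℝ × ℝ, ((phi w.1 * phi w.2 : ℝ) : ℂ)
      * (cexp (-((A.zz w.1 + conj (A.zz w.2)) * y))
      * cexp ((A.zz w.1 + conj (A.zz w.2)) ^ 2 * A.vt / 4)) ∂(me.prod me)
    = ((∫ x, HH A.be A.b y x ∂(gaussianReal 0 (Real.toNNReal A.s2)) : ℝ) : ℂ) := by
  have hs2 : 0 ≤ A.s2 := by linarith [hA.hs]
  set γ := gaussianReal 0 (Real.toNNReal A.s2) with hγ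
  -- the inner integral
  have h1 : ∀ w : ℝ × ℝ, cexp (-((A.zz w.1 + conj (A.zz w.2)) * y))
      * cexp ((A.zz w.1 + conj (A.zz w.2)) ^ 2 * A.vt / 4)
      = ∫ x, cexp ((A.zz w.1 + conj (A.zz w.2)) * ((x - y : ℝ) : ℂ)) ∂γ := by
    intro w
    set Z := A.zz w.1 + conj (A.zz w.2)
    have e1 : ∀ x : ℝ, cexp (Z * ((x - y : ℝ) : ℂ)) = cexp (-(Z * y)) * cexp (Z * x) := by
      intro x
      rw [← Complex.exp_add]
      congr 1
      push_cast
      ring
    simp only [e1]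
    rw [integral_const_mul, hγ, exp_int hs2]
    congr 2
    unfold Par.s2
    push_cast
    ring
  have h2 : ∀ w : ℝ × ℝ, ((phi w.1 * phi w.2 : ℝ) : ℂ) * (cexp (-((A.zz w.1 + conj (A.zz w.2)) * y))
      * cexp ((A.zz w.1 + conj (A.zz w.2)) ^ 2 * A.vt / 4))
      = ∫ x, ((phi w.1 * phi w.2 : ℝ) : ℂ) * cexp ((A.zz w.1 + conj (A.zz w.2)) * ((x - y : ℝ) : ℂ)) ∂γ := by
    intro w
    rw [h1, integral_const_mul]
  simp only [h2]
  rw [integral_integral_swap]
  · simp only [psi_sq]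
    rw [integral_complex_ofReal, ← Complex.ofReal_mul, ← integral_const_mul]
    rfl
  · have i1 : Integrable (fun w : ℝ × ℝ => |phi w.1 * phi w.2|) (me.prod me) := by
      apply D6.integrable_me
      have := continuous_phi
      fun_prop
    have i2 : Integrable (fun x : ℝ => Real.exp (A.be * (x - y))) γ := by
      have h3 := (integrable_exp_mul_gaussianReal (μ := 0) (v := Real.toNNReal A.s2) A.be).const_mul
        (Real.exp (-(A.be * y)))
      refine h3.congr (Eventually.of_forall fun x => ?_)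
      beta_reduce
      rw [← Real.exp_add]
      ring_nf
    refine (i1.mul_prod i2).mono' ?_ (Eventually.of_forall fun w => ?_)
    · apply Continuous.aestronglyMeasurable
      have := continuous_phi
      have := cont_zz A
      have h4 : Continuous fun w : (ℝ × ℝ) × ℝ => ((phi w.1.1 * phi w.1.2 : ℝ) : ℂ) :=
        Complex.continuous_ofReal.comp (by fun_prop)
      have h5 : Continuous fun w : (ℝ × ℝ) × ℝ => cexp ((A.zz w.1.1 + conj (A.zz w.1.2)) * ((w.2 - y : ℝ) : ℂ)) := by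
        apply Complex.continuous_exp.comp
        apply Continuous.mul
        · apply Continuous.add
          · fun_prop
          · exact Complex.continuous_conj.comp (by fun_prop)
        · exact Complex.continuous_ofReal.comp (by fun_prop)
      exact h4.mul h5
    · rw [Function.uncurry_apply_pair, norm_mul, Complex.norm_real, Real.norm_eq_abs, Complex.norm_exp, zz_add]
      apply le_of_eq
      congr 2
      simp

lemma part_two {A : Par} (hA : A.Ok) (hc : 0 < c0) (y : ℝ) :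
    A.b / c0 * ∫ w : ℝ × ℝ, (phi w.1 * phi w.2) * Real.exp (-(A.be * y)
      + (A.be ^ 2 - A.b ^ 2 * (w.1 - w.2) ^ 2) * A.vt / 4) ∂(me.prod me)
      ≤ Real.sqrt (2 * Real.pi) / c0 * A.G y := by
  have hs2 : 0 < A.s2 := by linarith [hA.hs]
  have hb := b_pos hA
  have hvt : A.vt = 2 * A.s2 := by unfold Par.s2; ring
  set E := Real.exp (-(A.be * y) + A.be ^ 2 * A.s2 / 2) with hE
  have hE0 : 0 < E := Real.exp_pos _
  set κ := A.b ^ 2 * A.s2 / 2 with hκ
  have hκ0 : 0 < κ := by positivity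
  have e1 : ∀ w : ℝ × ℝ, (phi w.1 * phi w.2) * Real.exp (-(A.be * y)
      + (A.be ^ 2 - A.b ^ 2 * (w.1 - w.2) ^ 2) * A.vt / 4)
      = E * ((phi w.1 * phi w.2) * Real.exp (-κ * (w.1 - w.2) ^ 2)) := by
    intro w
    rw [mul_left_comm E, hE, ← Real.exp_add, hvt, hκ]
    congr 2
    ring
  simp only [e1]
  rw [integral_const_mul]
  have h1 : ∫ w : ℝ × ℝ, (phi w.1 * phi w.2) * Real.exp (-κ * (w.1 - w.2) ^ 2) ∂(me.prod me)
      ≤ ∫ w : ℝ × ℝ, Real.exp (-κ * (w.1 - w.2) ^ 2) ∂(me.prod me) := by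
    apply integral_mono_ae
    · apply D6.integrable_me
      have := continuous_phi
      fun_prop
    · apply D6.integrable_me
      fun_prop
    · filter_upwards [D6.ae_me2] with w hw
      have h2 := abs_phi_le hw.1
      have h3 := abs_phi_le hw.2
      have h4 := phi_nonneg w.1
      have h5 := phi_nonneg w.2
      rw [abs_of_nonneg h4] at h2
      rw [abs_of_nonneg h5] at h3
      have h6 : phi w.1 * phi w.2 ≤ 1 := by nlinarith
      have h7 := (Real.exp_pos (-κ * (w.1 - w.2) ^ 2)).le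
      calc phi w.1 * phi w.2 * Real.exp (-κ * (w.1 - w.2) ^ 2)
          ≤ 1 * Real.exp (-κ * (w.1 - w.2) ^ 2) := mul_le_mul_of_nonneg_right h6 h7
        _ = _ := one_mul _
  have h2 : ∫ w : ℝ × ℝ, Real.exp (-κ * (w.1 - w.2) ^ 2) ∂(me.prod me) ≤ Real.sqrt (Real.pi / κ) := by
    rw [MeasureTheory.integral_prod _ (D6.integrable_me (by fun_prop))]
    have h3 : ∀ a : ℝ, ∫ b, Real.exp (-κ * (a - b) ^ 2) ∂me ≤ Real.sqrt (Real.pi / κ) := by
      intro a
      have i1 : Integrable (fun b : ℝ => Real.exp (-κ * (a - b) ^ 2)) :=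
        (integrable_exp_neg_mul_sq hκ0).comp_sub_left a
      unfold me
      calc ∫ b in Icc (-(1 / 2) : ℝ) (1 / 2), Real.exp (-κ * (a - b) ^ 2)
          ≤ ∫ b, Real.exp (-κ * (a - b) ^ 2) :=
            setIntegral_le_integral i1 (Eventually.of_forall fun b => (Real.exp_pos _).le)
        _ = ∫ b, Real.exp (-κ * b ^ 2) := integral_sub_left_eq_self (fun b => Real.exp (-κ * b ^ 2)) volume a
        _ = _ := integral_gaussian κ
    calc ∫ a, ∫ b, Real.exp (-κ * (a - b) ^ 2) ∂me ∂me ≤ ∫ a, Real.sqrt (Real.pi / κ) ∂me := by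
          apply integral_mono_of_nonneg
          · exact Eventually.of_forall fun a => integral_nonneg fun b => (Real.exp_pos _).le
          · exact integrable_const _
          · exact Eventually.of_forall h3
      _ = _ := by simp
  have h3 : Real.sqrt (Real.pi / κ) = Real.sqrt (2 * Real.pi) / (A.b * Real.sqrt A.s2) := by
    rw [hκ]
    have e2 : Real.pi / (A.b ^ 2 * A.s2 / 2) = 2 * Real.pi / (A.b ^ 2 * A.s2) := by field_simp
    rw [e2, Real.sqrt_div (by positivity), Real.sqrt_mul (x := A.b ^ 2) (by positivity) A.s2, Real.sqrt_sq hb.le]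
  rw [h3] at h2
  have hbc : 0 < A.b / c0 := by positivity
  calc A.b / c0 * (E * ∫ w : ℝ × ℝ, (phi w.1 * phi w.2) * Real.exp (-κ * (w.1 - w.2) ^ 2) ∂(me.prod me))
      ≤ A.b / c0 * (E * (Real.sqrt (2 * Real.pi) / (A.b * Real.sqrt A.s2))) := by
        gcongr
        exact h1.trans h2
    _ = _ := by
        unfold Par.G
        rw [← hE]
        have : Real.sqrt A.s2 ≠ 0 := (Real.sqrt_pos.mpr hs2).ne'
        field_simp

lemma part_three {A : Par} (hA : A.Ok) (y : ℝ) :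
    ∫ x, Env A.be A.b y x ∂(gaussianReal 0 (Real.toNNReal A.s2)) ≤ 2 * A.G y := by
  have hs2 : 0 < A.s2 := by linarith [hA.hs]
  have hb := b_pos hA
  have hv : Real.toNNReal A.s2 ≠ 0 := by
    rw [Ne, Real.toNNReal_eq_zero]
    linarith
  have hG := G_pos hA y
  rw [integral_gaussianReal_eq_integral_smul hv]
  have i1 : Integrable (fun x : ℝ => (1 + x ^ 2)⁻¹) := integrable_inv_one_add_sq
  have i2 : Integrable (fun x : ℝ => (1 + (A.b * (x - y)) ^ 2)⁻¹) :=
    (i1.comp_mul_left' hb.ne').comp_sub_right y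
  have i3 : ∫ x : ℝ, (1 + (A.b * (x - y)) ^ 2)⁻¹ = Real.pi / A.b := by
    rw [integral_sub_right_eq_self (fun x : ℝ => (1 + (A.b * x) ^ 2)⁻¹) y,
      Measure.integral_comp_mul_left (fun x : ℝ => (1 + x ^ 2)⁻¹) A.b, integral_univ_inv_one_add_sq,
      abs_of_pos (inv_pos.mpr hb), smul_eq_mul]
    ring
  set D := (Real.sqrt (2 * Real.pi))⁻¹ * A.G y * A.b with hD
  have hD0 : 0 < D := by positivity
  have hpt : ∀ x : ℝ, gaussianPDFReal 0 (Real.toNNReal A.s2) x • Env A.be A.b y x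
      ≤ D * (1 + (A.b * (x - y)) ^ 2)⁻¹ := by
    intro x
    unfold gaussianPDFReal Env
    rw [smul_eq_mul, Real.coe_toNNReal _ hs2.le, sub_zero]
    have e1 : Real.sqrt (2 * Real.pi * A.s2) = Real.sqrt (2 * Real.pi) * Real.sqrt A.s2 :=
      Real.sqrt_mul (by positivity) _
    rw [e1]
    have e2 : Real.exp (-x ^ 2 / (2 * A.s2)) * Real.exp (A.be * (x - y))
        ≤ Real.exp (-(A.be * y) + A.be ^ 2 * A.s2 / 2) := by
      rw [← Real.exp_add]
      apply Real.exp_le_exp.mpr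
      have h1 : -x ^ 2 / (2 * A.s2) + A.be * (x - y)
          = -(A.be * y) + A.be ^ 2 * A.s2 / 2 - (x - A.be * A.s2) ^ 2 / (2 * A.s2) := by
        field_simp
        ring
      rw [h1]
      have : 0 ≤ (x - A.be * A.s2) ^ 2 / (2 * A.s2) := by positivity
      linarith
    have hsq : 0 < Real.sqrt A.s2 := Real.sqrt_pos.mpr hs2
    calc (Real.sqrt (2 * Real.pi) * Real.sqrt A.s2)⁻¹ * Real.exp (-x ^ 2 / (2 * A.s2))
          * (A.b * (Real.exp (A.be * (x - y)) / (1 + (A.b * (x - y)) ^ 2)))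
        = (Real.sqrt (2 * Real.pi) * Real.sqrt A.s2)⁻¹ * A.b * (1 + (A.b * (x - y)) ^ 2)⁻¹
          * (Real.exp (-x ^ 2 / (2 * A.s2)) * Real.exp (A.be * (x - y))) := by
          field_simp
      _ ≤ (Real.sqrt (2 * Real.pi) * Real.sqrt A.s2)⁻¹ * A.b * (1 + (A.b * (x - y)) ^ 2)⁻¹
          * Real.exp (-(A.be * y) + A.be ^ 2 * A.s2 / 2) := by gcongr
      _ = _ := by
          rw [hD]
          unfold Par.G
          field_simp
  have hmono : ∫ x, gaussianPDFReal 0 (Real.toNNReal A.s2) x • Env A.be A.b y x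
      ≤ ∫ x, D * (1 + (A.b * (x - y)) ^ 2)⁻¹ := by
    apply integral_mono_of_nonneg
    · refine Eventually.of_forall fun x => ?_
      have h1 := gaussianPDFReal_nonneg 0 (Real.toNNReal A.s2) x
      have h2 : 0 ≤ Env A.be A.b y x := by
        unfold Env
        positivity
      exact mul_nonneg h1 h2
    · exact i2.const_mul D
    · exact Eventually.of_forall hpt
  refine hmono.trans ?_
  rw [integral_const_mul, i3, hD]
  have hpi := Real.pi_pos
  have h4 : (Real.sqrt (2 * Real.pi))⁻¹ * Real.pi ≤ 2 := by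
    rw [inv_mul_eq_div, div_le_iff₀ (by positivity)]
    have h5 : Real.sqrt (2 * Real.pi) ^ 2 = 2 * Real.pi := Real.sq_sqrt (by positivity)
    have h6 : 0 ≤ Real.sqrt (2 * Real.pi) := Real.sqrt_nonneg _
    have h7 := Real.pi_lt_d2
    by_contra h8
    push Not at h8
    nlinarith
  calc (Real.sqrt (2 * Real.pi))⁻¹ * A.G y * A.b * (Real.pi / A.b)
      = ((Real.sqrt (2 * Real.pi))⁻¹ * Real.pi) * A.G y := by field_simp
    _ ≤ 2 * A.G y := mul_le_mul_of_nonneg_right h4 hG.le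

end C6K

theorem wGauss (h : PsiBd) : WGauss := by
  obtain ⟨C, hC, -, -, hc, -⟩ := h
  refine ⟨max (Real.sqrt (2 * Real.pi) / c0) 2, le_max_of_le_right (by norm_num), fun A hA y => ?_⟩
  have hG := C6K.G_pos hA y
  refine ⟨C6K.part_one hA y, ?_, ?_⟩
  · exact (C6K.part_two hA hc y).trans (mul_le_mul_of_nonneg_right (le_max_left _ _) hG.le)
  · exact (C6K.part_three hA y).trans (mul_le_mul_of_nonneg_right (le_max_right _ _) hG.le)

end Pool.Agent.Lib.G2
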