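import Pool.Agent.Lib.MP_f9aece_nt_g2.Stmts
import Pool.Agent.Lib.MP_f9aece_nt_gt.C9

/-!
The law of `log |zeta|` under `|zeta| ^ 2`, row C9: truncated exponentials at good points.
-/

set_option autoImplicit false

namespace Pool.Agent.Lib.G2

open MeasureTheory Set Filter Topology Complex
open scoped ComplexConjugate
open Pool.Agent.Lib.GT
open Pool.Agent.Lib.GT.C9 (tex_rel cauchy)

namespace C9

/-- relative error of a product over the groups -/
lemma prod_rel (A : Par) (hv : 4 ≤ A.v) {T : Finset ℕ} (hT : T ⊆ Finset.range A.J) {w : ℕ → ℂ}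
    (hw : ∀ g ∈ T, ‖w g‖ ≤ RR (A.r g)) :
    ‖∏ g ∈ T, (tex (KK (A.r g)) (w g) * cexp (-(w g))) - 1‖ ≤ 4 * Real.exp (-(A.v : ℝ)) := by
  have h1 : ∏ g ∈ T, (tex (KK (A.r g)) (w g) * cexp (-(w g))) =
      ∏ g ∈ T, (1 + (tex (KK (A.r g)) (w g) * cexp (-(w g)) - 1)) :=
    Finset.prod_congr rfl fun g _ => by ring
  rw [h1]
  refine (Finset.norm_prod_one_add_sub_one_le _ _).trans ?_
  have hv' : (4 : ℝ) ≤ A.v := by exact_mod_cast hv
  have he : Real.exp (-(A.v : ℝ)) ≤ 1 / 2 := by
    have h2 : Real.exp (-(A.v : ℝ)) ≤ Real.exp (-1) := Real.exp_le_exp.2 (by linarith)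
    refine h2.trans ?_
    rw [Real.exp_neg, one_div]
    refine inv_anti₀ (by norm_num) ?_
    have := Real.exp_one_gt_d9
    linarith
  have h0 := Real.exp_pos (-(A.v : ℝ))
  have h2 : ∑ g ∈ T, ‖tex (KK (A.r g)) (w g) * cexp (-(w g)) - 1‖ ≤ 2 * Real.exp (-(A.v : ℝ)) := by
    calc ∑ g ∈ T, ‖tex (KK (A.r g)) (w g) * cexp (-(w g)) - 1‖
        ≤ ∑ g ∈ T, Real.exp (-(A.v : ℝ)) * (1 / 2) ^ g := by
          refine Finset.sum_le_sum fun g hg => (tex_rel _ (hw g hg)).trans ?_
          have h3 : Real.exp (-((A.r g : ℕ) : ℝ)) ≤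
              Real.exp (-(A.v : ℝ)) * (Real.exp (-(A.v : ℝ))) ^ g := by
            rw [← Real.exp_nat_mul, ← Real.exp_add]
            refine Real.exp_le_exp.2 ?_
            have : (A.r g : ℕ) = A.v * (g + 1 + A.i) := rfl
            rw [this]
            push_cast
            have h9 : (0 : ℝ) ≤ (A.v : ℝ) * A.i := by positivity
            nlinarith
          exact h3.trans (mul_le_mul_of_nonneg_left (pow_le_pow_left₀ h0.le he g) h0.le)
      _ ≤ ∑ g ∈ Finset.range A.J, Real.exp (-(A.v : ℝ)) * (1 / 2) ^ g :=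
          Finset.sum_le_sum_of_subset_of_nonneg hT fun _ _ _ => by positivity
      _ ≤ 2 * Real.exp (-(A.v : ℝ)) := by
          rw [← Finset.mul_sum, mul_comm]
          exact mul_le_mul_of_nonneg_right (sum_geometric_two_le _) h0.le
  have h3 : Real.exp (∑ g ∈ T, ‖tex (KK (A.r g)) (w g) * cexp (-(w g)) - 1‖) ≤
      Real.exp (2 * Real.exp (-(A.v : ℝ))) := Real.exp_le_exp.2 h2
  have h4 : Real.exp (2 * Real.exp (-(A.v : ℝ))) - 1 ≤ 2 * (2 * Real.exp (-(A.v : ℝ))) := by
    have h5 := Real.exp_bound_div_one_sub_of_interval (x := 2 * Real.exp (-(A.v : ℝ)))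
    set x := 2 * Real.exp (-(A.v : ℝ)) with hx
    have hx0 : 0 ≤ x := by positivity
    have hx1 : x ≤ 1 / 2 := by
      have h6 : Real.exp (-(A.v : ℝ)) ≤ Real.exp (-4) := Real.exp_le_exp.2 (by linarith)
      have h7 : Real.exp (-4) ≤ 1 / 4 := by
        rw [Real.exp_neg, one_div]
        refine inv_anti₀ (by norm_num) ?_
        have := Real.add_one_le_exp (4 : ℝ)
        linarith
      rw [hx]
      linarith
    have h8 : Real.exp x ≤ 1 / (1 - x) := Real.exp_bound_div_one_sub_of_interval hx0 (by linarith)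
    have h9 : 1 / (1 - x) ≤ 1 + 2 * x := by
      rw [div_le_iff₀ (by linarith)]
      nlinarith
    linarith
  linarith

/-- the relative error as a function of the tilt -/
noncomputable def FE (A : Par) (T : Finset ℕ) (X : ℕ → ℝ) (z : ℂ) : ℂ :=
  ∏ g ∈ T, (tex (KK (A.r g)) (z * (X g : ℂ)) * cexp (-(z * (X g : ℂ)))) - 1

lemma FE_diff (A : Par) (T : Finset ℕ) (X : ℕ → ℝ) : Differentiable ℂ (FE A T X) := by
  unfold FE tex
  fun_prop

lemma FE_le (A : Par) (hv : 4 ≤ A.v) {T : Finset ℕ} (hT : T ⊆ Finset.range A.J) {X : ℕ → ℝ}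
    (hX : ∀ g ∈ T, |X g| ≤ RR (A.r g)) {z : ℂ} (hz : ‖z‖ ≤ 1) :
    ‖FE A T X z‖ ≤ 4 * Real.exp (-(A.v : ℝ)) := by
  refine prod_rel A hv hT (w := fun g => z * (X g : ℂ)) fun g hg => ?_
  rw [norm_mul, Complex.norm_real, Real.norm_eq_abs]
  calc ‖z‖ * |X g| ≤ 1 * |X g| := mul_le_mul_of_nonneg_right hz (abs_nonneg _)
    _ ≤ RR (A.r g) := by rw [one_mul]; exact hX g hg

end C9

open C9 in
/-- C9 -/
theorem pointwise (h2 : WinDecay) : Pointwise := by
  obtain ⟨C, hC, hwin⟩ := h2
  refine ⟨C * 32 + 4, by positivity, ?_⟩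
  intro A hA s hs x hx
  have hv := hA.hv
  have h0 := Real.exp_pos (-(A.v : ℝ))
  have hT : Finset.range A.J \ s ⊆ Finset.range A.J := Finset.sdiff_subset
  set T := Finset.range A.J \ s with hTdef
  constructor
  · intro y
    have hsg : |A.sg| = 1 := by
      rcases hA.hsg with h | h <;> rw [h] <;> norm_num
    set X : ℕ → ℝ := fun g => A.sg * (A.P g x).re with hXdef
    have hXs : A.X s x = ∑ g ∈ T, X g := by
      unfold Par.X Par.Xt
      rw [Finset.mul_sum]
    have hX : ∀ g ∈ T, |X g| ≤ RR (A.r g) := fun g hg => by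
      rw [hXdef]
      simp only [abs_mul, hsg, one_mul]
      exact (Complex.abs_re_le_norm _).trans (hx g hg)
    set F := FE A T X with hF
    have hFd : Differentiable ℂ F := FE_diff A T X
    have hF'd : Differentiable ℂ (deriv F) := (hFd.contDiff (n := 2)).differentiable_deriv_two
    have hF''c : Continuous (deriv (deriv F)) := by
      have h3 : Differentiable ℂ (deriv (deriv F)) :=
        ((hF'd.contDiff (n := 2))).differentiable_deriv_two
      exact h3.continuous
    have b0 : ∀ z : ℂ, ‖z‖ ≤ 1 → ‖F z‖ ≤ 4 * Real.exp (-(A.v : ℝ)) := fun z hz =>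
      FE_le A hv hT hX hz
    have b1 : ∀ z : ℂ, ‖z‖ ≤ 1 / 2 → ‖deriv F z‖ ≤ 8 * Real.exp (-(A.v : ℝ)) := by
      intro z hz
      have := cauchy hFd (δ := 1 / 2) (by norm_num) b0 (z := z) (by linarith)
      linarith
    have b2 : ∀ z : ℂ, ‖z‖ ≤ 1 / 4 → ‖deriv (deriv F) z‖ ≤ 32 * Real.exp (-(A.v : ℝ)) := by
      intro z hz
      have := cauchy hF'd (δ := 1 / 4) (by norm_num) b1 (z := z) (by linarith)
      linarith
    have hbe := hA.hbe
    have hbb := hA.hbb
    have hb := hA.hb
    have hb0 : 0 < A.b := lt_of_lt_of_le hbe hbb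
    have hzz : ∀ η : ℝ, |η| ≤ 1 / 2 → ‖A.zz η‖ ≤ A.b := by
      intro η hη
      unfold Par.zz
      refine (norm_add_le _ _).trans ?_
      have e1 : ‖(A.be : ℂ) / 2‖ = A.be / 2 := by
        rw [norm_div, Complex.norm_real, Real.norm_of_nonneg hbe.le]
        norm_num
      have e2 : ‖I * ((A.b : ℂ) * (η : ℂ))‖ = A.b * |η| := by
        rw [norm_mul, Complex.norm_I, one_mul, norm_mul, Complex.norm_real, Complex.norm_real,
          Real.norm_of_nonneg hb0.le, Real.norm_eq_abs]
      rw [e1, e2]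
      nlinarith
    have hzd : ∀ η : ℝ, HasDerivAt A.zz (I * A.b) η := by
      intro η
      unfold Par.zz
      have h3 : HasDerivAt (fun η : ℝ => (η : ℂ)) 1 η := Complex.ofRealCLM.hasDerivAt
      have h4 := ((h3.const_mul (A.b : ℂ)).const_mul I).const_add ((A.be : ℂ) / 2)
      rw [mul_one] at h4
      exact h4
    have hzc : Continuous A.zz := by
      unfold Par.zz
      fun_prop
    have hszc : Continuous A.sz := by
      unfold Par.sz
      fun_prop
    have hw := hwin (fun η => F (A.zz η)) (fun η => deriv F (A.zz η) * (I * A.b))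
      (fun η => deriv (deriv F) (A.zz η) * (I * A.b) * (I * A.b)) (32 * Real.exp (-(A.v : ℝ)))
      (by positivity)
      (fun η => (hFd _).hasDerivAt.comp η (hzd η))
      (fun η => ((hF'd _).hasDerivAt.comp η (hzd η)).mul_const _)
      (((hF''c.comp hzc).mul continuous_const).mul continuous_const)
      (by
        intro η hη
        have h3 := hzz η hη
        have h4 : ‖I * (A.b : ℂ)‖ = A.b := by
          rw [norm_mul, Complex.norm_I, one_mul, Complex.norm_real, Real.norm_of_nonneg hb0.le]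
        refine ⟨?_, ?_, ?_⟩
        · have := b0 (A.zz η) (by linarith)
          linarith
        · rw [norm_mul, h4]
          have := b1 (A.zz η) (by linarith)
          have h5 := norm_nonneg (deriv F (A.zz η))
          nlinarith
        · rw [norm_mul, norm_mul, h4]
          have := b2 (A.zz η) (by linarith)
          have h5 := norm_nonneg (deriv (deriv F) (A.zz η))
          have h6 : A.b * A.b ≤ 1 := by nlinarith
          rw [mul_assoc]
          nlinarith)
      (A.b * (A.X s x - y))
    have hφc : Continuous phi := by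
      unfold phi
      fun_prop
    have hint : ∀ f : ℝ → ℂ, Continuous f → Integrable f me := by
      intro f hf
      unfold me
      exact hf.integrableOn_Icc
    have key : A.q s y x * Real.exp (-(A.be * (A.X s x - y) / 2)) - psi (A.b * (A.X s x - y)) =
        ∫ η, (phi η : ℂ) * (F (A.zz η) * cexp (I * η * (A.b * (A.X s x - y) : ℝ))) ∂me := by
      unfold Par.q psi
      rw [← integral_mul_const, ← integral_sub]
      · refine integral_congr_ae (Eventually.of_forall fun η => ?_)
        have e1 : ∏ g ∈ T, tex (KK (A.r g)) (A.sz η * ((A.P g x).re : ℂ)) =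
            (1 + F (A.zz η)) * cexp (A.zz η * (A.X s x : ℝ)) := by
          have e0 : ∏ g ∈ T, tex (KK (A.r g)) (A.sz η * ((A.P g x).re : ℂ)) =
              ∏ g ∈ T, tex (KK (A.r g)) (A.zz η * (X g : ℂ)) := by
            refine Finset.prod_congr rfl fun g _ => ?_
            congr 1
            rw [hXdef]
            unfold Par.sz
            push_cast
            ring
          rw [e0]
          have e2 : 1 + F (A.zz η) = ∏ g ∈ T, (tex (KK (A.r g)) (A.zz η * (X g : ℂ)) *
              cexp (-(A.zz η * (X g : ℂ)))) := by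
            rw [hF]
            unfold FE
            ring
          rw [e2, hXs, Complex.ofReal_sum, Finset.mul_sum, Complex.exp_sum, ← Finset.prod_mul_distrib]
          refine Finset.prod_congr rfl fun g _ => ?_
          rw [mul_assoc, ← Complex.exp_add, neg_add_cancel, Complex.exp_zero, mul_one]
        have e3 : cexp (-(A.zz η * y)) * cexp (A.zz η * (A.X s x : ℝ)) *
            (Real.exp (-(A.be * (A.X s x - y) / 2)) : ℝ) =
            cexp (I * η * (A.b * (A.X s x - y) : ℝ)) := by
          rw [Complex.ofReal_exp, ← Complex.exp_add, ← Complex.exp_add]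
          congr 1
          unfold Par.zz
          push_cast
          ring
        show (phi η : ℂ) * (cexp (-(A.zz η * y)) * ∏ g ∈ T, tex (KK (A.r g))
          (A.sz η * ((A.P g x).re : ℂ))) * (Real.exp (-(A.be * (A.X s x - y) / 2)) : ℝ) -
          (phi η : ℂ) * cexp (I * η * (A.b * (A.X s x - y) : ℝ)) =
          (phi η : ℂ) * (F (A.zz η) * cexp (I * η * (A.b * (A.X s x - y) : ℝ)))
        rw [e1, ← e3]
        ring
      · refine (hint _ ?_).mul_const _
        unfold tex
        fun_prop
      · refine hint _ ?_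
        fun_prop
    rw [key]
    refine hw.trans ?_
    rw [div_le_div_iff_of_pos_right (by positivity)]
    nlinarith
  · intro m hm
    have hm1 : ‖(m : ℂ)‖ = 1 := by
      rcases hm with h | h <;> rw [h] <;> norm_num
    have h3 : A.mo m s x * cexp (-(m * ∑ g ∈ T, A.P g x)) - 1 =
        ∏ g ∈ T, (tex (KK (A.r g)) (m * A.P g x) * cexp (-(m * A.P g x))) - 1 := by
      unfold Par.mo
      rw [Finset.mul_sum, ← Finset.sum_neg_distrib, Complex.exp_sum, ← Finset.prod_mul_distrib]
    rw [h3]
    refine (prod_rel A hv hT (w := fun g => m * A.P g x) fun g hg => ?_).trans ?_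
    · rw [norm_mul, hm1, one_mul]
      exact hx g hg
    · nlinarith

end Pool.Agent.Lib.G2
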