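import Mathlib
import Pool.Agent.Lib.MP_f9aece_nt_g2.Stmts
import Pool.Agent.Lib.MP_f9aece_nt_gt.Cont

/-!
The law of `log |zeta|` under the measure `|zeta| ^ 2`: continuity of the functions on the torus,
elementary facts (the generic lemmas are those of `GT.Cont`).
-/

set_option autoImplicit false

namespace Pool.Agent.Lib.G2

open MeasureTheory Set Filter Topology Complex ProbabilityTheory
open scoped ComplexConjugate
open Pool.Agent.Lib.MP_f9aece_nt (VV)
open Pool.Agent.Lib.J4 (V2)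
open Pool.Agent.Lib.GT

namespace Par

variable (A : Par)

@[fun_prop]
lemma continuous_P (g : ℕ) : Continuous (A.P g) := continuous_lin _ _

@[fun_prop]
lemma continuous_Xt (s : Finset ℕ) : Continuous (A.Xt s) := by
  unfold Xt
  exact continuous_finsetSum _ fun g _ => Complex.continuous_re.comp (A.continuous_P g)

@[fun_prop]
lemma continuous_X (s : Finset ℕ) : Continuous (A.X s) := by
  unfold X
  exact continuous_const.mul (A.continuous_Xt s)

@[fun_prop]
lemma continuous_bb (g : ℕ) : Continuous (A.bb g) := continuous_bp _ _ _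

@[fun_prop]
lemma continuous_mo (μ : ℂ) (s : Finset ℕ) : Continuous (A.mo μ s) := by
  unfold mo
  exact continuous_finsetProd _ fun g _ => (continuous_tex _).comp
    (continuous_const.mul (A.continuous_P g))

@[fun_prop]
lemma continuous_zz : Continuous A.zz := by
  unfold zz
  fun_prop

lemma norm_zz_le (hA : A.Ok) {η : ℝ} (h : |η| ≤ 1 / 2) : ‖A.zz η‖ ≤ 1 / 20 := by
  have h1 := hA.hbe
  have h2 := hA.hbb
  have h3 := hA.hb
  have hb0 : 0 < A.b := h1.trans_le h2
  unfold zz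
  refine (norm_add_le _ _).trans ?_
  have e1' : ‖(A.be / 2 : ℂ)‖ = A.be / 2 := by
    rw [norm_div, Complex.norm_real, Real.norm_of_nonneg h1.le, Complex.norm_ofNat]
  have e2' : ‖I * (A.b * η : ℂ)‖ = A.b * |η| := by
    rw [norm_mul, Complex.norm_I, one_mul, norm_mul, Complex.norm_real, Complex.norm_real,
      Real.norm_of_nonneg hb0.le, Real.norm_eq_abs]
  rw [e1', e2']
  nlinarith [abs_nonneg η]

@[fun_prop]
lemma continuous_sz : Continuous A.sz := by
  unfold sz
  exact continuous_const.mul A.continuous_zz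

lemma Ok.abs_sg {A : Par} (hA : A.Ok) : |A.sg| = 1 := by
  rcases hA.hsg with h | h <;> rw [h] <;> norm_num

lemma Ok.sg_sq {A : Par} (hA : A.Ok) : A.sg ^ 2 = 1 := by
  rcases hA.hsg with h | h <;> rw [h] <;> norm_num

lemma norm_sz_eq (hA : A.Ok) (η : ℝ) : ‖A.sz η‖ = ‖A.zz η‖ := by
  unfold sz
  rw [norm_mul, Complex.norm_real, Real.norm_eq_abs, hA.abs_sg, one_mul]

lemma norm_sz_le (hA : A.Ok) {η : ℝ} (h : |η| ≤ 1 / 2) : ‖A.sz η‖ ≤ 1 / 20 := by
  rw [A.norm_sz_eq hA]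
  exact A.norm_zz_le hA h

/-- the integrand of `q` -/
noncomputable def qi (s : Finset ℕ) (y : ℝ) (x : Om) (η : ℝ) : ℂ :=
  (phi η : ℂ) * (cexp (-(A.zz η * y)) *
    ∏ g ∈ Finset.range A.J \ s, tex (KK (A.r g)) (A.sz η * ((A.P g x).re : ℂ)))

lemma q_eq (s : Finset ℕ) (y : ℝ) (x : Om) : A.q s y x = ∫ η, A.qi s y x η ∂me := rfl

lemma continuous_qi (s : Finset ℕ) : Continuous fun w : ℝ × Om × ℝ => A.qi s w.1 w.2.1 w.2.2 := by
  unfold qi
  refine Continuous.mul ?_ (Continuous.mul ?_ ?_)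
  · exact Complex.continuous_ofReal.comp (continuous_phi.comp (continuous_snd.comp continuous_snd))
  · refine Complex.continuous_exp.comp (Continuous.neg (Continuous.mul ?_ ?_))
    · exact A.continuous_zz.comp (continuous_snd.comp continuous_snd)
    · exact Complex.continuous_ofReal.comp continuous_fst
  · refine continuous_finsetProd _ fun g _ => (continuous_tex _).comp (Continuous.mul ?_ ?_)
    · exact A.continuous_sz.comp (continuous_snd.comp continuous_snd)
    · exact Complex.continuous_ofReal.comp (Complex.continuous_re.comp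
        ((A.continuous_P g).comp (continuous_fst.comp continuous_snd)))

/-- uniform bound of the integrand of `q` -/
lemma norm_qi_le (hA : A.Ok) (s : Finset ℕ) {y Y : ℝ} (hy : |y| ≤ Y) (x : Om) {η : ℝ}
    (hη : |η| ≤ 1 / 2) : ‖A.qi s y x η‖ ≤ Real.exp Y
        * ∏ g ∈ Finset.range A.J \ s, Real.exp (∑ p ∈ A.S g, ‖(A.h p : ℂ)‖) := by
  have hz := A.norm_zz_le hA hη
  have hz' := A.norm_sz_le hA hη
  unfold qi
  rw [norm_mul, norm_mul, norm_prod, Complex.norm_real, Real.norm_eq_abs]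
  have h6 := abs_phi_le hη
  have h7 : ‖cexp (-(A.zz η * y))‖ ≤ Real.exp Y := by
    rw [Complex.norm_exp]
    refine Real.exp_le_exp.mpr ((Complex.re_le_norm _).trans ?_)
    rw [norm_neg, norm_mul, Complex.norm_real, Real.norm_eq_abs]
    nlinarith [abs_nonneg y]
  have h8 : ∏ g ∈ Finset.range A.J \ s, ‖tex (KK (A.r g)) (A.sz η * ((A.P g x).re : ℂ))‖
      ≤ ∏ g ∈ Finset.range A.J \ s, Real.exp (∑ p ∈ A.S g, ‖(A.h p : ℂ)‖) := by
    refine Finset.prod_le_prod (fun g _ => norm_nonneg _) fun g _ => ?_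
    refine (norm_tex_le _ _).trans (Real.exp_le_exp.mpr ?_)
    rw [norm_mul, Complex.norm_real, Real.norm_eq_abs]
    have h9 := Complex.abs_re_le_norm (A.P g x)
    have h10 := norm_lin_le (A.S g) (fun p => (A.h p : ℂ)) x
    have h11 : |(A.P g x).re| ≤ ∑ p ∈ A.S g, ‖(A.h p : ℂ)‖ := h9.trans h10
    nlinarith [abs_nonneg (A.P g x).re, norm_nonneg (A.sz η)]
  calc |phi η| * (‖cexp (-(A.zz η * y))‖
        * ∏ g ∈ Finset.range A.J \ s, ‖tex (KK (A.r g)) (A.sz η * ((A.P g x).re : ℂ))‖)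
      ≤ 1 * (Real.exp Y * ∏ g ∈ Finset.range A.J \ s,
          Real.exp (∑ p ∈ A.S g, ‖(A.h p : ℂ)‖)) := by gcongr
    _ = _ := one_mul _

/-- `q` is continuous in the level and in the point -/
lemma continuous_q (hA : A.Ok) (s : Finset ℕ) : Continuous fun w : ℝ × Om => A.q s w.1 w.2 := by
  have hqi := A.continuous_qi s
  rw [continuous_iff_continuousAt]
  rintro ⟨y0, x0⟩
  refine continuousAt_of_dominated (F := fun (w : ℝ × Om) (η : ℝ) => A.qi s w.1 w.2 η) (μ := me)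
    (bound := fun _ => Real.exp (|y0| + 1)
        * ∏ g ∈ Finset.range A.J \ s, Real.exp (∑ p ∈ A.S g, ‖(A.h p : ℂ)‖)) ?_ ?_
    (integrable_const _) ?_
  · refine Eventually.of_forall fun w => Continuous.aestronglyMeasurable ?_
    exact hqi.comp (f := fun η : ℝ => ((w.1, w.2, η) : ℝ × Om × ℝ)) (by fun_prop)
  · have h1 : ∀ᶠ w : ℝ × Om in 𝓝 (y0, x0), |w.1| < |y0| + 1 := by
      have hc : Continuous fun w : ℝ × Om => |w.1| := continuous_fst.abs
      exact (hc.tendsto (y0, x0)).eventually (gt_mem_nhds (by simp))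
    filter_upwards [h1] with w hw
    exact ae_me fun η hη => A.norm_qi_le hA s hw.le w.2 hη
  · refine Eventually.of_forall fun η => Continuous.continuousAt ?_
    exact hqi.comp (f := fun w : ℝ × Om => ((w.1, w.2, η) : ℝ × Om × ℝ)) (by fun_prop)

/-- `Wg` is continuous in the level and in the point -/
lemma continuous_Wg (hA : A.Ok) (s s' : Finset ℕ) :
    Continuous fun w : ℝ × Om => A.Wg s s' w.1 w.2 := by
  unfold Wg
  refine (continuous_const.mul (continuous_finsetProd _ fun g _ => ?_)).mul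
    ((A.continuous_q hA s).norm.pow 2)
  exact (A.continuous_bb g).comp continuous_snd

lemma continuous_Wg' (hA : A.Ok) (s s' : Finset ℕ) (y : ℝ) :
    Continuous fun x : Om => A.Wg s s' y x :=
  (A.continuous_Wg hA s s').comp (f := fun x : Om => ((y, x) : ℝ × Om)) (by fun_prop)

/-- `W` is continuous in the level and in the point -/
lemma continuous_W (hA : A.Ok) (s : Finset ℕ) : Continuous fun w : ℝ × Om => A.W s w.1 w.2 :=
  A.continuous_Wg hA s s

lemma continuous_W' (hA : A.Ok) (s : Finset ℕ) (y : ℝ) : Continuous fun x : Om => A.W s y x :=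
  (A.continuous_W hA s).comp (f := fun x : Om => ((y, x) : ℝ × Om)) (by fun_prop)

lemma continuous_q' (hA : A.Ok) (s : Finset ℕ) (y : ℝ) : Continuous fun x : Om => A.q s y x :=
  (A.continuous_q hA s).comp (f := fun x : Om => ((y, x) : ℝ × Om)) (by fun_prop)

lemma c0_nonneg : 0 ≤ c0 := integral_nonneg fun _ => by positivity

lemma bp_nonneg (r : ℕ) (S : Finset ℕ) (c : ℕ → ℂ) (x : Om) : 0 ≤ bp r S c x := by
  unfold bp RR
  positivity

lemma bb_nonneg (g : ℕ) (x : Om) : 0 ≤ A.bb g x := bp_nonneg _ _ _ _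

lemma Wg_nonneg (hb : 0 ≤ A.b) (s s' : Finset ℕ) (y : ℝ) (x : Om) : 0 ≤ A.Wg s s' y x := by
  unfold Wg
  have := c0_nonneg
  exact mul_nonneg (mul_nonneg (by positivity) (Finset.prod_nonneg fun g _ => A.bb_nonneg g x))
    (by positivity)

lemma W_nonneg (hb : 0 ≤ A.b) (s : Finset ℕ) (y : ℝ) (x : Om) : 0 ≤ A.W s y x :=
  A.Wg_nonneg hb s s y x

lemma Ok.b_pos {A : Par} (hA : A.Ok) : 0 < A.b := hA.hbe.trans_le hA.hbb

lemma Ok.G_pos {A : Par} (hA : A.Ok) (y : ℝ) : 0 < A.G y := by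
  unfold G
  have h : 0 < Real.sqrt A.s2 := Real.sqrt_pos.mpr (lt_of_lt_of_le one_pos hA.hs)
  positivity

lemma G_shift (y V : ℝ) : A.G y = A.G V * Real.exp (-(A.be * (y - V))) := by
  unfold G
  rw [mul_assoc, ← Real.exp_add]
  congr 2
  ring

/-- upper bound for `Wg`, uniform on the torus -/
lemma Wg_le (hA : A.Ok) (s s' : Finset ℕ) (y : ℝ) : ∃ B : ℝ, ∀ x, A.Wg s s' y x ≤ B := by
  -- every coordinate enters through `e1`, so all factors are bounded
  have hb := hA.b_pos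
  have h1 : ∀ g, ∃ B : ℝ, ∀ x, A.bb g x ≤ B := by
    intro g
    refine ⟨((∑ p ∈ A.S g, ‖(A.h p : ℂ)‖) / RR (A.r g)) ^ (2 * MM (A.r g)), fun x => ?_⟩
    unfold bb bp
    have h2 := norm_lin_le (A.S g) (fun p => (A.h p : ℂ)) x
    have h3 : 0 ≤ RR (A.r g) := by unfold RR; positivity
    gcongr
  choose B hB using h1
  have h4 : ∃ B' : ℝ, ∀ x, ‖A.q s y x‖ ≤ B' := by
    refine ⟨Real.exp |y| * ∏ g ∈ Finset.range A.J \ s, Real.exp (∑ p ∈ A.S g, ‖(A.h p : ℂ)‖),
      fun x => ?_⟩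
    rw [A.q_eq]
    have h12 := norm_integral_le_of_norm_le_const (μ := me)
      (ae_me fun η hη => A.norm_qi_le hA s (le_refl |y|) x hη)
    simpa using h12
  obtain ⟨B', hB'⟩ := h4
  refine ⟨A.b / c0 * (∏ g ∈ s', B g) * B' ^ 2, fun x => ?_⟩
  unfold Wg
  have hc := c0_nonneg
  have h5 : ∏ g ∈ s', A.bb g x ≤ ∏ g ∈ s', B g :=
    Finset.prod_le_prod (fun g _ => A.bb_nonneg g x) fun g _ => hB g x
  have h6 : 0 ≤ ∏ g ∈ s', A.bb g x := Finset.prod_nonneg fun g _ => A.bb_nonneg g x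
  have h7 := hB' x
  have h8 : 0 ≤ ∏ g ∈ s', B g := h6.trans h5
  gcongr

/-- upper bound for `W`, uniform on the torus -/
lemma W_le (hA : A.Ok) (s : Finset ℕ) (y : ℝ) : ∃ B : ℝ, ∀ x, A.W s y x ≤ B := A.Wg_le hA s s y

/-! ### dependence on the primes of the groups -/

lemma S_subset_U {g : ℕ} (hg : g ∈ Finset.range A.J) : A.S g ⊆ A.U := by
  unfold U
  exact Finset.subset_biUnion_of_mem A.S hg

lemma dep_P {g : ℕ} (hg : g ∈ Finset.range A.J) : Dep (A.U : Set ℕ) (A.P g) := by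
  refine Dep.mono (dep_lin (S := A.S g) (c := fun p => (A.h p : ℂ))) ?_
  exact_mod_cast A.S_subset_U hg

lemma dep_bb {g : ℕ} (hg : g ∈ Finset.range A.J) : Dep (A.U : Set ℕ) (A.bb g) := by
  refine Dep.mono (S := (A.S g : Set ℕ)) ?_ (by exact_mod_cast A.S_subset_U hg)
  intro x y hxy
  unfold bb bp
  rw [dep_lin (S := A.S g) (c := fun p => (A.h p : ℂ)) x y hxy]

lemma dep_mo (μ : ℂ) (s : Finset ℕ) : Dep (A.U : Set ℕ) (A.mo μ s) := by
  unfold mo
  refine dep_prod fun g hg => ?_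
  exact (A.dep_P (Finset.mem_sdiff.mp hg).1).comp fun z => tex (KK (A.r g)) (μ * z)

lemma dep_q (s : Finset ℕ) (y : ℝ) : Dep (A.U : Set ℕ) (A.q s y) := by
  intro x x' hx
  unfold q
  refine congrArg _ (funext fun η => ?_)
  refine congrArg _ (congrArg _ (Finset.prod_congr rfl fun g hg => ?_))
  rw [A.dep_P (Finset.mem_sdiff.mp hg).1 x x' hx]

lemma dep_Wg (s : Finset ℕ) {s' : Finset ℕ} (hs : s' ⊆ Finset.range A.J) (y : ℝ) :
    Dep (A.U : Set ℕ) (A.Wg s s' y) := by
  intro x x' hx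
  unfold Wg
  rw [A.dep_q s y x x' hx, Finset.prod_congr rfl fun g hg => A.dep_bb (hs hg) x x' hx]

lemma dep_W {s : Finset ℕ} (hs : s ⊆ Finset.range A.J) (y : ℝ) : Dep (A.U : Set ℕ) (A.W s y) :=
  A.dep_Wg s hs y

lemma measurable_Wg (hA : A.Ok) (s s' : Finset ℕ) (y : ℝ) : Measurable (A.Wg s s' y) :=
  (A.continuous_Wg' hA s s' y).measurable

lemma measurable_W (hA : A.Ok) (s : Finset ℕ) (y : ℝ) : Measurable (A.W s y) :=
  (A.continuous_W' hA s y).measurable

/-- a continuous bounded function is integrable on the torus -/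
lemma _root_.Pool.Agent.Lib.G2.integrable_of_le {E : Type} [NormedAddCommGroup E] {f : Om → E} {B : ℝ}
    (hf : AEStronglyMeasurable f mu) (h : ∀ x, ‖f x‖ ≤ B) : Integrable f mu :=
  (integrable_const B).mono' hf (Eventually.of_forall h)

lemma integrable_Wg (hA : A.Ok) (s s' : Finset ℕ) (y : ℝ) : Integrable (A.Wg s s' y) mu := by
  obtain ⟨B, hB⟩ := A.Wg_le hA s s' y
  refine integrable_of_le (B := B) (A.measurable_Wg hA s s' y).aestronglyMeasurable fun x => ?_
  rw [Real.norm_of_nonneg (A.Wg_nonneg hA.b_pos.le s s' y x)]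
  exact hB x

lemma integrable_W (hA : A.Ok) (s : Finset ℕ) (y : ℝ) : Integrable (A.W s y) mu :=
  A.integrable_Wg hA s s y

/-- the mollifier is bounded on the torus -/
lemma mo_le (μ : ℂ) (s : Finset ℕ) : ∃ B : ℝ, ∀ x, ‖A.mo μ s x‖ ≤ B := by
  refine ⟨∏ g ∈ Finset.range A.J \ s, Real.exp (‖μ‖ * ∑ p ∈ A.S g, ‖(A.h p : ℂ)‖), fun x => ?_⟩
  unfold mo
  rw [norm_prod]
  refine Finset.prod_le_prod (fun g _ => norm_nonneg _) fun g _ => ?_
  refine (norm_tex_le _ _).trans (Real.exp_le_exp.mpr ?_)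
  rw [norm_mul]
  exact mul_le_mul_of_nonneg_left (norm_lin_le (A.S g) (fun p => (A.h p : ℂ)) x) (norm_nonneg μ)

lemma Ok.Gs_pos {A : Par} (hA : A.Ok) (y : ℝ) : 0 < A.Gs y := hA.G_pos _

lemma Gs_shift (y V : ℝ) : A.Gs y = A.Gs V * Real.exp (-(A.be * (y - V))) := by
  unfold Gs
  rw [A.G_shift (y - A.sg * A.vt) (V - A.sg * A.vt)]
  congr 3
  ring

lemma vt_nonneg : 0 ≤ A.vt := Finset.sum_nonneg fun _ _ => sq_nonneg _

end Par

end Pool.Agent.Lib.G2
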