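import Mathlib
import Pool.Agent.Lib.MP_f9aece_nt_g2.Stmts

/-!
The law of `log |zeta|` under the measure `|zeta| ^ 2`: statements of the modules, second part
(means over `t`, zeta, assembly).
-/

set_option autoImplicit false

namespace Pool.Agent.Lib.G2

open MeasureTheory Set Filter Topology Complex ProbabilityTheory
open scoped ComplexConjugate
open Pool.Agent.Lib.MP_f9aece_nt (VV)
open Pool.Agent.Lib.J4 (V2)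
open Pool.Agent.Lib.GT
open Pool.Agent.H20.Chi (chi)

/-! ### lengths -/

/-- the polynomials are short compared with `T ^ e` -/
structure Len (A : Par) (T e : ℝ) : Prop where
  he : 0 < e
  he1 : e ≤ 1 / 100
  hT : 3 ≤ T
  hK : 10 ^ 10 * A.KY ≤ e * Real.log T
  hp : Real.log T ^ 1000 ≤ Real.exp (e * Real.log T)

/-- the transition length -/
noncomputable def wd (T e : ℝ) : ℝ := e * Real.log T / 20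

/-- the base length -/
noncomputable def cd (T e : ℝ) : ℝ := (1 / 2 - e) * Real.log T

/-- the heights used -/
def Rg (x T e : ℝ) : Set ℝ := Icc (T ^ (1 - e / 4 : ℝ)) (x + T)

/-! ### M: means -/

/-- M1: upper bound for means over `t` -/
def GaMean : Prop := ∃ T0 : ℝ, 3 ≤ T0 ∧ ∀ A : Par, A.Ok → ∀ T e : ℝ, T0 ≤ T → Len A T e →
  ∀ x y : ℝ, ∀ s s' : Finset ℕ, s ⊆ s' → s' ⊆ Finset.range A.J → ∀ μ : ℂ, ‖μ‖ ≤ 1 →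
  ∀ (N c : ℝ) (H : Om → ℝ),
  1 ≤ N → N ≤ Real.exp ((1 - e / 2) * Real.log T) → c ≤ Real.exp (4 * Real.log T) → (∀ w, 0 ≤ H w) →
  TP N c (fun w => (H w : ℂ)) →
  ∫⁻ t, ENNReal.ofReal (A.Wg s s' y (om t) * (‖A.mo μ s (om t)‖ ^ 2 * H (om t))) ∂(un x T)
    ≤ ENNReal.ofReal (3 * (∫ w, A.Wg s s' y w * (‖A.mo μ s w‖ ^ 2 * H w) ∂mu)
      + Real.exp (-∑ g ∈ s', (A.r g : ℝ)) * A.Gs y / Real.log T ^ 10)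

/-- M2: means over `t` of short polynomials -/
def UnMean : Prop := ∃ T0 : ℝ, 3 ≤ T0 ∧ ∀ A : Par, A.Ok → ∀ T e : ℝ, T0 ≤ T → Len A T e →
  ∀ x y : ℝ, ∀ (N c : ℝ) (H : Om → ℂ), 1 ≤ N → c * N ≤ Real.exp ((1 - e) * Real.log T) → TP N c H →
  ‖∫ t, (A.W ∅ y (om t) : ℂ) * H (om t) ∂(un x T) - ∫ w, (A.W ∅ y w : ℂ) * H w ∂mu‖
    ≤ A.Gs y / Real.log T ^ 10

/-- M3: the cross terms are negligible -/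
def Cross : Prop := ∃ T0 : ℝ, 3 ≤ T0 ∧ ∀ A : Par, A.Ok → ∀ T e : ℝ, T0 ≤ T → Len A T e →
  ∀ x y c : ℝ, |x| ≤ T → 1 ≤ c → c ≤ cd T e + wd T e →
  ‖∫ t in Rg x T e, conj (chi t) * (Sm (wd T e) c (om t)) ^ 2 * (A.W ∅ y (om t) : ℂ) ∂(un x T)‖
    ≤ A.Gs y / Real.log T ^ 10

/-- M4: small heights are negligible -/
def SmallT : Prop := ∃ T0 : ℝ, 3 ≤ T0 ∧ ∀ A : Par, A.Ok → ∀ T e : ℝ, T0 ≤ T → Len A T e →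
  ∀ x y : ℝ, |x| ≤ T ^ (9 / 10 : ℝ) → ∀ s s' : Finset ℕ, s ⊆ s' → s' ⊆ Finset.range A.J →
  ∫⁻ t in (Rg x T e)ᶜ, ENNReal.ofReal (A.Wg s s' y (om t) * ‖ze t‖ ^ 2) ∂(un x T)
    ≤ ENNReal.ofReal (Real.exp (-∑ g ∈ s', (A.r g : ℝ)) * A.Gs y / Real.log T ^ 10) ∧
  ∀ c : ℝ, c ≤ cd T e + wd T e →
  ∫⁻ t in (Rg x T e)ᶜ, ENNReal.ofReal (A.W ∅ y (om t) * ‖Sm (wd T e) c (om t)‖ ^ 2) ∂(un x T)
    ≤ ENNReal.ofReal (A.Gs y / Real.log T ^ 10)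

/-! ### Z: zeta -/

/-- Z1: the approximate functional equation with a smooth cut-off of width `w` -/
def AfeW : Prop := ∃ C : ℝ, 0 ≤ C ∧ ∀ Λ : ℝ, 200 ≤ Λ → ∀ t : ℝ, Real.exp (9 / 10 * Λ) ≤ t →
  t ≤ 3 * Real.exp Λ → ∀ w c : ℝ, 1 ≤ w → w ≤ Λ / 20 → 3 / 10 * Λ ≤ c → c ≤ 13 / 20 * Λ →
  3 / 10 * Λ ≤ Real.log (t / (2 * Real.pi)) - c + w →
  Real.log (t / (2 * Real.pi)) - c + w ≤ 13 / 20 * Λ →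
  ‖ze t - (Sm w c (om t)
      + chi t * conj (Sm w (Real.log (t / (2 * Real.pi)) - c + w) (om t)))‖
    ≤ C * Real.exp (-(1 / 4 * Λ))

/-- Z1b: upper bound for zeta through sums of length about `T ^ (1/2)` -/
def AfeSq : Prop := ∃ C T0 : ℝ, 0 ≤ C ∧ 3 ≤ T0 ∧ ∀ T e : ℝ, T0 ≤ T → 0 < e → e ≤ 1 / 100 →
  20 ≤ e * Real.log T → ∀ x t : ℝ, |x| ≤ T → t ∈ Rg x T e →
  ‖ze t‖ ^ 2 ≤ C / wd T e * (∫ a in ((1 / 2 - e) * Real.log T)..((1 / 2 + e / 5) * Real.log T),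
      ‖Sm (wd T e) a (om t)‖ ^ 2) + C * Real.exp (-(1 / 4 * Real.log T))

/-- Z2: zeta is close to the sum of length `T ^ (1/2 - e)` and its dual -/
def NearE : Prop := ∀ p0 : ℕ, 1000 ≤ p0 → ∃ C T0 : ℝ, 1 ≤ C ∧ 3 ≤ T0 ∧ ∀ A : Par, A.Ok → A.p0 = p0 →
  ∀ T e : ℝ, T0 ≤ T → Len A T e → ∀ x y : ℝ, |x| ≤ T ^ (9 / 10 : ℝ) →
  ∫⁻ c in Icc (cd T e) (cd T e + wd T e), ∫⁻ t in Rg x T e, ENNReal.ofReal (A.W ∅ y (om t)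
      * ‖ze t - (Sm (wd T e) c (om t) + chi t * conj (Sm (wd T e) c (om t)))‖ ^ 2) ∂(un x T)
    ≤ ENNReal.ofReal (wd T e * (C * (e * Real.log T) * A.Gs y))

/-- the measure `|zeta| ^ 2 / log T` -/
noncomputable def nu (x T : ℝ) : Measure ℝ :=
  (un x T).withDensity fun t => ENNReal.ofReal (‖ze t‖ ^ 2 / Real.log T)

/-- Z3: the mean of the windows under the measure `|zeta| ^ 2 / log T` -/
def NuMain : Prop := ∃ C : ℝ, 1 ≤ C ∧ ∀ p0 : ℕ, 1000 ≤ p0 → ∃ C' T0 : ℝ, 1 ≤ C' ∧ 3 ≤ T0 ∧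
  ∀ A : Par, A.Ok → A.p0 = p0 → ∀ T e : ℝ, T0 ≤ T → Len A T e → ∀ x y : ℝ, |x| ≤ T ^ (9 / 10 : ℝ) →
  |∫ t, A.W ∅ y (om t) ∂(nu x T)
      - ∫ z, HH A.be A.b (y - A.sg * A.vt) z ∂(gaussianReal 0 (Real.toNNReal A.s2))|
    ≤ (C * (Real.exp (-A.v) + 1 / A.p0 + 1 / A.v) + C' * Real.sqrt e) * A.Gs y

/-- Z4: upper bound under the measure `|zeta| ^ 2 / log T` -/
def NuUp : Prop := ∀ p0 : ℕ, 1000 ≤ p0 → ∃ C T0 : ℝ, 1 ≤ C ∧ 3 ≤ T0 ∧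
  ∀ A : Par, A.Ok → A.p0 = p0 → ∀ T e : ℝ, T0 ≤ T → Len A T e → ∀ x y : ℝ, |x| ≤ T ^ (9 / 10 : ℝ) →
  ∀ s s' : Finset ℕ, s ⊆ s' → s' ⊆ Finset.range A.J →
  ∫⁻ t, ENNReal.ofReal (A.Wg s s' y (om t)) ∂(nu x T)
    ≤ ENNReal.ofReal (C * Real.exp (-∑ g ∈ s', (A.r g : ℝ)) * A.Gs y)

/-- Z5: uniform integrability -/
def NuUI : Prop := ∀ p0 : ℕ, 1000 ≤ p0 → ∃ C T0 : ℝ, 1 ≤ C ∧ 3 ≤ T0 ∧
  ∀ A : Par, A.Ok → A.p0 = p0 → ∀ T e : ℝ, T0 ≤ T → Len A T e → ∀ x y K : ℝ, |x| ≤ T ^ (9 / 10 : ℝ) →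
  1 ≤ K →
  ∫⁻ t in {t | K < ‖ze t‖ * ‖A.mo (-1) ∅ (om t)‖}, ENNReal.ofReal (A.W ∅ y (om t)) ∂(nu x T)
    ≤ ENNReal.ofReal (C * (e + (Real.log T / A.Y) ^ 10 / K ^ 2) * A.Gs y)

/-- Z6: the inverse of the mollifier along the flow -/
def MoUp : Prop := ∀ p0 : ℕ, 1000 ≤ p0 → ∃ C T0 : ℝ, 1 ≤ C ∧ 3 ≤ T0 ∧
  ∀ A : Par, A.Ok → A.p0 = p0 → ∀ T e : ℝ, T0 ≤ T → Len A T e → ∀ x y : ℝ,
  ∀ s : Finset ℕ, s ⊆ Finset.range A.J →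
  ∫⁻ t, ENNReal.ofReal (A.W s y (om t) * ‖A.mo 1 s (om t)‖ ^ 2) ∂(un x T)
    ≤ ENNReal.ofReal (C * Real.exp (-∑ g ∈ s, (A.r g : ℝ)) * (A.Y * A.Gs y))

/-! ### F: sets of `t` -/

/-- F1: from the weights to sets, above the level -/
def TiltUp : Prop := ∃ (C : ℝ) (v0 : ℕ), 1 ≤ C ∧ ∀ A : Par, A.Ok → v0 ≤ A.v → ∀ s : Finset ℕ,
  s ⊆ Finset.range A.J → ∀ (x T κ : ℝ), 0 < T → 0 ≤ κ → ∀ H : ℝ → ENNReal, Measurable H →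
  (∀ y : ℝ, ∫⁻ t, ENNReal.ofReal (A.W s y (om t)) * H t ∂(un x T) ≤ ENNReal.ofReal (κ * A.G y)) →
  ∀ V : ℝ, ∫⁻ t in {t | A.Good s (om t) ∧ A.Bad s (om t) ∧ V < A.X s (om t)}, H t ∂(un x T)
    ≤ ENNReal.ofReal (C * κ * (A.G V / A.be))

/-- F2: from the weights to sets, below the level -/
def TiltLow : Prop := ∃ (C : ℝ) (v0 : ℕ), 1 ≤ C ∧ ∀ A : Par, A.Ok → v0 ≤ A.v → 2 * A.be ≤ A.b →
  ∀ s : Finset ℕ, s ⊆ Finset.range A.J → ∀ (x T κ : ℝ), 0 < T → 0 ≤ κ → ∀ H : ℝ → ENNReal,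
  Measurable H →
  (∀ y : ℝ, ∫⁻ t, ENNReal.ofReal (A.W s y (om t)) * H t ∂(un x T) ≤ ENNReal.ofReal (κ * A.G y)) →
  ∀ V : ℝ, ∫⁻ t in {t | A.Good s (om t) ∧ A.Bad s (om t) ∧ A.X s (om t) ≤ V},
    ENNReal.ofReal (Real.exp (2 * (A.X s (om t) - V))) * H t ∂(un x T)
    ≤ ENNReal.ofReal (C * κ * (A.G V / A.b))

/-- F3: the law of the prime sum under the measure `|zeta| ^ 2 / log T` -/
def LawNu : Prop := ∃ (C : ℝ) (v0 : ℕ), 1 ≤ C ∧ ∀ p0 : ℕ, 1000 ≤ p0 → ∃ C' T0 : ℝ, 1 ≤ C' ∧ 3 ≤ T0 ∧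
  ∀ A : Par, A.Ok → v0 ≤ A.v → A.p0 = p0 → ∀ T e : ℝ, T0 ≤ T → Len A T e → ∀ x V r0 : ℝ,
  |x| ≤ T ^ (9 / 10 : ℝ) → 1 ≤ r0 → A.be / A.b * r0 ≤ 1 / 2 →
  |(nu x T {t | A.Good ∅ (om t) ∧ V < A.X ∅ (om t)}).toReal
      - (gaussianReal 0 (Real.toNNReal A.s2) (Ioi (V - A.sg * A.vt))).toReal|
    ≤ (C * (1 / A.p0 + 1 / A.v + 1 / r0 + A.be / A.b * r0) + C' * (Real.exp (-A.v) + Real.sqrt e))
      * (A.Gs V / A.be)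

/-! ### H: assembly -/

/-- the data of level `i` of `A` -/
noncomputable def lev (A : Par) (i : ℕ) : Par where
  v := A.v
  p0 := A.p0
  J := A.J - i
  i := A.i + i
  Y := A.Yf i
  sg := A.sg
  be := A.be
  b := A.b

/-- H0: the last level is good up to a small set -/
def LastLevel : Prop := ∀ p0 : ℕ, 1000 ≤ p0 → ∃ v0 : ℕ, ∀ v : ℕ, v0 ≤ v → ∀ M : ℝ, 1 ≤ M →
  ∃ T0 : ℝ, 3 ≤ T0 ∧ ∀ A : Par, A.Ok → A.v = v → A.p0 = p0 → A.i = 0 → ∀ T : ℝ, T0 ≤ T →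
  A.Y = Real.log T / M → ∀ x : ℝ, |x| ≤ T ^ (9 / 10 : ℝ) → ∀ I : ℕ,
  Real.log T ^ (1 / 2 : ℝ) ≤ A.Yf I → A.Yf I ≤ Real.exp v * Real.log T ^ (1 / 2 : ℝ) →
  nu x T {t | ¬((lev A I).Good ∅ (om t) ∧
      ‖ze t‖ * ‖(lev A I).mo (-1) ∅ (om t)‖ ≤ (Real.log T / A.Yf I) ^ 6)}
    ≤ ENNReal.ofReal (Real.log T ^ (-(1 / 8) : ℝ))

/-- H1: upper bound for the large values; `A.Y = log T / M` -/
def NuUpper : Prop := ∀ p0 : ℕ, 1000 ≤ p0 → ∃ (C : ℝ) (v0 : ℕ), 1 ≤ C ∧ ∀ v : ℕ, v0 ≤ v → ∀ M : ℝ,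
  10 ^ 20 * Real.exp v ≤ M → ∃ T0 : ℝ, 3 ≤ T0 ∧ ∀ A : Par, A.Ok → A.v = v → A.p0 = p0 → A.i = 0 →
  A.sg = 1 → A.be ≤ 1 / 10 ^ 8 → ∀ T : ℝ, T0 ≤ T → A.Y = Real.log T / M → ∀ x V : ℝ,
  |x| ≤ T ^ (9 / 10 : ℝ) →
  (nu x T {t | Real.exp V < ‖ze t‖}).toReal
    ≤ (nu x T {t | A.Good ∅ (om t) ∧ V - 8 * Real.log M < A.X ∅ (om t)}).toReal
      + C * (Real.exp (-(v / 2)) + Real.exp v / M) * Real.exp (8 * (A.be * Real.log M)) * (A.Gs V / A.be)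
      + Real.log T ^ (-(1 / 8) : ℝ)

/-- H2: lower bound for the large values -/
def NuLower : Prop := ∀ p0 : ℕ, 1000 ≤ p0 → ∃ (C T0 : ℝ) (v0 : ℕ), 1 ≤ C ∧ 3 ≤ T0 ∧ ∀ A : Par, A.Ok →
  v0 ≤ A.v → A.p0 = p0 → A.sg = 1 → ∀ T e : ℝ, T0 ≤ T → Len A T e → ∀ x V κ : ℝ, 1 ≤ κ →
  (nu x T {t | A.Good ∅ (om t) ∧ V + κ < A.X ∅ (om t)}).toReal
    ≤ (nu x T {t | Real.exp V < ‖ze t‖}).toReal
      + C * (A.Y / Real.log T) * (A.Gs V / A.be)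

/-- H3: upper bound for the small values -/
def NuUpperS : Prop := ∀ p0 : ℕ, 1000 ≤ p0 → ∃ (C T0 : ℝ) (v0 : ℕ), 1 ≤ C ∧ 3 ≤ T0 ∧ ∀ A : Par, A.Ok →
  v0 ≤ A.v → A.p0 = p0 → A.sg = -1 → 2 * A.be ≤ A.b → ∀ T e : ℝ, T0 ≤ T → Len A T e → ∀ x V : ℝ,
  |x| ≤ T ^ (9 / 10 : ℝ) →
  (nu x T {t | ‖ze t‖ ≤ Real.exp (-V)}).toReal
    ≤ (nu x T {t | A.Good ∅ (om t) ∧ V < A.X ∅ (om t)}).toReal
      + C * (Real.exp (-A.v) + A.Y / Real.log T) * (A.Gs V / A.be)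

/-- H4: lower bound for the small values -/
def NuLowerS : Prop := ∀ p0 : ℕ, 1000 ≤ p0 → ∃ (C T0 : ℝ) (v0 : ℕ), 1 ≤ C ∧ 3 ≤ T0 ∧ ∀ A : Par, A.Ok →
  v0 ≤ A.v → A.p0 = p0 → A.sg = -1 → ∀ T e : ℝ, T0 ≤ T → Len A T e → ∀ x V κ : ℝ,
  |x| ≤ T ^ (9 / 10 : ℝ) → 1 ≤ κ →
  (nu x T {t | A.Good ∅ (om t) ∧ V + κ < A.X ∅ (om t)}).toReal
    ≤ (nu x T {t | ‖ze t‖ ≤ Real.exp (-V)}).toReal
      + C * (e + (Real.log T / A.Y) ^ 10 * Real.exp (-(2 * κ))) * (A.Gs V / A.be)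

/-- the tail of the Gaussian distribution -/
noncomputable def tail (x : ℝ) : ℝ := (gaussianReal 0 1 (Ioi x)).toReal

/-- H5: the law of `log |zeta|` under the measure `|zeta| ^ 2 / log T`, both tails -/
def MainTwo : Prop := ∀ ε : ℝ, 0 < ε → ∃ δ T0 : ℝ, 0 < δ ∧ ∀ x T V : ℝ, T0 ≤ T →
  |x| ≤ T ^ (9 / 10 : ℝ) → V ≤ δ * Real.log (Real.log T) →
  |(nu x T {t | Real.log T * Real.exp V < ‖ze t‖}).toReal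
      - tail (V / Real.sqrt (Real.log (Real.log T) / 2))|
    ≤ ε * tail (V / Real.sqrt (Real.log (Real.log T) / 2)) ∧
  |(nu x T {t | ‖ze t‖ ≤ Real.log T * Real.exp (-V)}).toReal
      - tail (V / Real.sqrt (Real.log (Real.log T) / 2))|
    ≤ ε * tail (V / Real.sqrt (Real.log (Real.log T) / 2))

/-- H6: moments of exponent close to `2` -/
def MomTwo : Prop := ∀ ε : ℝ, 0 < ε → ∃ δ T0 : ℝ, 0 < δ ∧ ∀ x T β : ℝ, T0 ≤ T →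
  |x| ≤ T ^ (9 / 10 : ℝ) → |β - 2| ≤ δ →
  |(∫ u in (0 : ℝ)..1, ‖riemannZeta (1 / 2 + I * x + I * u * T)‖ ^ β) - Real.log T ^ (β ^ 2 / 4)|
    ≤ ε * Real.log T ^ (β ^ 2 / 4)

end Pool.Agent.Lib.G2
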