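import Mathlib
import Pool.Agent.Lib.MP_f9aece_nt_g2.StmtsZ
import Pool.Agent.Lib.MP_f9aece_nt_g2.Cont

/-!
F1, F2 of the block G2: from the weights to sets of `t` (Tonelli).
-/

set_option autoImplicit false

namespace Pool.Agent.Lib.G2

open MeasureTheory Set Filter Topology Complex ProbabilityTheory
open scoped ComplexConjugate
open Pool.Agent.Lib.GT

namespace F1

lemma cont_q_om (A : Par) (s : Finset ℕ) : Continuous fun p : ℝ × ℝ => A.q s p.2 (om p.1) := by
  unfold Par.q me
  refine continuous_parametric_integral_of_continuous (f := fun (p : ℝ × ℝ) (η : ℝ) =>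
    (phi η : ℂ) * (cexp (-(A.zz η * p.2)) *
      ∏ g ∈ Finset.range A.J \ s, tex (KK (A.r g)) (A.sz η * ((A.P g (om p.1)).re : ℂ)))) ?_
    isCompact_Icc
  unfold Function.uncurry
  fun_prop

lemma cont_W_om (A : Par) (s : Finset ℕ) : Continuous fun p : ℝ × ℝ => A.W s p.2 (om p.1) := by
  have h := cont_q_om A s
  unfold Par.W Par.Wg
  fun_prop

/-- Tonelli: sets of `t` through windows -/
lemma tonelli (A : Par) (s : Finset ℕ) (x T κ C : ℝ) (hT : 0 < T) (hκ : 0 ≤ κ) (hC : 0 ≤ C)
    (H : ℝ → ENNReal) (hH : Measurable H)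
    (hW : ∀ y : ℝ, ∫⁻ t, ENNReal.ofReal (A.W s y (om t)) * H t ∂(un x T) ≤ ENNReal.ofReal (κ * A.G y))
    (E : Set ℝ) (g : ℝ → ENNReal) (w : ℝ → ℝ) (hw : Measurable w) (hw0 : ∀ y, 0 ≤ w y) (D : Set ℝ)
    (hg : ∀ t ∈ E, g t ≤ ENNReal.ofReal C * ∫⁻ y in D, ENNReal.ofReal (w y * A.W s y (om t))) :
    ∫⁻ t in E, g t * H t ∂(un x T) ≤
      ENNReal.ofReal (C * κ) * ∫⁻ y in D, ENNReal.ofReal (w y * A.G y) := by
  have := prob_un x hT
  have hm : Measurable fun p : ℝ × ℝ => ENNReal.ofReal (w p.2 * A.W s p.2 (om p.1)) * H p.1 := by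
    have h1 := (cont_W_om A s).measurable
    exact (((hw.comp measurable_snd).mul h1).ennreal_ofReal).mul (hH.comp measurable_fst)
  have hm' : Measurable fun t : ℝ =>
      ∫⁻ y in D, ENNReal.ofReal (w y * A.W s y (om t)) * H t := hm.lintegral_prod_right'
  calc ∫⁻ t in E, g t * H t ∂(un x T)
      ≤ ∫⁻ t in E, (ENNReal.ofReal C * ∫⁻ y in D, ENNReal.ofReal (w y * A.W s y (om t)) * H t)
          ∂(un x T) := by
        refine setLIntegral_mono (hm'.const_mul _) fun t ht => ?_
        have h1 : Measurable fun y : ℝ => ENNReal.ofReal (w y * A.W s y (om t)) := by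
          have h1 := ((cont_W_om A s).comp (Continuous.prodMk_right t)).measurable
          exact (hw.mul h1).ennreal_ofReal
        rw [lintegral_mul_const _ h1, ← mul_assoc]
        gcongr
        exact hg t ht
    _ ≤ ∫⁻ t, (ENNReal.ofReal C * ∫⁻ y in D, ENNReal.ofReal (w y * A.W s y (om t)) * H t)
          ∂(un x T) := setLIntegral_le_lintegral _ _
    _ = ENNReal.ofReal C * ∫⁻ t, (∫⁻ y in D, ENNReal.ofReal (w y * A.W s y (om t)) * H t)
          ∂(un x T) := by
        rw [lintegral_const_mul _ hm']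
    _ = ENNReal.ofReal C * ∫⁻ y in D, (∫⁻ t, ENNReal.ofReal (w y * A.W s y (om t)) * H t
          ∂(un x T)) := by
        rw [lintegral_lintegral_swap hm.aemeasurable]
    _ ≤ ENNReal.ofReal C * ∫⁻ y in D, ENNReal.ofReal κ * ENNReal.ofReal (w y * A.G y) := by
        gcongr with y
        have e1 : ∀ t : ℝ, ENNReal.ofReal (w y * A.W s y (om t)) * H t =
            ENNReal.ofReal (w y) * (ENNReal.ofReal (A.W s y (om t)) * H t) := by
          intro t
          rw [ENNReal.ofReal_mul (hw0 y), mul_assoc]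
        simp_rw [e1]
        rw [lintegral_const_mul' _ _ ENNReal.ofReal_ne_top]
        calc ENNReal.ofReal (w y) * ∫⁻ t, ENNReal.ofReal (A.W s y (om t)) * H t ∂(un x T)
            ≤ ENNReal.ofReal (w y) * ENNReal.ofReal (κ * A.G y) := by gcongr; exact hW y
          _ = ENNReal.ofReal κ * ENNReal.ofReal (w y * A.G y) := by
            rw [← ENNReal.ofReal_mul (hw0 y), ← ENNReal.ofReal_mul hκ]
            congr 1
            ring
    _ = ENNReal.ofReal (C * κ) * ∫⁻ y in D, ENNReal.ofReal (w y * A.G y) := by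
        rw [lintegral_const_mul' _ _ ENNReal.ofReal_ne_top, ← mul_assoc,
          ← ENNReal.ofReal_mul hC]

/-- integral of the size of the windows above a level -/
lemma int_G_up (A : Par) (hbe : 0 < A.be) (V : ℝ) :
    ∫⁻ y in Ioi V, ENNReal.ofReal (1 * A.G y) ≤ ENNReal.ofReal (A.G V / A.be) := by
  have hG : ∀ y, A.G y = A.G V * Real.exp (A.be * V) * Real.exp (-A.be * y) := by
    intro y
    unfold Par.G
    rw [mul_assoc, ← Real.exp_add, mul_assoc, ← Real.exp_add]
    congr 2
    ring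
  have hG0 : 0 ≤ A.G V := by unfold Par.G; positivity
  have hi : IntegrableOn (fun y => A.G V * Real.exp (A.be * V) * Real.exp (-A.be * y)) (Ioi V) :=
    (integrableOn_exp_mul_Ioi (by linarith) V).const_mul _
  simp_rw [one_mul]
  have e1 : ∫⁻ y in Ioi V, ENNReal.ofReal (A.G y) =
      ENNReal.ofReal (∫ y in Ioi V, A.G V * Real.exp (A.be * V) * Real.exp (-A.be * y)) := by
    rw [ofReal_integral_eq_lintegral_ofReal hi (Eventually.of_forall fun y => by positivity)]
    exact lintegral_congr fun y => by rw [hG y]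
  rw [e1]
  refine ENNReal.ofReal_le_ofReal (le_of_eq ?_)
  rw [integral_const_mul, integral_exp_mul_Ioi (by linarith)]
  rw [mul_assoc, ← mul_div_assoc, mul_neg, ← Real.exp_add]
  rw [show A.be * V + -A.be * V = 0 by ring, Real.exp_zero]
  field_simp

/-- integral of the weighted size of the windows below a level -/
lemma int_G_low (A : Par) (hb : A.be < A.b) (V U : ℝ) :
    ∫⁻ y in Iio U, ENNReal.ofReal (Real.exp (A.b * (y - V)) * A.G y) ≤
      ENNReal.ofReal (A.G V * (Real.exp ((A.b - A.be) * (U - V)) / (A.b - A.be))) := by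
  have hG : ∀ y, Real.exp (A.b * (y - V)) * A.G y =
      A.G V * Real.exp (-(A.b - A.be) * V) * Real.exp ((A.b - A.be) * y) := by
    intro y
    unfold Par.G
    rw [mul_left_comm, ← Real.exp_add, mul_assoc, mul_assoc, ← Real.exp_add, ← Real.exp_add]
    congr 2
    ring
  have hG0 : 0 ≤ A.G V := by unfold Par.G; positivity
  have hi : IntegrableOn (fun y => A.G V * Real.exp (-(A.b - A.be) * V) *
      Real.exp ((A.b - A.be) * y)) (Iio U) :=
    ((integrableOn_exp_mul_Iic (by linarith) U).mono_set Iio_subset_Iic_self).const_mul _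
  have e1 : ∫⁻ y in Iio U, ENNReal.ofReal (Real.exp (A.b * (y - V)) * A.G y) =
      ENNReal.ofReal (∫ y in Iio U, A.G V * Real.exp (-(A.b - A.be) * V) *
        Real.exp ((A.b - A.be) * y)) := by
    rw [ofReal_integral_eq_lintegral_ofReal hi (Eventually.of_forall fun y => by positivity)]
    exact lintegral_congr fun y => by rw [hG y]
  rw [e1]
  refine ENNReal.ofReal_le_ofReal (le_of_eq ?_)
  rw [integral_const_mul, ← integral_Iic_eq_integral_Iio, integral_exp_mul_Iic (by linarith)]
  rw [mul_assoc, ← mul_div_assoc, ← Real.exp_add]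
  congr 3
  ring

end F1

open F1 in
/-- F1 -/
theorem tiltUp (h : WPoint) : TiltUp := by
  obtain ⟨C, C1, v0, hC, hC1, h1⟩ := h
  refine ⟨C * Real.exp C1, v0, ?_, ?_⟩
  · have := Real.one_le_exp (show 0 ≤ C1 by linarith)
    nlinarith
  intro A hA hv s hs x T κ hT hκ H hH hW V
  have hbe := hA.hbe
  have hb : 0 < A.b := lt_of_lt_of_le hbe hA.hbb
  have hG0 : 0 ≤ A.G V := by unfold Par.G; positivity
  have h2 := tonelli A s x T κ C hT hκ (by linarith) H hH hW
    {t | A.Good s (om t) ∧ A.Bad s (om t) ∧ V < A.X s (om t)} (fun _ => 1) (fun _ => 1)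
    measurable_const (fun _ => zero_le_one) (Ioi (V - C1 / A.b)) (by
      intro t ht
      simp only [one_mul]
      exact (h1 A hA hv s hs (om t) ht.1 ht.2.1).1 V ht.2.2)
  simp only [one_mul] at h2
  refine h2.trans ?_
  have h3 := int_G_up A hbe (V - C1 / A.b)
  simp only [one_mul] at h3
  refine (mul_le_mul' le_rfl h3).trans ?_
  rw [← ENNReal.ofReal_mul (by positivity)]
  refine ENNReal.ofReal_le_ofReal ?_
  have h4 : A.G (V - C1 / A.b) ≤ Real.exp C1 * A.G V := by
    have e1 : A.G (V - C1 / A.b) = Real.exp (A.be * (C1 / A.b)) * A.G V := by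
      unfold Par.G
      rw [mul_left_comm, ← Real.exp_add]
      congr 2
      ring
    rw [e1]
    refine mul_le_mul_of_nonneg_right (Real.exp_le_exp.2 ?_) hG0
    rw [← mul_div_assoc, div_le_iff₀ hb, mul_comm]
    exact mul_le_mul_of_nonneg_left hA.hbb (by linarith)
  calc C * κ * (A.G (V - C1 / A.b) / A.be) ≤ C * κ * ((Real.exp C1 * A.G V) / A.be) := by
        gcongr
    _ = C * Real.exp C1 * κ * (A.G V / A.be) := by ring

open F1 in
/-- F2 -/
theorem tiltLow (h : WPoint) : TiltLow := by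
  obtain ⟨C, C1, v0, hC, hC1, h1⟩ := h
  refine ⟨C * (2 * Real.exp C1), v0, ?_, ?_⟩
  · have := Real.one_le_exp (show 0 ≤ C1 by linarith)
    nlinarith
  intro A hA hv h2b s hs x T κ hT hκ H hH hW V
  have hbe := hA.hbe
  have hb : 0 < A.b := lt_of_lt_of_le hbe hA.hbb
  have hG0 : 0 ≤ A.G V := by unfold Par.G; positivity
  have h2 := tonelli A s x T κ C hT hκ (by linarith) H hH hW
    {t | A.Good s (om t) ∧ A.Bad s (om t) ∧ A.X s (om t) ≤ V}
    (fun t => ENNReal.ofReal (Real.exp (2 * (A.X s (om t) - V)))) (fun y => Real.exp (A.b * (y - V)))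
    (by fun_prop) (fun _ => (Real.exp_pos _).le) (Iio (V + C1 / A.b)) (by
      intro t ht
      exact (h1 A hA hv s hs (om t) ht.1 ht.2.1).2.1 V ht.2.2)
  refine h2.trans ?_
  have h3 := int_G_low A (show A.be < A.b by linarith) V (V + C1 / A.b)
  refine (mul_le_mul' le_rfl h3).trans ?_
  rw [← ENNReal.ofReal_mul (by positivity)]
  refine ENNReal.ofReal_le_ofReal ?_
  have h4 : Real.exp ((A.b - A.be) * (V + C1 / A.b - V)) ≤ Real.exp C1 := by
    refine Real.exp_le_exp.2 ?_
    rw [add_sub_cancel_left, ← mul_div_assoc, div_le_iff₀ hb, mul_comm]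
    exact mul_le_mul_of_nonneg_left (by linarith) (by linarith)
  have h5 : Real.exp ((A.b - A.be) * (V + C1 / A.b - V)) / (A.b - A.be) ≤
      2 * Real.exp C1 / A.b := by
    rw [div_le_div_iff₀ (by linarith) hb]
    nlinarith [Real.exp_pos C1, Real.exp_pos ((A.b - A.be) * (V + C1 / A.b - V))]
  calc C * κ * (A.G V * (Real.exp ((A.b - A.be) * (V + C1 / A.b - V)) / (A.b - A.be)))
      ≤ C * κ * (A.G V * (2 * Real.exp C1 / A.b)) := by gcongr
    _ = C * (2 * Real.exp C1) * κ * (A.G V / A.b) := by ring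

end Pool.Agent.Lib.G2
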