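import Mathlib
import Pool.Agent.Lib.MP_f9aece_nt_gt.Stmts
import Pool.Agent.Lib.MP_f9aece_nt_g2.StmtsZ

/-!
F3: the law of the prime sum under the measure `|zeta| ^ 2 / log T`.
-/

set_option autoImplicit false

namespace Pool.Agent.Lib.G2

open MeasureTheory Set Filter Topology Complex ProbabilityTheory
open scoped ComplexConjugate
open Pool.Agent.Lib.GT

namespace F3

/-! ### continuity -/

lemma cont_tex (K : ℕ) : Continuous (tex K) := by
  unfold tex
  fun_prop

lemma cont_lin (S : Finset ℕ) (c : ℕ → ℂ) : Continuous (lin S c) := by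
  unfold lin
  fun_prop

lemma cont_P (A : Par) (g : ℕ) : Continuous (A.P g) := by
  unfold Par.P
  exact cont_lin _ _

lemma cont_X (A : Par) (s : Finset ℕ) : Continuous (A.X s) := by
  have h := cont_P A
  unfold Par.X Par.Xt
  fun_prop

lemma cont_bb (A : Par) (g : ℕ) : Continuous (A.bb g) := by
  have h := cont_lin (A.S g) (fun p => (A.h p : ℂ))
  unfold Par.bb bp
  fun_prop

lemma cont_q_om (A : Par) (s : Finset ℕ) : Continuous fun p : ℝ × ℝ => A.q s p.2 (om p.1) := by
  unfold Par.q me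
  refine continuous_parametric_integral_of_continuous (f := fun (p : ℝ × ℝ) (η : ℝ) =>
    (phi η : ℂ) * (cexp (-(A.zz η * p.2)) *
      ∏ g ∈ Finset.range A.J \ s, tex (KK (A.r g)) (A.sz η * ((A.P g (om p.1)).re : ℂ)))) ?_
    isCompact_Icc
  have h1 : Continuous phi := by
    unfold phi
    fun_prop
  have h2 : Continuous A.zz := by
    unfold Par.zz
    fun_prop
  have h3 : Continuous A.sz := by
    unfold Par.sz
    fun_prop
  have h4 : ∀ g, Continuous (tex (KK (A.r g))) := fun g => cont_tex _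
  have h5 : ∀ g, Continuous (A.P g) := cont_P A
  unfold Function.uncurry
  fun_prop

lemma cont_Wg_om (A : Par) (s s' : Finset ℕ) :
    Continuous fun p : ℝ × ℝ => A.Wg s s' p.2 (om p.1) := by
  have h := cont_q_om A s
  have h2 := cont_bb A
  unfold Par.Wg
  fun_prop

lemma cont_Wg (A : Par) (s s' : Finset ℕ) (y : ℝ) : Continuous fun t : ℝ => A.Wg s s' y (om t) := by
  have h := (cont_Wg_om A s s').comp (Continuous.prodMk_left (X := ℝ) y)
  exact h

lemma cont_W (A : Par) (s : Finset ℕ) (y : ℝ) : Continuous fun t : ℝ => A.W s y (om t) :=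
  cont_Wg A s s y

lemma Wg_nonneg (A : Par) (hb : 0 ≤ A.b) (s s' : Finset ℕ) (y : ℝ) (x : Om) :
    0 ≤ A.Wg s s' y x := by
  have h0 : 0 ≤ c0 := integral_nonneg fun r => by positivity
  unfold Par.Wg Par.bb bp
  refine mul_nonneg (mul_nonneg (div_nonneg hb h0) (Finset.prod_nonneg fun g _ => ?_)) (sq_nonneg _)
  exact Even.pow_nonneg ⟨MM (A.r g), by ring⟩ _

lemma closed_good (A : Par) (s : Finset ℕ) : IsClosed {t : ℝ | A.Good s (om t)} := by
  have e : {t : ℝ | A.Good s (om t)} =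
      ⋂ g ∈ Finset.range A.J \ s, {t : ℝ | ‖A.P g (om t)‖ ≤ RR (A.r g)} := by
    ext t
    simp [Par.Good]
  have h := cont_P A
  rw [e]
  refine isClosed_biInter fun g _ => ?_
  exact isClosed_le (by fun_prop) continuous_const

lemma cont_ze : Continuous ze := by
  unfold ze
  rw [continuous_iff_continuousAt]
  intro t
  have h1 : (1 / 2 + I * t : ℂ) ≠ 1 := by
    intro h
    have := congrArg Complex.re h
    norm_num at this
  have h2 : ContinuousAt (fun t : ℝ => (1 / 2 + I * t : ℂ)) t := by fun_prop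
  exact ContinuousAt.comp (g := riemannZeta) (f := fun t : ℝ => (1 / 2 + I * t : ℂ))
    (differentiableAt_riemannZeta h1).continuousAt h2

/-! ### the measure -/

/-- the measure is finite -/
lemma fin_nu (x T : ℝ) (hT : 0 < T) : IsFiniteMeasure (nu x T) := by
  obtain ⟨B, hB⟩ := (isCompact_Icc (a := x) (b := x + T)).exists_bound_of_continuousOn
    (f := fun t => ‖ze t‖ ^ 2 / Real.log T) (cont_ze.norm.pow 2 |>.div_const _).continuousOn
  refine ⟨?_⟩
  unfold nu un
  rw [withDensity_apply _ MeasurableSet.univ, setLIntegral_univ, lintegral_smul_measure]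
  refine ENNReal.mul_lt_top ?_ ?_
  · exact ENNReal.inv_lt_top.2 (ENNReal.ofReal_pos.2 hT)
  · refine lt_of_le_of_lt (setLIntegral_mono (g := fun _ => ENNReal.ofReal B) measurable_const
      fun t ht => ENNReal.ofReal_le_ofReal ((le_abs_self _).trans (hB t ht))) ?_
    rw [setLIntegral_const]
    exact ENNReal.mul_lt_top ENNReal.ofReal_lt_top measure_Icc_lt_top

/-- Tonelli: sets of `t` through windows -/
lemma tonelli (A : Par) (s : Finset ℕ) (ν : Measure ℝ) [SFinite ν] (κ C : ℝ) (F : ℝ → ℝ) (hκ : 0 ≤ κ)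
    (hC : 0 ≤ C)
    (hW : ∀ y : ℝ, ∫⁻ t, ENNReal.ofReal (A.W s y (om t)) ∂ν ≤ ENNReal.ofReal (κ * F y))
    (E : Set ℝ) (g : ℝ → ENNReal) (w : ℝ → ℝ) (hw : Measurable w) (hw0 : ∀ y, 0 ≤ w y) (D : Set ℝ)
    (hg : ∀ t ∈ E, g t ≤ ENNReal.ofReal C * ∫⁻ y in D, ENNReal.ofReal (w y * A.W s y (om t))) :
    ∫⁻ t in E, g t ∂ν ≤ ENNReal.ofReal (C * κ) * ∫⁻ y in D, ENNReal.ofReal (w y * F y) := by
  have hm : Measurable fun p : ℝ × ℝ => ENNReal.ofReal (w p.2 * A.W s p.2 (om p.1)) := by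
    have h1 := (cont_Wg_om A s s).measurable
    exact ((hw.comp measurable_snd).mul h1).ennreal_ofReal
  have hm' : Measurable fun t : ℝ => ∫⁻ y in D, ENNReal.ofReal (w y * A.W s y (om t)) :=
    hm.lintegral_prod_right'
  calc ∫⁻ t in E, g t ∂ν
      ≤ ∫⁻ t in E, (ENNReal.ofReal C * ∫⁻ y in D, ENNReal.ofReal (w y * A.W s y (om t))) ∂ν :=
        setLIntegral_mono (hm'.const_mul _) hg
    _ ≤ ∫⁻ t, (ENNReal.ofReal C * ∫⁻ y in D, ENNReal.ofReal (w y * A.W s y (om t))) ∂ν :=
        setLIntegral_le_lintegral _ _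
    _ = ENNReal.ofReal C * ∫⁻ t, (∫⁻ y in D, ENNReal.ofReal (w y * A.W s y (om t))) ∂ν := by
        rw [lintegral_const_mul _ hm']
    _ = ENNReal.ofReal C * ∫⁻ y in D, (∫⁻ t, ENNReal.ofReal (w y * A.W s y (om t)) ∂ν) := by
        rw [lintegral_lintegral_swap hm.aemeasurable]
    _ ≤ ENNReal.ofReal C * ∫⁻ y in D, ENNReal.ofReal κ * ENNReal.ofReal (w y * F y) := by
        gcongr with y
        have e1 : ∀ t : ℝ, ENNReal.ofReal (w y * A.W s y (om t)) =
            ENNReal.ofReal (w y) * ENNReal.ofReal (A.W s y (om t)) := by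
          intro t
          rw [ENNReal.ofReal_mul (hw0 y)]
        simp_rw [e1]
        rw [lintegral_const_mul' _ _ ENNReal.ofReal_ne_top]
        calc ENNReal.ofReal (w y) * ∫⁻ t, ENNReal.ofReal (A.W s y (om t)) ∂ν
            ≤ ENNReal.ofReal (w y) * ENNReal.ofReal (κ * F y) := by gcongr; exact hW y
          _ = ENNReal.ofReal κ * ENNReal.ofReal (w y * F y) := by
            rw [← ENNReal.ofReal_mul (hw0 y), ← ENNReal.ofReal_mul hκ]
            congr 1
            ring
    _ = ENNReal.ofReal (C * κ) * ∫⁻ y in D, ENNReal.ofReal (w y * F y) := by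
        rw [lintegral_const_mul' _ _ ENNReal.ofReal_ne_top, ← mul_assoc,
          ← ENNReal.ofReal_mul hC]

/-- from a lower integral to an integral -/
lemma int_of_lint {ν : Measure ℝ} {f : ℝ → ℝ} (hf : AEStronglyMeasurable f ν) (h0 : ∀ x, 0 ≤ f x)
    {B : ℝ} (hB : 0 ≤ B) (h : ∫⁻ x, ENNReal.ofReal (f x) ∂ν ≤ ENNReal.ofReal B) :
    Integrable f ν ∧ ∫ x, f x ∂ν ≤ B := by
  have hi : Integrable f ν :=
    ⟨hf, (hasFiniteIntegral_iff_ofReal (Eventually.of_forall h0)).2
      (lt_of_le_of_lt h ENNReal.ofReal_lt_top)⟩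
  refine ⟨hi, ?_⟩
  rw [integral_eq_lintegral_of_nonneg_ae (Eventually.of_forall h0) hf]
  exact ENNReal.toReal_le_of_le_ofReal hB h

/-! ### the windows -/

lemma cont_Env (be b y : ℝ) : Continuous (Env be b y) := by
  unfold Env
  refine Continuous.mul continuous_const (Continuous.div (by fun_prop) (by fun_prop) ?_)
  intro p
  positivity

lemma cont_HH (h : Continuous psi) (be b y : ℝ) : Continuous (HH be b y) := by
  unfold HH
  fun_prop

lemma env_shift (be b y c z : ℝ) : Env be b y (z + c) = Env be b (y - c) z := by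
  unfold Env
  rw [show z + c - y = z - (y - c) by ring]

lemma hh_shift (be b y c z : ℝ) : HH be b y (z + c) = HH be b (y - c) z := by
  unfold HH
  rw [show z + c - y = z - (y - c) by ring]

/-- the windows are bounded by the envelope -/
lemma hh_le {C : ℝ} (hC : ∀ r : ℝ, ‖psi r‖ ≤ C / (1 + r ^ 2)) (h0 : 0 < c0) {be b : ℝ} (hb : 0 ≤ b)
    (y z : ℝ) : HH be b y z ≤ C ^ 2 / c0 * Env be b y z := by
  have h1 := hC (b * (z - y))
  have h2 : 1 ≤ 1 + (b * (z - y)) ^ 2 := by nlinarith [sq_nonneg (b * (z - y))]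
  have h3 : ‖psi (b * (z - y))‖ ^ 2 ≤ C ^ 2 / (1 + (b * (z - y)) ^ 2) := by
    calc ‖psi (b * (z - y))‖ ^ 2 ≤ (C / (1 + (b * (z - y)) ^ 2)) ^ 2 :=
          pow_le_pow_left₀ (norm_nonneg _) h1 2
      _ = C ^ 2 / (1 + (b * (z - y)) ^ 2) * (1 / (1 + (b * (z - y)) ^ 2)) := by
          field_simp
      _ ≤ C ^ 2 / (1 + (b * (z - y)) ^ 2) * 1 := by
          refine mul_le_mul_of_nonneg_left ?_ (by positivity)
          rw [div_le_one (by positivity)]
          exact h2
      _ = _ := mul_one _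
  unfold HH Env
  calc b / c0 * (Real.exp (be * (z - y)) * ‖psi (b * (z - y))‖ ^ 2)
      ≤ b / c0 * (Real.exp (be * (z - y)) * (C ^ 2 / (1 + (b * (z - y)) ^ 2))) := by
        gcongr
    _ = _ := by
        field_simp

/-- the window weights have integral `π G / b` -/
lemma int_w (A : Par) (hb : 0 < A.b) (y : ℝ) :
    ∫⁻ y' in univ, ENNReal.ofReal (Real.exp (A.be * (y' - y)) / (1 + (A.b * (y' - y)) ^ 2) *
      A.Gs y') ≤ ENNReal.ofReal (A.Gs y * (Real.pi / A.b)) := by
  have hG0 : 0 ≤ A.Gs y := by unfold Par.Gs Par.G; positivity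
  have e1 : ∀ y' : ℝ, Real.exp (A.be * (y' - y)) / (1 + (A.b * (y' - y)) ^ 2) * A.Gs y' =
      A.Gs y * (1 + (A.b * (y' - y)) ^ 2)⁻¹ := by
    intro y'
    unfold Par.Gs Par.G
    rw [div_mul_eq_mul_div, ← mul_assoc, mul_comm (Real.exp (A.be * (y' - y))), mul_assoc,
      ← Real.exp_add, div_eq_mul_inv]
    congr 3
    ring
  have hi0 : Integrable fun y' : ℝ => (1 + (A.b * (y' - y)) ^ 2)⁻¹ := by
    have h1 := (integrable_inv_one_add_sq.comp_mul_left' hb.ne').comp_sub_right y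
    exact h1
  have hv : ∫ y' : ℝ, (1 + (A.b * (y' - y)) ^ 2)⁻¹ = Real.pi / A.b := by
    have h2 := integral_sub_right_eq_self (μ := volume) (fun z : ℝ => (1 + (A.b * z) ^ 2)⁻¹) y
    rw [h2, Measure.integral_comp_mul_left (fun z : ℝ => (1 + z ^ 2)⁻¹) A.b,
      integral_univ_inv_one_add_sq, abs_of_pos (inv_pos.2 hb), smul_eq_mul]
    ring
  rw [setLIntegral_univ]
  simp_rw [e1]
  rw [← ofReal_integral_eq_lintegral_ofReal (hi0.const_mul _)
    (Eventually.of_forall fun y' => by positivity), integral_const_mul, hv]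

/-- the weights at the points which are not good -/
lemma not_good (A : Par) (hA : A.Ok) (hb : 0 ≤ A.b) (hN : GroupNum) {Cs : ℝ} (hCs : 1 ≤ Cs)
    (ν : Measure ℝ) (y : ℝ)
    (h : ∀ g < A.J, ∫⁻ t, ENNReal.ofReal (A.Wg ∅ {g} y (om t)) ∂ν
      ≤ ENNReal.ofReal (Cs * Real.exp (-(A.r g : ℝ)) * A.Gs y)) :
    ∫⁻ t in {t : ℝ | A.Good ∅ (om t)}ᶜ, ENNReal.ofReal (A.W ∅ y (om t)) ∂ν ≤
      ENNReal.ofReal (2 * Cs * Real.exp (-A.v) * A.Gs y) := by
  have hG0 : 0 ≤ A.Gs y := by unfold Par.Gs Par.G; positivity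
  have hsum := (hN A hA).2.2.2.2.2.1
  have hm : ∀ g, Measurable fun t : ℝ => ENNReal.ofReal (A.Wg ∅ {g} y (om t)) :=
    fun g => (cont_Wg A ∅ {g} y).measurable.ennreal_ofReal
  calc ∫⁻ t in {t : ℝ | A.Good ∅ (om t)}ᶜ, ENNReal.ofReal (A.W ∅ y (om t)) ∂ν
      ≤ ∫⁻ t in {t : ℝ | A.Good ∅ (om t)}ᶜ, (∑ g ∈ Finset.range A.J,
          ENNReal.ofReal (A.Wg ∅ {g} y (om t))) ∂ν := by
        refine setLIntegral_mono (Finset.measurable_sum _ fun g _ => hm g) fun t ht => ?_
        have h1 : ∃ g ∈ Finset.range A.J, RR (A.r g) < ‖A.P g (om t)‖ := by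
          by_contra hcon
          push Not at hcon
          exact ht fun g hg => hcon g (by simpa using hg)
        obtain ⟨g, hg, h2⟩ := h1
        refine le_trans ?_ (Finset.single_le_sum (f := fun g =>
          ENNReal.ofReal (A.Wg ∅ {g} y (om t))) (fun i _ => zero_le) hg)
        refine ENNReal.ofReal_le_ofReal ?_
        have hr : 0 < RR (A.r g) := by
          unfold RR Par.r
          have := hA.hv
          have h3 : 0 < A.v * (g + 1 + A.i) := by positivity
          positivity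
        have h4 : 1 ≤ A.bb g (om t) := by
          unfold Par.bb bp
          exact one_le_pow₀ ((one_le_div hr).2 h2.le)
        have h5 := Wg_nonneg A hb ∅ ∅ y (om t)
        have e1 : A.Wg ∅ {g} y (om t) = A.Wg ∅ ∅ y (om t) * A.bb g (om t) := by
          unfold Par.Wg
          rw [Finset.prod_singleton, Finset.prod_empty]
          ring
        rw [e1]
        exact le_mul_of_one_le_right h5 h4
    _ ≤ ∫⁻ t, (∑ g ∈ Finset.range A.J, ENNReal.ofReal (A.Wg ∅ {g} y (om t))) ∂ν :=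
        setLIntegral_le_lintegral _ _
    _ = ∑ g ∈ Finset.range A.J, ∫⁻ t, ENNReal.ofReal (A.Wg ∅ {g} y (om t)) ∂ν :=
        lintegral_finsetSum _ fun g _ => hm g
    _ ≤ ∑ g ∈ Finset.range A.J, ENNReal.ofReal (Cs * Real.exp (-(A.r g : ℝ)) * A.Gs y) :=
        Finset.sum_le_sum fun g hg => h g (Finset.mem_range.1 hg)
    _ = ENNReal.ofReal (∑ g ∈ Finset.range A.J, Cs * Real.exp (-(A.r g : ℝ)) * A.Gs y) :=
        (ENNReal.ofReal_sum_of_nonneg fun g _ => by positivity).symm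
    _ ≤ ENNReal.ofReal (2 * Cs * Real.exp (-A.v) * A.Gs y) := by
        refine ENNReal.ofReal_le_ofReal ?_
        rw [← Finset.sum_mul, ← Finset.mul_sum]
        have h6 : Real.exp (-(A.v * (A.i + 1) : ℝ)) ≤ Real.exp (-A.v) := by
          apply Real.exp_le_exp.2
          have : (0 : ℝ) ≤ A.v * A.i := by positivity
          nlinarith
        have h4 : Cs * ∑ g ∈ Finset.range A.J, Real.exp (-(A.r g : ℝ)) ≤
            Cs * (2 * Real.exp (-A.v)) := mul_le_mul_of_nonneg_left (by linarith) (by linarith)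
        calc Cs * (∑ g ∈ Finset.range A.J, Real.exp (-(A.r g : ℝ))) * A.Gs y
            ≤ Cs * (2 * Real.exp (-A.v)) * A.Gs y := mul_le_mul_of_nonneg_right h4 hG0
          _ = _ := by ring

end F3

open F3 in
/-- F3 -/
theorem lawNu (hM : NuMain) (hS : NuUp) (hP : WPoint) (hC : Compare) (hG : WGauss)
    (hN : GroupNum) (hψ : PsiBd) : LawNu := by
  obtain ⟨Cm, hCm, hM⟩ := hM
  obtain ⟨Cp, C1, v0, hCp, hC1, hP⟩ := hP
  obtain ⟨Cc, hCc, hC⟩ := hC
  obtain ⟨Cg, hCg, hG⟩ := hG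
  obtain ⟨Cψ, hCψ, hψb, hψc, hc0, -⟩ := hψ
  have hpi : 0 < Real.pi := Real.pi_pos
  set CH : ℝ := Cψ ^ 2 / c0 with hCH
  have hCH0 : 0 ≤ CH := by positivity
  set K0 : ℝ := Cp * Real.pi * (CH * Cg + 3 * Cm) + Cg with hK0
  have hK01 : 1 ≤ K0 := by
    have h1 : 1 ≤ Cp * Real.pi := by nlinarith [Real.pi_gt_three]
    have h2 : 1 ≤ CH * Cg + 3 * Cm := by nlinarith
    nlinarith
  refine ⟨Cc * ((Cm + 2) * K0), v0, ?_, ?_⟩
  · have h1 : 1 ≤ (Cm + 2) * K0 := by nlinarith
    nlinarith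
  intro p0 hp0
  obtain ⟨Cm', Tm, hCm', hTm, hM⟩ := hM p0 hp0
  obtain ⟨Cu, Tu, hCu, hTu, hS⟩ := hS p0 hp0
  set K1 : ℝ := Cp * Real.pi * Cm' with hK1
  have hK10 : 0 ≤ K1 := by positivity
  set WM : ℝ := CH * Cg + 3 * Cm + Cm' with hWM
  have hWM0 : 0 ≤ WM := by positivity
  set D1 : ℝ := Cm + 2 * Cu + Cp * (Cp * WM * Real.pi) + Cm' with hD1
  have hD10 : 1 ≤ D1 := by
    have : 0 ≤ Cp * (Cp * WM * Real.pi) := by positivity
    rw [hD1]
    linarith
  refine ⟨Cc * (D1 * K0 + 4 * (Cm + 2) * K1 + 2 * D1 * K1), max Tm Tu, ?_,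
    hTm.trans (le_max_left _ _), ?_⟩
  · have h1 : 1 ≤ D1 * K0 := by nlinarith
    have h2 : 0 ≤ 4 * (Cm + 2) * K1 := by positivity
    have h3 : 0 ≤ 2 * D1 * K1 := by positivity
    nlinarith
  intro A hOk hv hAp T e hT hLen x V r0 hx hr0 hκ
  have hTm' : Tm ≤ T := (le_max_left _ _).trans hT
  have hTu' : Tu ≤ T := (le_max_right _ _).trans hT
  have hT0 : 0 < T := by linarith
  have hbe := hOk.hbe
  have hbb := hOk.hbb
  have hb0 : 0 < A.b := lt_of_lt_of_le hbe hbb
  have hG0 : ∀ y, 0 ≤ A.Gs y := fun y => by unfold Par.Gs Par.G; positivity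
  have hfin := fin_nu x T hT0
  have he0 : 0 < e := hLen.he
  have he1 : Real.sqrt e ≤ 1 := Real.sqrt_le_one.2 (by have := hLen.he1; linarith)
  have hsq : 0 ≤ Real.sqrt e := Real.sqrt_nonneg _
  set c : ℝ := A.sg * A.vt with hc
  set E0 : Set ℝ := {t : ℝ | A.Good ∅ (om t)} with hE0
  have hE0m : MeasurableSet E0 := (closed_good A ∅).measurableSet
  set Xf : ℝ → ℝ := fun t => A.X ∅ (om t) with hXf
  have hXc : Continuous Xf := by
    have h1 := cont_X A ∅
    rw [hXf]
    fun_prop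
  set ν : Measure ℝ := ((nu x T).restrict E0).map Xf with hν
  set ν0 : Measure ℝ := gaussianReal 0 (Real.toNNReal A.s2) with hν0
  set ν' : Measure ℝ := ν0.map (fun z => z + c) with hν'
  have hmc : Measurable fun z : ℝ => z + c := measurable_id.add_const c
  have hν'f : IsFiniteMeasure ν' := by rw [hν']; infer_instance
  -- the small quantities
  have hE3 : 0 < Real.exp (-(A.v : ℝ)) := Real.exp_pos _
  have hE3' : Real.exp (-(A.v : ℝ)) ≤ 1 := Real.exp_le_one_iff.2 (by
    have : (0 : ℝ) ≤ A.v := Nat.cast_nonneg _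
    linarith)
  have hv1 : (1 : ℝ) ≤ A.v := by
    have := hOk.hv
    exact_mod_cast (by omega : 1 ≤ A.v)
  have hp1 : (1 : ℝ) ≤ A.p0 := by
    have := hOk.hp
    exact_mod_cast (by omega : 1 ≤ A.p0)
  have hq1 : 1 / (A.v : ℝ) ≤ 1 := by rw [div_le_one (by linarith)]; exact hv1
  have hq2 : 1 / (A.p0 : ℝ) ≤ 1 := by rw [div_le_one (by linarith)]; exact hp1
  have hq3 : 0 ≤ 1 / (A.v : ℝ) := by positivity
  have hq4 : 0 ≤ 1 / (A.p0 : ℝ) := by positivity
  -- the windows and the envelope of the Gaussian measure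
  have hEnv0 : ∀ y z, 0 ≤ Env A.be A.b y z := fun y z => by unfold Env; positivity
  have hEi' : ∀ y : ℝ, Integrable (Env A.be A.b y) ν0 := by
    intro y
    have h1 : Integrable (fun z => A.b * Real.exp (-(A.be * y)) * Real.exp (A.be * z)) ν0 :=
      (integrable_exp_mul_gaussianReal A.be).const_mul _
    refine h1.mono' (cont_Env _ _ y).aestronglyMeasurable (Eventually.of_forall fun z => ?_)
    rw [Real.norm_eq_abs, abs_of_nonneg (hEnv0 y z)]
    unfold Env
    rw [mul_assoc, ← Real.exp_add, show -(A.be * y) + A.be * z = A.be * (z - y) by ring]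
    refine mul_le_mul_of_nonneg_left ?_ hb0.le
    refine div_le_self (Real.exp_pos _).le ?_
    nlinarith [sq_nonneg (A.b * (z - y))]
  have hHH0 : ∀ y z, 0 ≤ HH A.be A.b y z := fun y z => by unfold HH; positivity
  have hHi' : ∀ y : ℝ, Integrable (HH A.be A.b y) ν0 := fun y =>
    ((hEi' y).const_mul CH).mono' (cont_HH hψc _ _ y).aestronglyMeasurable
      (Eventually.of_forall fun z => by
        rw [Real.norm_eq_abs, abs_of_nonneg (hHH0 y z)]
        exact hh_le hψb hc0 hb0.le y z)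
  have hHl' : ∀ y : ℝ, ∫ z, HH A.be A.b (y - c) z ∂ν0 ≤ CH * (Cg * A.Gs y) := by
    intro y
    calc ∫ z, HH A.be A.b (y - c) z ∂ν0 ≤ ∫ z, CH * Env A.be A.b (y - c) z ∂ν0 :=
          integral_mono (hHi' _) ((hEi' _).const_mul CH) fun z => hh_le hψb hc0 hb0.le _ z
      _ = CH * ∫ z, Env A.be A.b (y - c) z ∂ν0 := integral_const_mul _ _
      _ ≤ CH * (Cg * A.Gs y) := by
          refine mul_le_mul_of_nonneg_left ?_ hCH0
          exact (hG A hOk (y - c)).2.2
  -- the weights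
  set Wm : ℝ := CH * Cg + 3 * Cm + Cm' * Real.sqrt e with hWm
  have hWm0 : 0 ≤ Wm := by positivity
  have hWmM : Wm ≤ WM := by
    rw [hWm, hWM]
    nlinarith
  have hWc : ∀ y : ℝ, Continuous fun t : ℝ => A.W ∅ y (om t) := fun y => cont_W A ∅ y
  have hW0 : ∀ (y : ℝ) (t : ℝ), 0 ≤ A.W ∅ y (om t) := fun y t => Wg_nonneg A hb0.le _ _ _ _
  have hWi : ∀ y : ℝ, Integrable (fun t => A.W ∅ y (om t)) (nu x T) := by
    intro y
    have h1 : ∫⁻ t, ENNReal.ofReal (A.W ∅ y (om t)) ∂(nu x T) ≤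
        ENNReal.ofReal (Cu * Real.exp (-∑ g ∈ (∅ : Finset ℕ), (A.r g : ℝ)) * A.Gs y) := by
      unfold Par.W
      exact hS A hOk hAp T e hTu' hLen x y hx ∅ ∅ subset_rfl (Finset.empty_subset _)
    have h2 : 0 ≤ Cu * Real.exp (-∑ g ∈ (∅ : Finset ℕ), (A.r g : ℝ)) * A.Gs y :=
      mul_nonneg (mul_nonneg (by linarith) (Real.exp_pos _).le) (hG0 y)
    exact (int_of_lint (hWc y).aestronglyMeasurable (hW0 y) h2 h1).1
  have hWb : ∀ y : ℝ, ∫ t, A.W ∅ y (om t) ∂(nu x T) ≤ Wm * A.Gs y := by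
    intro y
    have h1 := (abs_le.1 (hM A hOk hAp T e hTm' hLen x y hx)).2
    have h2 := hHl' y
    have h3 : Cm * (Real.exp (-A.v) + 1 / A.p0 + 1 / A.v) ≤ 3 * Cm := by nlinarith
    have h4 : (Cm * (Real.exp (-A.v) + 1 / A.p0 + 1 / A.v) + Cm' * Real.sqrt e) * A.Gs y ≤
        (3 * Cm + Cm' * Real.sqrt e) * A.Gs y :=
      mul_le_mul_of_nonneg_right (by linarith) (hG0 y)
    have h5 : Wm * A.Gs y = CH * (Cg * A.Gs y) + (3 * Cm + Cm' * Real.sqrt e) * A.Gs y := by
      rw [hWm]; ring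
    rw [h5]
    linarith
  have hWl : ∀ y : ℝ, ∫⁻ t, ENNReal.ofReal (A.W ∅ y (om t)) ∂(nu x T) ≤
      ENNReal.ofReal (Wm * A.Gs y) := by
    intro y
    rw [← ofReal_integral_eq_lintegral_ofReal (hWi y) (Eventually.of_forall (hW0 y))]
    exact ENNReal.ofReal_le_ofReal (hWb y)
  -- the envelope
  have hEl : ∀ y : ℝ, ∫⁻ t in E0, ENNReal.ofReal (Env A.be A.b y (Xf t)) ∂(nu x T) ≤
      ENNReal.ofReal (Cp * Wm * Real.pi * A.Gs y) := by
    intro y
    have h1 := tonelli A ∅ (nu x T) Wm (Cp * A.b) A.Gs hWm0 (by positivity) hWl E0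
      (fun t => ENNReal.ofReal (Env A.be A.b y (Xf t)))
      (fun y' => Real.exp (A.be * (y' - y)) / (1 + (A.b * (y' - y)) ^ 2))
      (by
        refine Continuous.measurable (Continuous.div (by fun_prop) (by fun_prop) ?_)
        intro p
        positivity)
      (fun y' => by positivity) univ (by
        intro t ht
        have h2 := (hP A hOk hv ∅ (Finset.empty_subset _) (om t) ht (by
          intro g hg
          exact absurd hg (Finset.notMem_empty g))).2.2.1 y
        rw [setLIntegral_univ]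
        exact h2)
    refine h1.trans ?_
    refine (mul_le_mul' le_rfl (int_w A hb0 y)).trans ?_
    rw [← ENNReal.ofReal_mul (by positivity)]
    refine ENNReal.ofReal_le_ofReal (le_of_eq ?_)
    field_simp
  have hEi : ∀ y : ℝ, IntegrableOn (fun t => Env A.be A.b y (Xf t)) E0 (nu x T) ∧
      ∫ t in E0, Env A.be A.b y (Xf t) ∂(nu x T) ≤ Cp * Wm * Real.pi * A.Gs y := fun y =>
    int_of_lint ((cont_Env _ _ y).comp hXc).aestronglyMeasurable (fun t => hEnv0 _ _)
      (mul_nonneg (by positivity) (hG0 y)) (hEl y)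
  -- the factor
  set K : ℝ := Cp * Real.pi * Wm + Cg with hK
  have hKK : K = K0 + K1 * Real.sqrt e := by rw [hK, hWm, hK0, hK1]; ring
  have hKone : 1 ≤ K := by
    rw [hKK]
    have : 0 ≤ K1 * Real.sqrt e := mul_nonneg hK10 hsq
    linarith
  have hGV : ∀ y : ℝ, K * (A.Gs V / A.be) * (A.be * Real.exp (-(A.be * (y - V)))) = K * A.Gs y := by
    intro y
    have e1 : A.Gs y = A.Gs V * Real.exp (-(A.be * (y - V))) := by
      unfold Par.Gs Par.G
      rw [mul_assoc, ← Real.exp_add]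
      congr 2
      ring
    rw [e1]
    field_simp
  set ε : ℝ := Cm * (1 / A.p0 + 1 / A.v) + D1 * (Real.exp (-A.v) + Real.sqrt e) with hε
  have hε0 : 0 ≤ ε := by positivity
  have hcmp := hC A.be A.b (K * (A.Gs V / A.be)) V ε r0 r0 ν ν' hbe hbb hOk.hb hε0 hr0 hr0
    (mul_nonneg (by linarith) (div_nonneg (hG0 V) hbe.le)) (by linarith) inferInstance hν'f
    (by
      intro y
      rw [hGV y]
      have hm : AEMeasurable Xf ((nu x T).restrict E0) := hXc.measurable.aemeasurable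
      constructor
      · rw [hν, integrable_map_measure (cont_Env _ _ y).aestronglyMeasurable hm]
        exact (hEi y).1
      · rw [hν, integral_map hm (cont_Env _ _ y).aestronglyMeasurable]
        refine (hEi y).2.trans ?_
        refine mul_le_mul_of_nonneg_right ?_ (hG0 y)
        rw [hK]
        nlinarith)
    (by
      intro y
      rw [hGV y]
      constructor
      · rw [hν', integrable_map_measure (cont_Env _ _ y).aestronglyMeasurable hmc.aemeasurable]
        refine (hEi' (y - c)).congr (Eventually.of_forall fun z => ?_)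
        exact (env_shift _ _ y c z).symm
      · rw [hν', integral_map hmc.aemeasurable (cont_Env _ _ y).aestronglyMeasurable]
        simp_rw [env_shift]
        refine (hG A hOk (y - c)).2.2.trans ?_
        refine mul_le_mul_of_nonneg_right ?_ (hG0 y)
        rw [hK]
        have : 0 ≤ Cp * Real.pi * Wm := by positivity
        linarith)
    (by
      intro y
      rw [hGV y]
      have hm : AEMeasurable Xf ((nu x T).restrict E0) := hXc.measurable.aemeasurable
      rw [hν, integral_map hm (cont_HH hψc _ _ y).aestronglyMeasurable, hν',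
        integral_map hmc.aemeasurable (cont_HH hψc _ _ y).aestronglyMeasurable]
      simp_rw [hh_shift]
      -- the difference at the good points
      have hd : ∀ t ∈ E0, |HH A.be A.b y (Xf t) - A.W ∅ y (om t)| ≤
          Cp * Real.exp (-A.v) * Env A.be A.b y (Xf t) := by
        intro t ht
        rw [abs_sub_comm]
        exact (hP A hOk hv ∅ (Finset.empty_subset _) (om t) ht (by
          intro g hg
          exact absurd hg (Finset.notMem_empty g))).2.2.2.1 rfl y
      have hdi : IntegrableOn (fun t => HH A.be A.b y (Xf t) - A.W ∅ y (om t)) E0 (nu x T) := by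
        refine ((hEi y).1.const_mul (Cp * Real.exp (-A.v))).mono' ?_ ?_
        · exact (((cont_HH hψc _ _ y).comp hXc).sub (hWc y)).aestronglyMeasurable
        · filter_upwards [ae_restrict_mem hE0m] with t ht
          rw [Real.norm_eq_abs]
          exact hd t ht
      have hHi : IntegrableOn (fun t => HH A.be A.b y (Xf t)) E0 (nu x T) := by
        have h1 := hdi.add (hWi y).integrableOn
        refine h1.congr (Eventually.of_forall fun t => ?_)
        simp
      have e1 : (∫ t in E0, HH A.be A.b y (Xf t) ∂(nu x T)) - ∫ t, A.W ∅ y (om t) ∂(nu x T) =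
          (∫ t in E0, (HH A.be A.b y (Xf t) - A.W ∅ y (om t)) ∂(nu x T)) -
            ∫ t in E0ᶜ, A.W ∅ y (om t) ∂(nu x T) := by
        rw [integral_sub hHi (hWi y).integrableOn, ← integral_add_compl hE0m (hWi y)]
        ring
      have b1 : |∫ t in E0, (HH A.be A.b y (Xf t) - A.W ∅ y (om t)) ∂(nu x T)| ≤
          Cp * Real.exp (-A.v) * (Cp * Wm * Real.pi * A.Gs y) := by
        rw [← Real.norm_eq_abs]
        refine (norm_integral_le_of_norm_le ((hEi y).1.const_mul (Cp * Real.exp (-A.v)))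
          ?_).trans ?_
        · filter_upwards [ae_restrict_mem hE0m] with t ht
          rw [Real.norm_eq_abs]
          exact hd t ht
        · rw [integral_const_mul]
          exact mul_le_mul_of_nonneg_left (hEi y).2 (by positivity)
      have b2 : |∫ t in E0ᶜ, A.W ∅ y (om t) ∂(nu x T)| ≤ 2 * Cu * Real.exp (-A.v) * A.Gs y := by
        have h1 := not_good A hOk hb0.le hN hCu (nu x T) y fun g hg => by
          have h2 := hS A hOk hAp T e hTu' hLen x y hx ∅ {g} (Finset.empty_subset _)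
            (Finset.singleton_subset_iff.2 (Finset.mem_range.2 hg))
          rwa [Finset.sum_singleton] at h2
        have h2 := int_of_lint (hWc y).aestronglyMeasurable (hW0 y)
          (mul_nonneg (by positivity) (hG0 y)) h1
        rw [abs_of_nonneg (integral_nonneg fun t => hW0 y t)]
        exact h2.2
      have b3 := hM A hOk hAp T e hTm' hLen x y hx
      have b4 : |(∫ t in E0, HH A.be A.b y (Xf t) ∂(nu x T)) - ∫ z, HH A.be A.b (y - c) z ∂ν0| ≤
          Cp * Real.exp (-A.v) * (Cp * Wm * Real.pi * A.Gs y) + 2 * Cu * Real.exp (-A.v) * A.Gs y +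
            (Cm * (Real.exp (-A.v) + 1 / A.p0 + 1 / A.v) + Cm' * Real.sqrt e) * A.Gs y := by
        have e2 : (∫ t in E0, HH A.be A.b y (Xf t) ∂(nu x T)) - ∫ z, HH A.be A.b (y - c) z ∂ν0 =
            ((∫ t in E0, HH A.be A.b y (Xf t) ∂(nu x T)) - ∫ t, A.W ∅ y (om t) ∂(nu x T)) +
            ((∫ t, A.W ∅ y (om t) ∂(nu x T)) - ∫ z, HH A.be A.b (y - c) z ∂ν0) := by ring
        rw [e2, e1]
        exact (abs_add_le _ _).trans (add_le_add ((abs_sub _ _).trans (add_le_add b1 b2)) b3)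
      refine b4.trans ?_
      have hg := hG0 y
      have c1 : Cp * (Cp * Wm * Real.pi) ≤ Cp * (Cp * WM * Real.pi) := by gcongr
      have c2 : Cp * (Cp * Wm * Real.pi) * Real.exp (-A.v) ≤
          Cp * (Cp * WM * Real.pi) * Real.exp (-A.v) := mul_le_mul_of_nonneg_right c1 hE3.le
      have c3 : Cp * Real.exp (-A.v) * (Cp * Wm * Real.pi) + 2 * Cu * Real.exp (-A.v) +
          (Cm * (Real.exp (-A.v) + 1 / A.p0 + 1 / A.v) + Cm' * Real.sqrt e) ≤ ε := by
        have i1 : 0 ≤ (Cm + 2 * Cu + Cp * (Cp * WM * Real.pi)) * Real.sqrt e := by positivity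
        have i2 : 0 ≤ Cm' * Real.exp (-A.v) := by positivity
        rw [hε, hD1]
        linarith
      calc Cp * Real.exp (-A.v) * (Cp * Wm * Real.pi * A.Gs y) + 2 * Cu * Real.exp (-A.v) * A.Gs y +
            (Cm * (Real.exp (-A.v) + 1 / A.p0 + 1 / A.v) + Cm' * Real.sqrt e) * A.Gs y
          = (Cp * Real.exp (-A.v) * (Cp * Wm * Real.pi) + 2 * Cu * Real.exp (-A.v) +
            (Cm * (Real.exp (-A.v) + 1 / A.p0 + 1 / A.v) + Cm' * Real.sqrt e)) * A.Gs y := by ring
        _ ≤ ε * A.Gs y := mul_le_mul_of_nonneg_right c3 hg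
        _ = ε * (1 * A.Gs y) := by ring
        _ ≤ ε * (K * A.Gs y) :=
            mul_le_mul_of_nonneg_left (mul_le_mul_of_nonneg_right hKone hg) hε0)
  -- the measure of the half line
  have e3 : ν (Ioi V) = nu x T {t | A.Good ∅ (om t) ∧ V < A.X ∅ (om t)} := by
    rw [hν, Measure.map_apply hXc.measurable measurableSet_Ioi,
      Measure.restrict_apply (hXc.measurable measurableSet_Ioi)]
    congr 1
    ext t
    simp [hE0, hXf, and_comm]
  have e4 : ν' (Ioi V) = ν0 (Ioi (V - c)) := by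
    rw [hν', Measure.map_apply hmc measurableSet_Ioi]
    congr 1
    ext t
    simp only [mem_preimage, mem_Ioi]
    exact sub_lt_iff_lt_add.symm
  rw [e3, e4] at hcmp
  refine hcmp.trans ?_
  have hr1 : 0 ≤ 1 / r0 := by positivity
  have hr2 : 1 / r0 ≤ 1 := by rw [div_le_one (by linarith)]; exact hr0
  have hκ0 : 0 ≤ A.be / A.b * r0 := by positivity
  set η0 : ℝ := 1 / A.p0 + 1 / A.v + 1 / r0 + A.be / A.b * r0 with hη0
  set η1 : ℝ := Real.exp (-A.v) + Real.sqrt e with hη1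
  have hη00 : 0 ≤ η0 := by positivity
  have hη04 : η0 ≤ 4 := by rw [hη0]; linarith
  have hη10 : 0 ≤ η1 := by positivity
  have hη12 : η1 ≤ 2 := by rw [hη1]; linarith
  have hg : 0 ≤ A.Gs V / A.be := div_nonneg (hG0 V) hbe.le
  have h5 : ε + 1 / r0 + 1 / r0 + A.be / A.b * (r0 + r0) ≤ (Cm + 2) * η0 + D1 * η1 := by
    have i1 : 0 ≤ Cm * (1 / r0 + A.be / A.b * r0) := by positivity
    have i2 : 0 ≤ 2 * (1 / (A.p0 : ℝ) + 1 / A.v) := by positivity
    rw [hε, hη0]
    linarith
  have h6 : K ≤ K0 + K1 * η1 := by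
    rw [hKK]
    have : K1 * Real.sqrt e ≤ K1 * η1 := mul_le_mul_of_nonneg_left (by rw [hη1]; linarith) hK10
    linarith
  have h7 : ((Cm + 2) * η0 + D1 * η1) * (K0 + K1 * η1) ≤
      (Cm + 2) * K0 * η0 + (D1 * K0 + 4 * (Cm + 2) * K1 + 2 * D1 * K1) * η1 := by
    have i1 : (Cm + 2) * K1 * η1 * η0 ≤ (Cm + 2) * K1 * η1 * 4 :=
      mul_le_mul_of_nonneg_left hη04 (by positivity)
    have i2 : D1 * K1 * η1 * η1 ≤ D1 * K1 * η1 * 2 :=
      mul_le_mul_of_nonneg_left hη12 (by positivity)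
    have i3 : ((Cm + 2) * η0 + D1 * η1) * (K0 + K1 * η1) = (Cm + 2) * K0 * η0 + D1 * K0 * η1 +
        (Cm + 2) * K1 * η1 * η0 + D1 * K1 * η1 * η1 := by ring
    rw [i3]
    linarith
  have h8 : 0 ≤ (Cm + 2) * η0 + D1 * η1 := by positivity
  calc Cc * (ε + 1 / r0 + 1 / r0 + A.be / A.b * (r0 + r0)) * (K * (A.Gs V / A.be))
      = Cc * ((ε + 1 / r0 + 1 / r0 + A.be / A.b * (r0 + r0)) * K) * (A.Gs V / A.be) := by ring
    _ ≤ Cc * (((Cm + 2) * η0 + D1 * η1) * (K0 + K1 * η1)) * (A.Gs V / A.be) := by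
        refine mul_le_mul_of_nonneg_right (mul_le_mul_of_nonneg_left ?_ (by linarith)) hg
        exact mul_le_mul h5 h6 (by linarith) h8
    _ ≤ Cc * ((Cm + 2) * K0 * η0 + (D1 * K0 + 4 * (Cm + 2) * K1 + 2 * D1 * K1) * η1) *
          (A.Gs V / A.be) :=
        mul_le_mul_of_nonneg_right (mul_le_mul_of_nonneg_left h7 (by linarith)) hg
    _ = _ := by ring

end Pool.Agent.Lib.G2
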