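import Mathlib
import Pool.Agent.Lib.MP_f9aece_nt_g2.StmtsZ

/-!
The law of `log |zeta|` under the measure `|zeta| ^ 2`: the levels of the parameters (for H0, H1).

* `lev_Yf`, `lev_S`, `lev_r`, `lev_P`: group `g` of level `i` is group `i + g`;
* `lev_Xt_succ`, `lev_Xt_single`, `lev_good_single`, `lev_good_succ`: two consecutive levels;
* `lev_U`, `lev_vt`: the primes and the variance of a level; `lev_ok`, `lev_len`: the standing
  assumptions of a level.
-/

set_option autoImplicit false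

namespace Pool.Agent.Lib.G2

open MeasureTheory Set Filter Topology Complex ProbabilityTheory
open scoped ComplexConjugate
open Pool.Agent.Lib.GT

section lev

variable {A : Par} {i j g : ℕ} {x : Om}

theorem lev_Yf (A : Par) (i g : ℕ) : (lev A i).Yf g = A.Yf (i + g) := by
  show A.Y * Real.exp (-((A.v : ℝ) * i)) * Real.exp (-((A.v : ℝ) * g)) = _
  unfold Par.Yf
  rw [mul_assoc, ← Real.exp_add]
  congr 2
  push_cast
  ring

theorem lev_S (A : Par) (i g : ℕ) : (lev A i).S g = A.S (i + g) := by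
  unfold Par.S
  rw [lev_Yf, lev_Yf]
  rfl

theorem lev_r (A : Par) (i g : ℕ) : (lev A i).r g = A.r (i + g) := by
  show A.v * (g + 1 + (A.i + i)) = A.v * (i + g + 1 + A.i)
  congr 1
  omega

theorem lev_P (A : Par) (i g : ℕ) (x : Om) : (lev A i).P g x = A.P (i + g) x := by
  unfold Par.P
  rw [lev_S]
  rfl

theorem lev_zero (A : Par) : lev A 0 = A := by
  obtain ⟨v, p0, J, i, Y, sg, be, b⟩ := A
  unfold lev Par.Yf
  simp

theorem Yf_anti (hY : 0 < A.Y) (h : i ≤ j) : A.Yf j ≤ A.Yf i := by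
  unfold Par.Yf
  refine mul_le_mul_of_nonneg_left (Real.exp_le_exp.2 (neg_le_neg ?_)) hY.le
  have : (i : ℝ) ≤ j := by exact_mod_cast h
  exact mul_le_mul_of_nonneg_left this (Nat.cast_nonneg _)

theorem lev_Xt (hj : j < A.J) : (lev A j).Xt ∅ x = (A.P j x).re + (lev A (j + 1)).Xt ∅ x := by
  unfold Par.Xt
  have e : (lev A j).J = (lev A (j + 1)).J + 1 := by
    have e1 : (lev A j).J = A.J - j := rfl
    have e2 : (lev A (j + 1)).J = A.J - (j + 1) := rfl
    omega
  rw [Finset.sdiff_empty, Finset.sdiff_empty, e, Finset.sum_range_succ', add_comm]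
  congr 1
  · rw [lev_P]; rfl
  · refine Finset.sum_congr rfl fun g _ => ?_
    rw [lev_P, lev_P, show j + (g + 1) = j + 1 + g by omega]

theorem lev_Xt_single (hj : j < A.J) : (lev A j).Xt {0} x = (lev A (j + 1)).Xt ∅ x := by
  have h1 := lev_Xt (x := x) hj
  have h0 : (0 : ℕ) ∈ Finset.range (lev A j).J := Finset.mem_range.2 (by
    show 0 < A.J - j
    omega)
  have h2 : (lev A j).Xt {0} x + ((lev A j).P 0 x).re = (lev A j).Xt ∅ x := by
    unfold Par.Xt
    rw [Finset.sdiff_empty, Finset.sdiff_singleton_eq_erase, add_comm]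
    exact Finset.add_sum_erase _ (fun g => ((lev A j).P g x).re) h0
  rw [lev_P, Nat.add_zero] at h2
  linarith

theorem lev_good_single (hj : j < A.J) (h : (lev A (j + 1)).Good ∅ x) : (lev A j).Good {0} x := by
  intro g hg
  rw [Finset.mem_sdiff, Finset.mem_range, Finset.mem_singleton] at hg
  obtain ⟨hg1, hg2⟩ := hg
  change g < A.J - j at hg1
  obtain ⟨g', rfl⟩ := Nat.exists_eq_succ_of_ne_zero hg2
  have h1 := h g' (by
    rw [Finset.sdiff_empty, Finset.mem_range]
    show g' < A.J - (j + 1)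
    omega)
  rw [lev_P, lev_r] at h1 ⊢
  rwa [show j + 1 + g' = j + g'.succ by omega] at h1

theorem lev_good_succ (hj : j < A.J) (h : (lev A (j + 1)).Good ∅ x)
    (h0 : ‖A.P j x‖ ≤ RR (A.r j)) : (lev A j).Good ∅ x := by
  intro g hg
  rcases Nat.eq_zero_or_pos g with rfl | hg0
  · rw [lev_P, lev_r, Nat.add_zero]
    exact h0
  · refine lev_good_single hj h g ?_
    rw [Finset.sdiff_empty] at hg
    rw [Finset.mem_sdiff, Finset.mem_singleton]
    exact ⟨hg, by omega⟩

/-- a good level whose predecessor has a bad set of groups: group `0` of the predecessor is bad -/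
theorem lev_bad_single (hj : j < A.J) (h : (lev A (j + 1)).Good ∅ x) (h0 : ¬ (lev A j).Good ∅ x) :
    (lev A j).Bad {0} x := by
  intro g hg
  rw [Finset.mem_singleton] at hg
  subst hg
  rw [lev_P, lev_r, Nat.add_zero]
  by_contra hc
  exact h0 (lev_good_succ hj h (not_lt.1 hc))

/-- the primes of a level -/
theorem lev_U (h6 : GroupNum) (hA : A.Ok) (i : ℕ) (p : ℕ) :
    p ∈ (lev A i).U ↔ p.Prime ∧ A.p0 < p ∧ (p : ℝ) ≤ Real.exp (A.Yf i) := by
  obtain ⟨h1, -, -, h4, -⟩ := h6 A hA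
  have hY : 0 < A.Y := by linarith [hA.hY]
  constructor
  · intro hp
    unfold Par.U at hp
    rw [Finset.mem_biUnion] at hp
    obtain ⟨g, -, hg2⟩ := hp
    rw [lev_S] at hg2
    obtain ⟨q1, -, q3, q4⟩ := h1 _ _ hg2
    exact ⟨q1, q3, q4.trans (Real.exp_le_exp.2 (Yf_anti hY (Nat.le_add_right _ _)))⟩
  · rintro ⟨q1, q2, q3⟩
    have q4 : p ∈ A.U := (h4 p).2 ⟨q1, q2, q3.trans (Real.exp_le_exp.2 (by
      have := Yf_anti hY (Nat.zero_le i)
      unfold Par.Yf at this ⊢
      simpa using this))⟩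
    unfold Par.U at q4 ⊢
    rw [Finset.mem_biUnion] at q4 ⊢
    obtain ⟨g, hg1, hg2⟩ := q4
    rw [Finset.mem_range] at hg1
    have q5 : i ≤ g := by
      by_contra hc
      rw [not_le] at hc
      have q6 : Real.exp (A.Yf (g + 1)) < p := by
        unfold Par.S at hg2
        exact (Finset.mem_filter.1 hg2).2.2.2
      have q7 := Real.exp_le_exp.2 (Yf_anti (A := A) hY (show g + 1 ≤ i by omega))
      linarith
    refine ⟨g - i, Finset.mem_range.2 ?_, ?_⟩
    · show g - i < A.J - i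
      omega
    · rw [lev_S, Nat.add_sub_of_le q5]
      exact hg2

theorem lev_vt_le (h6 : GroupNum) (hA : A.Ok) (i : ℕ) : (lev A i).vt ≤ A.vt := by
  unfold Par.vt
  refine Finset.sum_le_sum_of_subset_of_nonneg ?_ fun p _ _ => sq_nonneg _
  intro p hp
  have h1 := (lev_U h6 hA i p).1 hp
  have h0 := lev_U h6 hA 0 p
  rw [lev_zero] at h0
  have hY : 0 < A.Y := by linarith [hA.hY]
  exact h0.2 ⟨h1.1, h1.2.1, h1.2.2.trans (Real.exp_le_exp.2 (Yf_anti hY (Nat.zero_le i)))⟩

/-- the variance of a level -/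
theorem lev_vt {C : ℝ} (h6 : GroupNum) (hA : A.Ok)
    (hC : ∀ A : Par, 1000 ≤ A.p0 → 1 ≤ A.Y →
      (∀ p, p ∈ A.U ↔ p.Prime ∧ A.p0 < p ∧ (p : ℝ) ≤ Real.exp A.Y) →
      |A.vt - Real.log A.Y| ≤ C + Real.log A.p0) (hi : 1 ≤ A.Yf i) :
    |(lev A i).vt - Real.log (A.Yf i)| ≤ C + Real.log A.p0 :=
  hC (lev A i) hA.hp hi (lev_U h6 hA i)

theorem one_lt_log_thousand {p0 : ℕ} (hp : 1000 ≤ p0) : 1 < Real.log p0 := by
  rw [Real.lt_log_iff_exp_lt (by positivity)]
  have h1 := Real.exp_one_lt_d9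
  have h2 : (1000 : ℝ) ≤ p0 := by exact_mod_cast hp
  linarith

theorem lev_ok (hA : A.Ok) (hi : i < A.J) (hs : 1 ≤ (lev A i).s2) : (lev A i).Ok where
  hv := hA.hv
  hp := hA.hp
  hY := by
    have h1 := hA.hJ.2 i hi
    have h2 := one_lt_log_thousand hA.hp
    show 1 ≤ A.Yf i
    linarith
  hJ := by
    refine ⟨?_, fun g hg => ?_⟩
    · rw [lev_Yf]
      show A.Yf (i + (A.J - i)) ≤ Real.log A.p0
      rw [Nat.add_sub_of_le hi.le]
      exact hA.hJ.1
    · rw [lev_Yf]
      refine hA.hJ.2 _ ?_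
      change g < A.J - i at hg
      omega
  hsg := hA.hsg
  hbe := hA.hbe
  hbb := hA.hbb
  hb := hA.hb
  hs := hs

/-- the length of a level -/
noncomputable def elev (A : Par) (T : ℝ) (i : ℕ) : ℝ := 10 ^ 10 * (lev A i).KY / Real.log T

theorem lev_KY (A : Par) (i : ℕ) (h0 : A.i = 0) : (lev A i).KY = A.v * (i + 1) * A.Yf i := by
  unfold Par.KY
  show (A.v : ℝ) * (((A.i + i : ℕ) : ℝ) + 1) * A.Yf i = _
  rw [h0, Nat.zero_add]

/-- the lengths of a level, if `A.Y = log T / M` -/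
theorem lev_len {T M : ℝ} (hA : A.Ok) (h0 : A.i = 0) (hT : 3 ≤ T)
    (hM : 10 ^ 20 * Real.exp A.v ≤ M) (hY : A.Y = Real.log T / M)
    (hi : Real.log T ^ (1 / 2 : ℝ) ≤ A.Yf i) : Len (lev A i) T (elev A T i) := by
  have hlog : 1 ≤ Real.log T := by
    rw [Real.le_log_iff_exp_le (by linarith)]
    have := Real.exp_one_lt_d9
    linarith
  have hlog0 : 0 < Real.log T := by linarith
  have hv : (1 : ℝ) ≤ A.v := by
    have : 1 ≤ A.v := le_trans (by norm_num) hA.hv
    exact_mod_cast this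
  have hM0 : 0 < M := lt_of_lt_of_le (by positivity) hM
  have hYi : 0 < A.Yf i := lt_of_lt_of_le (by positivity) hi
  have hKY := lev_KY A i h0
  have hi0 : (0 : ℝ) ≤ i := Nat.cast_nonneg _
  have hKY0 : A.Yf i ≤ (lev A i).KY := by
    rw [hKY]
    have : (1 : ℝ) ≤ A.v * (i + 1) := by nlinarith
    nlinarith
  refine ⟨?_, ?_, hT, ?_, ?_⟩
  · unfold elev
    have : 0 < (lev A i).KY := hYi.trans_le hKY0
    positivity
  · unfold elev
    rw [hKY]
    have e1 : A.Yf i = Real.log T / M * Real.exp (-((A.v : ℝ) * i)) := by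
      unfold Par.Yf
      rw [hY]
    rw [e1]
    have e2 : 10 ^ 10 * (A.v * (i + 1) * (Real.log T / M * Real.exp (-((A.v : ℝ) * i)))) / Real.log T
        = 10 ^ 10 * (A.v * (i + 1) * Real.exp (-((A.v : ℝ) * i))) / M := by
      field_simp
    rw [e2, div_le_iff₀ hM0]
    have e3 : (A.v : ℝ) * (i + 1) * Real.exp (-((A.v : ℝ) * i)) ≤ Real.exp A.v := by
      have e4 := Real.add_one_le_exp ((A.v : ℝ) * (i + 1))
      have e5 : Real.exp A.v = Real.exp ((A.v : ℝ) * (i + 1)) * Real.exp (-((A.v : ℝ) * i)) := by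
        rw [← Real.exp_add]
        congr 1
        ring
      rw [e5]
      exact mul_le_mul_of_nonneg_right (by linarith) (Real.exp_nonneg _)
    calc 10 ^ 10 * (A.v * (i + 1) * Real.exp (-((A.v : ℝ) * i))) ≤ 10 ^ 10 * Real.exp A.v := by
          gcongr
      _ ≤ 1 / 100 * (10 ^ 20 * Real.exp A.v) := by
          have := Real.exp_pos (A.v : ℝ)
          nlinarith
      _ ≤ 1 / 100 * M := by gcongr
  · unfold elev
    rw [div_mul_cancel₀ _ hlog0.ne']
  · unfold elev
    rw [div_mul_cancel₀ _ hlog0.ne']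
    have e1 : Real.log T ^ 1000 = Real.exp (1000 * Real.log (Real.log T)) := by
      rw [show (1000 : ℝ) = ((1000 : ℕ) : ℝ) by norm_num, ← Real.log_pow,
        Real.exp_log (by positivity)]
    rw [e1]
    refine Real.exp_le_exp.2 ?_
    have e2 : Real.log (Real.log T) ≤ 2 * Real.log T ^ (1 / 2 : ℝ) := by
      have e3 : Real.log (Real.log T) = 2 * Real.log (Real.log T ^ (1 / 2 : ℝ)) := by
        rw [Real.log_rpow hlog0]
        ring
      rw [e3]
      have e4 := Real.log_le_sub_one_of_pos (show 0 < Real.log T ^ (1 / 2 : ℝ) by positivity)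
      linarith
    have e5 : 0 ≤ Real.log T ^ (1 / 2 : ℝ) := by positivity
    calc 1000 * Real.log (Real.log T) ≤ 1000 * (2 * Real.log T ^ (1 / 2 : ℝ)) := by gcongr
      _ ≤ 10 ^ 10 * Real.log T ^ (1 / 2 : ℝ) := by nlinarith
      _ ≤ 10 ^ 10 * A.Yf i := by gcongr
      _ ≤ 10 ^ 10 * (lev A i).KY := by gcongr

end lev

end Pool.Agent.Lib.G2
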