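import Mathlib
import Pool.Agent.Lib.MP_f9aece_nt_g2.Lev

/-!
The law of `log |zeta|` under the measure `|zeta| ^ 2`: module H1, upper bound for the large values.
-/

set_option autoImplicit false

namespace Pool.Agent.Lib.G2

open MeasureTheory Set Filter Topology Complex ProbabilityTheory
open scoped ComplexConjugate
open Pool.Agent.Lib.GT

private lemma cont_lin (S : Finset ℕ) (c : ℕ → ℂ) : Continuous fun t : ℝ => lin S c (om t) := by
  have h : Continuous fun x : Om => lin S c x := by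
    unfold lin
    fun_prop
  exact h.comp continuous_om

private lemma cont_mo (A : Par) (μ : ℂ) (s : Finset ℕ) : Continuous fun t : ℝ => A.mo μ s (om t) := by
  unfold Par.mo
  refine continuous_finsetProd _ fun g _ => ?_
  have h : Continuous fun t : ℝ => A.P g (om t) := cont_lin _ _
  unfold tex
  fun_prop

private lemma cont_ze : Continuous ze := by
  unfold ze
  rw [continuous_iff_continuousAt]
  intro t
  have h1 : (1 / 2 + I * t : ℂ) ≠ 1 := by
    intro h
    have := congrArg Complex.re h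
    norm_num at this
  have h2 : ContinuousAt (fun t : ℝ => (1 / 2 + I * t : ℂ)) t := by fun_prop
  exact ContinuousAt.comp (g := riemannZeta) (f := fun t : ℝ => (1 / 2 + I * t : ℂ))
    (differentiableAt_riemannZeta h1).continuousAt h2

private lemma meas_dens (T : ℝ) : Measurable fun t : ℝ => ENNReal.ofReal (‖ze t‖ ^ 2 / Real.log T) :=
  ENNReal.measurable_ofReal.comp (((cont_ze.norm.pow 2).div_const _).measurable)

private lemma lint_nu (x T : ℝ) (f : ℝ → ENNReal) : ∫⁻ t, f t ∂(nu x T)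
    = ∫⁻ t, f t * ENNReal.ofReal (‖ze t‖ ^ 2 / Real.log T) ∂(un x T) := by
  unfold nu
  rw [lintegral_withDensity_eq_lintegral_mul_non_measurable _ (meas_dens T)
    (Filter.Eventually.of_forall fun t => ENNReal.ofReal_lt_top)]
  refine lintegral_congr fun t => ?_
  rw [Pi.mul_apply, mul_comm]

private lemma nu_apply (x : ℝ) {T : ℝ} (hT : 0 < T) (S : Set ℝ) : nu x T S
    = ∫⁻ t in S, ENNReal.ofReal (‖ze t‖ ^ 2 / Real.log T) ∂(un x T) := by
  have : IsProbabilityMeasure (un x T) := prob_un x hT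
  unfold nu
  exact withDensity_apply' _ _

private lemma nu_fin (x : ℝ) {T : ℝ} (hT : 0 < T) : IsFiniteMeasure (nu x T) := by
  refine ⟨?_⟩
  rw [nu_apply x hT, Measure.restrict_univ]
  unfold un
  rw [lintegral_smul_measure]
  refine ENNReal.mul_lt_top ?_ ?_
  · rw [ENNReal.inv_lt_top]
    exact ENNReal.ofReal_pos.2 hT
  · exact setLIntegral_lt_top_of_isCompact (by rw [Real.volume_Icc]; exact ENNReal.ofReal_ne_top)
      isCompact_Icc (f := fun t => Real.toNNReal (‖ze t‖ ^ 2 / Real.log T))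
      (continuous_real_toNNReal.comp ((cont_ze.norm.pow 2).div_const _))

private lemma Gs_eq (A : Par) (y : ℝ) : A.Gs y = Real.exp (A.be * (A.sg * A.vt)) * A.G y := by
  unfold Par.Gs Par.G
  rw [mul_left_comm, ← Real.exp_add]
  congr 2
  ring

/-! ### numbers -/

private lemma le_five_exp (x : ℝ) : 1 + x ≤ 5 * Real.exp (x / 5) := by
  have := Real.add_one_le_exp (x / 5)
  linarith

private lemma exp_neg_le (i : ℕ) : Real.exp (-(i : ℝ)) ≤ (1 / 2) ^ i := by
  have h1 : Real.exp (-1 : ℝ) ≤ 1 / 2 := by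
    rw [Real.exp_neg, inv_eq_one_div]
    have := Real.add_one_le_exp (1 : ℝ)
    exact one_div_le_one_div_of_le (by norm_num) (by linarith)
  calc Real.exp (-(i : ℝ)) = Real.exp (-1) ^ i := by
        rw [← Real.exp_nat_mul]
        congr 1
        ring
    _ ≤ (1 / 2) ^ i := pow_le_pow_left₀ (Real.exp_nonneg _) h1 i

private lemma xx_ge {v : ℝ} (hv : 4 ≤ v) (j : ℕ) : v ≤ v * (j + 1) ∧ 4 * ((j : ℝ) + 1) ≤ v * (j + 1) := by
  have h : (0 : ℝ) ≤ j := Nat.cast_nonneg _
  constructor <;> nlinarith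

private lemma numA {v : ℝ} (hv : 4 ≤ v) (j : ℕ) :
    Real.exp (-(v * (j + 1))) * ((1 + v * (j + 1)) * Real.exp (v * (j + 1) / 1000))
      ≤ 5 * Real.exp (-(v / 2)) * (1 / 2) ^ (j + 1) := by
  obtain ⟨h1, h2⟩ := xx_ge hv j
  set x := v * (j + 1) with hx
  have hx0 : 0 ≤ x := by linarith
  have h3 := le_five_exp x
  have h4 := exp_neg_le (j + 1)
  push_cast at h4
  calc Real.exp (-x) * ((1 + x) * Real.exp (x / 1000))
      ≤ Real.exp (-x) * (5 * Real.exp (x / 5) * Real.exp (x / 1000)) := by gcongr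
    _ = 5 * Real.exp (-x + (x / 5 + x / 1000)) := by rw [Real.exp_add, Real.exp_add]; ring
    _ ≤ 5 * Real.exp (-(v / 2) + -((j : ℝ) + 1)) :=
        mul_le_mul_of_nonneg_left (Real.exp_le_exp.2 (by linarith)) (by norm_num)
    _ = 5 * Real.exp (-(v / 2)) * Real.exp (-((j : ℝ) + 1)) := by rw [Real.exp_add]; ring
    _ ≤ _ := by gcongr

private lemma numB {v : ℝ} (hv : 4 ≤ v) (j : ℕ) :
    v * (j + 1) * Real.exp (-(v * (j + 1))) * ((1 + v * (j + 1)) * Real.exp (v * (j + 1) / 1000))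
      ≤ 25 * (1 / 2) ^ (j + 1) := by
  obtain ⟨h1, h2⟩ := xx_ge hv j
  set x := v * (j + 1) with hx
  have hx0 : 0 ≤ x := by linarith
  have h3 := le_five_exp x
  have h5 : x ≤ 5 * Real.exp (x / 5) := by linarith
  have h4 := exp_neg_le (j + 1)
  push_cast at h4
  calc x * Real.exp (-x) * ((1 + x) * Real.exp (x / 1000))
      ≤ 5 * Real.exp (x / 5) * Real.exp (-x) * (5 * Real.exp (x / 5) * Real.exp (x / 1000)) := by
        gcongr
    _ = 25 * Real.exp (x / 5 + (-x + (x / 5 + x / 1000))) := by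
        rw [Real.exp_add, Real.exp_add, Real.exp_add]; ring
    _ ≤ 25 * Real.exp (-((j : ℝ) + 1)) := by
        gcongr
        linarith
    _ ≤ _ := by gcongr

private lemma numC {v : ℝ} (hv : 4 ≤ v) (j : ℕ) :
    Real.exp (-(2 * (v * (j + 1)))) * ((1 + v * (j + 1)) * Real.exp (v * (j + 1) / 1000))
      ≤ 5 * (1 / 2) ^ (j + 1) := by
  obtain ⟨h1, h2⟩ := xx_ge hv j
  set x := v * (j + 1) with hx
  have hx0 : 0 ≤ x := by linarith
  have h3 := le_five_exp x
  have h4 := exp_neg_le (j + 1)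
  push_cast at h4
  calc Real.exp (-(2 * x)) * ((1 + x) * Real.exp (x / 1000))
      ≤ Real.exp (-(2 * x)) * (5 * Real.exp (x / 5) * Real.exp (x / 1000)) := by gcongr
    _ = 5 * Real.exp (-(2 * x) + (x / 5 + x / 1000)) := by
        rw [Real.exp_add, Real.exp_add]; ring
    _ ≤ 5 * Real.exp (-((j : ℝ) + 1)) :=
        mul_le_mul_of_nonneg_left (Real.exp_le_exp.2 (by linarith)) (by norm_num)
    _ ≤ _ := by gcongr

private lemma num3 {C2 C3 x F q E u : ℝ} (h2 : 0 ≤ C2) (h3 : 0 ≤ C3) (hE : 0 ≤ E) (hE1 : E ≤ 1)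
    (hu : 0 ≤ u) (hq : 0 ≤ q) (n1 : Real.exp (-x) * F ≤ 5 * u * q)
    (n2 : x * Real.exp (-x) * F ≤ 25 * q) (n3 : Real.exp (-(2 * x)) * F ≤ 5 * q) :
    (C2 * Real.exp (-x) + C3 * (10 ^ 10 * (x * Real.exp (-x)) * E + Real.exp (-(2 * x)) * E ^ 2)) * F
      ≤ 10 ^ 12 * (C2 + C3) * (u + E) * q := by
  have a1 : C2 * (Real.exp (-x) * F) ≤ C2 * (5 * u * q) := mul_le_mul_of_nonneg_left n1 h2
  have a2 : C3 * E * (x * Real.exp (-x) * F) ≤ C3 * E * (25 * q) :=
    mul_le_mul_of_nonneg_left n2 (mul_nonneg h3 hE)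
  have a3 : C3 * E ^ 2 * (Real.exp (-(2 * x)) * F) ≤ C3 * E ^ 2 * (5 * q) :=
    mul_le_mul_of_nonneg_left n3 (mul_nonneg h3 (sq_nonneg _))
  have a4 : C3 * E ^ 2 * (5 * q) ≤ C3 * E * (5 * q) := by
    have : E ^ 2 ≤ E := by nlinarith
    exact mul_le_mul_of_nonneg_right (mul_le_mul_of_nonneg_left this h3) (by linarith)
  have a8 : 0 ≤ C2 * (u * q) := mul_nonneg h2 (mul_nonneg hu hq)
  have a9 : 0 ≤ C3 * (u * q) := mul_nonneg h3 (mul_nonneg hu hq)
  have a10 : 0 ≤ C2 * (E * q) := mul_nonneg h2 (mul_nonneg hE hq)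
  have a11 : 0 ≤ C3 * (E * q) := mul_nonneg h3 (mul_nonneg hE hq)
  have e1 : (C2 * Real.exp (-x) + C3 * (10 ^ 10 * (x * Real.exp (-x)) * E
      + Real.exp (-(2 * x)) * E ^ 2)) * F = C2 * (Real.exp (-x) * F)
      + 10 ^ 10 * (C3 * E * (x * Real.exp (-x) * F)) + C3 * E ^ 2 * (Real.exp (-(2 * x)) * F) := by
    ring
  have e2 : 10 ^ 12 * (C2 + C3) * (u + E) * q = 10 ^ 12 * (C2 * (u * q)) + 10 ^ 12 * (C3 * (u * q))
      + 10 ^ 12 * (C2 * (E * q)) + 10 ^ 12 * (C3 * (E * q)) := by ring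
  have e3 : C2 * (5 * u * q) = 5 * (C2 * (u * q)) := by ring
  have e4 : C3 * E * (25 * q) = 25 * (C3 * (E * q)) := by ring
  have e5 : C3 * E * (5 * q) = 5 * (C3 * (E * q)) := by ring
  rw [e1, e2]
  rw [e3] at a1
  rw [e4] at a2
  rw [e5] at a4
  linarith

private lemma sum_half (n : ℕ) : ∑ j ∈ Finset.range n, (1 / 2 : ℝ) ^ (j + 1) ≤ 1 := by
  have h : ∀ n : ℕ, ∑ j ∈ Finset.range n, (1 / 2 : ℝ) ^ (j + 1) = 1 - (1 / 2) ^ n := by
    intro n
    induction n with
    | zero => simp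
    | succ n ih =>
      rw [Finset.sum_range_succ, ih, pow_succ]
      ring
  rw [h]
  have : (0 : ℝ) ≤ (1 / 2) ^ n := by positivity
  linarith

/-- the sizes of the windows at two levels -/
private lemma Gs_lev {A : Par} {j : ℕ} {C' V D : ℝ} (h6 : GroupNum) (hA : A.Ok) (hsg : A.sg = 1)
    (hC' : 0 ≤ C') (h0 : |A.vt - Real.log A.Y| ≤ C')
    (hj : |(lev A j).vt - Real.log (A.Yf j)| ≤ C') (hs : 1 ≤ (lev A j).s2) :
    (lev A j).Gs (V - D) ≤ (1 + C' + A.v * j) * (Real.exp (A.be * D) * A.Gs V) := by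
  have hY : 0 < A.Y := by linarith [hA.hY]
  have hbe := hA.hbe
  have hvt := lev_vt_le h6 hA j
  have hj0 : (0 : ℝ) ≤ A.v * j := by positivity
  set B : ℝ := 1 + C' + A.v * j with hB
  have hB1 : 1 ≤ B := by linarith
  have hlY : Real.log (A.Yf j) = Real.log A.Y - A.v * j := by
    unfold Par.Yf
    rw [Real.log_mul hY.ne' (Real.exp_pos _).ne', Real.log_exp]
    ring
  have h1 : A.s2 ≤ B ^ 2 * (lev A j).s2 := by
    have e1 : A.vt ≤ (lev A j).vt + (A.v * j + 2 * C') := by
      rw [abs_le] at h0 hj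
      linarith [h0.1, h0.2, hj.1, hj.2]
    have e2 : A.s2 ≤ (lev A j).s2 + (A.v * j + 2 * C') / 2 := by
      unfold Par.s2
      linarith
    have e3 : (lev A j).s2 + (A.v * j + 2 * C') / 2 ≤ B * (lev A j).s2 := by
      have : (A.v * j + C') * 1 ≤ (A.v * j + C') * (lev A j).s2 :=
        mul_le_mul_of_nonneg_left hs (by linarith)
      have e4 : B * (lev A j).s2 = (lev A j).s2 + (A.v * j + C') * (lev A j).s2 := by
        rw [hB]; ring
      rw [e4]
      linarith
    have e5 : B * (lev A j).s2 ≤ B ^ 2 * (lev A j).s2 := by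
      have : B ≤ B ^ 2 := by nlinarith
      exact mul_le_mul_of_nonneg_right this (by linarith)
    linarith
  have hs0 : 0 < (lev A j).s2 := by linarith
  have hA0 : 0 < A.s2 := by linarith [hA.hs]
  have h2 : 1 / Real.sqrt (lev A j).s2 ≤ B * (1 / Real.sqrt A.s2) := by
    have e3 : Real.sqrt A.s2 ≤ B * Real.sqrt (lev A j).s2 := by
      calc Real.sqrt A.s2 ≤ Real.sqrt (B ^ 2 * (lev A j).s2) := Real.sqrt_le_sqrt h1
        _ = B * Real.sqrt (lev A j).s2 := by
            rw [Real.sqrt_mul (sq_nonneg _), Real.sqrt_sq (by linarith)]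
    have e4 : 0 < Real.sqrt A.s2 := Real.sqrt_pos.2 hA0
    have e5 : 0 < Real.sqrt (lev A j).s2 := Real.sqrt_pos.2 hs0
    rw [mul_one_div, div_le_div_iff₀ e5 e4]
    linarith
  have h3 : Real.exp (-(A.be * (V - D - (lev A j).vt)) + A.be ^ 2 * (lev A j).s2 / 2)
      ≤ Real.exp (A.be * D) * Real.exp (-(A.be * (V - A.vt)) + A.be ^ 2 * A.s2 / 2) := by
    rw [← Real.exp_add]
    refine Real.exp_le_exp.2 ?_
    have e6 : A.be * (lev A j).vt ≤ A.be * A.vt := mul_le_mul_of_nonneg_left hvt hbe.le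
    have e7 : A.be ^ 2 * (lev A j).s2 ≤ A.be ^ 2 * A.s2 := by
      refine mul_le_mul_of_nonneg_left ?_ (sq_nonneg _)
      unfold Par.s2
      linarith
    nlinarith
  have e8 : (lev A j).Gs (V - D) = 1 / Real.sqrt (lev A j).s2
      * Real.exp (-(A.be * (V - D - (lev A j).vt)) + A.be ^ 2 * (lev A j).s2 / 2) := by
    unfold Par.Gs Par.G
    have : (lev A j).sg = 1 := hsg
    rw [this, one_mul]
    rfl
  have e9 : A.Gs V = 1 / Real.sqrt A.s2
      * Real.exp (-(A.be * (V - A.vt)) + A.be ^ 2 * A.s2 / 2) := by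
    unfold Par.Gs Par.G
    rw [hsg, one_mul]
  rw [e8, e9]
  calc 1 / Real.sqrt (lev A j).s2
      * Real.exp (-(A.be * (V - D - (lev A j).vt)) + A.be ^ 2 * (lev A j).s2 / 2)
      ≤ (B * (1 / Real.sqrt A.s2))
        * (Real.exp (A.be * D) * Real.exp (-(A.be * (V - A.vt)) + A.be ^ 2 * A.s2 / 2)) := by
        gcongr
    _ = _ := by ring

/-- a good level: a large value of zeta gives a large prime sum -/
private lemma good_big {A : Par} {s : Finset ℕ} {t V k : ℝ}
    (hm : 1 / 2 * Real.exp (2 * (-1) * A.Xt s (om t)) ≤ ‖A.mo (-1) s (om t)‖ ^ 2)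
    (hk : ‖ze t‖ * ‖A.mo (-1) s (om t)‖ ≤ Real.exp k) (hV : Real.exp V < ‖ze t‖) :
    V - k - 1 < A.Xt s (om t) := by
  have h0 := Real.exp_pos V
  have h1 : Real.exp V ^ 2 * ‖A.mo (-1) s (om t)‖ ^ 2 ≤ Real.exp k ^ 2 := by
    rw [← mul_pow]
    refine pow_le_pow_left₀ (by positivity) (le_trans ?_ hk) 2
    exact mul_le_mul_of_nonneg_right hV.le (norm_nonneg _)
  have h2 : Real.exp (2 * V) * (1 / 2 * Real.exp (2 * (-1) * A.Xt s (om t))) ≤ Real.exp (2 * k) := by
    have e1 : Real.exp (2 * V) = Real.exp V ^ 2 := by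
      rw [← Real.exp_nat_mul]; norm_num
    have e2 : Real.exp (2 * k) = Real.exp k ^ 2 := by
      rw [← Real.exp_nat_mul]; norm_num
    rw [e1, e2]
    exact (mul_le_mul_of_nonneg_left hm (sq_nonneg _)).trans h1
  have h3 : Real.exp (2 * V - 2 * A.Xt s (om t)) < Real.exp (2 + 2 * k) := by
    have e3 : Real.exp (2 * V - 2 * A.Xt s (om t))
        = Real.exp (2 * V) * Real.exp (2 * (-1) * A.Xt s (om t)) := by
      rw [← Real.exp_add]
      congr 1
      ring
    have e4 : (2 : ℝ) < Real.exp 2 := by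
      have := Real.add_one_le_exp (2 : ℝ)
      linarith
    rw [e3, Real.exp_add]
    have e5 := Real.exp_pos (2 * k)
    have e6 : Real.exp (2 * V) * Real.exp (2 * (-1) * A.Xt s (om t)) ≤ 2 * Real.exp (2 * k) := by
      have e7 : Real.exp (2 * V) * Real.exp (2 * (-1) * A.Xt s (om t))
          = 2 * (Real.exp (2 * V) * (1 / 2 * Real.exp (2 * (-1) * A.Xt s (om t)))) := by ring
      rw [e7]
      exact mul_le_mul_of_nonneg_left h2 (by norm_num)
    exact e6.trans_lt (mul_lt_mul_of_pos_right e4 e5)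
  have h4 := Real.exp_lt_exp.1 h3
  linarith

set_option maxHeartbeats 4000000 in
/-- H1 -/
theorem nuUpper (h1 : TiltUp) (h2 : NuUp) (h3 : NuUI) (h4 : LastLevel) (h5 : WPoint)
    (h6 : GroupNum) (h7 : Variance) : NuUpper := by
  classical
  intro p0 hp0
  obtain ⟨C1, v1, hC1, H1⟩ := h1
  obtain ⟨C2, T2, hC2, hT2, H2⟩ := h2 p0 hp0
  obtain ⟨C3, T3, hC3, hT3, H3⟩ := h3 p0 hp0
  obtain ⟨v4, H4⟩ := h4 p0 hp0
  obtain ⟨C5, D5, v5, -, -, H5⟩ := h5
  obtain ⟨⟨CN, hCN, H7⟩, -⟩ := h7
  have hlp : 1 < Real.log p0 := one_lt_log_thousand hp0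
  set C' : ℝ := CN + Real.log p0 with hC'
  have hC'0 : 0 ≤ C' := by linarith
  refine ⟨3 * 10 ^ 12 * (C1 * (1 + C') * (C2 + C3)), max v1 (max v4 (max v5 4)), ?_, ?_⟩
  · have e1 : 1 ≤ C1 * (1 + C') := by nlinarith
    have e2 : 1 ≤ C1 * (1 + C') * (C2 + C3) := by nlinarith
    linarith
  intro v hv M hM
  have hv1 : v1 ≤ v := (le_max_left _ _).trans hv
  have hv4 : v4 ≤ v := ((le_max_left _ _).trans (le_max_right _ _)).trans hv
  have hv5 : v5 ≤ v :=
    (((le_max_left _ _).trans (le_max_right _ _)).trans (le_max_right _ _)).trans hv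
  have hvR : (4 : ℝ) ≤ v := by
    have : 4 ≤ v :=
      (((le_max_right _ _).trans (le_max_right _ _)).trans (le_max_right _ _)).trans hv
    exact_mod_cast this
  have hev : 1 ≤ Real.exp v := Real.one_le_exp (by linarith)
  have hM1 : 10 ^ 20 ≤ M := le_trans (by nlinarith) hM
  have hM0 : 0 < M := by linarith
  obtain ⟨T4, hT4, H4⟩ := H4 v hv4 M (by linarith)
  set R : ℝ := max M (max (Real.log p0 + 1) (Real.exp (2 + C'))) with hR
  refine ⟨max (Real.exp (R ^ 2)) (max T2 (max T3 T4)), le_max_of_le_right (le_max_of_le_left hT2), ?_⟩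
  intro A hA hAv hAp hAi hsg hbe8 T hT hAY x V hx
  have hTR : Real.exp (R ^ 2) ≤ T := (le_max_left _ _).trans hT
  have hT2' : T2 ≤ T := ((le_max_left _ _).trans (le_max_right _ _)).trans hT
  have hT3' : T3 ≤ T :=
    (((le_max_left _ _).trans (le_max_right _ _)).trans (le_max_right _ _)).trans hT
  have hT4' : T4 ≤ T :=
    (((le_max_right _ _).trans (le_max_right _ _)).trans (le_max_right _ _)).trans hT
  have hT1 : 3 ≤ T := hT2.trans hT2'
  have hT0 : 0 < T := by linarith
  have hlogR : R ^ 2 ≤ Real.log T := by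
    rw [Real.le_log_iff_exp_le hT0]
    exact hTR
  have hlog : 0 < Real.log T := Real.log_pos (by linarith)
  set Lh : ℝ := Real.log T ^ (1 / 2 : ℝ) with hLh
  have hLh0 : 0 < Lh := by positivity
  have hRM : M ≤ R := le_max_left _ _
  have hR0 : 0 ≤ R := by linarith
  have hRL : R ≤ Lh := by
    rw [hLh, ← Real.sqrt_eq_rpow]
    exact Real.le_sqrt_of_sq_le hlogR
  have hLhM : M ≤ Lh := hRM.trans hRL
  have hLhp : Real.log p0 < Lh := by
    have : Real.log p0 + 1 ≤ R := (le_max_left _ _).trans (le_max_right _ _)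
    linarith
  have hLhe : Real.exp (2 + C') ≤ Lh :=
    ((le_max_right _ _).trans (le_max_right _ _)).trans hRL
  have hLh1 : 1 ≤ Lh := by linarith
  have hLh2 : Lh * Lh = Real.log T := by
    rw [hLh, ← Real.sqrt_eq_rpow]
    exact Real.mul_self_sqrt hlog.le
  have hbe := hA.hbe
  have hY : 0 < A.Y := by linarith [hA.hY]
  have : IsProbabilityMeasure (un x T) := prob_un x hT0
  have hfin : IsFiniteMeasure (nu x T) := nu_fin x hT0
  have hlM : 1 ≤ Real.log M := by
    rw [Real.le_log_iff_exp_le hM0]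
    have := Real.exp_one_lt_d9
    linarith
  have hMv : 10 ^ 20 * Real.exp A.v ≤ M := by rw [hAv]; exact hM
  -- the sizes of the levels
  have hratio : ∀ i : ℕ, Real.log T / A.Yf i = Real.exp (Real.log M + v * i) := by
    intro i
    unfold Par.Yf
    rw [hAY, hAv, Real.exp_add, Real.exp_log hM0, Real.exp_neg]
    field_simp
  have hJL : ∀ i : ℕ, Lh ≤ A.Yf i → i < A.J := by
    intro i hi
    by_contra hc
    rw [not_lt] at hc
    have e1 := Yf_anti (A := A) hY hc
    have e2 := hA.hJ.1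
    rw [hAp] at e2
    linarith
  have hvt : ∀ i : ℕ, Lh ≤ A.Yf i → |(lev A i).vt - Real.log (A.Yf i)| ≤ C' := by
    intro i hi
    have := lev_vt (C := CN) h6 hA H7 (hLh1.trans hi)
    rwa [hAp] at this
  have hs2 : ∀ i : ℕ, Lh ≤ A.Yf i → 1 ≤ (lev A i).s2 := by
    intro i hi
    have e1 := hvt i hi
    have e2 : 2 + C' ≤ Real.log (A.Yf i) := by
      rw [Real.le_log_iff_exp_le (by linarith)]
      linarith
    rw [abs_le] at e1
    unfold Par.s2
    linarith [e1.1]
  have hok : ∀ i : ℕ, Lh ≤ A.Yf i → (lev A i).Ok := fun i hi => lev_ok hA (hJL i hi) (hs2 i hi)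
  have hlen : ∀ i : ℕ, Lh ≤ A.Yf i → Len (lev A i) T (elev A T i) := fun i hi =>
    lev_len hA hAi hT1 hMv hAY hi
  have h00 : Lh ≤ A.Yf 0 := by
    have e1 : A.Yf 0 = Real.log T / M := by
      unfold Par.Yf
      rw [hAY]
      simp
    rw [e1, le_div_iff₀ hM0, ← hLh2]
    exact mul_le_mul_of_nonneg_left hLhM hLh0.le
  -- the last level
  have hex : ∃ i : ℕ, A.Yf i < Lh := by
    refine ⟨A.J, ?_⟩
    have e2 := hA.hJ.1
    rw [hAp] at e2
    linarith
  obtain ⟨I, hI1, hI2⟩ : ∃ I : ℕ, (∀ i ≤ I, Lh ≤ A.Yf i) ∧ A.Yf (I + 1) < Lh := by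
    have e1 := Nat.find_spec hex
    have e2 : Nat.find hex ≠ 0 := by
      intro h
      rw [h] at e1
      linarith
    obtain ⟨I, hI⟩ := Nat.exists_eq_succ_of_ne_zero e2
    refine ⟨I, fun i hi => ?_, ?_⟩
    · exact not_lt.1 (Nat.find_min hex (by omega))
    · rw [hI] at e1
      exact e1
  have hI3 : A.Yf I ≤ Real.exp v * Lh := by
    have e1 : A.Yf I = Real.exp v * A.Yf (I + 1) := by
      unfold Par.Yf
      rw [hAv, mul_left_comm, ← Real.exp_add]
      congr 2
      push_cast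
      ring
    rw [e1]
    exact mul_le_mul_of_nonneg_left hI2.le (Real.exp_nonneg _)
  have hlast := H4 A hA hAv hAp hAi T hT4' hAY x hx I (hI1 I le_rfl) hI3
  -- the sets
  set D : ℕ → ℝ := fun j => 6 * (Real.log M + v * (j + 1)) + 1 + 10000 * (v * (j + 1)) with hD
  set gd : ℕ → ℝ → Prop := fun i t => (lev A i).Good ∅ (om t) ∧
    ‖ze t‖ * ‖(lev A i).mo (-1) ∅ (om t)‖ ≤ (Real.log T / A.Yf i) ^ 6 with hgd
  set SA : ℕ → Set ℝ := fun j => {t | (lev A j).Good {0} (om t) ∧ (lev A j).Bad {0} (om t) ∧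
    V - D j < (lev A j).X {0} (om t)} with hSA
  set BB : ℕ → Set ℝ := fun j => {t | (Real.log T / A.Yf j) ^ 6
    < ‖ze t‖ * ‖(lev A j).mo (-1) ∅ (om t)‖} with hBB
  set SC : ℕ → Set ℝ := fun j => {t | (lev A j).Good ∅ (om t) ∧ (lev A j).Bad ∅ (om t) ∧
    V - D j < (lev A j).X ∅ (om t)} with hSC
  have hBBm : ∀ j, MeasurableSet (BB j) := fun j =>
    (isOpen_lt continuous_const (cont_ze.norm.mul (cont_mo _ _ _).norm)).measurableSet
  have hXeq : ∀ (i : ℕ) (s : Finset ℕ) (t : ℝ), (lev A i).X s (om t) = (lev A i).Xt s (om t) := by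
    intro i s t
    unfold Par.X
    have : (lev A i).sg = 1 := hsg
    rw [this, one_mul]
  have hbig : ∀ i ≤ I, ∀ t, gd i t → Real.exp V < ‖ze t‖ →
      V - 6 * (Real.log M + v * i) - 1 < (lev A i).Xt ∅ (om t) := by
    intro i hi t ht hV
    have hYi := hI1 i hi
    have e1 := ((H5 (lev A i) (hok i hYi) (by show v5 ≤ A.v; rw [hAv]; exact hv5) ∅
      (Finset.empty_subset _) (om t) ht.1 (fun g hg => by simp at hg)).2.2.2.2 (-1)
        (Or.inr rfl)).1
    rw [show (((-1 : ℝ)) : ℂ) = -1 by push_cast; rfl] at e1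
    refine good_big e1 (le_of_le_of_eq ht.2 ?_) hV
    rw [hratio, ← Real.exp_nat_mul]
    norm_num
  -- the covering
  have cov : {t : ℝ | Real.exp V < ‖ze t‖} ⊆ {t : ℝ | A.Good ∅ (om t) ∧
      V - 8 * Real.log M < A.X ∅ (om t)} ∪ ({t | ¬((lev A I).Good ∅ (om t) ∧
        ‖ze t‖ * ‖(lev A I).mo (-1) ∅ (om t)‖ ≤ (Real.log T / A.Yf I) ^ 6)} ∪
        ((⋃ j ∈ Finset.range I, SA j) ∪ ⋃ j ∈ Finset.range I, BB j ∩ SC j)) := by
    intro t ht
    by_cases hg : ∃ i, i ≤ I ∧ gd i t
    · obtain ⟨hi1, hi2⟩ := Nat.find_spec hg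
      have hmin : ∀ k, k < Nat.find hg → ¬ (k ≤ I ∧ gd k t) := fun k hk => Nat.find_min hg hk
      generalize Nat.find hg = i at hi1 hi2 hmin
      have hb := hbig i hi1 t hi2 ht
      rcases Nat.eq_zero_or_pos i with rfl | hi0
      · left
        have e1 := hi2.1
        rw [lev_zero] at e1 hb
        refine ⟨e1, ?_⟩
        have e2 := hXeq 0 ∅ t
        rw [lev_zero] at e2
        rw [e2]
        push_cast at hb
        linarith
      · obtain ⟨j, rfl⟩ := Nat.exists_eq_succ_of_ne_zero hi0.ne'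
        have hjI : j ∈ Finset.range I := Finset.mem_range.2 (by omega)
        have hjJ : j < A.J := hJL j (hI1 j (by omega))
        have hng := hmin j (Nat.lt_succ_self j)
        have hv0 : (0 : ℝ) ≤ v * (j + 1) := by positivity
        have hb' : V - 6 * (Real.log M + v * (j + 1)) - 1 < (lev A (j + 1)).Xt ∅ (om t) := by
          have := hb
          push_cast at this
          exact this
        by_cases hG : (lev A j).Good ∅ (om t)
        · -- the size of zeta is bad
          have hK : t ∈ BB j := by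
            by_contra hc
            exact hng ⟨by omega, hG, not_lt.1 hc⟩
          refine Or.inr (Or.inr (Or.inr ?_))
          simp only [Set.mem_iUnion]
          refine ⟨j, hjI, hK, hG, fun g hg' => by simp at hg', ?_⟩
          rw [hXeq, lev_Xt hjJ]
          have e3 : ‖A.P j (om t)‖ ≤ 10000 * (v * (j + 1)) := by
            have e4 := hG 0 (by
              rw [Finset.sdiff_empty, Finset.mem_range]
              show 0 < A.J - j
              omega)
            rw [lev_P, lev_r, Nat.add_zero] at e4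
            unfold RR Par.r at e4
            rw [hAi, hAv] at e4
            push_cast at e4
            linarith
          have e5 := neg_le_of_abs_le (Complex.abs_re_le_norm (A.P j (om t)))
          simp only [hD]
          linarith
        · -- group `j` is bad
          refine Or.inr (Or.inr (Or.inl ?_))
          simp only [Set.mem_iUnion]
          refine ⟨j, hjI, lev_good_single hjJ hi2.1, lev_bad_single hjJ hi2.1 hG, ?_⟩
          rw [hXeq, lev_Xt_single hjJ]
          simp only [hD]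
          linarith
    · refine Or.inr (Or.inl fun hc => hg ⟨I, le_rfl, hc⟩)
  -- the tilt
  have tilt : ∀ j ∈ Finset.range I, ∀ s ⊆ Finset.range (lev A j).J, ∀ κ : ℝ, 0 ≤ κ →
      ∀ H : ℝ → ENNReal, Measurable H →
      (∀ y : ℝ, ∫⁻ t, ENNReal.ofReal ((lev A j).W s y (om t)) * H t ∂(un x T)
        ≤ ENNReal.ofReal (κ * (lev A j).Gs y)) →
      ∫⁻ t in {t | (lev A j).Good s (om t) ∧ (lev A j).Bad s (om t) ∧
        V - D j < (lev A j).X s (om t)}, H t ∂(un x T)
        ≤ ENNReal.ofReal (C1 * κ * ((lev A j).Gs (V - D j) / A.be)) := by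
    intro j hj s hs κ hκ H hHm hH
    rw [Finset.mem_range] at hj
    have e1 := H1 (lev A j) (hok j (hI1 j hj.le)) (by show v1 ≤ A.v; rw [hAv]; exact hv1) s hs x T
      (κ * Real.exp ((lev A j).be * ((lev A j).sg * (lev A j).vt))) hT0 (by positivity) H hHm
      (fun y => (hH y).trans (ENNReal.ofReal_le_ofReal (le_of_eq (by rw [Gs_eq]; ring)))) (V - D j)
    refine e1.trans (ENNReal.ofReal_le_ofReal (le_of_eq ?_))
    rw [Gs_eq]
    have : (lev A j).be = A.be := rfl
    rw [this]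
    ring
  have bA : ∀ j ∈ Finset.range I, nu x T (SA j)
      ≤ ENNReal.ofReal (C1 * (C2 * Real.exp (-(v * (j + 1)))) * ((lev A j).Gs (V - D j) / A.be)) := by
    intro j hj
    have hj' := Finset.mem_range.1 hj
    have hYj := hI1 j hj'.le
    have hs : ({0} : Finset ℕ) ⊆ Finset.range (lev A j).J := by
      rw [Finset.singleton_subset_iff, Finset.mem_range]
      have := hJL j hYj
      show 0 < A.J - j
      omega
    rw [nu_apply x hT0]
    refine tilt j hj {0} hs _ (by positivity) _ (meas_dens T) fun y => ?_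
    have e1 : ∫⁻ t, ENNReal.ofReal ((lev A j).W {0} y (om t)) ∂(nu x T)
        ≤ ENNReal.ofReal (C2 * Real.exp (-∑ g ∈ ({0} : Finset ℕ), ((lev A j).r g : ℝ))
          * (lev A j).Gs y) :=
      H2 (lev A j) (hok j hYj) hAp T _ hT2' (hlen j hYj) x y hx {0} {0} (Finset.Subset.refl _) hs
    rw [lint_nu, Finset.sum_singleton, lev_r, Nat.add_zero] at e1
    have e2 : ((A.r j : ℕ) : ℝ) = v * (j + 1) := by
      unfold Par.r
      rw [hAi, hAv]
      push_cast
      ring
    rwa [e2] at e1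
  have bB : ∀ j ∈ Finset.range I, nu x T (BB j ∩ SC j)
      ≤ ENNReal.ofReal (C1 * (C3 * (elev A T j + (Real.log T / A.Yf j) ^ 10
        / ((Real.log T / A.Yf j) ^ 6) ^ 2)) * ((lev A j).Gs (V - D j) / A.be)) := by
    intro j hj
    have hj' := Finset.mem_range.1 hj
    have hYj := hI1 j hj'.le
    have hL := hlen j hYj
    have hK1 : 1 ≤ (Real.log T / A.Yf j) ^ 6 := by
      rw [hratio]
      exact one_le_pow₀ (Real.one_le_exp (by positivity))
    have he : 0 < elev A T j := hL.he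
    have hYj0 : 0 < A.Yf j := hLh0.trans_le hYj
    rw [nu_apply x hT0, ← setLIntegral_indicator (hBBm j)]
    refine tilt j hj ∅ (Finset.empty_subset _) _ (by positivity) _
      ((meas_dens T).indicator (hBBm j)) fun y => ?_
    have e1 := H3 (lev A j) (hok j hYj) hAp T _ hT3' hL x y _ hx hK1
    rw [← lintegral_indicator (hBBm j), lint_nu] at e1
    refine le_of_eq_of_le (lintegral_congr fun t => ?_) e1
    by_cases ht : t ∈ BB j
    · rw [Set.indicator_of_mem ht, Set.indicator_of_mem ht]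
    · rw [Set.indicator_of_notMem ht, Set.indicator_of_notMem ht]
      simp
  -- the numbers
  set Z : ℝ := (Real.exp (-(v / 2)) + Real.exp v / M) * Real.exp (8 * (A.be * Real.log M))
    * (A.Gs V / A.be) with hZ
  have hGs0 : 0 ≤ A.Gs V := by unfold Par.Gs Par.G; positivity
  have num : ∀ j ∈ Finset.range I,
      C1 * (C2 * Real.exp (-(v * (j + 1)))) * ((lev A j).Gs (V - D j) / A.be)
        + C1 * (C3 * (elev A T j + (Real.log T / A.Yf j) ^ 10 / ((Real.log T / A.Yf j) ^ 6) ^ 2))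
          * ((lev A j).Gs (V - D j) / A.be)
      ≤ 3 * 10 ^ 12 * (C1 * (1 + C') * (C2 + C3)) * Z * (1 / 2) ^ (j + 1) := by
    intro j hj
    have hj' := Finset.mem_range.1 hj
    have hYj := hI1 j hj'.le
    have hj0 : (0 : ℝ) ≤ j := Nat.cast_nonneg _
    set xx : ℝ := v * (j + 1) with hxx
    have hxx0 : 0 ≤ xx := by positivity
    have hevM : Real.exp v / M ≤ 1 := by
      rw [div_le_one hM0]
      nlinarith
    have hevM0 : 0 < Real.exp v / M := by positivity
    have h00' : |A.vt - Real.log A.Y| ≤ C' := by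
      have := hvt 0 h00
      rw [lev_zero] at this
      have e0 : A.Yf 0 = A.Y := by
        unfold Par.Yf
        simp
      rwa [e0] at this
    have g1 : (lev A j).Gs (V - D j) ≤ (1 + C' + A.v * j) * (Real.exp (A.be * D j) * A.Gs V) :=
      Gs_lev h6 hA hsg hC'0 h00' (hvt j hYj) (hs2 j hYj)
    have g2 : Real.exp (A.be * D j)
        ≤ Real.exp (xx / 1000) * (3 * Real.exp (8 * (A.be * Real.log M))) := by
      have e1 : A.be * D j ≤ xx / 1000 + 1 + 8 * (A.be * Real.log M) := by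
        have e2 : A.be * xx ≤ 1 / 10 ^ 8 * xx := mul_le_mul_of_nonneg_right hbe8 hxx0
        have e3 : 0 ≤ A.be * Real.log M := by positivity
        have e4 : A.be * D j = 6 * (A.be * Real.log M) + 10006 * (A.be * xx) + A.be := by
          simp only [hD]
          rw [hxx]
          ring
        rw [e4]
        norm_num at e2 hbe8
        linarith
      calc Real.exp (A.be * D j) ≤ Real.exp (xx / 1000 + 1 + 8 * (A.be * Real.log M)) :=
            Real.exp_le_exp.2 e1
        _ = Real.exp (xx / 1000) * (Real.exp 1 * Real.exp (8 * (A.be * Real.log M))) := by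
            rw [Real.exp_add, Real.exp_add]; ring
        _ ≤ _ := by
            have := Real.exp_one_lt_d9
            gcongr
            linarith
    have g3 : 1 + C' + A.v * j ≤ (1 + C') * (1 + xx) := by
      rw [hAv]
      have : (v : ℝ) * j ≤ xx := by rw [hxx]; nlinarith
      nlinarith
    have g4 : (lev A j).Gs (V - D j) / A.be ≤ (1 + C') * 3 * ((1 + xx) * Real.exp (xx / 1000))
        * (Real.exp (8 * (A.be * Real.log M)) * (A.Gs V / A.be)) := by
      rw [div_le_iff₀ hbe]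
      refine g1.trans ?_
      calc (1 + C' + A.v * j) * (Real.exp (A.be * D j) * A.Gs V)
          ≤ ((1 + C') * (1 + xx)) * ((Real.exp (xx / 1000)
            * (3 * Real.exp (8 * (A.be * Real.log M)))) * A.Gs V) := by gcongr
        _ = _ := by
            field_simp
    have k1 : elev A T j = 10 ^ 10 * (xx * Real.exp (-xx)) * (Real.exp v / M) := by
      unfold elev
      rw [lev_KY A j hAi]
      have e1 : A.Yf j = Real.log T / M * (Real.exp (-xx) * Real.exp v) := by
        unfold Par.Yf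
        rw [hAY, hAv, ← Real.exp_add]
        congr 2
        rw [hxx]
        ring
      rw [e1, hAv, hxx]
      field_simp
    have k2 : (Real.log T / A.Yf j) ^ 10 / ((Real.log T / A.Yf j) ^ 6) ^ 2
        = Real.exp (-(2 * xx)) * (Real.exp v / M) ^ 2 := by
      have e1 : Real.log T / A.Yf j ≠ 0 := by
        rw [hratio]
        exact (Real.exp_pos _).ne'
      have e2 : (Real.log T / A.Yf j) ^ 10 / ((Real.log T / A.Yf j) ^ 6) ^ 2
          = ((Real.log T / A.Yf j) ^ 2)⁻¹ := by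
        field_simp
      rw [e2, hratio, ← Real.exp_nat_mul, ← Real.exp_neg, div_pow, ← Real.exp_nat_mul]
      have e3 : M ^ 2 = Real.exp (2 * Real.log M) := by
        rw [show (2 : ℝ) = ((2 : ℕ) : ℝ) by norm_num, ← Real.log_pow, Real.exp_log (by positivity)]
      rw [e3, ← Real.exp_sub, ← Real.exp_add]
      congr 1
      rw [hxx]
      push_cast
      ring
    have n1 := numA hvR j
    have n2 := numB hvR j
    have n3 := numC hvR j
    rw [← hxx] at n1 n2 n3
    set F : ℝ := (1 + xx) * Real.exp (xx / 1000) with hF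
    have hF0 : 0 ≤ F := by positivity
    set q : ℝ := (1 / 2) ^ (j + 1) with hq
    have hq0 : 0 ≤ q := by positivity
    set κ : ℝ := C2 * Real.exp (-xx)
      + C3 * (10 ^ 10 * (xx * Real.exp (-xx)) * (Real.exp v / M)
        + Real.exp (-(2 * xx)) * (Real.exp v / M) ^ 2) with hκ
    have hκ0 : 0 ≤ κ := by positivity
    have k3 : κ * F ≤ 10 ^ 12 * (C2 + C3) * (Real.exp (-(v / 2)) + Real.exp v / M) * q :=
      num3 (by linarith) (by linarith) hevM0.le hevM (Real.exp_nonneg _) hq0 n1 n2 n3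
    rw [k1, k2]
    set E8 : ℝ := Real.exp (8 * (A.be * Real.log M)) * (A.Gs V / A.be) with hE8
    have hE80 : 0 ≤ E8 := by positivity
    calc C1 * (C2 * Real.exp (-xx)) * ((lev A j).Gs (V - D j) / A.be)
        + C1 * (C3 * (10 ^ 10 * (xx * Real.exp (-xx)) * (Real.exp v / M)
          + Real.exp (-(2 * xx)) * (Real.exp v / M) ^ 2)) * ((lev A j).Gs (V - D j) / A.be)
        = C1 * κ * ((lev A j).Gs (V - D j) / A.be) := by rw [hκ]; ring
      _ ≤ C1 * κ * ((1 + C') * 3 * F * E8) := by gcongr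
      _ = 3 * (C1 * (1 + C')) * E8 * (κ * F) := by ring
      _ ≤ 3 * (C1 * (1 + C')) * E8 * (10 ^ 12 * (C2 + C3)
          * (Real.exp (-(v / 2)) + Real.exp v / M) * q) := by gcongr
      _ = _ := by rw [hZ, hE8]; ring
  -- the assembly
  set CC : ℝ := 3 * 10 ^ 12 * (C1 * (1 + C') * (C2 + C3)) with hCC
  have hCC0 : 0 ≤ CC := by positivity
  have hZ0 : 0 ≤ Z := by positivity
  have hGj : ∀ j, 0 ≤ (lev A j).Gs (V - D j) / A.be := fun j => by
    have : 0 ≤ (lev A j).Gs (V - D j) := by unfold Par.Gs Par.G; positivity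
    positivity
  have tot : nu x T ((⋃ j ∈ Finset.range I, SA j) ∪ ⋃ j ∈ Finset.range I, BB j ∩ SC j)
      ≤ ENNReal.ofReal (CC * Z) := by
    refine (measure_union_le _ _).trans ?_
    refine (add_le_add (measure_biUnion_finset_le _ _) (measure_biUnion_finset_le _ _)).trans ?_
    rw [← Finset.sum_add_distrib]
    have e1 : ∀ j ∈ Finset.range I, nu x T (SA j) + nu x T (BB j ∩ SC j)
        ≤ ENNReal.ofReal (CC * Z * (1 / 2) ^ (j + 1)) := by
      intro j hj
      refine (add_le_add (bA j hj) (bB j hj)).trans ?_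
      have hj' := Finset.mem_range.1 hj
      have he : 0 < elev A T j := (hlen j (hI1 j hj'.le)).he
      have hYj0 : 0 < A.Yf j := hLh0.trans_le (hI1 j hj'.le)
      have := hGj j
      rw [← ENNReal.ofReal_add (by positivity) (by positivity)]
      exact ENNReal.ofReal_le_ofReal (num j hj)
    refine (Finset.sum_le_sum e1).trans ?_
    rw [← ENNReal.ofReal_sum_of_nonneg (fun j _ => by positivity)]
    refine ENNReal.ofReal_le_ofReal ?_
    rw [← Finset.mul_sum]
    exact mul_le_of_le_one_right (by positivity) (sum_half I)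
  have fin : nu x T {t : ℝ | Real.exp V < ‖ze t‖} ≤
      nu x T {t | A.Good ∅ (om t) ∧ V - 8 * Real.log M < A.X ∅ (om t)}
        + ENNReal.ofReal (Real.log T ^ (-(1 / 8) : ℝ) + CC * Z) := by
    refine (measure_mono cov).trans ((measure_union_le _ _).trans ?_)
    gcongr
    refine (measure_union_le _ _).trans ?_
    rw [ENNReal.ofReal_add (by positivity) (by positivity)]
    exact add_le_add hlast tot
  have fin2 := ENNReal.toReal_mono (by finiteness) fin
  rw [ENNReal.toReal_add (by finiteness) ENNReal.ofReal_ne_top, ENNReal.toReal_ofReal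
    (by positivity)] at fin2
  refine fin2.trans (le_of_eq ?_)
  rw [hZ]
  ring

end Pool.Agent.Lib.G2
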