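import Mathlib
import Pool.Agent.Lib.MP_f9aece_nt_g2.StmtsZ

/-!
The law of `log |zeta|` under the measure `|zeta| ^ 2`: module H2, lower bound for the large values.
-/

set_option autoImplicit false

namespace Pool.Agent.Lib.G2

open MeasureTheory Set Filter Topology Complex ProbabilityTheory
open scoped ComplexConjugate
open Pool.Agent.Lib.GT

namespace H2

lemma cont_lin (S : Finset ℕ) (c : ℕ → ℂ) : Continuous fun t : ℝ => lin S c (om t) := by
  have h : Continuous fun x : Om => lin S c x := by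
    unfold lin
    fun_prop
  exact h.comp continuous_om

lemma cont_mo (A : Par) (μ : ℂ) (s : Finset ℕ) : Continuous fun t : ℝ => A.mo μ s (om t) := by
  unfold Par.mo
  refine continuous_finsetProd _ fun g _ => ?_
  have h : Continuous fun t : ℝ => A.P g (om t) := cont_lin _ _
  unfold tex
  fun_prop

lemma cont_ze : Continuous ze := by
  unfold ze
  rw [continuous_iff_continuousAt]
  intro t
  have h1 : (1 / 2 + I * t : ℂ) ≠ 1 := by
    intro h
    have := congrArg Complex.re h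
    norm_num at this
  have h2 : ContinuousAt (fun t : ℝ => (1 / 2 + I * t : ℂ)) t := by fun_prop
  exact ContinuousAt.comp (g := riemannZeta) (f := fun t : ℝ => (1 / 2 + I * t : ℂ))
    (differentiableAt_riemannZeta h1).continuousAt h2

/-- the measure `|zeta| ^ 2 / log T` is finite -/
lemma nu_lt_top (x : ℝ) {T : ℝ} (hT : 0 < T) (E : Set ℝ) : nu x T E < ⊤ := by
  have hp := prob_un x hT
  have hc : Continuous fun t : ℝ => ‖ze t‖ ^ 2 / Real.log T := by
    have := cont_ze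
    fun_prop
  obtain ⟨B, hB⟩ := (isCompact_Icc (a := x) (b := x + T)).exists_bound_of_continuousOn hc.continuousOn
  refine lt_of_le_of_lt (measure_mono (subset_univ E)) ?_
  unfold nu
  rw [withDensity_apply _ MeasurableSet.univ, Measure.restrict_univ]
  have h1 : ∀ᵐ t ∂(un x T), ENNReal.ofReal (‖ze t‖ ^ 2 / Real.log T) ≤ ENNReal.ofReal B := by
    unfold un
    refine Measure.ae_smul_measure ?_ _
    refine (ae_restrict_iff' measurableSet_Icc).2 (Eventually.of_forall fun t ht => ?_)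
    exact ENNReal.ofReal_le_ofReal ((le_abs_self _).trans (hB t ht))
  calc ∫⁻ t, ENNReal.ofReal (‖ze t‖ ^ 2 / Real.log T) ∂(un x T)
      ≤ ∫⁻ _t, ENNReal.ofReal B ∂(un x T) := lintegral_mono_ae h1
    _ = ENNReal.ofReal B := by rw [lintegral_const, measure_univ, mul_one]
    _ < ⊤ := ENNReal.ofReal_lt_top

lemma nu_apply (x : ℝ) {T : ℝ} (hT : 0 < T) (E : Set ℝ) :
    nu x T E = ∫⁻ t in E, ENNReal.ofReal (‖ze t‖ ^ 2 / Real.log T) ∂(un x T) := by
  have hp := prob_un x hT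
  unfold nu
  exact withDensity_apply' _ _

/-- the windows under the measure `|zeta| ^ 2` -/
lemma Gs_eq (A : Par) (y : ℝ) : A.Gs y = Real.exp (A.be * (A.sg * A.vt)) * A.G y := by
  unfold Par.Gs Par.G
  rw [show -(A.be * (y - A.sg * A.vt)) + A.be ^ 2 * A.s2 / 2
    = A.be * (A.sg * A.vt) + (-(A.be * y) + A.be ^ 2 * A.s2 / 2) by ring, Real.exp_add]
  ring

lemma G_nonneg (A : Par) (y : ℝ) : 0 ≤ A.G y := by
  unfold Par.G
  positivity

lemma Gs_nonneg (A : Par) (y : ℝ) : 0 ≤ A.Gs y := G_nonneg A _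

lemma Gs_anti {A : Par} (hA : A.Ok) {y y' : ℝ} (h : y ≤ y') : A.Gs y' ≤ A.Gs y := by
  unfold Par.Gs Par.G
  refine mul_le_mul_of_nonneg_left (Real.exp_le_exp.2 ?_) (by positivity)
  have := mul_le_mul_of_nonneg_left h hA.hbe.le
  linarith

/-- from a set with an exceptional part to real numbers -/
lemma toReal_split {x T : ℝ} (hT : 0 < T) {E F B : Set ℝ} {c : ℝ} (h : E ⊆ F ∪ B)
    (hB : nu x T B ≤ ENNReal.ofReal c) (hc : 0 ≤ c) :
    (nu x T E).toReal ≤ (nu x T F).toReal + c := by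
  have h1 : nu x T E ≤ nu x T F + ENNReal.ofReal c :=
    (measure_mono h).trans ((measure_union_le _ _).trans (add_le_add le_rfl hB))
  have h2 := ENNReal.toReal_mono (by
    exact ENNReal.add_ne_top.2 ⟨(nu_lt_top x hT F).ne, ENNReal.ofReal_ne_top⟩) h1
  rwa [ENNReal.toReal_add (nu_lt_top x hT F).ne ENNReal.ofReal_ne_top, ENNReal.toReal_ofReal hc] at h2

end H2

open H2

/-- H2: lower bound for the large values -/
theorem nuLower (h1 : TiltUp) (h2 : MoUp) (h3 : WPoint) : NuLower := by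
  intro p0 hp0
  obtain ⟨Ct, v1, hCt, ht⟩ := h1
  obtain ⟨Cm, T0, hCm, hT0, hm⟩ := h2 p0 hp0
  obtain ⟨Cw, C1, v2, hCw, hC1, hw⟩ := h3
  refine ⟨2 * (Ct * Cm), T0, max v1 v2, ?_, hT0, ?_⟩
  · have : 1 ≤ Ct * Cm := one_le_mul_of_one_le_of_one_le hCt hCm
    linarith
  intro A hA hv hAp hsg T e hT hL x V κ hκ
  have hTp : 0 < T := by linarith
  have hlog : 0 < Real.log T := Real.log_pos (by linarith)
  have hm' := hm A hA hAp T e hT hL x
  have hY : 0 ≤ A.Y := by linarith [hA.hY]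
  set κ' : ℝ := Cm * (A.Y * Real.exp (A.be * (A.sg * A.vt))) with hκ'
  have hκ0 : 0 ≤ κ' := by positivity
  have hH : Measurable fun t : ℝ => ENNReal.ofReal (‖A.mo 1 ∅ (om t)‖ ^ 2) := by
    have := cont_mo A 1 ∅
    exact ENNReal.measurable_ofReal.comp (by fun_prop : Continuous fun t : ℝ => ‖A.mo 1 ∅ (om t)‖ ^ 2).measurable
  have hW0 : ∀ y t, 0 ≤ A.W ∅ y (om t) := fun y t => by
    unfold Par.W Par.Wg
    have hc0 : 0 ≤ c0 := by
      unfold c0
      exact integral_nonneg fun _ => by positivity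
    have hb : 0 ≤ A.b := by linarith [hA.hbe, hA.hbb]
    simp only [Finset.prod_empty, mul_one]
    positivity
  have hup := ht A hA (le_trans (le_max_left _ _) hv) ∅ (Finset.empty_subset _) x T κ' hTp hκ0 _ hH
    (fun y => by
      have h4 := hm' y ∅ (Finset.empty_subset _)
      simp only [Finset.sum_empty, neg_zero, Real.exp_zero, mul_one] at h4
      calc ∫⁻ t, ENNReal.ofReal (A.W ∅ y (om t)) * ENNReal.ofReal (‖A.mo 1 ∅ (om t)‖ ^ 2) ∂(un x T)
          = ∫⁻ t, ENNReal.ofReal (A.W ∅ y (om t) * ‖A.mo 1 ∅ (om t)‖ ^ 2) ∂(un x T) := by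
            refine lintegral_congr fun t => ?_
            rw [ENNReal.ofReal_mul (hW0 y t)]
        _ ≤ _ := h4
        _ = ENNReal.ofReal (κ' * A.G y) := by
            congr 1
            rw [hκ', Gs_eq]
            ring) (V + κ)
  set B : Set ℝ := {t | A.Good ∅ (om t) ∧ V + κ < A.X ∅ (om t) ∧ ‖ze t‖ ≤ Real.exp V} with hB
  have hsplit : {t | A.Good ∅ (om t) ∧ V + κ < A.X ∅ (om t)} ⊆ {t | Real.exp V < ‖ze t‖} ∪ B := by
    rintro t ⟨h5, h6⟩
    by_cases h7 : Real.exp V < ‖ze t‖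
    · exact Or.inl h7
    · exact Or.inr ⟨h5, h6, not_lt.1 h7⟩
  refine toReal_split hTp hsplit ?_ (by
    have := Gs_nonneg A V
    have := hA.hbe
    positivity)
  have hbd : ∀ t ∈ B, ENNReal.ofReal (‖ze t‖ ^ 2 / Real.log T) ≤
      ENNReal.ofReal (2 / Real.log T) * ENNReal.ofReal (‖A.mo 1 ∅ (om t)‖ ^ 2) := by
    rintro t ⟨h5, h6, h7⟩
    rw [← ENNReal.ofReal_mul (by positivity)]
    refine ENNReal.ofReal_le_ofReal ?_
    have h8 := ((hw A hA (le_trans (le_max_right _ _) hv) ∅ (Finset.empty_subset _) (om t) h5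
      (fun g hg => absurd hg (Finset.notMem_empty g))).2.2.2.2 1 (Or.inl rfl)).1
    have h9 : A.X ∅ (om t) = A.Xt ∅ (om t) := by
      unfold Par.X
      rw [hsg, one_mul]
    rw [h9] at h6
    have h10 : ‖ze t‖ ^ 2 ≤ Real.exp (2 * 1 * A.Xt ∅ (om t)) := by
      calc ‖ze t‖ ^ 2 ≤ Real.exp V ^ 2 := pow_le_pow_left₀ (norm_nonneg _) h7 2
        _ = Real.exp (2 * V) := by rw [← Real.exp_nat_mul]; norm_num
        _ ≤ _ := Real.exp_le_exp.2 (by linarith)
    have h11 : ‖ze t‖ ^ 2 ≤ 2 * ‖A.mo 1 ∅ (om t)‖ ^ 2 := by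
      have h8' : 1 / 2 * Real.exp (2 * 1 * A.Xt ∅ (om t)) ≤ ‖A.mo 1 ∅ (om t)‖ ^ 2 := by
        simpa using h8
      calc ‖ze t‖ ^ 2 ≤ Real.exp (2 * 1 * A.Xt ∅ (om t)) := h10
        _ = 2 * (1 / 2 * Real.exp (2 * 1 * A.Xt ∅ (om t))) := by ring
        _ ≤ 2 * ‖A.mo 1 ∅ (om t)‖ ^ 2 := mul_le_mul_of_nonneg_left h8' (by norm_num)
    rw [div_mul_eq_mul_div]
    exact div_le_div_of_nonneg_right h11 hlog.le
  have hsub : B ⊆ {t | A.Good ∅ (om t) ∧ A.Bad ∅ (om t) ∧ V + κ < A.X ∅ (om t)} := fun t h5 =>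
    ⟨h5.1, fun g hg => absurd hg (Finset.notMem_empty g), h5.2.1⟩
  have hBm : MeasurableSet B := by
    have c1 : Continuous fun t : ℝ => A.X ∅ (om t) := by
      unfold Par.X Par.Xt
      exact continuous_const.mul (continuous_finsetSum _ fun g _ => Complex.continuous_re.comp (cont_lin _ _))
    have c2 : MeasurableSet {t : ℝ | A.Good ∅ (om t)} := by
      have e : {t : ℝ | A.Good ∅ (om t)} =
          ⋂ g ∈ Finset.range A.J \ ∅, {t : ℝ | ‖A.P g (om t)‖ ≤ RR (A.r g)} := by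
        ext t
        simp [Par.Good]
      rw [e]
      refine Finset.measurableSet_biInter _ fun g _ => ?_
      exact measurableSet_le (cont_lin _ _).norm.measurable measurable_const
    exact c2.inter ((measurableSet_lt measurable_const c1.measurable).inter
      (measurableSet_le cont_ze.norm.measurable measurable_const))
  calc nu x T B = ∫⁻ t in B, ENNReal.ofReal (‖ze t‖ ^ 2 / Real.log T) ∂(un x T) := nu_apply x hTp B
    _ ≤ ∫⁻ t in B, ENNReal.ofReal (2 / Real.log T) * ENNReal.ofReal (‖A.mo 1 ∅ (om t)‖ ^ 2) ∂(un x T) :=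
        setLIntegral_mono' hBm hbd
    _ = ENNReal.ofReal (2 / Real.log T) * ∫⁻ t in B, ENNReal.ofReal (‖A.mo 1 ∅ (om t)‖ ^ 2) ∂(un x T) :=
        lintegral_const_mul _ hH
    _ ≤ ENNReal.ofReal (2 / Real.log T) *
        ∫⁻ t in {t | A.Good ∅ (om t) ∧ A.Bad ∅ (om t) ∧ V + κ < A.X ∅ (om t)},
          ENNReal.ofReal (‖A.mo 1 ∅ (om t)‖ ^ 2) ∂(un x T) := by
        gcongr
    _ ≤ ENNReal.ofReal (2 / Real.log T) * ENNReal.ofReal (Ct * κ' * (A.G (V + κ) / A.be)) := by
        gcongr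
    _ = ENNReal.ofReal (2 / Real.log T * (Ct * κ' * (A.G (V + κ) / A.be))) :=
        (ENNReal.ofReal_mul (by positivity)).symm
    _ ≤ _ := by
        refine ENNReal.ofReal_le_ofReal ?_
        have h5 : Real.exp (A.be * (A.sg * A.vt)) * A.G (V + κ) = A.Gs (V + κ) := (Gs_eq A _).symm
        have h6 : 2 / Real.log T * (Ct * κ' * (A.G (V + κ) / A.be)) =
            2 * (Ct * Cm) * (A.Y / Real.log T) * (A.Gs (V + κ) / A.be) := by
          rw [hκ', ← h5]
          ring
        rw [h6]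
        have h7 : A.Gs (V + κ) / A.be ≤ A.Gs V / A.be :=
          div_le_div_of_nonneg_right (Gs_anti hA (by linarith)) hA.hbe.le
        exact mul_le_mul_of_nonneg_left h7 (by positivity)

end Pool.Agent.Lib.G2
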