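import Mathlib
import Pool.Agent.Lib.MP_f9aece_nt_g2.StmtsZ

/-!
The law of `log |zeta|` under the measure `|zeta| ^ 2`: module H3, upper bound for the small values.
-/

set_option autoImplicit false

namespace Pool.Agent.Lib.G2

open MeasureTheory Set Filter Topology Complex ProbabilityTheory
open scoped ComplexConjugate
open Pool.Agent.Lib.GT

private lemma cont_lin (S : Finset ℕ) (c : ℕ → ℂ) : Continuous fun t : ℝ => lin S c (om t) := by
  have h : Continuous fun x : Om => lin S c x := by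
    unfold lin
    fun_prop
  exact h.comp continuous_om

private lemma cont_X (A : Par) (s : Finset ℕ) : Continuous fun t : ℝ => A.X s (om t) := by
  unfold Par.X Par.Xt
  exact continuous_const.mul
    (continuous_finsetSum _ fun g _ => Complex.continuous_re.comp (cont_lin _ _))

private lemma cont_mo (A : Par) (μ : ℂ) (s : Finset ℕ) : Continuous fun t : ℝ => A.mo μ s (om t) := by
  unfold Par.mo
  refine continuous_finsetProd _ fun g _ => ?_
  have h : Continuous fun t : ℝ => A.P g (om t) := cont_lin _ _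
  unfold tex
  fun_prop

private lemma cont_ze : Continuous ze := by
  unfold ze
  rw [continuous_iff_continuousAt]
  intro t
  have h1 : (1 / 2 + I * t : ℂ) ≠ 1 := by
    intro h
    have := congrArg Complex.re h
    norm_num at this
  have h2 : ContinuousAt (fun t : ℝ => (1 / 2 + I * t : ℂ)) t := by fun_prop
  exact ContinuousAt.comp (g := riemannZeta) (f := fun t : ℝ => (1 / 2 + I * t : ℂ))
    (differentiableAt_riemannZeta h1).continuousAt h2

/-- the sum over the sets of groups -/
private lemma sum_sets (J : ℕ) (a : ℕ → ℝ) (ε : ℝ) (hε : 0 ≤ ε) (hε1 : ε ≤ 1)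
    (h : ∑ g ∈ Finset.range J, Real.exp (-a g) ≤ 2 * ε) :
    ∑ s ∈ (Finset.range J).powerset.erase ∅, Real.exp (-∑ g ∈ s, a g) ≤ 16 * ε ∧
      ∑ s ∈ (Finset.range J).powerset, Real.exp (-∑ g ∈ s, a g) ≤ 17 := by
  have h1 : ∑ s ∈ (Finset.range J).powerset, Real.exp (-∑ g ∈ s, a g)
      = ∏ g ∈ Finset.range J, (1 + Real.exp (-a g)) := by
    rw [Finset.prod_one_add]
    refine Finset.sum_congr rfl fun s _ => ?_
    rw [← Real.exp_sum, Finset.sum_neg_distrib]
  have h2 : ∏ g ∈ Finset.range J, (1 + Real.exp (-a g)) ≤ Real.exp (2 * ε) := by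
    calc ∏ g ∈ Finset.range J, (1 + Real.exp (-a g))
        ≤ ∏ g ∈ Finset.range J, Real.exp (Real.exp (-a g)) := by
          refine Finset.prod_le_prod (fun g _ => by positivity) fun g _ => ?_
          have := Real.add_one_le_exp (Real.exp (-a g))
          linarith
      _ = Real.exp (∑ g ∈ Finset.range J, Real.exp (-a g)) := (Real.exp_sum _ _).symm
      _ ≤ Real.exp (2 * ε) := Real.exp_le_exp.2 h
  have h3 : Real.exp (2 * ε) ≤ 1 + 16 * ε := by
    have hc := convexOn_exp.2 (Set.mem_univ (0 : ℝ)) (Set.mem_univ (2 : ℝ))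
      (show (0 : ℝ) ≤ 1 - ε by linarith) hε (by ring)
    simp only [smul_eq_mul, mul_zero, zero_add, Real.exp_zero, mul_one] at hc
    have he : Real.exp 2 ≤ 9 := by
      have h4 := Real.exp_one_lt_d9
      have h5 : Real.exp 2 = Real.exp 1 * Real.exp 1 := by rw [← Real.exp_add]; norm_num
      rw [h5]
      nlinarith [Real.exp_pos 1]
    have : ε * 2 = 2 * ε := by ring
    rw [this] at hc
    nlinarith
  have h4 : (∅ : Finset ℕ) ∈ (Finset.range J).powerset := Finset.empty_mem_powerset _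
  have h5 := Finset.add_sum_erase _ (fun s : Finset ℕ => Real.exp (-∑ g ∈ s, a g)) h4
  simp only [Finset.sum_empty, neg_zero, Real.exp_zero] at h5
  constructor <;> linarith

private lemma meas_dens (T : ℝ) : Measurable fun t : ℝ => ENNReal.ofReal (‖ze t‖ ^ 2 / Real.log T) :=
  ENNReal.measurable_ofReal.comp (((cont_ze.norm.pow 2).div_const _).measurable)

private lemma lint_nu (x T : ℝ) (f : ℝ → ENNReal) : ∫⁻ t, f t ∂(nu x T)
    = ∫⁻ t, f t * ENNReal.ofReal (‖ze t‖ ^ 2 / Real.log T) ∂(un x T) := by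
  unfold nu
  rw [lintegral_withDensity_eq_lintegral_mul_non_measurable _ (meas_dens T)
    (Filter.Eventually.of_forall fun t => ENNReal.ofReal_lt_top)]
  refine lintegral_congr fun t => ?_
  rw [Pi.mul_apply, mul_comm]

private lemma nu_apply (x : ℝ) {T : ℝ} (hT : 0 < T) (S : Set ℝ) : nu x T S
    = ∫⁻ t in S, ENNReal.ofReal (‖ze t‖ ^ 2 / Real.log T) ∂(un x T) := by
  have : IsProbabilityMeasure (un x T) := prob_un x hT
  unfold nu
  exact withDensity_apply' _ _

private lemma nu_fin (x : ℝ) {T : ℝ} (hT : 0 < T) : IsFiniteMeasure (nu x T) := by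
  refine ⟨?_⟩
  rw [nu_apply x hT, Measure.restrict_univ]
  unfold un
  rw [lintegral_smul_measure]
  refine ENNReal.mul_lt_top ?_ ?_
  · rw [ENNReal.inv_lt_top]
    exact ENNReal.ofReal_pos.2 hT
  · exact setLIntegral_lt_top_of_isCompact (by rw [Real.volume_Icc]; exact ENNReal.ofReal_ne_top)
      isCompact_Icc (f := fun t => Real.toNNReal (‖ze t‖ ^ 2 / Real.log T))
      (continuous_real_toNNReal.comp ((cont_ze.norm.pow 2).div_const _))

private lemma Gs_eq (A : Par) (y : ℝ) : A.Gs y = Real.exp (A.be * (A.sg * A.vt)) * A.G y := by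
  unfold Par.Gs Par.G
  rw [mul_left_comm, ← Real.exp_add]
  congr 2
  ring

/-- H3 -/
theorem nuUpperS (h1 : TiltUp) (h2 : TiltLow) (h3 : MoUp) (h4 : NuUp) (h5 : WPoint)
    (h6 : GroupNum) : NuUpperS := by
  classical
  intro p0 hp0
  obtain ⟨C1, v1, hC1, H1⟩ := h1
  obtain ⟨C2, v2, hC2, H2⟩ := h2
  obtain ⟨C3, T3, hC3, hT3, H3⟩ := h3 p0 hp0
  obtain ⟨C4, T4, hC4, hT4, H4⟩ := h4 p0 hp0
  obtain ⟨C5, D5, v5, -, -, H5⟩ := h5
  refine ⟨16 * (C1 * C4) + 17 * (C2 * (2 * C3)), max T3 T4, max v1 (max v2 v5), by nlinarith,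
    le_max_of_le_left hT3, ?_⟩
  intro A hA hv hAp hsg hbb T e hT hL x V hx
  have hT3' : T3 ≤ T := (le_max_left _ _).trans hT
  have hT4' : T4 ≤ T := (le_max_right _ _).trans hT
  have hv1 : v1 ≤ A.v := (le_max_left _ _).trans hv
  have hv2 : v2 ≤ A.v := ((le_max_left _ _).trans (le_max_right _ _)).trans hv
  have hv5 : v5 ≤ A.v := ((le_max_right _ _).trans (le_max_right _ _)).trans hv
  have hT1 : 3 ≤ T := hL.hT
  have hT0 : 0 < T := by linarith
  have hbe := hA.hbe
  have hb : 0 < A.b := hbe.trans_le hA.hbb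
  have hG : 0 ≤ A.G V := by unfold Par.G; positivity
  have hlog : 0 < Real.log T := Real.log_pos (by linarith)
  have hY : 0 < A.Y := by linarith [hA.hY]
  have : IsProbabilityMeasure (un x T) := prob_un x hT0
  have hfin : IsFiniteMeasure (nu x T) := nu_fin x hT0
  set E : ℝ := Real.exp (A.be * (A.sg * A.vt)) with hE
  have hE0 : 0 < E := Real.exp_pos _
  set L : ℝ := A.Y / Real.log T with hLdef
  have hL0 : 0 < L := by positivity
  set P := (Finset.range A.J).powerset with hP
  set w : Finset ℕ → ℝ := fun s => Real.exp (-∑ g ∈ s, (A.r g : ℝ)) with hw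
  -- the sets
  set EA : Finset ℕ → Set ℝ := fun s => {t | A.Good s (om t) ∧ A.Bad s (om t) ∧ V < A.X s (om t)}
    with hEA
  set DB : Finset ℕ → Set ℝ := fun s => {t | A.Good s (om t) ∧ A.Bad s (om t) ∧ A.X s (om t) ≤ V}
    with hDB
  set EB : Finset ℕ → Set ℝ := fun s => {t | t ∈ DB s ∧ ‖ze t‖ ≤ Real.exp (-V)} with hEB
  -- bounds
  have bA : ∀ s ∈ P, nu x T (EA s) ≤ ENNReal.ofReal (C1 * (C4 * w s * E) * (A.G V / A.be)) := by
    intro s hs
    rw [hP, Finset.mem_powerset] at hs
    rw [nu_apply x hT0]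
    refine H1 A hA hv1 s hs x T (C4 * w s * E) hT0 (by positivity) _ (meas_dens T) (fun y => ?_) V
    have : ∫⁻ t, ENNReal.ofReal (A.W s y (om t)) ∂(nu x T)
        ≤ ENNReal.ofReal (C4 * Real.exp (-∑ g ∈ s, (A.r g : ℝ)) * A.Gs y) :=
      H4 A hA hAp T e hT4' hL x y hx s s (Finset.Subset.refl _) hs
    rw [lint_nu] at this
    refine this.trans (ENNReal.ofReal_le_ofReal (le_of_eq ?_))
    rw [Gs_eq]
    ring
  have bB : ∀ s ∈ P, nu x T (EB s) ≤ ENNReal.ofReal (C2 * (2 * C3 * L * E * w s) * (A.G V / A.b)) := by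
    intro s hs
    rw [hP, Finset.mem_powerset] at hs
    set H : ℝ → ENNReal := fun t => ENNReal.ofReal (2 / Real.log T * ‖A.mo 1 s (om t)‖ ^ 2) with hH
    have hHm : Measurable H :=
      ENNReal.measurable_ofReal.comp (continuous_const.mul ((cont_mo A 1 s).norm.pow 2)).measurable
    have key := H2 A hA hv2 hbb s hs x T (2 * C3 * L * E * w s) hT0 (by positivity) H hHm ?_ V
    · rw [nu_apply x hT0]
      refine le_trans ?_ ((lintegral_mono_set (fun t ht => ht.1 : EB s ⊆ DB s)).trans key)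
      refine setLIntegral_mono ?_ ?_
      · refine Measurable.mul ?_ hHm
        exact ENNReal.measurable_ofReal.comp (Real.continuous_exp.comp
          (continuous_const.mul ((cont_X A s).sub continuous_const))).measurable
      · rintro t ⟨⟨ht1, ht2, ht3⟩, ht4⟩
        have q1 := ((H5 A hA hv5 s hs (om t) ht1 ht2).2.2.2.2 1 (Or.inl rfl)).1
        simp only [mul_one, ofReal_one] at q1
        rw [hH]
        simp only
        rw [← ENNReal.ofReal_mul (Real.exp_nonneg _)]
        refine ENNReal.ofReal_le_ofReal ?_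
        have q2 : ‖ze t‖ ^ 2 ≤ Real.exp (-(2 * V)) := by
          have : Real.exp (-(2 * V)) = Real.exp (-V) ^ 2 := by
            rw [← Real.exp_nat_mul]; congr 1; push_cast; ring
          rw [this]
          exact pow_le_pow_left₀ (norm_nonneg _) ht4 2
        have q3 : A.X s (om t) = -A.Xt s (om t) := by
          unfold Par.X
          rw [hsg]
          ring
        have q4 : Real.exp (-(2 * V)) = Real.exp (2 * (A.X s (om t) - V))
            * Real.exp (2 * A.Xt s (om t)) := by
          rw [← Real.exp_add, q3]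
          congr 1
          ring
        have q5 : Real.exp (2 * A.Xt s (om t)) ≤ 2 * ‖A.mo 1 s (om t)‖ ^ 2 := by linarith
        calc ‖ze t‖ ^ 2 / Real.log T
            ≤ Real.exp (2 * (A.X s (om t) - V)) * (2 * ‖A.mo 1 s (om t)‖ ^ 2) / Real.log T := by
              refine div_le_div_of_nonneg_right (q2.trans ?_) hlog.le
              rw [q4]
              exact mul_le_mul_of_nonneg_left q5 (Real.exp_nonneg _)
          _ = Real.exp (2 * (A.X s (om t) - V)) * (2 / Real.log T * ‖A.mo 1 s (om t)‖ ^ 2) := by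
              ring
    · intro y
      have q6 := H3 A hA hAp T e hT3' hL x y s hs
      have e2 : ∀ t, ENNReal.ofReal (A.W s y (om t)) * H t
          = ENNReal.ofReal (2 / Real.log T)
            * ENNReal.ofReal (A.W s y (om t) * ‖A.mo 1 s (om t)‖ ^ 2) := by
        intro t
        rw [hH]
        simp only
        rw [ENNReal.ofReal_mul (by positivity : (0 : ℝ) ≤ 2 / Real.log T),
          ENNReal.ofReal_mul' (by positivity : (0 : ℝ) ≤ ‖A.mo 1 s (om t)‖ ^ 2)]
        ring
      simp_rw [e2]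
      rw [lintegral_const_mul' _ _ ENNReal.ofReal_ne_top]
      refine (mul_le_mul_right q6 _).trans ?_
      rw [← ENNReal.ofReal_mul (by positivity)]
      refine ENNReal.ofReal_le_ofReal (le_of_eq ?_)
      rw [Gs_eq, hLdef]
      ring
  -- the covering
  have cov : {t : ℝ | ‖ze t‖ ≤ Real.exp (-V)} ⊆ {t : ℝ | A.Good ∅ (om t) ∧
      V < A.X ∅ (om t)} ∪ ((⋃ s ∈ P.erase ∅, EA s) ∪ ⋃ s ∈ P, EB s) := by
    intro t ht
    set s : Finset ℕ := (Finset.range A.J).filter fun g => RR (A.r g) < ‖A.P g (om t)‖ with hs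
    have hsP : s ∈ P := Finset.mem_powerset.2 (Finset.filter_subset _ _)
    have hgood : A.Good s (om t) := by
      intro g hg
      rw [Finset.mem_sdiff, hs, Finset.mem_filter, not_and, not_lt] at hg
      exact hg.2 hg.1
    have hbad : A.Bad s (om t) := by
      intro g hg
      rw [hs, Finset.mem_filter] at hg
      exact hg.2
    rcases lt_or_ge V (A.X s (om t)) with hX | hX
    · by_cases hs0 : s = ∅
      · left
        rw [hs0] at hgood hX
        exact ⟨hgood, hX⟩
      · refine Or.inr (Or.inl ?_)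
        simp only [Set.mem_iUnion]
        exact ⟨s, Finset.mem_erase.2 ⟨hs0, hsP⟩, hgood, hbad, hX⟩
    · refine Or.inr (Or.inr ?_)
      simp only [Set.mem_iUnion]
      exact ⟨s, hsP, ⟨hgood, hbad, hX⟩, ht⟩
  have hvi : Real.exp (-(A.v * (A.i + 1) : ℝ)) ≤ Real.exp (-A.v) := by
    refine Real.exp_le_exp.2 (neg_le_neg ?_)
    have h7 : (0 : ℝ) ≤ A.v := Nat.cast_nonneg _
    have h8 : (0 : ℝ) ≤ A.i := Nat.cast_nonneg _
    nlinarith
  obtain ⟨s1, s2⟩ := sum_sets A.J (fun g => (A.r g : ℝ)) (Real.exp (-(A.v * (A.i + 1) : ℝ)))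
    (Real.exp_nonneg _) (Real.exp_le_one_iff.2 (by
      have h7 : (0 : ℝ) ≤ A.v := Nat.cast_nonneg _
      have h8 : (0 : ℝ) ≤ A.i := Nat.cast_nonneg _
      nlinarith)) (h6 A hA).2.2.2.2.2.1
  have s1' : ∑ s ∈ (Finset.range A.J).powerset.erase ∅, Real.exp (-∑ g ∈ s, (A.r g : ℝ))
      ≤ 16 * Real.exp (-A.v) := s1.trans (by linarith)
  have t1 : nu x T (⋃ s ∈ P.erase ∅, EA s) ≤ ENNReal.ofReal (C1 * (C4 * E) * (16 * Real.exp (-A.v))
      * (A.G V / A.be)) := by
    refine (measure_biUnion_finset_le _ _).trans ?_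
    refine (Finset.sum_le_sum fun s hs => bA s (Finset.mem_of_mem_erase hs)).trans ?_
    rw [← ENNReal.ofReal_sum_of_nonneg (fun s _ => by positivity)]
    refine ENNReal.ofReal_le_ofReal ?_
    have e1 : ∀ s ∈ P.erase ∅, C1 * (C4 * w s * E) * (A.G V / A.be)
        = C1 * (C4 * E) * (A.G V / A.be) * w s := fun s _ => by ring
    rw [Finset.sum_congr rfl e1, ← Finset.mul_sum]
    have h9 : 0 ≤ A.G V / A.be := by positivity
    calc C1 * (C4 * E) * (A.G V / A.be) * ∑ s ∈ P.erase ∅, w s
        ≤ C1 * (C4 * E) * (A.G V / A.be) * (16 * Real.exp (-A.v)) :=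
          mul_le_mul_of_nonneg_left s1' (by positivity)
      _ = _ := by ring
  have t2 : nu x T (⋃ s ∈ P, EB s) ≤ ENNReal.ofReal (C2 * (2 * C3 * L * E * 17) * (A.G V / A.b)) := by
    refine (measure_biUnion_finset_le _ _).trans ?_
    refine (Finset.sum_le_sum fun s hs => bB s hs).trans ?_
    rw [← ENNReal.ofReal_sum_of_nonneg (fun s _ => by positivity)]
    refine ENNReal.ofReal_le_ofReal ?_
    rw [← Finset.sum_mul, ← Finset.mul_sum, ← Finset.mul_sum]
    have : 0 ≤ A.G V / A.b := by positivity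
    gcongr
  have fin : nu x T {t : ℝ | ‖ze t‖ ≤ Real.exp (-V)} ≤
      nu x T {t | A.Good ∅ (om t) ∧ V < A.X ∅ (om t)}
        + ENNReal.ofReal (C1 * (C4 * E) * (16 * Real.exp (-A.v)) * (A.G V / A.be)
          + C2 * (2 * C3 * L * E * 17) * (A.G V / A.b)) := by
    refine (measure_mono cov).trans ((measure_union_le _ _).trans ?_)
    gcongr
    refine (measure_union_le _ _).trans ?_
    rw [ENNReal.ofReal_add (by positivity) (by positivity)]
    exact add_le_add t1 t2
  have fin2 := ENNReal.toReal_mono (by finiteness) fin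
  rw [ENNReal.toReal_add (by finiteness) ENNReal.ofReal_ne_top, ENNReal.toReal_ofReal
    (by positivity)] at fin2
  refine fin2.trans ?_
  have e5 : A.G V / A.b ≤ A.G V / A.be := div_le_div_of_nonneg_left hG hbe hA.hbb
  have e6 : A.Gs V / A.be = E * (A.G V / A.be) := by rw [Gs_eq]; ring
  rw [add_le_add_iff_left, e6]
  set g : ℝ := A.G V / A.be with hg
  have hg0 : 0 ≤ g := by positivity
  have hev : 0 ≤ Real.exp (-(A.v : ℝ)) := Real.exp_nonneg _
  calc C1 * (C4 * E) * (16 * Real.exp (-A.v)) * g + C2 * (2 * C3 * L * E * 17) * (A.G V / A.b)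
      ≤ C1 * (C4 * E) * (16 * Real.exp (-A.v)) * g + C2 * (2 * C3 * L * E * 17) * g := by
        have : 0 ≤ C2 * (2 * C3 * L * E * 17) := by positivity
        gcongr
    _ ≤ C1 * (C4 * E) * (16 * Real.exp (-A.v)) * g + C2 * (2 * C3 * L * E * 17) * g
        + (16 * (C1 * C4) * L + 17 * (C2 * (2 * C3)) * Real.exp (-A.v)) * (E * g) := by
        have : 0 ≤ (16 * (C1 * C4) * L + 17 * (C2 * (2 * C3)) * Real.exp (-A.v)) * (E * g) := by
          positivity
        linarith
    _ = _ := by ring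

end Pool.Agent.Lib.G2
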