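import Mathlib
import Pool.Agent.Lib.MP_f9aece_nt_g2.H2

/-!
The law of `log |zeta|` under the measure `|zeta| ^ 2`: module H4, lower bound for the small values.
-/

set_option autoImplicit false

namespace Pool.Agent.Lib.G2

open MeasureTheory Set Filter Topology Complex ProbabilityTheory
open scoped ComplexConjugate
open Pool.Agent.Lib.GT

open H2

/-- H4: lower bound for the small values -/
theorem nuLowerS (h1 : TiltUp) (h2 : NuUI) (h3 : WPoint) : NuLowerS := by
  intro p0 hp0
  obtain ⟨Ct, v1, hCt, ht⟩ := h1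
  obtain ⟨Cu, T0, hCu, hT0, hu⟩ := h2 p0 hp0
  obtain ⟨Cw, C1, v2, hCw, hC1, hw⟩ := h3
  refine ⟨2 * (Ct * Cu), T0, max v1 v2, ?_, hT0, ?_⟩
  · have : 1 ≤ Ct * Cu := one_le_mul_of_one_le_of_one_le hCt hCu
    linarith
  intro A hA hv hAp hsg T e hT hL x V κ hx hκ
  have hTp : 0 < T := by linarith
  have hlog : 0 < Real.log T := Real.log_pos (by linarith)
  have hY : 0 ≤ A.Y := by linarith [hA.hY]
  have he : 0 < e := hL.he
  -- the threshold
  obtain ⟨K, hK1, hK2⟩ : ∃ K : ℝ, 1 ≤ K ∧ K ^ 2 = Real.exp (2 * κ) / 2 := by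
    refine ⟨Real.sqrt (Real.exp (2 * κ) / 2), ?_, Real.sq_sqrt (by positivity)⟩
    rw [Real.one_le_sqrt]
    have := Real.add_one_le_exp (2 * κ)
    linarith
  have hu' := fun y => hu A hA hAp T e hT hL x y K hx hK1
  have hK0 : 0 < K ^ 2 := by positivity
  set κ' : ℝ := Cu * (e + (Real.log T / A.Y) ^ 10 / K ^ 2) * Real.exp (A.be * (A.sg * A.vt)) with hκ'
  have hκ0 : 0 ≤ κ' := by positivity
  set Q : Set ℝ := {t | K < ‖ze t‖ * ‖A.mo (-1) ∅ (om t)‖} with hQ
  have hQm : MeasurableSet Q :=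
    measurableSet_lt measurable_const (cont_ze.norm.mul (cont_mo A (-1) ∅).norm).measurable
  have hf : Measurable fun t : ℝ => ENNReal.ofReal (‖ze t‖ ^ 2 / Real.log T) := by
    have := cont_ze
    exact ENNReal.measurable_ofReal.comp
      (by fun_prop : Continuous fun t : ℝ => ‖ze t‖ ^ 2 / Real.log T).measurable
  have hH : Measurable (Q.indicator fun t : ℝ => ENNReal.ofReal (‖ze t‖ ^ 2 / Real.log T)) :=
    hf.indicator hQm
  have hup := ht A hA (le_trans (le_max_left _ _) hv) ∅ (Finset.empty_subset _) x T κ' hTp hκ0 _ hH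
    (fun y => by
      have h4 := hu' y
      calc ∫⁻ t, ENNReal.ofReal (A.W ∅ y (om t)) *
            Q.indicator (fun t : ℝ => ENNReal.ofReal (‖ze t‖ ^ 2 / Real.log T)) t ∂(un x T)
          = ∫⁻ t in Q, ENNReal.ofReal (A.W ∅ y (om t)) ∂(nu x T) := by
            unfold nu
            rw [setLIntegral_withDensity_eq_setLIntegral_mul_non_measurable₀ _ hf.aemeasurable _ hQm
              (Eventually.of_forall fun _ => ENNReal.ofReal_lt_top), ← lintegral_indicator hQm]
            refine lintegral_congr fun t => ?_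
            by_cases h5 : t ∈ Q
            · rw [indicator_of_mem h5, indicator_of_mem h5]
              simp only [Pi.mul_apply]
              rw [mul_comm]
            · rw [indicator_of_notMem h5, indicator_of_notMem h5, mul_zero]
        _ ≤ _ := h4
        _ = ENNReal.ofReal (κ' * A.G y) := by
            congr 1
            rw [hκ', Gs_eq]
            ring) (V + κ)
  set B : Set ℝ := {t | A.Good ∅ (om t) ∧ V + κ < A.X ∅ (om t) ∧ Real.exp (-V) < ‖ze t‖} with hB
  have hsplit : {t | A.Good ∅ (om t) ∧ V + κ < A.X ∅ (om t)} ⊆ {t | ‖ze t‖ ≤ Real.exp (-V)} ∪ B := by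
    rintro t ⟨h5, h6⟩
    by_cases h7 : ‖ze t‖ ≤ Real.exp (-V)
    · exact Or.inl h7
    · exact Or.inr ⟨h5, h6, not_le.1 h7⟩
  refine toReal_split hTp hsplit ?_ (by
    have := Gs_nonneg A V
    have := hA.hbe
    positivity)
  have hbd : ∀ t ∈ B, t ∈ Q := by
    rintro t ⟨h5, h6, h7⟩
    have h8 := ((hw A hA (le_trans (le_max_right _ _) hv) ∅ (Finset.empty_subset _) (om t) h5
      (fun g hg => absurd hg (Finset.notMem_empty g))).2.2.2.2 (-1) (Or.inr rfl)).1
    have h9 : A.X ∅ (om t) = -A.Xt ∅ (om t) := by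
      unfold Par.X
      rw [hsg, neg_one_mul]
    rw [h9] at h6
    have h8' : 1 / 2 * Real.exp (2 * -1 * A.Xt ∅ (om t)) ≤ ‖A.mo (-1) ∅ (om t)‖ ^ 2 := by
      simpa using h8
    have h10 : Real.exp (2 * (V + κ)) < Real.exp (2 * -1 * A.Xt ∅ (om t)) :=
      Real.exp_lt_exp.2 (by linarith)
    have h11 : K ^ 2 * Real.exp (2 * V) < ‖A.mo (-1) ∅ (om t)‖ ^ 2 := by
      calc K ^ 2 * Real.exp (2 * V) = 1 / 2 * Real.exp (2 * (V + κ)) := by
            rw [hK2, show 2 * (V + κ) = 2 * κ + 2 * V by ring, Real.exp_add]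
            ring
        _ < 1 / 2 * Real.exp (2 * -1 * A.Xt ∅ (om t)) := mul_lt_mul_of_pos_left h10 (by norm_num)
        _ ≤ _ := h8'
    have h12 : Real.exp (-(2 * V)) < ‖ze t‖ ^ 2 := by
      calc Real.exp (-(2 * V)) = Real.exp (-V) ^ 2 := by
            rw [← Real.exp_nat_mul]
            congr 1
            push_cast
            ring
        _ < ‖ze t‖ ^ 2 := pow_lt_pow_left₀ h7 (Real.exp_pos _).le (by norm_num)
    have h13 : K ^ 2 < (‖ze t‖ * ‖A.mo (-1) ∅ (om t)‖) ^ 2 := by
      calc K ^ 2 = Real.exp (-(2 * V)) * (K ^ 2 * Real.exp (2 * V)) := by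
            rw [mul_left_comm, ← Real.exp_add]
            simp
        _ < ‖ze t‖ ^ 2 * ‖A.mo (-1) ∅ (om t)‖ ^ 2 :=
            mul_lt_mul'' h12 h11 (Real.exp_pos _).le (by positivity)
        _ = _ := by ring
    exact lt_of_pow_lt_pow_left₀ 2 (by positivity) h13
  have hBm : MeasurableSet B := by
    have c1 : Continuous fun t : ℝ => A.X ∅ (om t) := by
      unfold Par.X Par.Xt
      exact continuous_const.mul (continuous_finsetSum _ fun g _ => Complex.continuous_re.comp (cont_lin _ _))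
    have c2 : MeasurableSet {t : ℝ | A.Good ∅ (om t)} := by
      have e : {t : ℝ | A.Good ∅ (om t)} =
          ⋂ g ∈ Finset.range A.J \ ∅, {t : ℝ | ‖A.P g (om t)‖ ≤ RR (A.r g)} := by
        ext t
        simp [Par.Good]
      rw [e]
      refine Finset.measurableSet_biInter _ fun g _ => ?_
      exact measurableSet_le (cont_lin _ _).norm.measurable measurable_const
    exact c2.inter ((measurableSet_lt measurable_const c1.measurable).inter
      (measurableSet_lt measurable_const cont_ze.norm.measurable))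
  have hsub : B ⊆ {t | A.Good ∅ (om t) ∧ A.Bad ∅ (om t) ∧ V + κ < A.X ∅ (om t)} := fun t h5 =>
    ⟨h5.1, fun g hg => absurd hg (Finset.notMem_empty g), h5.2.1⟩
  calc nu x T B = ∫⁻ t in B, ENNReal.ofReal (‖ze t‖ ^ 2 / Real.log T) ∂(un x T) := nu_apply x hTp B
    _ = ∫⁻ t in B, Q.indicator (fun t : ℝ => ENNReal.ofReal (‖ze t‖ ^ 2 / Real.log T)) t ∂(un x T) := by
        refine setLIntegral_congr_fun hBm fun t h5 => ?_
        rw [indicator_of_mem (hbd t h5)]
    _ ≤ ∫⁻ t in {t | A.Good ∅ (om t) ∧ A.Bad ∅ (om t) ∧ V + κ < A.X ∅ (om t)},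
          Q.indicator (fun t : ℝ => ENNReal.ofReal (‖ze t‖ ^ 2 / Real.log T)) t ∂(un x T) :=
        lintegral_mono' (Measure.restrict_mono hsub le_rfl) le_rfl
    _ ≤ ENNReal.ofReal (Ct * κ' * (A.G (V + κ) / A.be)) := hup
    _ ≤ _ := by
        refine ENNReal.ofReal_le_ofReal ?_
        have h5 : Real.exp (A.be * (A.sg * A.vt)) * A.G (V + κ) = A.Gs (V + κ) := (Gs_eq A _).symm
        have h6 : Ct * κ' * (A.G (V + κ) / A.be) =
            Ct * Cu * (e + 2 * ((Real.log T / A.Y) ^ 10 * Real.exp (-(2 * κ)))) * (A.Gs (V + κ) / A.be) := by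
          rw [hκ', ← h5, hK2, Real.exp_neg]
          field_simp
        rw [h6]
        have h7 : A.Gs (V + κ) / A.be ≤ A.Gs V / A.be :=
          div_le_div_of_nonneg_right (Gs_anti hA (by linarith)) hA.hbe.le
        have h8 : 0 ≤ A.Gs V / A.be := div_nonneg (Gs_nonneg A V) hA.hbe.le
        have h9 : 0 ≤ (Real.log T / A.Y) ^ 10 * Real.exp (-(2 * κ)) := by positivity
        calc _ ≤ Ct * Cu * (e + 2 * ((Real.log T / A.Y) ^ 10 * Real.exp (-(2 * κ)))) * (A.Gs V / A.be) :=
              mul_le_mul_of_nonneg_left h7 (by positivity)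
          _ ≤ Ct * Cu * (2 * (e + (Real.log T / A.Y) ^ 10 * Real.exp (-(2 * κ)))) * (A.Gs V / A.be) := by
              refine mul_le_mul_of_nonneg_right (mul_le_mul_of_nonneg_left ?_ (by positivity)) h8
              linarith
          _ = _ := by ring

end Pool.Agent.Lib.G2
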