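import Mathlib
import Pool.Agent.Lib.MP_f9aece_nt_g2.StmtsZ
import Pool.Agent.Lib.MP_f9aece_nt_gt.G2

/-!
The law of `log |zeta|` under the measure `|zeta| ^ 2`, module H5, first part: Gaussian tails, the
existence of the groups, finiteness of the measure.
-/

set_option autoImplicit false

namespace Pool.Agent.Lib.G2.H5

open MeasureTheory Set Filter Topology Complex ProbabilityTheory
open Pool.Agent.Lib.GT

/-! ### Gaussian tails -/

/-- the facts about the tails which are used -/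
structure TF (c C : ℝ) : Prop where
  hc : 0 < c
  hC : 1 ≤ C
  low : ∀ x : ℝ, 0 ≤ x → c * Real.exp (-(x ^ 2 / 2)) / (1 + x) ≤ tl x
  con : ∀ x d : ℝ, 0 ≤ d → tl x - tl (x + d) ≤ C * d * (1 + |x|) * tl x
  sc : ∀ s V : ℝ, 0 < s → (gaussianReal 0 (Real.toNNReal (s ^ 2)) (Ioi V)).toReal = tl (V / s)
  anti : Antitone tl

theorem tf (h : TailFacts) : ∃ c C : ℝ, TF c C := by
  obtain ⟨c, C, hc, hC, hlow, hcon, hsc, hanti⟩ := h
  refine ⟨c, max C (1 / c), hc, hC.trans (le_max_left _ _), hlow, ?_, hsc, hanti⟩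
  intro x d hd
  have h0 := tl_nonneg x
  rcases le_total 0 x with hx | hx
  · refine (hcon x d hx hd).trans ?_
    rw [abs_of_nonneg hx]
    refine mul_le_mul_of_nonneg_right (mul_le_mul_of_nonneg_right
      (mul_le_mul_of_nonneg_right (le_max_left _ _) hd) (by linarith)) h0
  · have h1 := lip x d hd
    have h2 := tl_neg hlow hanti hx
    have h3 : d ≤ 1 / c * d * tl x := by
      calc d = 1 / c * d * c := by field_simp
        _ ≤ 1 / c * d * tl x := mul_le_mul_of_nonneg_left h2 (by positivity)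
    have h4 : 1 / c * d * tl x ≤ max C (1 / c) * d * (1 + |x|) * tl x := by
      refine mul_le_mul_of_nonneg_right ?_ h0
      have h5 : 1 / c * d ≤ max C (1 / c) * d := mul_le_mul_of_nonneg_right (le_max_right _ _) hd
      have h6 : 0 ≤ max C (1 / c) * d := le_trans (by positivity) h5
      have h7 : 0 ≤ max C (1 / c) * d * |x| := mul_nonneg h6 (abs_nonneg x)
      linarith
    linarith

theorem cmp {c C : ℝ} (h : TF c C) {x x0 θ : ℝ} (h1 : C * |x - x0| * (1 + |x|) ≤ θ)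
    (h2 : C * |x - x0| * (1 + |x0|) ≤ θ) (hθ0 : 0 ≤ θ) (hθ : θ ≤ 1 / 2) :
    |tl x - tl x0| ≤ 2 * θ * tl x0 := by
  have n1 := tl_nonneg x
  have n2 := tl_nonneg x0
  rcases le_total x x0 with hx | hx
  · have h3 := h.con x (x0 - x) (by linarith)
    rw [add_sub_cancel] at h3
    rw [abs_sub_comm, abs_of_nonneg (by linarith : 0 ≤ x0 - x)] at h1
    have h4 : C * (x0 - x) * (1 + |x|) * tl x ≤ θ * tl x := mul_le_mul_of_nonneg_right h1 n1
    have h5 : tl x ≤ 2 * tl x0 := by nlinarith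
    rw [abs_of_nonneg (by linarith [h.anti hx])]
    nlinarith
  · have h3 := h.con x0 (x - x0) (by linarith)
    rw [add_sub_cancel] at h3
    rw [abs_of_nonneg (by linarith : 0 ≤ x - x0)] at h2
    have h4 : C * (x - x0) * (1 + |x0|) * tl x0 ≤ θ * tl x0 := mul_le_mul_of_nonneg_right h2 n2
    rw [abs_sub_comm, abs_of_nonneg (by linarith [h.anti hx])]
    nlinarith

/-- the arguments `(V + d) / s` and `V / s0` are close -/
theorem near {V d l s s0 K D δ C η : ℝ} (hl : 1 ≤ l) (hV : |V| ≤ δ * l) (hd : |d| ≤ D) (hδ0 : 0 ≤ δ)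
    (hδ : δ ≤ 1) (hs : 0 < s) (hs0 : 0 < s0) (hs2 : l / 4 ≤ s ^ 2) (hs02 : s0 ^ 2 = l / 2)
    (hK : |s ^ 2 - s0 ^ 2| ≤ K) (hC : 0 ≤ C) (h1 : C * (4 * K + 2 * D) * (2 * δ) ≤ η / 2)
    (h2 : C * (4 * K + 2 * D) * (1 + 2 * D) / Real.sqrt l ≤ η / 2) :
    C * |(V + d) / s - V / s0| * (1 + |(V + d) / s|) ≤ η ∧
    C * |(V + d) / s - V / s0| * (1 + |V / s0|) ≤ η := by
  obtain ⟨g1, g2, g3⟩ := scales hl hs hs0 hs2 hs02 hK
  set w := Real.sqrt l with hw
  have hw0 : 0 < w := Real.sqrt_pos.mpr (by linarith)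
  have hww : w ^ 2 = l := Real.sq_sqrt (by linarith)
  have hw1 : 1 ≤ w := by
    rw [hw]
    exact Real.one_le_sqrt.mpr hl
  have g4 : w / 2 ≤ s0 := by
    by_contra h
    push Not at h
    nlinarith
  have hK0 : 0 ≤ K := (abs_nonneg _).trans hK
  have hD0 : 0 ≤ D := (abs_nonneg _).trans hd
  have h4 : (V + d) / s - V / s0 = V * (s0 - s) / (s * s0) + d / s := by
    field_simp
    ring
  have h5 : |V * (s0 - s) / (s * s0)| ≤ 4 * δ * K / w := by
    rw [abs_div, abs_mul, abs_of_pos (mul_pos hs hs0), div_le_iff₀ (mul_pos hs hs0)]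
    have e1 : |V| * |s0 - s| ≤ δ * l * (K / w) := mul_le_mul hV g3 (abs_nonneg _) (by positivity)
    have e2 : w ^ 2 / 4 ≤ s * s0 := by
      calc w ^ 2 / 4 = (w / 2) * (w / 2) := by ring
        _ ≤ s * s0 := mul_le_mul g1 g4 (by positivity) hs.le
    have e3 : 4 * δ * K / w * (w ^ 2 / 4) ≤ 4 * δ * K / w * (s * s0) :=
      mul_le_mul_of_nonneg_left e2 (by positivity)
    have e4 : 4 * δ * K / w * (w ^ 2 / 4) = δ * l * (K / w) := by
      rw [← hww]
      field_simp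
    linarith
  have h6 : |d / s| ≤ 2 * D / w := by
    rw [abs_div, abs_of_pos hs, div_le_div_iff₀ hs hw0]
    have e1 : |d| * w ≤ D * w := mul_le_mul_of_nonneg_right hd hw0.le
    have e2 : D * (w / 2) ≤ D * s := mul_le_mul_of_nonneg_left g1 hD0
    linarith
  have h7 : |(V + d) / s - V / s0| ≤ (4 * K + 2 * D) / w := by
    rw [h4]
    refine (abs_add_le _ _).trans ?_
    have e1 : 4 * δ * K / w ≤ 4 * K / w := by
      apply div_le_div_of_nonneg_right _ hw0.le
      nlinarith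
    calc |V * (s0 - s) / (s * s0)| + |d / s| ≤ 4 * K / w + 2 * D / w := by linarith
      _ = (4 * K + 2 * D) / w := by ring
  have h8 : |(V + d) / s| ≤ 2 * δ * w + 2 * D := by
    rw [abs_div, abs_of_pos hs, div_le_iff₀ hs]
    have e1 : |V + d| ≤ δ * l + D := (abs_add_le _ _).trans (add_le_add hV hd)
    have e2 : (2 * δ * w + 2 * D) * (w / 2) ≤ (2 * δ * w + 2 * D) * s :=
      mul_le_mul_of_nonneg_left g1 (by positivity)
    have e3 : (2 * δ * w + 2 * D) * (w / 2) = δ * l + D * w := by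
      rw [← hww]
      ring
    have e4 : D * 1 ≤ D * w := mul_le_mul_of_nonneg_left hw1 hD0
    linarith
  have h9 : |V / s0| ≤ 2 * δ * w + 2 * D := by
    rw [abs_div, abs_of_pos hs0, div_le_iff₀ hs0]
    have e2 : (2 * δ * w + 2 * D) * (w / 2) ≤ (2 * δ * w + 2 * D) * s0 :=
      mul_le_mul_of_nonneg_left g4 (by positivity)
    have e3 : (2 * δ * w + 2 * D) * (w / 2) = δ * l + D * w := by
      rw [← hww]
      ring
    have e4 : 0 ≤ D * w := by positivity
    linarith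
  have key : ∀ r : ℝ, |r| ≤ 2 * δ * w + 2 * D →
      C * |(V + d) / s - V / s0| * (1 + |r|) ≤ η := by
    intro r hr
    have e1 : C * |(V + d) / s - V / s0| ≤ C * ((4 * K + 2 * D) / w) :=
      mul_le_mul_of_nonneg_left h7 hC
    have e2 : C * |(V + d) / s - V / s0| * (1 + |r|) ≤
        C * ((4 * K + 2 * D) / w) * (1 + (2 * δ * w + 2 * D)) :=
      mul_le_mul e1 (by linarith) (by positivity) (by positivity)
    have e3 : C * ((4 * K + 2 * D) / w) * (1 + (2 * δ * w + 2 * D)) =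
        C * (4 * K + 2 * D) * (2 * δ) + C * (4 * K + 2 * D) * (1 + 2 * D) / w := by
      field_simp
      ring
    linarith
  exact ⟨key _ h8, key _ h9⟩

/-! ### the size of the windows -/

/-- the size of a window -/
noncomputable def Gf (s2 be y : ℝ) : ℝ := 1 / Real.sqrt s2 * Real.exp (-(be * y) + be ^ 2 * s2 / 2)

theorem Gf_eq (A : Par) (y : ℝ) : A.G y = Gf A.s2 A.be y := rfl

theorem Gf_nonneg (s2 be y : ℝ) : 0 ≤ Gf s2 be y := by
  unfold Gf
  positivity

theorem Gf_win {c C : ℝ} (h : TF c C) {V V1 s be N B : ℝ} (hs : 0 < s) (hV1 : V1 = max V 0)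
    (hbe : be = (V1 + s) / s ^ 2) (hN : 0 ≤ N) (hVN : -(V / s) ≤ 2 * N)
    (hB : Real.exp (1 / 2 + 2 * N) / c ≤ B) : Gf (s ^ 2) be V / be ≤ B * tl (V / s) := by
  have hc := h.hc
  have hB0 : 0 ≤ B := le_trans (by positivity) hB
  rw [div_le_iff₀ hc] at hB
  unfold Gf
  rw [Real.sqrt_sq hs.le]
  rcases le_total 0 V with hV | hV
  · have e : V1 = V := by rw [hV1]; exact max_eq_left hV
    rw [e] at hbe
    have e1 : -(be * V) + be ^ 2 * s ^ 2 / 2 = 1 / 2 + -((V / s) ^ 2 / 2) := by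
      rw [hbe]
      field_simp
      ring
    rw [e1, Real.exp_add]
    have hx : 0 ≤ V / s := by positivity
    have e2 : 1 / s * (Real.exp (1 / 2) * Real.exp (-((V / s) ^ 2 / 2))) / be =
        Real.exp (1 / 2) * (Real.exp (-((V / s) ^ 2 / 2)) / (1 + V / s)) := by
      have hne : V + s ≠ 0 := by positivity
      have hne2 : s + V ≠ 0 := by positivity
      rw [hbe]
      have e3 : 1 + V / s = (V + s) / s := by field_simp; ring
      rw [e3]
      field_simp
    rw [e2]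
    refine win_bd hc h.low ?_ hx
    rw [div_le_iff₀ hc]
    refine le_trans (Real.exp_le_exp.mpr (by linarith)) hB
  · have e : V1 = 0 := by rw [hV1]; exact max_eq_right hV
    rw [e] at hbe
    have e1 : -(be * V) + be ^ 2 * s ^ 2 / 2 = 1 / 2 - V / s := by
      rw [hbe]
      field_simp
      ring
    rw [e1]
    have e2 : 1 / s * Real.exp (1 / 2 - V / s) / be = Real.exp (1 / 2 - V / s) := by
      rw [hbe]
      field_simp
      ring
    rw [e2]
    have h3 : Real.exp (1 / 2 - V / s) ≤ Real.exp (1 / 2 + 2 * N) := Real.exp_le_exp.mpr (by linarith)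
    have h4 := tl_neg h.low h.anti (x := V / s) (div_nonpos_of_nonpos_of_nonneg hV hs.le)
    calc _ ≤ _ := h3
      _ ≤ B * c := hB
      _ ≤ B * tl (V / s) := mul_le_mul_of_nonneg_left h4 hB0

theorem Gf_shift {s2 be V d D : ℝ} (hbe : 0 ≤ be) (hd : |d| ≤ D) (hD : be * D ≤ 1 / 2) :
    Gf s2 be (V + d) ≤ 2 * Gf s2 be V := by
  unfold Gf
  have h1 : -(be * (V + d)) + be ^ 2 * s2 / 2 ≤ 1 / 2 + (-(be * V) + be ^ 2 * s2 / 2) := by
    have h2 : -d ≤ D := (neg_le_abs d).trans hd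
    have h3 : be * (-d) ≤ be * D := mul_le_mul_of_nonneg_left h2 hbe
    linarith
  have h2 : Real.exp (-(be * (V + d)) + be ^ 2 * s2 / 2) ≤
      Real.exp (1 / 2) * Real.exp (-(be * V) + be ^ 2 * s2 / 2) := by
    rw [← Real.exp_add]
    exact Real.exp_le_exp.mpr h1
  have h3 : Real.exp (1 / 2) ≤ 2 := by
    have h4 : Real.exp (1 / 2) ≤ 1 / (1 - 1 / 2) := Real.exp_bound_div_one_sub_of_interval
      (by norm_num) (by norm_num)
    linarith
  have h4 : 0 ≤ 1 / Real.sqrt s2 := by positivity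
  have h5 : 0 ≤ Real.exp (-(be * V) + be ^ 2 * s2 / 2) := (Real.exp_pos _).le
  calc 1 / Real.sqrt s2 * Real.exp (-(be * (V + d)) + be ^ 2 * s2 / 2)
      ≤ 1 / Real.sqrt s2 * (2 * Real.exp (-(be * V) + be ^ 2 * s2 / 2)) := by
        refine mul_le_mul_of_nonneg_left (h2.trans ?_) h4
        exact mul_le_mul_of_nonneg_right h3 h5
    _ = _ := by ring

/-- lower bound for the tail at the limiting variance -/
theorem t0_low {c C : ℝ} (h : TF c C) {V l δ : ℝ} (hl : 0 < l) (hδ0 : 0 ≤ δ) (hδ : δ ≤ 1 / 8)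
    (hV : V ≤ δ * l) : c / 2 * Real.exp (-(l / 16)) ≤ tl (V / Real.sqrt (l / 2)) := by
  set s0 := Real.sqrt (l / 2) with hs0
  have hs0p : 0 < s0 := Real.sqrt_pos.mpr (by linarith)
  have hs02 : s0 ^ 2 = l / 2 := Real.sq_sqrt (by linarith)
  have hc := h.hc
  set x := δ * l / s0 with hx
  have hx0 : 0 ≤ x := by positivity
  have h1 : tl x ≤ tl (V / s0) := h.anti (div_le_div_of_nonneg_right hV hs0p.le)
  have h2 := h.low x hx0
  have h3 : x ^ 2 ≤ l / 16 := by
    have e1 : x ^ 2 = 2 * δ ^ 2 * l := by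
      rw [hx, div_pow, hs02]
      field_simp
    rw [e1]
    have e2 : δ ^ 2 ≤ (1 / 8) ^ 2 := pow_le_pow_left₀ hδ0 hδ 2
    nlinarith
  have h4 : 1 + x ≤ 2 * Real.exp (x ^ 2 / 2) := by
    have e1 : 1 + x ≤ Real.exp x := by linarith [Real.add_one_le_exp x]
    have e2 : Real.exp x ≤ Real.exp (1 / 2 + x ^ 2 / 2) := by
      apply Real.exp_le_exp.mpr
      nlinarith [sq_nonneg (x - 1)]
    rw [Real.exp_add] at e2
    have e3 : Real.exp (1 / 2) ≤ 2 := by
      have h4 : Real.exp (1 / 2) ≤ 1 / (1 - 1 / 2) := Real.exp_bound_div_one_sub_of_interval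
        (by norm_num) (by norm_num)
      linarith
    have e4 : Real.exp (1 / 2) * Real.exp (x ^ 2 / 2) ≤ 2 * Real.exp (x ^ 2 / 2) :=
      mul_le_mul_of_nonneg_right e3 (Real.exp_pos _).le
    linarith
  have h5 : c / 2 * Real.exp (-(l / 16)) ≤ c * Real.exp (-(x ^ 2 / 2)) / (1 + x) := by
    rw [le_div_iff₀ (by linarith)]
    have e1 : c / 2 * Real.exp (-(l / 16)) * (1 + x)
        ≤ c / 2 * Real.exp (-(l / 16)) * (2 * Real.exp (x ^ 2 / 2)) :=
      mul_le_mul_of_nonneg_left h4 (by positivity)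
    have e2 : c / 2 * Real.exp (-(l / 16)) * (2 * Real.exp (x ^ 2 / 2)) =
        c * Real.exp (-(l / 16) + x ^ 2 / 2) := by
      rw [Real.exp_add]
      ring
    have e3 : Real.exp (-(l / 16) + x ^ 2 / 2) ≤ Real.exp (-(x ^ 2 / 2)) :=
      Real.exp_le_exp.mpr (by linarith)
    have e4 : c * Real.exp (-(l / 16) + x ^ 2 / 2) ≤ c * Real.exp (-(x ^ 2 / 2)) :=
      mul_le_mul_of_nonneg_left e3 hc.le
    linarith
  linarith

/-! ### the final computation -/

theorem core {P X X' t t' t0 g B η E1 E1' E2 E3 τ : ℝ} (hη : 0 ≤ η) (hB : 1 ≤ B) (ht0 : 0 ≤ t0)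
    (hg0 : 0 ≤ g) (hg : g ≤ B * t0) (h1 : |X - t| ≤ E1 * g) (h1' : |X' - t'| ≤ E1' * g)
    (hE1 : E1 ≤ 6 * η) (hE1' : E1' ≤ 6 * η) (hU : P ≤ X + E2 * g + τ) (hE2 : E2 ≤ 4 * η)
    (hL : X' ≤ P + E3 * g) (hE3 : E3 ≤ 4 * η) (ht : |t - t0| ≤ 2 * η * t0)
    (ht' : |t' - t0| ≤ 2 * η * t0) (hτ : τ ≤ η * t0) : |P - t0| ≤ 20 * B * η * t0 := by
  rw [abs_le] at ht ht' h1 h1' ⊢
  have a1 : E1 * g ≤ 6 * η * g := mul_le_mul_of_nonneg_right hE1 hg0
  have a1' : E1' * g ≤ 6 * η * g := mul_le_mul_of_nonneg_right hE1' hg0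
  have a2 : E2 * g ≤ 4 * η * g := mul_le_mul_of_nonneg_right hE2 hg0
  have a3 : E3 * g ≤ 4 * η * g := mul_le_mul_of_nonneg_right hE3 hg0
  have a4 : η * g ≤ B * η * t0 := by
    calc η * g ≤ η * (B * t0) := mul_le_mul_of_nonneg_left hg hη
      _ = B * η * t0 := by ring
  have a5 : 0 ≤ η * t0 := by positivity
  have a6 : η * t0 ≤ B * (η * t0) := by nlinarith
  constructor
  · nlinarith [h1'.1]
  · nlinarith [h1.2]

/-! ### the groups -/

theorem existsJ (v p0 : ℕ) (hv : 1 ≤ v) (hp : 3 ≤ p0) (Y : ℝ) : ∃ J : ℕ,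
    Y * Real.exp (-((v : ℝ) * J)) ≤ Real.log p0 ∧
    ∀ g < J, Real.log p0 < Y * Real.exp (-((v : ℝ) * g)) := by
  classical
  have hlp : 0 < Real.log p0 := Real.log_pos (by exact_mod_cast (by omega : 1 < p0))
  have h1 : ∃ J : ℕ, Y * Real.exp (-((v : ℝ) * J)) ≤ Real.log p0 := by
    have h2 : Tendsto (fun J : ℕ => Y * Real.exp (-((v : ℝ) * J))) atTop (𝓝 (Y * 0)) := by
      refine Tendsto.const_mul Y ?_
      refine Real.tendsto_exp_neg_atTop_nhds_zero.comp ?_
      exact tendsto_natCast_atTop_atTop.const_mul_atTop (by exact_mod_cast (by omega : 0 < v))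
    rw [mul_zero] at h2
    obtain ⟨J, hJ⟩ := (h2.eventually (gt_mem_nhds hlp)).exists
    exact ⟨J, hJ.le⟩
  refine ⟨Nat.find h1, Nat.find_spec h1, fun g hg => ?_⟩
  have := Nat.find_min h1 hg
  exact not_le.mp this

theorem mem_U {A : Par} (hY : 0 ≤ A.Y) (hp : 1 ≤ A.p0)
    (hJ : A.Yf A.J ≤ Real.log A.p0) (p : ℕ) :
    p ∈ A.U ↔ p.Prime ∧ A.p0 < p ∧ (p : ℝ) ≤ Real.exp A.Y := by
  classical
  have hp0 : (0 : ℝ) < A.p0 := by exact_mod_cast (by omega : 0 < A.p0)
  have hY0 : A.Yf 0 = A.Y := by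
    unfold Par.Yf
    simp
  have hYg : ∀ g : ℕ, A.Yf g ≤ A.Y := by
    intro g
    unfold Par.Yf
    have : Real.exp (-((A.v : ℝ) * g)) ≤ 1 := Real.exp_le_one_iff.mpr (by
      have : 0 ≤ (A.v : ℝ) * g := by positivity
      linarith)
    nlinarith
  unfold Par.U Par.S
  rw [Finset.mem_biUnion]
  constructor
  · rintro ⟨g, hg, h⟩
    rw [Finset.mem_filter, Finset.mem_Icc] at h
    obtain ⟨⟨h1, h2⟩, h3, h4, h5⟩ := h
    refine ⟨h3, h4, ?_⟩
    have h6 : (p : ℝ) ≤ Real.exp (A.Yf g) := (Nat.le_floor_iff (Real.exp_pos _).le).mp h2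
    exact h6.trans (Real.exp_le_exp.mpr (hYg g))
  · rintro ⟨h3, h4, h6⟩
    have hpp : (A.p0 : ℝ) < p := by exact_mod_cast h4
    have hexp : Real.exp (A.Yf A.J) < p := by
      refine lt_of_le_of_lt ?_ hpp
      rw [← Real.le_log_iff_exp_le hp0]
      exact hJ
    have hJ0 : A.J ≠ 0 := by
      intro h0
      rw [h0, hY0] at hexp
      linarith
    obtain ⟨J', hJ'⟩ := Nat.exists_eq_succ_of_ne_zero hJ0
    have hex : ∃ g : ℕ, Real.exp (A.Yf (g + 1)) < p := ⟨J', by rw [hJ'] at hexp; exact hexp⟩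
    refine ⟨Nat.find hex, ?_, ?_⟩
    · rw [Finset.mem_range]
      have : Nat.find hex ≤ J' := Nat.find_min' hex (by rw [hJ'] at hexp; exact hexp)
      omega
    · rw [Finset.mem_filter, Finset.mem_Icc]
      refine ⟨⟨h3.one_lt.le, ?_⟩, h3, h4, Nat.find_spec hex⟩
      apply Nat.le_floor
      rcases Nat.eq_zero_or_pos (Nat.find hex) with h7 | h7
      · rw [h7, hY0]
        exact h6
      · obtain ⟨g', hg'⟩ := Nat.exists_eq_succ_of_ne_zero h7.ne'
        have h8 := Nat.find_min hex (m := g') (by omega)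
        rw [not_lt] at h8
        rw [hg']
        exact h8

/-! ### finiteness of the measure -/

theorem ze_cont : Continuous ze := by
  unfold ze
  rw [continuous_iff_continuousAt]
  intro t
  have h1 : (1 / 2 + I * t : ℂ) ≠ 1 := by
    intro h
    have := congrArg Complex.re h
    norm_num at this
  have h2 : ContinuousAt riemannZeta (1 / 2 + I * t : ℂ) := (differentiableAt_riemannZeta h1).continuousAt
  have h3 : ContinuousAt (fun t : ℝ => (1 / 2 + I * t : ℂ)) t := by fun_prop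
  exact ContinuousAt.comp (g := riemannZeta) h2 h3

theorem nu_fin (x : ℝ) {T : ℝ} (hT : 0 < T) : IsFiniteMeasure (nu x T) := by
  unfold nu
  apply isFiniteMeasure_withDensity_ofReal
  have h1 : Integrable (fun t : ℝ => ‖ze t‖ ^ 2 / Real.log T) (volume.restrict (Icc x (x + T))) := by
    have h2 : Continuous (fun t : ℝ => ‖ze t‖ ^ 2 / Real.log T) := (ze_cont.norm.pow 2).div_const _
    exact h2.continuousOn.integrableOn_compact isCompact_Icc
  have h3 : Integrable (fun t : ℝ => ‖ze t‖ ^ 2 / Real.log T) (un x T) := by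
    unfold un
    apply h1.smul_measure
    simp [hT]
  exact h3.hasFiniteIntegral

theorem tail_eq (x : ℝ) : tail x = tl x := rfl

theorem tl_small (ε : ℝ) (hε : 0 < ε) : ∃ N : ℝ, 0 ≤ N ∧ tl N ≤ ε := by
  have h1 : Tendsto (fun n : ℕ => gaussianReal 0 1 (Ioi (n : ℝ))) atTop
      (𝓝 (gaussianReal 0 1 (⋂ n : ℕ, Ioi (n : ℝ)))) := by
    apply tendsto_measure_iInter_atTop
    · intro n
      exact measurableSet_Ioi.nullMeasurableSet
    · intro m n hmn
      apply Ioi_subset_Ioi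
      exact_mod_cast hmn
    · exact ⟨0, measure_ne_top _ _⟩
  have h2 : (⋂ n : ℕ, Ioi (n : ℝ)) = (∅ : Set ℝ) := by
    apply eq_empty_of_forall_notMem
    intro y hy
    obtain ⟨n, hn⟩ := exists_nat_gt y
    have := mem_iInter.mp hy n
    exact absurd this (not_lt.mpr hn.le)
  rw [h2, measure_empty] at h1
  have h3 : Tendsto (fun n : ℕ => tl (n : ℝ)) atTop (𝓝 0) := by
    have := (ENNReal.tendsto_toReal ENNReal.zero_ne_top).comp h1
    rwa [ENNReal.toReal_zero] at this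
  obtain ⟨n, hn⟩ := (h3.eventually (gt_mem_nhds hε)).exists
  exact ⟨n, Nat.cast_nonneg n, hn.le⟩

end Pool.Agent.Lib.G2.H5
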