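import Mathlib
import Pool.Agent.Lib.MP_f9aece_nt_g2.H5a

/-!
The law of `log |zeta|` under the measure `|zeta| ^ 2`, module H5: the assembly (choice of the
parameters).
-/

set_option autoImplicit false

namespace Pool.Agent.Lib.G2.H5

open MeasureTheory Set Filter Topology Complex ProbabilityTheory
open Pool.Agent.Lib.GT

/-! ### large `T` -/

/-- the conditions on `L = log T` -/
structure Lg (c C η N K D ρ δ M e L : ℝ) : Prop where
  h0 : 0 < L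
  hl : 1 ≤ Real.log L
  h4 : 4 * K + 4 ≤ Real.log L
  h1 : C * (4 * K + 2 * D) * (1 + 2 * D) / Real.sqrt (Real.log L) ≤ η / 2
  h2 : 2 / Real.sqrt (Real.log L) ≤ ρ / 2
  h3 : N * Real.sqrt (Real.log L / 2) ≤ δ * Real.log L
  hM : M ≤ L
  hlen : L ^ 1000 ≤ Real.exp (e * L)
  hτ : L ^ (-(1 / 8) : ℝ) ≤ η * (c / 2 * Real.exp (-(Real.log L / 16)))

theorem ev_L {c C η N K D ρ δ M e : ℝ} (hc : 0 < c) (hη : 0 < η) (hN : 0 ≤ N) (hρ : 0 < ρ) (hδ : 0 < δ)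
    (he : 0 < e) : ∀ᶠ L : ℝ in atTop, Lg c C η N K D ρ δ M e L := by
  have hsq : Tendsto (fun L : ℝ => Real.sqrt (Real.log L)) atTop atTop :=
    Real.tendsto_sqrt_atTop.comp Real.tendsto_log_atTop
  have a1 : ∀ᶠ L : ℝ in atTop, C * (4 * K + 2 * D) * (1 + 2 * D) / Real.sqrt (Real.log L) ≤ η / 2 := by
    have h : Tendsto (fun L : ℝ => C * (4 * K + 2 * D) * (1 + 2 * D) / Real.sqrt (Real.log L)) atTop
        (𝓝 0) := hsq.const_div_atTop _
    exact (h.eventually (gt_mem_nhds (by positivity : 0 < η / 2))).mono fun _ h => h.le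
  have a2 : ∀ᶠ L : ℝ in atTop, 2 / Real.sqrt (Real.log L) ≤ ρ / 2 := by
    have h : Tendsto (fun L : ℝ => 2 / Real.sqrt (Real.log L)) atTop (𝓝 0) := hsq.const_div_atTop _
    exact (h.eventually (gt_mem_nhds (by positivity : 0 < ρ / 2))).mono fun _ h => h.le
  have a3 : ∀ᶠ L : ℝ in atTop, N * Real.sqrt (Real.log L / 2) ≤ δ * Real.log L := by
    filter_upwards [hsq.eventually_ge_atTop (N / δ), Real.tendsto_log_atTop.eventually_ge_atTop 0]
      with L h1 h2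
    have h3 : Real.sqrt (Real.log L / 2) ≤ Real.sqrt (Real.log L) := Real.sqrt_le_sqrt (by linarith)
    have h4 : N ≤ δ * Real.sqrt (Real.log L) := by
      rw [div_le_iff₀ hδ] at h1
      linarith
    have h5 : Real.sqrt (Real.log L) * Real.sqrt (Real.log L) = Real.log L := Real.mul_self_sqrt h2
    calc N * Real.sqrt (Real.log L / 2) ≤ N * Real.sqrt (Real.log L) := mul_le_mul_of_nonneg_left h3 hN
      _ ≤ δ * Real.sqrt (Real.log L) * Real.sqrt (Real.log L) :=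
          mul_le_mul_of_nonneg_right h4 (Real.sqrt_nonneg _)
      _ = δ * Real.log L := by rw [mul_assoc, h5]
  have a4 : ∀ᶠ L : ℝ in atTop, L ^ 1000 ≤ Real.exp (e * L) := by
    have h6 : Tendsto (fun L : ℝ => (e * L) ^ 1000 * Real.exp (-(e * L))) atTop (𝓝 0) :=
      (Real.tendsto_pow_mul_exp_neg_atTop_nhds_zero 1000).comp (tendsto_id.const_mul_atTop he)
    have h7 : 0 < e ^ 1000 := by positivity
    filter_upwards [h6.eventually (gt_mem_nhds h7)] with L h8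
    rw [mul_pow, Real.exp_neg, ← div_eq_mul_inv, div_lt_iff₀ (Real.exp_pos _)] at h8
    exact (lt_of_mul_lt_mul_left h8 h7.le).le
  have a5 : ∀ᶠ L : ℝ in atTop, L ^ (-(1 / 8) : ℝ) ≤ η * (c / 2 * Real.exp (-(Real.log L / 16))) := by
    have h6 : Tendsto (fun L : ℝ => Real.exp (-(Real.log L / 16))) atTop (𝓝 0) :=
      Real.tendsto_exp_neg_atTop_nhds_zero.comp
        (Real.tendsto_log_atTop.atTop_div_const (by norm_num : (0 : ℝ) < 16))
    have h7 : 0 < η * (c / 2) := by positivity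
    filter_upwards [h6.eventually (gt_mem_nhds h7), eventually_gt_atTop 0] with L h8 h9
    have e1 : L ^ (-(1 / 8) : ℝ) = Real.exp (-(Real.log L / 16)) * Real.exp (-(Real.log L / 16)) := by
      rw [Real.rpow_def_of_pos h9, ← Real.exp_add]
      congr 1
      ring
    rw [e1]
    calc Real.exp (-(Real.log L / 16)) * Real.exp (-(Real.log L / 16))
        ≤ η * (c / 2) * Real.exp (-(Real.log L / 16)) :=
          mul_le_mul_of_nonneg_right h8.le (Real.exp_pos _).le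
      _ = _ := by ring
  filter_upwards [eventually_gt_atTop 0, Real.tendsto_log_atTop.eventually_ge_atTop 1,
    Real.tendsto_log_atTop.eventually_ge_atTop (4 * K + 4), a1, a2, a3, eventually_ge_atTop M, a4, a5]
    with L b1 b2 b3 b4 b5 b6 b7 b8 b9
  exact ⟨b1, b2, b3, b4, b5, b6, b7, b8, b9⟩

theorem ev_T {c C η N K D ρ δ M e : ℝ} (hc : 0 < c) (hη : 0 < η) (hN : 0 ≤ N) (hρ : 0 < ρ) (hδ : 0 < δ)
    (he : 0 < e) (T1 : ℝ) : ∃ T0 : ℝ, ∀ T : ℝ, T0 ≤ T → T1 ≤ T ∧ Lg c C η N K D ρ δ M e (Real.log T) := by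
  have h := Real.tendsto_log_atTop.eventually (ev_L (C := C) (K := K) (D := D) (M := M) hc hη hN hρ hδ he)
  obtain ⟨T0, hT0⟩ := eventually_atTop.mp (h.and (eventually_ge_atTop T1))
  exact ⟨T0, fun T hT => ⟨(hT0 T hT).2, (hT0 T hT).1⟩⟩

/-! ### choice of constants -/

theorem choose_v2 (K K' η : ℝ) (hK : 0 ≤ K) (hη : 0 < η) (n0 : ℕ) : ∃ v : ℕ, n0 ≤ v ∧
    K * Real.exp (-((v : ℝ) / 2)) ≤ η ∧ K * Real.exp (-(v : ℝ)) ≤ η ∧ K' * (1 / (v : ℝ)) ≤ η := by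
  have h1 : Tendsto (fun v : ℕ => K * Real.exp (-((v : ℝ) / 2))) atTop (𝓝 (K * 0)) := by
    refine Tendsto.const_mul K ?_
    exact Real.tendsto_exp_neg_atTop_nhds_zero.comp
      (tendsto_natCast_atTop_atTop.atTop_div_const (by norm_num))
  have h2 : Tendsto (fun v : ℕ => K' * (1 / (v : ℝ))) atTop (𝓝 (K' * 0)) :=
    Tendsto.const_mul K' tendsto_one_div_atTop_nhds_zero_nat
  rw [mul_zero] at h1 h2
  obtain ⟨v, h3, h4, h5⟩ := ((h1.eventually (gt_mem_nhds hη)).and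
    ((h2.eventually (gt_mem_nhds hη)).and (eventually_ge_atTop n0))).exists
  refine ⟨v, h5, h3.le, le_trans ?_ h3.le, h4.le⟩
  refine mul_le_mul_of_nonneg_left (Real.exp_le_exp.mpr ?_) hK
  have : (0 : ℝ) ≤ v := Nat.cast_nonneg v
  linarith

theorem choose_e (K K' η : ℝ) (hη : 0 < η) : ∃ e : ℝ, 0 < e ∧ e ≤ 1 / 100 ∧
    K * Real.sqrt e ≤ η ∧ K' * e ≤ η := by
  have h1 : Tendsto (fun e : ℝ => K * Real.sqrt e) (𝓝[>] 0) (𝓝 (K * Real.sqrt 0)) :=
    ((continuous_const.mul Real.continuous_sqrt).tendsto 0).mono_left nhdsWithin_le_nhds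
  have h2 : Tendsto (fun e : ℝ => K' * e) (𝓝[>] 0) (𝓝 (K' * 0)) :=
    ((continuous_const.mul continuous_id).tendsto 0).mono_left nhdsWithin_le_nhds
  rw [Real.sqrt_zero, mul_zero] at h1
  rw [mul_zero] at h2
  obtain ⟨e, h3, h4, h5⟩ := ((h1.eventually (gt_mem_nhds hη)).and
    ((h2.eventually (gt_mem_nhds hη)).and
      (Ioc_mem_nhdsGT (show (0 : ℝ) < 1 / 100 by norm_num)))).exists
  exact ⟨e, h5.1, h5.2, h3.le, h4.le⟩

theorem choose_k (K η : ℝ) (hη : 0 < η) : ∃ κ : ℝ, 1 ≤ κ ∧ K * Real.exp (-(2 * κ)) ≤ η := by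
  have h1 : Tendsto (fun κ : ℝ => K * Real.exp (-(2 * κ))) atTop (𝓝 (K * 0)) := by
    refine Tendsto.const_mul K ?_
    exact Real.tendsto_exp_neg_atTop_nhds_zero.comp (tendsto_id.const_mul_atTop (by norm_num))
  rw [mul_zero] at h1
  obtain ⟨κ, h2, h3⟩ := ((h1.eventually (gt_mem_nhds hη)).and (eventually_ge_atTop 1)).exists
  exact ⟨κ, h3, h2.le⟩

theorem choose_r (a b c d η : ℝ) (hη : 0 < η) : ∃ ρ : ℝ, 0 < ρ ∧ ρ ≤ 1 / 10 ^ 8 ∧ a * ρ ≤ 1 / 2 ∧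
    b * ρ ≤ 1 / 2 ∧ c * ρ ≤ 1 / 2 ∧ d * ρ ≤ η := by
  have h : ∀ a : ℝ, Tendsto (fun e : ℝ => a * e) (𝓝[>] 0) (𝓝 0) := by
    intro a
    have h2 : Tendsto (fun e : ℝ => a * e) (𝓝[>] 0) (𝓝 (a * 0)) :=
      ((continuous_const.mul continuous_id).tendsto 0).mono_left nhdsWithin_le_nhds
    rwa [mul_zero] at h2
  have hh : (0 : ℝ) < 1 / 2 := by norm_num
  obtain ⟨e, h1, h2, h3, h4, h5⟩ := (((h a).eventually (gt_mem_nhds hh)).and
    (((h b).eventually (gt_mem_nhds hh)).and (((h c).eventually (gt_mem_nhds hh)).and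
      (((h d).eventually (gt_mem_nhds hη)).and
        (Ioc_mem_nhdsGT (show (0 : ℝ) < 1 / 10 ^ 8 by norm_num)))))).exists
  exact ⟨e, h5.1, h5.2, h1.le, h2.le, h3.le, h4.le⟩

theorem choose_d (a η ρ : ℝ) (hη : 0 < η) (hρ : 0 < ρ) : ∃ δ : ℝ, 0 < δ ∧ δ ≤ 1 / 8 ∧
    4 * δ ≤ ρ / 2 ∧ a * (2 * δ) ≤ η / 2 := by
  have h : ∀ a : ℝ, Tendsto (fun e : ℝ => a * e) (𝓝[>] 0) (𝓝 0) := by
    intro a
    have h2 : Tendsto (fun e : ℝ => a * e) (𝓝[>] 0) (𝓝 (a * 0)) :=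
      ((continuous_const.mul continuous_id).tendsto 0).mono_left nhdsWithin_le_nhds
    rwa [mul_zero] at h2
  obtain ⟨e, h1, h2, h3⟩ := (((h 4).eventually (gt_mem_nhds (by positivity : 0 < ρ / 2))).and
    (((h (a * 2)).eventually (gt_mem_nhds (by positivity : 0 < η / 2))).and
        (Ioc_mem_nhdsGT (show (0 : ℝ) < 1 / 8 by norm_num)))).exists
  exact ⟨e, h3.1, h3.2, h1.le, by linarith⟩

/-! ### the parameters for one sign -/

/-- what is needed from the parameters -/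
structure Pr (A : Par) (v p0 : ℕ) (sg ρ K D η B M e L V T t0 : ℝ) : Prop where
  ok : A.Ok
  hv : A.v = v
  hp : A.p0 = p0
  hi : A.i = 0
  hsg : A.sg = sg
  hbe : A.be ≤ ρ
  hb : A.b = 1 / 20
  hY : A.Y = L / M
  len : Len A T e
  vt : |A.vt - Real.log L| ≤ K
  tl : ∀ d : ℝ, |d| ≤ D → |tl ((V + d) / Real.sqrt A.s2) - t0| ≤ 2 * η * t0
  G : ∀ d : ℝ, |d| ≤ D → A.G (V + d) / A.be ≤ 4 * B * t0

theorem prep {C6 : ℝ} (hC6 : 0 ≤ C6) (hVar : ∀ A : Par, 1000 ≤ A.p0 → 1 ≤ A.Y →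
    (∀ p, p ∈ A.U ↔ p.Prime ∧ A.p0 < p ∧ (p : ℝ) ≤ Real.exp A.Y) →
    |A.vt - Real.log A.Y| ≤ C6 + Real.log A.p0) {c C η N K D ρ δ M e B T V sg : ℝ} (h : TF c C)
    {v p0 : ℕ} (hv4 : 4 ≤ v) (hp0 : 1000 ≤ p0) (hsg : sg = 1 ∨ sg = -1) (hT3 : 3 ≤ T)
    (hK : K = C6 + Real.log p0 + Real.log M) (hD : 0 ≤ D) (hM1 : 1 ≤ M) (hMv : 10 ^ 10 * v / e ≤ M)
    (he0 : 0 < e) (he1 : e ≤ 1 / 100) (hη : 0 < η) (hη1 : η ≤ 1 / 2) (hN : 0 ≤ N)
    (hB : Real.exp (1 / 2 + 2 * N) / c ≤ B) (hρD : D * ρ ≤ 1 / 2) (hρ8 : ρ ≤ 1 / 10 ^ 8)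
    (hδ0 : 0 < δ) (hδ8 : δ ≤ 1 / 8) (hδρ : 4 * δ ≤ ρ / 2) (hδK : C * (4 * K + 2 * D) * (2 * δ) ≤ η / 2)
    (hL : Lg c C η N K D ρ δ M e (Real.log T))
    (hVN : -(N * Real.sqrt (Real.log (Real.log T) / 2)) ≤ V) (hVδ : V ≤ δ * Real.log (Real.log T)) :
    ∃ A : Par, Pr A v p0 sg ρ K D η B M e (Real.log T) V T
      (tl (V / Real.sqrt (Real.log (Real.log T) / 2))) := by
  obtain ⟨L, hLdef⟩ : ∃ L : ℝ, L = Real.log T := ⟨_, rfl⟩
  obtain ⟨l, hldef⟩ : ∃ l : ℝ, l = Real.log L := ⟨_, rfl⟩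
  rw [← hLdef] at hL hVN hVδ ⊢
  obtain ⟨hLp, hl, hl4, hlC, hlρ, hlN, hML, hlen, -⟩ := hL
  rw [← hldef] at hl hl4 hlC hlρ hlN hVN hVδ ⊢
  have hc := h.hc
  have hC0 : 0 ≤ C := zero_le_one.trans h.hC
  have nM : 0 < M := zero_lt_one.trans_le hM1
  have hp1 : (1 : ℝ) ≤ p0 := by exact_mod_cast (by omega : 1 ≤ p0)
  have hlp := Real.log_nonneg hp1
  have hlM := Real.log_nonneg hM1
  have hK0 : 0 ≤ K := by linarith only [hK, hlp, hlM, hC6]
  have hVabs : |V| ≤ δ * l := by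
    rw [abs_le]
    exact ⟨by linarith only [hVN, hlN], hVδ⟩
  obtain ⟨V1, hV1⟩ : ∃ V1 : ℝ, V1 = max V 0 := ⟨_, rfl⟩
  have hV10 : 0 ≤ V1 := by rw [hV1]; exact le_max_right _ _
  have hV1δ : V1 ≤ δ * l := by rw [hV1]; exact max_le hVδ (by positivity)
  obtain ⟨J, hJ⟩ := existsJ v p0 (by omega) (by omega) (L / M)
  have hY1 : 1 ≤ L / M := by
    rw [le_div_iff₀ nM]
    linarith only [hML]
  obtain ⟨A0, hA0⟩ : ∃ A : Par, A = ⟨v, p0, J, 0, L / M, sg, 1, 1 / 20⟩ := ⟨_, rfl⟩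
  have hmem := mem_U (A := A0) (by rw [hA0]; exact zero_le_one.trans hY1)
    (by rw [hA0]; exact (by norm_num : 1 ≤ 1000).trans hp0) (by rw [hA0]; exact hJ.1)
  have hvar := hVar A0 (by rw [hA0]; exact hp0) (by rw [hA0]; exact hY1) hmem
  have hA0p : A0.p0 = p0 := by rw [hA0]
  have hA0Y : A0.Y = L / M := by rw [hA0]
  rw [hA0p, hA0Y, Real.log_div hLp.ne' nM.ne', ← hldef] at hvar
  have hvt : |A0.vt - l| ≤ K := by
    rw [abs_le] at hvar ⊢
    constructor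
    · linarith only [hvar.1, hK, hlM]
    · linarith only [hvar.2, hK, hlM]
  obtain ⟨s2, hs2def⟩ : ∃ s2 : ℝ, s2 = A0.s2 := ⟨_, rfl⟩
  have hs2v : s2 = A0.vt / 2 := hs2def
  have hs2l : |s2 - l / 2| ≤ K := by
    rw [hs2v]
    rw [abs_le] at hvt ⊢
    constructor
    · linarith only [hvt.1, hK0]
    · linarith only [hvt.2, hK0]
  have hs24 : l / 4 ≤ s2 := by
    have := (abs_le.mp hs2l).1
    linarith only [this, hl4, hK0]
  have hs21 : 1 ≤ s2 := by linarith only [hs24, hl4, hK0]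
  have hs2p : 0 < s2 := zero_lt_one.trans_le hs21
  obtain ⟨s, hs⟩ : ∃ s : ℝ, s = Real.sqrt s2 := ⟨_, rfl⟩
  have hsp : 0 < s := by rw [hs]; exact Real.sqrt_pos.mpr hs2p
  have hss : s ^ 2 = s2 := by rw [hs]; exact Real.sq_sqrt hs2p.le
  have hl2p : 0 < l / 2 := by linarith only [hl]
  have hs0p : 0 < Real.sqrt (l / 2) := Real.sqrt_pos.mpr hl2p
  have hs0s : Real.sqrt (l / 2) ^ 2 = l / 2 := Real.sq_sqrt hl2p.le
  have hs2' : l / 4 ≤ s ^ 2 := by rw [hss]; exact hs24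
  have hsK : |s ^ 2 - Real.sqrt (l / 2) ^ 2| ≤ K := by rw [hss, hs0s]; exact hs2l
  obtain ⟨sc1, sc2, -⟩ := scales hl hsp hs0p hs2' hs0s hsK
  obtain ⟨be, hbe⟩ : ∃ be : ℝ, be = (V1 + s) / s2 := ⟨_, rfl⟩
  have hbe0 : 0 < be := by rw [hbe]; positivity
  have hbeρ : be ≤ ρ := by
    have e1 : be = V1 / s ^ 2 + 1 / s := by
      rw [hbe, ← hss]
      field_simp
    have e2 : V1 / s ^ 2 ≤ 4 * δ := by
      rw [div_le_iff₀ (by positivity)]
      have := mul_le_mul_of_nonneg_left hs2' (by linarith only [hδ0] : 0 ≤ 4 * δ)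
      linarith only [this, hV1δ]
    have hw0 : 0 < Real.sqrt l := Real.sqrt_pos.mpr (by linarith only [hl])
    have e3 : 1 / s ≤ 2 / Real.sqrt l := by
      rw [div_le_div_iff₀ hsp hw0]
      linarith only [sc1]
    rw [e1]
    linarith only [e2, e3, hδρ, hlρ]
  have hN2 : -(V / s) ≤ 2 * N := by
    rw [← neg_div, div_le_iff₀ hsp]
    have := mul_le_mul_of_nonneg_left sc2 hN
    linarith only [this, hVN]
  obtain ⟨A, hA⟩ : ∃ A : Par, A = ⟨v, p0, J, 0, L / M, sg, be, 1 / 20⟩ := ⟨_, rfl⟩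
  have hAv : A.v = v := by rw [hA]
  have hAp : A.p0 = p0 := by rw [hA]
  have hAi : A.i = 0 := by rw [hA]
  have hAY : A.Y = L / M := by rw [hA]
  have hAsg : A.sg = sg := by rw [hA]
  have hAbe : A.be = be := by rw [hA]
  have hAb : A.b = 1 / 20 := by rw [hA]
  have hAs : A.s2 = s2 := by rw [hA, hs2def, hA0]; rfl
  have hAvt : A.vt = A0.vt := by rw [hA, hA0]; rfl
  have hOk : A.Ok := by
    refine ⟨?_, ?_, ?_, ?_, ?_, ?_, ?_, ?_, ?_⟩
    · rw [hAv]; exact hv4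
    · rw [hAp]; exact hp0
    · rw [hAY]; exact hY1
    · rw [hA]; exact hJ
    · rw [hAsg]; exact hsg
    · rw [hAbe]; exact hbe0
    · rw [hAbe, hAb]; linarith only [hbeρ, hρ8]
    · rw [hAb]
    · rw [hAs]; exact hs21
  have near' : ∀ d : ℝ, |d| ≤ D → |tl ((V + d) / s) - tl (V / Real.sqrt (l / 2))| ≤
      2 * η * tl (V / Real.sqrt (l / 2)) := by
    intro d hd
    obtain ⟨n1, n2⟩ := near (η := η) (C := C) hl hVabs hd hδ0.le (by linarith only [hδ8]) hsp hs0p hs2' hs0s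
      hsK hC0 hδK hlC
    exact cmp h n1 n2 hη.le hη1
  refine ⟨A, hOk, hAv, hAp, hAi, hAsg, by rw [hAbe]; exact hbeρ, hAb, hAY, ?_, ?_, ?_, ?_⟩
  · refine ⟨he0, he1, hT3, ?_, ?_⟩
    · unfold Par.KY
      rw [hAv, hAi, hAY, ← hLdef]
      rw [div_le_iff₀ he0] at hMv
      push_cast
      rw [zero_add, mul_one, mul_div_assoc', mul_div_assoc', div_le_iff₀ nM]
      have := mul_le_mul_of_nonneg_right hMv hLp.le
      linarith only [this]
    · rw [← hLdef]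
      exact hlen
  · rw [hAvt, ← hldef]
    exact hvt
  · intro d hd
    rw [hAs, ← hs]
    exact near' d hd
  · intro d hd
    rw [Gf_eq, hAs, hAbe, div_le_iff₀ hbe0]
    have g1 := Gf_shift (s2 := s2) (V := V) hbe0.le hd (by
      have := mul_le_mul_of_nonneg_left hbeρ hD
      linarith only [this, hρD])
    have g2 := Gf_win (be := be) h hsp hV1 (by rw [hbe, hss]) hN hN2 hB
    rw [hss, div_le_iff₀ hbe0] at g2
    have g3 := near' 0 (by rw [abs_zero]; exact hD)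
    rw [add_zero] at g3
    have t0n := tl_nonneg (V / Real.sqrt (l / 2))
    have g4 : tl (V / s) ≤ 2 * tl (V / Real.sqrt (l / 2)) := by
      have g5 := (abs_le.mp g3).2
      have g6 : 2 * η * tl (V / Real.sqrt (l / 2)) ≤ 1 * tl (V / Real.sqrt (l / 2)) :=
        mul_le_mul_of_nonneg_right (by linarith only [hη1]) t0n
      linarith only [g5, g6]
    have hB0 : 0 ≤ B := le_trans (by positivity) hB
    have g7 : B * tl (V / s) * be ≤ B * (2 * tl (V / Real.sqrt (l / 2))) * be :=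
      mul_le_mul_of_nonneg_right (mul_le_mul_of_nonneg_left g4 hB0) hbe0.le
    linarith only [g1, g2, g7]

/-- the error term of the law of the prime sum -/
theorem E1_bd {C1 C1' p0 v r0 be ρ ev e η : ℝ} (hC1 : 0 ≤ C1) (hr0 : 0 ≤ r0) (h1 : C1 * (1 / p0) ≤ η)
    (h2 : C1 * (1 / v) ≤ η) (h3 : C1 * (1 / r0) ≤ η) (hbe : be ≤ ρ) (h4 : 20 * C1 * r0 * ρ ≤ η)
    (h5 : C1' * ev ≤ η) (h6 : C1' * Real.sqrt e ≤ η) :
    C1 * (1 / p0 + 1 / v + 1 / r0 + be / (1 / 20) * r0) + C1' * (ev + Real.sqrt e) ≤ 6 * η := by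
  have h7 : 20 * C1 * r0 * be ≤ 20 * C1 * r0 * ρ := mul_le_mul_of_nonneg_left hbe (by positivity)
  have e1 : C1 * (1 / p0 + 1 / v + 1 / r0 + be / (1 / 20) * r0) + C1' * (ev + Real.sqrt e) =
      C1 * (1 / p0) + C1 * (1 / v) + C1 * (1 / r0) + 20 * C1 * r0 * be + C1' * ev + C1' * Real.sqrt e := by
    ring
  rw [e1]
  linarith only [h1, h2, h3, h4, h5, h6, h7]

/-- levels above `-N` standard deviations -/
def MainTN : Prop := ∀ ε : ℝ, 0 < ε → ∀ N : ℝ, 0 ≤ N → ∃ δ T0 : ℝ, 0 < δ ∧ ∀ x T : ℝ, T0 ≤ T →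
  |x| ≤ T ^ (9 / 10 : ℝ) → (0 < Real.log T ∧ 1 ≤ Real.log (Real.log T) ∧
  N * Real.sqrt (Real.log (Real.log T) / 2) ≤ δ * Real.log (Real.log T)) ∧ ∀ V : ℝ,
  -(N * Real.sqrt (Real.log (Real.log T) / 2)) ≤ V → V ≤ δ * Real.log (Real.log T) →
  |(nu x T {t | Real.exp (Real.log (Real.log T) + V) < ‖ze t‖}).toReal
      - tl (V / Real.sqrt (Real.log (Real.log T) / 2))|
    ≤ ε * tl (V / Real.sqrt (Real.log (Real.log T) / 2)) ∧
  |(nu x T {t | ‖ze t‖ ≤ Real.exp (-(V - Real.log (Real.log T)))}).toReal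
      - tl (V / Real.sqrt (Real.log (Real.log T) / 2))|
    ≤ ε * tl (V / Real.sqrt (Real.log (Real.log T) / 2))

theorem mainTN (hX : LawNu) (hU : NuUpper) (hL : NuLower) (hUS : NuUpperS) (hLS : NuLowerS)
    (hV : Variance) (hT : TailFacts) : MainTN := by
  obtain ⟨C1, v1, hC1, hX⟩ := hX
  obtain ⟨c, C, htf⟩ := tf hT
  obtain ⟨⟨C6, hC6, hVar⟩, -⟩ := hV
  have hc := htf.hc
  intro ε0 hε0 N hN
  obtain ⟨B, hB1, hBN⟩ : ∃ B : ℝ, 1 ≤ B ∧ Real.exp (1 / 2 + 2 * N) / c ≤ B :=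
    ⟨max 1 (Real.exp (1 / 2 + 2 * N) / c), le_max_left _ _, le_max_right _ _⟩
  obtain ⟨ε, hε, hεε, hε1⟩ : ∃ ε : ℝ, 0 < ε ∧ ε ≤ ε0 ∧ ε ≤ 1 :=
    ⟨min ε0 1, lt_min hε0 one_pos, min_le_left _ _, min_le_right _ _⟩
  obtain ⟨η, hη, hηB⟩ : ∃ η : ℝ, 0 < η ∧ 20 * (4 * B) * η = ε :=
    ⟨ε / (20 * (4 * B)), by positivity, by field_simp⟩
  have hη1 : η ≤ 1 / 2 := by nlinarith only [hηB, hε1, hB1, hη]
  -- constants
  obtain ⟨p0, hp0, hp⟩ := choose_p C1 η hη 1000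
  obtain ⟨C1', T1, hC1', hT1, hX⟩ := hX p0 hp0
  obtain ⟨C2, v2, hC2, hU⟩ := hU p0 hp0
  obtain ⟨C3, T3, v3, hC3, hT3, hL⟩ := hL p0 hp0
  obtain ⟨C4, T4, v4, hC4, hT4, hUS⟩ := hUS p0 hp0
  obtain ⟨C5, T5, v5, hC5, hT5, hLS⟩ := hLS p0 hp0
  have n1 : 0 ≤ C1 := zero_le_one.trans hC1
  have n1' : 0 ≤ C1' := zero_le_one.trans hC1'
  have n2 : 0 ≤ C2 := zero_le_one.trans hC2
  have n3 : 0 ≤ C3 := zero_le_one.trans hC3
  have n4 : 0 ≤ C4 := zero_le_one.trans hC4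
  have n5 : 0 ≤ C5 := zero_le_one.trans hC5
  obtain ⟨r0, hr0, -, hr⟩ := choose_M C1 η 1 hη
  obtain ⟨v, hv0, hv1', hv2', hv3'⟩ := choose_v2 (C1' + C2 + C4) C1 η (by positivity) hη
    (max 4 (max v1 (max v2 (max v3 (max v4 v5)))))
  simp only [max_le_iff] at hv0
  obtain ⟨hv4, hvv1, hvv2, hvv3, hvv4, hvv5⟩ := hv0
  obtain ⟨e, he0, he1, heC1, heC5⟩ := choose_e C1' C5 η hη
  obtain ⟨M, hM1, hMm, hM⟩ := choose_M (C2 * Real.exp v + C3 + C4) η
    (max (10 ^ 20 * Real.exp v) (10 ^ 10 * v / e)) hη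
  obtain ⟨hM20, hMv⟩ := max_le_iff.mp hMm
  obtain ⟨T2, hT2, hU⟩ := hU v hvv2 M hM20
  obtain ⟨κ, hκ1, hκ⟩ := choose_k (C5 * M ^ 10) η hη
  have nM : 0 < M := zero_lt_one.trans_le hM1
  have nr : 0 < r0 := zero_lt_one.trans_le hr0
  have hlM := Real.log_nonneg hM1
  have hp1 : (1 : ℝ) ≤ p0 := by exact_mod_cast (by omega : 1 ≤ p0)
  have hlp := Real.log_nonneg hp1
  have q1 : (C1' + C2 + C4) * Real.exp (-(v : ℝ)) = C1' * Real.exp (-(v : ℝ)) +
      C2 * Real.exp (-(v : ℝ)) + C4 * Real.exp (-(v : ℝ)) := by ring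
  have q2 : (C1' + C2 + C4) * Real.exp (-((v : ℝ) / 2)) = C1' * Real.exp (-((v : ℝ) / 2)) +
      C2 * Real.exp (-((v : ℝ) / 2)) + C4 * Real.exp (-((v : ℝ) / 2)) := by ring
  have q3 : (C2 * Real.exp v + C3 + C4) * (1 / M) = C2 * (Real.exp v / M) + C3 * (1 / M) +
      C4 * (1 / M) := by ring
  rw [q1] at hv2'
  rw [q2] at hv1'
  rw [q3] at hM
  have r1 : 0 ≤ C1' * Real.exp (-(v : ℝ)) := by positivity
  have r2 : 0 ≤ C2 * Real.exp (-(v : ℝ)) := by positivity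
  have r3 : 0 ≤ C4 * Real.exp (-(v : ℝ)) := by positivity
  have r4 : 0 ≤ C1' * Real.exp (-((v : ℝ) / 2)) := by positivity
  have r5 : 0 ≤ C2 * Real.exp (-((v : ℝ) / 2)) := by positivity
  have r6 : 0 ≤ C4 * Real.exp (-((v : ℝ) / 2)) := by positivity
  have r7 : 0 ≤ C2 * (Real.exp v / M) := by positivity
  have r8 : 0 ≤ C3 * (1 / M) := by positivity
  have r9 : 0 ≤ C4 * (1 / M) := by positivity
  have s1 : C1' * Real.exp (-(v : ℝ)) ≤ η := by linarith only [hv2', r1, r2, r3]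
  have s2 : C4 * Real.exp (-(v : ℝ)) ≤ η := by linarith only [hv2', r1, r2, r3]
  have s3 : C2 * Real.exp (-((v : ℝ) / 2)) ≤ η := by linarith only [hv1', r4, r5, r6]
  have s4 : C2 * (Real.exp v / M) ≤ η := by linarith only [hM, r7, r8, r9]
  have s5 : C3 * (1 / M) ≤ η := by linarith only [hM, r7, r8, r9]
  have s6 : C4 * (1 / M) ≤ η := by linarith only [hM, r7, r8, r9]
  obtain ⟨K, hK⟩ : ∃ K : ℝ, K = C6 + Real.log p0 + Real.log M := ⟨_, rfl⟩
  have hK0 : 0 ≤ K := by linarith only [hK, hlp, hlM, hC6]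
  obtain ⟨D, hD⟩ : ∃ D : ℝ, D = K + 8 * Real.log M + κ + 1 := ⟨_, rfl⟩
  have hD0 : 0 ≤ D := by linarith only [hD, hK0, hlM, hκ1]
  obtain ⟨ρ, hρ0, hρ8, hρ1, hρ2, hρ3, hρ4⟩ := choose_r D (8 * Real.log M) (20 * r0) (20 * C1 * r0) η hη
  obtain ⟨δ, hδ0, hδ8, hδρ, hδK⟩ := choose_d (C * (4 * K + 2 * D)) η ρ hη hρ0
  obtain ⟨T0, hT0⟩ := ev_T (C := C) (K := K) (D := D) (M := M) hc hη hN hρ0 hδ0 he0
    (max 3 (max T1 (max T2 (max T3 (max T4 T5)))))
  refine ⟨δ, T0, hδ0, fun x T hT hx => ?_⟩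
  obtain ⟨b1, hLg⟩ := hT0 T hT
  simp only [max_le_iff] at b1
  obtain ⟨b3, bT1, bT2, bT3, bT4, bT5⟩ := b1
  refine ⟨⟨hLg.h0, hLg.hl, hLg.h3⟩, fun V hVN hVδ => ?_⟩
  have pr : ∀ sg : ℝ, sg = 1 ∨ sg = -1 → _ := fun sg hsg =>
    prep hC6 hVar htf hv4 hp0 hsg b3 hK hD0 hM1 hMv he0 he1 hη hη1 hN hBN hρ1 hρ8 hδ0 hδ8 hδρ hδK
      hLg hVN hVδ
  have hτ := hLg.hτ
  have hLp := hLg.h0
  have hl := hLg.hl
  obtain ⟨l, hldef⟩ : ∃ l : ℝ, l = Real.log (Real.log T) := ⟨_, rfl⟩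
  rw [← hldef] at hτ hVN hVδ hl ⊢
  have hlow := t0_low htf (V := V) (l := l) (by linarith only [hl]) hδ0.le hδ8 hVδ
  obtain ⟨t0, ht0⟩ : ∃ t0 : ℝ, t0 = tl (V / Real.sqrt (l / 2)) := ⟨_, rfl⟩
  have pr : ∀ sg : ℝ, sg = 1 ∨ sg = -1 → ∃ A : Par, Pr A v p0 sg ρ K D η B M e (Real.log T) V T t0 := by
    intro sg hsg
    have := pr sg hsg
    rw [← hldef, ← ht0] at this
    exact this
  rw [← ht0] at hlow ⊢
  have ht00 : 0 ≤ t0 := by rw [ht0]; exact tl_nonneg _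
  have hB0 : 0 ≤ B := by linarith only [hB1]
  have hg0 : 0 ≤ 4 * B * t0 := by positivity
  have hτ' : Real.log T ^ (-(1 / 8) : ℝ) ≤ η * t0 := hτ.trans (mul_le_mul_of_nonneg_left hlow hη.le)
  -- the law of the prime sum
  have law : ∀ (sg : ℝ) (A : Par), Pr A v p0 sg ρ K D η B M e (Real.log T) V T t0 →
      ∀ d W : ℝ, |d| ≤ D → W - sg * A.vt = V + d →
      |(nu x T {t | A.Good ∅ (om t) ∧ W < A.X ∅ (om t)}).toReal
        - tl ((V + d) / Real.sqrt A.s2)| ≤ (6 * η) * (4 * B * t0) := by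
    intro sg A hA d W hd hW
    have hs2 : 0 < A.s2 := zero_lt_one.trans_le hA.ok.hs
    have hsq : 0 < Real.sqrt A.s2 := Real.sqrt_pos.mpr hs2
    have hss : Real.sqrt A.s2 ^ 2 = A.s2 := Real.sq_sqrt hs2.le
    have h1 := hX A hA.ok (by rw [hA.hv]; exact hvv1) hA.hp T e bT1 hA.len x W r0 hx hr0 (by
      rw [hA.hb]
      have := mul_le_mul_of_nonneg_left hA.hbe (by positivity : 0 ≤ 20 * r0)
      calc A.be / (1 / 20) * r0 = 20 * r0 * A.be := by ring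
        _ ≤ 1 / 2 := this.trans hρ3)
    have h2 : (gaussianReal 0 (Real.toNNReal A.s2) (Ioi (W - A.sg * A.vt))).toReal =
        tl ((V + d) / Real.sqrt A.s2) := by
      have := htf.sc (Real.sqrt A.s2) (V + d) hsq
      rw [hss] at this
      rw [hA.hsg, hW]
      exact this
    rw [h2] at h1
    refine h1.trans ?_
    have h3 : A.Gs W / A.be ≤ 4 * B * t0 := by
      unfold Par.Gs
      rw [hA.hsg, hW]
      exact hA.G d hd
    have h4 : 0 ≤ A.Gs W / A.be := div_nonneg (by unfold Par.Gs; rw [Gf_eq]; exact Gf_nonneg _ _ _)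
      hA.ok.hbe.le
    have h5 := E1_bd (C1 := C1) (C1' := C1') (p0 := p0) (v := v) (r0 := r0) (be := A.be) (ρ := ρ)
      (ev := Real.exp (-(v : ℝ))) (e := e) (η := η) n1 nr.le hp hv3' hr hA.hbe hρ4 s1 heC1
    rw [hA.hv, hA.hp, hA.hb]
    exact (mul_le_mul_of_nonneg_right h5 h4).trans (mul_le_mul_of_nonneg_left h3 (by positivity))
  have gs : ∀ (sg : ℝ) (A : Par), Pr A v p0 sg ρ K D η B M e (Real.log T) V T t0 →
      ∀ d W : ℝ, |d| ≤ D → W - sg * A.vt = V + d → A.Gs W / A.be ≤ 4 * B * t0 ∧ 0 ≤ A.Gs W / A.be := by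
    intro sg A hA d W hd hW
    constructor
    · unfold Par.Gs
      rw [hA.hsg, hW]
      exact hA.G d hd
    · exact div_nonneg (by unfold Par.Gs; rw [Gf_eq]; exact Gf_nonneg _ _ _) hA.ok.hbe.le
  have fin : ∀ P : ℝ, |P - t0| ≤ 20 * (4 * B) * η * t0 → |P - t0| ≤ ε0 * t0 := by
    intro P h
    rw [hηB] at h
    exact h.trans (mul_le_mul_of_nonneg_right hεε ht00)
  have hLM : Real.log T / M / Real.log T = 1 / M := by field_simp
  have hLM2 : Real.log T / (Real.log T / M) = M := by field_simp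
  constructor
  · -- large values
    obtain ⟨A, hA⟩ := pr 1 (Or.inl rfl)
    have hvt := abs_le.mp hA.vt
    rw [← hldef] at hvt
    have w1 : |l - A.vt - 8 * Real.log M| ≤ D := by
      rw [abs_le]
      constructor
      · linarith only [hvt.2, hD, hκ1, hlM, hK0]
      · linarith only [hvt.1, hD, hκ1, hlM, hK0]
    have w2 : |l - A.vt + 1| ≤ D := by
      rw [abs_le]
      constructor
      · linarith only [hvt.2, hD, hκ1, hlM, hK0]
      · linarith only [hvt.1, hD, hκ1, hlM, hK0]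
    have w3 : |l - A.vt| ≤ D := by
      rw [abs_le]
      constructor
      · linarith only [hvt.2, hD, hκ1, hlM, hK0]
      · linarith only [hvt.1, hD, hκ1, hlM, hK0]
    have l1 := law 1 A hA (l - A.vt - 8 * Real.log M) (l + V - 8 * Real.log M) w1 (by ring)
    have l2 := law 1 A hA (l - A.vt + 1) (l + V + 1) w2 (by ring)
    obtain ⟨g1, g2⟩ := gs 1 A hA (l - A.vt) (l + V) w3 (by ring)
    have u1 := hU A hA.ok hA.hv hA.hp hA.hi hA.hsg (hA.hbe.trans hρ8) T bT2 hA.hY x (l + V) hx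
    have u2 := hL A hA.ok (by rw [hA.hv]; exact hvv3) hA.hp hA.hsg T e bT3 hA.len x (l + V) 1 le_rfl
    rw [hA.hY, hLM] at u2
    apply fin
    refine core (X := (nu x T {t | A.Good ∅ (om t) ∧ l + V - 8 * Real.log M < A.X ∅ (om t)}).toReal)
      (X' := (nu x T {t | A.Good ∅ (om t) ∧ l + V + 1 < A.X ∅ (om t)}).toReal)
      (t := tl ((V + (l - A.vt - 8 * Real.log M)) / Real.sqrt A.s2))
      (t' := tl ((V + (l - A.vt + 1)) / Real.sqrt A.s2)) (g := 4 * B * t0) (E1 := 6 * η) (E1' := 6 * η)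
      (E2 := 4 * η) (E3 := 4 * η) (τ := Real.log T ^ (-(1 / 8) : ℝ)) hη.le (by linarith only [hB1]) ht00
      hg0 le_rfl l1 l2 le_rfl le_rfl ?_ le_rfl ?_ le_rfl (hA.tl _ w1) (hA.tl _ w2) hτ'
    · refine u1.trans ?_
      have f1 : Real.exp (8 * (A.be * Real.log M)) ≤ 2 := by
        have f2 : 8 * (A.be * Real.log M) ≤ 1 / 2 := by
          have := mul_le_mul_of_nonneg_left hA.hbe (by positivity : 0 ≤ 8 * Real.log M)
          linarith only [this, hρ2]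
        refine (Real.exp_le_exp.mpr f2).trans ?_
        have h4 : Real.exp (1 / 2) ≤ 1 / (1 - 1 / 2) := Real.exp_bound_div_one_sub_of_interval
          (by norm_num) (by norm_num)
        linarith only [h4]
      have f3 : C2 * (Real.exp (-((v : ℝ) / 2)) + Real.exp v / M) ≤ 2 * η := by
        linarith only [s3, s4]
      have f4 : C2 * (Real.exp (-((v : ℝ) / 2)) + Real.exp v / M) * Real.exp (8 * (A.be * Real.log M))
          ≤ 2 * η * 2 := mul_le_mul f3 f1 (Real.exp_pos _).le (by positivity)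
      have f5 : C2 * (Real.exp (-((v : ℝ) / 2)) + Real.exp v / M) * Real.exp (8 * (A.be * Real.log M))
          * (A.Gs (l + V) / A.be) ≤ 2 * η * 2 * (4 * B * t0) :=
        mul_le_mul f4 g1 g2 (by positivity)
      linarith only [f5]
    · refine u2.trans ?_
      have f5 : C3 * (1 / M) * (A.Gs (l + V) / A.be) ≤ η * (4 * B * t0) :=
        mul_le_mul s5 g1 g2 hη.le
      have f6 : 0 ≤ η * (4 * B * t0) := by positivity
      linarith only [f5, f6]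
  · -- small values
    obtain ⟨A, hA⟩ := pr (-1) (Or.inr rfl)
    have hvt := abs_le.mp hA.vt
    rw [← hldef] at hvt
    have w1 : |A.vt - l| ≤ D := by
      rw [abs_le]
      constructor
      · linarith only [hvt.1, hD, hκ1, hlM, hK0]
      · linarith only [hvt.2, hD, hκ1, hlM, hK0]
    have w2 : |A.vt - l + κ| ≤ D := by
      rw [abs_le]
      constructor
      · linarith only [hvt.1, hD, hκ1, hlM, hK0]
      · linarith only [hvt.2, hD, hκ1, hlM, hK0]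
    have l1 := law (-1) A hA (A.vt - l) (V - l) w1 (by ring)
    have l2 := law (-1) A hA (A.vt - l + κ) (V - l + κ) w2 (by ring)
    obtain ⟨g1, g2⟩ := gs (-1) A hA (A.vt - l) (V - l) w1 (by ring)
    have u1 := hUS A hA.ok (by rw [hA.hv]; exact hvv4) hA.hp hA.hsg (by
      rw [hA.hb]
      have := hA.hbe
      linarith only [this, hρ8]) T e bT4 hA.len x (V - l) hx
    have u2 := hLS A hA.ok (by rw [hA.hv]; exact hvv5) hA.hp hA.hsg T e bT5 hA.len x (V - l) κ hx hκ1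
    rw [hA.hY, hLM, hA.hv] at u1
    rw [hA.hY, hLM2] at u2
    apply fin
    refine core (X := (nu x T {t | A.Good ∅ (om t) ∧ V - l < A.X ∅ (om t)}).toReal)
      (X' := (nu x T {t | A.Good ∅ (om t) ∧ V - l + κ < A.X ∅ (om t)}).toReal)
      (t := tl ((V + (A.vt - l)) / Real.sqrt A.s2))
      (t' := tl ((V + (A.vt - l + κ)) / Real.sqrt A.s2)) (g := 4 * B * t0) (E1 := 6 * η) (E1' := 6 * η)
      (E2 := 4 * η) (E3 := 4 * η) (τ := 0) hη.le (by linarith only [hB1]) ht00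
      hg0 le_rfl l1 l2 le_rfl le_rfl ?_ le_rfl ?_ le_rfl (hA.tl _ w1) (hA.tl _ w2) (by positivity)
    · refine u1.trans ?_
      have f3 : C4 * (Real.exp (-(v : ℝ)) + 1 / M) ≤ 2 * η := by linarith only [s2, s6]
      have f5 : C4 * (Real.exp (-(v : ℝ)) + 1 / M) * (A.Gs (V - l) / A.be) ≤ 2 * η * (4 * B * t0) :=
        mul_le_mul f3 g1 g2 (by positivity)
      have f6 : 0 ≤ η * (4 * B * t0) := by positivity
      linarith only [f5, f6]
    · refine u2.trans ?_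
      have f3 : C5 * (e + M ^ 10 * Real.exp (-(2 * κ))) ≤ 2 * η := by linarith only [heC5, hκ]
      have f5 : C5 * (e + M ^ 10 * Real.exp (-(2 * κ))) * (A.Gs (V - l) / A.be) ≤ 2 * η * (4 * B * t0) :=
        mul_le_mul f3 g1 g2 (by positivity)
      have f6 : 0 ≤ η * (4 * B * t0) := by positivity
      linarith only [f5, f6]

/-- the total mass and the two tails at a level -/
theorem fin_abs {P P0 m t t0 ε : ℝ} (hε : 0 < ε) (hε1 : ε ≤ 1) (h1 : P0 ≤ P) (h2 : P ≤ m)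
    (h3 : m ≤ 1 + 3 * ε / 8) (h4 : |P0 - t0| ≤ ε / 8 * t0) (h5 : 1 - ε / 8 ≤ t0) (h6 : t0 ≤ t)
    (h7 : t ≤ 1) : |P - t| ≤ ε * t := by
  have h8 := (abs_le.mp h4).1
  rw [abs_le]
  constructor
  · nlinarith
  · nlinarith

end Pool.Agent.Lib.G2.H5

namespace Pool.Agent.Lib.G2

open MeasureTheory Set Filter Topology ProbabilityTheory

open H5 in
/-- **H5**: the law of `log |zeta|` under the measure `|zeta| ^ 2 / log T`, both tails -/
theorem mainTwo (hX : LawNu) (hU : NuUpper) (hL : NuLower) (hUS : NuUpperS) (hLS : NuLowerS)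
    (hV : Variance) (hT : GT.TailFacts) : MainTwo := by
  have hanti : Antitone GT.tl := by
    obtain ⟨c, C4, hc, hC4, hlow, hcon, hsc, hanti⟩ := hT
    exact hanti
  have hN := mainTN hX hU hL hUS hLS hV hT
  intro ε0 hε0
  obtain ⟨ε, hε, hεε, hε1⟩ : ∃ ε : ℝ, 0 < ε ∧ ε ≤ ε0 ∧ ε ≤ 1 :=
    ⟨min ε0 1, lt_min hε0 one_pos, min_le_left _ _, min_le_right _ _⟩
  obtain ⟨N1, hN10, hN1⟩ := GT.tl_near_one (ε / 8) (by positivity)
  obtain ⟨N2, hN20, hN2⟩ := tl_small (ε / 8) (by positivity)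
  obtain ⟨N, hNdef⟩ : ∃ N : ℝ, N = max N1 N2 := ⟨_, rfl⟩
  have hN0 : 0 ≤ N := by rw [hNdef]; exact hN10.trans (le_max_left _ _)
  have hNa : 1 - ε / 8 ≤ GT.tl (-N) := hN1.trans (hanti (by
    rw [hNdef]
    exact neg_le_neg (le_max_left _ _)))
  have hNb : GT.tl N ≤ ε / 8 := (hanti (by rw [hNdef]; exact le_max_right _ _)).trans hN2
  obtain ⟨δ, T0, hδ, h⟩ := hN (ε / 8) (by positivity) N hN0
  refine ⟨δ, max T0 3, hδ, fun x T V hT hx hV => ?_⟩
  obtain ⟨hT0, hT3⟩ := max_le_iff.mp hT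
  have hTp : 0 < T := by linarith
  -- the case of the levels above `-N`
  obtain ⟨⟨hL0, hl1, hNl⟩, hm⟩ := h x T hT0 hx
  have hexp1 : Real.log T * Real.exp V = Real.exp (Real.log (Real.log T) + V) := by
    rw [Real.exp_add, Real.exp_log hL0]
  have hexp2 : Real.log T * Real.exp (-V) = Real.exp (-(V - Real.log (Real.log T))) := by
    rw [neg_sub, sub_eq_add_neg, Real.exp_add, Real.exp_log hL0]
  rw [hexp1, hexp2]
  obtain ⟨l, hldef⟩ : ∃ l : ℝ, l = Real.log (Real.log T) := ⟨_, rfl⟩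
  rw [← hldef] at hm hV hl1 hNl ⊢
  obtain ⟨s0, hs0def⟩ : ∃ s0 : ℝ, s0 = Real.sqrt (l / 2) := ⟨_, rfl⟩
  rw [← hs0def] at hm hNl ⊢
  have hs0 : 0 < s0 := by rw [hs0def]; exact Real.sqrt_pos.mpr (by linarith)
  -- the sets
  have := nu_fin x hTp
  obtain ⟨P, hP⟩ : ∃ P : ℝ → ℝ, P = fun V => (nu x T {t | Real.exp (l + V) < ‖ze t‖}).toReal := ⟨_, rfl⟩
  obtain ⟨Q, hQ⟩ : ∃ Q : ℝ → ℝ, Q = fun V => (nu x T {t | ‖ze t‖ ≤ Real.exp (-(V - l))}).toReal :=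
    ⟨_, rfl⟩
  have hfin : ∀ S : Set ℝ, nu x T S ≠ ⊤ := fun S => measure_ne_top _ _
  have hPm : ∀ V W : ℝ, V ≤ W → P W ≤ P V := by
    intro V W hVW
    rw [hP]
    apply ENNReal.toReal_mono (hfin _)
    apply measure_mono
    intro t ht
    exact lt_of_le_of_lt (Real.exp_le_exp.mpr (by linarith)) ht
  have hQm : ∀ V W : ℝ, V ≤ W → Q W ≤ Q V := by
    intro V W hVW
    rw [hQ]
    apply ENNReal.toReal_mono (hfin _)
    apply measure_mono
    intro t ht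
    exact le_trans ht (Real.exp_le_exp.mpr (by linarith))
  have hPQ : ∀ V : ℝ, ((nu x T) univ).toReal ≤ P V + Q (-V) := by
    intro V
    rw [hP, hQ]
    simp only
    rw [← ENNReal.toReal_add (hfin _) (hfin _)]
    apply ENNReal.toReal_mono
    · exact ENNReal.add_ne_top.mpr ⟨hfin _, hfin _⟩
    · refine le_trans (measure_mono ?_) (measure_union_le _ _)
      intro t _
      rcases lt_or_ge (Real.exp (l + V)) ‖ze t‖ with h1 | h1
      · left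
        exact h1
      · right
        have e1 : -(-V - l) = l + V := by ring
        show ‖ze t‖ ≤ Real.exp (-(-V - l))
        rw [e1]
        exact h1
  have hPle : ∀ V : ℝ, P V ≤ ((nu x T) univ).toReal := by
    intro V
    rw [hP]
    exact ENNReal.toReal_mono (hfin _) (measure_mono (subset_univ _))
  have hQle : ∀ V : ℝ, Q V ≤ ((nu x T) univ).toReal := by
    intro V
    rw [hQ]
    exact ENNReal.toReal_mono (hfin _) (measure_mono (subset_univ _))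
  have hm' : ∀ V : ℝ, -(N * s0) ≤ V → V ≤ δ * l →
      |P V - GT.tl (V / s0)| ≤ ε / 8 * GT.tl (V / s0) ∧ |Q V - GT.tl (V / s0)| ≤ ε / 8 * GT.tl (V / s0) := by
    intro V h1 h2
    rw [hP, hQ]
    exact hm V h1 h2
  have hNs0 : 0 ≤ N * s0 := by positivity
  have e1 : -(N * s0) / s0 = -N := by field_simp
  have e2 : N * s0 / s0 = N := by field_simp
  obtain ⟨a1, a2⟩ := hm' (-(N * s0)) le_rfl (by linarith)
  obtain ⟨a3, a4⟩ := hm' (N * s0) (by linarith) hNl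
  rw [e1] at a1 a2
  rw [e2] at a3 a4
  have hmass : ((nu x T) univ).toReal ≤ 1 + 3 * ε / 8 := by
    have h1 := hPQ (-(N * s0))
    rw [neg_neg] at h1
    have h2 := (abs_le.mp a1).2
    have h3 := (abs_le.mp a4).2
    have h4 := GT.tl_le_one (-N)
    have h5 := GT.tl_nonneg N
    nlinarith
  have goal : |P V - GT.tl (V / s0)| ≤ ε * GT.tl (V / s0) ∧ |Q V - GT.tl (V / s0)| ≤ ε * GT.tl (V / s0) := by
    rcases le_or_gt (-(N * s0)) V with hVN | hVN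
    · obtain ⟨g1, g2⟩ := hm' V hVN hV
      have h1 := GT.tl_nonneg (V / s0)
      constructor
      · nlinarith
      · nlinarith
    · have h5 : GT.tl (-N) ≤ GT.tl (V / s0) := by
        apply hanti
        rw [div_le_iff₀ hs0]
        linarith
      have h6 := GT.tl_le_one (V / s0)
      exact ⟨fin_abs hε hε1 (hPm V _ hVN.le) (hPle V) hmass a1 hNa h5 h6,
        fin_abs hε hε1 (hQm V _ hVN.le) (hQle V) hmass a2 hNa h5 h6⟩
  have ht0 := GT.tl_nonneg (V / s0)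
  have e3 : ε * GT.tl (V / s0) ≤ ε0 * GT.tl (V / s0) := mul_le_mul_of_nonneg_right hεε ht0
  rw [hP, hQ] at goal
  exact ⟨goal.1.trans e3, goal.2.trans e3⟩

end Pool.Agent.Lib.G2
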