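import Mathlib
import Pool.Agent.Lib.MP_f9aece_nt_g2.StmtsZ
import Pool.Agent.Lib.MP_f9aece_nt_h24.NearTwo
import Pool.Agent.Lib.MP_f9aece_nt_h24.UpperTwoPlus
import Pool.Agent.Lib.MP_f9aece_nt_h5.LowerTwoPlus
import Pool.Agent.Lib.MP_f9aece_nt_h5.UpperTwo
import Pool.Agent.Lib.MP_f9aece_nt_h97.FM8

/-!
The law of `log |zeta|` under `|zeta| ^ 2`, module H6: the moments of exponent close to `2`, uniformly in
the shift `|x| ≤ T ^ (9/10)`.
-/

set_option autoImplicit false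

namespace Pool.Agent.Lib.G2

open MeasureTheory Set Filter Topology Complex
open Pool.Agent.Lib.MP_f9aece_nt (mom)

/-- the modulus of zeta on the critical line -/
noncomputable def zm (t : ℝ) : ℝ := ‖riemannZeta (1 / 2 + I * (t : ℂ))‖

lemma zm_nonneg (t : ℝ) : 0 ≤ zm t := norm_nonneg _

lemma continuous_zm : Continuous zm := by
  refine Continuous.norm (continuous_iff_continuousAt.2 fun t => ?_)
  have h1 : (1 / 2 + I * (t : ℂ) : ℂ) ≠ 1 := by
    intro h
    have := congrArg Complex.re h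
    norm_num at this
  exact (differentiableAt_riemannZeta h1).continuousAt.comp
    (f := fun t : ℝ => (1 / 2 + I * (t : ℂ) : ℂ)) (by fun_prop)

lemma zm_neg (t : ℝ) : zm (-t) = zm t := by
  have h : (1 / 2 + I * ((-t : ℝ) : ℂ) : ℂ) = (starRingEnd ℂ) (1 / 2 + I * (t : ℂ)) := by
    simp [Complex.ext_iff]
  unfold zm
  rw [h, riemannZeta_conj, RCLike.norm_conj]

lemma continuous_zmp {β : ℝ} (hβ : 0 ≤ β) : Continuous fun t : ℝ => zm t ^ β :=
  continuous_zm.rpow_const fun _ => Or.inr hβ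

/-- the moment as a mean over an interval -/
lemma mom_eq_zm {β x T : ℝ} (hT : 0 < T) : mom β x T = T⁻¹ * ∫ t in x..(x + T), zm t ^ β := by
  have h2 := intervalIntegral.integral_comp_mul_add (a := 0) (b := 1) (fun t : ℝ => zm t ^ β) hT.ne' x
  simp only [mul_zero, zero_add, mul_one, smul_eq_mul] at h2
  rw [add_comm x T, ← h2]
  unfold mom
  refine intervalIntegral.integral_congr fun u _ => ?_
  beta_reduce
  unfold zm
  congr 3
  push_cast
  ring

/-- the fourth moment over a symmetric interval -/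
lemma four_sym {H : ℝ} (hH : 0 ≤ H) : ∫ t in (-H)..H, zm t ^ 4 = 2 * ∫ t in (0 : ℝ)..H, zm t ^ 4 := by
  have hc : Continuous fun t : ℝ => zm t ^ 4 := continuous_zm.pow 4
  have e3 : ∫ t in (-H)..0, zm t ^ 4 = ∫ t in (0 : ℝ)..H, zm t ^ 4 := by
    have := intervalIntegral.integral_comp_neg (a := 0) (b := H) (fun t : ℝ => zm t ^ 4)
    rw [neg_zero] at this
    rw [← this]
    refine intervalIntegral.integral_congr fun u _ => ?_
    beta_reduce
    rw [zm_neg]
  have e5 := intervalIntegral.integral_add_adjacent_intervals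
    (hc.intervalIntegrable (μ := volume) (-H) 0) (hc.intervalIntegrable (μ := volume) 0 H)
  rw [← e5, e3]
  ring

/-- a power between `1` and `3` through a constant and the fourth power -/
lemma rpow_le_four {z M β : ℝ} (hz : 0 ≤ z) (hM : 1 ≤ M) (h1 : 1 ≤ β) (h3 : β ≤ 3) :
    z ^ β ≤ M ^ 3 + M⁻¹ * z ^ 4 := by
  have hM0 : 0 < M := by linarith
  rcases le_total z M with h | h
  · have e1 : z ^ β ≤ M ^ β := Real.rpow_le_rpow hz h (by linarith)
    have e2 : M ^ β ≤ M ^ (3 : ℝ) := Real.rpow_le_rpow_of_exponent_le hM h3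
    have e3 : M ^ (3 : ℝ) = M ^ 3 := by
      rw [← Real.rpow_natCast]
      norm_num
    have e4 : 0 ≤ M⁻¹ * z ^ 4 := by positivity
    exact ((e1.trans e2).trans_eq e3).trans (le_add_of_nonneg_right e4)
  · have hz1 : 1 ≤ z := hM.trans h
    have e2 : z ^ β ≤ z ^ (3 : ℝ) := Real.rpow_le_rpow_of_exponent_le hz1 h3
    have e3 : z ^ (3 : ℝ) = z ^ 3 := by
      rw [← Real.rpow_natCast]
      norm_num
    have e4 : z ^ 3 ≤ M⁻¹ * z ^ 4 := by
      have : M⁻¹ * z ^ 4 = z ^ 3 * (z / M) := by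
        field_simp
      rw [this]
      exact le_mul_of_one_le_right (by positivity) (by rwa [one_le_div hM0])
    have e5 : 0 ≤ M ^ 3 := by positivity
    exact ((e2.trans_eq e3).trans e4).trans (le_add_of_nonneg_left e5)

/-- the integral over a short interval -/
lemma short_le {β a b H M h : ℝ} (h1 : 1 ≤ β) (h3 : β ≤ 3) (hM : 1 ≤ M) (ha : |a| ≤ H) (hb : |b| ≤ H)
    (hab : |b - a| ≤ h) : |∫ t in a..b, zm t ^ β| ≤ h * M ^ 3 + M⁻¹ * (2 * ∫ t in (0 : ℝ)..H, zm t ^ 4) := by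
  wlog hw : a ≤ b generalizing a b
  · have := this hb ha (by rwa [abs_sub_comm]) (le_of_lt (not_le.1 hw))
    rwa [intervalIntegral.integral_symm, abs_neg]
  have hH : 0 ≤ H := (abs_nonneg a).trans ha
  have hM0 : 0 < M := by linarith
  have hc4 : Continuous fun t : ℝ => zm t ^ 4 := continuous_zm.pow 4
  rw [abs_of_nonneg (sub_nonneg.2 hw)] at hab
  rw [abs_of_nonneg (intervalIntegral.integral_nonneg hw fun t _ => Real.rpow_nonneg (zm_nonneg t) _)]
  have e1 : ∫ t in a..b, zm t ^ β ≤ ∫ t in a..b, (M ^ 3 + M⁻¹ * zm t ^ 4) :=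
    intervalIntegral.integral_mono_on hw ((continuous_zmp (by linarith)).intervalIntegrable _ _)
      ((continuous_const.add (continuous_const.mul hc4)).intervalIntegrable _ _)
      fun t _ => rpow_le_four (zm_nonneg t) hM h1 h3
  have i2 : IntervalIntegrable (fun t : ℝ => M⁻¹ * zm t ^ 4) volume a b :=
    (continuous_const.mul hc4).intervalIntegrable _ _
  have e2 : ∫ t in a..b, (M ^ 3 + M⁻¹ * zm t ^ 4) = (b - a) * M ^ 3 + M⁻¹ * ∫ t in a..b, zm t ^ 4 := by
    rw [intervalIntegral.integral_add (continuous_const.intervalIntegrable _ _) i2,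
      intervalIntegral.integral_const, intervalIntegral.integral_const_mul, smul_eq_mul]
  have e3 : ∫ t in a..b, zm t ^ 4 ≤ ∫ t in (-H)..H, zm t ^ 4 := by
    refine intervalIntegral.integral_mono_interval (neg_le_of_abs_le ha) hw (le_of_abs_le hb) ?_
      (hc4.intervalIntegrable _ _)
    exact Eventually.of_forall fun t => pow_nonneg (zm_nonneg t) 4
  rw [four_sym hH] at e3
  have e4 : M⁻¹ * ∫ t in a..b, zm t ^ 4 ≤ M⁻¹ * (2 * ∫ t in (0 : ℝ)..H, zm t ^ 4) := by gcongr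
  have e5 : (b - a) * M ^ 3 ≤ h * M ^ 3 := by gcongr
  linarith

/-- the dependence on the shift -/
lemma shift_le {β x T M h : ℝ} (h1 : 1 ≤ β) (h3 : β ≤ 3) (hM : 1 ≤ M) (hT : 0 < T) (hx : |x| ≤ h)
    (hh : h ≤ T) :
    |mom β x T - mom β 0 T| ≤ T⁻¹ * (2 * (h * M ^ 3 + M⁻¹ * (2 * ∫ t in (0 : ℝ)..(2 * T), zm t ^ 4))) := by
  have hβ : 0 ≤ β := by linarith
  have hI := fun a b : ℝ => (continuous_zmp hβ).intervalIntegrable (μ := volume) a b
  have e0 : (∫ t in x..(x + T), zm t ^ β) - ∫ t in (0 : ℝ)..(0 + T), zm t ^ β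
      = (∫ t in T..(x + T), zm t ^ β) - ∫ t in (0 : ℝ)..x, zm t ^ β := by
    rw [zero_add]
    have := intervalIntegral.integral_interval_sub_interval_comm (hI x (x + T)) (hI 0 T) (hI x 0)
    rw [this, intervalIntegral.integral_symm T (x + T), intervalIntegral.integral_symm 0 x]
    ring
  have hx2 := abs_le.1 hx
  have s1 := short_le (β := β) (a := T) (b := x + T) (H := 2 * T) (M := M) (h := h) h1 h3 hM
    (by rw [abs_of_pos hT]; linarith) (by rw [abs_le]; constructor <;> linarith)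
    (by rwa [add_sub_cancel_right])
  have s2 := short_le (β := β) (a := 0) (b := x) (H := 2 * T) (M := M) (h := h) h1 h3 hM
    (by rw [abs_zero]; linarith) (by rw [abs_le]; constructor <;> linarith)
    (by rwa [sub_zero])
  rw [mom_eq_zm hT, mom_eq_zm hT, ← mul_sub, e0, abs_mul, abs_of_pos (inv_pos.2 hT)]
  refine mul_le_mul_of_nonneg_left ?_ (inv_pos.2 hT).le
  refine (abs_sub _ _).trans ?_
  linarith

/-- the shift is negligible -/
lemma shift_small {ε : ℝ} (hε : 0 < ε) : ∃ T0 : ℝ, ∀ x T β : ℝ, T0 ≤ T → |x| ≤ T ^ (9 / 10 : ℝ) →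
    1 ≤ β → β ≤ 3 → |mom β x T - mom β 0 T| ≤ ε := by
  obtain ⟨C, T0, hC, hT0, h4⟩ := Pool.Agent.Lib.MP_f9aece_nt_h97.fourth_moment
  -- `T ^ (-1/40) (2 + 8 C log (2 T) ^ 9) → 0`
  have hlim : Tendsto (fun T : ℝ => T ^ (-(1 / 40) : ℝ) * (2 + 8 * C * (2 * Real.log T) ^ 9)) atTop (𝓝 0) := by
    have a1 : Tendsto (fun T : ℝ => T ^ (-(1 / 40) : ℝ)) atTop (𝓝 0) :=
      tendsto_rpow_neg_atTop (by norm_num)
    have a2 : Tendsto (fun T : ℝ => Real.log T ^ 9 * T ^ (-(1 / 40) : ℝ)) atTop (𝓝 0) := by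
      have := (isLittleO_log_rpow_rpow_atTop (s := 1 / 40) ((9 : ℕ) : ℝ) (by norm_num)).tendsto_div_nhds_zero
      refine this.congr' ?_
      filter_upwards [eventually_gt_atTop 0] with T hT
      rw [Real.rpow_neg hT.le, div_eq_mul_inv, Real.rpow_natCast]
    have a3 := (a1.const_mul 2).add (a2.const_mul (8 * C * 2 ^ 9))
    simp only [mul_zero, add_zero] at a3
    refine a3.congr fun T => ?_
    ring
  obtain ⟨T1, hT1⟩ := Filter.eventually_atTop.1 (hlim.eventually (gt_mem_nhds hε))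
  refine ⟨max (max T0 T1) 4, fun x T β hT hx h1 h3 => ?_⟩
  have hTT0 : T0 ≤ T := (le_max_left _ _).trans ((le_max_left _ _).trans hT)
  have hTT1 : T1 ≤ T := (le_max_right _ _).trans ((le_max_left _ _).trans hT)
  have hT4 : 4 ≤ T := (le_max_right _ _).trans hT
  have hTp : 0 < T := by linarith
  have hT1' : 1 ≤ T := by linarith
  have hM : 1 ≤ T ^ (1 / 40 : ℝ) := Real.one_le_rpow hT1' (by norm_num)
  have hh : T ^ (9 / 10 : ℝ) ≤ T := by
    conv_rhs => rw [← Real.rpow_one T]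
    exact Real.rpow_le_rpow_of_exponent_le hT1' (by norm_num)
  have hs := shift_le h1 h3 hM hTp hx hh
  have h4' : ∫ t in (0 : ℝ)..(2 * T), zm t ^ 4 ≤ C * (2 * T) * (2 * Real.log T) ^ 9 := by
    refine (h4 (2 * T) (by linarith)).trans ?_
    have hlog : Real.log (2 * T) ≤ 2 * Real.log T := by
      rw [Real.log_mul (by norm_num) hTp.ne']
      have : Real.log 2 ≤ Real.log T := Real.log_le_log (by norm_num) (by linarith)
      linarith
    have : 0 ≤ Real.log (2 * T) := Real.log_nonneg (by linarith)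
    gcongr
  refine hs.trans (le_trans ?_ (hT1 T hTT1).le)
  have hinv : (T ^ (1 / 40 : ℝ))⁻¹ = T ^ (-(1 / 40) : ℝ) := (Real.rpow_neg hTp.le _).symm
  have hM3 : T⁻¹ * (T ^ (9 / 10 : ℝ) * (T ^ (1 / 40 : ℝ)) ^ 3) = T ^ (-(1 / 40) : ℝ) := by
    rw [← Real.rpow_natCast, ← Real.rpow_mul hTp.le, ← Real.rpow_neg_one, ← Real.rpow_add hTp,
      ← Real.rpow_add hTp]
    congr 1
    norm_num
  rw [hinv]
  have hp : 0 < T ^ (-(1 / 40) : ℝ) := by positivity
  calc T⁻¹ * (2 * (T ^ (9 / 10 : ℝ) * (T ^ (1 / 40 : ℝ)) ^ 3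
        + T ^ (-(1 / 40) : ℝ) * (2 * ∫ t in (0 : ℝ)..(2 * T), zm t ^ 4)))
      = 2 * (T⁻¹ * (T ^ (9 / 10 : ℝ) * (T ^ (1 / 40 : ℝ)) ^ 3))
        + T ^ (-(1 / 40) : ℝ) * (4 * T⁻¹ * ∫ t in (0 : ℝ)..(2 * T), zm t ^ 4) := by ring
    _ ≤ 2 * T ^ (-(1 / 40) : ℝ)
        + T ^ (-(1 / 40) : ℝ) * (4 * T⁻¹ * (C * (2 * T) * (2 * Real.log T) ^ 9)) := by
        rw [hM3]
        gcongr
    _ = T ^ (-(1 / 40) : ℝ) * (2 + 8 * C * (2 * Real.log T) ^ 9) := by
        field_simp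
        ring

/-- **H6**: moments of exponent close to `2`. -/
theorem momTwo : MomTwo := by
  intro ε hε
  have hε2 : 0 < ε / 2 := by positivity
  obtain ⟨b1, hb1, T1, h1⟩ := Pool.Agent.Lib.MP_f9aece_nt_h97.lower_two_minus 0 (ε / 2) hε2
  obtain ⟨b2, hb2, T2, h2⟩ := Pool.Agent.Lib.MP_f9aece_nt_h5.lower_two_plus 0 (ε / 2) hε2
  obtain ⟨b3, hb3, T3, h3⟩ := Pool.Agent.Lib.MP_f9aece_nt_h5.upper_uniform_two 0 (ε / 2) hε2
  obtain ⟨b4, hb4, T4, h4⟩ := Pool.Agent.Lib.MP_f9aece_nt_h97.upper_two_plus 0 (ε / 2) hε2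
  obtain ⟨T5, h5⟩ := shift_small hε2
  refine ⟨min (min (min b1 b2) (min b3 b4)) 1, max (max (max T1 T2) (max T3 T4)) (max T5 (Real.exp 1)),
    lt_min (lt_min (lt_min hb1 hb2) (lt_min hb3 hb4)) one_pos, fun x T β hT hx hβ => ?_⟩
  simp only [max_le_iff, le_min_iff] at hT hβ
  obtain ⟨⟨⟨t1, t2⟩, t3, t4⟩, t5, t6⟩ := hT
  obtain ⟨⟨⟨c1, c2⟩, c3, c4⟩, c5⟩ := hβ
  rw [abs_le] at c1 c2 c3 c4 c5
  have hTp : 0 < T := (Real.exp_pos 1).trans_le t6
  have hlog : 1 ≤ Real.log T := by rwa [Real.le_log_iff_exp_le hTp]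
  have hL : 1 ≤ Real.log T ^ (β ^ 2 / 4) := Real.one_le_rpow hlog (by positivity)
  have hsh := abs_le.1 (h5 x T β t5 hx (by linarith) (by linarith))
  have e : mom β x T = ∫ u in (0 : ℝ)..1, ‖riemannZeta (1 / 2 + I * x + I * u * T)‖ ^ β := rfl
  rw [← e]
  have hlow : (1 - ε / 2) * Real.log T ^ (β ^ 2 / 4) ≤ mom β 0 T := by
    rcases le_total β 2 with hc | hc
    · exact h1 β (by linarith) hc T t1
    · exact h2 β hc (by linarith) T t2
  have hup : mom β 0 T ≤ (1 + ε / 2) * Real.log T ^ (β ^ 2 / 4) := by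
    rcases le_total β 2 with hc | hc
    · exact h3 β (by linarith) hc T t3
    · exact h4 β hc (by linarith) T t4
  have hεL : ε / 2 ≤ ε / 2 * Real.log T ^ (β ^ 2 / 4) := le_mul_of_one_le_right hε2.le hL
  rw [abs_le]
  constructor <;> linarith

end Pool.Agent.Lib.G2
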