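import Mathlib
import Pool.Agent.Lib.MP_f9aece_nt_gt.G3
import Pool.Agent.Lib.MP_f9aece_nt_g2.H2

/-!
The law of `log |zeta|` under the measure `|zeta| ^ 2`: module H7, the final form with the variable in
the unit interval, and truncated moments.
-/

set_option autoImplicit false

namespace Pool.Agent.Lib.G2

open MeasureTheory Set Filter Topology Complex ProbabilityTheory
open scoped ComplexConjugate
open Pool.Agent.Lib.GT

/-- the final form -/
def FinTwo : Prop := ∀ ε : ℝ, 0 < ε → ∃ δ T0 : ℝ, 0 < δ ∧ ∀ x T : ℝ, T0 ≤ T →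
  |x| ≤ T ^ (9 / 10 : ℝ) →
  (∀ V : ℝ, V ≤ δ * Real.log (Real.log T) →
    |(∫ u in {u : ℝ | u ∈ Icc (0 : ℝ) 1 ∧ Real.log T * Real.exp V < zf x T u}, zf x T u ^ 2)
        - Real.log T * tl (V / Real.sqrt (Real.log (Real.log T) / 2))|
      ≤ ε * (Real.log T * tl (V / Real.sqrt (Real.log (Real.log T) / 2))) ∧
    |(∫ u in {u : ℝ | u ∈ Icc (0 : ℝ) 1 ∧ zf x T u ≤ Real.log T * Real.exp (-V)}, zf x T u ^ 2)
        - Real.log T * tl (V / Real.sqrt (Real.log (Real.log T) / 2))|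
      ≤ ε * (Real.log T * tl (V / Real.sqrt (Real.log (Real.log T) / 2)))) ∧
  (∀ d β : ℝ, d ≤ δ → 0 < β →
    |(∫ u in Icc (0 : ℝ) 1, zf x T u ^ 2 * min (zf x T u / Real.log T) (Real.log T ^ d) ^ β)
        - Real.log T * ∫ z, min (Real.exp (Real.sqrt (Real.log (Real.log T) / 2) * z))
          (Real.log T ^ d) ^ β ∂(gaussianReal 0 1)|
      ≤ ε * (Real.log T * ∫ z, min (Real.exp (Real.sqrt (Real.log (Real.log T) / 2) * z))
          (Real.log T ^ d) ^ β ∂(gaussianReal 0 1)) ∧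
    |(∫ u in Icc (0 : ℝ) 1, zf x T u ^ 2 * min (Real.log T / zf x T u) (Real.log T ^ d) ^ β)
        - Real.log T * ∫ z, min (Real.exp (Real.sqrt (Real.log (Real.log T) / 2) * z))
          (Real.log T ^ d) ^ β ∂(gaussianReal 0 1)|
      ≤ ε * (Real.log T * ∫ z, min (Real.exp (Real.sqrt (Real.log (Real.log T) / 2) * z))
          (Real.log T ^ d) ^ β ∂(gaussianReal 0 1)))

/-- the final form for the uniform measure -/
def FinZero : Prop := ∀ ε : ℝ, 0 < ε → ∃ δ T0 : ℝ, 0 < δ ∧ ∀ x T : ℝ, T0 ≤ T →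
  |x| ≤ T ^ (9 / 10 : ℝ) →
  (∀ V : ℝ, V ≤ δ * Real.log (Real.log T) →
    |(volume {u : ℝ | u ∈ Icc (0 : ℝ) 1 ∧ Real.exp V < zf x T u}).toReal
      - tl (V / Real.sqrt (Real.log (Real.log T) / 2))|
      ≤ ε * tl (V / Real.sqrt (Real.log (Real.log T) / 2))) ∧
  (∀ d β : ℝ, d ≤ δ → 0 < β → |(∫ u in Icc (0 : ℝ) 1, min (zf x T u) (Real.log T ^ d) ^ β)
      - ∫ z, min (Real.exp (Real.sqrt (Real.log (Real.log T) / 2) * z)) (Real.log T ^ d) ^ β
        ∂(gaussianReal 0 1)|
      ≤ ε * ∫ z, min (Real.exp (Real.sqrt (Real.log (Real.log T) / 2) * z)) (Real.log T ^ d) ^ β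
        ∂(gaussianReal 0 1)) ∧
  (∀ β : ℝ, 0 < β → β ≤ δ → |(∫ u in Icc (0 : ℝ) 1, zf x T u ^ β) - Real.log T ^ (β ^ 2 / 4)|
      ≤ ε * Real.log T ^ (β ^ 2 / 4))

namespace H7

lemma ze_zf (x T u : ℝ) : ‖ze (x + u * T)‖ = zf x T u := by
  rw [zf_eq]
  rfl

/-- integrals with respect to `nu` -/
lemma int_nu (x : ℝ) {T : ℝ} (hT : 0 < T) (hL : 0 < Real.log T) (g : ℝ → ℝ) :
    ∫ t, g ‖ze t‖ ∂(nu x T) = (Real.log T)⁻¹ * ∫ u in Icc (0 : ℝ) 1, zf x T u ^ 2 * g (zf x T u) := by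
  have hze : Continuous ze := H2.cont_ze
  have hm : Measurable fun t : ℝ => ENNReal.ofReal (‖ze t‖ ^ 2 / Real.log T) := by
    have : Continuous fun t : ℝ => ‖ze t‖ ^ 2 / Real.log T := by fun_prop
    exact this.measurable.ennreal_ofReal
  unfold nu
  rw [integral_withDensity_eq_integral_toReal_smul hm
    (Eventually.of_forall fun t => ENNReal.ofReal_lt_top), integral_un x hT]
  have e1 : ∀ t : ℝ, (ENNReal.ofReal (‖ze t‖ ^ 2 / Real.log T)).toReal • g ‖ze t‖
      = (Real.log T)⁻¹ * (‖ze t‖ ^ 2 * g ‖ze t‖) := by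
    intro t
    rw [ENNReal.toReal_ofReal (by positivity), smul_eq_mul]
    field_simp
  simp_rw [e1]
  rw [intervalIntegral.integral_const_mul]
  have e2 := intervalIntegral.integral_comp_mul_add
    (fun t : ℝ => ‖ze t‖ ^ 2 * g ‖ze t‖) (a := 0) (b := 1) hT.ne' x
  simp only [mul_zero, zero_add, mul_one, smul_eq_mul] at e2
  rw [add_comm T x] at e2
  rw [integral_Icc_eq_integral_Ioc, ← intervalIntegral.integral_of_le zero_le_one, smul_eq_mul]
  have e3 : ∫ u in (0 : ℝ)..1, zf x T u ^ 2 * g (zf x T u)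
      = ∫ u in (0 : ℝ)..1, ‖ze (T * u + x)‖ ^ 2 * g ‖ze (T * u + x)‖ := by
    refine intervalIntegral.integral_congr fun u _ => ?_
    rw [← ze_zf, show x + u * T = T * u + x by ring]
  rw [e3, e2]
  field_simp

/-- the measure of a set -/
lemma set_nu (x : ℝ) {T : ℝ} (hT : 0 < T) (hL : 0 < Real.log T) {E : Set ℝ} (hE : MeasurableSet E) :
    ∫ u in {u : ℝ | u ∈ Icc (0 : ℝ) 1 ∧ zf x T u ∈ E}, zf x T u ^ 2
      = Real.log T * (nu x T {t | ‖ze t‖ ∈ E}).toReal := by
  have hze : Continuous ze := H2.cont_ze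
  have hE' : MeasurableSet {t | ‖ze t‖ ∈ E} := hze.norm.measurable hE
  have h1 := int_nu x hT hL (E.indicator fun _ => (1 : ℝ))
  have e1 : ∫ t, (E.indicator fun _ => (1 : ℝ)) ‖ze t‖ ∂(nu x T) = (nu x T {t | ‖ze t‖ ∈ E}).toReal := by
    have : (fun t => (E.indicator fun _ => (1 : ℝ)) ‖ze t‖)
        = {t | ‖ze t‖ ∈ E}.indicator fun _ => (1 : ℝ) := rfl
    rw [this, integral_indicator_const _ hE', smul_eq_mul, mul_one]
    rfl
  rw [← e1, h1, ← mul_assoc, mul_inv_cancel₀ hL.ne', one_mul]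
  have hz : MeasurableSet {u : ℝ | zf x T u ∈ E} := (continuous_zf x T).measurable hE
  have e2 : (fun u => zf x T u ^ 2 * (E.indicator fun _ => (1 : ℝ)) (zf x T u))
      = {u : ℝ | zf x T u ∈ E}.indicator fun u => zf x T u ^ 2 := by
    funext u
    by_cases hu : zf x T u ∈ E
    · rw [indicator_of_mem hu, indicator_of_mem (s := {u : ℝ | zf x T u ∈ E}) hu, mul_one]
    · rw [indicator_of_notMem hu, indicator_of_notMem (s := {u : ℝ | zf x T u ∈ E}) hu, mul_zero]
  rw [e2, setIntegral_indicator hz]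
  congr 1

/-- the tail is continuous from the right -/
lemma tl_right (V s : ℝ) (hs : 0 < s) : Tendsto (fun V' : ℝ => tl (V' / s)) (𝓝[>] V) (𝓝 (tl (V / s))) := by
  have e : ∀ y : ℝ, tl y = 1 - cdf (gaussianReal 0 1) y := by
    intro y
    unfold tl
    rw [cdf_eq_real, ← compl_Iic, measure_compl measurableSet_Iic (measure_ne_top _ _), measure_univ,
      ENNReal.toReal_sub_of_le prob_le_one ENNReal.one_ne_top]
    rfl
  simp_rw [e]
  refine Tendsto.const_sub _ ?_
  have h1 := (cdf (gaussianReal 0 1)).right_continuous (V / s)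
  have h2 : Tendsto (fun V' : ℝ => V' / s) (𝓝[>] V) (𝓝[≥] (V / s)) := by
    refine tendsto_nhdsWithin_iff.2 ⟨?_, ?_⟩
    · exact ((continuous_id.div_const s).tendsto V).mono_left nhdsWithin_le_nhds
    · filter_upwards [self_mem_nhdsWithin] with V' hV'
      exact div_le_div_of_nonneg_right (le_of_lt hV') hs.le
  exact h1.tendsto.comp h2

end H7

open H7 in
/-- H7 -/
theorem finTwo (hM : MainTwo) : FinTwo := by
  intro ε0 hε0
  obtain ⟨ε, hε, hεε, hε1⟩ : ∃ ε : ℝ, 0 < ε ∧ ε ≤ ε0 ∧ ε ≤ 1 / 4 :=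
    ⟨min ε0 (1 / 4), lt_min hε0 (by norm_num), min_le_left _ _, min_le_right _ _⟩
  obtain ⟨δ, T1, hδ, h⟩ := hM ε hε
  have hev : ∀ᶠ T : ℝ in atTop, 1 ≤ Real.log (Real.log T) := tendsto_loglog.eventually (eventually_ge_atTop 1)
  obtain ⟨T3, hT3⟩ := eventually_atTop.mp hev
  refine ⟨δ, max (max T1 16) T3, hδ, fun x T hT hx => ?_⟩
  have hTT1 : T1 ≤ T := ((le_max_left _ _).trans (le_max_left _ _)).trans hT
  have hT16 : 16 ≤ T := ((le_max_right _ _).trans (le_max_left _ _)).trans hT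
  have hl := hT3 T ((le_max_right _ _).trans hT)
  have hTp : 0 < T := by linarith
  have hL1 : 1 < Real.log T := by
    rw [Real.lt_log_iff_exp_lt hTp]
    have := Real.exp_one_lt_d9
    linarith
  have hLp : 0 < Real.log T := by linarith
  obtain ⟨l, hldef⟩ : ∃ l : ℝ, l = Real.log (Real.log T) := ⟨_, rfl⟩
  rw [← hldef] at hl
  have hpow : ∀ a : ℝ, Real.log T ^ a = Real.exp (a * l) := by
    intro a
    rw [Real.rpow_def_of_pos hLp, ← hldef, mul_comm]
  obtain ⟨s, hs⟩ : ∃ s : ℝ, s = Real.sqrt (l / 2) := ⟨_, rfl⟩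
  have hsp : 0 < s := by rw [hs]; exact Real.sqrt_pos.mpr (by linarith)
  rw [← hldef, ← hs]
  have htail : ∀ V : ℝ, V ≤ δ * l →
      |(nu x T {t | Real.log T * Real.exp V < ‖ze t‖}).toReal - tl (V / s)| ≤ ε * tl (V / s) ∧
      |(nu x T {t | ‖ze t‖ ≤ Real.log T * Real.exp (-V)}).toReal - tl (V / s)| ≤ ε * tl (V / s) := by
    intro V hV
    have h1 := h x T V hTT1 hx (by rw [← hldef]; exact hV)
    rw [← hldef, ← hs] at h1
    exact h1
  have htl : ∀ y, 0 ≤ tl y := tl_nonneg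
  have key : ∀ a b : ℝ, |a - b| ≤ ε * b → 0 ≤ b → |Real.log T * a - Real.log T * b| ≤ ε0 * (Real.log T * b) := by
    intro a b hab hb
    rw [← mul_sub, abs_mul, abs_of_pos hLp]
    calc Real.log T * |a - b| ≤ Real.log T * (ε * b) := mul_le_mul_of_nonneg_left hab hLp.le
      _ ≤ Real.log T * (ε0 * b) := mul_le_mul_of_nonneg_left (mul_le_mul_of_nonneg_right hεε hb) hLp.le
      _ = _ := by ring
  refine ⟨fun V hV => ⟨?_, ?_⟩, fun d β hd hβ => ⟨?_, ?_⟩⟩
  · have e := set_nu x hTp hLp (E := Ioi (Real.log T * Real.exp V)) measurableSet_Ioi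
    have e' : {u : ℝ | u ∈ Icc (0 : ℝ) 1 ∧ zf x T u ∈ Ioi (Real.log T * Real.exp V)}
        = {u : ℝ | u ∈ Icc (0 : ℝ) 1 ∧ Real.log T * Real.exp V < zf x T u} := rfl
    rw [e'] at e
    rw [e]
    exact key _ _ (htail V hV).1 (htl _)
  · have e := set_nu x hTp hLp (E := Iic (Real.log T * Real.exp (-V))) measurableSet_Iic
    have e' : {u : ℝ | u ∈ Icc (0 : ℝ) 1 ∧ zf x T u ∈ Iic (Real.log T * Real.exp (-V))}
        = {u : ℝ | u ∈ Icc (0 : ℝ) 1 ∧ zf x T u ≤ Real.log T * Real.exp (-V)} := rfl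
    rw [e'] at e
    rw [e]
    exact key _ _ (htail V hV).2 (htl _)
  all_goals
    have hze : Continuous ze := H2.cont_ze
    have hfin : IsFiniteMeasure (nu x T) := ⟨H2.nu_lt_top x hTp univ⟩
    have hgm : Measurable fun z : ℝ => Real.exp (s * z) := by fun_prop
    have hg0 : ∀ z : ℝ, 0 ≤ Real.exp (s * z) := fun z => (Real.exp_pos _).le
    have hJ : 0 ≤ ∫ z, min (Real.exp (s * z)) (Real.log T ^ d) ^ β ∂(gaussianReal 0 1) :=
      integral_nonneg fun z => Real.rpow_nonneg (le_min (hg0 z) (by positivity)) _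
  · have hi := int_nu x hTp hLp fun r => min (r / Real.log T) (Real.log T ^ d) ^ β
    have e1 : ∫ u in Icc (0 : ℝ) 1, zf x T u ^ 2 * min (zf x T u / Real.log T) (Real.log T ^ d) ^ β
        = Real.log T * ∫ t, min (‖ze t‖ / Real.log T) (Real.log T ^ d) ^ β ∂(nu x T) := by
      rw [hi, ← mul_assoc, mul_inv_cancel₀ hLp.ne', one_mul]
    rw [e1]
    refine key _ _ ?_ hJ
    refine trunc_cmp (ν := nu x T) (γ := gaussianReal 0 1) (by fun_prop) (fun t => by positivity) hgm hg0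
      (by positivity) hβ hε.le (by linarith) fun y hy hyY => ?_
    rw [gauss_set hsp hy]
    have e2 : {t | y < ‖ze t‖ / Real.log T} = {t | Real.log T * Real.exp (Real.log y) < ‖ze t‖} := by
      ext t
      show y < ‖ze t‖ / Real.log T ↔ Real.log T * Real.exp (Real.log y) < ‖ze t‖
      rw [Real.exp_log hy, lt_div_iff₀ hLp, mul_comm]
    rw [e2]
    refine (htail _ ?_).1
    refine le_trans ?_ (mul_le_mul_of_nonneg_right hd (by linarith : (0 : ℝ) ≤ l))
    rw [Real.log_le_iff_le_exp hy, ← hpow]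
    exact hyY.le
  · have hi := int_nu x hTp hLp fun r => min (Real.log T / r) (Real.log T ^ d) ^ β
    have e1 : ∫ u in Icc (0 : ℝ) 1, zf x T u ^ 2 * min (Real.log T / zf x T u) (Real.log T ^ d) ^ β
        = Real.log T * ∫ t, min (Real.log T / ‖ze t‖) (Real.log T ^ d) ^ β ∂(nu x T) := by
      rw [hi, ← mul_assoc, mul_inv_cancel₀ hLp.ne', one_mul]
    rw [e1]
    refine key _ _ ?_ hJ
    refine trunc_cmp (ν := nu x T) (γ := gaussianReal 0 1) (by fun_prop) (fun t => by positivity) hgm hg0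
      (by positivity) hβ hε.le (by linarith) fun y hy hyY => ?_
    rw [gauss_set hsp hy]
    obtain ⟨V, hV⟩ : ∃ V : ℝ, V = Real.log y := ⟨_, rfl⟩
    have hyV : y = Real.exp V := by rw [hV, Real.exp_log hy]
    have hVδ : V < δ * l := by
      refine lt_of_lt_of_le ?_ (mul_le_mul_of_nonneg_right hd (by linarith : (0 : ℝ) ≤ l))
      rw [hV, Real.log_lt_iff_lt_exp hy, ← hpow]
      exact hyY
    rw [← hV]
    -- the strict inequality
    have s1 : {t | y < Real.log T / ‖ze t‖} ⊆ {t | ‖ze t‖ ≤ Real.log T * Real.exp (-V)} := by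
      intro t ht
      have ht' : y < Real.log T / ‖ze t‖ := ht
      have hz : 0 < ‖ze t‖ := by
        rcases (norm_nonneg (ze t)).eq_or_lt with h0 | h0
        · rw [← h0, div_zero] at ht'
          linarith
        · exact h0
      rw [lt_div_iff₀ hz, hyV] at ht'
      show ‖ze t‖ ≤ Real.log T * Real.exp (-V)
      rw [Real.exp_neg, ← div_eq_mul_inv, le_div_iff₀ (Real.exp_pos _), mul_comm]
      exact ht'.le
    have u1 : (nu x T {t | y < Real.log T / ‖ze t‖}).toReal ≤ (1 + ε) * tl (V / s) := by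
      have h1 := ENNReal.toReal_mono (measure_ne_top _ _) (measure_mono (μ := nu x T) s1)
      have h2 := (abs_le.1 (htail V hVδ.le).2).2
      linarith
    have u2 : (1 - ε) * tl (V / s) ≤ (nu x T {t | y < Real.log T / ‖ze t‖}).toReal := by
      have hz0 : nu x T {t | ‖ze t‖ = 0} = 0 := by
        have hE : MeasurableSet {t | ‖ze t‖ = 0} := hze.norm.measurable (measurableSet_singleton 0)
        rw [H2.nu_apply x hTp, setLIntegral_congr_fun hE (g := fun _ => 0), lintegral_zero]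
        intro t ht
        have ht' : ‖ze t‖ = 0 := ht
        simp [ht']
      have h3 : ∀ᶠ V' in 𝓝[>] V, (1 - ε) * tl (V' / s) ≤ (nu x T {t | y < Real.log T / ‖ze t‖}).toReal := by
        have h4 : ∀ᶠ V' in 𝓝[>] V, V' < δ * l := (gt_mem_nhds hVδ).filter_mono nhdsWithin_le_nhds
        filter_upwards [h4, self_mem_nhdsWithin] with V' h5 h6
        have h6' : V < V' := h6
        have s2 : {t | ‖ze t‖ ≤ Real.log T * Real.exp (-V')} ⊆
            {t | y < Real.log T / ‖ze t‖} ∪ {t | ‖ze t‖ = 0} := by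
          intro t ht
          have ht' : ‖ze t‖ ≤ Real.log T * Real.exp (-V') := ht
          rcases (norm_nonneg (ze t)).eq_or_lt with h0 | h0
          · exact Or.inr h0.symm
          · left
            show y < Real.log T / ‖ze t‖
            rw [lt_div_iff₀ h0, hyV]
            calc Real.exp V * ‖ze t‖ ≤ Real.exp V * (Real.log T * Real.exp (-V')) :=
                  mul_le_mul_of_nonneg_left ht' (Real.exp_pos _).le
              _ = Real.log T * Real.exp (V - V') := by rw [Real.exp_sub, Real.exp_neg]; ring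
              _ < Real.log T * 1 := by
                  refine mul_lt_mul_of_pos_left ?_ hLp
                  rw [Real.exp_lt_one_iff]
                  linarith
              _ = Real.log T := mul_one _
        have h7 : (nu x T {t | ‖ze t‖ ≤ Real.log T * Real.exp (-V')}).toReal
            ≤ (nu x T {t | y < Real.log T / ‖ze t‖}).toReal := by
          refine ENNReal.toReal_mono (measure_ne_top _ _) ?_
          refine (measure_mono s2).trans ((measure_union_le _ _).trans ?_)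
          rw [hz0, add_zero]
        have h8 := (abs_le.1 (htail V' h5.le).2).1
        linarith
      exact le_of_tendsto ((tl_right V s hsp).const_mul (1 - ε)) h3
    rw [abs_le]
    constructor <;> linarith

/-- the final form for the uniform measure -/
theorem finZero (hM : Main) : FinZero := by
  intro ε0 hε0
  obtain ⟨ε, hε, hεε, hε1⟩ : ∃ ε : ℝ, 0 < ε ∧ ε ≤ ε0 ∧ ε ≤ 1 / 4 :=
    ⟨min ε0 (1 / 4), lt_min hε0 (by norm_num), min_le_left _ _, min_le_right _ _⟩
  obtain ⟨δ1, T1, hδ1, h⟩ := hM ε hε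
  obtain ⟨δ2, T2, hδ2, h2⟩ := moments hM ε hε
  have hev : ∀ᶠ T : ℝ in atTop, 1 ≤ Real.log (Real.log T) := tendsto_loglog.eventually (eventually_ge_atTop 1)
  obtain ⟨T3, hT3⟩ := eventually_atTop.mp hev
  obtain ⟨δ, hδ, hδ1', hδ2'⟩ : ∃ δ : ℝ, 0 < δ ∧ δ ≤ δ1 ∧ δ ≤ δ2 :=
    ⟨min δ1 δ2, lt_min hδ1 hδ2, min_le_left _ _, min_le_right _ _⟩
  refine ⟨δ, max (max T1 T2) (max 16 T3), hδ, fun x T hT hx => ?_⟩
  have hTT1 : T1 ≤ T := ((le_max_left _ _).trans (le_max_left _ _)).trans hT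
  have hTT2 : T2 ≤ T := ((le_max_right _ _).trans (le_max_left _ _)).trans hT
  have hT16 : 16 ≤ T := ((le_max_left _ _).trans (le_max_right _ _)).trans hT
  have hl := hT3 T (((le_max_right _ _).trans (le_max_right _ _)).trans hT)
  have hTp : 0 < T := by linarith
  have hL1 : 1 < Real.log T := by
    rw [Real.lt_log_iff_exp_lt hTp]
    have := Real.exp_one_lt_d9
    linarith
  have hLp : 0 < Real.log T := by linarith
  obtain ⟨-, -, h2'⟩ := h2 x T hTT2 hx
  obtain ⟨l, hldef⟩ : ∃ l : ℝ, l = Real.log (Real.log T) := ⟨_, rfl⟩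
  rw [← hldef] at hl
  have hpow : ∀ a : ℝ, Real.log T ^ a = Real.exp (a * l) := by
    intro a
    rw [Real.rpow_def_of_pos hLp, ← hldef, mul_comm]
  obtain ⟨s, hs⟩ : ∃ s : ℝ, s = Real.sqrt (l / 2) := ⟨_, rfl⟩
  have hsp : 0 < s := by rw [hs]; exact Real.sqrt_pos.mpr (by linarith)
  rw [← hldef, ← hs]
  have htail : ∀ V : ℝ, V ≤ δ * l →
      |(volume {u : ℝ | u ∈ Icc (0 : ℝ) 1 ∧ Real.exp V < zf x T u}).toReal - tl (V / s)|
        ≤ ε * tl (V / s) := by
    intro V hV
    have h1 := h x T V hTT1 hx (by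
      rw [← hldef]
      exact hV.trans (mul_le_mul_of_nonneg_right hδ1' (by linarith)))
    rw [← hldef, ← hs] at h1
    exact h1
  have hgm : Measurable fun z : ℝ => Real.exp (s * z) := by fun_prop
  have hg0 : ∀ z : ℝ, 0 ≤ Real.exp (s * z) := fun z => (Real.exp_pos _).le
  refine ⟨fun V hV => ?_, fun d β hd hβ => ?_, fun β hβ hβδ => ?_⟩
  · exact (htail V hV).trans (mul_le_mul_of_nonneg_right hεε (tl_nonneg _))
  · have hJ : 0 ≤ ∫ z, min (Real.exp (s * z)) (Real.log T ^ d) ^ β ∂(gaussianReal 0 1) :=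
      integral_nonneg fun z => Real.rpow_nonneg (le_min (hg0 z) (by positivity)) _
    refine le_trans ?_ (mul_le_mul_of_nonneg_right hεε hJ)
    refine trunc_cmp (ν := volume.restrict (Icc (0 : ℝ) 1)) (γ := gaussianReal 0 1)
      (continuous_zf x T).measurable (fun u => norm_nonneg _) hgm hg0
      (by positivity) hβ hε.le (by linarith) fun y hy hyY => ?_
    rw [zeta_set x T hy, gauss_set hsp hy]
    apply htail
    refine le_trans ?_ (mul_le_mul_of_nonneg_right hd (by linarith : (0 : ℝ) ≤ l))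
    rw [Real.log_le_iff_le_exp hy, ← hpow]
    exact hyY.le
  · exact (h2' β hβ (hβδ.trans hδ2')).trans (mul_le_mul_of_nonneg_right hεε (by positivity))

end Pool.Agent.Lib.G2
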