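import Mathlib
import Pool.Agent.Lib.MP_f9aece_nt_g2.H7

/-!
The law of `log |zeta|` under the measures `1` and `|zeta| ^ 2`: one statement.
-/

set_option autoImplicit false

namespace Pool.Agent.Lib.G2

open MeasureTheory Set Filter Topology Complex ProbabilityTheory
open scoped ComplexConjugate
open Pool.Agent.Lib.GT

/-- the truncated moment of the Gaussian law -/
noncomputable def gm (s Y β : ℝ) : ℝ := ∫ z, min (Real.exp (s * z)) Y ^ β ∂(gaussianReal 0 1)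

/-- everything -/
def Final : Prop := ∀ ε : ℝ, 0 < ε → ∃ δ T0 : ℝ, 0 < δ ∧ ∀ x T : ℝ, T0 ≤ T →
  |x| ≤ T ^ (9 / 10 : ℝ) →
  (∀ k : ℕ, k = 0 ∨ k = 2 →
    (∀ V : ℝ, V ≤ δ * Real.log (Real.log T) →
      |(∫ u in {u : ℝ | u ∈ Icc (0 : ℝ) 1 ∧ Real.log T ^ ((k : ℝ) / 2) * Real.exp V < zf x T u},
          zf x T u ^ k)
        - Real.log T ^ ((k : ℝ) ^ 2 / 4) * tl (V / Real.sqrt (Real.log (Real.log T) / 2))|
      ≤ ε * (Real.log T ^ ((k : ℝ) ^ 2 / 4) * tl (V / Real.sqrt (Real.log (Real.log T) / 2)))) ∧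
    (∀ d β : ℝ, d ≤ δ → 0 < β →
      |(∫ u in Icc (0 : ℝ) 1, zf x T u ^ k
          * min (zf x T u / Real.log T ^ ((k : ℝ) / 2)) (Real.log T ^ d) ^ β)
        - Real.log T ^ ((k : ℝ) ^ 2 / 4)
          * gm (Real.sqrt (Real.log (Real.log T) / 2)) (Real.log T ^ d) β|
      ≤ ε * (Real.log T ^ ((k : ℝ) ^ 2 / 4)
          * gm (Real.sqrt (Real.log (Real.log T) / 2)) (Real.log T ^ d) β))) ∧
  (∀ V : ℝ, V ≤ δ * Real.log (Real.log T) →
    |(∫ u in {u : ℝ | u ∈ Icc (0 : ℝ) 1 ∧ zf x T u ≤ Real.log T * Real.exp (-V)}, zf x T u ^ 2)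
        - Real.log T * tl (V / Real.sqrt (Real.log (Real.log T) / 2))|
      ≤ ε * (Real.log T * tl (V / Real.sqrt (Real.log (Real.log T) / 2)))) ∧
  (∀ d β : ℝ, d ≤ δ → 0 < β →
    |(∫ u in Icc (0 : ℝ) 1, zf x T u ^ 2 * min (Real.log T / zf x T u) (Real.log T ^ d) ^ β)
        - Real.log T * gm (Real.sqrt (Real.log (Real.log T) / 2)) (Real.log T ^ d) β|
      ≤ ε * (Real.log T * gm (Real.sqrt (Real.log (Real.log T) / 2)) (Real.log T ^ d) β)) ∧
  (∀ β : ℝ, 0 < β → β ≤ δ ∨ |β - 2| ≤ δ →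
    |(∫ u in (0 : ℝ)..1, zf x T u ^ β) - Real.log T ^ (β ^ 2 / 4)| ≤ ε * Real.log T ^ (β ^ 2 / 4))

theorem final (h0 : FinZero) (h2 : FinTwo) (hm : MomTwo) : Final := by
  intro ε hε
  obtain ⟨δ0, T0, hδ0, h0⟩ := h0 ε hε
  obtain ⟨δ2, T2, hδ2, h2⟩ := h2 ε hε
  obtain ⟨δm, Tm, hδm, hm⟩ := hm ε hε
  obtain ⟨δ, hδ, hd0, hd2, hdm⟩ : ∃ δ : ℝ, 0 < δ ∧ δ ≤ δ0 ∧ δ ≤ δ2 ∧ δ ≤ δm :=
    ⟨min δ0 (min δ2 δm), lt_min hδ0 (lt_min hδ2 hδm), min_le_left _ _,
      (min_le_right _ _).trans (min_le_left _ _), (min_le_right _ _).trans (min_le_right _ _)⟩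
  have hev : ∀ᶠ T : ℝ in atTop, 1 ≤ Real.log (Real.log T) :=
    tendsto_loglog.eventually (eventually_ge_atTop 1)
  obtain ⟨T3, hT3⟩ := eventually_atTop.mp hev
  refine ⟨δ, max (max T0 T2) (max (max Tm 16) T3), hδ, fun x T hT hx => ?_⟩
  have hTT0 : T0 ≤ T := ((le_max_left _ _).trans (le_max_left _ _)).trans hT
  have hTT2 : T2 ≤ T := ((le_max_right _ _).trans (le_max_left _ _)).trans hT
  have hTTm : Tm ≤ T := (((le_max_left _ _).trans (le_max_left _ _)).trans (le_max_right _ _)).trans hT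
  have hT16 : 16 ≤ T := (((le_max_right _ _).trans (le_max_left _ _)).trans (le_max_right _ _)).trans hT
  have hl := hT3 T (((le_max_right _ _).trans (le_max_right _ _)).trans hT)
  have hTp : 0 < T := by linarith
  have hL1 : 1 < Real.log T := by
    rw [Real.lt_log_iff_exp_lt hTp]
    have := Real.exp_one_lt_d9
    linarith
  have hLp : 0 < Real.log T := by linarith
  obtain ⟨a1, a2, a3⟩ := h0 x T hTT0 hx
  obtain ⟨b1, b2⟩ := h2 x T hTT2 hx
  have hV0 : ∀ V : ℝ, V ≤ δ * Real.log (Real.log T) → V ≤ δ0 * Real.log (Real.log T) := fun V hV =>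
    hV.trans (mul_le_mul_of_nonneg_right hd0 (by linarith))
  have hV2 : ∀ V : ℝ, V ≤ δ * Real.log (Real.log T) → V ≤ δ2 * Real.log (Real.log T) := fun V hV =>
    hV.trans (mul_le_mul_of_nonneg_right hd2 (by linarith))
  have e0 : Real.log T ^ (((0 : ℕ) : ℝ) / 2) = 1 := by norm_num
  have e0' : Real.log T ^ (((0 : ℕ) : ℝ) ^ 2 / 4) = 1 := by norm_num
  have e2 : Real.log T ^ (((2 : ℕ) : ℝ) / 2) = Real.log T := by norm_num
  have e2' : Real.log T ^ (((2 : ℕ) : ℝ) ^ 2 / 4) = Real.log T := by norm_num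
  refine ⟨fun k hk => ?_, fun V hV => (b1 V (hV2 V hV)).2, fun d β hd hβ => ?_, fun β hβ hβδ => ?_⟩
  · rcases hk with rfl | rfl
    · refine ⟨fun V hV => ?_, fun d β hd hβ => ?_⟩
      · have h := a1 V (hV0 V hV)
        rw [e0, e0']
        simp only [pow_zero, one_mul]
        rw [setIntegral_const, smul_eq_mul, mul_one]
        exact h
      · have h := a2 d β (hd.trans hd0) hβ
        rw [e0, e0']
        simp only [pow_zero, one_mul, div_one]
        exact h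
    · refine ⟨fun V hV => ?_, fun d β hd hβ => ?_⟩
      · have h := (b1 V (hV2 V hV)).1
        rw [e2, e2']
        exact h
      · have h := (b2 d β (hd.trans hd2) hβ).1
        rw [e2, e2']
        exact h
  · exact (b2 d β (hd.trans hd2) hβ).2
  · rcases hβδ with h | h
    · have h1 := a3 β hβ (h.trans hd0)
      rw [integral_Icc_eq_integral_Ioc, ← intervalIntegral.integral_of_le zero_le_one] at h1
      exact h1
    · exact hm x T β hTTm hx (h.trans hdm)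

end Pool.Agent.Lib.G2
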