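import Mathlib
import Pool.Agent.Lib.MP_f9aece_nt_gt.D2
import Pool.Agent.Lib.MP_f9aece_nt_g2.Stmts

/-!
The law of `log |zeta|` under the measure `|zeta| ^ 2`, module K1: the cut-offs as transforms.
-/

set_option autoImplicit false

namespace Pool.Agent.Lib.G2

open MeasureTheory Complex Set Filter Topology
open scoped SchwartzMap ContDiff
open Pool.Agent.H20.Smooth
open Pool.Agent.Lib.GT.D2

namespace K1

lemma pow_one_add_le {x : ℝ} (hx : 0 ≤ x) (n : ℕ) : (1 + x) ^ (n + 1) ≤ 2 ^ n * (1 + x ^ (n + 1)) := by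
  have h4 := add_pow_le (zero_le_one : (0 : ℝ) ≤ 1) hx (n + 1)
  simpa using h4

/-- the size of the transform of the window -/
lemma decay1 {w a : ℝ} (hw : 0 < w) (ha : 0 < a) (h : Pr (-(2 * w)) w a w) (u : ℝ) :
    (1 + w * |u|) ^ 20 * ‖KF (BS h) u‖ ≤ 2 ^ 20 * (1 + cM 20) * (a + w) := by
  have h1 : ‖KF (BS h) u‖ ≤ a + 2 * w := (norm_KF_le h u).trans (by linarith)
  have h2 : |u| ^ 20 * ‖KF (BS h) u‖ ≤ ((w⁻¹) ^ 19 + (w⁻¹) ^ 19) * cM 20 :=
    (pow_KF_le (BS h) (bm_compact h) 20 u).trans (I1_BS_le' h 19)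
  have hc := cM_nonneg 20
  have h3 := pow_one_add_le (mul_nonneg hw.le (abs_nonneg u)) 19
  have h0 := norm_nonneg (KF (BS h) u)
  have hu := abs_nonneg u
  calc (1 + w * |u|) ^ 20 * ‖KF (BS h) u‖ ≤ 2 ^ 19 * (1 + (w * |u|) ^ 20) * ‖KF (BS h) u‖ :=
        mul_le_mul_of_nonneg_right h3 h0
    _ = 2 ^ 19 * (‖KF (BS h) u‖ + w ^ 20 * (|u| ^ 20 * ‖KF (BS h) u‖)) := by ring
    _ ≤ 2 ^ 19 * ((a + 2 * w) + w ^ 20 * (((w⁻¹) ^ 19 + (w⁻¹) ^ 19) * cM 20)) := by gcongr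
    _ = 2 ^ 19 * (a + 2 * w + 2 * (w * cM 20)) := by field_simp; ring
    _ ≤ _ := by nlinarith [mul_nonneg hc ha.le, mul_nonneg hc hw.le]

/-- the size of `u` times the transform of the window -/
lemma decay2 {w a : ℝ} (hw : 0 < w) (h : Pr (-(2 * w)) w a w) (u : ℝ) :
    (1 + w * |u|) ^ 19 * (|u| * ‖KF (BS h) u‖) ≤ 2 ^ 19 * (cM 1 + cM 20) := by
  have h1 : |u| ^ 1 * ‖KF (BS h) u‖ ≤ ((w⁻¹) ^ 0 + (w⁻¹) ^ 0) * cM 1 :=
    (pow_KF_le (BS h) (bm_compact h) 1 u).trans (I1_BS_le' h 0)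
  have h2 : |u| ^ 20 * ‖KF (BS h) u‖ ≤ ((w⁻¹) ^ 19 + (w⁻¹) ^ 19) * cM 20 :=
    (pow_KF_le (BS h) (bm_compact h) 20 u).trans (I1_BS_le' h 19)
  have h3 := pow_one_add_le (mul_nonneg hw.le (abs_nonneg u)) 18
  have h0 := norm_nonneg (KF (BS h) u)
  have hu := abs_nonneg u
  rw [pow_one, pow_zero] at h1
  calc (1 + w * |u|) ^ 19 * (|u| * ‖KF (BS h) u‖)
      ≤ 2 ^ 18 * (1 + (w * |u|) ^ 19) * (|u| * ‖KF (BS h) u‖) :=
        mul_le_mul_of_nonneg_right h3 (by positivity)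
    _ = 2 ^ 18 * (|u| * ‖KF (BS h) u‖ + w ^ 19 * (|u| ^ 20 * ‖KF (BS h) u‖)) := by ring
    _ ≤ 2 ^ 18 * ((1 + 1) * cM 1 + w ^ 19 * (((w⁻¹) ^ 19 + (w⁻¹) ^ 19) * cM 20)) := by gcongr
    _ = _ := by field_simp; ring

end K1

open K1 in
theorem ker1 : Ker1 := by
  have hc := cM_nonneg 20
  have hc1 := cM_nonneg 1
  refine ⟨2 ^ 20 * (1 + cM 1 + cM 20), by nlinarith, fun w a hw => ?_⟩
  rcases le_or_gt a 0 with ha | ha
  · refine ⟨fun _ => 0, continuous_const, fun u => ?_, fun u => ?_, fun ξ hξ => ?_⟩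
    · rw [norm_zero]; positivity
    · rw [norm_zero, mul_zero]; positivity
    · have h1 : (a - ξ) / w ≤ 0 := div_nonpos_of_nonpos_of_nonneg (by linarith) hw.le
      rw [Real.smoothTransition.zero_of_nonpos h1]
      simp
  have h : Pr (-(2 * w)) w a w := ⟨hw, hw, by linarith⟩
  have h2 : ‖(1 / (2 * Real.pi) : ℂ)‖ ≤ 1 := by
    have e : (1 / (2 * Real.pi) : ℂ) = ((1 / (2 * Real.pi) : ℝ) : ℂ) := by push_cast; ring
    rw [e, Complex.norm_real, Real.norm_of_nonneg (by positivity), div_le_one (by positivity)]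
    linarith [Real.pi_gt_three]
  have h3 : ∀ u, ‖(1 / (2 * Real.pi) : ℂ) * KF (BS h) u‖ ≤ ‖KF (BS h) u‖ := by
    intro u
    rw [norm_mul]
    have := mul_le_mul_of_nonneg_right h2 (norm_nonneg (KF (BS h) u))
    linarith
  refine ⟨fun u => 1 / (2 * Real.pi) * KF (BS h) u, ?_, ?_, ?_, ?_⟩
  · rw [KF_eq]
    exact continuous_const.mul (KS (BS h)).continuous
  · intro u
    have hp : (0 : ℝ) < (1 + w * |u|) ^ 20 := by positivity
    refine (h3 u).trans ?_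
    rw [abs_of_pos ha, mul_div_assoc', le_div_iff₀ hp]
    have h1 := decay1 hw ha h u
    have h4 : 0 ≤ cM 1 * (a + w) := by positivity
    nlinarith
  · intro u
    have hp : (0 : ℝ) < (1 + w * |u|) ^ 19 := by positivity
    refine (mul_le_mul_of_nonneg_left (h3 u) (abs_nonneg u)).trans ?_
    rw [le_div_iff₀ hp]
    have h1 := decay2 hw h u
    nlinarith
  · intro ξ hξ
    have h1 := inversion (BS h) ξ
    rw [BS_apply, bm_right h (by linarith)] at h1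
    have h2 : sg ((a - ξ) / w) = (Real.smoothTransition ((a - ξ) / w) : ℂ) := rfl
    rw [← h2, h1, ← integral_const_mul]
    refine integral_congr_ae (Eventually.of_forall fun v => ?_)
    simp only
    ring

end Pool.Agent.Lib.G2
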