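import Mathlib
import Pool.Agent.Lib.MP_f9aece_nt_g2.StmtsZ
import Pool.Agent.Lib.MP_f9aece_nt_g2.Cont

/-!
The law of `log |zeta|` under the measure `|zeta| ^ 2`: module M1, upper bounds for means over `t`.
-/

set_option autoImplicit false

namespace Pool.Agent.Lib.G2

open MeasureTheory Set Filter Topology Complex ProbabilityTheory
open scoped ComplexConjugate
open Pool.Agent.Lib.MP_f9aece_nt (VV)
open Pool.Agent.Lib.J4 (V2)
open Pool.Agent.Lib.GT

namespace M1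

/-! ### numerical facts -/

lemma two_mul_le_exp (x : ℝ) (hx : 0 ≤ x) : 2 * x ≤ Real.exp x := by
  have h := Real.quadratic_le_exp_of_nonneg hx
  nlinarith [sq_nonneg (x - 1)]

section

variable {A : Par}

lemma KY_ge (hA : A.Ok) : 4 ≤ A.KY := by
  have h1 : (4 : ℝ) ≤ A.v := by exact_mod_cast hA.hv
  have h2 := hA.hY
  have h3 : (1 : ℝ) ≤ A.i + 1 := by
    have : (0 : ℝ) ≤ A.i := Nat.cast_nonneg _
    linarith
  unfold Par.KY
  have h4 : 4 ≤ (A.v : ℝ) * (A.i + 1) := by nlinarith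
  nlinarith

lemma Y_le_KY (hA : A.Ok) : A.Y ≤ A.KY := by
  have h1 : (4 : ℝ) ≤ A.v := by exact_mod_cast hA.hv
  have h2 := hA.hY
  have h3 : (1 : ℝ) ≤ A.i + 1 := by
    have : (0 : ℝ) ≤ A.i := Nat.cast_nonneg _
    linarith
  unfold Par.KY
  have h4 : 1 ≤ (A.v : ℝ) * (A.i + 1) := by nlinarith
  nlinarith

lemma sum_r_le (hN : GroupNum) (hA : A.Ok) :
    ∑ g ∈ Finset.range A.J, (A.r g : ℝ) ≤ 4 * A.KY := (hN A hA).2.2.2.2.1

lemma h_sq (p : ℕ) : A.h p ^ 2 = (p : ℝ)⁻¹ := by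
  unfold Par.h
  rw [← Real.rpow_natCast, ← Real.rpow_mul (Nat.cast_nonneg p), ← Real.rpow_neg_one]
  congr 1
  norm_num

lemma vt_le (hN : GroupNum) (hA : A.Ok) : A.vt ≤ 8 * A.KY := by
  obtain ⟨h1, h2, h3, -⟩ := hN A hA
  have h4 := sum_r_le hN hA
  have h5 : A.vt = ∑ g ∈ Finset.range A.J, ∑ p ∈ A.S g, A.h p ^ 2 := by
    unfold Par.vt Par.U
    exact Finset.sum_biUnion fun g _ g' _ hgg => h3 g g' hgg
  rw [h5]
  calc ∑ g ∈ Finset.range A.J, ∑ p ∈ A.S g, A.h p ^ 2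
      ≤ ∑ g ∈ Finset.range A.J, VV (A.S g) := by
        refine Finset.sum_le_sum fun g _ => ?_
        unfold VV
        refine Finset.sum_le_sum fun p _ => ?_
        rw [h_sq]
    _ ≤ ∑ g ∈ Finset.range A.J, 2 * (A.r g : ℝ) := Finset.sum_le_sum fun g _ => h2 g
    _ = 2 * ∑ g ∈ Finset.range A.J, (A.r g : ℝ) := by rw [Finset.mul_sum]
    _ ≤ _ := by linarith

lemma vt_nonneg (hA : A.Ok) : 2 ≤ A.vt := by
  have := hA.hs
  unfold Par.s2 at this
  linarith

lemma Gs_pos (hA : A.Ok) (y : ℝ) : 0 < A.Gs y := by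
  unfold Par.Gs
  exact hA.G_pos _

/-- the tilt by `exp (-be y)` against the size of the windows -/
lemma exp_le_Gs (hN : GroupNum) (hA : A.Ok) (y : ℝ) :
    Real.exp (-(A.be * y)) ≤ Real.exp (3 * A.KY) * A.Gs y := by
  have h1 := vt_le hN hA
  have h2 := hA.hs
  have h3 : A.s2 ≤ 4 * A.KY := by
    unfold Par.s2
    linarith
  have hK := KY_ge hA
  have h4 := two_mul_le_exp (2 * A.KY) (by linarith)
  have h5 : Real.sqrt A.s2 ≤ A.s2 := by
    rw [Real.sqrt_le_left (by linarith)]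
    nlinarith
  have h6 : 0 < Real.sqrt A.s2 := Real.sqrt_pos.mpr (by linarith)
  have hbe := hA.hbe
  have hbe1 : A.be ≤ 1 / 20 := hA.hbb.trans hA.hb
  have hvt := vt_nonneg hA
  have hsg : -(1 : ℝ) ≤ A.sg := by
    rcases hA.hsg with h | h
    · rw [h]
      norm_num
    · rw [h]
  have h9 : -(A.be * A.vt) ≤ A.be * (A.sg * A.vt) := by
    have : 0 ≤ A.be * A.vt := by positivity
    nlinarith
  have h10 : A.be * A.vt ≤ A.KY := by nlinarith
  have h7 : Real.exp (-(A.be * y)) ≤ Real.exp A.KY *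
      Real.exp (-(A.be * (y - A.sg * A.vt)) + A.be ^ 2 * A.s2 / 2) := by
    rw [← Real.exp_add]
    refine Real.exp_le_exp.mpr ?_
    have : 0 ≤ A.be ^ 2 * A.s2 / 2 := by positivity
    nlinarith
  unfold Par.Gs Par.G
  have h8 : Real.sqrt A.s2 ≤ Real.exp (2 * A.KY) := by linarith
  have e3 : Real.exp (3 * A.KY) = Real.exp A.KY * Real.exp (2 * A.KY) := by
    rw [← Real.exp_add]
    congr 1
    ring
  calc Real.exp (-(A.be * y)) ≤ Real.exp A.KY *
        Real.exp (-(A.be * (y - A.sg * A.vt)) + A.be ^ 2 * A.s2 / 2) := h7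
    _ = Real.exp A.KY * (Real.sqrt A.s2 * (1 / Real.sqrt A.s2 *
        Real.exp (-(A.be * (y - A.sg * A.vt)) + A.be ^ 2 * A.s2 / 2))) := by
        field_simp
    _ ≤ Real.exp A.KY * (Real.exp (2 * A.KY) * (1 / Real.sqrt A.s2 *
        Real.exp (-(A.be * (y - A.sg * A.vt)) + A.be ^ 2 * A.s2 / 2))) := by gcongr
    _ = _ := by rw [e3]; ring

lemma log_ge (hA : A.Ok) {T e : ℝ} (hL : Len A T e) : 4 * 10 ^ 12 ≤ Real.log T ∧
    10 ^ 12 * A.KY ≤ Real.log T := by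
  have hK := KY_ge hA
  have h1 := hL.hK
  have h2 := hL.he1
  have h3 := hL.he
  have h4 : 0 ≤ Real.log T := Real.log_nonneg (by linarith [hL.hT])
  have h5 : e * Real.log T ≤ 1 / 100 * Real.log T := mul_le_mul_of_nonneg_right h2 h4
  constructor <;> linarith

/-- the error for the Gaussian mean is small -/
lemma ga_err (hN : GroupNum) (hA : A.Ok) {T e C : ℝ} (_hC : 0 ≤ C) (hT : 3 * C ≤ T)
    (hL : Len A T e) (y : ℝ) {N c : ℝ}
    (hN0 : 0 < N) (hN1 : N ≤ Real.exp ((1 - e / 2) * Real.log T)) (hc : 0 ≤ c)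
    (hc1 : c ≤ Real.exp (4 * Real.log T)) :
    3 * (C * Real.exp (-(A.be * y)) * (Real.exp (10 ^ 7 * A.KY) * (c *
      Real.exp (-(T ^ 2 / (4 * (Real.exp (10 ^ 7 * A.KY) * N) ^ 2))))))
    ≤ Real.exp (-∑ g ∈ Finset.range A.J, (A.r g : ℝ)) * A.Gs y / Real.log T ^ 10 := by
  obtain ⟨h1, h2⟩ := log_ge hA hL
  have hK := KY_ge hA
  have h3 := exp_le_Gs hN hA y
  have h4 := sum_r_le hN hA
  have hG := Gs_pos hA y
  have hT0 : 0 < T := by linarith [hL.hT]
  have he := hL.he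
  have he1 := hL.he1
  have hK10 := hL.hK
  have hp := hL.hp
  set K : ℝ := A.KY with hKd
  set Λ : ℝ := Real.log T with hΛ
  have hΛ0 : 0 < Λ := by linarith
  have e2 : T ^ 2 = Real.exp (2 * Λ) := by
    rw [two_mul, Real.exp_add, hΛ, Real.exp_log hT0]
    ring
  have h5 : (Real.exp (10 ^ 7 * K) * N) ^ 2 ≤ Real.exp ((2 - e / 2) * Λ) := by
    calc (Real.exp (10 ^ 7 * K) * N) ^ 2
        ≤ (Real.exp (10 ^ 7 * K) * Real.exp ((1 - e / 2) * Λ)) ^ 2 := by gcongr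
      _ = Real.exp (2 * 10 ^ 7 * K + (2 - e) * Λ) := by
          rw [← Real.exp_add, ← Real.exp_nat_mul]
          congr 1
          push_cast
          ring
      _ ≤ _ := Real.exp_le_exp.mpr (by nlinarith)
  have h500 : Λ ^ 500 ≤ Real.exp (e / 2 * Λ) := by
    have e4 : Real.exp (e * Λ) = Real.exp (e / 2 * Λ) ^ 2 := by
      rw [← Real.exp_nat_mul]
      congr 1
      push_cast
      ring
    rw [e4] at hp
    have e5 : Λ ^ 1000 = (Λ ^ 500) ^ 2 := by rw [← pow_mul]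
    rw [e5] at hp
    exact le_of_sq_le_sq hp (Real.exp_pos _).le
  have h6 : 10 ^ 11 * Λ ≤ T ^ 2 / (4 * (Real.exp (10 ^ 7 * K) * N) ^ 2) := by
    rw [e2]
    have h7 : 0 < (Real.exp (10 ^ 7 * K) * N) ^ 2 := by positivity
    have h8 : Λ ^ 2 ≤ Λ ^ 500 := pow_le_pow_right₀ (by linarith) (by norm_num)
    calc 10 ^ 11 * Λ ≤ Λ ^ 2 / 4 := by nlinarith
      _ ≤ Real.exp (e / 2 * Λ) / 4 := by linarith
      _ = Real.exp (2 * Λ) / (4 * Real.exp ((2 - e / 2) * Λ)) := by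
          have e3 : Real.exp (2 * Λ) = Real.exp (e / 2 * Λ) * Real.exp ((2 - e / 2) * Λ) := by
            rw [← Real.exp_add]
            congr 1
            ring
          rw [e3]
          have := Real.exp_pos ((2 - e / 2) * Λ)
          field_simp
      _ ≤ _ := by gcongr
  have hC3 : 3 * C ≤ Real.exp Λ := by rw [hΛ, Real.exp_log hT0]; exact hT
  have hlog : Λ ^ 10 ≤ Real.exp (10 * Λ) := by
    have h9 : Λ ≤ Real.exp Λ := by
      have := Real.add_one_le_exp Λ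
      linarith
    calc Λ ^ 10 ≤ Real.exp Λ ^ 10 := pow_le_pow_left₀ hΛ0.le h9 10
      _ = Real.exp (10 * Λ) := by
          rw [← Real.exp_nat_mul]
          norm_num
  have hE : Real.exp (-(11 * Λ)) * Λ ^ 10 ≤ 1 := by
    calc Real.exp (-(11 * Λ)) * Λ ^ 10 ≤ Real.exp (-(11 * Λ)) * Real.exp (10 * Λ) := by gcongr
      _ = Real.exp (-Λ) := by
          rw [← Real.exp_add]
          congr 1
          ring
      _ ≤ 1 := Real.exp_le_one_iff.mpr (by linarith)
  rw [le_div_iff₀ (by positivity)]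
  calc 3 * (C * Real.exp (-(A.be * y)) * (Real.exp (10 ^ 7 * K) * (c *
      Real.exp (-(T ^ 2 / (4 * (Real.exp (10 ^ 7 * K) * N) ^ 2)))))) * Λ ^ 10
      = (3 * C) * Real.exp (-(A.be * y)) * (Real.exp (10 ^ 7 * K) * (c *
      Real.exp (-(T ^ 2 / (4 * (Real.exp (10 ^ 7 * K) * N) ^ 2))))) * Λ ^ 10 := by ring
    _ ≤ Real.exp Λ * (Real.exp (3 * K) * A.Gs y) * (Real.exp (10 ^ 7 * K) * (Real.exp (4 * Λ) *
        Real.exp (-(10 ^ 11 * Λ)))) * Λ ^ 10 := by gcongr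
    _ = Real.exp (Λ + 3 * K + 10 ^ 7 * K + 4 * Λ + -(10 ^ 11 * Λ)) * A.Gs y * Λ ^ 10 := by
        rw [Real.exp_add, Real.exp_add, Real.exp_add, Real.exp_add]
        ring
    _ ≤ Real.exp (-∑ g ∈ Finset.range A.J, (A.r g : ℝ) + -(11 * Λ)) * A.Gs y * Λ ^ 10 := by
        refine mul_le_mul_of_nonneg_right (mul_le_mul_of_nonneg_right
          (Real.exp_le_exp.mpr ?_) hG.le) (by positivity)
        nlinarith
    _ = Real.exp (-∑ g ∈ Finset.range A.J, (A.r g : ℝ)) * A.Gs y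
          * (Real.exp (-(11 * Λ)) * Λ ^ 10) := by
        rw [Real.exp_add]
        ring
    _ ≤ Real.exp (-∑ g ∈ Finset.range A.J, (A.r g : ℝ)) * A.Gs y * 1 := by gcongr
    _ = _ := mul_one _

end

end M1

open M1

/-- M1: upper bound for means over `t` -/
theorem gaMean (hT : WTransfer) (hN : GroupNum) : GaMean := by
  obtain ⟨C, hC, hT⟩ := hT
  refine ⟨3 + 3 * C, by linarith, fun A hA T e hT0 hL x y s s' hss hs μ hμ N c H hN1 hN2 hc1 hH0 hH => ?_⟩
  have hTp : 0 < T := by linarith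
  have := prob_un x hTp
  have hc0 := hH.nonneg
  obtain ⟨B', hB'⟩ := A.Wg_le hA s s' y
  have hW0 : ∀ w, 0 ≤ A.Wg s s' y w := A.Wg_nonneg hA.b_pos.le s s' y
  have hHc : Continuous H := by
    have h1 := Complex.continuous_re.comp hH.continuous
    simpa [Function.comp_def] using h1
  have hHb : ∀ w, H w ≤ c := by
    intro w
    have h1 := hH.norm_le w
    rw [Complex.norm_real, Real.norm_of_nonneg (hH0 w)] at h1
    exact h1
  have hmc : Continuous fun w => ‖A.mo μ s w‖ ^ 2 := ((A.continuous_mo μ s).norm).pow 2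
  obtain ⟨Bm, hBm⟩ := A.mo_le μ s
  set F : ℝ → ℝ := fun t => A.Wg s s' y (om t) * (‖A.mo μ s (om t)‖ ^ 2 * H (om t)) with hF
  have hFc : Continuous F := ((A.continuous_Wg' hA s s' y).comp continuous_om).mul
    ((hmc.comp continuous_om).mul (hHc.comp continuous_om))
  have hF0 : ∀ t, 0 ≤ F t := fun t => mul_nonneg (hW0 _) (mul_nonneg (by positivity) (hH0 _))
  have hFb : ∀ t, F t ≤ B' * (Bm ^ 2 * c) := by
    intro t
    have h1 := hB' (om t)
    have h2 := hBm (om t)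
    have h3 := hHb (om t)
    have h4 := hW0 (om t)
    have h5 := hH0 (om t)
    have h6 : ‖A.mo μ s (om t)‖ ^ 2 ≤ Bm ^ 2 := by gcongr
    exact mul_le_mul h1 (mul_le_mul h6 h3 h5 (by positivity)) (by positivity) (h4.trans h1)
  have hig : Integrable F (ga x T) := by
    refine Integrable.of_bound hFc.aestronglyMeasurable (B' * (Bm ^ 2 * c))
      (Eventually.of_forall fun t => ?_)
    rw [Real.norm_of_nonneg (hF0 t)]
    exact hFb t
  obtain ⟨hiu, hle⟩ := un_le_ga x hTp hF0 hig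
  rw [← ofReal_integral_eq_lintegral_ofReal hiu (Eventually.of_forall hF0)]
  refine ENNReal.ofReal_le_ofReal (hle.trans ?_)
  have h := (hT A hA s s' hss hs μ μ hμ hμ N c (fun w => (H w : ℂ)) hN1 hH x T y hTp).2
  have e1 : ∀ w : Om, (A.Wg s s' y w : ℂ) * (A.mo μ s w * conj (A.mo μ s w)) * (H w : ℂ)
      = ((A.Wg s s' y w * (‖A.mo μ s w‖ ^ 2 * H w) : ℝ) : ℂ) := by
    intro w
    rw [Complex.mul_conj, Complex.normSq_eq_norm_sq]
    push_cast
    ring
  simp only [e1] at h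
  rw [integral_complex_ofReal, integral_complex_ofReal, ← Complex.ofReal_sub, Complex.norm_real,
    Real.norm_eq_abs] at h
  have h2 := (abs_le.mp h).2
  have h3 := ga_err hN hA hC (by linarith) hL y (by linarith) hN2 hc0 hc1
  have hG := hA.Gs_pos y
  have hl : 0 < Real.log T := by linarith [(log_ge hA hL).1]
  have h7 : ∑ g ∈ s', (A.r g : ℝ) ≤ ∑ g ∈ Finset.range A.J, (A.r g : ℝ) :=
    Finset.sum_le_sum_of_subset_of_nonneg hs fun _ _ _ => by positivity
  have h10 : Real.exp (-∑ g ∈ Finset.range A.J, (A.r g : ℝ)) ≤ Real.exp (-∑ g ∈ s', (A.r g : ℝ)) :=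
    Real.exp_le_exp.mpr (by linarith)
  have h12 : Real.exp (-∑ g ∈ Finset.range A.J, (A.r g : ℝ)) * A.Gs y / Real.log T ^ 10
      ≤ Real.exp (-∑ g ∈ s', (A.r g : ℝ)) * A.Gs y / Real.log T ^ 10 := by gcongr
  have h14 : ∫ t, F t ∂(ga x T) = ∫ t, A.Wg s s' y (om t) * (‖A.mo μ s (om t)‖ ^ 2 * H (om t))
    ∂(ga x T) := rfl
  rw [h14]
  linarith

/-- Z6: the inverse of the mollifier along the flow -/
theorem moUp (h1 : GaMean) (h2 : MoBd) (h3 : Variance) (hN : GroupNum) : MoUp := by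
  obtain ⟨T0, hT0, h1⟩ := h1
  obtain ⟨C, hC, h2⟩ := h2
  obtain ⟨⟨C', hC', h3⟩, -⟩ := h3
  intro p0 hp0
  have hp0' : (0 : ℝ) < p0 := by
    have : (1000 : ℝ) ≤ p0 := by exact_mod_cast hp0
    linarith
  refine ⟨3 * C * (Real.exp C' * p0) + 1, T0, by
    have : 0 ≤ 3 * C * (Real.exp C' * p0) := by positivity
    linarith, hT0, fun A hA hAp T e hT hL x y s hs => ?_⟩
  have hG := hA.Gs_pos y
  have hY := hA.hY
  have hl : 1 ≤ Real.log T := by linarith [(log_ge hA hL).1]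
  have hlog : 0 < Real.log T := by linarith
  have g1 := h1 A hA T e hT hL x y s s (Finset.Subset.refl s) hs 1 (by simp) 1 1 (fun _ => 1) le_rfl
    (Real.one_le_exp (mul_nonneg (by linarith [hL.he1]) (by linarith)))
    (Real.one_le_exp (by linarith)) (fun _ => zero_le_one) (by simpa using TP.one le_rfl)
  simp only [mul_one] at g1
  refine g1.trans (ENNReal.ofReal_le_ofReal ?_)
  have g2 := h2 A hA s hs y
  have g3 := h3 A hA.hp hA.hY (hN A hA).2.2.2.1
  have g4 : Real.exp A.vt ≤ Real.exp C' * p0 * A.Y := by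
    have g5 : A.vt ≤ C' + Real.log p0 + Real.log A.Y := by
      have := (abs_le.mp g3).2
      rw [hAp] at this
      linarith
    calc Real.exp A.vt ≤ Real.exp (C' + Real.log p0 + Real.log A.Y) := Real.exp_le_exp.mpr g5
      _ = Real.exp C' * p0 * A.Y := by
          rw [Real.exp_add, Real.exp_add, Real.exp_log hp0', Real.exp_log (by linarith)]
  have h8 : 0 ≤ ∑ g ∈ s, (A.r g : ℝ) := Finset.sum_nonneg fun _ _ => by positivity
  have h11 : Real.exp (-(2 * ∑ g ∈ s, (A.r g : ℝ))) ≤ Real.exp (-∑ g ∈ s, (A.r g : ℝ)) :=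
    Real.exp_le_exp.mpr (by linarith)
  set a := Real.exp (-∑ g ∈ s, (A.r g : ℝ)) with ha
  have ha0 : 0 < a := Real.exp_pos _
  have h12 : a * A.Gs y / Real.log T ^ 10 ≤ a * (A.Y * A.Gs y) := by
    calc a * A.Gs y / Real.log T ^ 10 ≤ a * A.Gs y / 1 := by
          gcongr
          exact one_le_pow₀ hl
      _ = a * (1 * A.Gs y) := by ring
      _ ≤ a * (A.Y * A.Gs y) := by gcongr
  have h13 : C * Real.exp (-(2 * ∑ g ∈ s, (A.r g : ℝ))) * (Real.exp A.vt * A.Gs y)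
      ≤ C * a * ((Real.exp C' * p0 * A.Y) * A.Gs y) := by gcongr
  calc 3 * (∫ w, A.W s y w * ‖A.mo 1 s w‖ ^ 2 ∂mu) + a * A.Gs y / Real.log T ^ 10
      ≤ 3 * (C * a * ((Real.exp C' * p0 * A.Y) * A.Gs y)) + a * (A.Y * A.Gs y) := by linarith
    _ = _ := by ring

end Pool.Agent.Lib.G2
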