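import Mathlib
import Pool.Agent.Lib.MP_f9aece_nt_g2.StmtsZ

/-!
M2: means over `t` of short polynomials, and crude bounds used by the rows on means.
-/

set_option autoImplicit false

namespace Pool.Agent.Lib.G2

open MeasureTheory Set Filter Topology Complex ProbabilityTheory
open scoped ComplexConjugate
open Pool.Agent.Lib.GT

namespace M2

/-! ### crude facts about the parameters -/

section

variable {A : Par}

lemma mem_U_le (hA : A.Ok) {p : ℕ} (hp : p ∈ A.U) : p.Prime ∧ 1 ≤ p ∧ (p : ℝ) ≤ Real.exp A.Y := by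
  unfold Par.U at hp
  obtain ⟨g, _, hg⟩ := Finset.mem_biUnion.mp hp
  unfold Par.S at hg
  obtain ⟨h1, h2, _, _⟩ := Finset.mem_filter.mp hg
  obtain ⟨h3, h4⟩ := Finset.mem_Icc.mp h1
  refine ⟨h2, h3, ?_⟩
  have h5 : (p : ℝ) ≤ Real.exp (A.Yf g) :=
    (Nat.cast_le.mpr h4).trans (Nat.floor_le (Real.exp_pos _).le)
  refine h5.trans (Real.exp_le_exp.mpr ?_)
  unfold Par.Yf
  have h6 : Real.exp (-((A.v : ℝ) * g)) ≤ 1 := Real.exp_le_one_iff.mpr (by
    have : (0 : ℝ) ≤ (A.v : ℝ) * g := by positivity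
    linarith)
  have hY := hA.hY
  nlinarith

lemma h_sq (p : ℕ) : A.h p ^ 2 = (p : ℝ)⁻¹ := by
  unfold Par.h
  rw [← Real.rpow_natCast, ← Real.rpow_mul (Nat.cast_nonneg p)]
  norm_num
  exact Real.rpow_neg_one _

lemma vt_le (hA : A.Ok) : A.vt ≤ 1 + A.Y := by
  unfold Par.vt
  have hY := hA.hY
  have h1 : A.U ⊆ Finset.Icc 1 ⌊Real.exp A.Y⌋₊ := fun p hp => by
    obtain ⟨_, h2, h3⟩ := mem_U_le hA hp
    exact Finset.mem_Icc.mpr ⟨h2, Nat.le_floor h3⟩
  calc ∑ p ∈ A.U, A.h p ^ 2 = ∑ p ∈ A.U, (p : ℝ)⁻¹ := Finset.sum_congr rfl fun p _ => h_sq p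
    _ ≤ ∑ p ∈ Finset.Icc 1 ⌊Real.exp A.Y⌋₊, (p : ℝ)⁻¹ :=
        Finset.sum_le_sum_of_subset_of_nonneg h1 fun _ _ _ => by positivity
    _ = (harmonic ⌊Real.exp A.Y⌋₊ : ℝ) := by
        rw [harmonic_eq_sum_Icc]
        push_cast
        rfl
    _ ≤ 1 + Real.log (Real.exp A.Y) := harmonic_floor_le_one_add_log _ (Real.one_le_exp (by linarith))
    _ = 1 + A.Y := by rw [Real.log_exp]

lemma vt_nonneg : 0 ≤ A.vt := Finset.sum_nonneg fun _ _ => sq_nonneg _

lemma KY_ge (hA : A.Ok) : 4 * A.Y ≤ A.KY := by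
  unfold Par.KY
  have h1 : (4 : ℝ) ≤ A.v := by exact_mod_cast hA.hv
  have h2 : (0 : ℝ) ≤ A.i := Nat.cast_nonneg _
  have h3 := hA.hY
  nlinarith [mul_nonneg (by linarith : (0 : ℝ) ≤ A.v) h2]

lemma Y_le_KY (hA : A.Ok) : A.Y ≤ A.KY := by
  have := KY_ge hA
  have := hA.hY
  linarith

/-- crude lower bound for the size of the windows -/
lemma gs_ge (hA : A.Ok) (y : ℝ) : Real.exp (-(A.be * y)) * Real.exp (-A.Y) ≤ A.Gs y := by
  have hv := vt_le hA
  have hv0 := vt_nonneg (A := A)
  have hY := hA.hY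
  have hbe := hA.hbe
  have hbb := hA.hbb
  have hb := hA.hb
  have hs := hA.hs
  have hs2 : A.s2 ≤ A.Y := by
    unfold Par.s2
    linarith
  unfold Par.Gs Par.G
  have h1 : Real.sqrt A.s2 ≤ Real.exp (A.Y / 2) := by
    rw [Real.sqrt_le_left (Real.exp_pos _).le, ← Real.exp_nat_mul]
    have : ((2 : ℕ) : ℝ) * (A.Y / 2) = A.Y := by push_cast; ring
    rw [this]
    have := Real.add_one_le_exp A.Y
    linarith
  have h0 : 0 < Real.sqrt A.s2 := Real.sqrt_pos.mpr (by linarith)
  have h2 : Real.exp (-(A.Y / 2)) ≤ 1 / Real.sqrt A.s2 := by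
    rw [Real.exp_neg, ← one_div]
    exact one_div_le_one_div_of_le h0 h1
  have h3 : -(A.be * y) + -(A.Y / 2) ≤ -(A.be * (y - A.sg * A.vt)) + A.be ^ 2 * A.s2 / 2 := by
    have h4 : -(A.Y / 2) ≤ A.be * (A.sg * A.vt) := by
      have h5 : |A.be * (A.sg * A.vt)| ≤ A.Y / 2 := by
        rw [abs_mul, abs_mul, abs_of_pos hbe, abs_of_nonneg hv0]
        have h6 : |A.sg| = 1 := by
          rcases hA.hsg with h | h <;> rw [h] <;> norm_num
        rw [h6, one_mul]
        nlinarith
      exact (abs_le.mp h5).1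
    have h5 : 0 ≤ A.be ^ 2 * A.s2 / 2 := by positivity
    nlinarith
  calc Real.exp (-(A.be * y)) * Real.exp (-A.Y)
      = Real.exp (-(A.Y / 2)) * Real.exp (-(A.be * y) + -(A.Y / 2)) := by
        rw [← Real.exp_add, ← Real.exp_add]
        congr 1
        ring
    _ ≤ 1 / Real.sqrt A.s2 * Real.exp (-(A.be * (y - A.sg * A.vt)) + A.be ^ 2 * A.s2 / 2) :=
        mul_le_mul h2 (Real.exp_le_exp.mpr h3) (Real.exp_pos _).le (by positivity)

lemma gs_pos (hA : A.Ok) (y : ℝ) : 0 < A.Gs y :=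
  lt_of_lt_of_le (by positivity) (gs_ge hA y)

/-! ### consequences of `Len` -/

variable {T e : ℝ}

lemma log_pos (hL : Len A T e) : 1 ≤ Real.log T := by
  have h3 := hL.hT
  have h := Real.log_le_log (by norm_num : (0 : ℝ) < 3) h3
  have h1 : (1 : ℝ) ≤ Real.log 3 := by
    rw [Real.le_log_iff_exp_le (by norm_num)]
    have := Real.exp_one_lt_d9
    linarith
  linarith

/-- powers of the logarithm -/
lemma log_pow (hL : Len A T e) : Real.log T ^ 10 ≤ Real.exp (e * Real.log T / 100) := by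
  have h1 := log_pos hL
  have h2 := hL.hp
  have h3 : (Real.log T ^ 10) ^ 100 ≤ Real.exp (e * Real.log T / 100) ^ 100 := by
    rw [← pow_mul, ← Real.exp_nat_mul]
    have : ((100 : ℕ) : ℝ) * (e * Real.log T / 100) = e * Real.log T := by push_cast; ring
    rw [this]
    exact h2
  exact le_of_pow_le_pow_left₀ (by norm_num) (Real.exp_pos _).le h3

/-- the exponent is large -/
lemma log_le_exp (hL : Len A T e) : Real.log T ≤ Real.exp (e * Real.log T / 1000) := by
  have h1 := log_pos hL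
  have h2 := hL.hp
  have h3 : (Real.log T) ^ 1000 ≤ Real.exp (e * Real.log T / 1000) ^ 1000 := by
    rw [← Real.exp_nat_mul]
    have : ((1000 : ℕ) : ℝ) * (e * Real.log T / 1000) = e * Real.log T := by push_cast; ring
    rw [this]
    exact h2
  exact le_of_pow_le_pow_left₀ (by norm_num) (Real.exp_pos _).le h3

lemma ky_le (hL : Len A T e) : 10 ^ 10 * A.KY ≤ e * Real.log T := hL.hK

/-- `exp Y` is small -/
lemma expY_le (hA : A.Ok) (hL : Len A T e) : Real.exp A.Y ≤ Real.exp (e * Real.log T / 100) := by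
  have h1 := Y_le_KY hA
  have h2 := ky_le hL
  have h3 := hA.hY
  exact Real.exp_le_exp.mpr (by linarith)

/-- the numerical lemma: a saving of `T ^ (-e / 2)` is enough -/
lemma small_of (hA : A.Ok) (hL : Len A T e) {C : ℝ} (hC : C ≤ Real.log T) (y : ℝ) :
    C * (Real.exp (-(A.be * y)) * Real.exp (-(1 / 2 * (e * Real.log T)))) ≤ A.Gs y / Real.log T ^ 10 := by
  have h1 := log_pos hL
  have h2 := log_pow hL
  have h3 := log_le_exp hL
  have h4 := expY_le hA hL
  have h5 := gs_ge hA y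
  have h0 : 0 < Real.log T ^ 10 := by positivity
  rw [le_div_iff₀ h0]
  refine le_trans ?_ h5
  have he : 0 ≤ e * Real.log T := mul_nonneg hL.he.le (by linarith)
  calc C * (Real.exp (-(A.be * y)) * Real.exp (-(1 / 2 * (e * Real.log T)))) * Real.log T ^ 10
      ≤ Real.exp (e * Real.log T / 1000) * (Real.exp (-(A.be * y))
        * Real.exp (-(1 / 2 * (e * Real.log T)))) * Real.exp (e * Real.log T / 100) := by
        have : C ≤ Real.exp (e * Real.log T / 1000) := hC.trans h3
        gcongr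
    _ = Real.exp (-(A.be * y)) * Real.exp (e * Real.log T / 1000
        + -(1 / 2 * (e * Real.log T)) + e * Real.log T / 100) := by
        rw [Real.exp_add, Real.exp_add]
        ring
    _ ≤ Real.exp (-(A.be * y)) * Real.exp (-A.Y) := by
        refine mul_le_mul_of_nonneg_left (Real.exp_le_exp.mpr ?_) (Real.exp_pos _).le
        have h6 := Real.exp_le_exp.mp h4
        linarith

end

/-- the mollifier with parameter `0` -/
lemma mo_zero (A : Par) (s : Finset ℕ) (x : Om) : A.mo 0 s x = 1 := by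
  unfold Par.mo
  refine Finset.prod_eq_one fun g _ => ?_
  unfold tex
  rw [zero_mul, Finset.sum_range_succ']
  simp

end M2

theorem unMean (h1 : WTransfer) : UnMean := by
  obtain ⟨C, hC, h⟩ := h1
  refine ⟨max 3 (Real.exp C), le_max_left _ _, ?_⟩
  intro A hA T e hT hL x y N c H hN hcN hH
  have hT3 : 3 ≤ T := (le_max_left _ _).trans hT
  have hT0 : 0 < T := by linarith
  have hCT : C ≤ Real.log T := by
    rw [Real.le_log_iff_exp_le hT0]
    exact (le_max_right _ _).trans hT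
  have h2 := (h A hA ∅ ∅ (Finset.empty_subset _) (Finset.empty_subset _) 0 0 (by simp) (by simp) N c H hN hH x T y hT0).1
  simp only [M2.mo_zero, map_one, mul_one] at h2
  unfold Par.W
  refine h2.trans ?_
  refine le_trans ?_ (M2.small_of hA hL hCT y)
  have h3 : c * N / T ≤ Real.exp (-(e * Real.log T)) := by
    rw [div_le_iff₀ hT0]
    refine hcN.trans (le_of_eq ?_)
    nth_rewrite 3 [← Real.exp_log hT0]
    rw [← Real.exp_add]
    congr 1
    ring
  have h4 := M2.ky_le hL
  have h5 : 0 ≤ e * Real.log T := mul_nonneg hL.he.le (by have := M2.log_pos hL; linarith)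
  calc C * Real.exp (-(A.be * y)) * (Real.exp (2 * 10 ^ 7 * A.KY) * (c * N / T))
      ≤ C * Real.exp (-(A.be * y)) * (Real.exp (1 / 500 * (e * Real.log T))
        * Real.exp (-(e * Real.log T))) := by
        have hc := hH.nonneg
        have h6 : 0 ≤ c * N / T := div_nonneg (mul_nonneg hc (by linarith)) hT0.le
        refine mul_le_mul_of_nonneg_left (mul_le_mul (Real.exp_le_exp.mpr (by linarith)) h3 h6
          (Real.exp_pos _).le) (by positivity)
    _ = C * (Real.exp (-(A.be * y)) * Real.exp (1 / 500 * (e * Real.log T) + -(e * Real.log T))) := by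
        rw [Real.exp_add]
        ring
    _ ≤ C * (Real.exp (-(A.be * y)) * Real.exp (-(1 / 2 * (e * Real.log T)))) := by
        gcongr
        linarith

end Pool.Agent.Lib.G2
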