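import Mathlib
import Pool.Agent.Lib.MP_f9aece_nt_g2.C5
import Pool.Agent.Lib.MP_f9aece_nt_g2.M2

/-!
M3: the cross terms are negligible, by the oscillation of the factor of the functional equation.
-/

set_option autoImplicit false

namespace Pool.Agent.Lib.G2

open MeasureTheory Set Filter Topology Complex ProbabilityTheory
open scoped ComplexConjugate
open Pool.Agent.Lib.GT
open Pool.Agent.H20.Chi (chi norm_chi deriv_chi_le differentiable_chi continuous_chi)

namespace M3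

/-! ### one character against the factor of the functional equation -/

/-- the function -/
noncomputable def F (ξ t : ℝ) : ℂ := conj (chi t) * cexp (-(I * ξ) * t)

/-- the derivative of the phase -/
noncomputable def ps (ξ t : ℝ) : ℝ := Real.log (t / (2 * Real.pi)) - ξ

lemma norm_exp_I (ξ t : ℝ) : ‖cexp (-(I * ξ) * t)‖ = 1 := by
  rw [Complex.norm_exp]
  simp

lemma norm_F (ξ t : ℝ) : ‖F ξ t‖ = 1 := by
  unfold F
  rw [norm_mul, Complex.norm_conj, norm_chi, norm_exp_I, one_mul]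

lemma continuous_F (ξ : ℝ) : Continuous (F ξ) := by
  unfold F
  exact (Complex.continuous_conj.comp continuous_chi).mul (by fun_prop)

lemma hasDerivAt_ps (ξ : ℝ) {t : ℝ} (ht : 0 < t) : HasDerivAt (ps ξ) (1 / t) t := by
  unfold ps
  have hpi := Real.pi_pos
  have h1 : HasDerivAt (fun u : ℝ => u / (2 * Real.pi)) (1 / (2 * Real.pi)) t :=
    (hasDerivAt_id t).div_const _
  refine ((h1.log (by positivity)).sub_const ξ).congr_deriv ?_
  field_simp

lemma hasDerivAt_F (ξ t : ℝ) : HasDerivAt (F ξ)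
    (conj (deriv chi t) * cexp (-(I * ξ) * t) + conj (chi t) * (cexp (-(I * ξ) * t) * (-(I * ξ)))) t := by
  unfold F
  have h1 : HasDerivAt (fun t : ℝ => conj (chi t)) (conj (deriv chi t)) t := by
    have h := (differentiable_chi t).hasDerivAt
    exact h.star
  have h2 : HasDerivAt (fun t : ℝ => (-(I * ξ) * t : ℂ)) (-(I * ξ)) t := by
    have h3 : HasDerivAt (fun t : ℝ => (t : ℂ)) 1 t := Complex.ofRealCLM.hasDerivAt (x := t)
    have h4 := h3.const_mul (-(I * ξ) : ℂ)
    rwa [mul_one] at h4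
  exact h1.mul h2.cexp

/-- the quotient by the derivative of the phase -/
noncomputable def G (ξ t : ℝ) : ℂ := F ξ t * (I * (ps ξ t : ℂ))⁻¹

lemma norm_G {ξ t δ : ℝ} (hδ : 0 < δ) (h : δ ≤ ps ξ t) : ‖G ξ t‖ ≤ 1 / δ := by
  unfold G
  rw [norm_mul, norm_F, one_mul, norm_inv, norm_mul, Complex.norm_I, one_mul, Complex.norm_real,
    Real.norm_of_nonneg (hδ.le.trans h), ← one_div]
  exact one_div_le_one_div_of_le hδ h

lemma deriv_G {ξ t δ : ℝ} (ht : 0 < t) (hδ : 0 < δ) (h : δ ≤ ps ξ t) :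
    ∃ R : ℂ, HasDerivAt (G ξ) (F ξ t + R) t ∧ ‖R‖ ≤ (8 / δ + 1 / δ ^ 2) * (1 / t) := by
  have hps : 0 < ps ξ t := hδ.trans_le h
  have hI : (I * (ps ξ t : ℂ)) ≠ 0 := mul_ne_zero I_ne_zero (by exact_mod_cast hps.ne')
  have h1 := hasDerivAt_F ξ t
  have h2 : HasDerivAt (fun t : ℝ => I * (ps ξ t : ℂ)) (I * ((1 / t : ℝ) : ℂ)) t :=
    ((hasDerivAt_ps ξ ht).ofReal_comp).const_mul I
  have h3 := h1.fun_mul (h2.fun_inv hI)
  set E : ℂ := deriv chi t + I * Real.log (t / (2 * Real.pi)) * chi t with hE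
  have hEn : ‖E‖ ≤ 8 / t := deriv_chi_le ht
  have hd : conj (deriv chi t) = conj E + I * Real.log (t / (2 * Real.pi)) * conj (chi t) := by
    have : deriv chi t = E - I * Real.log (t / (2 * Real.pi)) * chi t := by rw [hE]; ring
    rw [this, map_sub, map_mul, map_mul, Complex.conj_I, Complex.conj_ofReal]
    ring
  refine ⟨conj E * cexp (-(I * ξ) * t) * (I * (ps ξ t : ℂ))⁻¹
    + F ξ t * (-(I * ((1 / t : ℝ) : ℂ)) / (I * (ps ξ t : ℂ)) ^ 2), ?_, ?_⟩
  · refine h3.congr_deriv ?_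
    rw [hd]
    have e : (conj E + I * Real.log (t / (2 * Real.pi)) * conj (chi t)) * cexp (-(I * ξ) * t)
        + conj (chi t) * (cexp (-(I * ξ) * t) * (-(I * ξ)))
        = conj E * cexp (-(I * ξ) * t) + F ξ t * (I * (ps ξ t : ℂ)) := by
      unfold F ps
      push_cast
      ring
    rw [e, add_mul, mul_assoc (F ξ t), mul_inv_cancel₀ hI, mul_one]
    ring
  · refine (norm_add_le _ _).trans ?_
    have n1 : ‖conj E * cexp (-(I * ξ) * t) * (I * (ps ξ t : ℂ))⁻¹‖ ≤ 8 / t * (1 / δ) := by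
      rw [norm_mul, norm_mul, norm_exp_I, mul_one, Complex.norm_conj, norm_inv, norm_mul,
        Complex.norm_I, one_mul, Complex.norm_real, Real.norm_of_nonneg hps.le, ← one_div]
      exact mul_le_mul hEn (one_div_le_one_div_of_le hδ h) (by positivity) (by positivity)
    have n2 : ‖F ξ t * (-(I * ((1 / t : ℝ) : ℂ)) / (I * (ps ξ t : ℂ)) ^ 2)‖ ≤ 1 / t * (1 / δ ^ 2) := by
      rw [norm_mul, norm_F, one_mul, norm_div, norm_neg, norm_mul, Complex.norm_I, one_mul,
        Complex.norm_real, norm_pow, norm_mul, Complex.norm_I, one_mul, Complex.norm_real,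
        Real.norm_of_nonneg hps.le, Real.norm_of_nonneg (by positivity : (0 : ℝ) ≤ 1 / t),
        div_eq_mul_one_div]
      refine mul_le_mul_of_nonneg_left ?_ (by positivity)
      exact one_div_le_one_div_of_le (by positivity) (pow_le_pow_left₀ hδ.le h 2)
    refine (add_le_add n1 n2).trans (le_of_eq ?_)
    ring

/-- one character -/
theorem osc {α β ξ δ : ℝ} (hα : 0 < α) (hαβ : α ≤ β) (hδ : 0 < δ)
    (h : ξ + δ ≤ Real.log (α / (2 * Real.pi))) :
    ‖∫ t in α..β, F ξ t‖ ≤ 2 / δ + (8 / δ + 1 / δ ^ 2) * Real.log (β / α) := by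
  have hpi := Real.pi_pos
  have hp : ∀ t, α ≤ t → δ ≤ ps ξ t := by
    intro t ht
    unfold ps
    have h1 : Real.log (α / (2 * Real.pi)) ≤ Real.log (t / (2 * Real.pi)) :=
      Real.log_le_log (by positivity) (by gcongr)
    linarith
  set K : ℝ := 8 / δ + 1 / δ ^ 2 with hK
  have hR : ∀ t, α ≤ t → ∃ R : ℂ, HasDerivAt (G ξ) (F ξ t + R) t ∧ ‖R‖ ≤ K * (1 / t) :=
    fun t ht => deriv_G (hα.trans_le ht) hδ (hp t ht)
  choose! R hR1 hR2 using hR
  have hd : ∀ t, α ≤ t → HasDerivAt (fun t => G ξ t - G ξ α - ∫ s in α..t, F ξ s) (R t) t := by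
    intro t ht
    have h1 := (hR1 t ht).sub_const (G ξ α)
    have h2 : HasDerivAt (fun t => ∫ s in α..t, F ξ s) (F ξ t) t :=
      ((continuous_F ξ).integral_hasStrictDerivAt α t).hasDerivAt
    refine (h1.fun_sub h2).congr_deriv ?_
    ring
  have hB : ∀ t, α ≤ t → HasDerivAt (fun t => K * Real.log (t / α)) (K * (1 / t)) t := by
    intro t ht
    have ht0 : 0 < t := hα.trans_le ht
    have h1 : HasDerivAt (fun u : ℝ => u / α) (1 / α) t := (hasDerivAt_id t).div_const _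
    refine ((h1.log (by positivity)).const_mul K).congr_deriv ?_
    field_simp
  have key := image_norm_le_of_norm_deriv_right_le_deriv_boundary'
    (f := fun t => G ξ t - G ξ α - ∫ s in α..t, F ξ s) (f' := R) (a := α) (b := β)
    (B := fun t => K * Real.log (t / α)) (B' := fun t => K * (1 / t))
    (fun t ht => (hd t ht.1).continuousAt.continuousWithinAt)
    (fun t ht => (hd t ht.1).hasDerivWithinAt)
    (by simp)
    (fun t ht => (hB t ht.1).continuousAt.continuousWithinAt)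
    (fun t ht => (hB t ht.1).hasDerivWithinAt)
    (fun t ht => hR2 t ht.1) (x := β) ⟨hαβ, le_rfl⟩
  have e : ∫ s in α..β, F ξ s = G ξ β - G ξ α - (G ξ β - G ξ α - ∫ s in α..β, F ξ s) := by ring
  rw [e]
  have n1 := norm_G hδ (hp β hαβ)
  have n2 := norm_G hδ (hp α le_rfl)
  calc ‖G ξ β - G ξ α - (G ξ β - G ξ α - ∫ s in α..β, F ξ s)‖
      ≤ ‖G ξ β - G ξ α‖ + ‖G ξ β - G ξ α - ∫ s in α..β, F ξ s‖ := norm_sub_le _ _
    _ ≤ (‖G ξ β‖ + ‖G ξ α‖) + K * Real.log (β / α) := add_le_add (norm_sub_le _ _) key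
    _ ≤ (1 / δ + 1 / δ) + K * Real.log (β / α) := by gcongr
    _ = 2 / δ + K * Real.log (β / α) := by ring

/-! ### trigonometric polynomials -/

/-- trigonometric polynomials of length at most `N` -/
theorem tp_osc {N c : ℝ} {f : Om → ℂ} (hf : TP N c f) {α β δ : ℝ} (hα : 0 < α) (hαβ : α ≤ β)
    (hδ : 0 < δ) (h : Real.log N + δ ≤ Real.log (α / (2 * Real.pi))) :
    ‖∫ t in α..β, conj (chi t) * f (om t)‖
      ≤ c * (2 / δ + (8 / δ + 1 / δ ^ 2) * Real.log (β / α)) := by
  obtain ⟨ι, hι, a, m, n, h1, h2, h3⟩ := hf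
  set B : ℝ := 2 / δ + (8 / δ + 1 / δ ^ 2) * Real.log (β / α) with hB
  have hB0 : 0 ≤ B := by
    have : 0 ≤ Real.log (β / α) := Real.log_nonneg (by rwa [le_div_iff₀ hα, one_mul])
    positivity
  have e1 : ∀ t : ℝ, conj (chi t) * f (om t)
      = ∑ i, a i * F (Real.log (m i) - Real.log (n i)) t := by
    intro t
    rw [h2, Finset.mul_sum]
    refine Finset.sum_congr rfl fun i _ => ?_
    rw [ch_om_mul_conj t (h1 i).1 (h1 i).2.2.1]
    unfold F
    push_cast
    ring
  simp_rw [e1]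
  have hi : ∀ i ∈ Finset.univ, IntervalIntegrable
      (fun t => a i * F (Real.log (m i) - Real.log (n i)) t) volume α β := fun i _ =>
    (continuous_const.mul (continuous_F _)).intervalIntegrable _ _
  rw [intervalIntegral.integral_finsetSum hi]
  refine (norm_sum_le _ _).trans ?_
  have h4 : ∀ i ∈ Finset.univ, ‖∫ t in α..β, a i * F (Real.log (m i) - Real.log (n i)) t‖
      ≤ ‖a i‖ * B := by
    intro i _
    obtain ⟨hm, hmN, hn, hnN⟩ := h1 i
    rw [intervalIntegral.integral_const_mul, norm_mul]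
    refine mul_le_mul_of_nonneg_left (osc hα hαβ hδ ?_) (norm_nonneg _)
    have h5 : Real.log (m i) ≤ Real.log N :=
      Real.log_le_log (by exact_mod_cast hm) hmN
    have h6 : 0 ≤ Real.log (n i) := Real.log_natCast_nonneg _
    linarith
  refine (Finset.sum_le_sum h4).trans ?_
  rw [← Finset.sum_mul]
  gcongr

/-- smooth sums as trigonometric polynomials -/
lemma tp_sm (w : ℝ) {a : ℝ} (ha : 0 ≤ a) : TP (Real.exp a) (2 * Real.exp (a / 2)) (Sm w a) := by
  unfold Sm
  have h0 : (0 : ℝ) ≤ Real.exp a := (Real.exp_pos a).le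
  have h1 : (1 : ℝ) ≤ Real.exp a := Real.one_le_exp ha
  have h2 : TP (Real.exp a) (∑ n ∈ Finset.Icc 1 ⌊Real.exp a⌋₊, (n : ℝ) ^ (-(1 / 2) : ℝ))
      fun x => ∑ n ∈ Finset.Icc 1 ⌊Real.exp a⌋₊, (Real.smoothTransition ((a - Real.log n) / w) : ℂ)
        * ((n : ℂ) ^ (-(1 / 2) : ℂ) * ch x n) := by
    refine TP.sum fun n hn => ?_
    obtain ⟨hn1, hn2⟩ := Finset.mem_Icc.mp hn
    have hnN : (n : ℝ) ≤ Real.exp a := (Nat.cast_le.mpr hn2).trans (Nat.floor_le h0)
    have h3 := TP.char (N := Real.exp a) hn1 (le_refl 1) hnN (by simpa using h1)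
      ((Real.smoothTransition ((a - Real.log n) / w) : ℂ) * (n : ℂ) ^ (-(1 / 2) : ℂ))
    refine (h3.mono le_rfl ?_).congr fun x => ?_
    · rw [norm_mul, Complex.norm_real, Complex.norm_natCast_cpow_of_pos (by omega)]
      have e : (-(1 / 2) : ℂ).re = -(1 / 2) := by simp
      rw [e, Real.norm_of_nonneg (Real.smoothTransition.nonneg _)]
      have := Real.smoothTransition.le_one ((a - Real.log n) / w)
      have h5 : 0 ≤ (n : ℝ) ^ (-(1 / 2) : ℝ) := by positivity
      nlinarith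
    · rw [ch_one]
      simp
      ring
  refine h2.mono le_rfl ?_
  have h6 : ∀ M : ℕ, ∑ n ∈ Finset.Icc 1 M, (n : ℝ) ^ (-(1 / 2) : ℝ) ≤ 2 * Real.sqrt M := by
    intro M
    induction M with
    | zero => simp
    | succ M ih =>
      rw [Finset.sum_Icc_succ_top (by omega)]
      have h7 : ((M + 1 : ℕ) : ℝ) ^ (-(1 / 2) : ℝ) = 1 / Real.sqrt (M + 1 : ℕ) := by
        rw [Real.rpow_neg (by positivity), ← Real.sqrt_eq_rpow, one_div]
      rw [h7]
      have hM : (0 : ℝ) ≤ M := Nat.cast_nonneg M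
      have s1 := Real.sq_sqrt hM
      have s2 := Real.sq_sqrt (by positivity : (0 : ℝ) ≤ ((M + 1 : ℕ) : ℝ))
      have p2 : 0 < Real.sqrt ((M + 1 : ℕ) : ℝ) := Real.sqrt_pos.mpr (by positivity)
      have p1 := Real.sqrt_nonneg (M : ℝ)
      have h8 : 1 / Real.sqrt ((M + 1 : ℕ) : ℝ)
          ≤ 2 * Real.sqrt ((M + 1 : ℕ) : ℝ) - 2 * Real.sqrt M := by
        rw [div_le_iff₀ p2]
        push_cast at s2 ⊢
        nlinarith [sq_nonneg (Real.sqrt ((M : ℝ) + 1) - Real.sqrt M)]
      linarith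
  refine (h6 _).trans ?_
  have h9 : Real.sqrt (⌊Real.exp a⌋₊ : ℝ) ≤ Real.exp (a / 2) := by
    rw [Real.sqrt_le_left (Real.exp_pos _).le, ← Real.exp_nat_mul]
    have : ((2 : ℕ) : ℝ) * (a / 2) = a := by push_cast; ring
    rw [this]
    exact Nat.floor_le h0
  linarith

/-! ### the heights -/

lemma int_rg {x T e : ℝ} (hT : 0 < T) (g : ℝ → ℂ) :
    ∫ t in Rg x T e, g t ∂(un x T)
      = ((1 / T : ℝ) : ℂ) * ∫ t in Icc (max (T ^ (1 - e / 4 : ℝ)) x) (x + T), g t := by
  unfold Rg un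
  rw [Measure.restrict_smul, Measure.restrict_restrict measurableSet_Icc, Icc_inter_Icc,
    integral_smul_measure, ENNReal.toReal_inv, ENNReal.toReal_ofReal hT.le]
  rw [min_self, Complex.real_smul, one_div]

/-- a trigonometric polynomial against the factor of the functional equation -/
theorem rg_osc {x T e N c L : ℝ} (hT : 3 ≤ T) (hx : |x| ≤ T) {f : Om → ℂ} (hf : TP N c f)
    (hL : L = Real.log T) (he : 0 < e) (he1 : e ≤ 1 / 100) (hd : 100 ≤ e * L)
    (h : Real.log N + e * L + e * L / 4 + 2 ≤ L) :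
    ‖∫ t in Rg x T e, conj (chi t) * f (om t) ∂(un x T)‖ ≤ 10 * c / T := by
  have hT0 : 0 < T := by linarith
  have hc := hf.nonneg
  have hpi := Real.pi_pos
  rw [int_rg hT0, norm_mul, Complex.norm_real, Real.norm_of_nonneg (by positivity)]
  set α : ℝ := max (T ^ (1 - e / 4 : ℝ)) x with hα
  have hτ : T ^ (1 - e / 4 : ℝ) = Real.exp ((1 - e / 4) * L) := by
    rw [Real.rpow_def_of_pos hT0, hL]
    congr 1
    ring
  have hα0 : 0 < α := lt_of_lt_of_le (by rw [hτ]; exact Real.exp_pos _) (le_max_left _ _)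
  have hαl : (1 - e / 4) * L ≤ Real.log α := by
    rw [Real.le_log_iff_exp_le hα0, ← hτ]
    exact le_max_left _ _
  by_cases hαβ : α ≤ x + T
  · rw [integral_Icc_eq_integral_Ioc, ← intervalIntegral.integral_of_le hαβ]
    have hδ : 0 < e * L := by linarith
    have h2pi : Real.log (2 * Real.pi) ≤ 2 := by
      rw [Real.log_le_iff_le_exp (by positivity)]
      have h1 := Real.exp_one_gt_d9
      have h2 : Real.exp 2 = Real.exp 1 * Real.exp 1 := by rw [← Real.exp_add]; norm_num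
      have h3 := Real.pi_lt_d2
      nlinarith
    have h1 : Real.log N + e * L ≤ Real.log (α / (2 * Real.pi)) := by
      rw [Real.log_div hα0.ne' (by positivity)]
      linarith
    have h2 := tp_osc hf hα0 hαβ hδ h1
    have h3 : Real.log ((x + T) / α) ≤ 1 + e * L / 4 := by
      rw [Real.log_div (by linarith) hα0.ne']
      have h4 : Real.log (x + T) ≤ Real.log (2 * T) :=
        Real.log_le_log (by linarith) (by have := (abs_le.mp hx).2; linarith)
      rw [Real.log_mul (by norm_num) hT0.ne', ← hL] at h4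
      have h5 := Real.log_two_lt_d9
      linarith
    have h4 : 2 / (e * L) + (8 / (e * L) + 1 / (e * L) ^ 2) * Real.log ((x + T) / α) ≤ 10 := by
      set δ := e * L with hδd
      have h5 : 8 / δ + 1 / δ ^ 2 ≤ 9 / δ := by
        rw [div_add_div _ _ hδ.ne' (by positivity), div_le_div_iff₀ (by positivity) hδ]
        nlinarith [sq_nonneg δ, mul_pos hδ hδ]
      have h6 : 0 ≤ 1 + δ / 4 := by positivity
      calc 2 / δ + (8 / δ + 1 / δ ^ 2) * Real.log ((x + T) / α)
          ≤ 2 / δ + (8 / δ + 1 / δ ^ 2) * (1 + δ / 4) := by gcongr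
        _ ≤ 2 / δ + 9 / δ * (1 + δ / 4) := by gcongr
        _ = 11 / δ + 9 / 4 := by field_simp; ring
        _ ≤ 10 := by
          have : 11 / δ ≤ 1 := by rw [div_le_one hδ]; linarith
          linarith
    calc 1 / T * ‖∫ t in α..(x + T), conj (chi t) * f (om t)‖
        ≤ 1 / T * (c * 10) := by
          refine mul_le_mul_of_nonneg_left (h2.trans ?_) (by positivity)
          exact mul_le_mul_of_nonneg_left h4 hc
      _ = 10 * c / T := by ring
  · have : Icc α (x + T) = ∅ := Icc_eq_empty hαβ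
    rw [this]
    simp
    positivity

/-! ### the weights -/

attribute [local irreducible] C5.Gw C5.Kw

section

variable {A : Par} {N c y : ℝ} {H : Om → ℂ} {ρ : Measure ℝ} [IsFiniteMeasure ρ] {k : ℝ → ℂ}

lemma integrable_all (hL : WLen) (hA : A.Ok) (hH : TP N c H) (hk : Continuous k) (hk1 : ∀ t, ‖k t‖ ≤ 1)
    (y : ℝ) :
    Integrable (fun p : (ℝ × ℝ) × ℝ => C5.Kw A y p.1
      * (C5.Gw A ∅ ∅ 0 0 p.1 (om p.2) * (k p.2 * H (om p.2)))) ((me.prod me).prod ρ) := by
  have h := C5.integrable_all (A := A) (s := ∅) (s' := ∅) (μ1 := 0) (μ2 := 0) (ρ := ρ) (τ := om) hL hA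
    (Finset.empty_subset _) (Finset.empty_subset _) (by simp) (by simp) hH continuous_om.measurable y
  refine (h.bdd_mul (f := fun p : (ℝ × ℝ) × ℝ => k p.2) (c := 1) ?_ ?_).congr
    (Eventually.of_forall fun p => ?_)
  · exact (hk.measurable.comp measurable_snd).aestronglyMeasurable
  · exact Eventually.of_forall fun p => hk1 p.2
  · simp only
    ring

lemma form (hW : WForm) (hL : WLen) (hA : A.Ok) (hH : TP N c H) (hk : Continuous k)
    (hk1 : ∀ t, ‖k t‖ ≤ 1) (y : ℝ) :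
    ∫ t, (A.W ∅ y (om t) : ℂ) * (k t * H (om t)) ∂ρ
      = ((A.b / c0 : ℝ) : ℂ) * ∫ w, C5.Kw A y w
        * ∫ t, k t * (C5.Gw A ∅ ∅ 0 0 w (om t) * H (om t)) ∂ρ ∂(me.prod me) := by
  have hi := integrable_all (ρ := ρ) hL hA hH hk hk1 y
  have e1 : ∀ t, (A.W ∅ y (om t) : ℂ) * (k t * H (om t))
      = ((A.b / c0 : ℝ) : ℂ) * ∫ w, C5.Kw A y w
        * (C5.Gw A ∅ ∅ 0 0 w (om t) * (k t * H (om t))) ∂(me.prod me) := by
    intro t
    have h := C5.form0 (A := A) (s := ∅) (s' := ∅) (μ1 := 0) (μ2 := 0) hW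
      (Finset.empty_subset _) (Finset.empty_subset _) y (om t)
      (k t * H (om t))
    rwa [M2.mo_zero, map_one, mul_one, mul_one] at h
  simp_rw [e1]
  rw [integral_const_mul]
  congr 1
  have h := integral_integral_swap (μ := me.prod me) (ν := ρ)
    (f := fun w t => C5.Kw A y w * (C5.Gw A ∅ ∅ 0 0 w (om t) * (k t * H (om t)))) hi
  rw [← h]
  refine integral_congr_ae (Eventually.of_forall fun w => ?_)
  simp only
  rw [integral_const_mul]
  congr 1
  refine integral_congr_ae (Eventually.of_forall fun t => ?_)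
  simp only
  ring

/-- the bound -/
lemma bound (hW : WForm) (hL : WLen) (hA : A.Ok) (hH : TP N c H) (hk : Continuous k)
    (hk1 : ∀ t, ‖k t‖ ≤ 1) {B : ℝ}
    (hB : ∀ f : Om → ℂ, TP (Real.exp (10 ^ 7 * A.KY) * N) (Real.exp (10 ^ 7 * A.KY) * c) f →
      ‖∫ t, k t * f (om t) ∂ρ‖ ≤ B) (y : ℝ) :
    ‖∫ t, (A.W ∅ y (om t) : ℂ) * (k t * H (om t)) ∂ρ‖ ≤ |1 / c0| * (Real.exp (-(A.be * y)) * B) := by
  rw [form hW hL hA hH hk hk1 y, norm_mul, Complex.norm_real]
  have hb0 : 0 ≤ A.b := by linarith [hA.hbe, hA.hbb]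
  have hb1 : ‖A.b / c0‖ ≤ |1 / c0| := by
    rw [div_eq_mul_one_div, norm_mul, Real.norm_of_nonneg hb0, Real.norm_eq_abs]
    have := abs_nonneg (1 / c0)
    nlinarith [hA.hb]
  refine mul_le_mul hb1 ?_ (norm_nonneg _) (abs_nonneg _)
  have h3 : ∀ᵐ w ∂(me.prod me), ‖C5.Kw A y w * ∫ t, k t * (C5.Gw A ∅ ∅ 0 0 w (om t) * H (om t)) ∂ρ‖
      ≤ Real.exp (-(A.be * y)) * B := by
    filter_upwards [C5.ae_me] with w hw
    rw [norm_mul]
    exact mul_le_mul (C5.norm_Kw hw) (hB _ (C5.tp hL hA (Finset.empty_subset _) (Finset.empty_subset _) (by simp)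
      (by simp) hH hw)) (norm_nonneg _) (Real.exp_pos _).le
  refine (norm_integral_le_of_norm_le_const h3).trans ?_
  rw [probReal_univ, mul_one]

end

end M3

theorem cross (h1 : WForm) (h2 : WLen) : Cross := by
  set C : ℝ := 40 * |1 / c0| with hC
  have hC0 : 0 ≤ C := by positivity
  refine ⟨max 3 (Real.exp C), le_max_left _ _, ?_⟩
  intro A hA T e hT hL x y c hx hc1 hc2
  have hT3 : 3 ≤ T := (le_max_left _ _).trans hT
  have hT0 : 0 < T := by linarith
  have hCT : C ≤ Real.log T := by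
    rw [Real.le_log_iff_exp_le hT0]
    exact (le_max_right _ _).trans hT
  set L : ℝ := Real.log T with hLd
  have hL1 : 1 ≤ L := M2.log_pos hL
  have hK := M2.ky_le hL
  have hK1 := M2.KY_ge hA
  have hY := hA.hY
  have heL : 0 < e * L := mul_pos hL.he (by linarith)
  have hc3 : c ≤ (1 / 2 - 19 / 20 * e) * L := by
    refine hc2.trans (le_of_eq ?_)
    unfold cd wd
    ring
  have hH : TP (Real.exp (2 * c)) (4 * Real.exp c) fun w => Sm (wd T e) c w ^ 2 := by
    have h := (M3.tp_sm (wd T e) (a := c) (by linarith)).pow 2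
    refine h.mono (le_of_eq ?_) (le_of_eq ?_)
    · rw [← Real.exp_nat_mul]
      push_cast
      ring_nf
    · rw [mul_pow, ← Real.exp_nat_mul]
      push_cast
      ring_nf
  have hu := prob_un x hT0
  have hN : Real.log (Real.exp (10 ^ 7 * A.KY) * Real.exp (2 * c)) = 10 ^ 7 * A.KY + 2 * c := by
    rw [← Real.exp_add, Real.log_exp]
  have hb := M3.bound (ρ := (un x T).restrict (Rg x T e)) (k := fun t => conj (chi t)) h1 h2 hA hH
    (Complex.continuous_conj.comp Pool.Agent.H20.Chi.continuous_chi)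
    (fun t => by rw [Complex.norm_conj, Pool.Agent.H20.Chi.norm_chi])
    (B := 10 * (Real.exp (10 ^ 7 * A.KY) * (4 * Real.exp c)) / T)
    (fun f hf => M3.rg_osc hT3 hx hf hLd hL.he hL.he1 (by linarith) (by rw [hN]; nlinarith)) y
  have e1 : ∀ t, conj (chi t) * (Sm (wd T e) c (om t)) ^ 2 * (A.W ∅ y (om t) : ℂ)
      = (A.W ∅ y (om t) : ℂ) * (conj (chi t) * (Sm (wd T e) c (om t)) ^ 2) := fun t => by ring
  simp_rw [e1]
  refine hb.trans ?_
  refine le_trans ?_ (M2.small_of hA hL hCT y)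
  have h3 : Real.exp (10 ^ 7 * A.KY) * Real.exp c / T ≤ Real.exp (-(1 / 2 * (e * L))) := by
    have hTe : T = Real.exp L := by rw [hLd, Real.exp_log hT0]
    have he1 := hL.he1
    have h4 : 10 ^ 7 * A.KY + c ≤ -(1 / 2 * (e * L)) + L := by nlinarith
    calc Real.exp (10 ^ 7 * A.KY) * Real.exp c / T
        = Real.exp (10 ^ 7 * A.KY + c) / Real.exp L := by rw [Real.exp_add, ← hTe]
      _ ≤ Real.exp (-(1 / 2 * (e * L)) + L) / Real.exp L := by gcongr
      _ = Real.exp (-(1 / 2 * (e * L))) := by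
        rw [Real.exp_add, mul_div_assoc, div_self (Real.exp_pos L).ne', mul_one]
  calc |1 / c0| * (Real.exp (-(A.be * y)) * (10 * (Real.exp (10 ^ 7 * A.KY) * (4 * Real.exp c)) / T))
      = C * (Real.exp (-(A.be * y)) * (Real.exp (10 ^ 7 * A.KY) * Real.exp c / T)) := by
        rw [hC]
        ring
    _ ≤ C * (Real.exp (-(A.be * y)) * Real.exp (-(1 / 2 * (e * L)))) := by
        gcongr

end Pool.Agent.Lib.G2
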