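import Mathlib
import Pool.Agent.Lib.MP_f9aece_nt_g2.StmtsZ
import Pool.Agent.Lib.MP_f9aece_nt_g2.C5
import Pool.Agent.Lib.MP_f9aece_nt_h97.TSM

/-!
The law of `log |zeta|` under the measure `|zeta| ^ 2`: M4, small heights are negligible.
-/

set_option autoImplicit false

namespace Pool.Agent.Lib.G2

open MeasureTheory Set Filter Topology Complex ProbabilityTheory
open scoped ComplexConjugate
open Pool.Agent.Lib.MP_f9aece_nt (VV)
open Pool.Agent.Lib.GT

namespace M4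

/-! ### the second moment of zeta, crudely -/

lemma continuous_ze : Continuous ze := by
  unfold ze
  exact Pool.Agent.Lib.MP_f9aece_nt.continuous_zeta

lemma ze_neg (t : ℝ) : ‖ze (-t)‖ = ‖ze t‖ := by
  unfold ze
  have h : (1 / 2 + I * ((-t : ℝ) : ℂ) : ℂ) = (starRingEnd ℂ) (1 / 2 + I * (t : ℂ)) := by
    simp [Complex.ext_iff]
  rw [h, riemannZeta_conj, RCLike.norm_conj]

open Pool.Agent.Lib.MP_f9aece_nt_h97 Pool.Agent.Lib.MP_f9aece_nt in
lemma second0 : ∃ C T0 : ℝ, 0 ≤ C ∧ 16 ≤ T0 ∧ ∀ T : ℝ, T0 ≤ T →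
    ∫ t in (0 : ℝ)..T, ‖ze t‖ ^ 2 ≤ C * (T * Real.log T) := by
  obtain ⟨C, T0, hC, hT0, h⟩ := tsm (ε := 1) one_pos le_rfl
  refine ⟨2 + C + C, max T0 16, by positivity, le_max_right _ _, fun T hT => ?_⟩
  have hTT0 : T0 ≤ T := (le_max_left _ _).trans hT
  have hT16 : 16 ≤ T := (le_max_right _ _).trans hT
  have hTpos : 0 < T := by linarith
  have h1 := h T hTT0 1 1 le_rfl (by
    intro n hn
    rw [MonoidAlgebra.one_def, MonoidAlgebra.coeff_single, Finsupp.single_apply] at hn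
    split_ifs at hn with h2
    · rw [← h2]; simp
    · exact absurd rfl hn)
  have hl1 : 1 ≤ Real.log T := by
    rw [Real.le_log_iff_exp_le hTpos]
    have := Real.exp_one_lt_d9
    linarith
  have e1 : nrm (1 : DP) = 1 := by
    unfold nrm
    rw [MonoidAlgebra.one_def, MonoidAlgebra.coeff_single, Finsupp.support_single _ one_ne_zero]
    simp
  have e2 : BK K2 (1 : DP) 1 = 1 := by
    have h : (1 : DP) = MonoidAlgebra.single 1 1 := MonoidAlgebra.one_def
    rw [h, BK, pair_single, pair_single]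
    simp [K2]
  have e3 : BK KL (1 : DP) 1 = 0 := by
    have h : (1 : DP) = MonoidAlgebra.single 1 1 := MonoidAlgebra.one_def
    rw [h, BK, pair_single, pair_single]
    simp [KL, Kl, Kg]
  rw [e1, e2, e3] at h1
  simp only [map_one, mul_one, abs_one, abs_zero, add_zero, one_pow] at h1
  unfold ze
  refine h1.trans ?_
  have h3 : 1 ≤ T ^ (1 / 16 : ℝ) := Real.one_le_rpow (by linarith) (by norm_num)
  have h4 : C / T ^ (1 / 16 : ℝ) ≤ C := div_le_self hC h3
  have h5 : (1 + 1) * Real.log T + C + C / T ^ (1 / 16 : ℝ) ≤ (2 + C + C) * Real.log T := by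
    nlinarith
  calc T * ((1 + 1) * Real.log T + C + C / T ^ (1 / 16 : ℝ)) ≤ T * ((2 + C + C) * Real.log T) := by
        gcongr
    _ = _ := by ring

lemma second : ∃ C T0 : ℝ, 0 ≤ C ∧ 16 ≤ T0 ∧ ∀ T : ℝ, T0 ≤ T →
    ∫ t in (-T)..T, ‖ze t‖ ^ 2 ≤ C * (T * Real.log T) := by
  obtain ⟨C, T0, hC, hT0, h⟩ := second0
  refine ⟨2 * C, T0, by positivity, hT0, fun T hT => ?_⟩
  have hc2 : Continuous fun t : ℝ => ‖ze t‖ ^ 2 := continuous_ze.norm.pow 2
  have e3 : ∫ t in (-T)..0, ‖ze t‖ ^ 2 = ∫ t in (0 : ℝ)..T, ‖ze t‖ ^ 2 := by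
    have := intervalIntegral.integral_comp_neg (a := 0) (b := T) (fun t : ℝ => ‖ze t‖ ^ 2)
    rw [neg_zero] at this
    rw [← this]
    refine intervalIntegral.integral_congr fun u _ => ?_
    rw [ze_neg]
  have e5 := intervalIntegral.integral_add_adjacent_intervals
    (hc2.intervalIntegrable (μ := volume) (-T) 0) (hc2.intervalIntegrable (μ := volume) 0 T)
  rw [← e5, e3]
  have := h T hT
  linarith

/-! ### sizes -/

section

variable {A : Par}

lemma KY_ge (hA : A.Ok) : 4 ≤ A.KY := by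
  have h1 : (4 : ℝ) ≤ A.v := by exact_mod_cast hA.hv
  have h2 := hA.hY
  have h3 : (1 : ℝ) ≤ A.i + 1 := by
    have : (0 : ℝ) ≤ A.i := Nat.cast_nonneg _
    linarith
  unfold Par.KY
  have h4 : (4 : ℝ) * 1 ≤ A.v * (A.i + 1) := mul_le_mul h1 h3 (by norm_num) (by linarith)
  nlinarith

lemma h_sq (p : ℕ) (hp : 1 ≤ p) : A.h p ^ 2 = (p : ℝ)⁻¹ := by
  have hp0 : (0 : ℝ) < p := by exact_mod_cast hp
  unfold Par.h
  rw [← Real.rpow_natCast, ← Real.rpow_mul hp0.le, ← Real.rpow_neg_one]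
  norm_num

lemma vt_nonneg : 0 ≤ A.vt := Finset.sum_nonneg fun _ _ => sq_nonneg _

lemma vt_le (hN : GroupNum) (hA : A.Ok) : A.vt ≤ 8 * A.KY := by
  obtain ⟨h1, h2, h3, -, h4, -⟩ := hN A hA
  have h5 : A.vt = ∑ g ∈ Finset.range A.J, ∑ p ∈ A.S g, A.h p ^ 2 := by
    unfold Par.vt Par.U
    exact Finset.sum_biUnion fun g _ g' _ hgg => h3 g g' hgg
  rw [h5]
  calc ∑ g ∈ Finset.range A.J, ∑ p ∈ A.S g, A.h p ^ 2
      ≤ ∑ g ∈ Finset.range A.J, VV (A.S g) := by
        refine Finset.sum_le_sum fun g _ => ?_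
        unfold VV
        refine Finset.sum_le_sum fun p hp => ?_
        rw [h_sq p (h1 g p hp).1.one_lt.le]
    _ ≤ ∑ g ∈ Finset.range A.J, 2 * (A.r g : ℝ) := Finset.sum_le_sum fun g _ => h2 g
    _ = 2 * ∑ g ∈ Finset.range A.J, (A.r g : ℝ) := by rw [Finset.mul_sum]
    _ ≤ _ := by linarith

lemma exp_le_Gs (hN : GroupNum) (hA : A.Ok) (y : ℝ) :
    Real.exp (-(A.be * y)) ≤ Real.exp (3 * A.KY) * A.Gs y := by
  have h1 := vt_le hN hA
  have h2 := hA.hs
  have hv := vt_nonneg (A := A)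
  have h3 : A.s2 ≤ 4 * A.KY := by
    unfold Par.s2
    linarith
  have hK := KY_ge hA
  have h4 : 4 * A.KY ≤ Real.exp (2 * A.KY) := by
    have := Real.quadratic_le_exp_of_nonneg (x := 2 * A.KY) (by linarith)
    nlinarith
  have h5 : Real.sqrt A.s2 ≤ A.s2 := by
    rw [Real.sqrt_le_left (by linarith)]
    nlinarith
  have h6 : 0 < Real.sqrt A.s2 := Real.sqrt_pos.mpr (by linarith)
  have hbe := hA.hbe
  have hbe1 : A.be ≤ 1 / 20 := hA.hbb.trans hA.hb
  have h7 : -(A.be * y) ≤ A.KY + (-(A.be * (y - A.sg * A.vt)) + A.be ^ 2 * A.s2 / 2) := by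
    have h8 : 0 ≤ A.be ^ 2 * A.s2 / 2 := by positivity
    have h9 : A.be * A.vt ≤ 1 / 20 * (8 * A.KY) := mul_le_mul hbe1 h1 hv (by norm_num)
    have h10 : -(A.be * A.vt) ≤ A.be * (A.sg * A.vt) := by
      have : 0 ≤ A.be * A.vt := by positivity
      rcases hA.hsg with h | h <;> rw [h] <;> nlinarith
    nlinarith
  unfold Par.Gs Par.G
  have h11 : Real.sqrt A.s2 ≤ Real.exp (2 * A.KY) := by linarith
  calc Real.exp (-(A.be * y))
      ≤ Real.exp (A.KY + (-(A.be * (y - A.sg * A.vt)) + A.be ^ 2 * A.s2 / 2)) :=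
        Real.exp_le_exp.mpr h7
    _ = Real.sqrt A.s2 * (Real.exp A.KY * (1 / Real.sqrt A.s2 *
          Real.exp (-(A.be * (y - A.sg * A.vt)) + A.be ^ 2 * A.s2 / 2))) := by
        rw [Real.exp_add]
        field_simp
    _ ≤ Real.exp (2 * A.KY) * (Real.exp A.KY * (1 / Real.sqrt A.s2 *
          Real.exp (-(A.be * (y - A.sg * A.vt)) + A.be ^ 2 * A.s2 / 2))) := by gcongr
    _ = _ := by
        have : Real.exp (3 * A.KY) = Real.exp (2 * A.KY) * Real.exp A.KY := by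
          rw [← Real.exp_add]
          congr 1
          ring
        rw [this]
        ring

lemma Gs_pos (hA : A.Ok) (y : ℝ) : 0 < A.Gs y := by
  have h2 := hA.hs
  have h6 : 0 < Real.sqrt A.s2 := Real.sqrt_pos.mpr (by linarith)
  unfold Par.Gs Par.G
  positivity

lemma tex_zero (K : ℕ) : tex K 0 = 1 := by
  unfold tex
  rw [Finset.sum_eq_single 0]
  · simp
  · intro k _ hk
    simp [hk]
  · intro h
    exact absurd (Finset.mem_range.mpr (Nat.succ_pos K)) h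

lemma mo_zero (s : Finset ℕ) (x : Om) : A.mo 0 s x = 1 := by
  unfold Par.mo
  refine Finset.prod_eq_one fun g _ => ?_
  rw [zero_mul, tex_zero]

/-- the weights are bounded -/
lemma W_le (hW : WForm) (hL : WLen) (hA : A.Ok) {s s' : Finset ℕ} (hss : s ⊆ s')
    (hs : s' ⊆ Finset.range A.J) (y : ℝ) (x : Om) :
    A.Wg s s' y x ≤ |1 / c0| * (Real.exp (-(A.be * y)) * Real.exp (10 ^ 7 * A.KY)) := by
  have h1 := C5.form0 hW hss hs (μ1 := 0) (μ2 := 0) y x 1
  rw [mo_zero, map_one, mul_one, mul_one, mul_one] at h1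
  have hb0 : 0 ≤ A.b := by linarith [hA.hbe, hA.hbb]
  have hb1 : ‖A.b / c0‖ ≤ |1 / c0| := by
    rw [div_eq_mul_one_div, norm_mul, Real.norm_of_nonneg hb0, Real.norm_eq_abs]
    have := abs_nonneg (1 / c0)
    nlinarith [hA.hb]
  have h2 : ∀ᵐ w ∂(me.prod me), ‖C5.Kw A y w * (C5.Gw A s s' 0 0 w x * 1)‖
      ≤ Real.exp (-(A.be * y)) * Real.exp (10 ^ 7 * A.KY) := by
    filter_upwards [C5.ae_me] with w hw
    rw [mul_one, norm_mul]
    exact mul_le_mul (C5.norm_Kw hw) ((C5.tp0 hL hA hss hs (by simp) (by simp) hw).norm_le x)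
      (norm_nonneg _) (Real.exp_pos _).le
  have h3 := norm_integral_le_of_norm_le_const h2
  rw [probReal_univ, mul_one] at h3
  have h4 : A.Wg s s' y x ≤ ‖(A.Wg s s' y x : ℂ)‖ := by
    rw [Complex.norm_real]
    exact le_abs_self _
  refine h4.trans ?_
  rw [h1, norm_mul, Complex.norm_real]
  exact mul_le_mul hb1 h3 (norm_nonneg _) (abs_nonneg _)

/-! ### the numerical estimate -/

/-- the height -/
lemma rpow_eq {T : ℝ} (hT : 0 < T) (e : ℝ) : T ^ e = Real.exp (e * Real.log T) := by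
  rw [Real.rpow_def_of_pos hT, mul_comm]

lemma log_ge_one {T : ℝ} (hT : 3 ≤ T) : 1 ≤ Real.log T := by
  rw [Real.le_log_iff_exp_le (by linarith)]
  have := Real.exp_one_lt_d9
  linarith

lemma numeric (hN : GroupNum) (hA : A.Ok) {T e : ℝ} (hL : Len A T e) {s : Finset ℕ}
    (hs : s ⊆ Finset.range A.J) (y : ℝ) {K0 : ℝ} (hK1 : |1 / c0| * K0 ≤ Real.log T) :
    |1 / c0| * (Real.exp (-(A.be * y)) * Real.exp (10 ^ 7 * A.KY))
      * (K0 * (T ^ (1 - e / 4 : ℝ) * Real.log T) / T)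
      ≤ Real.exp (-∑ g ∈ s, (A.r g : ℝ)) * A.Gs y / Real.log T ^ 10 := by
  have hT := hL.hT
  have hT0 : 0 < T := by linarith
  have hl1 := log_ge_one hT
  set l : ℝ := Real.log T with hl
  have hG := Gs_pos hA y
  have hK := KY_ge hA
  have hp := hL.hp
  have hKe := hL.hK
  rw [← hl] at hp hKe
  have h1 := exp_le_Gs hN hA y
  have h2 : ∑ g ∈ s, (A.r g : ℝ) ≤ 4 * A.KY :=
    (Finset.sum_le_sum_of_subset_of_nonneg hs fun _ _ _ => Nat.cast_nonneg _).trans
      (hN A hA).2.2.2.2.1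
  have h3 : T ^ (1 - e / 4 : ℝ) / T = Real.exp (-(e * l / 4)) := by
    have : T = Real.exp l := (Real.exp_log hT0).symm
    rw [rpow_eq hT0, ← hl]
    nth_rewrite 1 [this]
    rw [← Real.exp_sub]
    congr 1
    ring
  have h4 : l ^ 12 ≤ Real.exp (e * l / 5) := by
    have h5 : (l ^ 12) ^ 5 ≤ (Real.exp (e * l / 5)) ^ 5 := by
      rw [← pow_mul, ← Real.exp_nat_mul]
      have e1 : ((5 : ℕ) : ℝ) * (e * l / 5) = e * l := by
        push_cast
        ring
      rw [e1]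
      exact (pow_le_pow_right₀ hl1 (by norm_num)).trans hp
    exact le_of_pow_le_pow_left₀ (by norm_num) (Real.exp_pos _).le h5
  have hl10 : 0 < l ^ 10 := by positivity
  rw [le_div_iff₀ hl10]
  have e2 : K0 * (T ^ (1 - e / 4 : ℝ) * l) / T = K0 * (Real.exp (-(e * l / 4)) * l) := by
    rw [← h3]
    ring
  rw [e2]
  calc |1 / c0| * (Real.exp (-(A.be * y)) * Real.exp (10 ^ 7 * A.KY))
        * (K0 * (Real.exp (-(e * l / 4)) * l)) * l ^ 10
      = (|1 / c0| * K0) * Real.exp (-(A.be * y)) * (Real.exp (10 ^ 7 * A.KY)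
        * (Real.exp (-(e * l / 4)) * l ^ 11)) := by ring
    _ ≤ l * (Real.exp (3 * A.KY) * A.Gs y) * (Real.exp (10 ^ 7 * A.KY)
        * (Real.exp (-(e * l / 4)) * l ^ 11)) := by gcongr
    _ = A.Gs y * (Real.exp (3 * A.KY) * Real.exp (10 ^ 7 * A.KY) * Real.exp (-(e * l / 4)) * l ^ 12) := by
        ring
    _ ≤ A.Gs y * (Real.exp (3 * A.KY) * Real.exp (10 ^ 7 * A.KY) * Real.exp (-(e * l / 4))
          * Real.exp (e * l / 5)) := by gcongr
    _ = A.Gs y * Real.exp (3 * A.KY + 10 ^ 7 * A.KY + -(e * l / 4) + e * l / 5) := by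
        rw [Real.exp_add, Real.exp_add, Real.exp_add]
    _ ≤ A.Gs y * Real.exp (-∑ g ∈ s, (A.r g : ℝ)) := by
        refine mul_le_mul_of_nonneg_left (Real.exp_le_exp.mpr ?_) hG.le
        linarith
    _ = _ := by ring

/-! ### the estimate for a continuous function -/

lemma core (hW : WForm) (hL0 : WLen) (hN : GroupNum) (hA : A.Ok) {T e : ℝ} (hL : Len A T e)
    {x : ℝ} (hx : |x| ≤ T ^ (9 / 10 : ℝ)) {s s' : Finset ℕ} (hss : s ⊆ s')
    (hs : s' ⊆ Finset.range A.J) (y : ℝ) {K0 : ℝ} (hK1 : |1 / c0| * K0 ≤ Real.log T) {f : ℝ → ℝ} (hf : Continuous f)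
    (hf0 : ∀ t, 0 ≤ f t)
    (hint : ∫ t in (-(T ^ (1 - e / 4 : ℝ)))..(T ^ (1 - e / 4 : ℝ)), f t
      ≤ K0 * (T ^ (1 - e / 4 : ℝ) * Real.log T)) :
    ∫⁻ t in (Rg x T e)ᶜ, ENNReal.ofReal (A.Wg s s' y (om t) * f t) ∂(un x T)
      ≤ ENNReal.ofReal (Real.exp (-∑ g ∈ s', (A.r g : ℝ)) * A.Gs y / Real.log T ^ 10) := by
  have hT := hL.hT
  have hT0 : 0 < T := by linarith
  set H : ℝ := T ^ (1 - e / 4 : ℝ) with hH
  have hH0 : 0 < H := Real.rpow_pos_of_pos hT0 _
  have hxH : |x| ≤ H := by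
    refine hx.trans (Real.rpow_le_rpow_of_exponent_le (by linarith) ?_)
    have := hL.he1
    linarith
  set M : ℝ := |1 / c0| * (Real.exp (-(A.be * y)) * Real.exp (10 ^ 7 * A.KY)) with hM
  have hM0 : 0 ≤ M := by positivity
  have hsub : (Rg x T e)ᶜ ∩ Icc x (x + T) ⊆ Icc (-H) H := by
    rintro t ⟨h1, h2⟩
    have h3 : ¬ (H ≤ t ∧ t ≤ x + T) := h1
    have h4 : t < H := by
      by_contra h
      exact h3 ⟨not_lt.mp h, h2.2⟩
    exact ⟨by linarith [(abs_le.mp hxH).1, h2.1], h4.le⟩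
  have hmeas : MeasurableSet ((Rg x T e)ᶜ) := measurableSet_Icc.compl
  have hi : IntegrableOn (fun t => M * f t) (Icc (-H) H) :=
    ((continuous_const.mul hf).continuousOn).integrableOn_compact isCompact_Icc
  have h1 : ∫⁻ t in (Rg x T e)ᶜ, ENNReal.ofReal (A.Wg s s' y (om t) * f t) ∂(un x T)
      ≤ (ENNReal.ofReal T)⁻¹ * ENNReal.ofReal (M * ∫ t in (-H)..H, f t) := by
    unfold un
    rw [Measure.restrict_smul, lintegral_smul_measure, Measure.restrict_restrict hmeas, smul_eq_mul]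
    refine mul_le_mul' le_rfl ?_
    calc ∫⁻ t in (Rg x T e)ᶜ ∩ Icc x (x + T), ENNReal.ofReal (A.Wg s s' y (om t) * f t)
        ≤ ∫⁻ t in (Rg x T e)ᶜ ∩ Icc x (x + T), ENNReal.ofReal (M * f t) := by
          refine lintegral_mono fun t => ENNReal.ofReal_le_ofReal ?_
          exact mul_le_mul_of_nonneg_right (W_le hW hL0 hA hss hs y (om t)) (hf0 t)
      _ ≤ ∫⁻ t in Icc (-H) H, ENNReal.ofReal (M * f t) := lintegral_mono_set hsub
      _ = ENNReal.ofReal (∫ t in Icc (-H) H, M * f t) :=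
          (ofReal_integral_eq_lintegral_ofReal hi
            (Eventually.of_forall fun t => mul_nonneg hM0 (hf0 t))).symm
      _ = _ := by
          rw [integral_const_mul, intervalIntegral.integral_of_le (by linarith),
            integral_Icc_eq_integral_Ioc]
  refine h1.trans ?_
  rw [← ENNReal.ofReal_inv_of_pos hT0, ← ENNReal.ofReal_mul (by positivity)]
  refine ENNReal.ofReal_le_ofReal ?_
  refine le_trans ?_ (numeric hN hA hL hs y hK1)
  calc T⁻¹ * (M * ∫ t in (-H)..H, f t) ≤ T⁻¹ * (M * (K0 * (H * Real.log T))) := by gcongr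
    _ = _ := by
      rw [← hM, ← hH]
      ring

/-! ### the smooth sums -/

/-- square of a sum of characters as a trigonometric polynomial of the same length -/
lemma tp_sq {S : Finset ℕ} {c : ℕ → ℂ} {N : ℝ} (hS : ∀ n ∈ S, 1 ≤ n ∧ (n : ℝ) ≤ N) :
    TP N ((∑ n ∈ S, ‖c n‖) * ∑ n ∈ S, ‖c n‖)
      fun x => ((‖∑ n ∈ S, c n * ch x n‖ ^ 2 : ℝ) : ℂ) := by
  have h1 : TP N (∑ m ∈ S, ∑ n ∈ S, ‖c m * conj (c n)‖)
      fun x => ∑ m ∈ S, ∑ n ∈ S, (c m * conj (c n)) * (ch x m * conj (ch x n)) :=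
    TP.sum fun m hm => TP.sum fun n hn =>
      TP.char (hS m hm).1 (hS n hn).1 (hS m hm).2 (hS n hn).2 _
  refine (h1.mono le_rfl (le_of_eq ?_)).congr fun x => ?_
  · rw [Finset.sum_mul_sum]
    refine Finset.sum_congr rfl fun m _ => Finset.sum_congr rfl fun n _ => ?_
    rw [norm_mul, Complex.norm_conj]
  · rw [← Complex.normSq_eq_norm_sq, ← Complex.mul_conj, map_sum, Finset.sum_mul_sum]
    refine Finset.sum_congr rfl fun m _ => Finset.sum_congr rfl fun n _ => ?_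
    rw [map_mul]
    ring

/-- the mean of the square of a sum of characters -/
lemma mean_sq {S : Finset ℕ} {c : ℕ → ℂ} (hS : ∀ n ∈ S, 1 ≤ n) :
    ∫ x, ((‖∑ n ∈ S, c n * ch x n‖ ^ 2 : ℝ) : ℂ) ∂mu = ((∑ n ∈ S, ‖c n‖ ^ 2 : ℝ) : ℂ) := by
  have h1 : ∀ x : Om, ((‖∑ n ∈ S, c n * ch x n‖ ^ 2 : ℝ) : ℂ)
      = ∑ m ∈ S, ∑ n ∈ S, (c m * conj (c n)) * (ch x m * conj (ch x n)) := by
    intro x
    rw [← Complex.normSq_eq_norm_sq, ← Complex.mul_conj, map_sum, Finset.sum_mul_sum]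
    refine Finset.sum_congr rfl fun m _ => Finset.sum_congr rfl fun n _ => ?_
    rw [map_mul]
    ring
  have h2 : ∀ m n : ℕ, Integrable (fun x : Om => (c m * conj (c n)) * (ch x m * conj (ch x n))) mu := by
    intro m n
    refine Integrable.of_bound (C := ‖c m * conj (c n)‖) ?_ (Eventually.of_forall fun x => ?_)
    · exact (continuous_const.mul ((continuous_ch m).mul
        (Complex.continuous_conj.comp (continuous_ch n)))).aestronglyMeasurable
    · rw [norm_mul (c m * conj (c n)), norm_mul (ch x m), Complex.norm_conj (ch x n), norm_ch,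
        norm_ch, mul_one, mul_one]
  simp_rw [h1]
  rw [integral_finsetSum _ fun m _ => integrable_finsetSum _ fun n _ => h2 m n]
  push_cast
  refine Finset.sum_congr rfl fun m hm => ?_
  rw [integral_finsetSum _ fun n _ => h2 m n]
  have hm0 : m ≠ 0 := by
    have := hS m hm
    omega
  have h3 : ∀ n ∈ S, ∫ x, (c m * conj (c n)) * (ch x m * conj (ch x n)) ∂mu
      = if m = n then ((‖c m‖ : ℂ)) ^ 2 else 0 := by
    intro n hn
    have hn0 : n ≠ 0 := by
      have := hS n hn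
      omega
    rw [integral_const_mul, integral_ch hm0 hn0]
    split_ifs with h
    · rw [← h, mul_one, Complex.mul_conj, Complex.normSq_eq_norm_sq]
      push_cast
      rfl
    · rw [mul_zero]
  rw [Finset.sum_congr rfl h3, Finset.sum_ite_eq, if_pos hm]

end

/-- the coefficients -/
noncomputable def cf (w a : ℝ) (n : ℕ) : ℂ :=
  (Real.smoothTransition ((a - Real.log n) / w) : ℂ) * (n : ℂ) ^ (-(1 / 2) : ℂ)

lemma sm_eq (w a : ℝ) (x : Om) : Sm w a x = ∑ n ∈ Finset.Icc 1 ⌊Real.exp a⌋₊, cf w a n * ch x n := by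
  unfold Sm cf
  exact Finset.sum_congr rfl fun n _ => by rw [mul_assoc]

lemma cf_sq_le (w a : ℝ) {n : ℕ} (hn : 1 ≤ n) : ‖cf w a n‖ ^ 2 ≤ (n : ℝ)⁻¹ := by
  have hn0 : (0 : ℝ) < n := by exact_mod_cast hn
  unfold cf
  rw [norm_mul, Complex.norm_real, Real.norm_of_nonneg (Real.smoothTransition.nonneg _)]
  have e : (-(1 / 2) : ℂ).re = -(1 / 2) := by simp
  rw [Complex.norm_natCast_cpow_of_pos (by omega), e, mul_pow]
  have h2 : ((n : ℝ) ^ (-(1 / 2) : ℝ)) ^ 2 = (n : ℝ)⁻¹ := by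
    rw [← Real.rpow_natCast, ← Real.rpow_mul hn0.le, ← Real.rpow_neg_one]
    norm_num
  rw [h2]
  have h3 := Real.smoothTransition.le_one ((a - Real.log n) / w)
  have h4 := Real.smoothTransition.nonneg ((a - Real.log n) / w)
  have h5 : Real.smoothTransition ((a - Real.log n) / w) ^ 2 ≤ 1 := pow_le_one₀ h4 h3
  have : 0 ≤ (n : ℝ)⁻¹ := by positivity
  nlinarith

lemma sum_inv_le {a l : ℝ} (hl : 0 ≤ l) (hal : a ≤ l) :
    ∑ n ∈ Finset.Icc 1 ⌊Real.exp a⌋₊, (n : ℝ)⁻¹ ≤ 1 + l := by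
  have h1 := harmonic_le_one_add_log ⌊Real.exp a⌋₊
  rw [harmonic_eq_sum_Icc] at h1
  push_cast at h1
  refine h1.trans ?_
  have : Real.log (⌊Real.exp a⌋₊ : ℝ) ≤ l := by
    rcases Nat.eq_zero_or_pos ⌊Real.exp a⌋₊ with h | h
    · rw [h, Nat.cast_zero, Real.log_zero]
      exact hl
    · have h2 : (0 : ℝ) < (⌊Real.exp a⌋₊ : ℝ) := by exact_mod_cast h
      have h3 : (⌊Real.exp a⌋₊ : ℝ) ≤ Real.exp a := Nat.floor_le (Real.exp_pos a).le
      calc Real.log (⌊Real.exp a⌋₊ : ℝ) ≤ Real.log (Real.exp a) := Real.log_le_log h2 h3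
        _ = a := Real.log_exp a
        _ ≤ l := hal
  linarith

lemma continuous_Sm (w a : ℝ) : Continuous (Sm w a) := by
  unfold Sm
  exact continuous_finsetSum _ fun n _ => continuous_const.mul
    (continuous_const.mul (continuous_ch n))

/-- the second moment of the smooth sums over a long window -/
lemma sm_second {w a l H : ℝ} (hl : 1 ≤ l) (hal : a ≤ l) (hH : 0 < H) (haH : Real.exp (2 * a) ≤ H) :
    ∫ t in (-H)..H, ‖Sm w a (om t)‖ ^ 2 ≤ 8 * (H * l) := by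
  set S : Finset ℕ := Finset.Icc 1 ⌊Real.exp a⌋₊ with hS
  have hS1 : ∀ n ∈ S, 1 ≤ n ∧ (n : ℝ) ≤ Real.exp a := fun n hn =>
    ⟨(Finset.mem_Icc.mp hn).1, (Nat.cast_le.mpr (Finset.mem_Icc.mp hn).2).trans
      (Nat.floor_le (Real.exp_pos a).le)⟩
  have hsq : ∑ n ∈ S, ‖cf w a n‖ ^ 2 ≤ 2 * l := by
    calc ∑ n ∈ S, ‖cf w a n‖ ^ 2 ≤ ∑ n ∈ S, (n : ℝ)⁻¹ :=
          Finset.sum_le_sum fun n hn => cf_sq_le w a (hS1 n hn).1
      _ ≤ 1 + l := sum_inv_le (by linarith) hal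
      _ ≤ _ := by linarith
  have hc : (∑ n ∈ S, ‖cf w a n‖) * ∑ n ∈ S, ‖cf w a n‖ ≤ Real.exp a * (2 * l) := by
    have h1 := sq_sum_le_card_mul_sum_sq (s := S) (f := fun n => ‖cf w a n‖)
    have h2 : (S.card : ℝ) ≤ Real.exp a := by
      rw [hS, Nat.card_Icc, Nat.add_sub_cancel]
      exact Nat.floor_le (Real.exp_pos a).le
    rw [← sq]
    refine h1.trans (mul_le_mul h2 hsq (Finset.sum_nonneg fun _ _ => by positivity)
      (Real.exp_pos a).le)
  have h3 := transfer_un (Real.exp_pos a) ((tp_sq (c := cf w a) hS1).mono le_rfl hc) (-H)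
    (T := 2 * H) (by positivity)
  rw [mean_sq fun n hn => (hS1 n hn).1, integral_complex_ofReal, ← Complex.ofReal_sub,
    Complex.norm_real, Real.norm_eq_abs, integral_un _ (by positivity : (0 : ℝ) < 2 * H)] at h3
  have e1 : (-H + 2 * H : ℝ) = H := by ring
  rw [e1, smul_eq_mul] at h3
  have h4 := (abs_le.mp h3).2
  have h5 : Real.exp a * (2 * l) * (2 * Real.exp a / (2 * H)) ≤ 2 * l := by
    have e2 : Real.exp a * (2 * l) * (2 * Real.exp a / (2 * H)) = 2 * l * (Real.exp (2 * a) / H) := by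
      rw [two_mul a, Real.exp_add]
      field_simp
    rw [e2]
    have : Real.exp (2 * a) / H ≤ 1 := (div_le_one hH).mpr haH
    nlinarith
  have h6 : 1 / (2 * H) * ∫ t in (-H)..H, ‖∑ n ∈ S, cf w a n * ch (om t) n‖ ^ 2 ≤ 4 * l := by
    linarith
  have e3 : ∀ t : ℝ, ‖Sm w a (om t)‖ ^ 2 = ‖∑ n ∈ S, cf w a n * ch (om t) n‖ ^ 2 := by
    intro t
    rw [sm_eq]
  simp_rw [e3]
  rw [one_div, inv_mul_le_iff₀ (by positivity)] at h6
  linarith

end M4

/-- M4: small heights are negligible -/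
theorem smallT (hW : WForm) (hL0 : WLen) (hN : GroupNum) : SmallT := by
  obtain ⟨C, T1, hC, hT1, hsec⟩ := M4.second
  set K0 : ℝ := max C 8 with hK0
  refine ⟨max (max 3 (T1 ^ 2)) (Real.exp (|1 / c0| * K0)), (le_max_left _ _).trans (le_max_left _ _),
    ?_⟩
  intro A hA T e hT hL x y hx s s' hss hs
  have hT3 := hL.hT
  have hT0 : 0 < T := by linarith
  have hl1 := M4.log_ge_one hT3
  have he := hL.he
  have he1 := hL.he1
  have hTT1 : T1 ^ 2 ≤ T := (le_max_right _ _).trans ((le_max_left _ _).trans hT)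
  have hK0n : 0 ≤ K0 := le_trans (by norm_num) (le_max_right _ _)
  have hK1 : |1 / c0| * K0 ≤ Real.log T :=
    (Real.le_log_iff_exp_le hT0).mpr ((le_max_right _ _).trans hT)
  have hH0 : 0 < T ^ (1 - e / 4 : ℝ) := Real.rpow_pos_of_pos hT0 _
  have hHT : T ^ (1 - e / 4 : ℝ) ≤ T := by
    calc T ^ (1 - e / 4 : ℝ) ≤ T ^ (1 : ℝ) :=
          Real.rpow_le_rpow_of_exponent_le (by linarith) (by linarith)
      _ = T := Real.rpow_one T
  have hH1 : T1 ≤ T ^ (1 - e / 4 : ℝ) := by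
    have h1 : T1 ≤ T ^ (1 / 2 : ℝ) := by
      rw [← Real.sqrt_eq_rpow]
      exact Real.le_sqrt_of_sq_le hTT1
    exact h1.trans (Real.rpow_le_rpow_of_exponent_le (by linarith) (by linarith))
  refine ⟨?_, ?_⟩
  · refine M4.core hW hL0 hN hA hL hx hss hs y hK1 (f := fun t => ‖ze t‖ ^ 2)
      (M4.continuous_ze.norm.pow 2) (fun t => by positivity) ?_
    refine (hsec _ hH1).trans ?_
    have h2 : Real.log (T ^ (1 - e / 4 : ℝ)) ≤ Real.log T := Real.log_le_log hH0 hHT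
    have h3 : 0 ≤ Real.log (T ^ (1 - e / 4 : ℝ)) := by
      rw [Real.log_rpow hT0]
      have : 0 ≤ 1 - e / 4 := by linarith
      positivity
    have h4 : C ≤ K0 := le_max_left _ _
    gcongr
  · intro c hc
    have h := M4.core hW hL0 hN hA hL hx subset_rfl (Finset.empty_subset _) y hK1
      (f := fun t => ‖Sm (wd T e) c (om t)‖ ^ 2)
      (((M4.continuous_Sm _ _).comp continuous_om).norm.pow 2) (fun t => by positivity) (by
        have h8 : (8 : ℝ) ≤ K0 := le_max_right _ _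
        refine (M4.sm_second (l := Real.log T) hl1 ?_ hH0 ?_).trans ?_
        · unfold cd wd at hc
          nlinarith
        · rw [M4.rpow_eq hT0]
          refine Real.exp_le_exp.mpr ?_
          unfold cd wd at hc
          nlinarith
        · have : 0 ≤ T ^ (1 - e / 4 : ℝ) * Real.log T := by positivity
          gcongr)
    refine h.trans (ENNReal.ofReal_le_ofReal ?_)
    simp

end Pool.Agent.Lib.G2
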