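import Mathlib
import Pool.Agent.Lib.MP_f9aece_nt_g2.Stmts

/-!
The law of `log |zeta|` under the measure `|zeta| ^ 2`: row N1 (`groupNum`), numerical facts about the
groups of primes.
-/

set_option autoImplicit false

namespace Pool.Agent.Lib.G2

open MeasureTheory Set Filter Topology Complex ProbabilityTheory
open scoped ComplexConjugate
open Pool.Agent.Lib.MP_f9aece_nt (VV)
open Pool.Agent.Lib.J4 (V2)
open Pool.Agent.Lib.GT

namespace N1

lemma geom_le {q : ℝ} (hq0 : 0 ≤ q) (hq : q ≤ 1 / 2) (J : ℕ) :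
    ∑ g ∈ Finset.range J, q ^ g ≤ 2 - 2 * q ^ J := by
  induction J with
  | zero => simp
  | succ J ih =>
    rw [Finset.sum_range_succ, pow_succ]
    have : 0 ≤ q ^ J := pow_nonneg hq0 J
    nlinarith

lemma exp_neg_four : Real.exp (-4) ≤ 1 / 4 := by
  have h := Real.add_one_le_exp (4 : ℝ)
  rw [Real.exp_neg]
  rw [inv_le_comm₀ (Real.exp_pos _) (by norm_num)]
  linarith

lemma r_cast (A : Par) (g : ℕ) : ((A.r g : ℕ) : ℝ) = (A.v : ℝ) * ((g : ℝ) + 1 + A.i) := by
  unfold Par.r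
  push_cast
  ring

lemma sum_r (A : Par) (J : ℕ) : ∑ g ∈ Finset.range J, ((A.r g : ℕ) : ℝ)
    = (A.v : ℝ) * (J * (A.i + 1) + J * (J - 1) / 2) := by
  induction J with
  | zero => simp
  | succ J ih =>
    rw [Finset.sum_range_succ, ih, r_cast]
    push_cast
    ring

lemma Yf_pos {A : Par} (hA : A.Ok) (g : ℕ) : 0 < A.Yf g := by
  unfold Par.Yf
  have := hA.hY
  positivity

lemma Yf_anti {A : Par} (hA : A.Ok) {g h : ℕ} (hgh : g ≤ h) : A.Yf h ≤ A.Yf g := by
  unfold Par.Yf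
  have h1 := hA.hY
  have h2 : ((A.v : ℝ) * g) ≤ (A.v : ℝ) * h := by
    refine mul_le_mul_of_nonneg_left ?_ (Nat.cast_nonneg _)
    exact_mod_cast hgh
  refine mul_le_mul_of_nonneg_left ?_ (by linarith)
  exact Real.exp_le_exp.2 (by linarith)

lemma Yf_le {A : Par} (hA : A.Ok) (g : ℕ) : A.Yf g ≤ A.Y := by
  have := Yf_anti hA (Nat.zero_le g)
  have h0 : A.Yf 0 = A.Y := by
    unfold Par.Yf
    simp
  rwa [h0] at this

lemma mem_S {A : Par} {g p : ℕ} : p ∈ A.S g ↔ p.Prime ∧ A.p0 < p ∧ Real.exp (A.Yf (g + 1)) < p ∧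
    (p : ℝ) ≤ Real.exp (A.Yf g) := by
  unfold Par.S
  rw [Finset.mem_filter, Finset.mem_Icc, Nat.le_floor_iff (Real.exp_pos _).le]
  constructor
  · rintro ⟨⟨_, h2⟩, h3, h4, h5⟩
    exact ⟨h3, h4, h5, h2⟩
  · rintro ⟨h3, h4, h5, h2⟩
    exact ⟨⟨h3.pos, h2⟩, h3, h4, h5⟩

lemma VV_S_le {A : Par} (hA : A.Ok) (g : ℕ) : VV (A.S g) ≤ A.v + 4 := by
  rcases (A.S g).eq_empty_or_nonempty with h0 | ⟨q, hq⟩
  · rw [h0]
    simp only [VV, Finset.sum_empty]
    positivity
  have hl2 : (1 : ℝ) / 2 < Real.log 2 := by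
    have := Real.log_two_gt_d9
    linarith
  have hl2' : Real.log 2 < 3 / 4 := by
    have := Real.log_two_lt_d9
    linarith
  have hl4 : Real.log 4 = 2 * Real.log 2 := by
    rw [show (4 : ℝ) = 2 ^ 2 by norm_num, Real.log_pow]; norm_num
  have hlog : ∀ p ∈ A.S g, 1 / 2 < Real.log p := by
    intro p hp
    refine hl2.trans_le (Real.log_le_log (by norm_num) ?_)
    exact_mod_cast (mem_S.1 hp).1.two_le
  have hup : ∀ p ∈ A.S g, Real.log p ≤ A.Yf g := by
    intro p hp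
    rw [Real.log_le_iff_le_exp (by exact_mod_cast (mem_S.1 hp).1.pos)]
    exact (mem_S.1 hp).2.2.2
  have hlo : ∀ p ∈ A.S g, A.Yf (g + 1) < Real.log p := by
    intro p hp
    rw [Real.lt_log_iff_exp_lt (by exact_mod_cast (mem_S.1 hp).1.pos)]
    exact (mem_S.1 hp).2.2.1
  set y := max (A.Yf (g + 1)) (1 / 2) with hy
  have hy0 : 0 < y := lt_of_lt_of_le (by norm_num) (le_max_right _ _)
  have hyp : ∀ p ∈ A.S g, y < Real.log p := fun p hp => max_lt (hlo p hp) (hlog p hp)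
  have h1 := MP_f9aece_nt_h6.VV_le_log hy0 ((hyp q hq).le.trans (hup q hq)) (A.S g)
      (fun p hp => ⟨(mem_S.1 hp).1, hyp p hp, hup p hp⟩)
  have h2 : Real.log (A.Yf g / A.Yf (g + 1)) = A.v := by
    have hY : (0 : ℝ) < A.Y := by linarith [hA.hY]
    have e1 : A.Yf g / A.Yf (g + 1) = Real.exp A.v := by
      unfold Par.Yf
      rw [mul_div_mul_left _ _ hY.ne', ← Real.exp_sub]
      congr 1
      push_cast
      ring
    rw [e1, Real.log_exp]
  have h3 : Real.log (A.Yf g / y) ≤ A.v := by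
    rw [← h2]
    apply Real.log_le_log (div_pos (Yf_pos hA g) hy0)
    exact div_le_div_of_nonneg_left (Yf_pos hA g).le (Yf_pos hA _) (le_max_left _ _)
  have h4 : Real.log 4 / y ≤ 3 := by
    rw [div_le_iff₀ hy0, hl4]
    have : 1 / 2 ≤ y := le_max_right _ _
    linarith
  linarith

lemma log_p0 {A : Par} (hA : A.Ok) : (6 : ℝ) < Real.log A.p0 := by
  have h1 : Real.log (2 ^ 9 : ℝ) ≤ Real.log A.p0 := by
    refine Real.log_le_log (by norm_num) ?_
    have : (1000 : ℝ) ≤ A.p0 := by exact_mod_cast hA.hp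
    linarith
  rw [Real.log_pow] at h1
  have h2 := Real.log_two_gt_d9
  push_cast at h1
  linarith

lemma mem_U {A : Par} (hA : A.Ok) (p : ℕ) :
    p ∈ A.U ↔ p.Prime ∧ A.p0 < p ∧ (p : ℝ) ≤ Real.exp A.Y := by
  unfold Par.U
  rw [Finset.mem_biUnion]
  constructor
  · rintro ⟨g, _, hg⟩
    obtain ⟨h1, h2, _, h4⟩ := mem_S.1 hg
    exact ⟨h1, h2, h4.trans (Real.exp_le_exp.2 (Yf_le hA g))⟩
  · rintro ⟨h1, h2, h3⟩
    -- the least `g` with `exp (Yf (g + 1)) < p`
    have hp0 : (0 : ℝ) < A.p0 := by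
      have : (1000 : ℝ) ≤ A.p0 := by exact_mod_cast hA.hp
      linarith
    have hlt : (A.p0 : ℝ) < p := by exact_mod_cast h2
    have hJp : Real.exp (A.Yf A.J) < p := by
      have : Real.exp (A.Yf A.J) ≤ A.p0 := by
        have := Real.exp_le_exp.2 hA.hJ.1
        rwa [Real.exp_log hp0] at this
      linarith
    have hJ0 : A.J ≠ 0 := by
      intro h0
      rw [h0] at hJp
      have h00 : A.Yf 0 = A.Y := by
        unfold Par.Yf
        simp
      rw [h00] at hJp
      linarith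
    obtain ⟨j, hj⟩ : ∃ j, A.J = j + 1 := ⟨A.J - 1, by omega⟩
    have hex : ∃ g, Real.exp (A.Yf (g + 1)) < p := ⟨j, by rw [← hj]; exact hJp⟩
    classical
    refine ⟨Nat.find hex, ?_, ?_⟩
    · rw [Finset.mem_range]
      have : Nat.find hex ≤ j := Nat.find_min' hex (by rw [← hj]; exact hJp)
      omega
    · rw [mem_S]
      refine ⟨h1, h2, Nat.find_spec hex, ?_⟩
      rcases Nat.eq_zero_or_pos (Nat.find hex) with h0 | h0
      · rw [h0]
        have h00 : A.Yf 0 = A.Y := by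
          unfold Par.Yf
          simp
        rw [h00]
        exact h3
      · have h5 := Nat.find_min hex (show Nat.find hex - 1 < Nat.find hex by omega)
        rw [show Nat.find hex - 1 + 1 = Nat.find hex by omega] at h5
        exact not_lt.1 h5

end N1

open N1 in
/-- N1 -/
theorem groupNum : GroupNum := by
  intro A hA
  have hY0 : 0 < A.Y := by linarith [hA.hY]
  have hv4 : (4 : ℝ) ≤ A.v := by exact_mod_cast hA.hv
  have hi0 : (0 : ℝ) ≤ A.i := Nat.cast_nonneg _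
  have hlp := log_p0 hA
  have h8 : ∀ g < A.J, 6 ≤ A.Yf g := fun g hg => (hlp.trans (hA.hJ.2 g hg)).le
  refine ⟨?_, ?_, ?_, mem_U hA, ?_, ?_, ?_, h8⟩
  · intro g p hp
    obtain ⟨h1, h2, _, h4⟩ := mem_S.1 hp
    exact ⟨h1, by have := hA.hp; omega, h2, h4⟩
  · intro g
    have h := VV_S_le hA g
    rw [r_cast]
    have : (0 : ℝ) ≤ g := Nat.cast_nonneg _
    nlinarith
  · intro g h hgh
    rw [Finset.disjoint_left]
    intro p hp hp'
    rcases lt_or_gt_of_ne hgh with h1 | h1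
    · have h2 := (mem_S.1 hp).2.2.1
      have h3 := (mem_S.1 hp').2.2.2
      have h4 := Real.exp_le_exp.2 (Yf_anti hA (show g + 1 ≤ h by omega))
      linarith
    · have h2 := (mem_S.1 hp').2.2.1
      have h3 := (mem_S.1 hp).2.2.2
      have h4 := Real.exp_le_exp.2 (Yf_anti hA (show h + 1 ≤ g by omega))
      linarith
  · rw [sum_r]
    unfold Par.KY
    rcases Nat.eq_zero_or_pos A.J with h0 | h0
    · rw [h0]
      push_cast
      have : (0 : ℝ) ≤ A.v * (A.i + 1) * A.Y := by positivity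
      nlinarith
    · obtain ⟨j, hj⟩ : ∃ j, A.J = j + 1 := ⟨A.J - 1, by omega⟩
      have h1 := h8 j (by omega)
      unfold Par.Yf at h1
      have h3 : 6 * Real.exp ((A.v : ℝ) * j) ≤ A.Y := by
        have e : Real.exp ((A.v : ℝ) * j) * Real.exp (-((A.v : ℝ) * j)) = 1 := by
          rw [← Real.exp_add]; simp
        have h4 : 0 < Real.exp ((A.v : ℝ) * j) := Real.exp_pos _
        have h5 : A.Y = Real.exp ((A.v : ℝ) * j) * (A.Y * Real.exp (-((A.v : ℝ) * j))) := by
          rw [mul_left_comm, e, mul_one]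
        rw [h5]
        nlinarith
      have hj0 : (0 : ℝ) ≤ j := Nat.cast_nonneg _
      have h4 : 1 + 4 * (j : ℝ) + 8 * (j : ℝ) ^ 2 ≤ Real.exp ((A.v : ℝ) * j) := by
        have h5 := Real.quadratic_le_exp_of_nonneg (show 0 ≤ 4 * (j : ℝ) by positivity)
        have h6 : Real.exp (4 * (j : ℝ)) ≤ Real.exp ((A.v : ℝ) * j) :=
          Real.exp_le_exp.2 (mul_le_mul_of_nonneg_right hv4 hj0)
        nlinarith
      have h7 : ((j : ℝ) + 1) * (j + 2) / 2 ≤ A.Y := by nlinarith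
      rw [hj]
      push_cast
      have h8' : ((j : ℝ) + 1) * (A.i + 1) + (j + 1) * (j + 1 - 1) / 2
          ≤ ((j : ℝ) + 1) * (j + 2) / 2 * (A.i + 1) := by
        have : 0 ≤ ((j : ℝ) + 1) * j / 2 * A.i := by positivity
        nlinarith
      have h9 : ((j : ℝ) + 1) * (j + 2) / 2 * (A.i + 1) ≤ A.Y * (A.i + 1) :=
        mul_le_mul_of_nonneg_right h7 (by positivity)
      have h10 : (A.v : ℝ) * (((j : ℝ) + 1) * (A.i + 1) + (j + 1) * (j + 1 - 1) / 2)
          ≤ A.v * (A.Y * (A.i + 1)) := mul_le_mul_of_nonneg_left (h8'.trans h9) (by positivity)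
      have : (0 : ℝ) ≤ A.v * (A.Y * (A.i + 1)) := by positivity
      nlinarith
  · have h1 : ∀ g : ℕ, Real.exp (-((A.r g : ℕ) : ℝ))
        = Real.exp (-(A.v * (A.i + 1) : ℝ)) * Real.exp (-A.v) ^ g := by
      intro g
      rw [r_cast, ← Real.exp_nat_mul, ← Real.exp_add]
      congr 1
      ring
    simp only [h1]
    rw [← Finset.mul_sum]
    have hq : Real.exp (-(A.v : ℝ)) ≤ 1 / 2 :=
      (Real.exp_le_exp.2 (by linarith)).trans (exp_neg_four.trans (by norm_num))
    have h2 := geom_le (Real.exp_pos (-(A.v : ℝ))).le hq A.J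
    have h3 : 0 ≤ Real.exp (-(A.v : ℝ)) ^ A.J := by positivity
    have h4 : 0 < Real.exp (-(A.v * (A.i + 1) : ℝ)) := Real.exp_pos _
    nlinarith
  · have h1 : ∀ g : ℕ, ((A.r g : ℕ) : ℝ) * A.Yf g ≤ A.KY * (1 / 2) ^ g := by
      intro g
      rw [r_cast]
      unfold Par.Yf Par.KY
      have hg0 : (0 : ℝ) ≤ g := Nat.cast_nonneg _
      have h2 : ((g : ℝ) + 1) * Real.exp (-((A.v : ℝ) * g)) ≤ (1 / 2) ^ g := by
        have h3 : Real.exp (-((A.v : ℝ) * g)) ≤ Real.exp (-4) ^ g := by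
          rw [← Real.exp_nat_mul]
          refine Real.exp_le_exp.2 ?_
          nlinarith
        have h4 : (g : ℝ) + 1 ≤ 2 ^ g := by
          have := one_add_mul_le_pow (show (-2 : ℝ) ≤ 1 by norm_num) g
          norm_num at this
          linarith
        calc ((g : ℝ) + 1) * Real.exp (-((A.v : ℝ) * g))
            ≤ 2 ^ g * Real.exp (-4) ^ g := mul_le_mul h4 h3 (Real.exp_pos _).le (by positivity)
          _ = (2 * Real.exp (-4)) ^ g := (mul_pow _ _ _).symm
          _ ≤ (1 / 2) ^ g := by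
            refine pow_le_pow_left₀ (by positivity) ?_ _
            linarith [exp_neg_four]
      have h5 : (g : ℝ) + 1 + A.i ≤ (g + 1) * (A.i + 1) := by nlinarith
      calc (A.v : ℝ) * ((g : ℝ) + 1 + A.i) * (A.Y * Real.exp (-((A.v : ℝ) * g)))
          ≤ (A.v : ℝ) * ((g + 1) * (A.i + 1)) * (A.Y * Real.exp (-((A.v : ℝ) * g))) := by
            refine mul_le_mul_of_nonneg_right ?_ (by positivity)
            exact mul_le_mul_of_nonneg_left h5 (by positivity)
        _ = A.v * (A.i + 1) * A.Y * (((g : ℝ) + 1) * Real.exp (-((A.v : ℝ) * g))) := by ring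
        _ ≤ _ := mul_le_mul_of_nonneg_left h2 (by positivity)
    refine (Finset.sum_le_sum fun g _ => h1 g).trans ?_
    rw [← Finset.mul_sum]
    have h2 := geom_le (q := 1 / 2) (by norm_num) le_rfl A.J
    have h3 : (0 : ℝ) ≤ (1 / 2) ^ A.J := by positivity
    have h4 : (0 : ℝ) ≤ A.KY := by unfold Par.KY; positivity
    nlinarith

end Pool.Agent.Lib.G2
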