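import Pool.Agent.Lib.MP_f9aece_nt_g2.Stmts
import Pool.Agent.Lib.MP_f9aece_nt_j4.GroupsH

/-!
Row N2 of block k2: Mertens bounds for the sums occurring in the exponents.
-/

set_option autoImplicit false

namespace Pool.Agent.Lib.G2

open MeasureTheory Set Filter Topology Complex
open Pool.Agent.Lib.MP_f9aece_nt (VV)

private lemma n2_part {u : ℝ} (hu : 0 ≤ u) (s : Finset ℕ)
    (hs : ∀ p ∈ s, p.Prime ∧ Real.log p ≤ u) :
    ∑ p ∈ s, Real.log p / p ≤ u + Real.log 4 := by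
  have hn : 1 ≤ ⌊Real.exp u⌋₊ := by
    apply Nat.le_floor
    simpa using Real.one_le_exp hu
  have hsub : s ⊆ (Finset.Ioc 0 ⌊Real.exp u⌋₊).filter Nat.Prime := by
    intro p hp
    obtain ⟨h1, h2⟩ := hs p hp
    have hp0 : (0 : ℝ) < p := by exact_mod_cast h1.pos
    rw [Finset.mem_filter, Finset.mem_Ioc]
    refine ⟨⟨h1.pos, ?_⟩, h1⟩
    apply Nat.le_floor
    rw [← Real.exp_log hp0]
    exact Real.exp_le_exp.mpr h2
  calc ∑ p ∈ s, Real.log p / p
      ≤ ∑ p ∈ (Finset.Ioc 0 ⌊Real.exp u⌋₊).filter Nat.Prime, Real.log p / p := by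
        apply Finset.sum_le_sum_of_subset_of_nonneg hsub
        intro p _ _
        exact div_nonneg (Real.log_natCast_nonneg p) (Nat.cast_nonneg p)
    _ ≤ Real.log (⌊Real.exp u⌋₊ : ℕ) + Real.log 4 := MP_f9aece_nt.sum_log_div_le hn
    _ ≤ u + Real.log 4 := by
        have h1 : (0 : ℝ) < (⌊Real.exp u⌋₊ : ℕ) := by exact_mod_cast hn
        have h2 : Real.log (⌊Real.exp u⌋₊ : ℕ) ≤ Real.log (Real.exp u) :=
          Real.log_le_log h1 (Nat.floor_le (Real.exp_pos u).le)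
        rw [Real.log_exp] at h2
        linarith

private lemma n2_log4 : Real.log 4 ≤ 2 := by
  have h1 : Real.log 4 = 2 * Real.log 2 := by
    rw [show (4 : ℝ) = 2 ^ 2 by norm_num, Real.log_pow]
    norm_num
  have := Real.log_two_lt_d9
  rw [h1]
  linarith

/-- the elementary sums: `a = |u|` or `lam` -/
private lemma n2_one {a Y : ℝ} (ha : 0 ≤ a) (hY : 1 ≤ Y) (s : Finset ℕ)
    (hs : ∀ p ∈ s, p.Prime ∧ Real.log p ≤ Y) :
    ∑ p ∈ s, min 1 (a * Real.log p) * (p : ℝ)⁻¹ ≤ Real.log (1 + a * Y) + 10 := by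
  have h4 := n2_log4
  have hY0 : 0 < Y := by linarith
  have hlog0 : ∀ p : ℕ, 0 ≤ Real.log (p : ℝ) := fun p => Real.log_natCast_nonneg p
  have hinv0 : ∀ p : ℕ, 0 ≤ ((p : ℝ))⁻¹ := fun p => by positivity
  have haY : 0 ≤ a * Y := by positivity
  have hl0 : 0 ≤ Real.log (1 + a * Y) := Real.log_nonneg (by linarith)
  -- split at `y`
  have split : ∀ y : ℝ, 1 ≤ y → a * y ≤ 1 ∨ y = 1 → (1 ≤ a * y ∨ Y ≤ y) →
      ∑ p ∈ s, min 1 (a * Real.log p) * (p : ℝ)⁻¹ ≤ Real.log (1 + a * Y) + 10 := by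
    intro y hy1 hy2 hy3
    rw [← Finset.sum_filter_add_sum_filter_not s (fun p : ℕ => Real.log (p : ℝ) ≤ y)]
    have hsmall : ∑ p ∈ s.filter (fun p : ℕ => Real.log (p : ℝ) ≤ y),
        min 1 (a * Real.log p) * (p : ℝ)⁻¹ ≤ 3 := by
      rcases hy2 with hy2 | hy2
      · have hp := n2_part (by linarith : (0 : ℝ) ≤ y) (s.filter (fun p : ℕ => Real.log (p : ℝ) ≤ y))
          (fun p hp => ⟨(hs p (Finset.mem_filter.mp hp).1).1, (Finset.mem_filter.mp hp).2⟩)
        have ha1 : a ≤ 1 := by nlinarith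
        calc ∑ p ∈ s.filter (fun p : ℕ => Real.log (p : ℝ) ≤ y), min 1 (a * Real.log p) * (p : ℝ)⁻¹
            ≤ ∑ p ∈ s.filter (fun p : ℕ => Real.log (p : ℝ) ≤ y), a * (Real.log p / p) := by
              apply Finset.sum_le_sum
              intro p _
              calc min 1 (a * Real.log p) * (p : ℝ)⁻¹ ≤ (a * Real.log p) * (p : ℝ)⁻¹ :=
                    mul_le_mul_of_nonneg_right (min_le_right _ _) (hinv0 p)
                _ = a * (Real.log p / p) := by rw [div_eq_mul_inv]; ring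
          _ = a * ∑ p ∈ s.filter (fun p : ℕ => Real.log (p : ℝ) ≤ y), Real.log p / p := by
              rw [Finset.mul_sum]
          _ ≤ a * (y + Real.log 4) := mul_le_mul_of_nonneg_left hp ha
          _ ≤ 3 := by nlinarith
      · have hp := n2_part (by linarith : (0 : ℝ) ≤ y) (s.filter (fun p : ℕ => Real.log (p : ℝ) ≤ y))
          (fun p hp => ⟨(hs p (Finset.mem_filter.mp hp).1).1, (Finset.mem_filter.mp hp).2⟩)
        have hle : ∀ p ∈ s.filter (fun p : ℕ => Real.log (p : ℝ) ≤ y), p = 2 := by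
          intro p hp
          obtain ⟨h1, h2⟩ := Finset.mem_filter.mp hp
          rw [hy2] at h2
          have h3 := (hs p h1).1.two_le
          by_contra hne
          have h5 : 3 ≤ p := by omega
          have h6 : Real.exp 1 < 3 := Real.exp_one_lt_three
          have h7 : (1 : ℝ) < Real.log p := by
            rw [Real.lt_log_iff_exp_lt (by positivity)]
            have : (3 : ℝ) ≤ p := by exact_mod_cast h5
            linarith
          linarith
        calc ∑ p ∈ s.filter (fun p : ℕ => Real.log (p : ℝ) ≤ y), min 1 (a * Real.log p) * (p : ℝ)⁻¹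
            ≤ ∑ p ∈ ({2} : Finset ℕ), (1 : ℝ) := by
              calc ∑ p ∈ s.filter (fun p : ℕ => Real.log (p : ℝ) ≤ y),
                    min 1 (a * Real.log p) * (p : ℝ)⁻¹
                  ≤ ∑ p ∈ s.filter (fun p : ℕ => Real.log (p : ℝ) ≤ y), (1 : ℝ) := by
                    apply Finset.sum_le_sum
                    intro p hp
                    have h1 : (p : ℝ)⁻¹ ≤ 1 := by
                      apply inv_le_one_of_one_le₀
                      exact_mod_cast (hs p (Finset.mem_filter.mp hp).1).1.one_lt.le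
                    calc min 1 (a * Real.log p) * (p : ℝ)⁻¹ ≤ 1 * 1 :=
                          mul_le_mul (min_le_left _ _) h1 (hinv0 p) (by norm_num)
                      _ = 1 := by norm_num
                _ ≤ ∑ p ∈ ({2} : Finset ℕ), (1 : ℝ) := by
                    apply Finset.sum_le_sum_of_subset_of_nonneg
                    · intro p hp
                      rw [Finset.mem_singleton]
                      exact hle p hp
                    · intro _ _ _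
                      norm_num
          _ ≤ 3 := by norm_num
    have hlarge : ∑ p ∈ s.filter (fun p : ℕ => ¬ Real.log (p : ℝ) ≤ y),
        min 1 (a * Real.log p) * (p : ℝ)⁻¹ ≤ Real.log (1 + a * Y) + 7 := by
      rcases le_or_gt Y y with hYy | hYy
      · have : s.filter (fun p : ℕ => ¬ Real.log (p : ℝ) ≤ y) = ∅ := by
          rw [Finset.filter_eq_empty_iff]
          intro p hp hn
          exact hn ((hs p hp).2.trans hYy)
        rw [this, Finset.sum_empty]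
        linarith
      · have hVV := MP_f9aece_nt_h6.VV_le_log (by linarith : (0 : ℝ) < y) hYy.le
          (s.filter (fun p : ℕ => ¬ Real.log (p : ℝ) ≤ y))
          (fun p hp => ⟨(hs p (Finset.mem_filter.mp hp).1).1,
            not_le.mp (Finset.mem_filter.mp hp).2, (hs p (Finset.mem_filter.mp hp).1).2⟩)
        have h1 : 1 ≤ a * y := by
          rcases hy3 with h | h
          · exact h
          · linarith
        have h2 : Y / y ≤ 1 + a * Y := by
          rw [div_le_iff₀ (by linarith)]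
          nlinarith
        have h3 : Real.log (Y / y) ≤ Real.log (1 + a * Y) :=
          Real.log_le_log (by positivity) h2
        have h5 : Real.log 4 / y ≤ 2 := by
          rw [div_le_iff₀ (by linarith)]
          nlinarith
        have h6 : ∑ p ∈ s.filter (fun p : ℕ => ¬ Real.log (p : ℝ) ≤ y),
            min 1 (a * Real.log p) * (p : ℝ)⁻¹ ≤
            VV (s.filter (fun p : ℕ => ¬ Real.log (p : ℝ) ≤ y)) := by
          unfold MP_f9aece_nt.VV
          apply Finset.sum_le_sum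
          intro p _
          calc min 1 (a * Real.log p) * (p : ℝ)⁻¹ ≤ 1 * (p : ℝ)⁻¹ :=
                mul_le_mul_of_nonneg_right (min_le_left _ _) (hinv0 p)
            _ = (p : ℝ)⁻¹ := one_mul _
        linarith
    linarith
  rcases le_or_gt 1 a with h1 | h1
  · exact split 1 le_rfl (Or.inr rfl) (Or.inl (by linarith))
  · rcases eq_or_lt_of_le ha with h0 | h0
    · rw [← h0]
      have : ∑ p ∈ s, min 1 (0 * Real.log p) * (p : ℝ)⁻¹ = 0 := by
        apply Finset.sum_eq_zero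
        intro p _
        simp
      rw [this]
      simp
    · refine split (1 / a) ?_ (Or.inl ?_) (Or.inl ?_)
      · rw [le_div_iff₀ h0]
        linarith
      · rw [mul_one_div_cancel h0.ne']
      · rw [mul_one_div_cancel h0.ne']

/-! ### the characters -/

private lemma n2_pow {p : ℕ} (hp : 0 < p) (u : ℝ) :
    (p : ℂ) ^ (-(I * u) : ℂ) = cexp (I * ((-(u * Real.log p) : ℝ) : ℂ)) := by
  have h0 : (p : ℂ) ≠ 0 := by exact_mod_cast hp.ne'
  rw [Complex.cpow_def_of_ne_zero h0, ← Complex.natCast_log]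
  congr 1
  push_cast
  ring

private lemma n2_norm_pow {p : ℕ} (hp : 0 < p) (u : ℝ) : ‖(p : ℂ) ^ (-(I * u) : ℂ)‖ = 1 := by
  rw [n2_pow hp, mul_comm]
  exact Complex.norm_exp_ofReal_mul_I _

private lemma n2_d1 {p : ℕ} (hp : 0 < p) (u : ℝ) :
    ‖(p : ℂ) ^ (-(I * u) : ℂ) - 1‖ ≤ |u| * Real.log p := by
  rw [n2_pow hp]
  refine (Real.norm_exp_I_mul_ofReal_sub_one_le).trans ?_
  rw [Real.norm_eq_abs, abs_neg, abs_mul, abs_of_nonneg (Real.log_natCast_nonneg p)]

private lemma n2_d2 {p : ℕ} (hp : 0 < p) (u : ℝ) :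
    ‖(p : ℂ) ^ (-(I * u) : ℂ) - 1‖ ≤ 2 := by
  calc ‖(p : ℂ) ^ (-(I * u) : ℂ) - 1‖ ≤ ‖(p : ℂ) ^ (-(I * u) : ℂ)‖ + ‖(1 : ℂ)‖ := norm_sub_le _ _
    _ = 2 := by
      rw [n2_norm_pow hp]
      norm_num

private lemma n2_d3 {p : ℕ} (hp : 0 < p) (u : ℝ) :
    ‖(p : ℂ) ^ (-(I * u) : ℂ) - 1‖ ≤ 2 * min 1 (|u| * Real.log p) := by
  have h1 := n2_d1 hp u
  have h2 := n2_d2 hp u
  have h3 : 0 ≤ |u| * Real.log p := mul_nonneg (abs_nonneg _) (Real.log_natCast_nonneg p)
  rcases min_cases 1 (|u| * Real.log p) with ⟨h, _⟩ | ⟨h, _⟩ <;> rw [h] <;> linarith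

private lemma n2_d4 {p : ℕ} (hp : 0 < p) (u : ℝ) :
    ‖(p : ℂ) ^ (-(I * u) : ℂ) - 1‖ ^ 2 ≤ 4 * min 1 (|u| * Real.log p) := by
  have h1 := n2_d3 hp u
  have h0 : 0 ≤ ‖(p : ℂ) ^ (-(I * u) : ℂ) - 1‖ := norm_nonneg _
  have h3 : 0 ≤ min 1 (|u| * Real.log p) :=
    le_min zero_le_one (mul_nonneg (abs_nonneg _) (Real.log_natCast_nonneg p))
  have h4 : min 1 (|u| * Real.log p) ≤ 1 := min_le_left _ _
  nlinarith

/-- `|p^κ - 1| ≤ 3 |κ| log p` if `|κ| log p ≤ 1` -/
private lemma n2_k {p : ℕ} (hp : 0 < p) {κ : ℝ} (hκ : |κ| * Real.log p ≤ 2) :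
    |(p : ℝ) ^ κ - 1| ≤ 8 * (|κ| * Real.log p) := by
  have hp0 : (0 : ℝ) < p := by exact_mod_cast hp
  have he : (p : ℝ) ^ κ = Real.exp (κ * Real.log p) := by
    rw [Real.rpow_def_of_pos hp0]
    congr 1
    ring
  have hl : 0 ≤ Real.log (p : ℝ) := Real.log_natCast_nonneg p
  have hx : |κ * Real.log p| = |κ| * Real.log p := by rw [abs_mul, abs_of_nonneg hl]
  rw [he]
  set x := κ * Real.log (p : ℝ) with hxd
  have hx2 : |x| ≤ 2 := by rw [hx]; exact hκ
  rw [← hx]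
  have h1 : Real.exp |x| ≤ 8 := by
    calc Real.exp |x| ≤ Real.exp 2 := Real.exp_le_exp.mpr hx2
      _ = Real.exp 1 ^ 2 := by rw [← Real.exp_nat_mul]; norm_num
      _ ≤ 2.7182818286 ^ 2 := pow_le_pow_left₀ (Real.exp_pos 1).le Real.exp_one_lt_d9.le 2
      _ ≤ 8 := by norm_num
  have hx0 := abs_nonneg x
  rw [abs_le]
  constructor
  · have h2 := Real.add_one_le_exp x
    have h3 := neg_abs_le x
    nlinarith
  · -- `exp x - 1 ≤ |x| exp |x|`
    have h2 : Real.exp x ≤ Real.exp |x| := Real.exp_le_exp.mpr (le_abs_self x)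
    have h3 := Real.add_one_le_exp (-|x|)
    have h4 : Real.exp (-|x|) * Real.exp |x| = 1 := by rw [← Real.exp_add]; simp
    have h5 := Real.exp_pos |x|
    nlinarith

theorem primeSums : PrimeSums := by
  refine ⟨1000, by norm_num, ?_⟩
  intro A hA
  have hY := hA.hY
  have hY0 : 0 < A.Y := by linarith
  have hU : ∀ p ∈ A.U, p.Prime ∧ Real.log p ≤ A.Y := by
    intro p hp
    unfold Par.U at hp
    obtain ⟨g, _, hg⟩ := Finset.mem_biUnion.mp hp
    unfold Par.S at hg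
    obtain ⟨h0, h1, _, _⟩ := Finset.mem_filter.mp hg
    refine ⟨h1, ?_⟩
    have h2 : (p : ℝ) ≤ Real.exp (A.Yf g) := by
      have h3 := (Finset.mem_Icc.mp h0).2
      calc (p : ℝ) ≤ (⌊Real.exp (A.Yf g)⌋₊ : ℝ) := by exact_mod_cast h3
        _ ≤ Real.exp (A.Yf g) := Nat.floor_le (Real.exp_pos _).le
    have h4 : Real.log p ≤ A.Yf g := by
      have h5 : (0 : ℝ) < p := by exact_mod_cast h1.pos
      rw [Real.log_le_iff_le_exp h5]
      exact h2
    refine h4.trans ?_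
    unfold Par.Yf
    have h6 : Real.exp (-((A.v : ℝ) * g)) ≤ 1 := Real.exp_le_one_iff.mpr (by
      have : (0 : ℝ) ≤ (A.v : ℝ) * g := by positivity
      linarith)
    nlinarith
  have hp0 : ∀ p ∈ A.U, 0 < p := fun p hp => (hU p hp).1.pos
  have h4 := n2_log4
  have hone : ∀ u : ℝ, ∑ p ∈ A.U, min 1 (|u| * Real.log p) * (p : ℝ)⁻¹ ≤
      Real.log (1 + A.Y * |u|) + 10 := by
    intro u
    have := n2_one (abs_nonneg u) hY A.U hU
    rwa [mul_comm |u| A.Y] at this
  have hlog : ∑ p ∈ A.U, Real.log p / p ≤ A.Y + Real.log 4 := n2_part hY0.le A.U hU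
  have hlog3 : ∑ p ∈ A.U, Real.log p / p ≤ 3 * A.Y := by linarith
  refine ⟨?_, ?_, ?_⟩
  · intro u
    have hpt : ∀ p ∈ A.U, (p : ℝ)⁻¹ * ‖(p : ℂ) ^ (-(I * u) : ℂ) - 1‖ ^ 2 ≤
        4 * (min 1 (|u| * Real.log p) * (p : ℝ)⁻¹) := by
      intro p hp
      have k4 := n2_d4 (hp0 p hp) u
      have k1 : (0 : ℝ) ≤ (p : ℝ)⁻¹ := by positivity
      calc (p : ℝ)⁻¹ * ‖(p : ℂ) ^ (-(I * u) : ℂ) - 1‖ ^ 2
          ≤ (p : ℝ)⁻¹ * (4 * min 1 (|u| * Real.log p)) := mul_le_mul_of_nonneg_left k4 k1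
        _ = _ := by ring
    have k7 := hone u
    have k9 : 0 ≤ Real.log (1 + A.Y * |u|) := Real.log_nonneg (by
      have : 0 ≤ A.Y * |u| := by positivity
      linarith)
    calc ∑ p ∈ A.U, (p : ℝ)⁻¹ * ‖(p : ℂ) ^ (-(I * u) : ℂ) - 1‖ ^ 2
        ≤ ∑ p ∈ A.U, 4 * (min 1 (|u| * Real.log p) * (p : ℝ)⁻¹) := Finset.sum_le_sum hpt
      _ = 4 * ∑ p ∈ A.U, (min 1 (|u| * Real.log p) * (p : ℝ)⁻¹) := by rw [Finset.mul_sum]
      _ ≤ _ := by linarith
  · intro u
    have hpt : ∀ p ∈ A.U, (p : ℝ)⁻¹ * ‖(p : ℂ) ^ (-(I * u) : ℂ) - 1‖ ≤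
        2 * (min 1 (|u| * Real.log p) * (p : ℝ)⁻¹) := by
      intro p hp
      have k4 := n2_d3 (hp0 p hp) u
      have k1 : (0 : ℝ) ≤ (p : ℝ)⁻¹ := by positivity
      calc (p : ℝ)⁻¹ * ‖(p : ℂ) ^ (-(I * u) : ℂ) - 1‖
          ≤ (p : ℝ)⁻¹ * (2 * min 1 (|u| * Real.log p)) := mul_le_mul_of_nonneg_left k4 k1
        _ = _ := by ring
    have k7 := hone u
    calc ∑ p ∈ A.U, (p : ℝ)⁻¹ * ‖(p : ℂ) ^ (-(I * u) : ℂ) - 1‖
        ≤ ∑ p ∈ A.U, 2 * (min 1 (|u| * Real.log p) * (p : ℝ)⁻¹) := Finset.sum_le_sum hpt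
      _ = 2 * ∑ p ∈ A.U, (min 1 (|u| * Real.log p) * (p : ℝ)⁻¹) := by rw [Finset.mul_sum]
      _ ≤ _ := by linarith
  · intro κ hκ
    have gen : ∀ κ' : ℝ, |κ'| ≤ 2 / A.Y →
        ∑ p ∈ A.U, (p : ℝ)⁻¹ * |(p : ℝ) ^ κ' - 1| ≤ 1000 := by
      intro κ' hκ'
      have hpt : ∀ p ∈ A.U, (p : ℝ)⁻¹ * |(p : ℝ) ^ κ' - 1| ≤ 8 * |κ'| * (Real.log p / p) := by
        intro p hp
        have g1 := (hU p hp).2
        have g2 := Real.log_natCast_nonneg p
        have g3 : |κ'| * Real.log p ≤ 2 := by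
          calc |κ'| * Real.log p ≤ 2 / A.Y * A.Y :=
                mul_le_mul hκ' g1 g2 (by positivity)
            _ = 2 := by field_simp
        have g4 := n2_k (hp0 p hp) g3
        calc (p : ℝ)⁻¹ * |(p : ℝ) ^ κ' - 1| ≤ (p : ℝ)⁻¹ * (8 * (|κ'| * Real.log p)) :=
              mul_le_mul_of_nonneg_left g4 (by positivity)
          _ = 8 * |κ'| * (Real.log p / p) := by rw [div_eq_mul_inv]; ring
      calc ∑ p ∈ A.U, (p : ℝ)⁻¹ * |(p : ℝ) ^ κ' - 1|
          ≤ ∑ p ∈ A.U, 8 * |κ'| * (Real.log p / p) := Finset.sum_le_sum hpt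
        _ = 8 * |κ'| * ∑ p ∈ A.U, Real.log p / p := by rw [Finset.mul_sum]
        _ ≤ 8 * |κ'| * (3 * A.Y) := mul_le_mul_of_nonneg_left hlog3 (by positivity)
        _ = 24 * (|κ'| * A.Y) := by ring
        _ ≤ 24 * (2 / A.Y * A.Y) := by
            apply mul_le_mul_of_nonneg_left _ (by norm_num)
            exact mul_le_mul_of_nonneg_right hκ' hY0.le
        _ = 48 := by field_simp; norm_num
        _ ≤ 1000 := by norm_num
    refine ⟨gen κ (hκ.trans ?_), gen (2 * κ) ?_⟩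
    · exact div_le_div_of_nonneg_right (by norm_num) hY0.le
    · rw [abs_mul, abs_of_pos (by norm_num : (0 : ℝ) < 2)]
      calc 2 * |κ| ≤ 2 * (1 / A.Y) := mul_le_mul_of_nonneg_left hκ (by norm_num)
        _ = 2 / A.Y := by ring

end Pool.Agent.Lib.G2
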