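import Mathlib
import Pool.Agent.Lib.MP_f9aece_nt_g2.Stmts
import Pool.Agent.Lib.MP_f9aece_nt_gt.D3

/-!
The law of `log |zeta|` under the measure `|zeta| ^ 2`: row T0a (`sForm`), sums on the torus through
their rough parts.
-/

set_option autoImplicit false

namespace Pool.Agent.Lib.G2

open MeasureTheory Set Filter Topology Complex ProbabilityTheory
open scoped ComplexConjugate
open Pool.Agent.Lib.GT
open Pool.Agent.Lib.J4 (Rough)

namespace T0a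

lemma U_prime (A : Par) {p : ℕ} (hp : p ∈ A.U) : p.Prime := by
  unfold Par.U at hp
  rw [Finset.mem_biUnion] at hp
  obtain ⟨g, _, hg⟩ := hp
  unfold Par.S at hg
  exact (Finset.mem_filter.1 hg).2.1

lemma mem_Ro {A : Par} {N n : ℕ} :
    n ∈ Ro A N ↔ 1 ≤ n ∧ n ≤ N ∧ ∀ p ∈ n.primeFactors, p ∉ A.U := by
  unfold Ro
  rw [Finset.mem_filter, Finset.mem_Icc, and_assoc]

lemma mem_Smo {A : Par} {N n : ℕ} :
    n ∈ Smo A N ↔ 1 ≤ n ∧ n ≤ N ∧ ∀ p ∈ n.primeFactors, p ∈ A.U := by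
  unfold Smo
  rw [Finset.mem_filter, Finset.mem_Icc, and_assoc]

lemma rough_of_Ro {A : Par} {N n : ℕ} (h : n ∈ Ro A N) : Rough A.U n := by
  obtain ⟨h1, _, h3⟩ := mem_Ro.1 h
  refine ⟨h1, fun p hp hd => ?_⟩
  exact h3 p (Nat.mem_primeFactors.2 ⟨U_prime A hp, hd, by omega⟩) hp

lemma factored_of_Smo {A : Par} {N n : ℕ} (h : n ∈ Smo A N) : n ∈ Nat.factoredNumbers A.U := by
  obtain ⟨h1, _, h3⟩ := mem_Smo.1 h
  refine Nat.mem_factoredNumbers.2 ⟨by omega, fun p hp => ?_⟩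
  exact h3 p (Nat.mem_primeFactors_iff_mem_primeFactorsList.2 hp)

lemma log_nat_mul {l m : ℕ} (hl : 1 ≤ l) (hm : 1 ≤ m) :
    Real.log ((l * m : ℕ) : ℝ) = Real.log l + Real.log m := by
  rw [Nat.cast_mul, Real.log_mul]
  · exact_mod_cast (by omega : l ≠ 0)
  · exact_mod_cast (by omega : m ≠ 0)

/-- the sum through its rough parts -/
lemma Sr_eq (A : Par) (N : ℕ) (ρ : ℝ → ℂ) (x : Om) :
    Sr N ρ x = ∑ l ∈ Ro A N, ch x l * ((l : ℂ) ^ (-(1 / 2) : ℂ) * Sl A N ρ l x) := by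
  have hterm : ∀ l ∈ Ro A N, ch x l * ((l : ℂ) ^ (-(1 / 2) : ℂ) * Sl A N ρ l x)
      = ∑ m ∈ Smo A (N / l), ρ (Real.log ((l * m : ℕ) : ℝ))
        * (((l * m : ℕ) : ℂ) ^ (-(1 / 2) : ℂ) * ch x (l * m)) := by
    intro l hl
    have hl0 := (mem_Ro.1 hl).1
    unfold Sl
    rw [Finset.mul_sum, Finset.mul_sum]
    refine Finset.sum_congr rfl fun m hm => ?_
    have hm0 := (mem_Smo.1 hm).1
    rw [ch_mul x (by omega) (by omega), log_nat_mul hl0 hm0, Nat.cast_mul,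
      Complex.natCast_mul_natCast_cpow]
    ring
  rw [Finset.sum_congr rfl hterm, Finset.sum_sigma']
  symm
  unfold Sr
  refine Finset.sum_nbij (fun q => q.1 * q.2) ?_ ?_ ?_ ?_
  · rintro ⟨l, m⟩ hq
    rw [Finset.mem_sigma] at hq
    obtain ⟨h1, h2, _⟩ := mem_Ro.1 hq.1
    obtain ⟨h3, h4, _⟩ := mem_Smo.1 hq.2
    rw [Finset.mem_Icc]
    refine ⟨Nat.mul_pos h1 h3, ?_⟩
    calc l * m ≤ l * (N / l) := Nat.mul_le_mul_left _ h4
      _ ≤ N := Nat.mul_div_le N l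
  · rintro ⟨l, m⟩ hq ⟨l', m'⟩ hq' h
    rw [Finset.mem_coe, Finset.mem_sigma] at hq hq'
    obtain ⟨h1, h2⟩ := D3.rough_smooth_inj (rough_of_Ro hq.1) (rough_of_Ro hq'.1)
      (factored_of_Smo hq.2) (factored_of_Smo hq'.2) h
    simp only at h1 h2
    subst h1 h2
    rfl
  · intro n hn
    rw [Finset.mem_coe, Finset.mem_Icc] at hn
    obtain ⟨l, m, h1, h2, h3⟩ := D3.exists_rough_smooth (S := A.U) (fun p hp => U_prime A hp)
      (n := n) (by omega)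
    have hl : 1 ≤ l := h1.1
    have hm : 1 ≤ m := Nat.pos_of_ne_zero (Nat.ne_zero_of_mem_factoredNumbers h2)
    refine ⟨⟨l, m⟩, ?_, h3⟩
    rw [Finset.mem_coe, Finset.mem_sigma]
    constructor
    · refine mem_Ro.2 ⟨hl, ?_, fun p hp hpU => ?_⟩
      · refine le_trans ?_ hn.2
        rw [← h3]
        exact Nat.le_mul_of_pos_right l hm
      · exact h1.2 p hpU (Nat.dvd_of_mem_primeFactors hp)
    · refine mem_Smo.2 ⟨hm, ?_, fun p hp => ?_⟩
      · rw [Nat.le_div_iff_mul_le hl, mul_comm, h3]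
        exact hn.2
      · exact (Nat.mem_factoredNumbers.1 h2).2 p
          (Nat.mem_primeFactors_iff_mem_primeFactorsList.1 hp)
  · rintro ⟨l, m⟩ _
    rfl

/-- a bound for the parts -/
noncomputable def bS (A : Par) (N : ℕ) (ρ : ℝ → ℂ) (l : ℕ) : ℝ :=
  ∑ m ∈ Smo A (N / l), ‖ρ (Real.log l + Real.log m)‖

lemma bS_nonneg (A : Par) (N : ℕ) (ρ : ℝ → ℂ) (l : ℕ) : 0 ≤ bS A N ρ l :=
  Finset.sum_nonneg fun _ _ => norm_nonneg _

lemma norm_half {n : ℕ} (hn : n ≠ 0) : ‖(n : ℂ) ^ (-(1 / 2) : ℂ)‖ ^ 2 = (n : ℝ)⁻¹ := by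
  rw [Complex.norm_natCast_cpow_of_pos (Nat.pos_of_ne_zero hn)]
  rw [← Real.rpow_natCast, ← Real.rpow_mul (by positivity), ← Real.rpow_neg_one]
  congr 1
  simp

lemma norm_half_le {n : ℕ} (hn : n ≠ 0) : ‖(n : ℂ) ^ (-(1 / 2) : ℂ)‖ ≤ 1 := by
  have h1 := norm_half hn
  have h2 : (n : ℝ)⁻¹ ≤ 1 := inv_le_one_of_one_le₀ (by exact_mod_cast Nat.one_le_iff_ne_zero.2 hn)
  have h3 := norm_nonneg ((n : ℂ) ^ (-(1 / 2) : ℂ))
  nlinarith

lemma norm_Sl_le (A : Par) (N : ℕ) (ρ : ℝ → ℂ) (l : ℕ) (x : Om) : ‖Sl A N ρ l x‖ ≤ bS A N ρ l := by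
  unfold Sl bS
  refine (norm_sum_le _ _).trans (Finset.sum_le_sum fun m hm => ?_)
  have hm0 := (mem_Smo.1 hm).1
  rw [norm_mul, norm_mul, norm_ch, mul_one]
  exact mul_le_of_le_one_right (norm_nonneg _) (norm_half_le (by omega))

lemma measurable_Sl (A : Par) (N : ℕ) (ρ : ℝ → ℂ) (l : ℕ) : Measurable (Sl A N ρ l) := by
  have : Continuous (Sl A N ρ l) := by
    unfold Sl
    fun_prop
  exact this.measurable

lemma dep_Sl (A : Par) (N : ℕ) (ρ : ℝ → ℂ) (l : ℕ) : Dep (A.U : Set ℕ) (Sl A N ρ l) := by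
  intro x y hxy
  unfold Sl
  refine Finset.sum_congr rfl fun m hm => ?_
  have h := dep_ch (S := (A.U : Set ℕ)) (n := m) (fun p hp => (mem_Smo.1 hm).2.2 p hp) x y hxy
  simp only at h
  rw [h]

/-! ### the product of two sums -/

lemma card_fiber_le {R : Finset ℕ} (hR : ∀ r ∈ R, r ≠ 0) {q : ℕ × ℕ} (hq : q ∈ R ×ˢ R) :
    (((R ×ˢ R).filter fun q' => q'.1 * q'.2 = q.1 * q.2).card : ℝ)
      ≤ (q.1.divisors.card : ℝ) * q.2.divisors.card := by
  rw [Finset.mem_product] at hq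
  have h0 : q.1 * q.2 ≠ 0 := mul_ne_zero (hR _ hq.1) (hR _ hq.2)
  have h1 : ((R ×ˢ R).filter fun q' => q'.1 * q'.2 = q.1 * q.2).card ≤ (q.1 * q.2).divisors.card := by
    refine Finset.card_le_card_of_injOn (fun q' => q'.1) ?_ ?_
    · intro q' hq'
      rw [Finset.mem_coe, Finset.mem_filter] at hq'
      rw [Finset.mem_coe, Nat.mem_divisors]
      exact ⟨⟨q'.2, hq'.2.symm⟩, h0⟩
    · intro a ha b hb hab
      rw [Finset.mem_coe, Finset.mem_filter, Finset.mem_product] at ha hb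
      simp only at hab
      refine Prod.ext hab ?_
      have h2 : a.1 * a.2 = a.1 * b.2 := by rw [ha.2, hab, hb.2]
      exact Nat.eq_of_mul_eq_mul_left (Nat.pos_of_ne_zero (hR _ ha.1.1)) h2
  have h2 : (q.1 * q.2).divisors.card ≤ q.1.divisors.card * q.2.divisors.card := by
    rw [Nat.divisors_mul]
    exact Finset.card_mul_le
  exact_mod_cast h1.trans h2

lemma orth2 (T R : Finset ℕ) (hR : ∀ r ∈ R, r ≠ 0 ∧ ∀ p ∈ r.primeFactors, p ∉ T)
    {f : Om → ℝ} {F F' : ℕ → Om → ℂ} {B B1 B2 : ℝ} (hf : Measurable f) (hfd : Dep (T : Set ℕ) f)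
    (hfB : ∀ x, 0 ≤ f x ∧ f x ≤ B)
    (hF : ∀ r ∈ R, Measurable (F r) ∧ Dep (T : Set ℕ) (F r) ∧ ∀ x, ‖F r x‖ ≤ B1)
    (hF' : ∀ r ∈ R, Measurable (F' r) ∧ Dep (T : Set ℕ) (F' r) ∧ ∀ x, ‖F' r x‖ ≤ B2) :
    ∫ x, f x * (‖∑ r ∈ R, ch x r * F r x‖ ^ 2 * ‖∑ r ∈ R, ch x r * F' r x‖ ^ 2) ∂mu
      ≤ ∑ l ∈ R, ∑ l' ∈ R, ((l.divisors.card : ℝ) * l'.divisors.card)
        * ∫ x, f x * (‖F l x‖ ^ 2 * ‖F' l' x‖ ^ 2) ∂mu := by
  classical
  set R2 : Finset ℕ := (R ×ˢ R).image fun q => q.1 * q.2 with hR2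
  set fib : ℕ → Finset (ℕ × ℕ) := fun L => (R ×ˢ R).filter fun q => q.1 * q.2 = L with hfib
  set Z : ℕ → Om → ℂ := fun L x => ∑ q ∈ fib L, F q.1 x * F' q.2 x with hZ
  have hR0 : ∀ r ∈ R, r ≠ 0 := fun r hr => (hR r hr).1
  have hfm : ∀ L, ∀ q ∈ fib L, q.1 ∈ R ∧ q.2 ∈ R := by
    intro L q hq
    rw [hfib, Finset.mem_filter, Finset.mem_product] at hq
    exact hq.1
  -- the product
  have hprod : ∀ x, (∑ r ∈ R, ch x r * F r x) * (∑ r ∈ R, ch x r * F' r x)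
      = ∑ L ∈ R2, ch x L * Z L x := by
    intro x
    rw [Finset.sum_mul_sum, ← Finset.sum_product']
    rw [← Finset.sum_fiberwise_of_maps_to (s := R ×ˢ R) (t := R2) (g := fun q => q.1 * q.2)
      (fun q hq => Finset.mem_image_of_mem _ hq)]
    refine Finset.sum_congr rfl fun L _ => ?_
    rw [hZ, Finset.mul_sum]
    refine Finset.sum_congr rfl fun q hq => ?_
    rw [Finset.mem_filter, Finset.mem_product] at hq
    rw [← hq.2, ch_mul x (hR0 _ hq.1.1) (hR0 _ hq.1.2)]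
    ring
  have hR2p : ∀ L ∈ R2, L ≠ 0 ∧ ∀ p ∈ L.primeFactors, p ∉ T := by
    intro L hL
    rw [hR2, Finset.mem_image] at hL
    obtain ⟨q, hq, rfl⟩ := hL
    rw [Finset.mem_product] at hq
    refine ⟨mul_ne_zero (hR0 _ hq.1) (hR0 _ hq.2), fun p hp => ?_⟩
    rw [Nat.primeFactors_mul (hR0 _ hq.1) (hR0 _ hq.2), Finset.mem_union] at hp
    rcases hp with hp | hp
    · exact (hR _ hq.1).2 p hp
    · exact (hR _ hq.2).2 p hp
  have hB12 : ∀ L, ∀ q ∈ fib L, ∀ x, ‖F q.1 x * F' q.2 x‖ ≤ |B1| * |B2| := by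
    intro L q hq x
    rw [norm_mul]
    exact mul_le_mul (((hF _ (hfm L q hq).1).2.2 x).trans (le_abs_self _))
      (((hF' _ (hfm L q hq).2).2.2 x).trans (le_abs_self _)) (norm_nonneg _) (abs_nonneg _)
  have hZp : ∀ L ∈ R2, Measurable (Z L) ∧ Dep (T : Set ℕ) (Z L) ∧
      ∀ x, ‖Z L x‖ ≤ (R ×ˢ R).card * (|B1| * |B2|) := by
    intro L _
    refine ⟨?_, ?_, fun x => ?_⟩
    · exact Finset.measurable_fun_sum _ fun q hq =>
        (hF _ (hfm L q hq).1).1.mul (hF' _ (hfm L q hq).2).1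
    · exact dep_sum fun q hq => (hF _ (hfm L q hq).1).2.1.mul (hF' _ (hfm L q hq).2).2.1
    · refine (norm_sum_le _ _).trans ?_
      calc ∑ q ∈ fib L, ‖F q.1 x * F' q.2 x‖ ≤ ∑ q ∈ fib L, |B1| * |B2| :=
            Finset.sum_le_sum fun q hq => hB12 L q hq x
        _ = (fib L).card * (|B1| * |B2|) := by rw [Finset.sum_const, nsmul_eq_mul]
        _ ≤ _ := by
          have : (fib L).card ≤ (R ×ˢ R).card := Finset.card_le_card (Finset.filter_subset _ _)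
          gcongr
  have horth := D3.orth T R2 hR2p (Z := Z) hf hfd hfB hZp
  have e1 : ∀ x, f x * (‖∑ r ∈ R, ch x r * F r x‖ ^ 2 * ‖∑ r ∈ R, ch x r * F' r x‖ ^ 2)
      = f x * ‖∑ L ∈ R2, ch x L * Z L x‖ ^ 2 := by
    intro x
    rw [← hprod x, norm_mul, mul_pow]
  simp only [e1]
  rw [horth]
  -- one term
  have hint : ∀ l ∈ R, ∀ l' ∈ R, Integrable (fun x => f x * (‖F l x‖ ^ 2 * ‖F' l' x‖ ^ 2)) mu := by
    intro l hl l' hl'
    refine integrable_of_bd (C := B * (|B1| ^ 2 * |B2| ^ 2)) ?_ fun x => ?_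
    · exact (hf.mul (((hF l hl).1.norm.pow_const 2).mul
        ((hF' l' hl').1.norm.pow_const 2))).aestronglyMeasurable
    · have h1 := hfB x
      have h2 := ((hF l hl).2.2 x).trans (le_abs_self B1)
      have h3 := ((hF' l' hl').2.2 x).trans (le_abs_self B2)
      have h4 : 0 ≤ ‖F l x‖ ^ 2 * ‖F' l' x‖ ^ 2 := by positivity
      rw [Real.norm_eq_abs, abs_of_nonneg (mul_nonneg h1.1 h4)]
      have h5 := pow_le_pow_left₀ (norm_nonneg _) h2 2
      have h6 := pow_le_pow_left₀ (norm_nonneg _) h3 2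
      exact mul_le_mul h1.2 (mul_le_mul h5 h6 (by positivity) (by positivity)) h4 (h1.1.trans h1.2)
  have hterm : ∀ L ∈ R2, ∫ x, f x * ‖Z L x‖ ^ 2 ∂mu
      ≤ ∑ q ∈ fib L, ((q.1.divisors.card : ℝ) * q.2.divisors.card)
        * ∫ x, f x * (‖F q.1 x‖ ^ 2 * ‖F' q.2 x‖ ^ 2) ∂mu := by
    intro L _
    have hpt : ∀ x, f x * ‖Z L x‖ ^ 2 ≤ ∑ q ∈ fib L, ((q.1.divisors.card : ℝ) * q.2.divisors.card)
        * (f x * (‖F q.1 x‖ ^ 2 * ‖F' q.2 x‖ ^ 2)) := by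
      intro x
      have h1 : ‖Z L x‖ ^ 2 ≤ (fib L).card * ∑ q ∈ fib L, ‖F q.1 x * F' q.2 x‖ ^ 2 := by
        refine (pow_le_pow_left₀ (norm_nonneg _) (norm_sum_le _ _) 2).trans ?_
        exact sq_sum_le_card_mul_sum_sq
      calc f x * ‖Z L x‖ ^ 2 ≤ f x * ((fib L).card * ∑ q ∈ fib L, ‖F q.1 x * F' q.2 x‖ ^ 2) :=
            mul_le_mul_of_nonneg_left h1 (hfB x).1
        _ = ∑ q ∈ fib L, ((fib L).card : ℝ) * (f x * (‖F q.1 x‖ ^ 2 * ‖F' q.2 x‖ ^ 2)) := by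
            rw [Finset.mul_sum, Finset.mul_sum]
            refine Finset.sum_congr rfl fun q _ => ?_
            rw [norm_mul, mul_pow]
            ring
        _ ≤ _ := by
            refine Finset.sum_le_sum fun q hq => ?_
            refine mul_le_mul_of_nonneg_right ?_ (mul_nonneg (hfB x).1 (by positivity))
            have h2 : q ∈ R ×ˢ R := (Finset.mem_filter.1 hq).1
            have h3 : q.1 * q.2 = L := (Finset.mem_filter.1 hq).2
            have h4 := card_fiber_le hR0 h2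
            rw [h3] at h4
            exact h4
    calc ∫ x, f x * ‖Z L x‖ ^ 2 ∂mu
        ≤ ∫ x, ∑ q ∈ fib L, ((q.1.divisors.card : ℝ) * q.2.divisors.card)
          * (f x * (‖F q.1 x‖ ^ 2 * ‖F' q.2 x‖ ^ 2)) ∂mu := by
          refine integral_mono_of_nonneg (Eventually.of_forall fun x =>
            mul_nonneg (hfB x).1 (sq_nonneg _)) ?_ (Eventually.of_forall hpt)
          exact integrable_finsetSum _ fun q hq =>
            (hint q.1 (hfm L q hq).1 q.2 (hfm L q hq).2).const_mul _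
      _ = _ := by
          rw [integral_finsetSum _ fun q hq =>
            (hint q.1 (hfm L q hq).1 q.2 (hfm L q hq).2).const_mul _]
          refine Finset.sum_congr rfl fun q _ => ?_
          rw [integral_const_mul]
  refine (Finset.sum_le_sum hterm).trans (le_of_eq ?_)
  rw [← Finset.sum_product']
  exact Finset.sum_fiberwise_of_maps_to (s := R ×ˢ R) (t := R2) (g := fun q => q.1 * q.2)
    (fun q hq => Finset.mem_image_of_mem _ hq) _

end T0a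

open T0a in
/-- T0a -/
theorem sForm : SForm := by
  intro A _ f B hf hfB hfd N ρ ρ'
  have hR : ∀ r ∈ Ro A N, r ≠ 0 ∧ ∀ p ∈ r.primeFactors, p ∉ A.U := by
    intro r hr
    obtain ⟨h1, _, h3⟩ := mem_Ro.1 hr
    exact ⟨by omega, h3⟩
  have key : ∀ σ : ℝ → ℂ, ∀ r ∈ Ro A N,
      Measurable (fun x => (r : ℂ) ^ (-(1 / 2) : ℂ) * Sl A N σ r x) ∧
      Dep (A.U : Set ℕ) (fun x => (r : ℂ) ^ (-(1 / 2) : ℂ) * Sl A N σ r x) ∧
      ∀ x, ‖(r : ℂ) ^ (-(1 / 2) : ℂ) * Sl A N σ r x‖ ≤ ∑ l ∈ Ro A N, bS A N σ l := by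
    intro σ r hr
    refine ⟨(measurable_Sl A N σ r).const_mul _, ?_, fun x => ?_⟩
    · intro x y hxy
      simp only
      rw [dep_Sl A N σ r x y hxy]
    · rw [norm_mul]
      calc _ ≤ 1 * bS A N σ r := mul_le_mul (norm_half_le (hR r hr).1) (norm_Sl_le A N σ r x)
            (norm_nonneg _) zero_le_one
        _ = bS A N σ r := one_mul _
        _ ≤ _ := Finset.single_le_sum (fun l _ => bS_nonneg A N σ l) hr
  have hsq : ∀ σ : ℝ → ℂ, ∀ r ∈ Ro A N, ∀ x, ‖(r : ℂ) ^ (-(1 / 2) : ℂ) * Sl A N σ r x‖ ^ 2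
      = (r : ℝ)⁻¹ * ‖Sl A N σ r x‖ ^ 2 := by
    intro σ r hr x
    rw [norm_mul, mul_pow, norm_half (hR r hr).1]
  constructor
  · simp only [Sr_eq A N ρ]
    rw [D3.orth A.U (Ro A N) hR (Z := fun r x => (r : ℂ) ^ (-(1 / 2) : ℂ) * Sl A N ρ r x) hf hfd hfB
      (key ρ)]
    refine Finset.sum_congr rfl fun r hr => ?_
    rw [← integral_const_mul]
    refine integral_congr_ae (Eventually.of_forall fun x => ?_)
    simp only
    rw [hsq ρ r hr x]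
    ring
  · simp only [Sr_eq A N ρ, Sr_eq A N ρ']
    refine (orth2 A.U (Ro A N) hR (F := fun r x => (r : ℂ) ^ (-(1 / 2) : ℂ) * Sl A N ρ r x)
      (F' := fun r x => (r : ℂ) ^ (-(1 / 2) : ℂ) * Sl A N ρ' r x) hf hfd hfB (key ρ)
      (key ρ')).trans (le_of_eq ?_)
    refine Finset.sum_congr rfl fun l hl => Finset.sum_congr rfl fun l' hl' => ?_
    rw [mul_assoc ((l.divisors.card : ℝ) * l'.divisors.card) ((l : ℝ)⁻¹ * (l' : ℝ)⁻¹)]
    congr 1
    rw [← integral_const_mul]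
    refine integral_congr_ae (Eventually.of_forall fun x => ?_)
    simp only
    rw [hsq ρ l hl x, hsq ρ' l' hl' x]
    ring

end Pool.Agent.Lib.G2
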