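import Mathlib
import Pool.Agent.Lib.MP_f9aece_nt_g2.Stmts

/-!
The law of `log |zeta|` under the measure `|zeta| ^ 2`: row T0b (`sKer`), the part of a smooth sum
belonging to a rough number through Euler products.
-/

set_option autoImplicit false

namespace Pool.Agent.Lib.G2

open MeasureTheory Set Filter Topology Complex ProbabilityTheory
open scoped ComplexConjugate
open Pool.Agent.Lib.GT

namespace T0b

lemma U_prime (A : Par) {p : ℕ} (hp : p ∈ A.U) : p.Prime := by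
  unfold Par.U at hp
  rw [Finset.mem_biUnion] at hp
  obtain ⟨g, _, hg⟩ := hp
  unfold Par.S at hg
  exact (Finset.mem_filter.1 hg).2.1

/-- the exponent -/
noncomputable def sk (κ u : ℝ) : ℂ := -(1 / 2 - κ + I * u)

lemma sk_re (κ u : ℝ) : (sk κ u).re = -(1 / 2 - κ) := by
  unfold sk
  simp

lemma sk_ne {κ : ℝ} (hκ : κ ≤ 1 / 4) (u : ℝ) : sk κ u ≠ 0 := by
  intro h
  have h1 := sk_re κ u
  rw [h, Complex.zero_re] at h1
  linarith

lemma norm_cpow_sk {n : ℕ} (hn : n ≠ 0) (κ u : ℝ) :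
    ‖(n : ℂ) ^ sk κ u‖ = (n : ℝ) ^ (-(1 / 2 - κ)) := by
  rw [Complex.norm_natCast_cpow_of_pos (Nat.pos_of_ne_zero hn), sk_re]

lemma cpow_sk {m : ℕ} (hm : m ≠ 0) (κ u : ℝ) :
    (m : ℂ) ^ sk κ u = (m : ℂ) ^ (-(1 / 2) : ℂ)
      * ((Real.exp (κ * Real.log m) : ℝ) * cexp (-(I * u * (Real.log m : ℝ)))) := by
  have hm' : (m : ℂ) ≠ 0 := by exact_mod_cast hm
  rw [Complex.cpow_def_of_ne_zero hm', Complex.cpow_def_of_ne_zero hm', Complex.ofReal_exp,
    ← Complex.exp_add, ← Complex.exp_add, ← Complex.natCast_log]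
  congr 1
  unfold sk
  push_cast
  ring

/-- the completely multiplicative function -/
noncomputable def fk (κ u : ℝ) (hκ : κ ≤ 1 / 4) (x : Om) : ℕ →* ℂ where
  toFun n := (n : ℂ) ^ sk κ u * ch x n
  map_one' := by simp [ch_one]
  map_mul' m n := by
    rcases eq_or_ne m 0 with h | h
    · rw [h]
      simp [Complex.zero_cpow (sk_ne hκ u)]
    rcases eq_or_ne n 0 with h' | h'
    · rw [h']
      simp [Complex.zero_cpow (sk_ne hκ u)]
    rw [ch_mul x h h', Nat.cast_mul, Complex.natCast_mul_natCast_cpow]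
    ring

lemma prime_rpow_lt {p : ℕ} (hp : p.Prime) {κ : ℝ} (hκ : κ ≤ 1 / 4) :
    (p : ℝ) ^ (-(1 / 2 - κ)) < 1 :=
  Real.rpow_lt_one_of_one_lt_of_neg (by exact_mod_cast hp.one_lt) (by linarith)

lemma euler (A : Par) {κ : ℝ} (hκ : κ ≤ 1 / 4) (u : ℝ) (x : Om) :
    Summable (fun m : Nat.factoredNumbers A.U => ((m : ℕ) : ℝ) ^ (-(1 / 2 - κ))) ∧
    HasSum (fun m : Nat.factoredNumbers A.U => ((m : ℕ) : ℂ) ^ sk κ u * ch x m) (A.FU κ u x) := by
  obtain ⟨h1, h2⟩ := EulerProduct.summable_and_hasSum_factoredNumbers_prod_filter_prime_geometric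
    (f := fk κ u hκ x) (fun {p} hp => by
      change ‖(p : ℂ) ^ sk κ u * ch x p‖ < 1
      rw [norm_mul, norm_ch, mul_one, norm_cpow_sk hp.ne_zero]
      exact prime_rpow_lt hp hκ) A.U
  constructor
  · refine h1.congr fun m => ?_
    change ‖((m : ℕ) : ℂ) ^ sk κ u * ch x m‖ = _
    rw [norm_mul, norm_ch, mul_one, norm_cpow_sk (Nat.ne_zero_of_mem_factoredNumbers m.2)]
  · rw [Finset.filter_true_of_mem fun p hp => U_prime A hp] at h2
    have e : A.FU κ u x = ∏ p ∈ A.U, (1 - fk κ u hκ x p)⁻¹ := by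
      unfold Par.FU
      refine Finset.prod_congr rfl fun p hp => ?_
      change _ = (1 - (p : ℂ) ^ sk κ u * ch x p)⁻¹
      rw [ch_prime x (U_prime A hp)]
      rfl
    rw [e]
    exact h2

lemma continuous_cpow {m : ℕ} (hm : m ≠ 0) (κ : ℝ) : Continuous fun u : ℝ => (m : ℂ) ^ sk κ u := by
  have hm' : (m : ℂ) ≠ 0 := by exact_mod_cast hm
  simp only [Complex.cpow_def_of_ne_zero hm']
  unfold sk
  fun_prop

lemma hasSum_part (A : Par) {l : ℕ} {ρ K : ℝ → ℂ} {κ : ℝ} (hκ : κ ≤ 1 / 4) (hK : Integrable K)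
    (hrep : ∀ ξ : ℝ, 0 ≤ ξ → ρ (Real.log l + ξ)
      = Real.exp (κ * ξ) * ∫ u, K u * cexp (-(I * u * ξ))) (x : Om) :
    HasSum (fun m : Nat.factoredNumbers A.U => ρ (Real.log l + Real.log (m : ℕ))
      * (((m : ℕ) : ℂ) ^ (-(1 / 2) : ℂ) * ch x m)) (∫ u, K u * A.FU κ u x) := by
  have hnorm : ∀ (m : Nat.factoredNumbers A.U) (u : ℝ),
      ‖K u * (((m : ℕ) : ℂ) ^ sk κ u * ch x m)‖ = ‖K u‖ * ((m : ℕ) : ℝ) ^ (-(1 / 2 - κ)) := by
    intro m u
    rw [norm_mul, norm_mul, norm_ch, mul_one,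
      norm_cpow_sk (Nat.ne_zero_of_mem_factoredNumbers m.2)]
  have hint : ∀ m : Nat.factoredNumbers A.U, Integrable fun u : ℝ =>
      K u * (((m : ℕ) : ℂ) ^ sk κ u * ch x m) := by
    intro m
    refine (hK.norm.mul_const (((m : ℕ) : ℝ) ^ (-(1 / 2 - κ)))).mono' ?_
      (Eventually.of_forall fun u => (hnorm m u).le)
    exact hK.aestronglyMeasurable.mul (((continuous_cpow
      (Nat.ne_zero_of_mem_factoredNumbers m.2) κ).mul continuous_const).aestronglyMeasurable)
  have hsum : Summable fun m : Nat.factoredNumbers A.U => ∫ u : ℝ,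
      ‖K u * (((m : ℕ) : ℂ) ^ sk κ u * ch x m)‖ := by
    simp only [hnorm, integral_mul_const]
    exact (euler A hκ 0 x).1.mul_left _
  have h := hasSum_integral_of_summable_integral_norm hint hsum
  have e1 : ∀ u : ℝ, ∑' m : Nat.factoredNumbers A.U,
      K u * (((m : ℕ) : ℂ) ^ sk κ u * ch x m) = K u * A.FU κ u x := fun u =>
    ((euler A hκ u x).2.mul_left _).tsum_eq
  simp only [e1] at h
  have e2 : ∀ m : Nat.factoredNumbers A.U, ∫ u : ℝ,
      K u * (((m : ℕ) : ℂ) ^ sk κ u * ch x m)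
      = ρ (Real.log l + Real.log (m : ℕ)) * (((m : ℕ) : ℂ) ^ (-(1 / 2) : ℂ) * ch x m) := by
    intro m
    have hm0 := Nat.ne_zero_of_mem_factoredNumbers m.2
    have hlog : 0 ≤ Real.log ((m : ℕ) : ℝ) :=
      Real.log_nonneg (by exact_mod_cast Nat.one_le_iff_ne_zero.2 hm0)
    have e3 : ∀ u : ℝ, K u * (((m : ℕ) : ℂ) ^ sk κ u * ch x m)
        = (((m : ℕ) : ℂ) ^ (-(1 / 2) : ℂ) * ch x m * (Real.exp (κ * Real.log (m : ℕ)) : ℝ))
          * (K u * cexp (-(I * u * (Real.log (m : ℕ) : ℝ)))) := by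
      intro u
      rw [cpow_sk hm0]
      ring
    simp only [e3]
    rw [integral_const_mul, hrep _ hlog]
    ring
  simp only [e2] at h
  exact h

end T0b

open T0b in
/-- T0b -/
theorem sKer : SKer := by
  classical
  intro A _ N l hl ρ K κ hκ hK hN hrep x
  have h1 := hasSum_part A hκ hK hrep x
  set f : ℕ → ℂ := fun m => ρ (Real.log l + Real.log m) * ((m : ℂ) ^ (-(1 / 2) : ℂ) * ch x m) with hf
  have h2 : HasSum ((Nat.factoredNumbers A.U).indicator f) (∫ u, K u * A.FU κ u x) := by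
    rw [← hasSum_subtype_iff_indicator]
    exact h1
  have h3 : HasSum ((Nat.factoredNumbers A.U).indicator f)
      (∑ m ∈ Smo A (N / l), (Nat.factoredNumbers A.U).indicator f m) := by
    refine hasSum_sum_of_ne_finset_zero fun m hm => ?_
    by_cases hmP : m ∈ Nat.factoredNumbers A.U
    · rw [Set.indicator_of_mem hmP, hf]
      have hm0 := Nat.ne_zero_of_mem_factoredNumbers hmP
      have hmN : N < l * m := by
        by_contra hc
        refine hm ?_
        unfold Smo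
        rw [Finset.mem_filter, Finset.mem_Icc, Nat.le_div_iff_mul_le hl]
        refine ⟨⟨by omega, by rw [mul_comm]; omega⟩, fun p hp => ?_⟩
        exact (Nat.mem_factoredNumbers.1 hmP).2 p
          (Nat.mem_primeFactors_iff_mem_primeFactorsList.1 hp)
      have h4 := hN (l * m) hmN
      rw [Nat.cast_mul, Real.log_mul (by exact_mod_cast (by omega : l ≠ 0))
        (by exact_mod_cast hm0)] at h4
      simp only
      rw [h4, zero_mul]
    · exact Set.indicator_of_notMem hmP f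
  rw [h2.unique h3]
  unfold Sl
  refine Finset.sum_congr rfl fun m hm => ?_
  have hmP : m ∈ Nat.factoredNumbers A.U := by
    unfold Smo at hm
    rw [Finset.mem_filter, Finset.mem_Icc] at hm
    refine Nat.mem_factoredNumbers.2 ⟨by omega, fun p hp => ?_⟩
    exact hm.2 p (Nat.mem_primeFactors_iff_mem_primeFactorsList.2 hp)
  rw [Set.indicator_of_mem hmP]

end Pool.Agent.Lib.G2
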