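import Mathlib
import Pool.Agent.Lib.MP_f9aece_nt_g2.Stmts
import Pool.Agent.Lib.MP_f9aece_nt_gt.Cont

/-!
The law of `log |zeta|` under the measure `|zeta| ^ 2`, module T1: the Euler products under the tilt.
-/

set_option autoImplicit false

namespace Pool.Agent.Lib.G2.T1

open MeasureTheory Set Filter Topology Complex ProbabilityTheory
open scoped ComplexConjugate
open Pool.Agent.Lib.MP_f9aece_nt (VV)
open Pool.Agent.Lib.J4 (V2)
open Pool.Agent.Lib.GT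

/-! ### continuity of the weights -/

lemma bpos {A : Par} (hA : A.Ok) : 0 < A.b := hA.hbe.trans_le hA.hbb

lemma sg_sq {A : Par} (hA : A.Ok) : A.sg ^ 2 = 1 := by
  rcases hA.hsg with h | h <;> rw [h] <;> norm_num

lemma abs_sg {A : Par} (hA : A.Ok) : |A.sg| = 1 := by
  rcases hA.hsg with h | h <;> rw [h] <;> norm_num

lemma cont_zz (A : Par) : Continuous A.zz := by
  unfold Par.zz
  fun_prop

lemma norm_zz_le {A : Par} (hA : A.Ok) {η : ℝ} (h : |η| ≤ 1 / 2) : ‖A.zz η‖ ≤ 1 / 20 := by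
  have h1 := hA.hbe
  have h2 := hA.hbb
  have h3 := hA.hb
  have hb0 := bpos hA
  unfold Par.zz
  refine (norm_add_le _ _).trans ?_
  have e1' : ‖(A.be / 2 : ℂ)‖ = A.be / 2 := by
    rw [norm_div, Complex.norm_real, Real.norm_of_nonneg h1.le, Complex.norm_ofNat]
  have e2' : ‖I * (A.b * η : ℂ)‖ = A.b * |η| := by
    rw [norm_mul, Complex.norm_I, one_mul, norm_mul, Complex.norm_real, Complex.norm_real,
      Real.norm_of_nonneg hb0.le, Real.norm_eq_abs]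
  rw [e1', e2']
  nlinarith [abs_nonneg η]

lemma norm_sz_le {A : Par} (hA : A.Ok) {η : ℝ} (h : |η| ≤ 1 / 2) : ‖A.sz η‖ ≤ 1 / 20 := by
  unfold Par.sz
  rw [norm_mul, Complex.norm_real, Real.norm_eq_abs, abs_sg hA, one_mul]
  exact norm_zz_le hA h

lemma cont_P (A : Par) (g : ℕ) : Continuous (A.P g) := continuous_lin _ _

lemma cont_mo (A : Par) (μ : ℂ) (s : Finset ℕ) : Continuous (A.mo μ s) := by
  unfold Par.mo
  exact continuous_finsetProd _ fun g _ => (continuous_tex _).comp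
    (continuous_const.mul (cont_P A g))

/-- the integrand of `q` -/
noncomputable def qi (A : Par) (s : Finset ℕ) (y : ℝ) (x : Om) (η : ℝ) : ℂ :=
  (phi η : ℂ) * (cexp (-(A.zz η * y)) *
    ∏ g ∈ Finset.range A.J \ s, tex (KK (A.r g)) (A.sz η * ((A.P g x).re : ℂ)))

lemma q_eq (A : Par) (s : Finset ℕ) (y : ℝ) (x : Om) : A.q s y x = ∫ η, qi A s y x η ∂me := rfl

lemma cont_qi (A : Par) (s : Finset ℕ) (y : ℝ) :
    Continuous fun w : Om × ℝ => qi A s y w.1 w.2 := by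
  unfold qi
  refine Continuous.mul ?_ (Continuous.mul ?_ ?_)
  · exact Complex.continuous_ofReal.comp (continuous_phi.comp continuous_snd)
  · refine Complex.continuous_exp.comp (Continuous.neg (Continuous.mul ?_ continuous_const))
    exact (cont_zz A).comp continuous_snd
  · refine continuous_finsetProd _ fun g _ => (continuous_tex _).comp (Continuous.mul ?_ ?_)
    · unfold Par.sz
      exact continuous_const.mul ((cont_zz A).comp continuous_snd)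
    · exact Complex.continuous_ofReal.comp (Complex.continuous_re.comp
        ((cont_P A g).comp continuous_fst))

/-- uniform bound of the integrand of `q` -/
lemma norm_qi_le {A : Par} (hA : A.Ok) (s : Finset ℕ) (y : ℝ) (x : Om) {η : ℝ}
    (hη : |η| ≤ 1 / 2) : ‖qi A s y x η‖ ≤ Real.exp |y|
        * ∏ g ∈ Finset.range A.J \ s, Real.exp (∑ p ∈ A.S g, ‖(A.h p : ℂ)‖) := by
  have hz := norm_zz_le hA hη
  have hz' := norm_sz_le hA hη
  unfold qi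
  rw [norm_mul, norm_mul, norm_prod, Complex.norm_real, Real.norm_eq_abs]
  have h6 := abs_phi_le hη
  have h7 : ‖cexp (-(A.zz η * y))‖ ≤ Real.exp |y| := by
    rw [Complex.norm_exp]
    refine Real.exp_le_exp.mpr ((Complex.re_le_norm _).trans ?_)
    rw [norm_neg, norm_mul, Complex.norm_real, Real.norm_eq_abs]
    nlinarith [abs_nonneg y]
  have h8 : ∏ g ∈ Finset.range A.J \ s, ‖tex (KK (A.r g)) (A.sz η * ((A.P g x).re : ℂ))‖
      ≤ ∏ g ∈ Finset.range A.J \ s, Real.exp (∑ p ∈ A.S g, ‖(A.h p : ℂ)‖) := by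
    refine Finset.prod_le_prod (fun g _ => norm_nonneg _) fun g _ => ?_
    refine (norm_tex_le _ _).trans (Real.exp_le_exp.mpr ?_)
    rw [norm_mul, Complex.norm_real, Real.norm_eq_abs]
    have h9 := Complex.abs_re_le_norm (A.P g x)
    have h10 := norm_lin_le (A.S g) (fun p => (A.h p : ℂ)) x
    have h11 : |(A.P g x).re| ≤ ∑ p ∈ A.S g, ‖(A.h p : ℂ)‖ := h9.trans h10
    nlinarith [abs_nonneg (A.P g x).re, norm_nonneg (A.sz η)]
  calc |phi η| * (‖cexp (-(A.zz η * y))‖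
        * ∏ g ∈ Finset.range A.J \ s, ‖tex (KK (A.r g)) (A.sz η * ((A.P g x).re : ℂ))‖)
      ≤ 1 * (Real.exp |y| * ∏ g ∈ Finset.range A.J \ s,
          Real.exp (∑ p ∈ A.S g, ‖(A.h p : ℂ)‖)) := by gcongr
    _ = _ := one_mul _

lemma cont_q {A : Par} (hA : A.Ok) (s : Finset ℕ) (y : ℝ) : Continuous fun x : Om => A.q s y x := by
  have hqi := cont_qi A s y
  refine continuous_of_dominated (F := fun (x : Om) (η : ℝ) => qi A s y x η) (μ := me)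
    (bound := fun _ => Real.exp |y|
        * ∏ g ∈ Finset.range A.J \ s, Real.exp (∑ p ∈ A.S g, ‖(A.h p : ℂ)‖)) ?_ ?_
    (integrable_const _) ?_
  · intro x
    refine Continuous.aestronglyMeasurable ?_
    exact hqi.comp (f := fun η : ℝ => ((x, η) : Om × ℝ)) (by fun_prop)
  · intro x
    exact ae_me fun η hη => norm_qi_le hA s y x hη
  · refine Eventually.of_forall fun η => ?_
    exact hqi.comp (f := fun x : Om => ((x, η) : Om × ℝ)) (by fun_prop)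

lemma cont_bb (A : Par) (g : ℕ) : Continuous (A.bb g) := continuous_bp _ _ _

/-- the weights are continuous on the torus -/
lemma cont_Wg {A : Par} (hA : A.Ok) (s s' : Finset ℕ) (y : ℝ) :
    Continuous fun x : Om => A.Wg s s' y x := by
  unfold Par.Wg
  exact (continuous_const.mul (continuous_finsetProd _ fun g _ => cont_bb A g)).mul
    ((cont_q hA s y).norm.pow 2)

lemma cont_W {A : Par} (hA : A.Ok) (s : Finset ℕ) (y : ℝ) : Continuous fun x : Om => A.W s y x :=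
  cont_Wg hA s s y

lemma bb_nonneg (A : Par) (g : ℕ) (x : Om) : 0 ≤ A.bb g x := Par.bp_nonneg _ _ _ _

lemma Wg_nonneg {A : Par} (hA : A.Ok) (s s' : Finset ℕ) (y : ℝ) (x : Om) : 0 ≤ A.Wg s s' y x := by
  unfold Par.Wg
  have := Par.c0_nonneg
  have := (bpos hA).le
  exact mul_nonneg (mul_nonneg (by positivity) (Finset.prod_nonneg fun g _ => bb_nonneg A g x))
    (by positivity)

lemma W_nonneg {A : Par} (hA : A.Ok) (s : Finset ℕ) (y : ℝ) (x : Om) : 0 ≤ A.W s y x :=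
  Wg_nonneg hA s s y x

/-- upper bound for the weights, uniform on the torus -/
lemma Wg_le {A : Par} (hA : A.Ok) (s s' : Finset ℕ) (y : ℝ) : ∃ B : ℝ, ∀ x, A.Wg s s' y x ≤ B := by
  have hb := bpos hA
  have h1 : ∀ g, ∃ B : ℝ, ∀ x, A.bb g x ≤ B := by
    intro g
    refine ⟨((∑ p ∈ A.S g, ‖(A.h p : ℂ)‖) / RR (A.r g)) ^ (2 * MM (A.r g)), fun x => ?_⟩
    unfold Par.bb bp
    have h2 := norm_lin_le (A.S g) (fun p => (A.h p : ℂ)) x
    have h3 : 0 ≤ RR (A.r g) := by unfold RR; positivity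
    gcongr
  choose B hB using h1
  have h4 : ∃ B' : ℝ, ∀ x, ‖A.q s y x‖ ≤ B' := by
    refine ⟨Real.exp |y| * ∏ g ∈ Finset.range A.J \ s, Real.exp (∑ p ∈ A.S g, ‖(A.h p : ℂ)‖),
      fun x => ?_⟩
    rw [q_eq]
    have h12 := norm_integral_le_of_norm_le_const (μ := me)
      (ae_me fun η hη => norm_qi_le hA s y x hη)
    simpa using h12
  obtain ⟨B', hB'⟩ := h4
  refine ⟨A.b / c0 * (∏ g ∈ s', B g) * B' ^ 2, fun x => ?_⟩
  unfold Par.Wg
  have hc := Par.c0_nonneg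
  have h5 : ∏ g ∈ s', A.bb g x ≤ ∏ g ∈ s', B g :=
    Finset.prod_le_prod (fun g _ => bb_nonneg A g x) fun g _ => hB g x
  have h6 : 0 ≤ ∏ g ∈ s', A.bb g x := Finset.prod_nonneg fun g _ => bb_nonneg A g x
  have h7 := hB' x
  have h8 : 0 ≤ ∏ g ∈ s', B g := h6.trans h5
  gcongr

lemma W_le {A : Par} (hA : A.Ok) (s : Finset ℕ) (y : ℝ) : ∃ B : ℝ, ∀ x, A.W s y x ≤ B :=
  Wg_le hA s s y

/-! ### data -/

lemma mem_U {A : Par} (hA : A.Ok) {p : ℕ} (hp : p ∈ A.U) :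
    p.Prime ∧ A.p0 < p ∧ (p : ℝ) ≤ Real.exp A.Y := by
  unfold Par.U at hp
  rw [Finset.mem_biUnion] at hp
  obtain ⟨g, -, h⟩ := hp
  unfold Par.S at h
  rw [Finset.mem_filter, Finset.mem_Icc] at h
  obtain ⟨⟨h1, h2⟩, h3, h4, -⟩ := h
  refine ⟨h3, h4, ?_⟩
  have h5 : (p : ℝ) ≤ Real.exp (A.Yf g) :=
    (Nat.le_floor_iff (Real.exp_nonneg _)).mp h2
  refine h5.trans (Real.exp_le_exp.mpr ?_)
  unfold Par.Yf
  have h6 : Real.exp (-((A.v : ℝ) * g)) ≤ 1 := by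
    rw [Real.exp_le_one_iff]
    have : 0 ≤ (A.v : ℝ) * g := by positivity
    linarith
  have h7 := hA.hY
  nlinarith

lemma h_nonneg (A : Par) (p : ℕ) : 0 ≤ A.h p := by unfold Par.h; positivity

lemma h_sq (A : Par) (p : ℕ) : A.h p ^ 2 = (p : ℝ)⁻¹ := by
  unfold Par.h
  rw [← Real.rpow_natCast, ← Real.rpow_mul (by positivity)]
  norm_num
  exact Real.rpow_neg_one _

/-- the data of a square -/
noncomputable def DD (g a b : ℕ → ℂ) : Dat :=
  ⟨g, fun p => conj (g p), a, fun p => conj (a p), b, fun p => conj (b p)⟩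

/-- half of the product -/
noncomputable def HR (S : Finset ℕ) (g a b : ℕ → ℂ) (x : Om) : ℂ :=
  cexp (∑ p ∈ S, g p * e1 (x p)) * ∏ p ∈ S, ((1 - a p * e1 (x p))⁻¹ * (1 - b p * e1 (x p))⁻¹)

lemma HF_DD (S : Finset ℕ) (g a b : ℕ → ℂ) (x : Om) :
    HF S (DD g a b) x = HR S g a b x * conj (HR S g a b x) := by
  unfold HF HR DD
  simp only
  rw [map_mul, map_prod, ← Complex.exp_conj, map_sum]
  have h1 : cexp (∑ p ∈ S, (g p * e1 (x p) + conj (g p) * conj (e1 (x p))))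
      = cexp (∑ p ∈ S, g p * e1 (x p)) * cexp (∑ p ∈ S, conj (g p * e1 (x p))) := by
    rw [← Complex.exp_add, ← Finset.sum_add_distrib]
    congr 1
    exact Finset.sum_congr rfl fun p _ => by rw [map_mul]
  have h2 : ∏ p ∈ S, (((1 - a p * e1 (x p))⁻¹ * (1 - conj (a p) * conj (e1 (x p)))⁻¹)
      * ((1 - b p * e1 (x p))⁻¹ * (1 - conj (b p) * conj (e1 (x p)))⁻¹))
      = (∏ p ∈ S, ((1 - a p * e1 (x p))⁻¹ * (1 - b p * e1 (x p))⁻¹))
        * ∏ p ∈ S, conj ((1 - a p * e1 (x p))⁻¹ * (1 - b p * e1 (x p))⁻¹) := by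
    rw [← Finset.prod_mul_distrib]
    refine Finset.prod_congr rfl fun p _ => ?_
    simp only [map_mul, map_inv₀, map_sub, map_one]
    ring
  rw [h1, h2]
  ring

lemma sab_DD (A : Par) (m : ℝ) (g a b β : ℕ → ℂ)
    (hβ : ∀ p ∈ A.U, (A.h p : ℂ) * m + g p + a p + b p = A.h p * β p) (z z' : ℂ) :
    sab A.U A.h z z' m m (DD g a b) = ∑ p ∈ A.U, ((A.h p ^ 2 : ℝ) : ℂ) *
      (((z + conj z') / 2 + β p) * ((z + conj z') / 2 + conj (β p))) := by
  unfold sab DD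
  simp only
  refine Finset.sum_congr rfl fun p hp => ?_
  have h1 := hβ p hp
  have h2 := congrArg conj h1
  simp only [map_add, map_mul, Complex.conj_ofReal] at h2
  have h3 : (A.h p : ℂ) * ((z + conj z') / 2 + m) + g p + a p
      = A.h p * ((z + conj z') / 2 + β p) - b p := by linear_combination h1
  have h4 : (A.h p : ℂ) * ((z + conj z') / 2 + conj (m : ℂ)) + conj (g p) + conj (a p)
      = A.h p * ((z + conj z') / 2 + conj (β p)) - conj (b p) := by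
    rw [Complex.conj_ofReal]
    linear_combination h2
  rw [h3, h4]
  push_cast
  ring

lemma sz_add {A : Par} (η η' : ℝ) : (A.sz η + conj (A.sz η')) / 2
    = ((A.sg * A.be / 2 : ℝ) : ℂ) + ((A.sg * (A.b * (η - η')) / 2 : ℝ) : ℂ) * I := by
  unfold Par.sz Par.zz
  simp only [map_mul, map_add, map_div₀, Complex.conj_ofReal, Complex.conj_I, map_ofNat]
  push_cast
  ring

lemma re_term {A : Par} (hA : A.Ok) (η η' : ℝ) (β : ℂ) :
    (((A.sz η + conj (A.sz η')) / 2 + β) * ((A.sz η + conj (A.sz η')) / 2 + conj β)).re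
      = (A.be ^ 2 - A.b ^ 2 * (η - η') ^ 2) / 4 + (A.sg * A.be * β.re + ‖β‖ ^ 2) := by
  rw [sz_add, Complex.sq_norm, Complex.normSq_apply]
  simp only [Complex.mul_re, Complex.add_re, Complex.add_im, Complex.ofReal_re, Complex.ofReal_im,
    Complex.I_re, Complex.I_im, Complex.mul_im, Complex.conj_re, Complex.conj_im]
  have h := sg_sq hA
  linear_combination (A.be ^ 2 / 4 - (A.b * (η - η')) ^ 2 / 4) * h

lemma sab_re {A : Par} (hA : A.Ok) (m : ℝ) (g a b β : ℕ → ℂ)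
    (hβ : ∀ p ∈ A.U, (A.h p : ℂ) * m + g p + a p + b p = A.h p * β p) (η η' : ℝ) :
    (sab A.U A.h (A.sz η) (A.sz η') m m (DD g a b)).re
      = (A.be ^ 2 - A.b ^ 2 * (η - η') ^ 2) * A.vt / 4
        + ∑ p ∈ A.U, A.h p ^ 2 * (A.sg * A.be * (β p).re + ‖β p‖ ^ 2) := by
  rw [sab_DD A m g a b β hβ, Complex.re_sum]
  simp_rw [Complex.re_ofReal_mul, re_term hA]
  unfold Par.vt
  rw [Finset.mul_sum, Finset.sum_div, ← Finset.sum_add_distrib]
  exact Finset.sum_congr rfl fun p _ => by ring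

lemma mo_eq (A : Par) (m : ℝ) (s : Finset ℕ) (x : Om) :
    A.mo m s x * conj (A.mo m s x) = ((‖A.mo m s x‖ ^ 2 : ℝ) : ℂ) := by
  rw [Complex.mul_conj']
  push_cast
  rfl

/-- **the second moment of an Euler product over the groups** -/
lemma core (hW : WBd) : ∃ C : ℝ, 0 ≤ C ∧ ∀ A : Par, A.Ok → ∀ m : ℝ, |m| ≤ 1 →
    ∀ g a b β : ℕ → ℂ, (DD g a b).Ok →
    (∀ p ∈ A.U, (A.h p : ℂ) * m + g p + a p + b p = A.h p * β p) → ∀ E : ℝ,
    ∑ p ∈ A.U, (p : ℝ)⁻¹ * (A.sg * A.be * ((β p).re - 1) + (‖β p‖ ^ 2 - 1)) ≤ E →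
    ∀ s s' : Finset ℕ, s ⊆ s' → s' ⊆ Finset.range A.J → ∀ y : ℝ,
    ∫ x, A.Wg s s' y x * (‖A.mo m s x‖ ^ 2 * ‖HR A.U g a b x‖ ^ 2) ∂mu
      ≤ C * Real.exp (-(2 * ∑ g ∈ s', (A.r g : ℝ))) * Real.exp E * (Real.exp A.vt * A.Gs y) := by
  obtain ⟨C, hC, H⟩ := hW
  refine ⟨C, hC, fun A hA m hm g a b β hD hβ E hE s s' hss hs y => ?_⟩
  have hsm : Small A 1 (fun _ => (1 : ℂ)) :=
    ⟨measurable_const, fun _ _ _ => rfl, fun x => by simp⟩
  have hm' : ‖(m : ℂ)‖ ≤ 1 := by rw [Complex.norm_real, Real.norm_eq_abs]; exact hm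
  set B : ℝ := ∑ p ∈ A.U, A.h p ^ 2 * (A.sg * A.be * (β p).re + ‖β p‖ ^ 2) with hB
  have hEB : ExpBd A m m (DD g a b) B := by
    intro η η' _ _
    rw [sab_re hA m g a b β hβ]
  have h1 := H A hA m m hm' hm' (DD g a b) hD B hEB 1 _ hsm y s s' hss hs
  have h2 : ∀ x, (A.Wg s s' y x : ℂ) * (A.mo m s x * conj (A.mo m s x)) *
      (HF A.U (DD g a b) x * 1) =
      ((A.Wg s s' y x * (‖A.mo m s x‖ ^ 2 * ‖HR A.U g a b x‖ ^ 2) : ℝ) : ℂ) := by
    intro x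
    rw [HF_DD, Complex.mul_conj', Complex.mul_conj']
    push_cast
    ring
  simp_rw [h2] at h1
  rw [integral_complex_ofReal, Complex.norm_real, Real.norm_eq_abs, mul_one] at h1
  refine ((le_abs_self _).trans h1).trans ?_
  have h3 : B = ∑ p ∈ A.U, (p : ℝ)⁻¹ * (A.sg * A.be * ((β p).re - 1) + (‖β p‖ ^ 2 - 1))
      + (A.vt + A.be * (A.sg * A.vt)) := by
    rw [hB]
    have h4 : A.vt + A.be * (A.sg * A.vt) = ∑ p ∈ A.U, (p : ℝ)⁻¹ * (1 + A.be * A.sg) := by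
      unfold Par.vt
      simp_rw [h_sq]
      rw [← Finset.sum_mul]
      ring
    rw [h4, ← Finset.sum_add_distrib]
    refine Finset.sum_congr rfl fun p _ => ?_
    rw [h_sq]
    ring
  have h5 : Real.exp B * A.G y ≤ Real.exp E * (Real.exp A.vt * A.Gs y) := by
    have h6 : A.Gs y = Real.exp (A.be * (A.sg * A.vt)) * A.G y := by
      unfold Par.Gs Par.G
      rw [mul_left_comm, ← Real.exp_add]
      congr 2
      ring
    have h7 : 0 ≤ A.G y := by unfold Par.G; positivity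
    rw [h6, h3, Real.exp_add, Real.exp_add]
    have h8 := Real.exp_le_exp.mpr hE
    have h9 : 0 ≤ Real.exp A.vt * Real.exp (A.be * (A.sg * A.vt)) * A.G y := by positivity
    nlinarith
  have h10 : 0 ≤ C * Real.exp (-(2 * ∑ g ∈ s', (A.r g : ℝ))) := by positivity
  calc C * Real.exp (-(2 * ∑ g ∈ s', (A.r g : ℝ))) * Real.exp B * A.G y
      = C * Real.exp (-(2 * ∑ g ∈ s', (A.r g : ℝ))) * (Real.exp B * A.G y) := by ring
    _ ≤ C * Real.exp (-(2 * ∑ g ∈ s', (A.r g : ℝ))) *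
        (Real.exp E * (Real.exp A.vt * A.Gs y)) := mul_le_mul_of_nonneg_left h5 h10
    _ = _ := by ring

/-! ### coefficients on the line -/

/-- coefficients on the critical line -/
noncomputable def a0 (u : ℝ) (p : ℕ) : ℂ := (p : ℂ) ^ (-(1 / 2 + I * u) : ℂ)

lemma norm_a0 (u : ℝ) {p : ℕ} (hp : 0 < p) : ‖a0 u p‖ = 1 / Real.sqrt p := by
  unfold a0
  rw [Complex.norm_natCast_cpow_of_pos hp]
  have : (-(1 / 2 + I * u) : ℂ).re = -(1 / 2) := by simp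
  rw [this, Real.rpow_neg (by positivity), ← Real.sqrt_eq_rpow, one_div]

lemma a0_le (u : ℝ) (p : ℕ) : ‖a0 u p‖ ≤ 1 / Real.sqrt p := by
  rcases Nat.eq_zero_or_pos p with rfl | hp
  · unfold a0
    rw [Nat.cast_zero, Complex.zero_cpow]
    · simp
    · intro h
      have := congrArg Complex.re h
      simp at this
  · exact (norm_a0 u hp).le

lemma a0_eq (A : Par) (u : ℝ) {p : ℕ} (hp : 0 < p) :
    a0 u p = A.h p * (p : ℂ) ^ (-(I * u) : ℂ) := by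
  have hp' : (p : ℂ) ≠ 0 := by exact_mod_cast hp.ne'
  unfold a0 Par.h
  rw [Complex.ofReal_cpow (by positivity), Complex.ofReal_natCast, ← Complex.cpow_add _ _ hp']
  congr 1
  push_cast
  ring

lemma norm_pu (u : ℝ) {p : ℕ} (hp : 0 < p) : ‖(p : ℂ) ^ (-(I * u) : ℂ)‖ = 1 := by
  rw [Complex.norm_natCast_cpow_of_pos hp]
  simp

/-- the trivial data are allowed -/
lemma okD {g a b : ℕ → ℂ} (hg : ∀ p : ℕ, ‖g p‖ ≤ 2 / Real.sqrt p)
    (ha : ∀ p : ℕ, ‖a p‖ ≤ 1 / Real.sqrt p) (hb : ∀ p : ℕ, ‖b p‖ ≤ 1 / Real.sqrt p) :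
    (DD g a b).Ok := by
  intro p
  simp only [DD, RCLike.norm_conj]
  exact ⟨hg p, hg p, ha p, ha p, hb p, hb p⟩

/-! ### the pointwise inequality -/

lemma one_add_le (z : ℂ) : ‖1 + z‖ ≤ Real.exp (z.re + ‖z‖ ^ 2 / 2) := by
  have h1 : ‖1 + z‖ ^ 2 ≤ Real.exp (2 * z.re + ‖z‖ ^ 2) := by
    have h2 : ‖1 + z‖ ^ 2 = 2 * z.re + ‖z‖ ^ 2 + 1 := by
      rw [Complex.sq_norm, Complex.sq_norm, Complex.normSq_apply, Complex.normSq_apply]
      simp only [Complex.add_re, Complex.add_im, Complex.one_re, Complex.one_im]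
      ring
    rw [h2]
    exact Real.add_one_le_exp _
  have h3 : Real.exp (2 * z.re + ‖z‖ ^ 2) = Real.exp (z.re + ‖z‖ ^ 2 / 2) ^ 2 := by
    rw [← Real.exp_nat_mul]
    congr 1
    push_cast
    ring
  rw [h3] at h1
  exact (pow_le_pow_iff_left₀ (norm_nonneg _) (Real.exp_nonneg _) two_ne_zero).mp h1

lemma pt1 {t : ℝ} (ht : 0 ≤ t) (ht3 : t ≤ 3) {w : ℂ} (hw : ‖w‖ ≤ 1 / 6) :
    ‖(1 - t * w)⁻¹‖ ≤ ‖cexp ((t - 1) * w) * (1 - w)⁻¹‖ * Real.exp (4 * |t ^ 2 - 1| * ‖w‖ ^ 2) := by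
  have hw0 := norm_nonneg w
  have htw : ‖(t : ℂ) * w‖ ≤ 1 / 2 := by
    rw [norm_mul, Complex.norm_real, Real.norm_of_nonneg ht]
    nlinarith
  have h1 : 1 / 2 ≤ ‖1 - (t : ℂ) * w‖ := by
    have h2 := norm_sub_norm_le (1 : ℂ) ((t : ℂ) * w)
    rw [norm_one] at h2
    linarith
  have h1' : (1 - (t : ℂ) * w) ≠ 0 := by
    intro h
    rw [h, norm_zero] at h1
    linarith
  have h3 : (1 - w) ≠ 0 := by
    intro h
    have h4 : w = 1 := by linear_combination -h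
    rw [h4, norm_one] at hw
    norm_num at hw
  have hinv : ‖(1 - (t : ℂ) * w)⁻¹‖ ≤ 2 := by
    rw [norm_inv, inv_le_comm₀ (by linarith) (by norm_num)]
    linarith
  set δ : ℝ := t - 1 with hδ
  set z : ℂ := δ * w * (1 - (t : ℂ) * w)⁻¹ with hz
  have h5 : (1 - (t : ℂ) * w)⁻¹ = (1 + z) * (1 - w)⁻¹ := by
    rw [hz, hδ]
    field_simp
    push_cast
    ring
  have h6 : z = δ * w + δ * t * w ^ 2 * (1 - (t : ℂ) * w)⁻¹ := by
    have h61 := mul_inv_cancel₀ h1'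
    rw [hz]
    linear_combination ((δ : ℂ) * w) * h61
  have h7 : z.re ≤ (δ * w : ℂ).re + |δ| * t * ‖w‖ ^ 2 * 2 := by
    rw [h6, Complex.add_re]
    have h8 := Complex.re_le_norm (δ * t * w ^ 2 * (1 - (t : ℂ) * w)⁻¹ : ℂ)
    have h9 : ‖(δ * t * w ^ 2 * (1 - (t : ℂ) * w)⁻¹ : ℂ)‖ ≤ |δ| * t * ‖w‖ ^ 2 * 2 := by
      rw [norm_mul, norm_mul, norm_mul, norm_pow, Complex.norm_real, Complex.norm_real,
        Real.norm_eq_abs, Real.norm_of_nonneg ht]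
      gcongr
    linarith
  have h10 : ‖z‖ ≤ 2 * |δ| * ‖w‖ := by
    rw [hz, norm_mul, norm_mul, Complex.norm_real, Real.norm_eq_abs]
    have : |δ| * ‖w‖ * ‖(1 - (t : ℂ) * w)⁻¹‖ ≤ |δ| * ‖w‖ * 2 := by gcongr
    linarith
  have h11 : ‖z‖ ^ 2 / 2 ≤ 2 * |δ| ^ 2 * ‖w‖ ^ 2 := by
    have h12 : ‖z‖ ^ 2 ≤ (2 * |δ| * ‖w‖) ^ 2 := pow_le_pow_left₀ (norm_nonneg _) h10 2
    nlinarith
  have h13 : |t ^ 2 - 1| = |δ| * (t + 1) := by
    rw [show t ^ 2 - 1 = δ * (t + 1) by rw [hδ]; ring, abs_mul, abs_of_nonneg (by linarith : 0 ≤ t + 1)]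
  have h14 : |δ| ≤ t + 1 := by
    rw [abs_le]
    constructor <;> rw [hδ] <;> linarith
  have h15 : z.re + ‖z‖ ^ 2 / 2 ≤ (δ * w : ℂ).re + 4 * |t ^ 2 - 1| * ‖w‖ ^ 2 := by
    rw [h13]
    have h16 : 2 * |δ| ^ 2 * ‖w‖ ^ 2 ≤ 2 * (|δ| * (t + 1)) * ‖w‖ ^ 2 := by
      have := abs_nonneg δ
      have h17 : |δ| ^ 2 ≤ |δ| * (t + 1) := by nlinarith
      nlinarith [sq_nonneg ‖w‖]
    have h18 : |δ| * t * ‖w‖ ^ 2 * 2 ≤ 2 * (|δ| * (t + 1)) * ‖w‖ ^ 2 := by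
      have h19 : 0 ≤ |δ| * ‖w‖ ^ 2 := by positivity
      nlinarith
    linarith
  rw [h5, norm_mul, norm_mul]
  have h20 : ‖cexp ((t - 1) * w)‖ = Real.exp ((δ * w : ℂ).re) := by
    rw [Complex.norm_exp, hδ]
    push_cast
    rfl
  rw [h20]
  have h21 := (one_add_le z).trans (Real.exp_le_exp.mpr h15)
  rw [Real.exp_add] at h21
  calc ‖1 + z‖ * ‖(1 - w)⁻¹‖
      ≤ (Real.exp (δ * w : ℂ).re * Real.exp (4 * |t ^ 2 - 1| * ‖w‖ ^ 2)) * ‖(1 - w)⁻¹‖ := by gcongr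
    _ = _ := by ring

/-! ### the Euler product -/

lemma e1_norm_mul (c : ℂ) (x : ℝ) : ‖c * e1 x‖ = ‖c‖ := by rw [norm_mul, norm_e1, mul_one]

lemma sqrt_ge {A : Par} (hA : A.Ok) {p : ℕ} (hp : p ∈ A.U) : 6 ≤ Real.sqrt p := by
  have h1 := (mem_U hA hp).2.1
  have h2 := hA.hp
  apply Real.le_sqrt_of_sq_le
  have : (1000 : ℝ) ≤ p := by exact_mod_cast (by omega : 1000 ≤ p)
  norm_num
  linarith

lemma a0_sixth {A : Par} (hA : A.Ok) (u : ℝ) {p : ℕ} (hp : p ∈ A.U) : ‖a0 u p‖ ≤ 1 / 6 := by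
  refine (a0_le u p).trans ?_
  have := sqrt_ge hA hp
  exact one_div_le_one_div_of_le (by norm_num) this

lemma cont_fac {c : ℂ} (hc : ‖c‖ < 1) (p : ℕ) : Continuous fun x : Om => (1 - c * e1 (x p))⁻¹ := by
  refine Continuous.inv₀ (continuous_const.sub (continuous_const.mul
    (continuous_e1.comp (continuous_apply p)))) fun x h => ?_
  have h1 : c * e1 (x p) = 1 := by linear_combination -h
  have h2 := congrArg norm h1
  rw [e1_norm_mul, norm_one] at h2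
  linarith

lemma fac_le {c : ℂ} (hc : ‖c‖ ≤ 1 / 2) (x : ℝ) : ‖(1 - c * e1 x)⁻¹‖ ≤ 2 := by
  have h1 : 1 / 2 ≤ ‖1 - c * e1 x‖ := by
    have h2 := norm_sub_norm_le (1 : ℂ) (c * e1 x)
    rw [norm_one, e1_norm_mul] at h2
    linarith
  rw [norm_inv, inv_le_comm₀ (by linarith) (by norm_num)]
  linarith

/-- the products are continuous and bounded -/
lemma HR_bd (S : Finset ℕ) {g a b : ℕ → ℂ} (ha : ∀ p ∈ S, ‖a p‖ ≤ 1 / 2) (hb : ∀ p ∈ S, ‖b p‖ ≤ 1 / 2) :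
    Continuous (HR S g a b) ∧ ∃ B : ℝ, ∀ x, ‖HR S g a b x‖ ≤ B := by
  refine ⟨?_, Real.exp (∑ p ∈ S, ‖g p‖) * ∏ _p ∈ S, (2 * 2), fun x => ?_⟩
  · unfold HR
    refine Continuous.mul ?_ ?_
    · exact Complex.continuous_exp.comp (continuous_finsetSum _ fun p _ =>
        continuous_const.mul (continuous_e1.comp (continuous_apply p)))
    · refine continuous_finsetProd _ fun p hp => ?_
      exact (cont_fac ((ha p hp).trans_lt (by norm_num)) p).mul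
        (cont_fac ((hb p hp).trans_lt (by norm_num)) p)
  · unfold HR
    rw [norm_mul, norm_prod]
    refine mul_le_mul ?_ ?_ (Finset.prod_nonneg fun p _ => norm_nonneg _) (Real.exp_nonneg _)
    · rw [Complex.norm_exp]
      refine Real.exp_le_exp.mpr ((Complex.re_le_norm _).trans ((norm_sum_le _ _).trans ?_))
      exact le_of_eq (Finset.sum_congr rfl fun p _ => e1_norm_mul _ _)
    · refine Finset.prod_le_prod (fun p _ => norm_nonneg _) fun p hp => ?_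
      rw [norm_mul]
      exact mul_le_mul (fac_le (ha p hp) _) (fac_le (hb p hp) _) (norm_nonneg _) (by norm_num)

lemma mo_bd (A : Par) (μ : ℂ) (s : Finset ℕ) : ∃ B : ℝ, ∀ x, ‖A.mo μ s x‖ ≤ B := by
  refine ⟨∏ g ∈ Finset.range A.J \ s, Real.exp (‖μ‖ * ∑ p ∈ A.S g, ‖(A.h p : ℂ)‖), fun x => ?_⟩
  unfold Par.mo
  rw [norm_prod]
  refine Finset.prod_le_prod (fun g _ => norm_nonneg _) fun g _ => ?_
  refine (norm_tex_le _ _).trans (Real.exp_le_exp.mpr ?_)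
  rw [norm_mul]
  exact mul_le_mul_of_nonneg_left (norm_lin_le (A.S g) (fun p => (A.h p : ℂ)) x) (norm_nonneg _)

/-- integrability of the products -/
lemma int_core {A : Par} (hA : A.Ok) (s s' : Finset ℕ) (y m : ℝ) {g a b : ℕ → ℂ}
    (ha : ∀ p ∈ A.U, ‖a p‖ ≤ 1 / 2) (hb : ∀ p ∈ A.U, ‖b p‖ ≤ 1 / 2) :
    Integrable (fun x => A.Wg s s' y x * (‖A.mo m s x‖ ^ 2 * ‖HR A.U g a b x‖ ^ 2)) mu := by
  obtain ⟨hc, B1, h1⟩ := HR_bd A.U (g := g) ha hb
  obtain ⟨B2, h2⟩ := mo_bd A m s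
  obtain ⟨B3, h3⟩ := Wg_le hA s s' y
  have hcont : Continuous (fun x => A.Wg s s' y x * (‖A.mo m s x‖ ^ 2 * ‖HR A.U g a b x‖ ^ 2)) :=
    (cont_Wg hA s s' y).mul (((cont_mo A m s).norm.pow 2).mul (hc.norm.pow 2))
  refine Integrable.mono' (integrable_const (B3 * (B2 ^ 2 * B1 ^ 2))) hcont.aestronglyMeasurable
    (Eventually.of_forall fun x => ?_)
  have hW := Wg_nonneg hA s s' y x
  rw [Real.norm_eq_abs, abs_of_nonneg (by positivity)]
  have e1' := h1 x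
  have e2' := h2 x
  have e3' := h3 x
  have e4 := hW.trans e3'
  have e5 := norm_nonneg (A.mo m s x)
  gcongr

lemma mo_zero (A : Par) (s : Finset ℕ) (x : Om) : A.mo ((0 : ℝ) : ℂ) s x = 1 := by
  unfold Par.mo
  refine Finset.prod_eq_one fun g _ => ?_
  unfold tex
  rw [Complex.ofReal_zero, zero_mul, Finset.sum_range_succ']
  simp

/-- the size of `p ^ κ` -/
lemma pk_le {A : Par} (hA : A.Ok) {κ : ℝ} (hκ : |κ| ≤ 1 / A.Y) {p : ℕ} (hp : p ∈ A.U) :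
    (p : ℝ) ^ κ ≤ 3 := by
  obtain ⟨h1, -, h2⟩ := mem_U hA hp
  have h3 : (0 : ℝ) < p := by exact_mod_cast h1.pos
  have h4 : 1 ≤ (p : ℝ) := by exact_mod_cast h1.one_lt.le
  have hY : 0 < A.Y := by linarith [hA.hY]
  rw [Real.rpow_def_of_pos h3]
  have h5 : Real.log p ≤ A.Y := by
    rw [Real.log_le_iff_le_exp h3]
    exact h2
  have h6 : Real.log p * κ ≤ 1 := by
    have h7 := Real.log_nonneg h4
    have h8 : Real.log p * κ ≤ A.Y * (1 / A.Y) :=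
      (mul_le_mul_of_nonneg_left (le_abs_self κ) h7).trans
        (mul_le_mul h5 hκ (abs_nonneg _) hY.le)
    rw [mul_one_div_cancel hY.ne'] at h8
    exact h8
  refine (Real.exp_le_exp.mpr h6).trans ?_
  have := Real.exp_one_lt_d9
  linarith

/-- the exponent for the shifted product -/
noncomputable def gk (A : Par) (κ u : ℝ) (p : ℕ) : ℂ :=
  if p ∈ A.U then (((p : ℝ) ^ κ - 1 : ℝ) : ℂ) * a0 u p else 0

lemma gk_le {A : Par} (hA : A.Ok) {κ : ℝ} (hκ : |κ| ≤ 1 / A.Y) (u : ℝ) (p : ℕ) :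
    ‖gk A κ u p‖ ≤ 2 / Real.sqrt p := by
  unfold gk
  split_ifs with hp
  · have h1 := pk_le hA hκ hp
    have h2 : 0 ≤ (p : ℝ) ^ κ := by positivity
    rw [norm_mul, Complex.norm_real, Real.norm_eq_abs]
    have h3 : |(p : ℝ) ^ κ - 1| ≤ 2 := by
      rw [abs_le]
      constructor <;> linarith
    have h4 := a0_le u p
    calc |(p : ℝ) ^ κ - 1| * ‖a0 u p‖ ≤ 2 * (1 / Real.sqrt p) :=
          mul_le_mul h3 h4 (norm_nonneg _) (by norm_num)
      _ = 2 / Real.sqrt p := by ring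
  · rw [norm_zero]
    positivity

lemma FU_term {κ u : ℝ} {p : ℕ} (hp : 0 < p) :
    (p : ℂ) ^ (-(1 / 2 - κ + I * u) : ℂ) = (((p : ℝ) ^ κ : ℝ) : ℂ) * a0 u p := by
  have hp' : (p : ℂ) ≠ 0 := by exact_mod_cast hp.ne'
  unfold a0
  rw [Complex.ofReal_cpow (by positivity), Complex.ofReal_natCast, ← Complex.cpow_add _ _ hp']
  congr 1
  ring

lemma FU_le {A : Par} (hA : A.Ok) {κ : ℝ} (hκ : |κ| ≤ 1 / A.Y) (u : ℝ) (x : Om) :
    ‖A.FU κ u x‖ ≤ ‖HR A.U (gk A κ u) (a0 u) (fun _ => 0) x‖ *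
      Real.exp (4 * ∑ p ∈ A.U, (p : ℝ)⁻¹ * |(p : ℝ) ^ (2 * κ) - 1|) := by
  have h1 : HR A.U (gk A κ u) (a0 u) (fun _ => 0) x = ∏ p ∈ A.U,
      (cexp (((((p : ℝ) ^ κ : ℝ) : ℂ) - 1) * (a0 u p * e1 (x p))) * (1 - a0 u p * e1 (x p))⁻¹) := by
    unfold HR
    rw [Complex.exp_sum, ← Finset.prod_mul_distrib]
    refine Finset.prod_congr rfl fun p hp => ?_
    unfold gk
    rw [if_pos hp, zero_mul, sub_zero, inv_one, mul_one]
    congr 2
    push_cast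
    ring
  rw [h1, Finset.mul_sum, Real.exp_sum, norm_prod, ← Finset.prod_mul_distrib]
  unfold Par.FU
  rw [norm_prod]
  refine Finset.prod_le_prod (fun p _ => norm_nonneg _) fun p hp => ?_
  have hpp := (mem_U hA hp).1.pos
  have h2 := pt1 (t := (p : ℝ) ^ κ) (by positivity) (pk_le hA hκ hp) (w := a0 u p * e1 (x p))
    (by rw [e1_norm_mul]; exact a0_sixth hA u hp)
  rw [FU_term hpp]
  have h3 : (((p : ℝ) ^ κ : ℝ) : ℂ) * a0 u p * e1 (x p)
      = (((p : ℝ) ^ κ : ℝ) : ℂ) * (a0 u p * e1 (x p)) := by ring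
  rw [h3]
  refine h2.trans (le_of_eq ?_)
  congr 2
  rw [e1_norm_mul, norm_a0 u hpp, div_pow, one_pow, Real.sq_sqrt (by positivity)]
  have h4 : ((p : ℝ) ^ κ) ^ 2 = (p : ℝ) ^ (2 * κ) := by
    rw [← Real.rpow_natCast, ← Real.rpow_mul (by positivity)]
    congr 1
    push_cast
    ring
  rw [h4]
  ring

/-- the coefficients -/
noncomputable def bk (κ u : ℝ) (p : ℕ) : ℂ := (((p : ℝ) ^ κ : ℝ) : ℂ) * (p : ℂ) ^ (-(I * u) : ℂ)

lemma bk_eq {A : Par} (hA : A.Ok) (κ u : ℝ) {p : ℕ} (hp : p ∈ A.U) :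
    (A.h p : ℂ) * ((0 : ℝ) : ℂ) + gk A κ u p + a0 u p + 0 = A.h p * bk κ u p := by
  unfold gk bk
  rw [if_pos hp, a0_eq A u (mem_U hA hp).1.pos]
  push_cast
  ring

lemma norm_bk {A : Par} (hA : A.Ok) (κ u : ℝ) {p : ℕ} (hp : p ∈ A.U) :
    ‖bk κ u p‖ = (p : ℝ) ^ κ := by
  unfold bk
  rw [norm_mul, norm_pu u (mem_U hA hp).1.pos, Complex.norm_real, mul_one,
    Real.norm_of_nonneg (by positivity)]

lemma re_bk {A : Par} (hA : A.Ok) {κ : ℝ} (hκ : |κ| ≤ 1 / A.Y) (u : ℝ) {p : ℕ} (hp : p ∈ A.U) :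
    |(bk κ u p).re - 1| ≤ |(p : ℝ) ^ κ - 1| + 3 * ‖(p : ℂ) ^ (-(I * u) : ℂ) - 1‖ := by
  have h1 : |(bk κ u p).re - 1| ≤ ‖bk κ u p - 1‖ := by
    have := Complex.abs_re_le_norm (bk κ u p - 1)
    rwa [Complex.sub_re, Complex.one_re] at this
  refine h1.trans ?_
  have h2 : bk κ u p - 1 = (((p : ℝ) ^ κ - 1 : ℝ) : ℂ)
      + (((p : ℝ) ^ κ : ℝ) : ℂ) * ((p : ℂ) ^ (-(I * u) : ℂ) - 1) := by
    unfold bk
    push_cast
    ring
  rw [h2]
  refine (norm_add_le _ _).trans ?_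
  rw [norm_mul, Complex.norm_real, Complex.norm_real, Real.norm_eq_abs,
    Real.norm_of_nonneg (by positivity)]
  have h3 := mul_le_mul_of_nonneg_right (pk_le hA hκ hp)
    (norm_nonneg ((p : ℂ) ^ (-(I * u) : ℂ) - 1))
  linarith

/-- the bound for the exponent -/
lemma exp_bk {A : Par} (hA : A.Ok) {C : ℝ} (hC : 0 ≤ C)
    (P2 : ∀ u : ℝ, ∑ p ∈ A.U, (p : ℝ)⁻¹ * ‖(p : ℂ) ^ (-(I * u) : ℂ) - 1‖
      ≤ 2 * Real.log (1 + A.Y * |u|) + C)
    (P3 : ∀ κ : ℝ, |κ| ≤ 1 / A.Y → ∑ p ∈ A.U, (p : ℝ)⁻¹ * |(p : ℝ) ^ κ - 1| ≤ C ∧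
      ∑ p ∈ A.U, (p : ℝ)⁻¹ * |(p : ℝ) ^ (2 * κ) - 1| ≤ C) {κ : ℝ} (hκ : |κ| ≤ 1 / A.Y) (u : ℝ) :
    ∑ p ∈ A.U, (p : ℝ)⁻¹ * (A.sg * A.be * ((bk κ u p).re - 1) + (‖bk κ u p‖ ^ 2 - 1))
      ≤ 2 * C + 3 * Real.log (1 + A.Y * |u|) := by
  have hY : 0 < A.Y := by linarith [hA.hY]
  have hlog : 0 ≤ Real.log (1 + A.Y * |u|) := Real.log_nonneg (by
    have : 0 ≤ A.Y * |u| := by positivity
    linarith)
  obtain ⟨q1, q2⟩ := P3 κ hκ
  have q3 := P2 u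
  have hbe := hA.hbe
  have hbe2 : A.be ≤ 1 / 20 := hA.hbb.trans hA.hb
  have h1 : ∀ p ∈ A.U, (p : ℝ)⁻¹ * (A.sg * A.be * ((bk κ u p).re - 1) + (‖bk κ u p‖ ^ 2 - 1))
      ≤ A.be * ((p : ℝ)⁻¹ * |(p : ℝ) ^ κ - 1|)
        + A.be * (3 * ((p : ℝ)⁻¹ * ‖(p : ℂ) ^ (-(I * u) : ℂ) - 1‖))
        + (p : ℝ)⁻¹ * |(p : ℝ) ^ (2 * κ) - 1| := by
    intro p hp
    have hp0 : (0 : ℝ) ≤ (p : ℝ)⁻¹ := by positivity
    have h2 : A.sg * A.be * ((bk κ u p).re - 1) ≤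
        A.be * (|(p : ℝ) ^ κ - 1| + 3 * ‖(p : ℂ) ^ (-(I * u) : ℂ) - 1‖) := by
      refine (le_abs_self _).trans ?_
      rw [abs_mul, abs_mul, abs_sg hA, one_mul, abs_of_pos hbe]
      exact mul_le_mul_of_nonneg_left (re_bk hA hκ u hp) hbe.le
    have h3 : ‖bk κ u p‖ ^ 2 - 1 ≤ |(p : ℝ) ^ (2 * κ) - 1| := by
      rw [norm_bk hA κ u hp]
      have h4 : ((p : ℝ) ^ κ) ^ 2 = (p : ℝ) ^ (2 * κ) := by
        rw [← Real.rpow_natCast, ← Real.rpow_mul (by positivity)]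
        congr 1
        push_cast
        ring
      rw [h4]
      exact le_abs_self _
    calc (p : ℝ)⁻¹ * (A.sg * A.be * ((bk κ u p).re - 1) + (‖bk κ u p‖ ^ 2 - 1))
        ≤ (p : ℝ)⁻¹ * (A.be * (|(p : ℝ) ^ κ - 1| + 3 * ‖(p : ℂ) ^ (-(I * u) : ℂ) - 1‖)
          + |(p : ℝ) ^ (2 * κ) - 1|) := mul_le_mul_of_nonneg_left (add_le_add h2 h3) hp0
      _ = _ := by ring
  refine (Finset.sum_le_sum h1).trans ?_
  rw [Finset.sum_add_distrib, Finset.sum_add_distrib, ← Finset.mul_sum, ← Finset.mul_sum,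
    ← Finset.mul_sum]
  have h5 : A.be * ∑ p ∈ A.U, (p : ℝ)⁻¹ * |(p : ℝ) ^ κ - 1| ≤ 1 / 20 * C := by
    refine mul_le_mul hbe2 q1 ?_ (by norm_num)
    exact Finset.sum_nonneg fun p _ => by positivity
  have h6 : A.be * (3 * ∑ p ∈ A.U, (p : ℝ)⁻¹ * ‖(p : ℂ) ^ (-(I * u) : ℂ) - 1‖)
      ≤ 1 / 20 * (3 * (2 * Real.log (1 + A.Y * |u|) + C)) := by
    refine mul_le_mul hbe2 (by linarith) ?_ (by norm_num)
    exact mul_nonneg (by norm_num) (Finset.sum_nonneg fun p _ => by positivity)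
  linarith

end Pool.Agent.Lib.G2.T1

namespace Pool.Agent.Lib.G2

open T1 MeasureTheory Set Filter Topology Complex ProbabilityTheory
open scoped ComplexConjugate
open Pool.Agent.Lib.GT

theorem fuBd (h1 : WBd) (h2 : PrimeSums) : FuBd := by
  obtain ⟨C1, hC1, H1⟩ := core h1
  obtain ⟨C2, hC2, H2⟩ := h2
  refine ⟨1 + Real.exp (8 * C2) * (C1 * Real.exp (2 * C2)), ?_, fun A hA s s' hss hs y u κ hκ => ?_⟩
  · have : 0 ≤ Real.exp (8 * C2) * (C1 * Real.exp (2 * C2)) := by positivity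
    linarith
  obtain ⟨-, P2, P3⟩ := H2 A hA
  have hY : 0 < A.Y := by linarith [hA.hY]
  have hlin : 0 < 1 + A.Y * |u| := by positivity
  have hz : ∀ p : ℕ, ‖(0 : ℂ)‖ ≤ 1 / Real.sqrt p := fun p => by rw [norm_zero]; positivity
  have h3 := H1 A hA 0 (by simp) (gk A κ u) (a0 u) (fun _ => 0) (bk κ u)
    (okD (gk_le hA hκ u) (a0_le u) hz) (fun p hp => bk_eq hA κ u hp)
    (2 * C2 + 3 * Real.log (1 + A.Y * |u|)) (exp_bk hA hC2 P2 P3 hκ u) s s' hss hs y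
  have hint := int_core hA s s' y 0 (g := gk A κ u) (a := a0 u) (b := fun _ => 0)
    (fun p hp => (a0_sixth hA u hp).trans (by norm_num)) (fun p _ => by simp)
  have h4 : ∫ x, A.Wg s s' y x * ‖A.FU κ u x‖ ^ 2 ∂mu ≤ ∫ x, Real.exp (8 * C2) * (A.Wg s s' y x *
      (‖A.mo ((0 : ℝ) : ℂ) s x‖ ^ 2 * ‖HR A.U (gk A κ u) (a0 u) (fun _ => 0) x‖ ^ 2)) ∂mu := by
    refine integral_mono_of_nonneg (Eventually.of_forall fun x => ?_) (hint.const_mul _)
      (Eventually.of_forall fun x => ?_)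
    · exact mul_nonneg (Wg_nonneg hA s s' y x) (by positivity)
    · have h5 := FU_le hA hκ u x
      have h6 : Real.exp (4 * ∑ p ∈ A.U, (p : ℝ)⁻¹ * |(p : ℝ) ^ (2 * κ) - 1|) ≤
          Real.exp (4 * C2) := Real.exp_le_exp.mpr (by linarith [(P3 κ hκ).2])
      have h7 := h5.trans (mul_le_mul_of_nonneg_left h6 (norm_nonneg _))
      have h8 := pow_le_pow_left₀ (norm_nonneg _) h7 2
      have h9 : (Real.exp (4 * C2)) ^ 2 = Real.exp (8 * C2) := by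
        rw [← Real.exp_nat_mul]
        congr 1
        push_cast
        ring
      rw [mul_pow, h9] at h8
      have h10 := mul_le_mul_of_nonneg_left h8 (Wg_nonneg hA s s' y x)
      simp only [mo_zero, norm_one, one_pow, one_mul]
      linarith
  rw [integral_const_mul] at h4
  refine h4.trans ((mul_le_mul_of_nonneg_left h3 (Real.exp_nonneg _)).trans ?_)
  have h11 : Real.exp (2 * C2 + 3 * Real.log (1 + A.Y * |u|)) =
      Real.exp (2 * C2) * (1 + A.Y * |u|) ^ 3 := by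
    rw [Real.exp_add, show (3 : ℝ) * Real.log (1 + A.Y * |u|) =
      ((3 : ℕ) : ℝ) * Real.log (1 + A.Y * |u|) by norm_num, Real.exp_nat_mul, Real.exp_log hlin]
  rw [h11]
  have h12 : 0 ≤ A.Gs y := by unfold Par.Gs Par.G; positivity
  have h13 : 0 ≤ Real.exp (-(2 * ∑ g ∈ s', (A.r g : ℝ))) * (1 + A.Y * |u|) ^ 3 *
      (Real.exp A.vt * A.Gs y) := by positivity
  nlinarith

end Pool.Agent.Lib.G2
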