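import Mathlib
import Pool.Agent.Lib.MP_f9aece_nt_g2.Stmts
import Pool.Agent.Lib.MP_f9aece_nt_g2.Cont

/-!
The law of `log |zeta|` under the measure `|zeta| ^ 2`, T1b: the Euler products are continuous in the
shift (Cauchy's formula in the complex shift).
-/

set_option autoImplicit false

namespace Pool.Agent.Lib.G2

open MeasureTheory Set Filter Topology Complex ProbabilityTheory
open scoped ComplexConjugate
open Pool.Agent.Lib.GT

namespace T1b

/-! ### Cauchy's formula -/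

/-- Cauchy-Schwarz on an interval -/
lemma sq_integral_le {f : ℝ → ℝ} (hf : Continuous f) {L : ℝ} (hL : 0 < L) :
    (∫ θ in (0 : ℝ)..L, f θ) ^ 2 ≤ L * ∫ θ in (0 : ℝ)..L, f θ ^ 2 := by
  obtain ⟨m, hm⟩ : ∃ m : ℝ, m = (∫ θ in (0 : ℝ)..L, f θ) / L := ⟨_, rfl⟩
  have h1 : 0 ≤ ∫ θ in (0 : ℝ)..L, (f θ - m) ^ 2 :=
    intervalIntegral.integral_nonneg hL.le fun θ _ => sq_nonneg _
  have i1 : IntervalIntegrable (fun θ => f θ ^ 2) volume 0 L := (hf.pow 2).intervalIntegrable _ _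
  have i2 : IntervalIntegrable (fun θ => 2 * m * f θ) volume 0 L :=
    (continuous_const.mul hf).intervalIntegrable _ _
  have h2 : ∫ θ in (0 : ℝ)..L, (f θ - m) ^ 2
      = (∫ θ in (0 : ℝ)..L, f θ ^ 2) - 2 * m * (∫ θ in (0 : ℝ)..L, f θ) + L * m ^ 2 := by
    have e1 : (fun θ => (f θ - m) ^ 2) = fun θ => (f θ ^ 2 - 2 * m * f θ) + m ^ 2 := by
      funext θ
      ring
    rw [e1, intervalIntegral.integral_add (i1.sub i2) intervalIntegrable_const,
      intervalIntegral.integral_sub i1 i2, intervalIntegral.integral_const_mul,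
      intervalIntegral.integral_const, smul_eq_mul, sub_zero]
  have h3 : (∫ θ in (0 : ℝ)..L, f θ) = L * m := by
    rw [hm]
    field_simp
  rw [h2, h3] at h1
  rw [h3]
  nlinarith

/-- the difference of two values through the mean square on a circle -/
lemma cauchy_sq {F : ℂ → ℂ} {R : ℝ} (hR : 0 < R) (hF : DiffContOnCl ℂ F (Metric.ball 0 R)) {z : ℂ}
    (hz : ‖z‖ ≤ R / 2) (hc : Continuous fun θ : ℝ => F (circleMap 0 R θ)) :
    ‖F z - F 0‖ ^ 2
      ≤ (2 * ‖z‖ / R) ^ 2 * ((2 * Real.pi)⁻¹ * ∫ θ in (0 : ℝ)..(2 * Real.pi),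
          ‖F (circleMap 0 R θ)‖ ^ 2) := by
  have hpi : 0 < 2 * Real.pi := Real.two_pi_pos
  have hzR : ‖z‖ < R := by linarith
  have h1 := hF.circleIntegral_sub_inv_smul (w := z) (by simpa using hzR)
  have h2 := hF.circleIntegral_sub_inv_smul (w := 0) (by simpa using hR)
  have hne : ∀ θ : ℝ, circleMap 0 R θ ≠ 0 := fun θ => circleMap_ne_center hR.ne'
  have hnz : ∀ θ : ℝ, R / 2 ≤ ‖circleMap 0 R θ - z‖ := by
    intro θ
    have h3 := norm_sub_norm_le (circleMap 0 R θ) z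
    have h4 : ‖circleMap 0 R θ‖ = R := by rw [norm_circleMap_zero, abs_of_pos hR]
    linarith
  have hnz' : ∀ θ : ℝ, circleMap 0 R θ - z ≠ 0 := fun θ h => by
    have h3 := hnz θ
    rw [h, norm_zero] at h3
    linarith
  have hcm : Continuous fun θ : ℝ => circleMap 0 R θ := continuous_circleMap 0 R
  have c1 : Continuous fun θ : ℝ => deriv (circleMap 0 R) θ • ((circleMap 0 R θ - z)⁻¹ • F (circleMap 0 R θ)) := by
    simp only [deriv_circleMap]
    exact (hcm.mul continuous_const).smul (((hcm.sub continuous_const).inv₀ hnz').smul hc)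
  have c2 : Continuous fun θ : ℝ => deriv (circleMap 0 R) θ • ((circleMap 0 R θ - 0)⁻¹ • F (circleMap 0 R θ)) := by
    simp only [deriv_circleMap, sub_zero]
    exact (hcm.mul continuous_const).smul ((hcm.inv₀ hne).smul hc)
  have h3 : (2 * Real.pi * I : ℂ) * (F z - F 0) = ∫ θ in (0 : ℝ)..(2 * Real.pi),
      (deriv (circleMap 0 R) θ • ((circleMap 0 R θ - z)⁻¹ • F (circleMap 0 R θ))
        - deriv (circleMap 0 R) θ • ((circleMap 0 R θ - 0)⁻¹ • F (circleMap 0 R θ))) := by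
    rw [intervalIntegral.integral_sub (c1.intervalIntegrable _ _) (c2.intervalIntegrable _ _)]
    have e1 : (∮ ζ in C(0, R), (ζ - z)⁻¹ • F ζ) = ∫ θ in (0 : ℝ)..(2 * Real.pi),
      deriv (circleMap 0 R) θ • ((circleMap 0 R θ - z)⁻¹ • F (circleMap 0 R θ)) := rfl
    have e2 : (∮ ζ in C(0, R), (ζ - 0)⁻¹ • F ζ) = ∫ θ in (0 : ℝ)..(2 * Real.pi),
      deriv (circleMap 0 R) θ • ((circleMap 0 R θ - 0)⁻¹ • F (circleMap 0 R θ)) := rfl
    rw [← e1, ← e2, h1, h2, smul_eq_mul, smul_eq_mul]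
    ring
  have h4 : ‖∫ θ in (0 : ℝ)..(2 * Real.pi),
      (deriv (circleMap 0 R) θ • ((circleMap 0 R θ - z)⁻¹ • F (circleMap 0 R θ))
        - deriv (circleMap 0 R) θ • ((circleMap 0 R θ - 0)⁻¹ • F (circleMap 0 R θ)))‖
      ≤ ∫ θ in (0 : ℝ)..(2 * Real.pi), 2 * ‖z‖ / R * ‖F (circleMap 0 R θ)‖ := by
    refine intervalIntegral.norm_integral_le_of_norm_le hpi.le (Eventually.of_forall fun θ _ => ?_)
      ((continuous_const.mul hc.norm).intervalIntegrable _ _)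
    have e1 : deriv (circleMap 0 R) θ • ((circleMap 0 R θ - z)⁻¹ • F (circleMap 0 R θ))
        - deriv (circleMap 0 R) θ • ((circleMap 0 R θ - 0)⁻¹ • F (circleMap 0 R θ))
        = I * z / (circleMap 0 R θ - z) * F (circleMap 0 R θ) := by
      have n1 := hnz' θ
      have n2 := hne θ
      rw [deriv_circleMap, sub_zero]
      simp only [smul_eq_mul]
      field_simp
      ring
    rw [e1, norm_mul, norm_div, norm_mul, Complex.norm_I, one_mul]
    refine mul_le_mul_of_nonneg_right ?_ (norm_nonneg _)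
    rw [div_le_div_iff₀ (by have := hnz θ; linarith) hR]
    have := hnz θ
    nlinarith [norm_nonneg z]
  have h5 : 2 * Real.pi * ‖F z - F 0‖
      ≤ 2 * ‖z‖ / R * ∫ θ in (0 : ℝ)..(2 * Real.pi), ‖F (circleMap 0 R θ)‖ := by
    have e1 : ‖(2 * Real.pi * I : ℂ) * (F z - F 0)‖ = 2 * Real.pi * ‖F z - F 0‖ := by
      rw [norm_mul, norm_mul, Complex.norm_I, mul_one]
      congr 1
      rw [norm_mul, Complex.norm_real, Complex.norm_ofNat, Real.norm_of_nonneg Real.pi_pos.le]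
    rw [← e1, h3]
    refine h4.trans (le_of_eq ?_)
    rw [intervalIntegral.integral_const_mul]
  have h6 := sq_integral_le (f := fun θ => ‖F (circleMap 0 R θ)‖) hc.norm hpi
  have h7 : 0 ≤ 2 * ‖z‖ / R := by positivity
  have h8 : 0 ≤ ∫ θ in (0 : ℝ)..(2 * Real.pi), ‖F (circleMap 0 R θ)‖ :=
    intervalIntegral.integral_nonneg hpi.le fun θ _ => norm_nonneg _
  have h9 : (2 * Real.pi * ‖F z - F 0‖) ^ 2
      ≤ (2 * ‖z‖ / R) ^ 2 * (2 * Real.pi * ∫ θ in (0 : ℝ)..(2 * Real.pi),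
          ‖F (circleMap 0 R θ)‖ ^ 2) := by
    calc (2 * Real.pi * ‖F z - F 0‖) ^ 2
        ≤ (2 * ‖z‖ / R * ∫ θ in (0 : ℝ)..(2 * Real.pi), ‖F (circleMap 0 R θ)‖) ^ 2 :=
          pow_le_pow_left₀ (by positivity) h5 2
      _ = (2 * ‖z‖ / R) ^ 2 * (∫ θ in (0 : ℝ)..(2 * Real.pi), ‖F (circleMap 0 R θ)‖) ^ 2 := by ring
      _ ≤ _ := mul_le_mul_of_nonneg_left h6 (by positivity)
  have h10 : ‖F z - F 0‖ ^ 2 = (2 * Real.pi * ‖F z - F 0‖) ^ 2 / (2 * Real.pi) ^ 2 := by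
    field_simp
  rw [h10, div_le_iff₀ (by positivity)]
  refine h9.trans (le_of_eq ?_)
  field_simp

/-! ### The Euler product with a complex shift -/

/-- the Euler product with a complex shift -/
noncomputable def Fz (A : Par) (z : ℂ) (x : Om) : ℂ :=
  ∏ p ∈ A.U, (1 - (p : ℂ) ^ (-(1 / 2 - z) : ℂ) * e1 (x p))⁻¹

lemma FU_eq (A : Par) (κ u : ℝ) (x : Om) : A.FU κ u x = Fz A (κ - I * u) x := by
  unfold Par.FU Fz
  refine Finset.prod_congr rfl fun p _ => ?_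
  rw [show (-(1 / 2 - (κ : ℂ) + I * u) : ℂ) = -(1 / 2 - (κ - I * u)) by ring]

lemma mem_U {A : Par} (hA : A.Ok) {p : ℕ} (hp : p ∈ A.U) :
    1000 ≤ p ∧ Real.log p ≤ A.Y := by
  unfold Par.U at hp
  rw [Finset.mem_biUnion] at hp
  obtain ⟨g, -, hg⟩ := hp
  unfold Par.S at hg
  rw [Finset.mem_filter, Finset.mem_Icc] at hg
  obtain ⟨⟨h1, h2⟩, h3, h4, -⟩ := hg
  have h5 := hA.hp
  refine ⟨by omega, ?_⟩
  have h6 : (p : ℝ) ≤ Real.exp (A.Yf g) := (Nat.le_floor_iff (Real.exp_nonneg _)).mp h2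
  have h7 : (0 : ℝ) < p := by exact_mod_cast (by omega : 0 < p)
  have h8 : Real.log p ≤ A.Yf g := by
    have := Real.log_le_log h7 h6
    rwa [Real.log_exp] at this
  refine h8.trans ?_
  unfold Par.Yf
  have h9 : Real.exp (-((A.v : ℝ) * g)) ≤ 1 := by
    rw [Real.exp_le_one_iff]
    have : (0 : ℝ) ≤ (A.v : ℝ) * g := by positivity
    linarith
  have h10 := hA.hY
  nlinarith

/-- the terms are small -/
lemma norm_term_le {A : Par} (hA : A.Ok) {p : ℕ} (hp : p ∈ A.U) {z : ℂ} (hz : z.re ≤ 1 / A.Y)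
    (x : ℝ) : ‖(p : ℂ) ^ (-(1 / 2 - z) : ℂ) * e1 x‖ ≤ 1 / 2 := by
  obtain ⟨h1, h2⟩ := mem_U hA hp
  have hY := hA.hY
  have hY0 : 0 < A.Y := by linarith
  have hp0 : (0 : ℝ) < p := by exact_mod_cast (by omega : 0 < p)
  have hp1 : (1000 : ℝ) ≤ p := by exact_mod_cast h1
  rw [norm_mul, norm_e1, mul_one, Complex.norm_natCast_cpow_of_pos (by omega),
    Real.rpow_def_of_pos hp0]
  have h3 : (-(1 / 2 - z) : ℂ).re = -(1 / 2) + z.re := by
    simp
    ring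
  rw [h3]
  have h4 := hz
  have h5 : Real.log 1000 ≤ Real.log p := Real.log_le_log (by norm_num) hp1
  have h6 : 2 + 2 * Real.log 2 ≤ Real.log 1000 := by
    rw [show (2 : ℝ) + 2 * Real.log 2 = Real.log (Real.exp 2 * 4) by
      rw [Real.log_mul (Real.exp_ne_zero _) (by norm_num), Real.log_exp,
        show (4 : ℝ) = 2 ^ 2 by norm_num, Real.log_pow]
      norm_num]
    refine Real.log_le_log (by positivity) ?_
    have h7 : Real.exp 2 = Real.exp 1 * Real.exp 1 := by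
      rw [← Real.exp_add]
      norm_num
    have h8 := Real.exp_one_lt_d9
    have h9 := Real.exp_pos 1
    rw [h7]
    nlinarith
  have h0 : 0 ≤ Real.log p := (Real.log_nonneg (by norm_num)).trans h5
  have h7 : Real.log p * z.re ≤ 1 := by
    calc Real.log p * z.re ≤ Real.log p * (1 / A.Y) := mul_le_mul_of_nonneg_left h4 h0
      _ ≤ A.Y * (1 / A.Y) := mul_le_mul_of_nonneg_right h2 (by positivity)
      _ = 1 := by field_simp
  have h8 : Real.log p * (-(1 / 2) + z.re) ≤ -Real.log 2 := by nlinarith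
  refine (Real.exp_le_exp.mpr h8).trans (le_of_eq ?_)
  rw [Real.exp_neg, Real.exp_log (by norm_num)]
  norm_num

lemma one_sub_ne {w : ℂ} (h : ‖w‖ ≤ 1 / 2) : 1 - w ≠ 0 := by
  intro h1
  have h2 : w = 1 := by linear_combination -h1
  rw [h2, norm_one] at h
  norm_num at h

lemma norm_inv_le {w : ℂ} (h : ‖w‖ ≤ 1 / 2) : ‖(1 - w)⁻¹‖ ≤ 2 := by
  rw [norm_inv]
  have h1 : 1 / 2 ≤ ‖1 - w‖ := by
    have := norm_sub_norm_le (1 : ℂ) w
    rw [norm_one] at this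
    linarith
  calc ‖1 - w‖⁻¹ ≤ (1 / 2 : ℝ)⁻¹ := inv_anti₀ (by norm_num) h1
    _ = 2 := by norm_num

/-- the Euler product is bounded -/
lemma norm_Fz_le {A : Par} (hA : A.Ok) {z : ℂ} (hz : z.re ≤ 1 / A.Y) (x : Om) :
    ‖Fz A z x‖ ≤ 2 ^ A.U.card := by
  unfold Fz
  rw [norm_prod]
  refine (Finset.prod_le_prod (fun p _ => norm_nonneg _)
    fun p hp => norm_inv_le (norm_term_le hA hp hz _)).trans (le_of_eq ?_)
  rw [Finset.prod_const]

lemma diff_Fz {A : Par} (hA : A.Ok) (x : Om) :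
    DiffContOnCl ℂ (fun z => Fz A z x) (Metric.ball 0 (1 / A.Y)) := by
  have hY := hA.hY
  refine DifferentiableOn.diffContOnCl_ball (U := Metric.closedBall 0 (1 / A.Y)) ?_ le_rfl
  intro z hz
  have hz' : z.re ≤ 1 / A.Y := (Complex.re_le_norm z).trans (by simpa using hz)
  refine DifferentiableAt.differentiableWithinAt ?_
  unfold Fz
  refine DifferentiableAt.fun_finsetProd fun p hp => ?_
  have h1 : (p : ℂ) ≠ 0 := by
    have := (mem_U hA hp).1
    exact_mod_cast (by omega : p ≠ 0)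
  refine DifferentiableAt.inv ?_ (one_sub_ne (norm_term_le hA hp hz' _))
  refine (differentiableAt_const _).sub (DifferentiableAt.mul ?_ (differentiableAt_const _))
  exact ((differentiableAt_const _).sub differentiableAt_id).neg.const_cpow (Or.inl h1)

lemma continuous_Fz {A : Par} (hA : A.Ok) {X : Type} [TopologicalSpace X] {f : X → ℂ} {g : X → Om}
    (hf : Continuous f) (hg : Continuous g) (hb : ∀ x, (f x).re ≤ 1 / A.Y) :
    Continuous fun x => Fz A (f x) (g x) := by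
  unfold Fz
  refine continuous_finsetProd _ fun p hp => ?_
  have h1 : (p : ℂ) ≠ 0 := by
    have := (mem_U hA hp).1
    exact_mod_cast (by omega : p ≠ 0)
  refine Continuous.inv₀ ?_ fun x => one_sub_ne (norm_term_le hA hp (hb x) _)
  refine continuous_const.sub (Continuous.mul ?_ (continuous_e1.comp ((continuous_apply p).comp hg)))
  exact (continuous_const.sub hf).neg.const_cpow (Or.inl h1)

/-! ### The mean -/

lemma integrable_bd {X : Type} [TopologicalSpace X] [MeasurableSpace X] [OpensMeasurableSpace X]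
    {m : Measure X} [IsFiniteMeasure m] {f : X → ℝ} [SecondCountableTopology X]
    (hf : Continuous f) {B : ℝ} (hB : ∀ x, |f x| ≤ B) : Integrable f m :=
  Integrable.of_bound hf.aestronglyMeasurable B (Eventually.of_forall hB)

lemma FU_zero (A : Par) (v : ℝ) (x : Om) : A.FU 0 v x = Fz A (-(I * v)) x := by
  rw [FU_eq]
  congr 1
  push_cast
  ring

lemma re_I (v : ℝ) : (-(I * v) : ℂ).re = 0 := by simp

lemma int_one {A : Par} (hA : A.Ok) (y u : ℝ) :
    Integrable (fun x => A.W ∅ y x * ‖A.FU 0 u x‖ ^ 2) mu := by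
  have hY := hA.hY
  have hR : 0 ≤ 1 / A.Y := by positivity
  have hW0 : ∀ x, 0 ≤ A.W ∅ y x := fun x => A.W_nonneg hA.b_pos.le ∅ y x
  have hWc : Continuous fun x : Om => A.W ∅ y x := A.continuous_W' hA ∅ y
  obtain ⟨B, hB⟩ := A.W_le hA ∅ y
  have hz : ∀ v : ℝ, (-(I * v) : ℂ).re ≤ 1 / A.Y := fun v => by rw [re_I]; exact hR
  refine integrable_bd (B := B * (2 ^ A.U.card) ^ 2) ?_ fun x => ?_
  · refine hWc.mul (Continuous.pow (Continuous.norm ?_) 2)
    exact (continuous_Fz hA continuous_const continuous_id fun _ => hz u).congr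
      fun x => (FU_zero A u x).symm
  · rw [abs_of_nonneg (mul_nonneg (hW0 _) (by positivity)), FU_zero]
    exact mul_le_mul (hB _) (pow_le_pow_left₀ (norm_nonneg _) (norm_Fz_le hA (hz u) x) 2)
      (by positivity) ((hW0 x).trans (hB x))

lemma int_diff {A : Par} (hA : A.Ok) (y u : ℝ) :
    Integrable (fun x => A.W ∅ y x * ‖A.FU 0 u x - A.FU 0 0 x‖ ^ 2) mu := by
  have hY := hA.hY
  have hR : 0 ≤ 1 / A.Y := by positivity
  have hW0 : ∀ x, 0 ≤ A.W ∅ y x := fun x => A.W_nonneg hA.b_pos.le ∅ y x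
  have hWc : Continuous fun x : Om => A.W ∅ y x := A.continuous_W' hA ∅ y
  obtain ⟨B, hB⟩ := A.W_le hA ∅ y
  have hz : ∀ v : ℝ, (-(I * v) : ℂ).re ≤ 1 / A.Y := fun v => by rw [re_I]; exact hR
  refine integrable_bd (B := B * (2 * 2 ^ A.U.card) ^ 2) ?_ fun x => ?_
  · refine hWc.mul (Continuous.pow (Continuous.norm ?_) 2)
    exact ((continuous_Fz hA continuous_const continuous_id fun _ => hz u).congr
      fun x => (FU_zero A u x).symm).sub
        ((continuous_Fz hA continuous_const continuous_id fun _ => hz 0).congr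
          fun x => (FU_zero A 0 x).symm)
  · rw [abs_of_nonneg (mul_nonneg (hW0 _) (by positivity)), FU_zero, FU_zero]
    have h1 := norm_Fz_le hA (hz u) x
    have h2 := norm_Fz_le hA (hz 0) x
    exact mul_le_mul (hB _) (pow_le_pow_left₀ (norm_nonneg _)
      ((norm_sub_le _ _).trans (by linarith)) 2) (by positivity) ((hW0 x).trans (hB x))

/-- the mean for a small shift -/
lemma small {A : Par} (hA : A.Ok) {y K : ℝ}
    (hK : ∀ κ u : ℝ, |κ| ≤ 1 / A.Y → |u| ≤ 1 / A.Y → ∫ x, A.W ∅ y x * ‖A.FU κ u x‖ ^ 2 ∂mu ≤ K)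
    {u : ℝ} (hu : |u| ≤ 1 / (2 * A.Y)) :
    ∫ x, A.W ∅ y x * ‖A.FU 0 u x - A.FU 0 0 x‖ ^ 2 ∂mu ≤ (2 * (A.Y * |u|)) ^ 2 * K := by
  have hY := hA.hY
  have hY0 : 0 < A.Y := by linarith
  have hR : 0 < 1 / A.Y := by positivity
  have hpi : 0 < 2 * Real.pi := Real.two_pi_pos
  have hW0 : ∀ x, 0 ≤ A.W ∅ y x := fun x => A.W_nonneg hA.b_pos.le ∅ y x
  have hWc : Continuous fun x : Om => A.W ∅ y x := A.continuous_W' hA ∅ y
  obtain ⟨B, hB⟩ := A.W_le hA ∅ y
  have hcm : Continuous fun θ : ℝ => circleMap 0 (1 / A.Y) θ := continuous_circleMap 0 _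
  have hcn : ∀ θ : ℝ, ‖circleMap 0 (1 / A.Y) θ‖ ≤ 1 / A.Y := fun θ => by
    rw [norm_circleMap_zero, abs_of_pos hR]
  have hcr : ∀ θ : ℝ, (circleMap 0 (1 / A.Y) θ).re ≤ 1 / A.Y := fun θ =>
    (Complex.re_le_norm _).trans (hcn θ)
  have hM : ∀ {z : ℂ}, z.re ≤ 1 / A.Y → ∀ x, ‖Fz A z x‖ ≤ 2 ^ A.U.card :=
    fun hz x => norm_Fz_le hA hz x
  set M : ℝ := 2 ^ A.U.card with hMd
  have hM0 : 0 ≤ M := by positivity
  have hzu : ‖(-(I * u) : ℂ)‖ = |u| := by
    rw [norm_neg, norm_mul, Complex.norm_I, one_mul, Complex.norm_real, Real.norm_eq_abs]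
  have hzu' : ‖(-(I * u) : ℂ)‖ ≤ 1 / A.Y / 2 := by
    rw [hzu]
    refine hu.trans (le_of_eq ?_)
    field_simp
  have e0 : ∀ v x, A.FU 0 v x = Fz A (-(I * v)) x := fun v x => by
    rw [FU_eq]
    congr 1
    push_cast
    ring
  -- pointwise
  have hpt : ∀ x, ‖A.FU 0 u x - A.FU 0 0 x‖ ^ 2 ≤ (2 * (A.Y * |u|)) ^ 2 *
      ((2 * Real.pi)⁻¹ * ∫ θ in (0 : ℝ)..(2 * Real.pi),
        ‖Fz A (circleMap 0 (1 / A.Y) θ) x‖ ^ 2) := by
    intro x
    have h1 := cauchy_sq hR (diff_Fz hA x) hzu' (continuous_Fz hA hcm continuous_const hcr)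
    rw [e0, e0]
    have e1 : (-(I * ((0 : ℝ) : ℂ)) : ℂ) = 0 := by simp
    rw [e1]
    refine h1.trans (le_of_eq ?_)
    rw [hzu]
    congr 2
    field_simp
  -- the double integral
  have hjc : Continuous fun w : Om × ℝ => A.W ∅ y w.1 * ‖Fz A (circleMap 0 (1 / A.Y) w.2) w.1‖ ^ 2 :=
    (hWc.comp continuous_fst).mul ((continuous_Fz hA (hcm.comp continuous_snd) continuous_fst
      fun w => hcr w.2).norm.pow 2)
  have hjb : ∀ w : Om × ℝ, |A.W ∅ y w.1 * ‖Fz A (circleMap 0 (1 / A.Y) w.2) w.1‖ ^ 2|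
      ≤ B * M ^ 2 := by
    intro w
    have h1 := hM (hcr w.2) w.1
    rw [abs_of_nonneg (mul_nonneg (hW0 _) (by positivity))]
    exact mul_le_mul (hB _) (pow_le_pow_left₀ (norm_nonneg _) h1 2) (by positivity)
      ((hW0 w.1).trans (hB w.1))
  have hji : Integrable (fun w : Om × ℝ => A.W ∅ y w.1 * ‖Fz A (circleMap 0 (1 / A.Y) w.2) w.1‖ ^ 2)
      (mu.prod (volume.restrict (Ioc 0 (2 * Real.pi)))) := integrable_bd hjc hjb
  have hswap : ∫ x, (∫ θ in Ioc 0 (2 * Real.pi), A.W ∅ y x *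
        ‖Fz A (circleMap 0 (1 / A.Y) θ) x‖ ^ 2) ∂mu
      = ∫ θ in Ioc 0 (2 * Real.pi), (∫ x, A.W ∅ y x *
        ‖Fz A (circleMap 0 (1 / A.Y) θ) x‖ ^ 2 ∂mu) := integral_integral_swap hji
  have hin : ∀ θ : ℝ, ∫ x, A.W ∅ y x * ‖Fz A (circleMap 0 (1 / A.Y) θ) x‖ ^ 2 ∂mu ≤ K := by
    intro θ
    have h1 := hK (circleMap 0 (1 / A.Y) θ).re (-(circleMap 0 (1 / A.Y) θ).im)
      ((Complex.abs_re_le_norm _).trans (hcn θ))
      (by rw [abs_neg]; exact (Complex.abs_im_le_norm _).trans (hcn θ))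
    refine le_trans (le_of_eq ?_) h1
    refine integral_congr_ae (Eventually.of_forall fun x => ?_)
    simp only
    rw [FU_eq]
    congr 3
    conv_lhs => rw [← Complex.re_add_im (circleMap 0 (1 / A.Y) θ)]
    push_cast
    ring_nf
  have hout : ∫ θ in Ioc 0 (2 * Real.pi), (∫ x, A.W ∅ y x *
        ‖Fz A (circleMap 0 (1 / A.Y) θ) x‖ ^ 2 ∂mu) ≤ 2 * Real.pi * K := by
    have h1 : ∫ θ in Ioc 0 (2 * Real.pi), (∫ x, A.W ∅ y x *
        ‖Fz A (circleMap 0 (1 / A.Y) θ) x‖ ^ 2 ∂mu) ≤ ∫ _ in Ioc 0 (2 * Real.pi), K :=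
      integral_mono hji.integral_prod_right (integrable_const _) hin
    refine h1.trans (le_of_eq ?_)
    rw [setIntegral_const, smul_eq_mul, Real.volume_real_Ioc_of_le hpi.le, sub_zero]
  -- the estimate
  have hint : ∀ x, A.W ∅ y x * ‖A.FU 0 u x - A.FU 0 0 x‖ ^ 2 ≤ (2 * (A.Y * |u|)) ^ 2 *
      ((2 * Real.pi)⁻¹ * ∫ θ in Ioc 0 (2 * Real.pi), A.W ∅ y x *
        ‖Fz A (circleMap 0 (1 / A.Y) θ) x‖ ^ 2) := by
    intro x
    have h1 := mul_le_mul_of_nonneg_left (hpt x) (hW0 x)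
    refine h1.trans (le_of_eq ?_)
    rw [integral_const_mul, intervalIntegral.integral_of_le hpi.le]
    ring
  have hl := int_diff hA y u
  have hr : Integrable (fun x => (2 * (A.Y * |u|)) ^ 2 *
      ((2 * Real.pi)⁻¹ * ∫ θ in Ioc 0 (2 * Real.pi), A.W ∅ y x *
        ‖Fz A (circleMap 0 (1 / A.Y) θ) x‖ ^ 2)) mu :=
    (hji.integral_prod_left.const_mul _).const_mul _
  calc ∫ x, A.W ∅ y x * ‖A.FU 0 u x - A.FU 0 0 x‖ ^ 2 ∂mu
      ≤ ∫ x, (2 * (A.Y * |u|)) ^ 2 * ((2 * Real.pi)⁻¹ * ∫ θ in Ioc 0 (2 * Real.pi), A.W ∅ y x *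
        ‖Fz A (circleMap 0 (1 / A.Y) θ) x‖ ^ 2) ∂mu := integral_mono hl hr hint
    _ = (2 * (A.Y * |u|)) ^ 2 * ((2 * Real.pi)⁻¹ * ∫ θ in Ioc 0 (2 * Real.pi), (∫ x, A.W ∅ y x *
        ‖Fz A (circleMap 0 (1 / A.Y) θ) x‖ ^ 2 ∂mu)) := by
          rw [integral_const_mul, integral_const_mul, hswap]
    _ ≤ (2 * (A.Y * |u|)) ^ 2 * ((2 * Real.pi)⁻¹ * (2 * Real.pi * K)) := by gcongr
    _ = _ := by
      rw [← mul_assoc ((2 * Real.pi)⁻¹), inv_mul_cancel₀ hpi.ne', one_mul]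

/-- the mean for a large shift -/
lemma large {A : Par} (hA : A.Ok) {y K u : ℝ}
    (h1 : ∫ x, A.W ∅ y x * ‖A.FU 0 u x‖ ^ 2 ∂mu ≤ K)
    (h2 : ∫ x, A.W ∅ y x * ‖A.FU 0 0 x‖ ^ 2 ∂mu ≤ K) :
    ∫ x, A.W ∅ y x * ‖A.FU 0 u x - A.FU 0 0 x‖ ^ 2 ∂mu ≤ 4 * K := by
  have hW0 : ∀ x, 0 ≤ A.W ∅ y x := fun x => A.W_nonneg hA.b_pos.le ∅ y x
  have i1 := int_one hA y u
  have i2 := int_one hA y 0
  have h3 : ∫ x, A.W ∅ y x * ‖A.FU 0 u x - A.FU 0 0 x‖ ^ 2 ∂mu
      ≤ ∫ x, (2 * (A.W ∅ y x * ‖A.FU 0 u x‖ ^ 2) + 2 * (A.W ∅ y x * ‖A.FU 0 0 x‖ ^ 2)) ∂mu := by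
    refine integral_mono (int_diff hA y u) ((i1.const_mul 2).add (i2.const_mul 2)) fun x => ?_
    have h4 : ‖A.FU 0 u x - A.FU 0 0 x‖ ^ 2 ≤ 2 * ‖A.FU 0 u x‖ ^ 2 + 2 * ‖A.FU 0 0 x‖ ^ 2 := by
      have h5 := norm_sub_le (A.FU 0 u x) (A.FU 0 0 x)
      have h6 := pow_le_pow_left₀ (norm_nonneg _) h5 2
      nlinarith [sq_nonneg (‖A.FU 0 u x‖ - ‖A.FU 0 0 x‖)]
    have := mul_le_mul_of_nonneg_left h4 (hW0 x)
    simp only
    linarith
  rw [integral_add (i1.const_mul 2) (i2.const_mul 2), integral_const_mul, integral_const_mul] at h3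
  linarith

end T1b

open T1b in
/-- T1b: the Euler products are continuous in the shift -/
theorem fuDiff (h : FuBd) : FuDiff := by
  obtain ⟨C, hC, h⟩ := h
  refine ⟨64 * C, by linarith, fun A hA y u => ?_⟩
  have hY := hA.hY
  have hY0 : 0 < A.Y := by linarith
  have hE : 0 ≤ Real.exp A.vt * A.Gs y :=
    mul_nonneg (Real.exp_nonneg _) (hA.G_pos _).le
  have hb : ∀ κ v : ℝ, |κ| ≤ 1 / A.Y → ∫ x, A.W ∅ y x * ‖A.FU κ v x‖ ^ 2 ∂mu
      ≤ C * (1 + A.Y * |v|) ^ 3 * (Real.exp A.vt * A.Gs y) := by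
    intro κ v hκ
    have h1 : ∫ x, A.W ∅ y x * ‖A.FU κ v x‖ ^ 2 ∂mu ≤ C * Real.exp (-(2 * ∑ g ∈ (∅ : Finset ℕ),
        (A.r g : ℝ))) * (1 + A.Y * |v|) ^ 3 * (Real.exp A.vt * A.Gs y) :=
      h A hA ∅ ∅ (Finset.Subset.refl _) (Finset.empty_subset _) y v κ hκ
    simpa using h1
  have ht : 0 ≤ A.Y * |u| := by positivity
  obtain ⟨t, ht'⟩ : ∃ t : ℝ, t = A.Y * |u| := ⟨_, rfl⟩
  obtain ⟨E, hE'⟩ : ∃ E : ℝ, E = Real.exp A.vt * A.Gs y := ⟨_, rfl⟩
  rw [← ht'] at ht ⊢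
  rw [← hE'] at hE ⊢
  have hCE : 0 ≤ C * E := mul_nonneg (by linarith) hE
  have h1t : 1 ≤ (1 + t) ^ 3 := one_le_pow₀ (by linarith)
  rcases le_or_gt |u| (1 / (2 * A.Y)) with hu | hu
  · have h1 := small hA (y := y) (K := C * 8 * E) (fun κ v hκ hv => by
      refine (hb κ v hκ).trans ?_
      rw [← hE']
      have h2 : A.Y * |v| ≤ 1 := by
        calc A.Y * |v| ≤ A.Y * (1 / A.Y) := mul_le_mul_of_nonneg_left hv hY0.le
          _ = 1 := by field_simp
      have h3 : (1 + A.Y * |v|) ^ 3 ≤ 8 := by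
        calc (1 + A.Y * |v|) ^ 3 ≤ (1 + 1) ^ 3 :=
              pow_le_pow_left₀ (by positivity) (by linarith) 3
          _ = 8 := by norm_num
      have h4 := mul_le_mul_of_nonneg_left h3 hCE
      linarith) hu
    rw [← ht'] at h1
    refine h1.trans ?_
    have h5 : 0 ≤ C * E * t ^ 2 := mul_nonneg hCE (sq_nonneg t)
    have h6 := mul_le_mul_of_nonneg_left h1t h5
    nlinarith
  · have htt : 1 / 2 < t := by
      rw [ht']
      calc (1 : ℝ) / 2 = A.Y * (1 / (2 * A.Y)) := by field_simp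
        _ < A.Y * |u| := mul_lt_mul_of_pos_left hu hY0
    have h0 : |(0 : ℝ)| ≤ 1 / A.Y := by
      rw [abs_zero]
      positivity
    have h1 := large hA (y := y) (u := u) (K := C * (1 + t) ^ 3 * E)
      (by
        have := hb 0 u h0
        rwa [← ht', ← hE'] at this)
      (by
        have := hb 0 0 h0
        rw [abs_zero, mul_zero, add_zero, one_pow, mul_one, ← hE'] at this
        refine this.trans ?_
        have h2 := mul_le_mul_of_nonneg_left h1t hCE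
        linarith)
    refine h1.trans ?_
    have h3 : 1 ≤ 4 * t ^ 2 := by nlinarith
    have h4 : 0 ≤ C * (1 + t) ^ 3 * E := by
      have := mul_nonneg hCE (by positivity : (0 : ℝ) ≤ (1 + t) ^ 3)
      linarith
    nlinarith [mul_le_mul_of_nonneg_left h3 h4]

end Pool.Agent.Lib.G2
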