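import Mathlib
import Pool.Agent.Lib.MP_f9aece_nt_g2.T1

/-!
The law of `log |zeta|` under the measure `|zeta| ^ 2`, module T2: two Euler products and the mollifier.
-/

set_option autoImplicit false

namespace Pool.Agent.Lib.G2.T2

open MeasureTheory Set Filter Topology Complex ProbabilityTheory
open scoped ComplexConjugate
open Pool.Agent.Lib.GT
open T1

/-- the coefficients -/
noncomputable def b4 (u1 u2 : ℝ) (p : ℕ) : ℂ :=
  (p : ℂ) ^ (-(I * u1) : ℂ) + (p : ℂ) ^ (-(I * u2) : ℂ) - 1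

lemma b4_eq {A : Par} (hA : A.Ok) (u1 u2 : ℝ) {p : ℕ} (hp : p ∈ A.U) :
    (A.h p : ℂ) * ((-1 : ℝ) : ℂ) + 0 + a0 u1 p + a0 u2 p = A.h p * b4 u1 u2 p := by
  unfold b4
  rw [a0_eq A u1 (mem_U hA hp).1.pos, a0_eq A u2 (mem_U hA hp).1.pos]
  push_cast
  ring

lemma re_sub_one {z : ℂ} (hz : ‖z‖ = 1) : (z - 1).re = -(‖z - 1‖ ^ 2 / 2) := by
  have h1 := Complex.sq_norm z
  have h2 := Complex.sq_norm (z - 1)
  rw [Complex.normSq_apply] at h1 h2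
  rw [h2]
  rw [hz] at h1
  simp only [Complex.sub_re, Complex.sub_im, Complex.one_re, Complex.one_im, sub_zero]
  linarith

lemma term_bd {z w : ℂ} (hz : ‖z‖ = 1) (hw : ‖w‖ = 1) {sg be : ℝ} (hs : |sg| = 1) (hb : 0 ≤ be)
    (hb' : be ≤ 1 / 20) : sg * be * ((z + w - 1).re - 1) + (‖z + w - 1‖ ^ 2 - 1)
      ≤ 41 / 40 * (‖z - 1‖ ^ 2 + ‖w - 1‖ ^ 2) := by
  have h1 := re_sub_one hz
  have h2 := re_sub_one hw
  have h3 : (z + w - 1).re - 1 = (z - 1).re + (w - 1).re := by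
    simp only [Complex.sub_re, Complex.add_re, Complex.one_re]
    ring
  have h4 : ‖z + w - 1‖ ^ 2 - 1 = 2 * ((z - 1).re + (w - 1).re) + ‖(z - 1) + (w - 1)‖ ^ 2 := by
    rw [Complex.sq_norm, Complex.sq_norm, Complex.normSq_apply, Complex.normSq_apply]
    simp only [Complex.sub_re, Complex.sub_im, Complex.add_re, Complex.add_im, Complex.one_re,
      Complex.one_im]
    ring
  have h5 : ‖(z - 1) + (w - 1)‖ ^ 2 ≤ 2 * (‖z - 1‖ ^ 2 + ‖w - 1‖ ^ 2) := by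
    have h6 := norm_add_le (z - 1) (w - 1)
    have h7 : ‖(z - 1) + (w - 1)‖ ^ 2 ≤ (‖z - 1‖ + ‖w - 1‖) ^ 2 := pow_le_pow_left₀ (norm_nonneg _) h6 2
    nlinarith [sq_nonneg (‖z - 1‖ - ‖w - 1‖)]
  rw [h3, h4, h1, h2]
  have h8 : sg * be * (-(‖z - 1‖ ^ 2 / 2) + -(‖w - 1‖ ^ 2 / 2)) ≤
      1 / 20 * ((‖z - 1‖ ^ 2 + ‖w - 1‖ ^ 2) / 2) := by
    refine (le_abs_self _).trans ?_
    rw [abs_mul, abs_mul, hs, one_mul, abs_of_nonneg hb]
    have h9 : |-(‖z - 1‖ ^ 2 / 2) + -(‖w - 1‖ ^ 2 / 2)| = (‖z - 1‖ ^ 2 + ‖w - 1‖ ^ 2) / 2 := by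
      rw [show -(‖z - 1‖ ^ 2 / 2) + -(‖w - 1‖ ^ 2 / 2) = -((‖z - 1‖ ^ 2 + ‖w - 1‖ ^ 2) / 2) by ring,
        abs_neg, abs_of_nonneg (by positivity)]
    rw [h9]
    exact mul_le_mul_of_nonneg_right hb' (by positivity)
  linarith

end Pool.Agent.Lib.G2.T2

namespace Pool.Agent.Lib.G2

open T1 T2 MeasureTheory Set Filter Topology Complex ProbabilityTheory
open scoped ComplexConjugate
open Pool.Agent.Lib.GT

theorem fuFour (h1 : WBd) (h2 : PrimeSums) : FuFour := by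
  obtain ⟨C1, hC1, H1⟩ := core h1
  obtain ⟨C2, hC2, H2⟩ := h2
  refine ⟨1 + C1 * Real.exp (3 * C2), ?_, fun A hA y u1 u2 => ?_⟩
  · have : 0 ≤ C1 * Real.exp (3 * C2) := by positivity
    linarith
  obtain ⟨P1, -, -⟩ := H2 A hA
  have hY : 0 < A.Y := by linarith [hA.hY]
  have hbe2 : A.be ≤ 1 / 20 := hA.hbb.trans hA.hb
  have hlin : ∀ u : ℝ, 1 ≤ 1 + A.Y * |u| := fun u => by
    have : 0 ≤ A.Y * |u| := by positivity
    linarith
  have hlog : ∀ u : ℝ, 0 ≤ Real.log (1 + A.Y * |u|) := fun u => Real.log_nonneg (hlin u)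
  have hE : ∑ p ∈ A.U, (p : ℝ)⁻¹ * (A.sg * A.be * ((b4 u1 u2 p).re - 1) + (‖b4 u1 u2 p‖ ^ 2 - 1))
      ≤ 3 * C2 + (9 * Real.log (1 + A.Y * |u1|) + 9 * Real.log (1 + A.Y * |u2|)) := by
    have h3 : ∀ p ∈ A.U, (p : ℝ)⁻¹ * (A.sg * A.be * ((b4 u1 u2 p).re - 1) + (‖b4 u1 u2 p‖ ^ 2 - 1))
        ≤ 41 / 40 * ((p : ℝ)⁻¹ * ‖(p : ℂ) ^ (-(I * u1) : ℂ) - 1‖ ^ 2)
          + 41 / 40 * ((p : ℝ)⁻¹ * ‖(p : ℂ) ^ (-(I * u2) : ℂ) - 1‖ ^ 2) := by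
      intro p hp
      have hpp := (mem_U hA hp).1.pos
      have h4 := term_bd (norm_pu u1 hpp) (norm_pu u2 hpp) (abs_sg hA) hA.hbe.le hbe2
      have h5 : (0 : ℝ) ≤ (p : ℝ)⁻¹ := by positivity
      have h6 := mul_le_mul_of_nonneg_left h4 h5
      unfold b4
      linarith
    refine (Finset.sum_le_sum h3).trans ?_
    rw [Finset.sum_add_distrib, ← Finset.mul_sum, ← Finset.mul_sum]
    have h7 := P1 u1
    have h8 := P1 u2
    have h9 := hlog u1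
    have h10 := hlog u2
    linarith
  have hz : ∀ p : ℕ, ‖(0 : ℂ)‖ ≤ 2 / Real.sqrt p := fun p => by rw [norm_zero]; positivity
  have h3 := H1 A hA (-1) (by simp) (fun _ => 0) (a0 u1) (a0 u2) (b4 u1 u2)
    (okD hz (a0_le u1) (a0_le u2)) (fun p hp => b4_eq hA u1 u2 hp) _ hE ∅ ∅
    (le_refl _) (Finset.empty_subset _) y
  have h4 : ∀ x, A.Wg ∅ ∅ y x * (‖A.mo ((-1 : ℝ) : ℂ) ∅ x‖ ^ 2 *
      ‖HR A.U (fun _ => 0) (a0 u1) (a0 u2) x‖ ^ 2)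
      = A.W ∅ y x * ‖A.mo (-1) ∅ x‖ ^ 2 * (‖A.FU 0 u1 x‖ ^ 2 * ‖A.FU 0 u2 x‖ ^ 2) := by
    intro x
    have h5 : HR A.U (fun _ => 0) (a0 u1) (a0 u2) x = A.FU 0 u1 x * A.FU 0 u2 x := by
      unfold HR Par.FU
      simp only [zero_mul, Finset.sum_const_zero, Complex.exp_zero, one_mul]
      rw [Finset.prod_mul_distrib]
      unfold a0
      simp only [Complex.ofReal_zero, sub_zero]
    rw [h5, norm_mul]
    unfold Par.W
    push_cast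
    ring
  simp_rw [h4] at h3
  refine h3.trans ?_
  have h11 : Real.exp (3 * C2 + (9 * Real.log (1 + A.Y * |u1|) + 9 * Real.log (1 + A.Y * |u2|))) =
      Real.exp (3 * C2) * ((1 + A.Y * |u1|) ^ 9 * (1 + A.Y * |u2|) ^ 9) := by
    have h12 : ∀ u : ℝ, Real.exp (9 * Real.log (1 + A.Y * |u|)) = (1 + A.Y * |u|) ^ 9 := fun u => by
      rw [show (9 : ℝ) * Real.log (1 + A.Y * |u|) = ((9 : ℕ) : ℝ) * Real.log (1 + A.Y * |u|) by norm_num,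
        Real.exp_nat_mul, Real.exp_log (by linarith [hlin u])]
    rw [Real.exp_add, Real.exp_add, h12, h12]
  rw [h11, Finset.sum_empty, mul_zero, neg_zero, Real.exp_zero, mul_one]
  have h12 : 0 ≤ A.Gs y := by unfold Par.Gs Par.G; positivity
  have h13 : 0 ≤ (1 + A.Y * |u1|) ^ 9 * (1 + A.Y * |u2|) ^ 9 * (Real.exp A.vt * A.Gs y) := by positivity
  nlinarith

end Pool.Agent.Lib.G2
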