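import Mathlib
import Pool.Agent.Lib.MP_f9aece_nt_g2.Cont

/-!
The law of `log |zeta|` under the measure `|zeta| ^ 2`: continuity, bounds and dependence of the
Euler products and of the smooth sums.
-/

set_option autoImplicit false

namespace Pool.Agent.Lib.G2

open MeasureTheory Set Filter Topology Complex ProbabilityTheory
open scoped ComplexConjugate
open Pool.Agent.Lib.MP_f9aece_nt (VV)
open Pool.Agent.Lib.J4 (V2)
open Pool.Agent.Lib.GT

namespace Par

variable (A : Par)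

/-! ### the Euler products and the sums -/

lemma mem_U {A : Par} {p : ℕ} (hp : p ∈ A.U) : p.Prime ∧ A.p0 < p := by
  unfold U at hp
  obtain ⟨g, _, hg⟩ := Finset.mem_biUnion.mp hp
  unfold S at hg
  exact ⟨(Finset.mem_filter.mp hg).2.1, (Finset.mem_filter.mp hg).2.2.1⟩

lemma norm_cpow_FU {p : ℕ} (hp : 0 < p) (κ u : ℝ) :
    ‖(p : ℂ) ^ (-(1 / 2 - κ + I * u) : ℂ)‖ = (p : ℝ) ^ (κ - 1 / 2) := by
  rw [Complex.norm_natCast_cpow_of_pos hp]
  congr 1
  simp

lemma norm_cpow_FU_lt (hA : A.Ok) {p : ℕ} (hp : p ∈ A.U) {κ : ℝ} (hκ : κ ≤ 1 / 4) (u : ℝ) :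
    ‖(p : ℂ) ^ (-(1 / 2 - κ + I * u) : ℂ)‖ ≤ 1 / 2 := by
  have h1 := mem_U hp
  have h2 : (1000 : ℝ) ≤ p := by
    have := hA.hp
    have : 1000 ≤ p := by omega
    exact_mod_cast this
  rw [norm_cpow_FU h1.1.pos]
  calc (p : ℝ) ^ (κ - 1 / 2) ≤ (p : ℝ) ^ (-(1 / 4) : ℝ) :=
        Real.rpow_le_rpow_of_exponent_le (by linarith) (by linarith)
    _ ≤ (1000 : ℝ) ^ (-(1 / 4) : ℝ) :=
        Real.rpow_le_rpow_of_nonpos (by norm_num) h2 (by norm_num)
    _ ≤ (16 : ℝ) ^ (-(1 / 4) : ℝ) :=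
        Real.rpow_le_rpow_of_nonpos (by norm_num) (by norm_num) (by norm_num)
    _ = 1 / 2 := by
        rw [show (16 : ℝ) = 2 ^ (4 : ℝ) by norm_num, ← Real.rpow_mul (by norm_num)]
        norm_num [Real.rpow_neg_one]

lemma one_sub_FU_ne (hA : A.Ok) {p : ℕ} (hp : p ∈ A.U) {κ : ℝ} (hκ : κ ≤ 1 / 4) (u θ : ℝ) :
    1 / 2 ≤ ‖1 - (p : ℂ) ^ (-(1 / 2 - κ + I * u) : ℂ) * e1 θ‖ := by
  have h1 := A.norm_cpow_FU_lt hA hp hκ u
  have h2 := norm_sub_norm_le (1 : ℂ) ((p : ℂ) ^ (-(1 / 2 - κ + I * u) : ℂ) * e1 θ)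
  rw [norm_mul, norm_e1, mul_one, norm_one] at h2
  linarith

/-- joint continuity of the Euler products in the shift and in the point -/
lemma continuous_FU (hA : A.Ok) {κ : ℝ} (hκ : κ ≤ 1 / 4) :
    Continuous fun w : ℝ × Om => A.FU κ w.1 w.2 := by
  unfold FU
  refine continuous_finsetProd _ fun p hp => ?_
  have hp0 : (p : ℂ) ≠ 0 := by
    have := (mem_U hp).1.ne_zero
    exact_mod_cast this
  refine Continuous.inv₀ ?_ fun w => ?_
  · refine continuous_const.sub (Continuous.mul ?_ ?_)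
    · exact Continuous.const_cpow (by fun_prop) (Or.inl hp0)
    · exact continuous_e1.comp ((continuous_apply p).comp continuous_snd)
  · have := A.one_sub_FU_ne hA hp hκ w.1 (w.2 p)
    intro h0
    rw [h0, norm_zero] at this
    norm_num at this

lemma continuous_FU' (hA : A.Ok) {κ : ℝ} (hκ : κ ≤ 1 / 4) (u : ℝ) : Continuous (A.FU κ u) :=
  (A.continuous_FU hA hκ).comp (f := fun x : Om => ((u, x) : ℝ × Om)) (by fun_prop)

lemma continuous_FU_u (hA : A.Ok) {κ : ℝ} (hκ : κ ≤ 1 / 4) (x : Om) :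
    Continuous fun u : ℝ => A.FU κ u x :=
  (A.continuous_FU hA hκ).comp (f := fun u : ℝ => ((u, x) : ℝ × Om)) (by fun_prop)

/-- uniform bound of the Euler products -/
lemma norm_FU_le (hA : A.Ok) {κ : ℝ} (hκ : κ ≤ 1 / 4) (u : ℝ) (x : Om) :
    ‖A.FU κ u x‖ ≤ 2 ^ A.U.card := by
  unfold FU
  rw [norm_prod, ← Finset.prod_const]
  refine Finset.prod_le_prod (fun p _ => norm_nonneg _) fun p hp => ?_
  rw [norm_inv]
  have := A.one_sub_FU_ne hA hp hκ u (x p)
  rw [inv_le_comm₀ (by linarith) (by norm_num)]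
  norm_num at this ⊢
  linarith

lemma dep_FU (κ u : ℝ) : Dep (A.U : Set ℕ) (A.FU κ u) := by
  intro x y hxy
  unfold FU
  refine Finset.prod_congr rfl fun p hp => ?_
  rw [hxy p (Finset.mem_coe.mpr hp)]

end Par

@[fun_prop]
lemma continuous_Sm (w a : ℝ) : Continuous (Sm w a) := by
  unfold Sm
  exact continuous_finsetSum _ fun n _ => continuous_const.mul (continuous_const.mul
    (continuous_ch n))

@[fun_prop]
lemma continuous_Sr (N : ℕ) (ρ : ℝ → ℂ) : Continuous (Sr N ρ) := by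
  unfold Sr
  exact continuous_finsetSum _ fun n _ => continuous_const.mul (continuous_const.mul
    (continuous_ch n))

@[fun_prop]
lemma continuous_Sl (A : Par) (N : ℕ) (ρ : ℝ → ℂ) (l : ℕ) : Continuous (Sl A N ρ l) := by
  unfold Sl
  exact continuous_finsetSum _ fun n _ => continuous_const.mul (continuous_const.mul
    (continuous_ch n))

lemma norm_Sm_le (w a : ℝ) (x : Om) : ‖Sm w a x‖ ≤ ∑ n ∈ Finset.Icc 1 ⌊Real.exp a⌋₊,
    ‖(Real.smoothTransition ((a - Real.log n) / w) : ℂ) * (n : ℂ) ^ (-(1 / 2) : ℂ)‖ := by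
  unfold Sm
  refine (norm_sum_le _ _).trans (le_of_eq (Finset.sum_congr rfl fun n _ => ?_))
  rw [← mul_assoc, norm_mul, norm_ch, mul_one]

lemma norm_Sl_le (A : Par) (N : ℕ) (ρ : ℝ → ℂ) (l : ℕ) (x : Om) : ‖Sl A N ρ l x‖
    ≤ ∑ m ∈ Smo A (N / l), ‖ρ (Real.log l + Real.log m) * (m : ℂ) ^ (-(1 / 2) : ℂ)‖ := by
  unfold Sl
  refine (norm_sum_le _ _).trans (le_of_eq (Finset.sum_congr rfl fun n _ => ?_))
  rw [← mul_assoc, norm_mul, norm_ch, mul_one]

/-- the smooth sums as weighted sums -/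
lemma Sm_eq_Sr (w a : ℝ) (x : Om) : Sm w a x
    = Sr ⌊Real.exp a⌋₊ (fun ξ => (Real.smoothTransition ((a - ξ) / w) : ℂ)) x := rfl

/-- enlarging the range of summation of a smooth sum -/
lemma Sm_eq_Sr_of_le {w a : ℝ} (hw : 0 < w) {N : ℕ} (hN : ⌊Real.exp a⌋₊ ≤ N) (x : Om) : Sm w a x
    = Sr N (fun ξ => (Real.smoothTransition ((a - ξ) / w) : ℂ)) x := by
  rw [Sm_eq_Sr]
  unfold Sr
  refine Finset.sum_subset (Finset.Icc_subset_Icc_right hN) fun n hn hn' => ?_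
  have h1 : 1 ≤ n := (Finset.mem_Icc.mp hn).1
  have h2 : Real.exp a < n := by
    by_contra hc
    push Not at hc
    exact hn' (Finset.mem_Icc.mpr ⟨h1, Nat.le_floor hc⟩)
  have h3 : a < Real.log n := by
    rw [Real.lt_log_iff_exp_lt (by exact_mod_cast h1)]
    exact h2
  have h4 : (a - Real.log n) / w ≤ 0 := div_nonpos_of_nonpos_of_nonneg (by linarith) hw.le
  simp only
  rw [Real.smoothTransition.zero_of_nonpos h4]
  simp

end Pool.Agent.Lib.G2
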