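import Mathlib
import Pool.Agent.Lib.MP_f9aece_nt_g2.Cont

/-!
The law of `log |zeta|` under the measure `|zeta| ^ 2`: common part of T3, T4, T5, T8
(smooth sums through Euler products: Cauchy-Schwarz against the kernels).
-/

set_option autoImplicit false

namespace Pool.Agent.Lib.G2

open MeasureTheory Set Filter Topology Complex
open scoped ComplexConjugate ENNReal
open Pool.Agent.Lib.GT

namespace TS

/-! ### Cauchy-Schwarz -/

lemma lint_cs {β : Type*} [MeasurableSpace β] {ν : Measure β} {k G m : β → ℝ≥0∞}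
    (hk : Measurable k) (hG : Measurable G) (hm : Measurable m)
    (hm0 : ∀ᵐ b ∂ν, m b ≠ 0) (hmt : ∀ b, m b ≠ ∞) :
    (∫⁻ b, k b * G b ∂ν) ^ 2 ≤ (∫⁻ b, k b * m b ∂ν) * ∫⁻ b, k b * (G b ^ 2 / m b) ∂ν := by
  have hm1 : Measurable fun b => (k b * m b) ^ (1 / 2 : ℝ) := by fun_prop
  have hm2 : Measurable fun b => (k b * (G b ^ 2 / m b)) ^ (1 / 2 : ℝ) := by fun_prop
  have h1 := ENNReal.lintegral_mul_le_Lp_mul_Lq ν (Real.HolderConjugate.two_two)
    hm1.aemeasurable hm2.aemeasurable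
  have e1 : ∀ z : ℝ≥0∞, (z ^ (1 / 2 : ℝ)) ^ (2 : ℝ) = z := by
    intro z
    rw [← ENNReal.rpow_mul]
    norm_num
  have e2 : ∫⁻ b, k b * G b ∂ν
      = ∫⁻ b, ((fun b => (k b * m b) ^ (1 / 2 : ℝ)) * fun b => (k b * (G b ^ 2 / m b)) ^ (1 / 2 : ℝ)) b
          ∂ν := by
    refine lintegral_congr_ae ?_
    filter_upwards [hm0] with b hb
    simp only [Pi.mul_apply]
    rw [← ENNReal.mul_rpow_of_nonneg _ _ (by norm_num)]
    have e3 : k b * m b * (k b * (G b ^ 2 / m b)) = (k b * G b) ^ (2 : ℝ) := by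
      rw [ENNReal.rpow_two]
      calc k b * m b * (k b * (G b ^ 2 / m b)) = k b ^ 2 * (m b * (G b ^ 2 / m b)) := by ring
        _ = k b ^ 2 * G b ^ 2 := by rw [ENNReal.mul_div_cancel hb (hmt b)]
        _ = _ := by ring
    rw [e3, ← ENNReal.rpow_mul]
    norm_num
  rw [e2]
  simp only [e1] at h1
  calc _ ≤ ((∫⁻ b, k b * m b ∂ν) ^ (1 / 2 : ℝ)
        * (∫⁻ b, k b * (G b ^ 2 / m b) ∂ν) ^ (1 / 2 : ℝ)) ^ 2 := pow_le_pow_left' h1 2
    _ = _ := by
      rw [mul_pow, ← ENNReal.rpow_two, ← ENNReal.rpow_two, e1, e1]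

/-- Cauchy-Schwarz against a kernel, under a weight on the torus -/
lemma cs_gen {β : Type*} [MeasurableSpace β] {ν : Measure β} [SFinite ν] {f : Om → ℝ≥0∞}
    (hf : Measurable f) {k m : β → ℝ≥0∞} {G : β → Om → ℝ≥0∞} (hk : Measurable k)
    (hG : Measurable (Function.uncurry G)) (hm : Measurable m) (hm0 : ∀ᵐ b ∂ν, m b ≠ 0)
    (hmt : ∀ b, m b ≠ ∞) {B : ℝ≥0∞} (h : ∀ b, ∫⁻ x, f x * G b x ^ 2 ∂mu ≤ B * m b ^ 2) :
    ∫⁻ x, f x * (∫⁻ b, k b * G b x ∂ν) ^ 2 ∂mu ≤ B * (∫⁻ b, k b * m b ∂ν) ^ 2 := by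
  have hGx : ∀ x, Measurable fun b => G b x := fun x => hG.comp (measurable_id.prodMk measurable_const)
  have hGb : ∀ b, Measurable fun x => G b x := fun b => hG.comp (measurable_const.prodMk measurable_id)
  calc ∫⁻ x, f x * (∫⁻ b, k b * G b x ∂ν) ^ 2 ∂mu
      ≤ ∫⁻ x, f x * ((∫⁻ b, k b * m b ∂ν) * ∫⁻ b, k b * (G b x ^ 2 / m b) ∂ν) ∂mu :=
        lintegral_mono fun x => mul_le_mul_right (lint_cs hk (hGx x) hm hm0 hmt) _
    _ = (∫⁻ b, k b * m b ∂ν) * ∫⁻ x, f x * ∫⁻ b, k b * (G b x ^ 2 / m b) ∂ν ∂mu := by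
        have hme : Measurable fun x => ∫⁻ b, k b * (G b x ^ 2 / m b) ∂ν := by
          refine Measurable.lintegral_prod_right' (f := fun q : Om × β => k q.2 * (G q.2 q.1 ^ 2 / m q.2)) ?_
          exact (hk.comp measurable_snd).mul (((hG.comp measurable_swap).pow_const 2).div
            (hm.comp measurable_snd))
        have hme2 : Measurable fun x => f x * ∫⁻ b, k b * (G b x ^ 2 / m b) ∂ν := hf.mul hme
        rw [← lintegral_const_mul _ hme2]
        refine lintegral_congr fun x => ?_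
        ring
    _ = (∫⁻ b, k b * m b ∂ν) * ∫⁻ b, ∫⁻ x, f x * (k b * (G b x ^ 2 / m b)) ∂mu ∂ν := by
        congr 1
        rw [lintegral_lintegral_swap (f := fun b x => f x * (k b * (G b x ^ 2 / m b)))]
        · refine lintegral_congr fun x => ?_
          rw [lintegral_const_mul]
          exact hk.mul (((hGx x).pow_const 2).div hm)
        · refine Measurable.aemeasurable ?_
          exact (hf.comp measurable_snd).mul ((hk.comp measurable_fst).mul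
            ((hG.pow_const 2).div (hm.comp measurable_fst)))
    _ ≤ (∫⁻ b, k b * m b ∂ν) * ∫⁻ b, B * (k b * m b) ∂ν := by
        refine mul_le_mul_right (lintegral_mono_ae ?_) _
        filter_upwards [hm0] with b hb
        have e1 : ∫⁻ x, f x * (k b * (G b x ^ 2 / m b)) ∂mu
            = k b / m b * ∫⁻ x, f x * G b x ^ 2 ∂mu := by
          have hme3 : Measurable fun x => f x * G b x ^ 2 := hf.mul ((hGb b).pow_const 2)
          rw [← lintegral_const_mul _ hme3]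
          refine lintegral_congr fun x => ?_
          rw [ENNReal.div_eq_inv_mul, ENNReal.div_eq_inv_mul]
          ring
        rw [e1]
        calc k b / m b * ∫⁻ x, f x * G b x ^ 2 ∂mu ≤ k b / m b * (B * m b ^ 2) :=
              mul_le_mul_right (h b) _
          _ = B * (k b * (m b / m b * m b)) := by
              rw [ENNReal.div_eq_inv_mul, ENNReal.div_eq_inv_mul]
              ring
          _ = B * (k b * m b) := by rw [ENNReal.div_self hb (hmt b), one_mul]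
    _ = B * (∫⁻ b, k b * m b ∂ν) ^ 2 := by
        have hme4 : Measurable fun b => k b * m b := hk.mul hm
        rw [lintegral_const_mul _ hme4]
        ring

/-- from the lower integral to the integral -/
lemma int_le {α : Type*} [MeasurableSpace α] {μ : Measure α} {f : α → ℝ} (h0 : ∀ x, 0 ≤ f x) {B : ℝ}
    (hB : 0 ≤ B) (h : ∫⁻ x, ENNReal.ofReal (f x) ∂μ ≤ ENNReal.ofReal B) : ∫ x, f x ∂μ ≤ B := by
  by_cases hf : AEStronglyMeasurable f μ
  · rw [integral_eq_lintegral_of_nonneg_ae (Eventually.of_forall h0) hf]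
    exact ENNReal.toReal_le_of_le_ofReal hB h
  · rw [integral_undef fun hi => hf hi.1]
    exact hB

/-- Cauchy-Schwarz against a kernel, under a weight on the torus, for real functions -/
lemma cs_real {β : Type*} [MeasurableSpace β] {ν : Measure β} [SFinite ν] {f : Om → ℝ}
    (hf : Measurable f) (hf0 : ∀ x, 0 ≤ f x) {B0 : ℝ} (hfB : ∀ x, f x ≤ B0) {K : β → ℂ} {m : β → ℝ}
    {g : β → Om → ℂ} (hK : Measurable K) (hg : Measurable (Function.uncurry g)) {Bg : ℝ}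
    (hgB : ∀ b x, ‖g b x‖ ≤ Bg) (hm : Measurable m) (hmn : ∀ b, 0 ≤ m b) (hm0 : ∀ᵐ b ∂ν, 0 < m b)
    {Bd : ℝ} (hBd : 0 ≤ Bd) (h : ∀ b, ∫ x, f x * ‖g b x‖ ^ 2 ∂mu ≤ Bd * m b ^ 2) {M : ℝ}
    (hM : 0 ≤ M) (hKM : ∫⁻ b, ENNReal.ofReal (‖K b‖ * m b) ∂ν ≤ ENNReal.ofReal M) {S : Om → ℂ}
    (hS : ∀ x, S x = ∫ b, K b * g b x ∂ν) :
    ∫ x, f x * ‖S x‖ ^ 2 ∂mu ≤ Bd * M ^ 2 := by
  refine int_le (fun x => mul_nonneg (hf0 x) (sq_nonneg _)) (by positivity) ?_
  have hgx : ∀ b, Measurable fun x => g b x := fun b => hg.comp (measurable_const.prodMk measurable_id)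
  have h1 : ∀ b, ∫⁻ x, ENNReal.ofReal (f x) * ‖g b x‖ₑ ^ 2 ∂mu
      ≤ ENNReal.ofReal Bd * ENNReal.ofReal (m b) ^ 2 := by
    intro b
    have hi : Integrable (fun x => f x * ‖g b x‖ ^ 2) mu := by
      refine integrable_of_le (B := B0 * Bg ^ 2)
        (hf.mul ((hgx b).norm.pow_const 2)).aestronglyMeasurable fun x => ?_
      rw [Real.norm_of_nonneg (mul_nonneg (hf0 x) (sq_nonneg _))]
      exact mul_le_mul (hfB x) (pow_le_pow_left₀ (norm_nonneg _) (hgB b x) 2) (sq_nonneg _)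
        ((hf0 x).trans (hfB x))
    have h2 : ∀ x, ENNReal.ofReal (f x) * ‖g b x‖ₑ ^ 2 = ENNReal.ofReal (f x * ‖g b x‖ ^ 2) := by
      intro x
      rw [ENNReal.ofReal_mul (hf0 x), ENNReal.ofReal_pow (norm_nonneg _), ofReal_norm]
    simp only [h2]
    rw [← ofReal_integral_eq_lintegral_ofReal hi
      (Eventually.of_forall fun x => mul_nonneg (hf0 x) (sq_nonneg _)),
      ← ENNReal.ofReal_pow (hmn b), ← ENNReal.ofReal_mul hBd]
    exact ENNReal.ofReal_le_ofReal (h b)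
  have hke : Measurable fun b => ‖K b‖ₑ := hK.enorm
  have hge : Measurable (Function.uncurry fun b x => ‖g b x‖ₑ) := hg.enorm
  have h3 := cs_gen (ν := ν) (f := fun x => ENNReal.ofReal (f x)) hf.ennreal_ofReal hke hge
    (m := fun b => ENNReal.ofReal (m b)) hm.ennreal_ofReal
    (by filter_upwards [hm0] with b hb; exact (ENNReal.ofReal_pos.mpr hb).ne')
    (fun b => ENNReal.ofReal_ne_top) h1
  have h4 : ∫⁻ b, ‖K b‖ₑ * ENNReal.ofReal (m b) ∂ν ≤ ENNReal.ofReal M := by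
    refine le_trans (le_of_eq (lintegral_congr fun b => ?_)) hKM
    rw [ENNReal.ofReal_mul (norm_nonneg _), ofReal_norm]
  calc ∫⁻ x, ENNReal.ofReal (f x * ‖S x‖ ^ 2) ∂mu
      ≤ ∫⁻ x, ENNReal.ofReal (f x) * (∫⁻ b, ‖K b‖ₑ * ‖g b x‖ₑ ∂ν) ^ 2 ∂mu := by
        refine lintegral_mono fun x => ?_
        rw [ENNReal.ofReal_mul (hf0 x), ENNReal.ofReal_pow (norm_nonneg _), ofReal_norm, hS x]
        refine mul_le_mul_right (pow_le_pow_left' ?_ 2) _
        refine (enorm_integral_le_lintegral_enorm _).trans (le_of_eq (lintegral_congr fun b => ?_))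
        exact enorm_mul _ _
    _ ≤ ENNReal.ofReal Bd * (∫⁻ b, ‖K b‖ₑ * ENNReal.ofReal (m b) ∂ν) ^ 2 := h3
    _ ≤ ENNReal.ofReal Bd * ENNReal.ofReal M ^ 2 := mul_le_mul_right (pow_le_pow_left' h4 2) _
    _ = ENNReal.ofReal (Bd * M ^ 2) := by
        rw [← ENNReal.ofReal_pow hM, ← ENNReal.ofReal_mul hBd]

/-! ### the groups -/

lemma mem_U {A : Par} {p : ℕ} (hp : p ∈ A.U) : p.Prime ∧ A.p0 < p := by
  unfold Par.U Par.S at hp
  simp only [Finset.mem_biUnion, Finset.mem_filter] at hp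
  obtain ⟨g, -, -, h1, h2, -⟩ := hp
  exact ⟨h1, h2⟩

lemma mem_U_le {A : Par} (hY : 0 ≤ A.Y) {p : ℕ} (hp : p ∈ A.U) : (p : ℝ) ≤ Real.exp A.Y := by
  unfold Par.U Par.S at hp
  simp only [Finset.mem_biUnion, Finset.mem_filter, Finset.mem_Icc] at hp
  obtain ⟨g, -, ⟨-, h1⟩, -⟩ := hp
  have h2 : (p : ℝ) ≤ Real.exp (A.Yf g) := (Nat.le_floor_iff (Real.exp_pos _).le).1 h1
  refine h2.trans (Real.exp_le_exp.mpr ?_)
  unfold Par.Yf
  have h3 : Real.exp (-((A.v : ℝ) * g)) ≤ 1 := by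
    rw [Real.exp_le_one_iff]
    have : (0 : ℝ) ≤ (A.v : ℝ) * g := by positivity
    linarith
  calc A.Y * Real.exp (-((A.v : ℝ) * g)) ≤ A.Y * 1 := mul_le_mul_of_nonneg_left h3 hY
    _ = A.Y := mul_one _

/-- `Y` is at least `6` -/
lemma six_le_Y {A : Par} (hA : A.Ok) : 6 ≤ A.Y := by
  have hY := hA.hY
  have h1 : A.U.Nonempty := by
    by_contra h
    rw [Finset.not_nonempty_iff_eq_empty] at h
    have h2 := hA.hs
    unfold Par.s2 Par.vt at h2
    rw [h, Finset.sum_empty] at h2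
    norm_num at h2
  obtain ⟨p, hp⟩ := h1
  have h2 := (mem_U hp).2
  have h3 := mem_U_le (by linarith) hp
  have h4 : (1000 : ℝ) < p := by exact_mod_cast lt_of_le_of_lt hA.hp h2
  by_contra h5
  push Not at h5
  have h6 : Real.exp A.Y ≤ Real.exp 6 := Real.exp_le_exp.mpr h5.le
  have h7 : Real.exp 6 < 1000 := by
    have h8 : Real.exp 6 = Real.exp 1 ^ 6 := by rw [← Real.exp_nat_mul]; norm_num
    rw [h8]
    calc Real.exp 1 ^ 6 < (2.7182818286 : ℝ) ^ 6 := by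
          gcongr
          exact Real.exp_one_lt_d9
      _ < 1000 := by norm_num
  linarith

/-! ### the Euler products -/

lemma measurable_FU (A : Par) (κ : ℝ) : Measurable (Function.uncurry (A.FU κ)) := by
  have h : ∀ p ∈ A.U, Measurable fun q : ℝ × Om =>
      (1 - (p : ℂ) ^ (-(1 / 2 - κ + I * q.1) : ℂ) * e1 (q.2 p))⁻¹ := by
    intro p hp
    have hp0 : (p : ℂ) ≠ 0 := by exact_mod_cast (mem_U hp).1.ne_zero
    have h1 : Continuous fun q : ℝ × Om => (p : ℂ) ^ (-(1 / 2 - κ + I * q.1) : ℂ) :=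
      Continuous.const_cpow (by fun_prop) (Or.inl hp0)
    have h2 : Continuous fun q : ℝ × Om => e1 (q.2 p) :=
      continuous_e1.comp ((continuous_apply p).comp continuous_snd)
    exact (continuous_const.sub (h1.mul h2)).measurable.inv
  have e : Function.uncurry (A.FU κ) = fun q : ℝ × Om =>
      ∏ p ∈ A.U, (1 - (p : ℂ) ^ (-(1 / 2 - κ + I * q.1) : ℂ) * e1 (q.2 p))⁻¹ := by
    funext q
    rfl
  rw [e]
  exact Finset.measurable_fun_prod _ h

lemma norm_FU_le {A : Par} (hA : A.Ok) {κ : ℝ} (hκ : κ ≤ 1 / 4) (u : ℝ) (x : Om) :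
    ‖A.FU κ u x‖ ≤ 2 ^ A.U.card := by
  unfold Par.FU
  rw [norm_prod]
  refine le_trans (Finset.prod_le_prod (g := fun _ => (2 : ℝ)) (fun _ _ => norm_nonneg _)
    fun p hp => ?_) (le_of_eq (by rw [Finset.prod_const]))
  have hp1 := (mem_U hp).1
  have hp2 : (1000 : ℝ) ≤ p := by
    exact_mod_cast (lt_of_le_of_lt hA.hp (mem_U hp).2).le
  have hp0 : (0 : ℝ) < p := by linarith
  have h1 : ‖(p : ℂ) ^ (-(1 / 2 - κ + I * u) : ℂ) * e1 (x p)‖ ≤ 1 / 2 := by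
    rw [norm_mul, norm_e1, mul_one, Complex.norm_natCast_cpow_of_pos hp1.pos]
    have h2 : (-(1 / 2 - κ + I * u) : ℂ).re = κ - 1 / 2 := by
      simp
    rw [h2]
    calc (p : ℝ) ^ (κ - 1 / 2) ≤ (p : ℝ) ^ (-(1 / 4) : ℝ) :=
          Real.rpow_le_rpow_of_exponent_le (by linarith) (by linarith)
      _ ≤ (16 : ℝ) ^ (-(1 / 4) : ℝ) :=
          Real.rpow_le_rpow_of_nonpos (by norm_num) (by linarith) (by norm_num)
      _ = 1 / 2 := by
          rw [show (16 : ℝ) = 2 ^ (4 : ℝ) by norm_num, ← Real.rpow_mul (by norm_num)]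
          norm_num
  rw [norm_inv]
  have h3 : 1 / 2 ≤ ‖1 - (p : ℂ) ^ (-(1 / 2 - κ + I * u) : ℂ) * e1 (x p)‖ := by
    have h4 := norm_sub_norm_le (1 : ℂ) ((p : ℂ) ^ (-(1 / 2 - κ + I * u) : ℂ) * e1 (x p))
    rw [norm_one] at h4
    linarith
  calc ‖1 - (p : ℂ) ^ (-(1 / 2 - κ + I * u) : ℂ) * e1 (x p)‖⁻¹ ≤ (1 / 2 : ℝ)⁻¹ :=
        inv_anti₀ (by norm_num) h3
    _ = 2 := by norm_num

/-! ### the kernels -/

/-- the integral of the profile -/
noncomputable def cc : ℝ := ∫ t : ℝ, 1 / (1 + |t|) ^ 2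

lemma integrable_prof : Integrable fun t : ℝ => 1 / (1 + |t|) ^ 2 := by
  have h := integrable_one_add_norm (E := ℝ) (μ := volume) (r := 2) (by simp)
  refine h.congr (Eventually.of_forall fun t => ?_)
  simp only [Real.norm_eq_abs]
  rw [Real.rpow_neg (by positivity), one_div]
  norm_cast

lemma cc_nonneg : 0 ≤ cc := integral_nonneg fun t => by positivity

lemma integrable_prof' {w : ℝ} (hw : 0 < w) : Integrable fun u : ℝ => 1 / (1 + w * |u|) ^ 2 := by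
  refine (integrable_prof.comp_mul_left' hw.ne').congr (Eventually.of_forall fun u => ?_)
  simp only [abs_mul, abs_of_pos hw]

lemma lint_prof {w : ℝ} (hw : 0 < w) :
    ∫⁻ u : ℝ, ENNReal.ofReal (1 / (1 + w * |u|) ^ 2) = ENNReal.ofReal (cc / w) := by
  rw [← ofReal_integral_eq_lintegral_ofReal (integrable_prof' hw)
    (Eventually.of_forall fun u => by positivity)]
  congr 1
  have h : (fun u : ℝ => 1 / (1 + w * |u|) ^ 2) = fun u => (fun t : ℝ => 1 / (1 + |t|) ^ 2) (w * u) := by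
    funext u
    simp only [abs_mul, abs_of_pos hw]
  rw [h, Measure.integral_comp_mul_left (fun t : ℝ => 1 / (1 + |t|) ^ 2) w, abs_of_pos (inv_pos.2 hw),
    smul_eq_mul]
  unfold cc
  rw [div_eq_inv_mul]

lemma lint_ker {w κ : ℝ} (hw : 0 < w) (hκ : 0 ≤ κ) {F : ℝ → ℝ}
    (h : ∀ u, F u ≤ κ * (1 / (1 + w * |u|) ^ 2)) :
    ∫⁻ u, ENNReal.ofReal (F u) ≤ ENNReal.ofReal (κ * (cc / w)) := by
  calc ∫⁻ u, ENNReal.ofReal (F u) ≤ ∫⁻ u : ℝ, ENNReal.ofReal κ * ENNReal.ofReal (1 / (1 + w * |u|) ^ 2) := by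
        refine lintegral_mono fun u => ?_
        rw [← ENNReal.ofReal_mul hκ]
        exact ENNReal.ofReal_le_ofReal (h u)
    _ = ENNReal.ofReal (κ * (cc / w)) := by
        rw [lintegral_const_mul' _ _ ENNReal.ofReal_ne_top, lint_prof hw, ENNReal.ofReal_mul hκ]

lemma integrable_ker {w κ : ℝ} (hw : 0 < w) {K : ℝ → ℂ} (hK : Continuous K)
    (h : ∀ u, ‖K u‖ ≤ κ * (1 / (1 + w * |u|) ^ 2)) : Integrable K :=
  ((integrable_prof' hw).const_mul κ).mono' hK.aestronglyMeasurable (Eventually.of_forall h)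

/-- an integral of Euler products under the tilt -/
lemma fu_ker {CF : ℝ} (hCF : 1 ≤ CF) {A : Par} (hA : A.Ok) {s s' : Finset ℕ} {y κ : ℝ}
    (hκ : κ ≤ 1 / 4)
    (hF : ∀ u : ℝ, ∫ x, A.Wg s s' y x * ‖A.FU κ u x‖ ^ 2 ∂mu
      ≤ CF * Real.exp (-(2 * ∑ g ∈ s', (A.r g : ℝ))) * (1 + A.Y * |u|) ^ 3 * (Real.exp A.vt * A.Gs y))
    {K : ℝ → ℂ} (hK : Continuous K) {w κ0 : ℝ} (hw : 0 < w) (hκ0 : 0 ≤ κ0)
    (hb : ∀ u, ‖K u‖ * (1 + A.Y * |u|) ^ 2 ≤ κ0 * (1 / (1 + w * |u|) ^ 2)) {S : Om → ℂ}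
    (hS : ∀ x, S x = ∫ u, K u * A.FU κ u x) :
    ∫ x, A.Wg s s' y x * ‖S x‖ ^ 2 ∂mu
      ≤ CF * Real.exp (-(2 * ∑ g ∈ s', (A.r g : ℝ))) * (Real.exp A.vt * A.Gs y) * (κ0 * (cc / w)) ^ 2 := by
  obtain ⟨B0, hB0⟩ := A.Wg_le hA s s' y
  have hG := (hA.Gs_pos y).le
  have hY : 0 ≤ A.Y := by have := hA.hY; linarith
  have hc := cc_nonneg
  refine cs_real (ν := volume) (A.measurable_Wg hA s s' y) (A.Wg_nonneg hA.b_pos.le s s' y) hB0
    hK.measurable (measurable_FU A κ) (fun u x => norm_FU_le hA hκ u x)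
    (m := fun u => (1 + A.Y * |u|) ^ 2) (by fun_prop) (fun u => by positivity)
    (Eventually.of_forall fun u => by positivity) (by positivity) (fun u => ?_) (by positivity)
    (lint_ker hw hκ0 hb) hS
  refine (hF u).trans ?_
  have h1 : (1 + A.Y * |u|) ^ 3 ≤ ((1 + A.Y * |u|) ^ 2) ^ 2 := by
    have h2 : 1 ≤ 1 + A.Y * |u| := by
      have : 0 ≤ A.Y * |u| := by positivity
      linarith
    rw [← pow_mul]
    exact pow_le_pow_right₀ h2 (by norm_num)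
  calc CF * Real.exp (-(2 * ∑ g ∈ s', (A.r g : ℝ))) * (1 + A.Y * |u|) ^ 3 * (Real.exp A.vt * A.Gs y)
      ≤ CF * Real.exp (-(2 * ∑ g ∈ s', (A.r g : ℝ))) * ((1 + A.Y * |u|) ^ 2) ^ 2
          * (Real.exp A.vt * A.Gs y) := by gcongr
    _ = _ := by ring

/-! ### the smooth sums -/

/-- the cut-off -/
noncomputable def cut (w a : ℝ) (ξ : ℝ) : ℂ := (Real.smoothTransition ((a - ξ) / w) : ℂ)

lemma cut_eq_zero {w a ξ : ℝ} (hw : 0 < w) (h : a ≤ ξ) : cut w a ξ = 0 := by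
  unfold cut
  rw [Real.smoothTransition.zero_of_nonpos (div_nonpos_of_nonpos_of_nonneg (by linarith) hw.le)]
  simp

lemma lt_log {N n : ℕ} {a : ℝ} (hN : ⌊Real.exp a⌋₊ ≤ N) (hn : N < n) : a < Real.log n := by
  have h1 : ⌊Real.exp a⌋₊ < n := lt_of_le_of_lt hN hn
  have h2 : Real.exp a < n := (Nat.floor_lt (Real.exp_pos a).le).mp h1
  rw [Real.lt_log_iff_exp_lt]
  · exact h2
  · exact (Real.exp_pos a).trans h2

lemma log_le {N n : ℕ} {a : ℝ} (hN : N ≤ ⌊Real.exp a⌋₊) (hn : n ∈ Finset.Icc 1 N) : Real.log n ≤ a := by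
  rw [Finset.mem_Icc] at hn
  have hn0 : (0 : ℝ) < n := by exact_mod_cast hn.1
  rw [Real.log_le_iff_le_exp hn0]
  exact (Nat.le_floor_iff (Real.exp_pos a).le).1 (hn.2.trans hN)

lemma Sm_eq {w a : ℝ} (hw : 0 < w) {N : ℕ} (hN : ⌊Real.exp a⌋₊ ≤ N) (x : Om) :
    Sm w a x = Sr N (cut w a) x := by
  unfold Sm Sr
  refine Finset.sum_subset (Finset.Icc_subset_Icc le_rfl hN) fun n hn hn' => ?_
  rw [Finset.mem_Icc] at hn hn'
  have h1 : ⌊Real.exp a⌋₊ < n := by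
    by_contra h
    exact hn' ⟨hn.1, by omega⟩
  have h2 : cut w a (Real.log n) = 0 := cut_eq_zero hw (lt_log le_rfl h1).le
  change cut w a (Real.log n) * _ = 0
  rw [h2, zero_mul]

/-- the bound of `K1`, reduced -/
lemma ker1_red {C w a Y : ℝ} (hC : 0 ≤ C) (hw : 0 < w) (hYw : Y ≤ w) (hY : 0 ≤ Y) {K : ℝ → ℂ} {k : ℕ}
    (hk : k ≤ 18) (hK : ∀ u, ‖K u‖ ≤ C * ((|a| + w) / (1 + w * |u|) ^ 20)) (u : ℝ) :
    ‖K u‖ * (1 + Y * |u|) ^ k ≤ C * (|a| + w) * (1 / (1 + w * |u|) ^ 2) := by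
  have h0 : 0 ≤ |u| := abs_nonneg u
  have h1 : (1 + Y * |u|) ^ k ≤ (1 + w * |u|) ^ 18 := by
    have h2 : 1 + Y * |u| ≤ 1 + w * |u| := by
      have := mul_le_mul_of_nonneg_right hYw h0
      linarith
    have h3 : 1 ≤ 1 + w * |u| := by
      have : 0 ≤ w * |u| := by positivity
      linarith
    calc (1 + Y * |u|) ^ k ≤ (1 + w * |u|) ^ k := pow_le_pow_left₀ (by positivity) h2 k
      _ ≤ (1 + w * |u|) ^ 18 := pow_le_pow_right₀ h3 hk
  have hp : 0 < 1 + w * |u| := by positivity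
  calc ‖K u‖ * (1 + Y * |u|) ^ k ≤ C * ((|a| + w) / (1 + w * |u|) ^ 20) * (1 + w * |u|) ^ 18 :=
        mul_le_mul (hK u) h1 (by positivity) (by positivity)
    _ = _ := by
        field_simp

end TS

end Pool.Agent.Lib.G2
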