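import Mathlib
import Pool.Agent.Lib.MP_f9aece_nt_g2.TS

/-!
The law of `log |zeta|` under the measure `|zeta| ^ 2`, module T4: upper bound for the smooth sums.
-/

set_option autoImplicit false

namespace Pool.Agent.Lib.G2

open MeasureTheory Set Filter Topology Complex
open scoped ComplexConjugate ENNReal
open Pool.Agent.Lib.GT

namespace TS

/-- the part of the cut-off sum belonging to `l`, under the tilt -/
lemma sl_cut (hsk : SKer) {CK : ℝ} (hCK : 1 ≤ CK)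
    (hK1 : ∀ w a : ℝ, 0 < w →
      ∃ K : ℝ → ℂ, Continuous K ∧ (∀ u, ‖K u‖ ≤ CK * ((|a| + w) / (1 + w * |u|) ^ 20)) ∧
      (∀ u, |u| * ‖K u‖ ≤ CK / (1 + w * |u|) ^ 19) ∧
      ∀ ξ : ℝ, 0 ≤ ξ → (Real.smoothTransition ((a - ξ) / w) : ℂ) = ∫ u, K u * cexp (-(I * u * ξ)))
    {CF : ℝ} (hCF : 1 ≤ CF) {A : Par} (hA : A.Ok) {s s' : Finset ℕ} {y : ℝ}
    (hF : ∀ u : ℝ, ∫ x, A.Wg s s' y x * ‖A.FU 0 u x‖ ^ 2 ∂mu
      ≤ CF * Real.exp (-(2 * ∑ g ∈ s', (A.r g : ℝ))) * (1 + A.Y * |u|) ^ 3 * (Real.exp A.vt * A.Gs y))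
    {w a : ℝ} (hw : A.Y ≤ w) {N l : ℕ} (hl : 1 ≤ l) (hN : ⌊Real.exp a⌋₊ ≤ N) :
    ∫ x, A.Wg s s' y x * ‖Sl A N (cut w a) l x‖ ^ 2 ∂mu
      ≤ CF * Real.exp (-(2 * ∑ g ∈ s', (A.r g : ℝ))) * (Real.exp A.vt * A.Gs y)
        * (CK * (|a - Real.log l| + w) * (cc / w)) ^ 2 := by
  have hY := hA.hY
  have hw0 : 0 < w := by linarith
  obtain ⟨K, hKc, hKb, -, hKe⟩ := hK1 w (a - Real.log l) hw0
  have hb := fun u => ker1_red (Y := A.Y) (k := 2) (by linarith) hw0 hw (by linarith) (by norm_num) hKb u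
  have hκ0 : 0 ≤ CK * (|a - Real.log l| + w) := by positivity
  have hi : Integrable K := by
    refine integrable_ker (κ := CK * (|a - Real.log l| + w)) hw0 hKc fun u => ?_
    refine le_trans ?_ (hb u)
    have h1 : 1 ≤ (1 + A.Y * |u|) ^ 2 := one_le_pow₀ (by
      have : 0 ≤ A.Y * |u| := by positivity
      linarith)
    exact le_mul_of_one_le_right (norm_nonneg _) h1
  have hS : ∀ x, Sl A N (cut w a) l x = ∫ u, K u * A.FU 0 u x := by
    intro x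
    refine hsk A hA N l hl (cut w a) K 0 (by norm_num) hi
      (fun n hn => cut_eq_zero hw0 (lt_log hN hn).le) (fun ξ hξ => ?_) x
    rw [zero_mul, Real.exp_zero, Complex.ofReal_one, one_mul, ← hKe ξ hξ]
    unfold cut
    congr 3
    ring
  exact fu_ker hCF hA (by norm_num) hF hKc hw0 hκ0 hb hS

end TS

open TS in
/-- T4 -/
theorem smUp (hsf : SForm) (hsk : SKer) (hk1 : Ker1) (hfu : FuBd) (hro : RouNum) : SmUp := by
  intro p0 hp0
  obtain ⟨CK, hCK, hK⟩ := hk1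
  obtain ⟨CF, hCF, hF⟩ := hfu
  obtain ⟨CR, hCR, hR⟩ := hro p0 hp0
  have hcc := cc_nonneg
  refine ⟨CF * (2 * CK * cc) ^ 2 * (3 * CR) + 1, by
    have : 0 ≤ CF * (2 * CK * cc) ^ 2 * (3 * CR) := by positivity
    linarith, ?_⟩
  intro A hA hAp w a hYw hwa s s' hss hs y
  have hY := hA.hY
  have hw0 : 0 < w := by linarith
  have ha0 : 0 < a := by linarith
  set E : ℝ := Real.exp (-(2 * ∑ g ∈ s', (A.r g : ℝ))) * (Real.exp A.vt * A.Gs y) with hE
  have hE0 : 0 ≤ E := by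
    have := (hA.Gs_pos y).le
    positivity
  set N : ℕ := ⌊Real.exp a⌋₊ with hN
  obtain ⟨B0, hB0⟩ := A.Wg_le hA s s' y
  have h1 := (hsf A hA (A.Wg s s' y) B0 (A.measurable_Wg hA s s' y)
    (fun x => ⟨A.Wg_nonneg hA.b_pos.le s s' y x, hB0 x⟩) (A.dep_Wg s hs y) N (cut w a) (cut w a)).1
  have h2 : ∫ x, A.Wg s s' y x * ‖Sm w a x‖ ^ 2 ∂mu = ∫ x, A.Wg s s' y x * ‖Sr N (cut w a) x‖ ^ 2 ∂mu := by
    refine integral_congr_ae (Eventually.of_forall fun x => ?_)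
    simp only
    rw [Sm_eq hw0 (le_refl N) x]
  have hFs := fun u => hF A hA s s' hss hs y u 0 (by
    rw [abs_zero]
    positivity)
  have h3 : ∀ l ∈ Ro A N, (l : ℝ)⁻¹ * ∫ x, A.Wg s s' y x * ‖Sl A N (cut w a) l x‖ ^ 2 ∂mu
      ≤ (l : ℝ)⁻¹ * (CF * E * (2 * CK * cc) ^ 2 * (a / w) ^ 2) := by
    intro l hl
    unfold Ro at hl
    rw [Finset.mem_filter] at hl
    have hl1 : 1 ≤ l := (Finset.mem_Icc.mp hl.1).1
    have hla := log_le (le_refl N) hl.1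
    have hl0 : 0 ≤ Real.log l := Real.log_nonneg (by exact_mod_cast hl1)
    refine mul_le_mul_of_nonneg_left ?_ (by positivity)
    refine (sl_cut hsk hCK hK hCF hA hFs hYw hl1 (le_refl N)).trans ?_
    have h4 : |a - Real.log l| + w ≤ 2 * a := by
      rw [abs_of_nonneg (by linarith)]
      linarith
    calc CF * Real.exp (-(2 * ∑ g ∈ s', (A.r g : ℝ))) * (Real.exp A.vt * A.Gs y)
          * (CK * (|a - Real.log l| + w) * (cc / w)) ^ 2
        ≤ CF * Real.exp (-(2 * ∑ g ∈ s', (A.r g : ℝ))) * (Real.exp A.vt * A.Gs y)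
          * (CK * (2 * a) * (cc / w)) ^ 2 := by
          have := (hA.Gs_pos y).le
          gcongr
      _ = CF * E * (2 * CK * cc) ^ 2 * (a / w) ^ 2 := by
          rw [hE]
          field_simp
  rw [h2, h1]
  have h5 : ∑ l ∈ Ro A N, (l : ℝ)⁻¹ ≤ 3 * CR * (a / A.Y) := by
    have h6 := (hR A hA hAp).1 (-1) a (by linarith) N
    have h7 : (Ro A N).filter (fun l : ℕ => -1 < Real.log l ∧ Real.log l ≤ a) = Ro A N := by
      refine Finset.filter_true_of_mem fun l hl => ?_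
      unfold Ro at hl
      rw [Finset.mem_filter] at hl
      have hl1 : 1 ≤ l := (Finset.mem_Icc.mp hl.1).1
      have hl0 : 0 ≤ Real.log l := Real.log_nonneg (by exact_mod_cast hl1)
      exact ⟨by linarith, log_le (le_refl N) hl.1⟩
    rw [h7] at h6
    refine h6.trans ?_
    have h8 : (a - -1) / A.Y + 1 ≤ 3 * (a / A.Y) := by
      have h9 : 1 ≤ a / A.Y := by
        rw [le_div_iff₀ (by linarith)]
        linarith
      have h10 : 1 / A.Y ≤ a / A.Y := div_le_div_of_nonneg_right (by linarith) (by linarith)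
      rw [sub_neg_eq_add, add_div]
      linarith
    calc CR * ((a - -1) / A.Y + 1) ≤ CR * (3 * (a / A.Y)) :=
          mul_le_mul_of_nonneg_left h8 (by linarith)
      _ = _ := by ring
  calc ∑ l ∈ Ro A N, (l : ℝ)⁻¹ * ∫ x, A.Wg s s' y x * ‖Sl A N (cut w a) l x‖ ^ 2 ∂mu
      ≤ ∑ l ∈ Ro A N, (l : ℝ)⁻¹ * (CF * E * (2 * CK * cc) ^ 2 * (a / w) ^ 2) := Finset.sum_le_sum h3
    _ = (∑ l ∈ Ro A N, (l : ℝ)⁻¹) * (CF * E * (2 * CK * cc) ^ 2 * (a / w) ^ 2) := by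
        rw [Finset.sum_mul]
    _ ≤ (3 * CR * (a / A.Y)) * (CF * E * (2 * CK * cc) ^ 2 * (a / w) ^ 2) := by gcongr
    _ = (CF * (2 * CK * cc) ^ 2 * (3 * CR)) * ((a / w) ^ 2 * (a / A.Y) * E) := by ring
    _ ≤ (CF * (2 * CK * cc) ^ 2 * (3 * CR) + 1) * ((a / w) ^ 2 * (a / A.Y) * E) := by
        refine mul_le_mul_of_nonneg_right (by linarith) (by positivity)
    _ = _ := by rw [hE]; ring

end Pool.Agent.Lib.G2
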