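import Mathlib
import Pool.Agent.Lib.MP_f9aece_nt_g2.T4
import Pool.Agent.Lib.MP_f9aece_nt_g2.Cont2

/-!
The law of `log |zeta|` under the measure `|zeta| ^ 2`, module T3: windows of the smooth sums.
-/

set_option autoImplicit false

namespace Pool.Agent.Lib.G2

open MeasureTheory Set Filter Topology Complex
open scoped ComplexConjugate ENNReal
open Pool.Agent.Lib.GT

namespace TS

/-- sum of `e ^ (-2 (B - log l) / Y) / l` over the rough numbers with `log l ≤ B` -/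
lemma rough_exp {CR : ℝ} (hCR : 0 ≤ CR) {A : Par} (hY : 0 < A.Y) {N : ℕ}
    (hR : ∀ α β : ℝ, α ≤ β →
      ∑ l ∈ (Ro A N).filter (fun l : ℕ => α < Real.log l ∧ Real.log l ≤ β), (l : ℝ)⁻¹
        ≤ CR * ((β - α) / A.Y + 1)) (B : ℝ) :
    ∑ l ∈ (Ro A N).filter (fun l : ℕ => Real.log l ≤ B),
      (l : ℝ)⁻¹ * Real.exp (-(2 * ((B - Real.log l) / A.Y))) ≤ 4 * CR := by
  classical
  set R := (Ro A N).filter (fun l : ℕ => Real.log l ≤ B) with hRd
  set j : ℕ → ℕ := fun l => ⌊(B - Real.log l) / A.Y⌋₊ with hj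
  set q : ℝ := Real.exp (-2) with hq
  have hq0 : 0 < q := Real.exp_pos _
  have hq1 : q ≤ 1 / 2 := by
    have h2 : Real.exp (-2) ≤ 1 / 2 := by
      rw [Real.exp_neg, inv_le_comm₀ (Real.exp_pos _) (by norm_num)]
      have := Real.add_one_le_exp (2 : ℝ)
      norm_num at this ⊢
      linarith
    exact h2
  have hwin : ∀ l ∈ R, (j l : ℝ) ≤ (B - Real.log l) / A.Y ∧ (B - Real.log l) / A.Y < j l + 1 := by
    intro l hl
    rw [hRd, Finset.mem_filter] at hl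
    have h0 : 0 ≤ (B - Real.log l) / A.Y := div_nonneg (by linarith [hl.2]) hY.le
    exact ⟨Nat.floor_le h0, Nat.lt_floor_add_one _⟩
  set K : ℕ := R.sup j + 1 with hK
  have hmaps : ∀ l ∈ R, j l ∈ Finset.range K := by
    intro l hl
    rw [Finset.mem_range]
    have := Finset.le_sup (f := j) hl
    omega
  have hfib : ∀ i ∈ Finset.range K, ∑ l ∈ R.filter (fun l => j l = i),
      (l : ℝ)⁻¹ * Real.exp (-(2 * ((B - Real.log l) / A.Y))) ≤ q ^ i * (2 * CR) := by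
    intro i _
    have h1 : ∀ l ∈ R.filter (fun l => j l = i),
        (l : ℝ)⁻¹ * Real.exp (-(2 * ((B - Real.log l) / A.Y))) ≤ q ^ i * (l : ℝ)⁻¹ := by
      intro l hl
      rw [Finset.mem_filter] at hl
      obtain ⟨h3, -⟩ := hwin l hl.1
      rw [hl.2] at h3
      rw [mul_comm]
      refine mul_le_mul_of_nonneg_right ?_ (by positivity)
      rw [hq, ← Real.exp_nat_mul]
      refine Real.exp_le_exp.2 ?_
      linarith
    refine (Finset.sum_le_sum h1).trans ?_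
    rw [← Finset.mul_sum]
    refine mul_le_mul_of_nonneg_left ?_ (by positivity)
    have h2 : R.filter (fun l => j l = i)
        ⊆ (Ro A N).filter (fun l : ℕ => B - (i + 1) * A.Y < Real.log l ∧ Real.log l ≤ B - i * A.Y) := by
      intro l hl
      rw [Finset.mem_filter] at hl
      obtain ⟨h3, h4⟩ := hwin l hl.1
      rw [hl.2] at h3 h4
      rw [le_div_iff₀ hY] at h3
      rw [div_lt_iff₀ hY] at h4
      have h5 := hl.1
      rw [hRd, Finset.mem_filter] at h5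
      rw [Finset.mem_filter]
      exact ⟨h5.1, by linarith, by linarith⟩
    refine (Finset.sum_le_sum_of_subset_of_nonneg h2 fun l _ _ => by positivity).trans ?_
    refine (hR _ _ (by nlinarith)).trans (le_of_eq ?_)
    field_simp
    ring
  calc ∑ l ∈ R, (l : ℝ)⁻¹ * Real.exp (-(2 * ((B - Real.log l) / A.Y)))
      = ∑ i ∈ Finset.range K, ∑ l ∈ R.filter (fun l => j l = i),
          (l : ℝ)⁻¹ * Real.exp (-(2 * ((B - Real.log l) / A.Y))) :=
        (Finset.sum_fiberwise_of_maps_to hmaps _).symm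
    _ ≤ ∑ i ∈ Finset.range K, q ^ i * (2 * CR) := Finset.sum_le_sum hfib
    _ = (∑ i ∈ Finset.range K, q ^ i) * (2 * CR) := by rw [Finset.sum_mul]
    _ ≤ 2 * (2 * CR) := by
        refine mul_le_mul_of_nonneg_right ?_ (by linarith)
        have h1 : ∑ i ∈ Finset.range K, q ^ i ≤ (1 - q)⁻¹ := by
          rw [Finset.range_eq_Ico]
          refine (geom_sum_Ico_le_of_lt_one hq0.le (by linarith)).trans (le_of_eq ?_)
          rw [pow_zero, one_div]
        refine h1.trans ?_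
        rw [inv_le_comm₀ (by linarith) (by norm_num)]
        linarith
    _ = 4 * CR := by ring

/-- the triangle inequality under the tilt -/
lemma tri2 {A : Par} (hA : A.Ok) (s s' : Finset ℕ) (y : ℝ) {F G : Om → ℂ} (hF : Continuous F)
    (hG : Continuous G) {BF BG : ℝ} (hBF : ∀ x, ‖F x‖ ≤ BF) (hBG : ∀ x, ‖G x‖ ≤ BG) :
    ∫ x, A.Wg s s' y x * ‖F x - G x‖ ^ 2 ∂mu
      ≤ 2 * (∫ x, A.Wg s s' y x * ‖F x‖ ^ 2 ∂mu) + 2 * ∫ x, A.Wg s s' y x * ‖G x‖ ^ 2 ∂mu := by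
  obtain ⟨B0, hB0⟩ := A.Wg_le hA s s' y
  have hW := A.Wg_nonneg hA.b_pos.le s s' y
  have hWc := A.continuous_Wg' hA s s' y
  have hi : ∀ {H : Om → ℂ}, Continuous H → ∀ {BH : ℝ}, (∀ x, ‖H x‖ ≤ BH) →
      Integrable (fun x => A.Wg s s' y x * ‖H x‖ ^ 2) mu := by
    intro H hH BH hBH
    refine integrable_of_le (B := B0 * BH ^ 2) (hWc.mul (hH.norm.pow 2)).aestronglyMeasurable
      fun x => ?_
    rw [Real.norm_of_nonneg (mul_nonneg (hW x) (sq_nonneg _))]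
    exact mul_le_mul (hB0 x) (pow_le_pow_left₀ (norm_nonneg _) (hBH x) 2) (sq_nonneg _)
      ((hW x).trans (hB0 x))
  rw [← integral_const_mul, ← integral_const_mul, ← integral_add ((hi hF hBF).const_mul 2)
    ((hi hG hBG).const_mul 2)]
  refine integral_mono (hi (hF.sub hG) (BH := BF + BG) fun x => (norm_sub_le _ _).trans
    (add_le_add (hBF x) (hBG x))) (((hi hF hBF).const_mul 2).add ((hi hG hBG).const_mul 2))
    fun x => ?_
  have h1 : ‖F x - G x‖ ^ 2 ≤ 2 * ‖F x‖ ^ 2 + 2 * ‖G x‖ ^ 2 := by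
    have h2 := norm_sub_le (F x) (G x)
    nlinarith [norm_nonneg (F x - G x), norm_nonneg (F x), norm_nonneg (G x),
      sq_nonneg (‖F x‖ - ‖G x‖)]
  simp only
  calc A.Wg s s' y x * ‖F x - G x‖ ^ 2 ≤ A.Wg s s' y x * (2 * ‖F x‖ ^ 2 + 2 * ‖G x‖ ^ 2) :=
        mul_le_mul_of_nonneg_left h1 (hW x)
    _ = _ := by ring

/-- the difference of two cut-offs -/
noncomputable def win (w a c : ℝ) (ξ : ℝ) : ℂ := cut w a ξ - cut w c ξ

lemma Sl_win (A : Par) (N : ℕ) (w a c : ℝ) (l : ℕ) (x : Om) :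
    Sl A N (win w a c) l x = Sl A N (cut w a) l x - Sl A N (cut w c) l x := by
  unfold Sl
  rw [← Finset.sum_sub_distrib]
  refine Finset.sum_congr rfl fun m _ => ?_
  unfold win
  ring

lemma Sr_win (N : ℕ) (w a c : ℝ) (x : Om) :
    Sr N (win w a c) x = Sr N (cut w a) x - Sr N (cut w c) x := by
  unfold Sr
  rw [← Finset.sum_sub_distrib]
  refine Finset.sum_congr rfl fun m _ => ?_
  unfold win
  ring

/-- the small rough numbers -/
lemma sl_far (hsk : SKer) {C2 : ℝ} (hC2 : 1 ≤ C2)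
    (hK2 : ∀ w Y c a : ℝ, 0 < Y → Y ≤ w → w ≤ c → c + w ≤ a → a ≤ c + 200 * w →
      ∃ K : ℝ → ℂ, Continuous K ∧
      (∀ u, ‖K u‖ ≤ C2 * (Real.exp (-((c - w) / Y)) * (Y / (1 + Y * |u|) ^ 8))) ∧
      ∀ ξ : ℝ, 0 ≤ ξ → (Real.smoothTransition ((a - ξ) / w) - Real.smoothTransition ((c - ξ) / w) : ℂ)
        = Real.exp (1 / Y * ξ) * ∫ u, K u * cexp (-(I * u * ξ)))
    {CF : ℝ} (hCF : 1 ≤ CF) {A : Par} (hA : A.Ok) {s s' : Finset ℕ} {y : ℝ}
    (hF : ∀ u : ℝ, ∫ x, A.Wg s s' y x * ‖A.FU (1 / A.Y) u x‖ ^ 2 ∂mu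
      ≤ CF * Real.exp (-(2 * ∑ g ∈ s', (A.r g : ℝ))) * (1 + A.Y * |u|) ^ 3 * (Real.exp A.vt * A.Gs y))
    {w c a : ℝ} (hw : A.Y ≤ w) (hca : c + w ≤ a) (hac : a ≤ c + 200 * w) {N l : ℕ} (hl : 1 ≤ l)
    (hN : ⌊Real.exp a⌋₊ ≤ N) (hlc : Real.log l ≤ c - w) :
    ∫ x, A.Wg s s' y x * ‖Sl A N (win w a c) l x‖ ^ 2 ∂mu
      ≤ CF * Real.exp (-(2 * ∑ g ∈ s', (A.r g : ℝ))) * (Real.exp A.vt * A.Gs y)
        * ((C2 * cc) ^ 2 * Real.exp (-(2 * ((c - w - Real.log l) / A.Y)))) := by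
  have hY6 := six_le_Y hA
  have hY0 : 0 < A.Y := by linarith
  have hw0 : 0 < w := by linarith
  obtain ⟨K, hKc, hKb, hKe⟩ := hK2 w A.Y (c - Real.log l) (a - Real.log l) hY0 hw (by linarith)
    (by linarith) (by linarith)
  set κ0 : ℝ := C2 * (Real.exp (-((c - Real.log l - w) / A.Y)) * A.Y) with hκ
  have hκ0 : 0 ≤ κ0 := by positivity
  have hb : ∀ u, ‖K u‖ * (1 + A.Y * |u|) ^ 2 ≤ κ0 * (1 / (1 + A.Y * |u|) ^ 2) := by
    intro u
    have h0 : 1 ≤ 1 + A.Y * |u| := by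
      have : 0 ≤ A.Y * |u| := by positivity
      linarith
    have h1 : 0 < 1 + A.Y * |u| := by linarith
    calc ‖K u‖ * (1 + A.Y * |u|) ^ 2
        ≤ C2 * (Real.exp (-((c - Real.log l - w) / A.Y)) * (A.Y / (1 + A.Y * |u|) ^ 8))
            * (1 + A.Y * |u|) ^ 2 := mul_le_mul_of_nonneg_right (hKb u) (by positivity)
      _ = κ0 * (1 / (1 + A.Y * |u|) ^ 6) := by
          rw [hκ]
          field_simp
      _ ≤ κ0 * (1 / (1 + A.Y * |u|) ^ 2) := by
          refine mul_le_mul_of_nonneg_left ?_ hκ0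
          exact one_div_le_one_div_of_le (by positivity) (pow_le_pow_right₀ h0 (by norm_num))
  have hi : Integrable K := by
    refine integrable_ker (κ := κ0) hY0 hKc fun u => ?_
    refine le_trans ?_ (hb u)
    have h1 : 1 ≤ (1 + A.Y * |u|) ^ 2 := one_le_pow₀ (by
      have : 0 ≤ A.Y * |u| := by positivity
      linarith)
    exact le_mul_of_one_le_right (norm_nonneg _) h1
  have hκ4 : 1 / A.Y ≤ 1 / 4 := one_div_le_one_div_of_le (by norm_num) (by linarith)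
  have hS : ∀ x, Sl A N (win w a c) l x = ∫ u, K u * A.FU (1 / A.Y) u x := by
    intro x
    refine hsk A hA N l hl (win w a c) K (1 / A.Y) hκ4 hi (fun n hn => ?_) (fun ξ hξ => ?_) x
    · have h1 := lt_log hN hn
      unfold win
      rw [cut_eq_zero hw0 h1.le, cut_eq_zero hw0 (by linarith), sub_zero]
    · rw [← hKe ξ hξ]
      unfold win cut
      congr 4
      · ring
      · ring
  refine (fu_ker hCF hA hκ4 hF hKc hY0 hκ0 hb hS).trans (le_of_eq ?_)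
  have h1 : κ0 * (cc / A.Y) = C2 * cc * Real.exp (-((c - Real.log l - w) / A.Y)) := by
    rw [hκ]
    field_simp
  rw [h1, mul_pow, ← Real.exp_nat_mul]
  congr 4
  push_cast
  ring

/-- windows of length between `w` and `200 w` -/
lemma win_main (hsf : SForm) (hsk : SKer) {CK : ℝ} (hCK : 1 ≤ CK)
    (hK1 : ∀ w a : ℝ, 0 < w →
      ∃ K : ℝ → ℂ, Continuous K ∧ (∀ u, ‖K u‖ ≤ CK * ((|a| + w) / (1 + w * |u|) ^ 20)) ∧
      (∀ u, |u| * ‖K u‖ ≤ CK / (1 + w * |u|) ^ 19) ∧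
      ∀ ξ : ℝ, 0 ≤ ξ → (Real.smoothTransition ((a - ξ) / w) : ℂ) = ∫ u, K u * cexp (-(I * u * ξ)))
    {C2 : ℝ} (hC2 : 1 ≤ C2)
    (hK2 : ∀ w Y c a : ℝ, 0 < Y → Y ≤ w → w ≤ c → c + w ≤ a → a ≤ c + 200 * w →
      ∃ K : ℝ → ℂ, Continuous K ∧
      (∀ u, ‖K u‖ ≤ C2 * (Real.exp (-((c - w) / Y)) * (Y / (1 + Y * |u|) ^ 8))) ∧
      ∀ ξ : ℝ, 0 ≤ ξ → (Real.smoothTransition ((a - ξ) / w) - Real.smoothTransition ((c - ξ) / w) : ℂ)
        = Real.exp (1 / Y * ξ) * ∫ u, K u * cexp (-(I * u * ξ)))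
    {CF : ℝ} (hCF : 1 ≤ CF) {A : Par} (hA : A.Ok) {s s' : Finset ℕ} (hs : s' ⊆ Finset.range A.J)
    {y : ℝ}
    (hF : ∀ κ u : ℝ, |κ| ≤ 1 / A.Y → ∫ x, A.Wg s s' y x * ‖A.FU κ u x‖ ^ 2 ∂mu
      ≤ CF * Real.exp (-(2 * ∑ g ∈ s', (A.r g : ℝ))) * (1 + A.Y * |u|) ^ 3 * (Real.exp A.vt * A.Gs y))
    {CR : ℝ} (hCR : 1 ≤ CR) (hR : ∀ α β : ℝ, α ≤ β → ∀ N : ℕ,
      ∑ l ∈ (Ro A N).filter (fun l : ℕ => α < Real.log l ∧ Real.log l ≤ β), (l : ℝ)⁻¹
        ≤ CR * ((β - α) / A.Y + 1))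
    {w c a : ℝ} (hw : A.Y ≤ w) (hca : c + w ≤ a) (hac : a ≤ c + 200 * w) :
    ∫ x, A.Wg s s' y x * ‖Sm w a x - Sm w c x‖ ^ 2 ∂mu
      ≤ (4 * C2 ^ 2 + 808 * (202 * CK) ^ 2) * (CF * CR * cc ^ 2) * (w / A.Y)
        * (Real.exp (-(2 * ∑ g ∈ s', (A.r g : ℝ))) * (Real.exp A.vt * A.Gs y)) := by
  classical
  have hY6 := six_le_Y hA
  have hY0 : 0 < A.Y := by linarith
  have hw0 : 0 < w := by linarith
  have hcc := cc_nonneg
  have hGs := (hA.Gs_pos y).le
  set E : ℝ := Real.exp (-(2 * ∑ g ∈ s', (A.r g : ℝ))) * (Real.exp A.vt * A.Gs y) with hE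
  have hE0 : 0 ≤ E := by positivity
  set N : ℕ := ⌊Real.exp a⌋₊ with hN
  have hNc : ⌊Real.exp c⌋₊ ≤ N := Nat.floor_le_floor (Real.exp_le_exp.2 (by linarith))
  obtain ⟨B0, hB0⟩ := A.Wg_le hA s s' y
  have h1 := (hsf A hA (A.Wg s s' y) B0 (A.measurable_Wg hA s s' y)
    (fun x => ⟨A.Wg_nonneg hA.b_pos.le s s' y x, hB0 x⟩) (A.dep_Wg s hs y) N (win w a c)
    (win w a c)).1
  have h2 : ∫ x, A.Wg s s' y x * ‖Sm w a x - Sm w c x‖ ^ 2 ∂mu
      = ∫ x, A.Wg s s' y x * ‖Sr N (win w a c) x‖ ^ 2 ∂mu := by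
    refine integral_congr_ae (Eventually.of_forall fun x => ?_)
    simp only
    rw [Sm_eq hw0 (le_refl N) x, Sm_eq hw0 hNc x, Sr_win]
  have hRo1 : ∀ l ∈ Ro A N, 1 ≤ l ∧ Real.log l ≤ a := by
    intro l hl
    unfold Ro at hl
    rw [Finset.mem_filter] at hl
    exact ⟨(Finset.mem_Icc.mp hl.1).1, log_le (le_refl N) hl.1⟩
  have hF0 := fun u => hF 0 u (by rw [abs_zero]; positivity)
  have hF1 := fun u => hF (1 / A.Y) u (by rw [abs_of_pos (by positivity)])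
  -- the small rough numbers
  have hfar : ∑ l ∈ (Ro A N).filter (fun l : ℕ => Real.log l ≤ c - w),
      (l : ℝ)⁻¹ * ∫ x, A.Wg s s' y x * ‖Sl A N (win w a c) l x‖ ^ 2 ∂mu
      ≤ CF * E * (C2 * cc) ^ 2 * (4 * CR) := by
    have h3 : ∀ l ∈ (Ro A N).filter (fun l : ℕ => Real.log l ≤ c - w),
        (l : ℝ)⁻¹ * ∫ x, A.Wg s s' y x * ‖Sl A N (win w a c) l x‖ ^ 2 ∂mu
        ≤ CF * E * (C2 * cc) ^ 2
          * ((l : ℝ)⁻¹ * Real.exp (-(2 * ((c - w - Real.log l) / A.Y)))) := by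
      intro l hl
      rw [Finset.mem_filter] at hl
      have h4 := sl_far hsk hC2 hK2 hCF hA hF1 hw hca hac (hRo1 l hl.1).1 (le_refl N) hl.2
      calc (l : ℝ)⁻¹ * ∫ x, A.Wg s s' y x * ‖Sl A N (win w a c) l x‖ ^ 2 ∂mu
          ≤ (l : ℝ)⁻¹ * (CF * Real.exp (-(2 * ∑ g ∈ s', (A.r g : ℝ))) * (Real.exp A.vt * A.Gs y)
            * ((C2 * cc) ^ 2 * Real.exp (-(2 * ((c - w - Real.log l) / A.Y))))) :=
            mul_le_mul_of_nonneg_left h4 (by positivity)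
        _ = _ := by
            rw [hE]
            ring
    refine (Finset.sum_le_sum h3).trans ?_
    rw [← Finset.mul_sum]
    exact mul_le_mul_of_nonneg_left (rough_exp (by linarith) hY0 (fun α β h => hR α β h N) (c - w))
      (by positivity)
  -- the others
  have hnear : ∑ l ∈ (Ro A N).filter (fun l : ℕ => ¬ Real.log l ≤ c - w),
      (l : ℝ)⁻¹ * ∫ x, A.Wg s s' y x * ‖Sl A N (win w a c) l x‖ ^ 2 ∂mu
      ≤ (4 * (CF * E * (202 * CK * cc) ^ 2)) * (CR * (202 * (w / A.Y))) := by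
    have h3 : ∀ l ∈ (Ro A N).filter (fun l : ℕ => ¬ Real.log l ≤ c - w),
        (l : ℝ)⁻¹ * ∫ x, A.Wg s s' y x * ‖Sl A N (win w a c) l x‖ ^ 2 ∂mu
        ≤ 4 * (CF * E * (202 * CK * cc) ^ 2) * (l : ℝ)⁻¹ := by
      intro l hl
      rw [Finset.mem_filter, not_le] at hl
      obtain ⟨hl1, hla⟩ := hRo1 l hl.1
      have h4 : ∀ d : ℝ, |d - Real.log l| ≤ 201 * w → ⌊Real.exp d⌋₊ ≤ N →
          ∫ x, A.Wg s s' y x * ‖Sl A N (cut w d) l x‖ ^ 2 ∂mu ≤ CF * E * (202 * CK * cc) ^ 2 := by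
        intro d hd hdN
        refine (sl_cut hsk hCK hK1 hCF hA hF0 hw hl1 hdN).trans ?_
        calc CF * Real.exp (-(2 * ∑ g ∈ s', (A.r g : ℝ))) * (Real.exp A.vt * A.Gs y)
              * (CK * (|d - Real.log l| + w) * (cc / w)) ^ 2
            ≤ CF * Real.exp (-(2 * ∑ g ∈ s', (A.r g : ℝ))) * (Real.exp A.vt * A.Gs y)
              * (CK * (202 * w) * (cc / w)) ^ 2 := by
              have : |d - Real.log l| + w ≤ 202 * w := by linarith
              gcongr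
          _ = _ := by
              rw [hE]
              field_simp
      have h5 := h4 a (by rw [abs_le]; constructor <;> linarith) (le_refl N)
      have h6 := h4 c (by rw [abs_le]; constructor <;> linarith) hNc
      have h7 := tri2 hA s s' y (continuous_Sl A N (cut w a) l) (continuous_Sl A N (cut w c) l)
        (norm_Sl_le A N (cut w a) l) (norm_Sl_le A N (cut w c) l)
      have h8 : ∫ x, A.Wg s s' y x * ‖Sl A N (win w a c) l x‖ ^ 2 ∂mu
          ≤ 4 * (CF * E * (202 * CK * cc) ^ 2) := by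
        have h9 : ∫ x, A.Wg s s' y x * ‖Sl A N (win w a c) l x‖ ^ 2 ∂mu
            = ∫ x, A.Wg s s' y x * ‖Sl A N (cut w a) l x - Sl A N (cut w c) l x‖ ^ 2 ∂mu := by
          refine integral_congr_ae (Eventually.of_forall fun x => ?_)
          simp only
          rw [Sl_win]
        rw [h9]
        linarith
      rw [mul_comm ((l : ℝ)⁻¹)]
      exact mul_le_mul_of_nonneg_right h8 (by positivity)
    refine (Finset.sum_le_sum h3).trans ?_
    rw [← Finset.mul_sum]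
    refine mul_le_mul_of_nonneg_left ?_ (by positivity)
    have h10 := hR (c - w) a (by linarith) N
    have h11 : (Ro A N).filter (fun l : ℕ => ¬ Real.log l ≤ c - w)
        = (Ro A N).filter (fun l : ℕ => c - w < Real.log l ∧ Real.log l ≤ a) := by
      refine Finset.filter_congr fun l hl => ?_
      have := (hRo1 l hl).2
      rw [not_le]
      tauto
    rw [h11]
    refine h10.trans (mul_le_mul_of_nonneg_left ?_ (by linarith))
    have h12 : 1 ≤ w / A.Y := by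
      rw [le_div_iff₀ hY0]
      linarith
    have h13 : (a - (c - w)) / A.Y ≤ 201 * (w / A.Y) := by
      rw [← mul_div_assoc]
      exact div_le_div_of_nonneg_right (by linarith) hY0.le
    linarith
  rw [h2, h1, ← Finset.sum_filter_add_sum_filter_not (Ro A N) (fun l : ℕ => Real.log l ≤ c - w)]
  have h12 : 1 ≤ w / A.Y := by
    rw [le_div_iff₀ hY0]
    linarith
  have h14 : CF * E * (C2 * cc) ^ 2 * (4 * CR) ≤ CF * E * (C2 * cc) ^ 2 * (4 * CR) * (w / A.Y) :=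
    le_mul_of_one_le_right (by positivity) h12
  calc _ ≤ CF * E * (C2 * cc) ^ 2 * (4 * CR) * (w / A.Y)
        + (4 * (CF * E * (202 * CK * cc) ^ 2)) * (CR * (202 * (w / A.Y))) :=
        add_le_add (hfar.trans h14) hnear
    _ = _ := by ring

end TS

open TS in
/-- T3 -/
theorem smWin (hsf : SForm) (hsk : SKer) (hk1 : Ker1) (hk2 : Ker2) (hfu : FuBd) (hro : RouNum) :
    SmWin := by
  intro p0 hp0
  obtain ⟨CK, hCK, hK⟩ := hk1
  obtain ⟨C2, hC2, hK2⟩ := hk2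
  obtain ⟨CF, hCF, hF⟩ := hfu
  obtain ⟨CR, hCR, hR⟩ := hro p0 hp0
  have hcc := cc_nonneg
  set M : ℝ := (4 * C2 ^ 2 + 808 * (202 * CK) ^ 2) * (CF * CR * cc ^ 2) with hM
  have hM0 : 0 ≤ M := by positivity
  refine ⟨4 * M + 1, by linarith, ?_⟩
  intro A hA hAp w c a hYw hwc hca hac s hs y
  have hY6 := six_le_Y hA
  have hY0 : 0 < A.Y := by linarith
  have hw0 : 0 < w := by linarith
  have hGs := (hA.Gs_pos y).le
  set E : ℝ := Real.exp (-(2 * ∑ g ∈ s, (A.r g : ℝ))) * (Real.exp A.vt * A.Gs y) with hE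
  have hE0 : 0 ≤ E := by positivity
  have key : ∀ c a : ℝ, c + w ≤ a → a ≤ c + 200 * w →
      ∫ x, A.Wg s s y x * ‖Sm w a x - Sm w c x‖ ^ 2 ∂mu ≤ M * (w / A.Y) * E := by
    intro c a h1 h2
    exact win_main hsf hsk hCK hK hC2 hK2 hCF hA hs
      (fun κ u h => hF A hA s s (Finset.Subset.refl s) hs y u κ h) hCR
      (fun α β h N => (hR A hA hAp).1 α β h N) hYw h1 h2
  have hr0 : 0 ≤ w / A.Y := by positivity
  have hfin : 4 * (M * (w / A.Y) * E) ≤ (4 * M + 1) * (w / A.Y)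
      * Real.exp (-(2 * ∑ g ∈ s, (A.r g : ℝ))) * (Real.exp A.vt * A.Gs y) := by
    have h1 : 0 ≤ (w / A.Y) * E := by positivity
    calc 4 * (M * (w / A.Y) * E) = 4 * M * ((w / A.Y) * E) := by ring
      _ ≤ (4 * M + 1) * ((w / A.Y) * E) := mul_le_mul_of_nonneg_right (by linarith) h1
      _ = _ := by
          rw [hE]
          ring
  change ∫ x, A.Wg s s y x * ‖Sm w a x - Sm w c x‖ ^ 2 ∂mu ≤ _
  refine le_trans ?_ hfin
  have hME : 0 ≤ M * (w / A.Y) * E := by positivity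
  rcases le_or_gt (c + w) a with h | h
  · refine (key c a h (by linarith)).trans ?_
    linarith
  · have h1 := key c (c + 2 * w) (by linarith) (by linarith)
    have h2 := key a (c + 2 * w) (by linarith) (by linarith)
    have h3 := tri2 hA s s y
      (F := fun x => Sm w (c + 2 * w) x - Sm w c x) (G := fun x => Sm w (c + 2 * w) x - Sm w a x)
      ((continuous_Sm _ _).sub (continuous_Sm _ _)) ((continuous_Sm _ _).sub (continuous_Sm _ _))
      (fun x => (norm_sub_le _ _).trans (add_le_add (norm_Sm_le _ _ x) (norm_Sm_le _ _ x)))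
      (fun x => (norm_sub_le _ _).trans (add_le_add (norm_Sm_le _ _ x) (norm_Sm_le _ _ x)))
    have h4 : ∫ x, A.Wg s s y x * ‖Sm w a x - Sm w c x‖ ^ 2 ∂mu
        = ∫ x, A.Wg s s y x * ‖(Sm w (c + 2 * w) x - Sm w c x) - (Sm w (c + 2 * w) x - Sm w a x)‖ ^ 2
          ∂mu := by
      refine integral_congr_ae (Eventually.of_forall fun x => ?_)
      simp only
      congr 3
      ring
    rw [h4]
    linarith

end Pool.Agent.Lib.G2
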