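import Mathlib
import Pool.Agent.Lib.MP_f9aece_nt_g2.Cont2

/-!
The law of `log |zeta|` under the measure `|zeta| ^ 2`: row T5 (`smMain`), asymptotics for the smooth
sums on the torus.
-/

set_option autoImplicit false

namespace Pool.Agent.Lib.G2

open MeasureTheory Set Filter Topology Complex ProbabilityTheory
open scoped ComplexConjugate
open Pool.Agent.Lib.MP_f9aece_nt (VV)
open Pool.Agent.Lib.J4 (V2)
open Pool.Agent.Lib.GT

namespace T5

/-! ### Cauchy-Schwarz with a weight -/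

lemma wcs {k φ : ℝ → ENNReal} (hk : Measurable k) (hφ : Measurable φ) :
    (∫⁻ u, k u * φ u) ^ 2 ≤ (∫⁻ u, k u) * ∫⁻ u, k u * φ u ^ 2 := by
  have h1 := ENNReal.lintegral_mul_le_Lp_mul_Lq (volume : Measure ℝ)
    (p := 2) (q := 2) Real.HolderConjugate.two_two (f := fun u => k u ^ (1 / 2 : ℝ))
    (g := fun u => k u ^ (1 / 2 : ℝ) * φ u) (hk.pow_const _).aemeasurable
    ((hk.pow_const _).mul hφ).aemeasurable
  have e0 : ∀ a : ENNReal, a ^ (1 / 2 : ℝ) * a ^ (1 / 2 : ℝ) = a := by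
    intro a
    rw [← ENNReal.rpow_add_of_nonneg _ _ (by norm_num) (by norm_num)]
    norm_num
  have e1 : ∀ u, ((fun u => k u ^ (1 / 2 : ℝ)) * fun u => k u ^ (1 / 2 : ℝ) * φ u) u
      = k u * φ u := by
    intro u
    simp only [Pi.mul_apply]
    rw [← mul_assoc, e0]
  have e2 : ∀ u, (k u ^ (1 / 2 : ℝ)) ^ (2 : ℝ) = k u := by
    intro u
    rw [← ENNReal.rpow_mul]
    norm_num
  have e3 : ∀ u, (k u ^ (1 / 2 : ℝ) * φ u) ^ (2 : ℝ) = k u * φ u ^ 2 := by
    intro u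
    rw [ENNReal.mul_rpow_of_nonneg _ _ (by norm_num), e2]
    congr 1
    exact_mod_cast ENNReal.rpow_natCast (φ u) 2
  simp only [e1, e2, e3] at h1
  have e4 : ∀ a : ENNReal, (a ^ (1 / 2 : ℝ)) ^ 2 = a := by
    intro a
    rw [pow_two, e0]
  calc (∫⁻ u, k u * φ u) ^ 2
      ≤ ((∫⁻ u, k u) ^ (1 / 2 : ℝ) * (∫⁻ u, k u * φ u ^ 2) ^ (1 / 2 : ℝ)) ^ 2 := by gcongr
    _ = _ := by rw [mul_pow, e4, e4]

/-- the integral of the kernel -/
lemma kint {w B : ℝ} (hw : 0 < w) (hB : 0 ≤ B) {k : ℕ} (hk : 2 ≤ k) :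
    ∫⁻ u : ℝ, ENNReal.ofReal (B / (1 + w * |u|) ^ k) ≤ ENNReal.ofReal (B * (Real.pi / w)) := by
  have h1 : ∀ u : ℝ, B / (1 + w * |u|) ^ k ≤ B * (1 + (w * u) ^ 2)⁻¹ := by
    intro u
    have h2 : 0 ≤ w * |u| := by positivity
    have h3 : 1 + (w * u) ^ 2 ≤ (1 + w * |u|) ^ k := by
      calc 1 + (w * u) ^ 2 = 1 + (w * |u|) ^ 2 := by rw [mul_pow, mul_pow, sq_abs]
        _ ≤ (1 + w * |u|) ^ 2 := by nlinarith
        _ ≤ (1 + w * |u|) ^ k := pow_le_pow_right₀ (by linarith) hk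
    rw [div_eq_mul_inv]
    gcongr
  have h4 : Integrable fun u : ℝ => B * (1 + (w * u) ^ 2)⁻¹ :=
    ((integrable_inv_one_add_sq.comp_mul_left' hw.ne').const_mul B)
  calc ∫⁻ u : ℝ, ENNReal.ofReal (B / (1 + w * |u|) ^ k)
      ≤ ∫⁻ u : ℝ, ENNReal.ofReal (B * (1 + (w * u) ^ 2)⁻¹) :=
        lintegral_mono fun u => ENNReal.ofReal_le_ofReal (h1 u)
    _ = ENNReal.ofReal (∫ u : ℝ, B * (1 + (w * u) ^ 2)⁻¹) := by
        rw [ofReal_integral_eq_lintegral_ofReal h4 (Eventually.of_forall fun u => by positivity)]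
    _ = _ := by
        congr 1
        rw [integral_const_mul]
        have h5 := Measure.integral_comp_mul_left (fun u : ℝ => (1 + u ^ 2)⁻¹) w
        rw [h5, integral_univ_inv_one_add_sq, smul_eq_mul, abs_of_pos (by positivity)]
        field_simp

/-- the mean square of the difference of the transforms -/
lemma diff_mean {A : Par} (hA : A.Ok) {y w C0 C1 E : ℝ} (hw : A.Y ≤ w) (hC0 : 0 ≤ C0)
    (hC1 : 0 ≤ C1) (hE : 0 ≤ E) {K : ℝ → ℂ} (hKi : Integrable K) (hKc : Continuous K)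
    (hKb : ∀ u, |u| * ‖K u‖ ≤ C0 / (1 + w * |u|) ^ 19)
    (hD : ∀ u : ℝ, ∫ x, A.W ∅ y x * ‖A.FU 0 u x - A.FU 0 0 x‖ ^ 2 ∂mu
      ≤ C1 * (A.Y * |u|) ^ 2 * (1 + A.Y * |u|) ^ 3 * E) :
    ∫ x, A.W ∅ y x * ‖(∫ u, K u * A.FU 0 u x) - (∫ u, K u) * A.FU 0 0 x‖ ^ 2 ∂mu
      ≤ C0 ^ 2 * C1 * Real.pi ^ 2 * (A.Y / w) ^ 2 * E := by
  have hY : 0 < A.Y := one_pos.trans_le hA.hY
  have hw0 : 0 < w := hY.trans_le hw
  have hb := hA.b_pos.le
  have hFc := A.continuous_FU hA (κ := 0) (by norm_num)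
  have hW0 := A.W_nonneg hb ∅ y
  -- the difference
  have hdiff : ∀ x, (∫ u, K u * A.FU 0 u x) - (∫ u, K u) * A.FU 0 0 x
      = ∫ u, K u * (A.FU 0 u x - A.FU 0 0 x) := by
    intro x
    have i1 : Integrable fun u => K u * A.FU 0 u x := by
      refine (hKi.mul_bdd (c := 2 ^ A.U.card)
        (A.continuous_FU_u hA (κ := 0) (by norm_num) x).aestronglyMeasurable ?_)
      exact Eventually.of_forall fun u => A.norm_FU_le hA (by norm_num) u x
    rw [← integral_mul_const, ← integral_sub i1 (hKi.mul_const _)]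
    refine integral_congr_ae (Eventually.of_forall fun u => ?_)
    simp only
    ring
  set κ : ℝ → ENNReal := fun u => ENNReal.ofReal (C0 / (1 + w * |u|) ^ 19) with hκ
  set φ : Om → ℝ → ENNReal := fun x u => ‖A.FU 0 u x - A.FU 0 0 x‖ₑ / ‖u‖ₑ with hφ
  have hκm : Measurable κ := by
    refine ENNReal.measurable_ofReal.comp (Continuous.measurable ?_)
    refine continuous_const.div (by fun_prop) fun u => ?_
    have : 0 ≤ w * |u| := by positivity
    positivity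
  have hFm : Measurable fun q : Om × ℝ => A.FU 0 q.2 q.1 - A.FU 0 0 q.1 := by
    refine Measurable.sub ?_ ?_
    · exact (hFc.comp (f := fun q : Om × ℝ => ((q.2, q.1) : ℝ × Om)) (by fun_prop)).measurable
    · exact (hFc.comp (f := fun q : Om × ℝ => (((0 : ℝ), q.1) : ℝ × Om)) (by fun_prop)).measurable
  have hφm : Measurable fun q : Om × ℝ => φ q.1 q.2 :=
    hFm.enorm.div (measurable_snd.enorm)
  have hpt : ∀ x, ‖(∫ u, K u * A.FU 0 u x) - (∫ u, K u) * A.FU 0 0 x‖ₑ ^ 2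
      ≤ (∫⁻ u, κ u) * ∫⁻ u, κ u * φ x u ^ 2 := by
    intro x
    rw [hdiff x]
    have h1 : ‖∫ u, K u * (A.FU 0 u x - A.FU 0 0 x)‖ₑ ≤ ∫⁻ u, κ u * φ x u := by
      refine (enorm_integral_le_lintegral_enorm _).trans (lintegral_mono fun u => ?_)
      simp only
      rw [enorm_mul]
      by_cases hu : u = 0
      · subst hu
        simp
      · have h2 : ‖u‖ₑ * ‖K u‖ₑ ≤ κ u := by
          rw [hκ]
          simp only
          rw [← ofReal_norm, ← ofReal_norm, ← ENNReal.ofReal_mul (norm_nonneg _),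
            Real.norm_eq_abs]
          exact ENNReal.ofReal_le_ofReal (hKb u)
        have h3 : ‖u‖ₑ ≠ 0 := by simpa using hu
        have h4 : ‖u‖ₑ ≠ ⊤ := enorm_ne_top
        calc ‖K u‖ₑ * ‖A.FU 0 u x - A.FU 0 0 x‖ₑ
            = (‖u‖ₑ * ‖K u‖ₑ) * (‖A.FU 0 u x - A.FU 0 0 x‖ₑ / ‖u‖ₑ) := by
              rw [div_eq_mul_inv, mul_comm (‖u‖ₑ) (‖K u‖ₑ), mul_assoc, mul_comm (‖u‖ₑ) _,
                mul_assoc, ENNReal.inv_mul_cancel h3 h4, mul_one]
          _ ≤ κ u * φ x u := by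
              gcongr
    calc ‖∫ u, K u * (A.FU 0 u x - A.FU 0 0 x)‖ₑ ^ 2 ≤ (∫⁻ u, κ u * φ x u) ^ 2 := by gcongr
      _ ≤ _ := wcs hκm (hφm.comp (f := fun u : ℝ => ((x, u) : Om × ℝ)) measurable_prodMk_left)
  -- the mean for one `u`
  have hone : ∀ u, ∫⁻ x, ENNReal.ofReal (A.W ∅ y x) * φ x u ^ 2 ∂mu
      ≤ ENNReal.ofReal (C1 * A.Y ^ 2 * (1 + A.Y * |u|) ^ 3 * E) := by
    intro u
    by_cases hu : u = 0
    · subst hu
      have : ∀ x, φ x 0 = 0 := by
        intro x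
        rw [hφ]
        simp
      simp [this]
    have hu' : 0 < |u| := abs_pos.mpr hu
    have hne : (‖u‖ₑ)⁻¹ ≠ ⊤ := by
      rw [Ne, ENNReal.inv_eq_top]
      simpa using hu
    have hc : Continuous fun x => A.W ∅ y x * ‖A.FU 0 u x - A.FU 0 0 x‖ ^ 2 :=
      (A.continuous_W' hA ∅ y).mul (((A.continuous_FU' hA (by norm_num) u).sub
        (A.continuous_FU' hA (by norm_num) 0)).norm.pow 2)
    have hi : Integrable (fun x => A.W ∅ y x * ‖A.FU 0 u x - A.FU 0 0 x‖ ^ 2) mu := by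
      obtain ⟨B, hB⟩ := A.W_le hA ∅ y
      refine integrable_of_le (B := B * (2 ^ A.U.card + 2 ^ A.U.card) ^ 2)
        hc.measurable.aestronglyMeasurable fun x => ?_
      rw [Real.norm_of_nonneg (mul_nonneg (hW0 x) (by positivity))]
      have h1 : ‖A.FU 0 u x - A.FU 0 0 x‖ ≤ 2 ^ A.U.card + 2 ^ A.U.card :=
        (norm_sub_le _ _).trans (add_le_add (A.norm_FU_le hA (by norm_num) u x)
          (A.norm_FU_le hA (by norm_num) 0 x))
      have h2 := hB x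
      have h3 := hW0 x
      have h4 := h3.trans h2
      gcongr
    have h1 : ∀ x, ENNReal.ofReal (A.W ∅ y x) * φ x u ^ 2
        = ENNReal.ofReal (A.W ∅ y x * ‖A.FU 0 u x - A.FU 0 0 x‖ ^ 2) * (‖u‖ₑ⁻¹) ^ 2 := by
      intro x
      rw [hφ]
      simp only
      rw [ENNReal.ofReal_mul (hW0 x), ENNReal.ofReal_pow (norm_nonneg _), ofReal_norm,
        div_eq_mul_inv, mul_pow, mul_assoc]
    simp only [h1]
    rw [lintegral_mul_const' _ _ (by exact ENNReal.pow_ne_top hne),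
      ← ofReal_integral_eq_lintegral_ofReal hi
        (Eventually.of_forall fun x => mul_nonneg (hW0 x) (by positivity))]
    have h2 : (‖u‖ₑ⁻¹) ^ 2 = ENNReal.ofReal ((|u|⁻¹) ^ 2) := by
      rw [ENNReal.ofReal_pow (by positivity), ENNReal.ofReal_inv_of_pos hu', ← Real.norm_eq_abs,
        ofReal_norm]
    rw [h2, ← ENNReal.ofReal_mul (integral_nonneg fun x => mul_nonneg (hW0 x) (by positivity))]
    refine ENNReal.ofReal_le_ofReal ?_
    calc (∫ x, A.W ∅ y x * ‖A.FU 0 u x - A.FU 0 0 x‖ ^ 2 ∂mu) * (|u|⁻¹) ^ 2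
        ≤ (C1 * (A.Y * |u|) ^ 2 * (1 + A.Y * |u|) ^ 3 * E) * (|u|⁻¹) ^ 2 := by
          gcongr
          exact hD u
      _ = _ := by field_simp
  -- the total
  have hcont : Continuous fun x => ∫ u, K u * (A.FU 0 u x - A.FU 0 0 x) := by
    have hF2 : Continuous fun w : Om × ℝ => A.FU 0 w.2 w.1 :=
      hFc.comp (f := fun q : Om × ℝ => ((q.2, q.1) : ℝ × Om)) (by fun_prop)
    refine continuous_of_dominated (F := fun x u => K u * (A.FU 0 u x - A.FU 0 0 x))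
      (bound := fun u => ‖K u‖ * (2 ^ A.U.card + 2 ^ A.U.card)) ?_ ?_ ?_ ?_
    · intro x
      exact (hKc.mul ((A.continuous_FU_u hA (by norm_num) x).sub
        continuous_const)).aestronglyMeasurable
    · intro x
      refine Eventually.of_forall fun u => ?_
      rw [norm_mul]
      gcongr
      exact (norm_sub_le _ _).trans (add_le_add (A.norm_FU_le hA (by norm_num) u x)
          (A.norm_FU_le hA (by norm_num) 0 x))
    · exact hKi.norm.mul_const _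
    · refine Eventually.of_forall fun u => ?_
      exact continuous_const.mul ((A.continuous_FU' hA (by norm_num) u).sub
        (A.continuous_FU' hA (by norm_num) 0))
  have hmeas : AEStronglyMeasurable (fun x => A.W ∅ y x
      * ‖(∫ u, K u * A.FU 0 u x) - (∫ u, K u) * A.FU 0 0 x‖ ^ 2) mu := by
    simp only [hdiff]
    exact ((A.continuous_W' hA ∅ y).mul (hcont.norm.pow 2)).measurable.aestronglyMeasurable
  rw [integral_eq_lintegral_of_nonneg_ae
    (Eventually.of_forall fun x => mul_nonneg (hW0 x) (by positivity)) hmeas]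
  refine ENNReal.toReal_le_of_le_ofReal (by positivity) ?_
  have hWm : Measurable fun x => ENNReal.ofReal (A.W ∅ y x) :=
    ENNReal.measurable_ofReal.comp (A.measurable_W hA ∅ y)
  calc ∫⁻ x, ENNReal.ofReal (A.W ∅ y x
        * ‖(∫ u, K u * A.FU 0 u x) - (∫ u, K u) * A.FU 0 0 x‖ ^ 2) ∂mu
      = ∫⁻ x, ENNReal.ofReal (A.W ∅ y x)
        * ‖(∫ u, K u * A.FU 0 u x) - (∫ u, K u) * A.FU 0 0 x‖ₑ ^ 2 ∂mu := by
        refine lintegral_congr fun x => ?_
        rw [ENNReal.ofReal_mul (hW0 x), ENNReal.ofReal_pow (norm_nonneg _), ofReal_norm]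
    _ ≤ ∫⁻ x, ENNReal.ofReal (A.W ∅ y x)
        * ((∫⁻ u, κ u) * ∫⁻ u, κ u * φ x u ^ 2) ∂mu := by
        refine lintegral_mono fun x => ?_
        gcongr
        exact hpt x
    _ = (∫⁻ u, κ u) * ∫⁻ x, (∫⁻ u, ENNReal.ofReal (A.W ∅ y x) * (κ u * φ x u ^ 2)) ∂mu := by
        have hkt : ∫⁻ u, κ u ≠ ⊤ :=
          ((kint hw0 hC0 (by norm_num : 2 ≤ 19)).trans_lt ENNReal.ofReal_lt_top).ne
        rw [← lintegral_const_mul' _ _ hkt]
        refine lintegral_congr fun x => ?_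
        rw [lintegral_const_mul' _ _ ENNReal.ofReal_ne_top]
        ring
    _ = (∫⁻ u, κ u) * ∫⁻ u, κ u * ∫⁻ x, ENNReal.ofReal (A.W ∅ y x) * φ x u ^ 2 ∂mu := by
        congr 1
        rw [lintegral_lintegral_swap]
        · refine lintegral_congr fun u => ?_
          rw [← lintegral_const_mul' _ _ (by exact ENNReal.ofReal_ne_top)]
          refine lintegral_congr fun x => ?_
          ring
        · refine Measurable.aemeasurable ?_
          exact (hWm.comp measurable_fst).mul ((hκm.comp measurable_snd).mul (hφm.pow_const 2))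
    _ ≤ (∫⁻ u, κ u) * ∫⁻ u, ENNReal.ofReal (C0 * C1 * A.Y ^ 2 * E / (1 + w * |u|) ^ 16) := by
        gcongr with u
        calc κ u * ∫⁻ x, ENNReal.ofReal (A.W ∅ y x) * φ x u ^ 2 ∂mu
            ≤ κ u * ENNReal.ofReal (C1 * A.Y ^ 2 * (1 + A.Y * |u|) ^ 3 * E) := by
              gcongr
              exact hone u
          _ ≤ _ := by
              rw [hκ]
              simp only
              have hp : 0 ≤ w * |u| := by positivity
              rw [← ENNReal.ofReal_mul (by positivity)]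
              refine ENNReal.ofReal_le_ofReal ?_
              have hle : (1 + A.Y * |u|) ^ 3 ≤ (1 + w * |u|) ^ 3 := by gcongr
              calc C0 / (1 + w * |u|) ^ 19 * (C1 * A.Y ^ 2 * (1 + A.Y * |u|) ^ 3 * E)
                  ≤ C0 / (1 + w * |u|) ^ 19 * (C1 * A.Y ^ 2 * (1 + w * |u|) ^ 3 * E) := by
                    gcongr
                _ = _ := by
                    have : (1 + w * |u|) ≠ 0 := by positivity
                    field_simp
    _ ≤ ENNReal.ofReal (C0 * (Real.pi / w))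
        * ENNReal.ofReal (C0 * C1 * A.Y ^ 2 * E * (Real.pi / w)) := by
        gcongr
        · exact kint hw0 hC0 (by norm_num)
        · exact kint hw0 (by positivity) (by norm_num)
    _ = _ := by
        rw [← ENNReal.ofReal_mul (by positivity)]
        congr 1
        field_simp

/-- integrability of the kernel -/
lemma kint_int {w B : ℝ} (hw : 0 < w) {K : ℝ → ℂ} (hKc : Continuous K) {k : ℕ} (hk : 2 ≤ k)
    (hB : 0 ≤ B) (hK : ∀ u, ‖K u‖ ≤ B / (1 + w * |u|) ^ k) : Integrable K := by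
  refine ⟨hKc.aestronglyMeasurable, ?_⟩
  unfold HasFiniteIntegral
  refine lt_of_le_of_lt (lintegral_mono fun u => ?_)
    ((kint hw hB hk).trans_lt ENNReal.ofReal_lt_top)
  rw [← ofReal_norm]
  exact ENNReal.ofReal_le_ofReal (hK u)

/-- boundedness and continuity give integrability -/
lemma int_W {A : Par} (hA : A.Ok) (y : ℝ) {F : Om → ℂ} (hF : Continuous F) {B : ℝ}
    (hB : ∀ x, ‖F x‖ ≤ B) : Integrable (fun x => A.W ∅ y x * ‖F x‖ ^ 2) mu := by
  obtain ⟨B1, hB1⟩ := A.W_le hA ∅ y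
  have hW0 := A.W_nonneg hA.b_pos.le ∅ y
  refine integrable_of_le (B := B1 * B ^ 2)
    ((A.continuous_W' hA ∅ y).mul (hF.norm.pow 2)).measurable.aestronglyMeasurable fun x => ?_
  rw [Real.norm_of_nonneg (mul_nonneg (hW0 x) (by positivity))]
  have h2 := hB1 x
  have h3 := hW0 x
  have h4 := h3.trans h2
  have h5 := hB x
  gcongr

/-- one rough number -/
lemma sl_main {A : Par} (hA : A.Ok) {y w c C0 C1 C2 E : ℝ} (hw : A.Y ≤ w) (hC0 : 1 ≤ C0)
    (hC1 : 0 ≤ C1) (hE : 0 ≤ E) (hSK : SKer)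
    (hK : ∀ w a : ℝ, 0 < w →
      ∃ K : ℝ → ℂ, Continuous K ∧ (∀ u, ‖K u‖ ≤ C0 * ((|a| + w) / (1 + w * |u|) ^ 20)) ∧
        (∀ u, |u| * ‖K u‖ ≤ C0 / (1 + w * |u|) ^ 19) ∧
        ∀ ξ : ℝ, 0 ≤ ξ → (Real.smoothTransition ((a - ξ) / w) : ℂ)
          = ∫ u, K u * cexp (-(I * u * ξ)))
    (hD : ∀ u : ℝ, ∫ x, A.W ∅ y x * ‖A.FU 0 u x - A.FU 0 0 x‖ ^ 2 ∂mu
      ≤ C1 * (A.Y * |u|) ^ 2 * (1 + A.Y * |u|) ^ 3 * E)
    (hM : ∫ x, A.W ∅ y x * ‖A.FU 0 0 x‖ ^ 2 ∂mu ≤ C2 * E) {l : ℕ} (hl : 1 ≤ l) :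
    |∫ x, A.W ∅ y x * ‖Sl A ⌊Real.exp c⌋₊
        (fun ξ => (Real.smoothTransition ((c - ξ) / w) : ℂ)) l x‖ ^ 2 ∂mu
      - Real.smoothTransition ((c - Real.log l) / w) ^ 2
        * ∫ x, A.W ∅ y x * ‖A.FU 0 0 x‖ ^ 2 ∂mu|
      ≤ (2 * C0 ^ 2 * C1 * Real.pi ^ 2 + C2) * (A.Y / w) * E := by
  have hY : 0 < A.Y := one_pos.trans_le hA.hY
  have hw0 : 0 < w := hY.trans_le hw
  have hW0 := A.W_nonneg hA.b_pos.le ∅ y
  obtain ⟨K, hKc, hKb, hKb', hKr⟩ := hK w (c - Real.log l) hw0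
  have hKi : Integrable K := by
    refine kint_int hw0 hKc (k := 20) (by norm_num)
      (B := C0 * (|c - Real.log l| + w)) (by positivity) fun u => ?_
    exact (hKb u).trans (le_of_eq (by rw [mul_div_assoc]))
  have hlr : (1 : ℝ) ≤ l := by exact_mod_cast hl
  set ρ : ℝ → ℂ := fun ξ => (Real.smoothTransition ((c - ξ) / w) : ℂ) with hρ
  set r : ℝ := Real.smoothTransition ((c - Real.log l) / w) with hr
  have hr0 : 0 ≤ r := Real.smoothTransition.nonneg _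
  have hr1 : r ≤ 1 := Real.smoothTransition.le_one _
  have hz : ∀ n : ℕ, ⌊Real.exp c⌋₊ < n → ρ (Real.log n) = 0 := by
    intro n hn
    have h2 : Real.exp c < n := Nat.lt_of_floor_lt hn
    have hn1 : (0 : ℝ) < n := (Real.exp_pos c).trans h2
    have h3 : c < Real.log n := by
      rw [Real.lt_log_iff_exp_lt hn1]
      exact h2
    have h4 : (c - Real.log n) / w ≤ 0 := div_nonpos_of_nonpos_of_nonneg (by linarith) hw0.le
    rw [hρ]
    simp only
    rw [Real.smoothTransition.zero_of_nonpos h4]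
    simp
  have hSl : ∀ x, Sl A ⌊Real.exp c⌋₊ ρ l x = ∫ u, K u * A.FU 0 u x := by
    refine hSK A hA ⌊Real.exp c⌋₊ l hl ρ K 0 (by norm_num) hKi hz fun ξ hξ => ?_
    rw [zero_mul, Real.exp_zero, Complex.ofReal_one, one_mul, ← hKr ξ hξ, hρ]
    simp only
    rw [sub_sub]
  have hr' : (r : ℂ) = ∫ u, K u := by
    have := hKr 0 le_rfl
    rw [sub_zero] at this
    rw [hr, this]
    refine integral_congr_ae (Eventually.of_forall fun u => ?_)
    simp
  have hdm := diff_mean hA (y := y) hw (by linarith : (0 : ℝ) ≤ C0) hC1 hE hKi hKc hKb' hD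
  rw [← hr'] at hdm
  simp only [← hSl] at hdm
  set M := ∫ x, A.W ∅ y x * ‖A.FU 0 0 x‖ ^ 2 ∂mu with hMdef
  have hM0 : 0 ≤ M := integral_nonneg fun x => mul_nonneg (hW0 x) (by positivity)
  -- integrability
  have hSc : Continuous (Sl A ⌊Real.exp c⌋₊ ρ l) := continuous_Sl _ _ _ _
  have hFc : Continuous (A.FU 0 0) := A.continuous_FU' hA (by norm_num) 0
  have i1 := int_W hA y hSc (fun x => norm_Sl_le A ⌊Real.exp c⌋₊ ρ l x)
  have i2 := int_W hA y hFc (fun x => A.norm_FU_le hA (κ := 0) (by norm_num) 0 x)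
  have i3 : Integrable (fun x => A.W ∅ y x * ‖Sl A ⌊Real.exp c⌋₊ ρ l x - r * A.FU 0 0 x‖ ^ 2) mu := by
    refine int_W hA y (F := fun x => Sl A ⌊Real.exp c⌋₊ ρ l x - r * A.FU 0 0 x)
      (hSc.sub (continuous_const.mul hFc)) (B := (∑ m ∈ Smo A (⌊Real.exp c⌋₊ / l),
        ‖ρ (Real.log l + Real.log m) * (m : ℂ) ^ (-(1 / 2) : ℂ)‖) + 1 * 2 ^ A.U.card)
      fun x => (norm_sub_le _ _).trans (add_le_add (norm_Sl_le A ⌊Real.exp c⌋₊ ρ l x) ?_)
    rw [norm_mul, Complex.norm_real, Real.norm_of_nonneg hr0]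
    exact mul_le_mul hr1 (A.norm_FU_le hA (κ := 0) (by norm_num) 0 x) (norm_nonneg _) zero_le_one
  set t : ℝ := A.Y / w with ht
  have ht0 : 0 < t := by positivity
  have ht1 : t ≤ 1 := by
    rw [ht, div_le_one hw0]
    exact hw
  have hpt : ∀ x, |A.W ∅ y x * ‖Sl A ⌊Real.exp c⌋₊ ρ l x‖ ^ 2
      - r ^ 2 * (A.W ∅ y x * ‖A.FU 0 0 x‖ ^ 2)|
      ≤ (1 + 1 / t) * (A.W ∅ y x * ‖Sl A ⌊Real.exp c⌋₊ ρ l x - r * A.FU 0 0 x‖ ^ 2)
        + t * (A.W ∅ y x * ‖A.FU 0 0 x‖ ^ 2) := by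
    intro x
    set a := Sl A ⌊Real.exp c⌋₊ ρ l x
    set b := A.FU 0 0 x
    have h1 : |‖a‖ - r * ‖b‖| ≤ ‖a - r * b‖ := by
      have := abs_norm_sub_norm_le a (r * b)
      rw [norm_mul, Complex.norm_real, Real.norm_of_nonneg hr0] at this
      exact this
    have h2 : |‖a‖ ^ 2 - r ^ 2 * ‖b‖ ^ 2| ≤ (1 + 1 / t) * ‖a - r * b‖ ^ 2 + t * ‖b‖ ^ 2 := by
      have e : ‖a‖ ^ 2 - r ^ 2 * ‖b‖ ^ 2 = (‖a‖ - r * ‖b‖) * (‖a‖ + r * ‖b‖) := by ring
      have h3 : ‖a‖ + r * ‖b‖ ≤ ‖a - r * b‖ + 2 * ‖b‖ := by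
        have := (abs_le.mp h1).2
        nlinarith [norm_nonneg b]
      have h4 : 0 ≤ ‖a‖ + r * ‖b‖ := by positivity
      rw [e, abs_mul, abs_of_nonneg h4]
      have h5 : 2 * (‖a - r * b‖ * ‖b‖) ≤ 1 / t * ‖a - r * b‖ ^ 2 + t * ‖b‖ ^ 2 := by
        have h6 : 0 ≤ (‖a - r * b‖ - t * ‖b‖) ^ 2 / t := by positivity
        have h7 : (‖a - r * b‖ - t * ‖b‖) ^ 2 / t
            = 1 / t * ‖a - r * b‖ ^ 2 + t * ‖b‖ ^ 2 - 2 * (‖a - r * b‖ * ‖b‖) := by
          field_simp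
          ring
        linarith
      calc |‖a‖ - r * ‖b‖| * (‖a‖ + r * ‖b‖) ≤ ‖a - r * b‖ * (‖a - r * b‖ + 2 * ‖b‖) := by
            gcongr
        _ = ‖a - r * b‖ ^ 2 + 2 * (‖a - r * b‖ * ‖b‖) := by ring
        _ ≤ _ := by linarith
    have h8 : A.W ∅ y x * ‖a‖ ^ 2 - r ^ 2 * (A.W ∅ y x * ‖b‖ ^ 2)
        = A.W ∅ y x * (‖a‖ ^ 2 - r ^ 2 * ‖b‖ ^ 2) := by ring
    rw [h8, abs_mul, abs_of_nonneg (hW0 x)]
    calc A.W ∅ y x * |‖a‖ ^ 2 - r ^ 2 * ‖b‖ ^ 2|
        ≤ A.W ∅ y x * ((1 + 1 / t) * ‖a - r * b‖ ^ 2 + t * ‖b‖ ^ 2) :=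
          mul_le_mul_of_nonneg_left h2 (hW0 x)
      _ = _ := by ring
  have e1 : (∫ x, A.W ∅ y x * ‖Sl A ⌊Real.exp c⌋₊ ρ l x‖ ^ 2 ∂mu) - r ^ 2 * M
      = ∫ x, (A.W ∅ y x * ‖Sl A ⌊Real.exp c⌋₊ ρ l x‖ ^ 2
        - r ^ 2 * (A.W ∅ y x * ‖A.FU 0 0 x‖ ^ 2)) ∂mu := by
    rw [integral_sub i1 (i2.const_mul _), integral_const_mul]
  rw [e1]
  calc |∫ x, (A.W ∅ y x * ‖Sl A ⌊Real.exp c⌋₊ ρ l x‖ ^ 2
        - r ^ 2 * (A.W ∅ y x * ‖A.FU 0 0 x‖ ^ 2)) ∂mu|
      ≤ ∫ x, ((1 + 1 / t) * (A.W ∅ y x * ‖Sl A ⌊Real.exp c⌋₊ ρ l x - r * A.FU 0 0 x‖ ^ 2)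
        + t * (A.W ∅ y x * ‖A.FU 0 0 x‖ ^ 2)) ∂mu := by
        rw [← Real.norm_eq_abs]
        refine norm_integral_le_of_norm_le ((i3.const_mul _).add (i2.const_mul _))
          (Eventually.of_forall fun x => ?_)
        rw [Real.norm_eq_abs]
        exact hpt x
    _ = (1 + 1 / t) * (∫ x, A.W ∅ y x * ‖Sl A ⌊Real.exp c⌋₊ ρ l x - r * A.FU 0 0 x‖ ^ 2 ∂mu)
        + t * M := by
        rw [integral_add (i3.const_mul _) (i2.const_mul _), integral_const_mul, integral_const_mul]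
    _ ≤ (1 + 1 / t) * (C0 ^ 2 * C1 * Real.pi ^ 2 * t ^ 2 * E) + t * (C2 * E) := by
        gcongr
    _ = C0 ^ 2 * C1 * Real.pi ^ 2 * E * (t ^ 2 + t) + t * (C2 * E) := by
        field_simp
    _ ≤ C0 ^ 2 * C1 * Real.pi ^ 2 * E * (t + t) + t * (C2 * E) := by
        have : t ^ 2 ≤ t := by nlinarith
        gcongr
    _ = _ := by ring

lemma log_le_two_sqrt {t : ℝ} (ht : 1 ≤ t) : 1 + Real.log t ≤ 2 * Real.sqrt t := by
  have h0 : 0 < t := by linarith
  have h1 : 0 < Real.sqrt t := Real.sqrt_pos.mpr h0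
  have h2 : Real.log t = 2 * Real.log (Real.sqrt t) := by
    rw [Real.log_sqrt h0.le]
    ring
  have h3 := Real.log_le_sub_one_of_pos h1
  have h4 : 1 ≤ Real.sqrt t := Real.one_le_sqrt.mpr ht
  rw [h2]
  linarith

lemma HH_nonneg {be b : ℝ} (hb : 0 ≤ b) (y x : ℝ) : 0 ≤ HH be b y x := by
  unfold HH
  have := Par.c0_nonneg
  positivity

end T5

open T5 in
/-- T5 -/
theorem smMain (hGN : GroupNum) (hVar : Variance) (hSF : SForm) (hSK : SKer) (hKer : Ker1)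
    (hFB : FuBd) (hFD : FuDiff) (hFM : FuMain) (hRN : RouNum) : SmMain := by
  obtain ⟨C0, hC0, hK⟩ := hKer
  obtain ⟨C1, hC1, hD⟩ := hFD
  obtain ⟨C2, hC2, hB⟩ := hFB
  obtain ⟨C3, hC3, hFM⟩ := hFM
  obtain ⟨⟨C4, hC4, hV⟩, hPU⟩ := hVar
  set D : ℝ := 2 * C0 ^ 2 * C1 * Real.pi ^ 2 + C2 with hDdef
  have hD0 : 0 ≤ D := by positivity
  refine ⟨D + C3 + 4 * (C2 + 2 * C3), by linarith, fun p0 hp0 => ?_⟩
  obtain ⟨C5, hC5, hR⟩ := hRN p0 hp0
  have hp0r : (1000 : ℝ) ≤ p0 := by exact_mod_cast hp0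
  set V0 : ℝ := Real.exp (C4 + Real.log p0) with hV0
  have hV0p : 0 < V0 := Real.exp_pos _
  refine ⟨2 * D * V0 * C5 + C2 * (2 * V0 * C5 + 1) + 2 * C2 * V0 * C5 + 1, ?_,
    fun A hA hAp w c hw hc y => ?_⟩
  · have : 0 ≤ 2 * D * V0 * C5 + C2 * (2 * V0 * C5 + 1) + 2 * C2 * V0 * C5 := by positivity
    linarith
  have hY : 1 ≤ A.Y := hA.hY
  have hY0 : 0 < A.Y := by linarith
  have hw0 : 0 < w := by linarith
  have hc0 : 0 < c := by linarith
  have hcY : A.Y ≤ c := by linarith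
  have hW0 := A.W_nonneg hA.b_pos.le ∅ y
  have hG := hA.Gs_pos y
  set Gs := A.Gs y with hGs
  set ev := Real.exp A.vt with hev
  have hev0 : 0 < ev := Real.exp_pos _
  have hev1 : 1 ≤ ev := Real.one_le_exp A.vt_nonneg
  set E := ev * Gs with hE
  have hE0 : 0 < E := by positivity
  set M := ∫ x, A.W ∅ y x * ‖A.FU 0 0 x‖ ^ 2 ∂mu with hMdef
  set J := ∫ z, HH A.be A.b (y - A.sg * A.vt) z ∂(gaussianReal 0 (Real.toNNReal A.s2)) with hJ
  have hJ0 : 0 ≤ J := integral_nonneg fun z => HH_nonneg hA.b_pos.le _ _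
  have hM0 : 0 ≤ M := integral_nonneg fun x => mul_nonneg (hW0 x) (by positivity)
  have hM1 : M ≤ C2 * E := by
    have := hB A hA ∅ ∅ (Finset.Subset.refl _) (Finset.empty_subset _) y 0 0
      (by rw [abs_zero]; positivity)
    rw [Finset.sum_empty, mul_zero, neg_zero, Real.exp_zero, abs_zero, mul_zero, add_zero,
      one_pow, mul_one, mul_one] at this
    exact this
  set e3 : ℝ := Real.exp (-A.v) + 1 / A.p0 with he3
  have he30 : 0 ≤ e3 := by positivity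
  have he31 : e3 ≤ 2 := by
    have h1 : Real.exp (-(A.v : ℝ)) ≤ 1 := Real.exp_le_one_iff.mpr (by simp)
    have h2 : (1 : ℝ) / A.p0 ≤ 1 := by
      rw [hAp, div_le_one (by linarith)]
      linarith
    rw [he3]
    linarith
  have hMJ : |M - ev * J| ≤ C3 * e3 * E := hFM A hA y
  -- comparison of `exp vt` with `Y` and with `PU`
  have hevY : ev ≤ V0 * A.Y := by
    have h1 := hV A hA.hp hY ((hGN A hA).2.2.2.1)
    have h2 := (abs_le.mp h1).2
    rw [hAp] at h2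
    calc ev ≤ Real.exp (C4 + Real.log p0 + Real.log A.Y) := by
          rw [hev]
          exact Real.exp_le_exp.mpr (by linarith)
      _ = V0 * A.Y := by rw [Real.exp_add, Real.exp_log hY0]
  obtain ⟨hP1, hP2⟩ := hPU A hA
  have hPU0 : 0 < A.PU := hev0.trans_le hP1
  have hevP : ev / A.PU ≤ 1 := by
    rw [div_le_one hPU0]
    exact hP1
  have hevP' : 1 - 4 / A.p0 ≤ ev / A.PU := by
    have h1 : ev / ((1 + 4 / A.p0) * ev) ≤ ev / A.PU := by gcongr
    have h2 : ev / ((1 + 4 / A.p0) * ev) = 1 / (1 + 4 / (A.p0 : ℝ)) := by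
      field_simp
    have h3 : 1 - 4 / (A.p0 : ℝ) ≤ 1 / (1 + 4 / (A.p0 : ℝ)) := by
      have h4 : 0 ≤ 4 / (A.p0 : ℝ) := by positivity
      rw [le_div_iff₀ (by positivity)]
      nlinarith
    rw [h2] at h1
    exact h3.trans h1
  -- bound of `J`
  have hJ1 : J ≤ (C2 + 2 * C3) * Gs := by
    have h1 := (abs_le.mp hMJ).1
    have h2 : ev * J ≤ ev * ((C2 + 2 * C3) * Gs) := by
      calc ev * J ≤ M + C3 * e3 * E := by linarith
        _ ≤ C2 * E + C3 * 2 * E := by gcongr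
        _ = _ := by rw [hE]; ring
    exact le_of_mul_le_mul_left h2 hev0
  -- the sums over rough numbers
  set N : ℕ := ⌊Real.exp c⌋₊ with hN
  have hexp1 : 1 ≤ Real.exp c := Real.one_le_exp hc0.le
  have hN1 : 1 ≤ N := Nat.le_floor (by exact_mod_cast hexp1)
  have hNr : (0 : ℝ) < N := by exact_mod_cast hN1
  have hNc : (N : ℝ) ≤ Real.exp c := Nat.floor_le (Real.exp_pos _).le
  have hLc : Real.log N ≤ c := by
    rw [Real.log_le_iff_le_exp hNr]
    exact hNc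
  have hcL : c - 1 ≤ Real.log N := by
    rw [Real.le_log_iff_exp_le hNr]
    have h1 : Real.exp c < N + 1 := Nat.lt_floor_add_one _
    have h2 : Real.exp (c - 1) ≤ Real.exp c / 2 := by
      rw [Real.exp_sub]
      have h3 : (2 : ℝ) ≤ Real.exp 1 := by
        have := Real.add_one_le_exp (1 : ℝ)
        linarith
      gcongr
    have h4 : (1 : ℝ) ≤ N := by exact_mod_cast hN1
    linarith
  have hYL : A.Y ≤ Real.log N := by linarith
  have hlogb : 1 + Real.log (Real.log N / A.Y) ≤ 2 * Real.sqrt (c / A.Y) := by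
    have h1 : 1 ≤ c / A.Y := by
      rw [one_le_div hY0]
      exact hcY
    have h2 : Real.log (Real.log N / A.Y) ≤ Real.log (c / A.Y) := by
      refine Real.log_le_log ?_ ?_
      · have : 0 < Real.log N := hY0.trans_le hYL
        positivity
      · gcongr
    have := log_le_two_sqrt h1
    linarith
  have hYs : A.Y * Real.sqrt (c / A.Y) = Real.sqrt (c * A.Y) := by
    have h1 : c * A.Y = A.Y ^ 2 * (c / A.Y) := by field_simp
    rw [h1, Real.sqrt_mul (by positivity), Real.sqrt_sq hY0.le]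
  set q : ℝ := Real.sqrt (c * A.Y) with hq
  have hq0 : 0 ≤ q := Real.sqrt_nonneg _
  obtain ⟨hR1, hR2, -⟩ := hR A hA hAp
  set S1 : ℝ := ∑ l ∈ Ro A N, (l : ℝ)⁻¹ with hS1
  set rr : ℕ → ℝ := fun l => Real.smoothTransition ((c - Real.log l) / w) with hrr
  set S2 : ℝ := ∑ l ∈ Ro A N, (l : ℝ)⁻¹ * rr l ^ 2 with hS2
  have hr0 : ∀ l, 0 ≤ rr l := fun l => Real.smoothTransition.nonneg _
  have hr1 : ∀ l, rr l ≤ 1 := fun l => Real.smoothTransition.le_one _
  have hS1' : |S1 - Real.log N / A.PU| ≤ C5 * (2 * Real.sqrt (c / A.Y)) :=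
    (hR2 N hYL).trans (by gcongr)
  have hS12 : |S1 - S2| ≤ C5 * (w / A.Y + 1) := by
    have h1 := hR1 (c - w) c (by linarith) N
    have h2 : S1 - S2 = ∑ l ∈ Ro A N, (l : ℝ)⁻¹ * (1 - rr l ^ 2) := by
      rw [hS1, hS2, ← Finset.sum_sub_distrib]
      exact Finset.sum_congr rfl fun l _ => by ring
    have h3 : ∀ l ∈ Ro A N, 0 ≤ (l : ℝ)⁻¹ * (1 - rr l ^ 2) := by
      intro l _
      have := hr0 l
      have := hr1 l
      have : rr l ^ 2 ≤ 1 := by nlinarith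
      have : 0 ≤ 1 - rr l ^ 2 := by linarith
      positivity
    rw [h2, abs_of_nonneg (Finset.sum_nonneg h3)]
    calc ∑ l ∈ Ro A N, (l : ℝ)⁻¹ * (1 - rr l ^ 2)
        = ∑ l ∈ (Ro A N).filter (fun l : ℕ => c - w < Real.log l ∧ Real.log l ≤ c),
            (l : ℝ)⁻¹ * (1 - rr l ^ 2) := by
          symm
          refine Finset.sum_filter_of_ne fun l hl hne => ?_
          have hlN := (Finset.mem_Icc.mp (Finset.mem_filter.mp hl).1)
          have hl0 : (0 : ℝ) < l := by exact_mod_cast hlN.1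
          refine ⟨?_, ?_⟩
          · by_contra hcon
            push Not at hcon
            refine hne ?_
            have h5 : 1 ≤ (c - Real.log l) / w := by
              rw [one_le_div hw0]
              linarith
            rw [hrr]
            simp only
            rw [Real.smoothTransition.one_of_one_le h5]
            simp
          · rw [Real.log_le_iff_le_exp hl0]
            exact le_trans (by exact_mod_cast hlN.2) hNc
      _ ≤ ∑ l ∈ (Ro A N).filter (fun l : ℕ => c - w < Real.log l ∧ Real.log l ≤ c), (l : ℝ)⁻¹ := by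
          refine Finset.sum_le_sum fun l _ => ?_
          have h6 : 1 - rr l ^ 2 ≤ 1 := by
            have := sq_nonneg (rr l)
            linarith
          have h7 : (0 : ℝ) ≤ (l : ℝ)⁻¹ := by positivity
          nlinarith
      _ ≤ C5 * ((c - (c - w)) / A.Y + 1) := h1
      _ = _ := by rw [sub_sub_cancel]
  have hS1n : 0 ≤ S1 := Finset.sum_nonneg fun l _ => by positivity
  -- the decomposition
  have hW1 : ∃ B, ∀ x, A.W ∅ y x ≤ B := A.W_le hA ∅ y
  obtain ⟨B, hB1⟩ := hW1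
  have hform := (hSF A hA (A.W ∅ y) B (A.measurable_W hA ∅ y) (fun x => ⟨hW0 x, hB1 x⟩)
    (A.dep_W (Finset.empty_subset _) y) N
    (fun ξ => (Real.smoothTransition ((c - ξ) / w) : ℂ)) (fun _ => 0)).1
  have hSm : ∀ x, Sm w c x = Sr N (fun ξ => (Real.smoothTransition ((c - ξ) / w) : ℂ)) x :=
    fun x => Sm_eq_Sr w c x
  simp only [hSm]
  rw [hform]
  have hD' : ∀ u : ℝ, ∫ x, A.W ∅ y x * ‖A.FU 0 u x - A.FU 0 0 x‖ ^ 2 ∂mu
      ≤ C1 * (A.Y * |u|) ^ 2 * (1 + A.Y * |u|) ^ 3 * E := fun u => hD A hA y u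
  have hsum : |∑ l ∈ Ro A N, (l : ℝ)⁻¹ * (∫ x, A.W ∅ y x
        * ‖Sl A N (fun ξ => (Real.smoothTransition ((c - ξ) / w) : ℂ)) l x‖ ^ 2 ∂mu) - S2 * M|
      ≤ D * (A.Y / w) * E * S1 := by
    rw [hS2, Finset.sum_mul, ← Finset.sum_sub_distrib, hS1, Finset.mul_sum]
    refine (Finset.abs_sum_le_sum_abs _ _).trans (Finset.sum_le_sum fun l hl => ?_)
    have hl1 : 1 ≤ l := (Finset.mem_Icc.mp (Finset.mem_filter.mp hl).1).1
    have h1 := sl_main hA (c := c) hw hC0 (by linarith : (0 : ℝ) ≤ C1) hE0.le hSK hK hD' hM1 hl1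
    have h2 : (0 : ℝ) ≤ (l : ℝ)⁻¹ := by positivity
    have e : (l : ℝ)⁻¹ * (∫ x, A.W ∅ y x
        * ‖Sl A N (fun ξ => (Real.smoothTransition ((c - ξ) / w) : ℂ)) l x‖ ^ 2 ∂mu)
        - (l : ℝ)⁻¹ * rr l ^ 2 * M = (l : ℝ)⁻¹ * ((∫ x, A.W ∅ y x
        * ‖Sl A N (fun ξ => (Real.smoothTransition ((c - ξ) / w) : ℂ)) l x‖ ^ 2 ∂mu)
        - rr l ^ 2 * M) := by ring
    rw [e, abs_mul, abs_of_nonneg h2, mul_comm (D * (A.Y / w) * E)]
    exact mul_le_mul_of_nonneg_left h1 h2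
  -- first error
  have hev2 : ev * (Real.log N / A.PU) ≤ c := by
    calc ev * (Real.log N / A.PU) = Real.log N * (ev / A.PU) := by ring
      _ ≤ c * 1 := mul_le_mul hLc hevP (by positivity) hc0.le
      _ = c := mul_one c
  have hs0 : 0 ≤ Real.sqrt (c / A.Y) := Real.sqrt_nonneg _
  have hE1 : D * (A.Y / w) * E * S1 ≤ (D * (A.Y / w) * c + 2 * D * V0 * C5 * q) * Gs := by
    have h1 : S1 ≤ Real.log N / A.PU + C5 * (2 * Real.sqrt (c / A.Y)) := by
      have := (abs_le.mp hS1').2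
      linarith
    have h2 : ev * S1 ≤ c + 2 * V0 * C5 * q := by
      calc ev * S1 ≤ ev * (Real.log N / A.PU + C5 * (2 * Real.sqrt (c / A.Y))) := by gcongr
        _ = ev * (Real.log N / A.PU) + ev * (2 * C5 * Real.sqrt (c / A.Y)) := by ring
        _ ≤ c + V0 * A.Y * (2 * C5 * Real.sqrt (c / A.Y)) := by gcongr
        _ = c + 2 * V0 * C5 * (A.Y * Real.sqrt (c / A.Y)) := by ring
        _ = _ := by rw [hYs]
    have h3 : A.Y / w ≤ 1 := by
      rw [div_le_one hw0]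
      exact hw
    calc D * (A.Y / w) * E * S1 = D * (A.Y / w) * (ev * S1) * Gs := by rw [hE]; ring
      _ ≤ D * (A.Y / w) * (c + 2 * V0 * C5 * q) * Gs := by gcongr
      _ = (D * (A.Y / w) * c + D * (A.Y / w) * (2 * V0 * C5 * q)) * Gs := by ring
      _ ≤ (D * (A.Y / w) * c + D * 1 * (2 * V0 * C5 * q)) * Gs := by gcongr
      _ = _ := by ring
  -- second error
  have hE2 : |S2 - c / A.PU| * M ≤ (C2 * (2 * V0 * C5 + 1) * w + 2 * C2 * V0 * C5 * q) * Gs := by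
    have h1 : |S2 - c / A.PU| ≤ C5 * (w / A.Y + 1) + C5 * (2 * Real.sqrt (c / A.Y)) + 1 / A.PU := by
      have h2 : |Real.log N / A.PU - c / A.PU| ≤ 1 / A.PU := by
        rw [← sub_div, abs_div, abs_of_pos hPU0]
        gcongr
        rw [abs_le]
        constructor <;> linarith
      have h3 : S2 - c / A.PU = -(S1 - S2) + (S1 - Real.log N / A.PU)
          + (Real.log N / A.PU - c / A.PU) := by ring
      rw [h3]
      refine (abs_add_le _ _).trans (add_le_add ((abs_add_le _ _).trans (add_le_add ?_ hS1')) h2)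
      rw [abs_neg]
      exact hS12
    have hb0 : 0 ≤ C5 * (w / A.Y + 1) + C5 * (2 * Real.sqrt (c / A.Y)) + 1 / A.PU := by positivity
    calc |S2 - c / A.PU| * M
        ≤ (C5 * (w / A.Y + 1) + C5 * (2 * Real.sqrt (c / A.Y)) + 1 / A.PU) * (C2 * E) := by
          gcongr
      _ = C2 * Gs * (C5 * (w / A.Y + 1 + 2 * Real.sqrt (c / A.Y)) * ev + ev / A.PU) := by
          rw [hE]; ring
      _ ≤ C2 * Gs * (C5 * (w / A.Y + 1 + 2 * Real.sqrt (c / A.Y)) * (V0 * A.Y) + 1) := by gcongr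
      _ = C2 * Gs * (C5 * V0 * (w + A.Y + 2 * (A.Y * Real.sqrt (c / A.Y))) + 1) := by
          field_simp
      _ = C2 * Gs * (C5 * V0 * (w + A.Y + 2 * q) + 1) := by rw [hYs]
      _ ≤ C2 * Gs * (C5 * V0 * (w + w + 2 * q) + w) := by
          have : 1 ≤ w := by linarith
          gcongr
      _ = _ := by ring
  -- third error
  have hE3 : |c / A.PU * M - c * J| ≤ (C3 + 4 * (C2 + 2 * C3)) * e3 * c * Gs := by
    have h1 : c / A.PU * M - c * J = c / A.PU * (M - ev * J) - c * J * (1 - ev / A.PU) := by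
      field_simp
      ring
    have h2 : |c / A.PU * (M - ev * J)| ≤ C3 * e3 * c * Gs := by
      rw [abs_mul, abs_of_nonneg (by positivity : 0 ≤ c / A.PU)]
      calc c / A.PU * |M - ev * J| ≤ c / A.PU * (C3 * e3 * E) := by gcongr
        _ = C3 * e3 * c * Gs * (ev / A.PU) := by rw [hE]; ring
        _ ≤ C3 * e3 * c * Gs * 1 := by gcongr
        _ = _ := mul_one _
    have h3 : |c * J * (1 - ev / A.PU)| ≤ 4 * (C2 + 2 * C3) * e3 * c * Gs := by
      have h4 : 0 ≤ 1 - ev / A.PU := by linarith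
      rw [abs_of_nonneg (by positivity)]
      have h5 : 1 - ev / A.PU ≤ 4 * e3 := by
        have h6 : (4 : ℝ) / A.p0 ≤ 4 * e3 := by
          rw [he3, mul_add, mul_one_div]
          have := Real.exp_pos (-(A.v : ℝ))
          linarith
        linarith
      calc c * J * (1 - ev / A.PU) ≤ c * ((C2 + 2 * C3) * Gs) * (4 * e3) := by gcongr
        _ = _ := by ring
    rw [h1]
    refine (abs_sub _ _).trans ?_
    calc _ ≤ C3 * e3 * c * Gs + 4 * (C2 + 2 * C3) * e3 * c * Gs := add_le_add h2 h3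
      _ = _ := by ring
  -- sum of the errors
  set TT := ∑ l ∈ Ro A N, (l : ℝ)⁻¹ * (∫ x, A.W ∅ y x
        * ‖Sl A N (fun ξ => (Real.smoothTransition ((c - ξ) / w) : ℂ)) l x‖ ^ 2 ∂mu) with hTT
  have hsplit : TT - c * J = (TT - S2 * M) + (S2 - c / A.PU) * M + (c / A.PU * M - c * J) := by
    ring
  have hwY : 0 ≤ A.Y / w := by positivity
  rw [hsplit]
  calc |(TT - S2 * M) + (S2 - c / A.PU) * M + (c / A.PU * M - c * J)|
      ≤ |TT - S2 * M| + |(S2 - c / A.PU) * M| + |c / A.PU * M - c * J| :=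
        (abs_add_le _ _).trans (add_le_add_left (abs_add_le _ _) _)
    _ ≤ (D * (A.Y / w) * c + 2 * D * V0 * C5 * q) * Gs
        + (C2 * (2 * V0 * C5 + 1) * w + 2 * C2 * V0 * C5 * q) * Gs
        + (C3 + 4 * (C2 + 2 * C3)) * e3 * c * Gs := by
        rw [abs_mul, abs_of_nonneg hM0]
        exact add_le_add (add_le_add (hsum.trans hE1) hE2) hE3
    _ = (D * (A.Y / w) * c + (C3 + 4 * (C2 + 2 * C3)) * e3 * c
          + (C2 * (2 * V0 * C5 + 1) * w + (2 * D * V0 * C5 + 2 * C2 * V0 * C5) * q)) * Gs := by ring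
    _ ≤ ((D + C3 + 4 * (C2 + 2 * C3)) * (A.Y / w) * c + (D + C3 + 4 * (C2 + 2 * C3)) * e3 * c
          + ((2 * D * V0 * C5 + C2 * (2 * V0 * C5 + 1) + 2 * C2 * V0 * C5 + 1) * w
            + (2 * D * V0 * C5 + C2 * (2 * V0 * C5 + 1) + 2 * C2 * V0 * C5 + 1) * q)) * Gs := by
        have a1 : D ≤ D + C3 + 4 * (C2 + 2 * C3) := by linarith
        have a2 : C3 + 4 * (C2 + 2 * C3) ≤ D + C3 + 4 * (C2 + 2 * C3) := by linarith
        have b1 : 0 ≤ 2 * D * V0 * C5 := by positivity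
        have b2 : 0 ≤ C2 * (2 * V0 * C5 + 1) := by positivity
        have b3 : 0 ≤ 2 * C2 * V0 * C5 := by positivity
        have a3 : C2 * (2 * V0 * C5 + 1)
          ≤ 2 * D * V0 * C5 + C2 * (2 * V0 * C5 + 1) + 2 * C2 * V0 * C5 + 1 := by linarith
        have a4 : 2 * D * V0 * C5 + 2 * C2 * V0 * C5
          ≤ 2 * D * V0 * C5 + C2 * (2 * V0 * C5 + 1) + 2 * C2 * V0 * C5 + 1 := by linarith
        gcongr
    _ = _ := by rw [he3]; ring

end Pool.Agent.Lib.G2
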