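import Mathlib
import Pool.Agent.Lib.MP_f9aece_nt_g2.Stmts

/-!
The law of `log |zeta|` under the measure `|zeta| ^ 2`, modules T6 and T7: the Euler product on the
line (main term) and the inverse of the mollifier (bound).
-/

set_option autoImplicit false

namespace Pool.Agent.Lib.G2

open MeasureTheory Set Filter Topology Complex ProbabilityTheory
open scoped ComplexConjugate
open Pool.Agent.Lib.MP_f9aece_nt (VV)
open Pool.Agent.Lib.J4 (V2)
open Pool.Agent.Lib.GT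

namespace T6

/-- two Euler factors -/
noncomputable def D2 (A : Par) : Dat where
  g := fun _ => 0
  g' := fun _ => 0
  a := fun p => (A.h p : ℂ)
  a' := fun p => (A.h p : ℂ)
  b := fun _ => 0
  b' := fun _ => 0

/-- no factor -/
noncomputable def D0 : Dat where
  g := fun _ => 0
  g' := fun _ => 0
  a := fun _ => 0
  a' := fun _ => 0
  b := fun _ => 0
  b' := fun _ => 0

lemma h_eq (A : Par) (p : ℕ) : A.h p = 1 / Real.sqrt p := by
  unfold Par.h
  rw [Real.rpow_neg (Nat.cast_nonneg p), ← Real.sqrt_eq_rpow, one_div]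

lemma h_nonneg (A : Par) (p : ℕ) : 0 ≤ A.h p := by
  unfold Par.h
  positivity

lemma D2_ok (A : Par) : (D2 A).Ok := by
  intro p
  have h1 : ‖((A.h p : ℝ) : ℂ)‖ ≤ 1 / Real.sqrt p := by
    rw [Complex.norm_real, Real.norm_of_nonneg (h_nonneg A p), h_eq]
  have h2 : (0 : ℝ) ≤ 2 / Real.sqrt p := by positivity
  have h3 : (0 : ℝ) ≤ 1 / Real.sqrt p := by positivity
  refine ⟨?_, ?_, h1, h1, ?_, ?_⟩ <;> · simp only [D2, norm_zero]; assumption

lemma D0_ok : D0.Ok := by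
  intro p
  have h2 : (0 : ℝ) ≤ 2 / Real.sqrt p := by positivity
  have h3 : (0 : ℝ) ≤ 1 / Real.sqrt p := by positivity
  refine ⟨?_, ?_, ?_, ?_, ?_, ?_⟩ <;> · simp only [D0, norm_zero]; assumption

lemma HF_D0 (S : Finset ℕ) (x : Om) : HF S D0 x = 1 := by
  simp [HF, D0]

lemma cpow_half (A : Par) (p : ℕ) :
    (p : ℂ) ^ (-(1 / 2 - ((0 : ℝ) : ℂ) + I * ((0 : ℝ) : ℂ)) : ℂ) = (A.h p : ℂ) := by
  unfold Par.h
  rw [Complex.ofReal_cpow (Nat.cast_nonneg p)]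
  push_cast
  congr 1
  ring

lemma HF_D2 (A : Par) (x : Om) : HF A.U (D2 A) x = ((‖A.FU 0 0 x‖ ^ 2 : ℝ) : ℂ) := by
  have h1 : ((‖A.FU 0 0 x‖ ^ 2 : ℝ) : ℂ) = A.FU 0 0 x * conj (A.FU 0 0 x) := by
    rw [Complex.mul_conj, Complex.normSq_eq_norm_sq]
  rw [h1]
  unfold HF Par.FU
  simp only [cpow_half A]
  rw [map_prod, ← Finset.prod_mul_distrib]
  simp only [D2, zero_mul, add_zero, Finset.sum_const_zero, Complex.exp_zero, one_mul, sub_zero,
    inv_one, mul_one]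
  refine Finset.prod_congr rfl fun p _ => ?_
  rw [map_inv₀, map_sub, map_one, map_mul, Complex.conj_ofReal]

lemma mo_zero (A : Par) (s : Finset ℕ) (x : Om) : A.mo 0 s x = 1 := by
  unfold Par.mo
  refine Finset.prod_eq_one fun g _ => ?_
  rw [zero_mul]
  unfold tex
  rw [Finset.sum_eq_single 0]
  · simp
  · intro k _ hk
    simp [hk]
  · simp

lemma hvt (A : Par) : (A.vt : ℂ) = ∑ p ∈ A.U, (A.h p : ℂ) * (A.h p : ℂ) := by
  unfold Par.vt
  push_cast
  exact Finset.sum_congr rfl fun p _ => by ring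

/-- the exponent -/
lemma sab_D2 (A : Par) (hA : A.Ok) (η η' : ℝ) :
    sab A.U A.h (A.sz η) (A.sz η') 0 0 (D2 A)
      = (A.zz η + conj (A.zz η')) ^ 2 * A.vt / 4 + A.sg * (A.zz η + conj (A.zz η')) * A.vt + A.vt := by
  have hsg : (A.sg : ℂ) ^ 2 = 1 := by
    rcases hA.hsg with h | h <;> rw [h] <;> norm_num
  have h1 : sab A.U A.h (A.sz η) (A.sz η') 0 0 (D2 A)
      = ((A.sg : ℂ) * (A.zz η + conj (A.zz η')) / 2 + 1) ^ 2 * A.vt := by
    unfold sab
    rw [hvt, Finset.mul_sum]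
    refine Finset.sum_congr rfl fun p _ => ?_
    simp only [D2, Par.sz, map_mul, Complex.conj_ofReal, map_zero]
    ring
  rw [h1]
  linear_combination ((A.zz η + conj (A.zz η')) ^ 2 / 4 * A.vt) * hsg

lemma sab_D0 (A : Par) (hA : A.Ok) (η η' : ℝ) :
    sab A.U A.h (A.sz η) (A.sz η') 1 1 D0
      = (A.zz η + conj (A.zz η')) ^ 2 * A.vt / 4 + A.sg * (A.zz η + conj (A.zz η')) * A.vt + A.vt := by
  rw [← sab_D2 A hA]
  unfold sab
  refine Finset.sum_congr rfl fun p _ => ?_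
  simp only [D2, D0, map_one, map_zero]
  ring

lemma zz_add (A : Par) (η η' : ℝ) :
    A.zz η + conj (A.zz η') = (A.be : ℂ) + I * ((A.b * (η - η') : ℝ) : ℂ) := by
  unfold Par.zz
  simp only [map_add, map_div₀, Complex.conj_ofReal, map_mul, Complex.conj_I]
  rw [map_ofNat]
  push_cast
  ring

lemma re_exponent (A : Par) (η η' : ℝ) :
    ((A.zz η + conj (A.zz η')) ^ 2 * A.vt / 4 + A.sg * (A.zz η + conj (A.zz η')) * A.vt + A.vt : ℂ).re
      = (A.be ^ 2 - A.b ^ 2 * (η - η') ^ 2) * A.vt / 4 + (A.sg * A.be * A.vt + A.vt) := by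
  rw [zz_add]
  have h1 : (((A.be : ℂ) + I * ((A.b * (η - η') : ℝ) : ℂ)) ^ 2 * A.vt / 4
      + A.sg * ((A.be : ℂ) + I * ((A.b * (η - η') : ℝ) : ℂ)) * A.vt + A.vt : ℂ)
      = (((A.be ^ 2 - A.b ^ 2 * (η - η') ^ 2) * A.vt / 4 + (A.sg * A.be * A.vt + A.vt) : ℝ) : ℂ)
        + I * ((A.be * (A.b * (η - η')) * A.vt / 2 + A.sg * (A.b * (η - η')) * A.vt : ℝ) : ℂ) := by
    push_cast
    linear_combination ((A.b : ℂ) ^ 2 * ((η : ℂ) - η') ^ 2 * A.vt / 4) * Complex.I_sq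
  rw [h1, Complex.add_re, Complex.ofReal_re, Complex.mul_re, Complex.I_re, Complex.I_im,
    Complex.ofReal_im, zero_mul, mul_zero, sub_zero, add_zero]

lemma expBd_D2 (A : Par) (hA : A.Ok) : ExpBd A 0 0 (D2 A) (A.sg * A.be * A.vt + A.vt) := by
  intro η η' _ _
  rw [sab_D2 A hA, re_exponent]

lemma expBd_D0 (A : Par) (hA : A.Ok) : ExpBd A 1 1 D0 (A.sg * A.be * A.vt + A.vt) := by
  intro η η' _ _
  rw [sab_D0 A hA, re_exponent]

lemma small_one (A : Par) : Small A 1 fun _ => 1 :=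
  ⟨measurable_const, fun _ _ _ => rfl, fun _ => by simp⟩

/-- the size of the windows -/
lemma exp_mul_G (A : Par) (y : ℝ) :
    Real.exp (A.sg * A.be * A.vt + A.vt) * A.G y = Real.exp A.vt * A.Gs y := by
  unfold Par.Gs Par.G
  have h1 : Real.exp (-(A.be * (y - A.sg * A.vt)) + A.be ^ 2 * A.s2 / 2)
      = Real.exp (A.sg * A.be * A.vt) * Real.exp (-(A.be * y) + A.be ^ 2 * A.s2 / 2) := by
    rw [← Real.exp_add]
    congr 1
    ring
  rw [h1, Real.exp_add]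
  ring

lemma G_nonneg (A : Par) (y : ℝ) : 0 ≤ A.G y := by
  unfold Par.G
  positivity

lemma Gs_nonneg (A : Par) (y : ℝ) : 0 ≤ A.Gs y := G_nonneg A _

end T6

open T6

theorem fuMain (hM : WMain) (hG : WGauss) : FuMain := by
  obtain ⟨C, hC, hM⟩ := hM
  obtain ⟨C', -, hG⟩ := hG
  refine ⟨max C 1, le_max_right _ _, fun A hA y => ?_⟩
  have h1 := hM A hA 0 0 (by simp) (by simp) (D2 A) (D2_ok A) (A.sg * A.be * A.vt + A.vt)
    (expBd_D2 A hA) 1 (fun _ => 1) (small_one A) y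
  have h2 := (hG A hA (y - A.sg * A.vt)).1
  -- the integral on the torus
  have h3 : ∫ x, (A.W ∅ y x : ℂ) * (A.mo 0 ∅ x * conj (A.mo 0 ∅ x)) * (HF A.U (D2 A) x * 1) ∂mu
      = ((∫ x, A.W ∅ y x * ‖A.FU 0 0 x‖ ^ 2 ∂mu : ℝ) : ℂ) := by
    rw [← integral_complex_ofReal]
    refine integral_congr_ae (ae_of_all _ fun x => ?_)
    simp only [mo_zero, HF_D2, map_one, mul_one]
    push_cast
    ring
  -- the main term
  have h4 : ∫ w : ℝ × ℝ, (phi w.1 * phi w.2 : ℝ) * (cexp (-((A.zz w.1 + conj (A.zz w.2)) * y))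
          * cexp (sab A.U A.h (A.sz w.1) (A.sz w.2) 0 0 (D2 A))) ∂(me.prod me)
      = cexp A.vt * ∫ w : ℝ × ℝ, (phi w.1 * phi w.2 : ℝ)
        * (cexp (-((A.zz w.1 + conj (A.zz w.2)) * (y - A.sg * A.vt : ℝ)))
          * cexp ((A.zz w.1 + conj (A.zz w.2)) ^ 2 * A.vt / 4)) ∂(me.prod me) := by
    rw [← integral_const_mul]
    refine integral_congr_ae (ae_of_all _ fun w => ?_)
    simp only
    rw [sab_D2 A hA]
    have h5 : cexp (-((A.zz w.1 + conj (A.zz w.2)) * y))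
        * cexp ((A.zz w.1 + conj (A.zz w.2)) ^ 2 * A.vt / 4
          + A.sg * (A.zz w.1 + conj (A.zz w.2)) * A.vt + A.vt)
        = cexp A.vt * (cexp (-((A.zz w.1 + conj (A.zz w.2)) * (y - A.sg * A.vt : ℝ)))
          * cexp ((A.zz w.1 + conj (A.zz w.2)) ^ 2 * A.vt / 4)) := by
      rw [← Complex.exp_add, ← Complex.exp_add, ← Complex.exp_add]
      congr 1
      push_cast
      ring
    rw [h5]
    ring
  rw [h3, h4] at h1
  have h6 : (A.b / c0 : ℝ) * (cexp A.vt * ∫ w : ℝ × ℝ, (phi w.1 * phi w.2 : ℝ)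
        * (cexp (-((A.zz w.1 + conj (A.zz w.2)) * (y - A.sg * A.vt : ℝ)))
          * cexp ((A.zz w.1 + conj (A.zz w.2)) ^ 2 * A.vt / 4)) ∂(me.prod me))
      * ∫ _x : Om, (1 : ℂ) ∂mu
      = ((Real.exp A.vt * ∫ z, HH A.be A.b (y - A.sg * A.vt) z
          ∂(gaussianReal 0 (Real.toNNReal A.s2)) : ℝ) : ℂ) := by
    have h7 : ∫ _x : Om, (1 : ℂ) ∂mu = 1 := by simp
    rw [h7]
    push_cast
    push_cast at h2
    rw [← h2]
    ring
  rw [h6, ← Complex.ofReal_sub, Complex.norm_real, Real.norm_eq_abs] at h1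
  refine h1.trans ?_
  rw [mul_one, mul_assoc _ (Real.exp (A.sg * A.be * A.vt + A.vt)) (A.G y), exp_mul_G]
  have h8 : (0 : ℝ) ≤ Real.exp (-A.v) + 1 / A.p0 := by positivity
  have h9 : 0 ≤ Real.exp A.vt * A.Gs y := mul_nonneg (Real.exp_pos _).le (Gs_nonneg A y)
  have h10 : C ≤ max C 1 := le_max_left _ _
  gcongr

theorem moBd (hW : WBd) : MoBd := by
  obtain ⟨C, hC, hW⟩ := hW
  refine ⟨max C 1, le_max_right _ _, fun A hA s hs y => ?_⟩
  have h1 := (hW A hA 1 1 (by simp) (by simp) D0 D0_ok (A.sg * A.be * A.vt + A.vt)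
    (expBd_D0 A hA) 1 (fun _ => 1) (small_one A) y) s s subset_rfl hs
  have h3 : ∫ x, (A.Wg s s y x : ℂ) * (A.mo 1 s x * conj (A.mo 1 s x)) * (HF A.U D0 x * 1) ∂mu
      = ((∫ x, A.W s y x * ‖A.mo 1 s x‖ ^ 2 ∂mu : ℝ) : ℂ) := by
    rw [← integral_complex_ofReal]
    refine integral_congr_ae (ae_of_all _ fun x => ?_)
    simp only [HF_D0, mul_one]
    rw [Complex.mul_conj, Complex.normSq_eq_norm_sq, ← Complex.ofReal_mul]
    rfl
  rw [h3, Complex.norm_real, Real.norm_eq_abs] at h1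
  refine (le_abs_self _).trans (h1.trans ?_)
  rw [mul_one, mul_assoc _ (Real.exp (A.sg * A.be * A.vt + A.vt)) (A.G y), exp_mul_G]
  have h9 : 0 ≤ Real.exp A.vt * A.Gs y := mul_nonneg (Real.exp_pos _).le (Gs_nonneg A y)
  have h10 : C ≤ max C 1 := le_max_left _ _
  gcongr

end Pool.Agent.Lib.G2
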