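import Mathlib
import Pool.Agent.Lib.MP_f9aece_nt_g2.T4

/-!
The law of `log |zeta|` under the measure `|zeta| ^ 2`, module T8: two smooth sums and the mollifier.
-/

set_option autoImplicit false

namespace Pool.Agent.Lib.G2

open MeasureTheory Set Filter Topology Complex
open scoped ComplexConjugate ENNReal
open Pool.Agent.Lib.GT

namespace T8

open TS

/-- the kernel of one cut-off sum -/
lemma sl_ker (hsk : SKer) {CK : ℝ} (hCK : 1 ≤ CK)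
    (hK1 : ∀ w a : ℝ, 0 < w →
      ∃ K : ℝ → ℂ, Continuous K ∧ (∀ u, ‖K u‖ ≤ CK * ((|a| + w) / (1 + w * |u|) ^ 20)) ∧
      (∀ u, |u| * ‖K u‖ ≤ CK / (1 + w * |u|) ^ 19) ∧
      ∀ ξ : ℝ, 0 ≤ ξ → (Real.smoothTransition ((a - ξ) / w) : ℂ) = ∫ u, K u * cexp (-(I * u * ξ)))
    {A : Par} (hA : A.Ok) {w a : ℝ} (hw : A.Y ≤ w) {N l : ℕ} (hl : 1 ≤ l) (hN : ⌊Real.exp a⌋₊ ≤ N) :
    ∃ K : ℝ → ℂ, Continuous K ∧ Integrable K ∧
      (∀ u, ‖K u‖ * (1 + A.Y * |u|) ^ 5 ≤ CK * (|a - Real.log l| + w) * (1 / (1 + w * |u|) ^ 2)) ∧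
      ∀ x, Sl A N (cut w a) l x = ∫ u, K u * A.FU 0 u x := by
  have hY := hA.hY
  have hw0 : 0 < w := by linarith
  obtain ⟨K, hKc, hKb, -, hKe⟩ := hK1 w (a - Real.log l) hw0
  have hb := fun u => ker1_red (Y := A.Y) (k := 5) (by linarith) hw0 hw (by linarith) (by norm_num) hKb u
  have hi : Integrable K := by
    refine integrable_ker (κ := CK * (|a - Real.log l| + w)) hw0 hKc fun u => ?_
    refine le_trans ?_ (hb u)
    have h1 : 1 ≤ (1 + A.Y * |u|) ^ 5 := one_le_pow₀ (by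
      have : 0 ≤ A.Y * |u| := by positivity
      linarith)
    exact le_mul_of_one_le_right (norm_nonneg _) h1
  refine ⟨K, hKc, hi, hb, fun x => ?_⟩
  refine hsk A hA N l hl (cut w a) K 0 (by norm_num) hi
    (fun n hn => cut_eq_zero hw0 (lt_log hN hn).le) (fun ξ hξ => ?_) x
  rw [zero_mul, Real.exp_zero, Complex.ofReal_one, one_mul, ← hKe ξ hξ]
  unfold cut
  congr 3
  ring

lemma meas_two (A : Par) :
    Measurable (Function.uncurry fun (b : ℝ × ℝ) (x : Om) => A.FU 0 b.1 x * A.FU 0 b.2 x) := by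
  have hFm := measurable_FU A 0
  have g1 : Measurable fun q : (ℝ × ℝ) × Om => (q.1.1, q.2) :=
    (measurable_fst.comp measurable_fst).prodMk measurable_snd
  have g2 : Measurable fun q : (ℝ × ℝ) × Om => (q.1.2, q.2) :=
    (measurable_snd.comp measurable_fst).prodMk measurable_snd
  have k1 : Measurable fun q : (ℝ × ℝ) × Om => Function.uncurry (A.FU 0) (q.1.1, q.2) := hFm.comp g1
  have k2 : Measurable fun q : (ℝ × ℝ) × Om => Function.uncurry (A.FU 0) (q.1.2, q.2) := hFm.comp g2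
  have e : (Function.uncurry fun (b : ℝ × ℝ) (x : Om) => A.FU 0 b.1 x * A.FU 0 b.2 x)
      = fun q : (ℝ × ℝ) × Om => Function.uncurry (A.FU 0) (q.1.1, q.2)
        * Function.uncurry (A.FU 0) (q.1.2, q.2) := by
    funext q
    rfl
  rw [e]
  exact k1.mul k2

/-- the parts of two cut-off sums, under the tilt and the mollifier -/
lemma sl_two (hsk : SKer) {CK : ℝ} (hCK : 1 ≤ CK)
    (hK1 : ∀ w a : ℝ, 0 < w →
      ∃ K : ℝ → ℂ, Continuous K ∧ (∀ u, ‖K u‖ ≤ CK * ((|a| + w) / (1 + w * |u|) ^ 20)) ∧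
      (∀ u, |u| * ‖K u‖ ≤ CK / (1 + w * |u|) ^ 19) ∧
      ∀ ξ : ℝ, 0 ≤ ξ → (Real.smoothTransition ((a - ξ) / w) : ℂ) = ∫ u, K u * cexp (-(I * u * ξ)))
    {CF : ℝ} (hCF : 1 ≤ CF) {A : Par} (hA : A.Ok) {f : Om → ℝ} (hf : Measurable f)
    (hf0 : ∀ x, 0 ≤ f x) {B0 : ℝ} (hfB : ∀ x, f x ≤ B0) {y : ℝ}
    (hF : ∀ u1 u2 : ℝ, ∫ x, f x * (‖A.FU 0 u1 x‖ ^ 2 * ‖A.FU 0 u2 x‖ ^ 2) ∂mu
      ≤ CF * ((1 + A.Y * |u1|) ^ 9 * (1 + A.Y * |u2|) ^ 9) * (Real.exp A.vt * A.Gs y))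
    {w a c : ℝ} (hw : A.Y ≤ w) {N l l' : ℕ} (hl : 1 ≤ l) (hl' : 1 ≤ l')
    (hN : ⌊Real.exp a⌋₊ ≤ N) (hN' : ⌊Real.exp c⌋₊ ≤ N) :
    ∫ x, f x * (‖Sl A N (cut w a) l x‖ ^ 2 * ‖Sl A N (cut w c) l' x‖ ^ 2) ∂mu
      ≤ CF * (Real.exp A.vt * A.Gs y)
        * ((CK * (|a - Real.log l| + w) * (cc / w)) * (CK * (|c - Real.log l'| + w) * (cc / w))) ^ 2 := by
  have hY := hA.hY
  have hw0 : 0 < w := by linarith
  have hG := (hA.Gs_pos y).le
  have hcc := cc_nonneg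
  obtain ⟨K, hKc, hKi, hKb, hKe⟩ := sl_ker hsk hCK hK1 hA hw hl hN
  obtain ⟨K', hKc', hKi', hKb', hKe'⟩ := sl_ker hsk hCK hK1 hA hw hl' hN'
  have hκ0 : 0 ≤ CK * (|a - Real.log l| + w) := by positivity
  have hκ0' : 0 ≤ CK * (|c - Real.log l'| + w) := by positivity
  have hgm : Measurable (Function.uncurry fun (b : ℝ × ℝ) (x : Om) => A.FU 0 b.1 x * A.FU 0 b.2 x) :=
    meas_two A
  have hgB : ∀ (b : ℝ × ℝ) (x : Om), ‖A.FU 0 b.1 x * A.FU 0 b.2 x‖ ≤ 2 ^ A.U.card * 2 ^ A.U.card := by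
    intro b x
    rw [norm_mul]
    exact mul_le_mul (norm_FU_le hA (by norm_num) _ _) (norm_FU_le hA (by norm_num) _ _)
      (norm_nonneg _) (by positivity)
  have hS : ∀ x, Sl A N (cut w a) l x * Sl A N (cut w c) l' x
      = ∫ b : ℝ × ℝ, (K b.1 * K' b.2) * (A.FU 0 b.1 x * A.FU 0 b.2 x) ∂(volume.prod volume) := by
    intro x
    rw [hKe x, hKe' x, ← integral_prod_mul]
    refine integral_congr_ae (Eventually.of_forall fun b => ?_)
    simp only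
    ring
  have hM : ∫⁻ b : ℝ × ℝ, ENNReal.ofReal (‖K b.1 * K' b.2‖ * ((1 + A.Y * |b.1|) ^ 5 * (1 + A.Y * |b.2|) ^ 5))
      ∂(volume.prod volume)
      ≤ ENNReal.ofReal ((CK * (|a - Real.log l| + w) * (cc / w)) * (CK * (|c - Real.log l'| + w) * (cc / w))) := by
    have e1 : ∀ b : ℝ × ℝ,
        ENNReal.ofReal (‖K b.1 * K' b.2‖ * ((1 + A.Y * |b.1|) ^ 5 * (1 + A.Y * |b.2|) ^ 5))
        = ENNReal.ofReal (‖K b.1‖ * (1 + A.Y * |b.1|) ^ 5)
          * ENNReal.ofReal (‖K' b.2‖ * (1 + A.Y * |b.2|) ^ 5) := by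
      intro b
      rw [← ENNReal.ofReal_mul (by positivity), norm_mul]
      congr 1
      ring
    simp_rw [e1]
    rw [lintegral_prod_mul (f := fun u => ENNReal.ofReal (‖K u‖ * (1 + A.Y * |u|) ^ 5))
      (g := fun u => ENNReal.ofReal (‖K' u‖ * (1 + A.Y * |u|) ^ 5))
      (by fun_prop) (by fun_prop), ENNReal.ofReal_mul (by positivity)]
    exact mul_le_mul' (lint_ker hw0 hκ0 hKb) (lint_ker hw0 hκ0' hKb')
  have h := cs_real (ν := (volume : Measure ℝ).prod (volume : Measure ℝ)) (S := fun x =>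
      Sl A N (cut w a) l x * Sl A N (cut w c) l' x) hf hf0 hfB
    (K := fun b : ℝ × ℝ => K b.1 * K' b.2) (m := fun b : ℝ × ℝ => (1 + A.Y * |b.1|) ^ 5 * (1 + A.Y * |b.2|) ^ 5)
    (g := fun (b : ℝ × ℝ) (x : Om) => A.FU 0 b.1 x * A.FU 0 b.2 x)
    ((hKc.measurable.comp measurable_fst).mul (hKc'.measurable.comp measurable_snd)) hgm hgB
    (by fun_prop) (fun b => by positivity) (Eventually.of_forall fun b => by positivity)
    (Bd := CF * (Real.exp A.vt * A.Gs y)) (by positivity) (fun b => ?_)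
    (M := (CK * (|a - Real.log l| + w) * (cc / w)) * (CK * (|c - Real.log l'| + w) * (cc / w)))
    (by positivity) hM hS
  · refine le_trans (le_of_eq (integral_congr_ae (Eventually.of_forall fun x => ?_))) h
    simp only
    rw [norm_mul, mul_pow]
  · have h1 := hF b.1 b.2
    have e2 : ∫ x, f x * ‖A.FU 0 b.1 x * A.FU 0 b.2 x‖ ^ 2 ∂mu
        = ∫ x, f x * (‖A.FU 0 b.1 x‖ ^ 2 * ‖A.FU 0 b.2 x‖ ^ 2) ∂mu := by
      refine integral_congr_ae (Eventually.of_forall fun x => ?_)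
      simp only
      rw [norm_mul, mul_pow]
    rw [e2]
    refine h1.trans ?_
    have h9 : ∀ u : ℝ, (1 + A.Y * |u|) ^ 9 ≤ ((1 + A.Y * |u|) ^ 5) ^ 2 := by
      intro u
      rw [← pow_mul]
      refine pow_le_pow_right₀ ?_ (by norm_num)
      have : 0 ≤ A.Y * |u| := by positivity
      linarith
    calc CF * ((1 + A.Y * |b.1|) ^ 9 * (1 + A.Y * |b.2|) ^ 9) * (Real.exp A.vt * A.Gs y)
        ≤ CF * (((1 + A.Y * |b.1|) ^ 5) ^ 2 * ((1 + A.Y * |b.2|) ^ 5) ^ 2) * (Real.exp A.vt * A.Gs y) := by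
          have := h9 b.1
          have := h9 b.2
          gcongr
      _ = _ := by ring

end T8

open TS T8 in
/-- T8 -/
theorem smFour (hsf : SForm) (hsk : SKer) (hk1 : Ker1) (hfu : FuFour) (hro : RouNum) : SmFour := by
  intro p0 hp0
  obtain ⟨CK, hCK, hK⟩ := hk1
  obtain ⟨CF, hCF, hF⟩ := hfu
  obtain ⟨CR, hCR, hR⟩ := hro p0 hp0
  have hcc := cc_nonneg
  refine ⟨CF * (2 * CK * cc) ^ 4 * (4 * CR) ^ 2 + 1, by
    have : 0 ≤ CF * (2 * CK * cc) ^ 4 * (4 * CR) ^ 2 := by positivity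
    linarith, ?_⟩
  intro A hA hAp w a c Λ hYw hwa hwc haΛ hcΛ y
  have hY := hA.hY
  have hw0 : 0 < w := by linarith
  have hΛ0 : 0 < Λ := by linarith
  have hG := (hA.Gs_pos y).le
  set E : ℝ := Real.exp A.vt * A.Gs y with hE
  have hE0 : 0 ≤ E := by positivity
  set N : ℕ := ⌊Real.exp Λ⌋₊ with hN
  have hNa : ⌊Real.exp a⌋₊ ≤ N := Nat.floor_le_floor (Real.exp_le_exp.2 haΛ)
  have hNc : ⌊Real.exp c⌋₊ ≤ N := Nat.floor_le_floor (Real.exp_le_exp.2 hcΛ)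
  obtain ⟨B0, hB0⟩ := A.W_le hA ∅ y
  obtain ⟨B1, hB1⟩ := A.mo_le (-1) ∅
  set f : Om → ℝ := fun x => A.W ∅ y x * ‖A.mo (-1) ∅ x‖ ^ 2 with hf
  have hW0 : ∀ x, 0 ≤ A.W ∅ y x := fun x => A.W_nonneg hA.b_pos.le ∅ y x
  have hf0 : ∀ x, 0 ≤ f x := fun x => mul_nonneg (hW0 x) (sq_nonneg _)
  have hfB : ∀ x, f x ≤ B0 * B1 ^ 2 := fun x =>
    mul_le_mul (hB0 x) (pow_le_pow_left₀ (norm_nonneg _) (hB1 x) 2) (sq_nonneg _) ((hW0 x).trans (hB0 x))
  have hfm : Measurable f := (A.measurable_W hA ∅ y).mul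
    ((A.continuous_mo (-1) ∅).measurable.norm.pow_const 2)
  have hfd : Dep (A.U : Set ℕ) f := by
    intro x x' hxx
    have i1 := A.dep_W (Finset.empty_subset (Finset.range A.J)) y x x' hxx
    have i2 := A.dep_mo (-1) ∅ x x' hxx
    simp only [hf, i1, i2]
  have h1 := (hsf A hA f (B0 * B1 ^ 2) hfm (fun x => ⟨hf0 x, hfB x⟩) hfd N (cut w a) (cut w c)).2
  have h2 : ∫ x, A.W ∅ y x * ‖A.mo (-1) ∅ x‖ ^ 2 * (‖Sm w a x‖ ^ 2 * ‖Sm w c x‖ ^ 2) ∂mu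
      = ∫ x, f x * (‖Sr N (cut w a) x‖ ^ 2 * ‖Sr N (cut w c) x‖ ^ 2) ∂mu := by
    refine integral_congr_ae (Eventually.of_forall fun x => ?_)
    simp only
    rw [Sm_eq hw0 hNa x, Sm_eq hw0 hNc x]
  have hFs : ∀ u1 u2 : ℝ, ∫ x, f x * (‖A.FU 0 u1 x‖ ^ 2 * ‖A.FU 0 u2 x‖ ^ 2) ∂mu
      ≤ CF * ((1 + A.Y * |u1|) ^ 9 * (1 + A.Y * |u2|) ^ 9) * (Real.exp A.vt * A.Gs y) :=
    fun u1 u2 => hF A hA y u1 u2
  set κ : ℝ := CF * E * (2 * CK * cc) ^ 4 * (Λ / w) ^ 4 with hκ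
  have hκ0 : 0 ≤ κ := by positivity
  have h3 : ∀ l ∈ Ro A N, ∀ l' ∈ Ro A N,
      ∫ x, f x * (‖Sl A N (cut w a) l x‖ ^ 2 * ‖Sl A N (cut w c) l' x‖ ^ 2) ∂mu ≤ κ := by
    intro l hl l' hl'
    unfold Ro at hl hl'
    rw [Finset.mem_filter] at hl hl'
    have hl1 : 1 ≤ l := (Finset.mem_Icc.mp hl.1).1
    have hl1' : 1 ≤ l' := (Finset.mem_Icc.mp hl'.1).1
    have hla := log_le (le_refl N) hl.1
    have hla' := log_le (le_refl N) hl'.1
    have hl0 : 0 ≤ Real.log l := Real.log_nonneg (by exact_mod_cast hl1)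
    have hl0' : 0 ≤ Real.log l' := Real.log_nonneg (by exact_mod_cast hl1')
    refine (sl_two hsk hCK hK hCF hA hfm hf0 hfB hFs hYw hl1 hl1' hNa hNc).trans ?_
    have h4 : |a - Real.log l| + w ≤ 2 * Λ := by
      have : |a - Real.log l| ≤ Λ := abs_le.2 ⟨by linarith, by linarith⟩
      linarith
    have h4' : |c - Real.log l'| + w ≤ 2 * Λ := by
      have : |c - Real.log l'| ≤ Λ := abs_le.2 ⟨by linarith, by linarith⟩
      linarith
    calc CF * (Real.exp A.vt * A.Gs y)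
        * ((CK * (|a - Real.log l| + w) * (cc / w)) * (CK * (|c - Real.log l'| + w) * (cc / w))) ^ 2
        ≤ CF * (Real.exp A.vt * A.Gs y)
        * ((CK * (2 * Λ) * (cc / w)) * (CK * (2 * Λ) * (cc / w))) ^ 2 := by
          gcongr
      _ = κ := by
          rw [hκ, hE]
          field_simp
  have h5 : ∑ l ∈ Ro A N, (l.divisors.card : ℝ) * (l : ℝ)⁻¹ ≤ 4 * CR * (Λ / A.Y) ^ 2 := by
    have h6 := (hR A hA hAp).2.2 N
    refine h6.trans ?_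
    have h7 : Real.log N ≤ Λ := by
      have hN1 : 1 ≤ N := by
        rw [hN]
        exact Nat.le_floor (by
          have := Real.add_one_le_exp Λ
          push_cast
          linarith)
      have := log_le (a := Λ) (le_refl N) (Finset.mem_Icc.2 ⟨hN1, le_rfl⟩)
      exact this
    have h8 : 1 ≤ Λ / A.Y := by
      rw [le_div_iff₀ (by linarith)]
      linarith
    have h9 : Real.log N / A.Y + 1 ≤ 2 * (Λ / A.Y) := by
      have : Real.log N / A.Y ≤ Λ / A.Y := div_le_div_of_nonneg_right h7 (by linarith)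
      linarith
    have h10 : 0 ≤ Real.log N / A.Y + 1 := by
      have : 0 ≤ Real.log (N : ℝ) := Real.log_natCast_nonneg _
      positivity
    calc CR * (Real.log N / A.Y + 1) ^ 2 ≤ CR * (2 * (Λ / A.Y)) ^ 2 := by gcongr
      _ = _ := by ring
  rw [h2]
  refine h1.trans ?_
  set Z : ℝ := ∑ l ∈ Ro A N, (l.divisors.card : ℝ) * (l : ℝ)⁻¹ with hZ
  have hZ0 : 0 ≤ Z := Finset.sum_nonneg fun l _ => by positivity
  calc ∑ l ∈ Ro A N, ∑ l' ∈ Ro A N, (l.divisors.card : ℝ) * l'.divisors.card * ((l : ℝ)⁻¹ * (l' : ℝ)⁻¹)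
      * ∫ x, f x * (‖Sl A N (cut w a) l x‖ ^ 2 * ‖Sl A N (cut w c) l' x‖ ^ 2) ∂mu
      ≤ ∑ l ∈ Ro A N, ∑ l' ∈ Ro A N,
        (l.divisors.card : ℝ) * l'.divisors.card * ((l : ℝ)⁻¹ * (l' : ℝ)⁻¹) * κ :=
        Finset.sum_le_sum fun l hl => Finset.sum_le_sum fun l' hl' =>
          mul_le_mul_of_nonneg_left (h3 l hl l' hl') (by positivity)
    _ = Z * Z * κ := by
        rw [hZ, Finset.sum_mul_sum, Finset.sum_mul]
        refine Finset.sum_congr rfl fun l _ => ?_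
        rw [Finset.sum_mul]
        refine Finset.sum_congr rfl fun l' _ => ?_
        ring
    _ ≤ (4 * CR * (Λ / A.Y) ^ 2) * (4 * CR * (Λ / A.Y) ^ 2) * κ :=
        mul_le_mul_of_nonneg_right (mul_le_mul h5 h5 hZ0 (by positivity)) hκ0
    _ = (CF * (2 * CK * cc) ^ 4 * (4 * CR) ^ 2) * ((Λ / w) ^ 4 * (Λ / A.Y) ^ 4 * E) := by
        rw [hκ]
        generalize Λ / w = t1
        generalize Λ / A.Y = t2
        generalize 2 * CK * cc = t3
        ring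
    _ ≤ (CF * (2 * CK * cc) ^ 4 * (4 * CR) ^ 2 + 1) * ((Λ / w) ^ 4 * (Λ / A.Y) ^ 4 * E) := by
        refine mul_le_mul_of_nonneg_right (by linarith) (by positivity)
    _ = _ := by rw [hE]; ring

end Pool.Agent.Lib.G2
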