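import Pool.Agent.Lib.MP_f9aece_nt_g2.Stmts
import Mathlib.NumberTheory.EulerProduct.Basic
import Mathlib.NumberTheory.Harmonic.Bounds

/-!
The law of `log |zeta|` under the measure `|zeta| ^ 2`, row T9: sums over rough numbers.
-/

set_option autoImplicit false

namespace Pool.Agent.Lib.G2

namespace T9

open Finset

/-! ### harmonic sums -/

theorem harm_up (n : ℕ) : ∑ k ∈ Icc 1 n, (k : ℝ)⁻¹ ≤ 1 + Real.log n := by
  have h := harmonic_le_one_add_log n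
  rw [harmonic_eq_sum_Icc] at h
  push_cast at h
  exact h

theorem harm_low (n : ℕ) : Real.log (n + 1) ≤ ∑ k ∈ Icc 1 n, (k : ℝ)⁻¹ := by
  have h := log_add_one_le_harmonic n
  rw [harmonic_eq_sum_Icc] at h
  push_cast at h
  exact h

theorem harm_log (n : ℕ) : Real.log n ≤ ∑ k ∈ Icc 1 n, (k : ℝ)⁻¹ := by
  refine le_trans ?_ (harm_low n)
  rcases Nat.eq_zero_or_pos n with rfl | hn
  · simp
  · exact Real.log_le_log (by exact_mod_cast hn) (by linarith)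

/-- The harmonic sum over a window. -/
theorem harm_window {α γ : ℝ} (h : α ≤ γ) :
    ∑ k ∈ Ioc ⌊Real.exp α⌋₊ ⌊Real.exp γ⌋₊, (k : ℝ)⁻¹ ≤ γ - α + 1 := by
  set a := ⌊Real.exp α⌋₊ with ha
  set c := ⌊Real.exp γ⌋₊ with hc
  have hac : a ≤ c := Nat.floor_mono (Real.exp_le_exp.2 h)
  have e1 : ∑ k ∈ Icc 1 a, (k : ℝ)⁻¹ + ∑ k ∈ Ioc a c, (k : ℝ)⁻¹ = ∑ k ∈ Icc 1 c, (k : ℝ)⁻¹ := by
    rw [← Finset.sum_union]
    · congr 1
      ext k
      simp only [mem_union, mem_Icc, mem_Ioc]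
      omega
    · rw [Finset.disjoint_left]
      intro k hk hk'
      rw [mem_Icc] at hk
      rw [mem_Ioc] at hk'
      omega
  have e2 : α ≤ Real.log (a + 1) := by
    rw [Real.le_log_iff_exp_le (by positivity)]
    exact (Nat.lt_floor_add_one _).le
  have e3 := harm_low a
  rcases Nat.eq_zero_or_pos c with h0 | h0
  · have h1 : Ioc a c = ∅ := by
      rw [h0]
      exact Finset.Ioc_eq_empty (by omega)
    rw [h1, Finset.sum_empty]
    linarith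
  · have e4 := harm_up c
    have e5 : Real.log c ≤ γ := by
      rw [Real.log_le_iff_le_exp (by exact_mod_cast h0)]
      exact Nat.floor_le (Real.exp_pos _).le
    linarith

/-! ### splitting -/

/-- Every integer is the product of a rough and of a smooth one. -/
theorem exists_split (s : Finset ℕ) (n : ℕ) (hn : n ≠ 0) : ∃ l m : ℕ, l * m = n ∧
    (∀ p ∈ l.primeFactors, p ∉ s) ∧ ∀ p ∈ m.primeFactors, p ∈ s := by
  revert hn
  refine Nat.recOnMul (motive := fun n => n ≠ 0 → ∃ l m : ℕ, l * m = n ∧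
    (∀ p ∈ l.primeFactors, p ∉ s) ∧ ∀ p ∈ m.primeFactors, p ∈ s) ?_ ?_ ?_ ?_ n
  · exact fun h => absurd rfl h
  · exact fun _ => ⟨1, 1, rfl, by simp, by simp⟩
  · intro p hp _
    by_cases hps : p ∈ s
    · refine ⟨1, p, one_mul p, by simp, ?_⟩
      rw [hp.primeFactors]
      simpa using hps
    · refine ⟨p, 1, mul_one p, ?_, by simp⟩
      rw [hp.primeFactors]
      simpa using hps
  · intro a b iha ihb hab
    have ha : a ≠ 0 := left_ne_zero_of_mul hab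
    have hb : b ≠ 0 := right_ne_zero_of_mul hab
    obtain ⟨l, m, h1, h2, h3⟩ := iha ha
    obtain ⟨l', m', h1', h2', h3'⟩ := ihb hb
    have hl : l ≠ 0 := left_ne_zero_of_mul (h1 ▸ ha)
    have hm : m ≠ 0 := right_ne_zero_of_mul (h1 ▸ ha)
    have hl' : l' ≠ 0 := left_ne_zero_of_mul (h1' ▸ hb)
    have hm' : m' ≠ 0 := right_ne_zero_of_mul (h1' ▸ hb)
    refine ⟨l * l', m * m', by rw [← h1, ← h1']; ring, ?_, ?_⟩
    · intro p hp
      rw [Nat.primeFactors_mul hl hl', mem_union] at hp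
      exact hp.elim (h2 p) (h2' p)
    · intro p hp
      rw [Nat.primeFactors_mul hm hm', mem_union] at hp
      exact hp.elim (h3 p) (h3' p)

theorem coprime_of {s : Finset ℕ} {l m : ℕ} (hl : l ≠ 0) (hm : m ≠ 0)
    (h1 : ∀ p ∈ l.primeFactors, p ∉ s) (h2 : ∀ p ∈ m.primeFactors, p ∈ s) : Nat.Coprime m l := by
  rw [← Nat.disjoint_primeFactors hm hl, Finset.disjoint_left]
  exact fun p hp hp' => h1 p hp' (h2 p hp)

/-- The splitting is unique. -/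
theorem split_unique {s : Finset ℕ} {l m l' m' : ℕ} (h : l * m = l' * m') (h0 : l * m ≠ 0)
    (h1 : ∀ p ∈ l.primeFactors, p ∉ s) (h2 : ∀ p ∈ m.primeFactors, p ∈ s)
    (h1' : ∀ p ∈ l'.primeFactors, p ∉ s) (h2' : ∀ p ∈ m'.primeFactors, p ∈ s) : l = l' ∧ m = m' := by
  have hl : l ≠ 0 := left_ne_zero_of_mul h0
  have hm : m ≠ 0 := right_ne_zero_of_mul h0
  have hl' : l' ≠ 0 := left_ne_zero_of_mul (h ▸ h0)
  have hm' : m' ≠ 0 := right_ne_zero_of_mul (h ▸ h0)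
  have e1 : m ∣ m' := (coprime_of hl' hm h1' h2).dvd_of_dvd_mul_left (h ▸ Dvd.intro_left l rfl)
  have e2 : m' ∣ m := (coprime_of hl hm' h1 h2').dvd_of_dvd_mul_left (h ▸ Dvd.intro_left l' rfl)
  have e3 : m = m' := Nat.dvd_antisymm e1 e2
  subst e3
  exact ⟨Nat.eq_of_mul_eq_mul_right (Nat.pos_of_ne_zero hm) h, rfl⟩

theorem inv_mul_cast (z : ℕ × ℕ) : ((z.1 * z.2 : ℕ) : ℝ)⁻¹ = (z.1 : ℝ)⁻¹ * (z.2 : ℝ)⁻¹ := by
  push_cast
  exact mul_inv _ _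

theorem sum_mul_le {L M T : Finset ℕ}
    (hinj : ∀ l ∈ L, ∀ m ∈ M, ∀ l' ∈ L, ∀ m' ∈ M, l * m = l' * m' → l = l' ∧ m = m')
    (hT : ∀ l ∈ L, ∀ m ∈ M, l * m ∈ T) :
    (∑ l ∈ L, (l : ℝ)⁻¹) * (∑ m ∈ M, (m : ℝ)⁻¹) ≤ ∑ n ∈ T, (n : ℝ)⁻¹ := by
  classical
  rw [Finset.sum_mul_sum, ← Finset.sum_product']
  have e1 : ∑ z ∈ L ×ˢ M, (z.1 : ℝ)⁻¹ * (z.2 : ℝ)⁻¹ =
      ∑ n ∈ (L ×ˢ M).image (fun z : ℕ × ℕ => z.1 * z.2), (n : ℝ)⁻¹ := by
    rw [Finset.sum_image]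
    · exact Finset.sum_congr rfl fun z _ => (inv_mul_cast z).symm
    · intro z hz z' hz' he
      rw [Finset.mem_coe, mem_product] at hz hz'
      obtain ⟨a, b⟩ := hinj _ hz.1 _ hz.2 _ hz'.1 _ hz'.2 he
      exact Prod.ext a b
  rw [e1]
  refine Finset.sum_le_sum_of_subset_of_nonneg ?_ fun n _ _ => by positivity
  intro n hn
  obtain ⟨z, hz, rfl⟩ := mem_image.1 hn
  rw [mem_product] at hz
  exact hT _ hz.1 _ hz.2

theorem sum_le_mul {L M T : Finset ℕ} (hT : ∀ n ∈ T, ∃ l ∈ L, ∃ m ∈ M, l * m = n) :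
    ∑ n ∈ T, (n : ℝ)⁻¹ ≤ (∑ l ∈ L, (l : ℝ)⁻¹) * (∑ m ∈ M, (m : ℝ)⁻¹) := by
  classical
  rw [Finset.sum_mul_sum, ← Finset.sum_product']
  have hex : ∀ n ∈ T, ∃ z : ℕ × ℕ, z ∈ L ×ˢ M ∧ z.1 * z.2 = n := by
    intro n hn
    obtain ⟨l, hl, m, hm, h⟩ := hT n hn
    exact ⟨(l, m), mem_product.2 ⟨hl, hm⟩, h⟩
  choose! φ h1 h2 using hex
  have e1 : ∑ n ∈ T, (n : ℝ)⁻¹ = ∑ z ∈ T.image φ, (z.1 : ℝ)⁻¹ * (z.2 : ℝ)⁻¹ := by
    rw [Finset.sum_image]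
    · refine Finset.sum_congr rfl fun n hn => ?_
      rw [← inv_mul_cast, h2 n hn]
    · intro n hn n' hn' he
      rw [← h2 n hn, ← h2 n' hn', he]
  rw [e1]
  refine Finset.sum_le_sum_of_subset_of_nonneg ?_ fun z _ _ => by positivity
  intro z hz
  obtain ⟨n, hn, rfl⟩ := mem_image.1 hz
  exact h1 n hn

/-! ### Euler products -/

/-- `n ^ (-1 + δ)` as a multiplicative function. -/
noncomputable def pw (δ : ℝ) : ℕ →* ℝ where
  toFun n := (n : ℝ) ^ (-1 + δ)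
  map_one' := by simp
  map_mul' m n := by
    push_cast
    exact Real.mul_rpow (Nat.cast_nonneg _) (Nat.cast_nonneg _)

theorem pw_apply (δ : ℝ) (n : ℕ) : pw δ n = (n : ℝ) ^ (-1 + δ) := rfl

theorem hasSum_pw {δ : ℝ} (hδ : δ < 1) {s : Finset ℕ} (hs : ∀ p ∈ s, p.Prime) :
    HasSum (fun m : Nat.factoredNumbers s => ((m : ℕ) : ℝ) ^ (-1 + δ))
      (∏ p ∈ s, (1 - (p : ℝ) ^ (-1 + δ))⁻¹) := by
  have h := (EulerProduct.summable_and_hasSum_factoredNumbers_prod_filter_prime_geometric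
    (f := pw δ) (fun {p} hp => ?_) s).2
  · have e : s.filter (fun p => p.Prime) = s := Finset.filter_true_of_mem hs
    rw [e] at h
    exact h
  · rw [pw_apply, Real.norm_of_nonneg (Real.rpow_nonneg (Nat.cast_nonneg _) _)]
    exact Real.rpow_lt_one_of_one_lt_of_neg (by exact_mod_cast hp.one_lt) (by linarith)

theorem mem_factored {s : Finset ℕ} {m : ℕ} : m ∈ Nat.factoredNumbers s ↔
    m ≠ 0 ∧ ∀ p ∈ m.primeFactors, p ∈ s :=
  Nat.mem_factoredNumbers_iff_primeFactors_subset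

open Classical in
/-- Finite sums over smooth numbers are at most the Euler product. -/
theorem sum_le_prod {δ : ℝ} (hδ : δ < 1) {s : Finset ℕ} (hs : ∀ p ∈ s, p.Prime) {F : Finset ℕ}
    (hF : ∀ m ∈ F, m ≠ 0 ∧ ∀ p ∈ m.primeFactors, p ∈ s) :
    ∑ m ∈ F, (m : ℝ) ^ (-1 + δ) ≤ ∏ p ∈ s, (1 - (p : ℝ) ^ (-1 + δ))⁻¹ := by
  have h := sum_le_hasSum (F.subtype (· ∈ Nat.factoredNumbers s))
    (fun i _ => Real.rpow_nonneg (Nat.cast_nonneg _) _) (hasSum_pw hδ hs)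
  rwa [Finset.sum_subtype_of_mem (fun m : ℕ => (m : ℝ) ^ (-1 + δ))
    (fun m hm => mem_factored.2 (hF m hm))] at h

theorem sum_inv_le_prod {s : Finset ℕ} (hs : ∀ p ∈ s, p.Prime) {F : Finset ℕ}
    (hF : ∀ m ∈ F, m ≠ 0 ∧ ∀ p ∈ m.primeFactors, p ∈ s) :
    ∑ m ∈ F, (m : ℝ)⁻¹ ≤ ∏ p ∈ s, (1 - (p : ℝ)⁻¹)⁻¹ := by
  have h := sum_le_prod (δ := 0) zero_lt_one hs hF
  simpa only [add_zero, Real.rpow_neg_one] using h

open Classical in
/-- Rankin's bound for the tail of the Euler product. -/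
theorem prod_le_rankin {δ : ℝ} (h0 : 0 ≤ δ) (hδ : δ < 1) {s : Finset ℕ} (hs : ∀ p ∈ s, p.Prime)
    (K : ℕ) {F : Finset ℕ} (hF : ∀ m : ℕ, m ≠ 0 → m ≤ K → (∀ p ∈ m.primeFactors, p ∈ s) → m ∈ F)
    (hF' : ∀ m ∈ F, m ≠ 0 ∧ ∀ p ∈ m.primeFactors, p ∈ s) :
    ∏ p ∈ s, (1 - (p : ℝ)⁻¹)⁻¹ ≤ ∑ m ∈ F, (m : ℝ)⁻¹
      + ((K : ℝ) + 1) ^ (-δ) * ∏ p ∈ s, (1 - (p : ℝ) ^ (-1 + δ))⁻¹ := by
  have h1 : HasSum (fun m : Nat.factoredNumbers s => ((m : ℕ) : ℝ)⁻¹) (∏ p ∈ s, (1 - (p : ℝ)⁻¹)⁻¹) := by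
    have h := hasSum_pw (δ := 0) zero_lt_one hs
    simpa only [add_zero, Real.rpow_neg_one] using h
  have h2 : HasSum (fun m : Nat.factoredNumbers s => if (m : ℕ) ∈ F then ((m : ℕ) : ℝ)⁻¹ else 0)
      (∑ m ∈ F, (m : ℝ)⁻¹) := by
    have h := hasSum_sum_of_ne_finset_zero (L := SummationFilter.unconditional _)
      (f := fun m : Nat.factoredNumbers s => if (m : ℕ) ∈ F then ((m : ℕ) : ℝ)⁻¹ else 0)
      (s := F.subtype (· ∈ Nat.factoredNumbers s)) (fun m hm => by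
        rw [Finset.mem_subtype] at hm
        exact if_neg hm)
    rw [Finset.sum_subtype_of_mem (fun m : ℕ => if m ∈ F then (m : ℝ)⁻¹ else 0)
      (fun m hm => mem_factored.2 (hF' m hm))] at h
    rwa [Finset.sum_congr rfl fun m hm => if_pos hm] at h
  refine hasSum_le (fun m => ?_) h1 (h2.add ((hasSum_pw hδ hs).mul_left (((K : ℝ) + 1) ^ (-δ))))
  obtain ⟨m, hm⟩ := m
  obtain ⟨hm0, hms⟩ := mem_factored.1 hm
  have hmpos : (0 : ℝ) < m := by exact_mod_cast Nat.pos_of_ne_zero hm0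
  have hnn : (0 : ℝ) ≤ ((K : ℝ) + 1) ^ (-δ) * (m : ℝ) ^ (-1 + δ) := by positivity
  simp only
  by_cases hmF : m ∈ F
  · rw [if_pos hmF]
    linarith
  · rw [if_neg hmF, zero_add]
    have hK : K < m := by
      by_contra hle
      exact hmF (hF m hm0 (by omega) hms)
    have hK' : (K : ℝ) + 1 ≤ m := by exact_mod_cast hK
    have e1 : (m : ℝ)⁻¹ = (m : ℝ) ^ (-δ) * (m : ℝ) ^ (-1 + δ) := by
      rw [← Real.rpow_add hmpos, ← Real.rpow_neg_one]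
      congr 1
      ring
    rw [e1]
    refine mul_le_mul_of_nonneg_right ?_ (by positivity)
    exact Real.rpow_le_rpow_of_nonpos (by positivity) hK' (by linarith)

/-- Comparison of the Euler factors. -/
theorem factor_le {p : ℕ} (hp : 1000 ≤ p) {δ : ℝ} (h0 : 0 ≤ δ) (h1 : δ ≤ 1 / 2) :
    (1 - (p : ℝ) ^ (-1 + δ))⁻¹ ≤
      Real.exp (2 * ((p : ℝ)⁻¹ * |(p : ℝ) ^ δ - 1|)) * (1 - (p : ℝ)⁻¹)⁻¹ := by
  have hp' : (1000 : ℝ) ≤ p := by exact_mod_cast hp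
  have hp0 : (0 : ℝ) < p := by linarith
  have hp1 : (1 : ℝ) ≤ p := by linarith
  obtain ⟨y, hy⟩ : ∃ y : ℝ, y = (p : ℝ) ^ (-1 + δ) := ⟨_, rfl⟩
  obtain ⟨x, hx⟩ : ∃ x : ℝ, x = (p : ℝ)⁻¹ := ⟨_, rfl⟩
  have hyx : y = x * (p : ℝ) ^ δ := by
    rw [hy, hx, Real.rpow_add hp0, Real.rpow_neg_one]
  have hge : 1 ≤ (p : ℝ) ^ δ := Real.one_le_rpow hp1 h0
  have hx0 : 0 < x := by rw [hx]; positivity
  have hxy : x ≤ y := by
    rw [hyx]
    nlinarith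
  have hy2 : y ≤ 1 / 2 := by
    have h2 : y ≤ (p : ℝ) ^ (-(1 / 2) : ℝ) := by
      rw [hy]
      exact Real.rpow_le_rpow_of_exponent_le hp1 (by linarith)
    have h3 : (p : ℝ) ^ (-(1 / 2) : ℝ) ≤ (4 : ℝ) ^ (-(1 / 2) : ℝ) :=
      Real.rpow_le_rpow_of_nonpos (by norm_num) (by linarith) (by norm_num)
    have h4 : (4 : ℝ) ^ (-(1 / 2) : ℝ) = 1 / 2 := by
      rw [show (4 : ℝ) = 2 ^ (2 : ℝ) by norm_num, ← Real.rpow_mul (by norm_num)]
      norm_num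
    linarith
  have e1 : 2 * ((p : ℝ)⁻¹ * |(p : ℝ) ^ δ - 1|) = 2 * (y - x) := by
    rw [abs_of_nonneg (by linarith), ← hx, hyx]
    ring
  rw [e1, ← hy, ← hx]
  have h5 : 1 + 2 * (y - x) ≤ Real.exp (2 * (y - x)) := by
    have := Real.add_one_le_exp (2 * (y - x))
    linarith
  have h6 : 0 < 1 - y := by linarith
  have h7 : 0 < 1 - x := by linarith
  have h8 : (1 - y)⁻¹ ≤ (1 + 2 * (y - x)) * (1 - x)⁻¹ := by
    rw [← div_eq_mul_inv, le_div_iff₀ h7, inv_mul_le_iff₀ h6]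
    nlinarith
  exact h8.trans (mul_le_mul_of_nonneg_right h5 (inv_nonneg.2 h7.le))

theorem prod_factor_le {s : Finset ℕ} (hs : ∀ p ∈ s, 1000 ≤ p) {δ : ℝ} (h0 : 0 ≤ δ) (h1 : δ ≤ 1 / 2) :
    ∏ p ∈ s, (1 - (p : ℝ) ^ (-1 + δ))⁻¹ ≤
      Real.exp (2 * ∑ p ∈ s, (p : ℝ)⁻¹ * |(p : ℝ) ^ δ - 1|) * ∏ p ∈ s, (1 - (p : ℝ)⁻¹)⁻¹ := by
  rw [Finset.mul_sum, Real.exp_sum, ← Finset.prod_mul_distrib]
  refine Finset.prod_le_prod (fun p hp => ?_) fun p hp => factor_le (hs p hp) h0 h1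
  have hp' : (1 : ℝ) < p := by
    have := hs p hp
    exact_mod_cast (by omega : 1 < p)
  have h2 : (p : ℝ) ^ (-1 + δ) ≤ 1 := Real.rpow_le_one_of_one_le_of_nonpos hp'.le (by linarith)
  exact inv_nonneg.2 (by linarith)

/-! ### the groups -/

/-- the Euler product over the small primes -/
noncomputable def P0 (p0 : ℕ) : ℝ := ∏ p ∈ (Icc 1 p0).filter Nat.Prime, (1 - (p : ℝ)⁻¹)⁻¹

theorem prod_ge_one {s : Finset ℕ} (hs : ∀ p ∈ s, p.Prime) : 1 ≤ ∏ p ∈ s, (1 - (p : ℝ)⁻¹)⁻¹ := by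
  have h := sum_inv_le_prod hs (F := {1}) fun m hm => by
    rw [Finset.mem_singleton.1 hm]
    exact ⟨one_ne_zero, fun p hp => by simp at hp⟩
  simpa using h

theorem one_le_P0 (p0 : ℕ) : 1 ≤ P0 p0 := prod_ge_one fun _ hp => (mem_filter.1 hp).2

section main

variable {A : Par}

theorem two_le_Y (hA : A.Ok) (hU : ∀ p, p ∈ A.U ↔ p.Prime ∧ A.p0 < p ∧ (p : ℝ) ≤ Real.exp A.Y) :
    2 ≤ A.Y := by
  have h1 : 0 < A.vt := by
    have := hA.hs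
    unfold Par.s2 at this
    linarith
  have h2 : A.U.Nonempty := by
    by_contra hne
    rw [Finset.not_nonempty_iff_eq_empty] at hne
    unfold Par.vt at h1
    rw [hne, Finset.sum_empty] at h1
    exact lt_irrefl _ h1
  obtain ⟨p, hp⟩ := h2
  obtain ⟨-, h3, h4⟩ := (hU p).1 hp
  have h5 : (1000 : ℝ) ≤ Real.exp A.Y := by
    have h6 : (1000 : ℝ) ≤ p := by
      have := hA.hp
      exact_mod_cast (by omega : 1000 ≤ p)
    linarith
  by_contra hlt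
  push Not at hlt
  have h6 : Real.exp A.Y ≤ Real.exp 2 := Real.exp_le_exp.2 hlt.le
  have h7 : Real.exp 2 = Real.exp 1 * Real.exp 1 := by
    rw [← Real.exp_add]
    norm_num
  have h8 := Real.exp_one_lt_d9
  have h9 := Real.exp_pos 1
  nlinarith

theorem mem_Ro {N l : ℕ} : l ∈ Ro A N ↔ (1 ≤ l ∧ l ≤ N) ∧ ∀ p ∈ l.primeFactors, p ∉ A.U := by
  unfold Ro
  rw [mem_filter, mem_Icc]

theorem mem_Smo {N m : ℕ} : m ∈ Smo A N ↔ (1 ≤ m ∧ m ≤ N) ∧ ∀ p ∈ m.primeFactors, p ∈ A.U := by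
  unfold Smo
  rw [mem_filter, mem_Icc]

theorem harm_le_split (N : ℕ) : ∑ n ∈ Icc 1 N, (n : ℝ)⁻¹ ≤
    (∑ l ∈ Ro A N, (l : ℝ)⁻¹) * ∑ m ∈ Smo A N, (m : ℝ)⁻¹ := by
  refine sum_le_mul fun n hn => ?_
  rw [mem_Icc] at hn
  obtain ⟨l, m, h1, h2, h3⟩ := exists_split A.U n (by omega)
  have h0 : l * m ≠ 0 := by omega
  have hl : l ≠ 0 := left_ne_zero_of_mul h0
  have hm : m ≠ 0 := right_ne_zero_of_mul h0
  have hln : l ≤ n := h1 ▸ Nat.le_mul_of_pos_right l (Nat.pos_of_ne_zero hm)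
  have hmn : m ≤ n := h1 ▸ Nat.le_mul_of_pos_left m (Nat.pos_of_ne_zero hl)
  exact ⟨l, mem_Ro.2 ⟨⟨Nat.pos_of_ne_zero hl, by omega⟩, h2⟩, m,
    mem_Smo.2 ⟨⟨Nat.pos_of_ne_zero hm, by omega⟩, h3⟩, h1⟩

variable (hU : ∀ p, p ∈ A.U ↔ p.Prime ∧ A.p0 < p ∧ (p : ℝ) ≤ Real.exp A.Y)
include hU

theorem U_prime : ∀ p ∈ A.U, p.Prime := fun p hp => ((hU p).1 hp).1

theorem Y_le : A.Y ≤ P0 A.p0 * ∑ m ∈ Smo A ⌊Real.exp A.Y⌋₊, (m : ℝ)⁻¹ := by
  have h1 : A.Y ≤ Real.log ((⌊Real.exp A.Y⌋₊ : ℝ) + 1) := by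
    rw [Real.le_log_iff_exp_le (by positivity)]
    exact (Nat.lt_floor_add_one _).le
  have h2 := harm_low ⌊Real.exp A.Y⌋₊
  have h3 := harm_le_split (A := A) ⌊Real.exp A.Y⌋₊
  have h4 : ∑ l ∈ Ro A ⌊Real.exp A.Y⌋₊, (l : ℝ)⁻¹ ≤ P0 A.p0 := by
    refine sum_inv_le_prod (fun p hp => (mem_filter.1 hp).2) fun l hl => ?_
    obtain ⟨⟨h5, h6⟩, h7⟩ := mem_Ro.1 hl
    refine ⟨by omega, fun p hp => ?_⟩
    have hpp : p.Prime := Nat.prime_of_mem_primeFactors hp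
    have hpl : p ≤ l := Nat.le_of_mem_primeFactors hp
    rw [mem_filter, mem_Icc]
    refine ⟨⟨hpp.one_lt.le, ?_⟩, hpp⟩
    by_contra hlt
    push Not at hlt
    refine h7 p hp ((hU p).2 ⟨hpp, hlt, ?_⟩)
    have h8 : ((⌊Real.exp A.Y⌋₊ : ℕ) : ℝ) ≤ Real.exp A.Y := Nat.floor_le (Real.exp_pos _).le
    have h9 : (p : ℝ) ≤ (⌊Real.exp A.Y⌋₊ : ℕ) := by exact_mod_cast hpl.trans h6
    linarith
  have h5 : 0 ≤ ∑ m ∈ Smo A ⌊Real.exp A.Y⌋₊, (m : ℝ)⁻¹ := Finset.sum_nonneg fun m _ => by positivity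
  have h6 := mul_le_mul_of_nonneg_right h4 h5
  linarith

theorem Y_le_PU : A.Y ≤ P0 A.p0 * A.PU := by
  refine (Y_le hU).trans (mul_le_mul_of_nonneg_left ?_ (zero_le_one.trans (one_le_P0 _)))
  refine sum_inv_le_prod (U_prime hU) fun m hm => ?_
  obtain ⟨⟨h1, -⟩, h2⟩ := mem_Smo.1 hm
  exact ⟨by omega, h2⟩

/-- Row T9, first part. -/
theorem part1 (hA : A.Ok) {α β : ℝ} (hαβ : α ≤ β) (N : ℕ) :
    ∑ l ∈ (Ro A N).filter (fun l : ℕ => α < Real.log l ∧ Real.log l ≤ β), (l : ℝ)⁻¹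
      ≤ 2 * P0 A.p0 * ((β - α) / A.Y + 1) := by
  have hY := hA.hY
  have h1 : (∑ l ∈ (Ro A N).filter (fun l : ℕ => α < Real.log l ∧ Real.log l ≤ β), (l : ℝ)⁻¹) *
      (∑ m ∈ Smo A ⌊Real.exp A.Y⌋₊, (m : ℝ)⁻¹) ≤
      ∑ n ∈ Ioc ⌊Real.exp α⌋₊ ⌊Real.exp (β + A.Y)⌋₊, (n : ℝ)⁻¹ := by
    refine sum_mul_le ?_ ?_
    · intro l hl m hm l' hl' m' hm' he
      obtain ⟨h2, -⟩ := mem_filter.1 hl
      obtain ⟨h2', -⟩ := mem_filter.1 hl'
      obtain ⟨⟨h3, -⟩, h4⟩ := mem_Ro.1 h2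
      obtain ⟨-, h4'⟩ := mem_Ro.1 h2'
      obtain ⟨⟨h5, -⟩, h6⟩ := mem_Smo.1 hm
      obtain ⟨-, h6'⟩ := mem_Smo.1 hm'
      exact split_unique he (Nat.mul_ne_zero (by omega) (by omega)) h4 h6 h4' h6'
    · intro l hl m hm
      obtain ⟨h2, h3, h4⟩ := mem_filter.1 hl
      obtain ⟨⟨h5, -⟩, -⟩ := mem_Ro.1 h2
      obtain ⟨⟨h6, h7⟩, -⟩ := mem_Smo.1 hm
      have hl0 : (0 : ℝ) < l := by exact_mod_cast h5
      have hm1 : (1 : ℝ) ≤ m := by exact_mod_cast h6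
      have e1 : Real.exp α < l := (Real.lt_log_iff_exp_lt hl0).1 h3
      have e2 : (l : ℝ) ≤ Real.exp β := (Real.log_le_iff_le_exp hl0).1 h4
      have e3 : (m : ℝ) ≤ Real.exp A.Y := (Nat.cast_le.2 h7).trans (Nat.floor_le (Real.exp_pos _).le)
      rw [mem_Ioc]
      constructor
      · rw [Nat.floor_lt (Real.exp_pos _).le]
        push_cast
        nlinarith
      · refine Nat.le_floor ?_
        push_cast
        rw [Real.exp_add]
        exact mul_le_mul e2 e3 (by positivity) (Real.exp_pos _).le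
  have h2 := harm_window (α := α) (γ := β + A.Y) (by linarith)
  have h3 := Y_le hU
  have hP := one_le_P0 A.p0
  obtain ⟨R, hR⟩ : ∃ R, R = ∑ l ∈ (Ro A N).filter (fun l : ℕ => α < Real.log l ∧ Real.log l ≤ β),
    (l : ℝ)⁻¹ := ⟨_, rfl⟩
  obtain ⟨M, hM⟩ : ∃ M, M = ∑ m ∈ Smo A ⌊Real.exp A.Y⌋₊, (m : ℝ)⁻¹ := ⟨_, rfl⟩
  rw [← hR, ← hM] at h1
  rw [← hM] at h3
  rw [← hR]
  have hR0 : 0 ≤ R := by
    rw [hR]
    exact Finset.sum_nonneg fun m _ => by positivity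
  have h4 : R * A.Y ≤ P0 A.p0 * (β + A.Y - α + 1) := by
    calc R * A.Y ≤ R * (P0 A.p0 * M) := mul_le_mul_of_nonneg_left h3 hR0
      _ = P0 A.p0 * (R * M) := by ring
      _ ≤ P0 A.p0 * (β + A.Y - α + 1) := mul_le_mul_of_nonneg_left (h1.trans h2) (by linarith)
  have hY0 : 0 < A.Y := by linarith
  rw [← le_div_iff₀ hY0] at h4
  refine h4.trans ?_
  rw [div_le_iff₀ hY0]
  have e : 2 * P0 A.p0 * ((β - α) / A.Y + 1) * A.Y = P0 A.p0 * (2 * (β - α) + 2 * A.Y) := by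
    field_simp
  rw [e]
  exact mul_le_mul_of_nonneg_left (by linarith) (by linarith)

/-- Row T9, second part, lower bound. -/
theorem part2_low (N : ℕ) : Real.log N ≤ (∑ l ∈ Ro A N, (l : ℝ)⁻¹) * A.PU := by
  refine (harm_log N).trans ((harm_le_split (A := A) N).trans (mul_le_mul_of_nonneg_left ?_ ?_))
  · refine sum_inv_le_prod (U_prime hU) fun m hm => ?_
    obtain ⟨⟨h1, -⟩, h2⟩ := mem_Smo.1 hm
    exact ⟨by omega, h2⟩
  · exact Finset.sum_nonneg fun m _ => by positivity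

/-- Row T9, second part, upper bound. -/
theorem part2_up (hA : A.Ok) {Cs : ℝ} (hCs : 0 ≤ Cs)
    (hS : ∑ p ∈ A.U, (p : ℝ)⁻¹ * |(p : ℝ) ^ (1 / A.Y) - 1| ≤ Cs) (N : ℕ) (hN : A.Y ≤ Real.log N) :
    (∑ l ∈ Ro A N, (l : ℝ)⁻¹) - Real.log N / A.PU ≤
      P0 A.p0 * (4 * Cs + 5) * (1 + Real.log (Real.log N / A.Y)) := by
  have hY := hA.hY
  have hY2 := two_le_Y hA hU
  have hY0 : 0 < A.Y := by linarith
  obtain ⟨a, ha⟩ : ∃ a, a = Real.log N := ⟨_, rfl⟩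
  obtain ⟨R, hR⟩ : ∃ R, R = ∑ l ∈ Ro A N, (l : ℝ)⁻¹ := ⟨_, rfl⟩
  rw [← ha] at hN
  rw [← ha, ← hR]
  have ha0 : 0 < a := by linarith
  have hR0 : 0 ≤ R := by
    rw [hR]
    exact Finset.sum_nonneg fun m _ => by positivity
  have hPU : 1 ≤ A.PU := prod_ge_one (U_prime hU)
  obtain ⟨B, hB⟩ : ∃ B, B = 2 * Cs + Real.log 2 := ⟨_, rfl⟩
  have hlog2 : Real.log 2 ≤ 1 := by
    have := Real.log_two_lt_d9
    linarith
  have hlog20 : 0 ≤ Real.log 2 := Real.log_nonneg (by norm_num)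
  have hla : 0 ≤ Real.log (a / A.Y) := Real.log_nonneg (by rwa [le_div_iff₀ hY0, one_mul])
  obtain ⟨b, hb⟩ : ∃ b, b = A.Y * (Real.log (a / A.Y) + B) := ⟨_, rfl⟩
  have hb0 : 0 ≤ b := by
    rw [hb]
    exact mul_nonneg hY0.le (by linarith)
  obtain ⟨K, hK⟩ : ∃ K : ℕ, K = ⌊Real.exp b⌋₊ := ⟨_, rfl⟩
  have hK1 : 1 ≤ K := by
    rw [hK]
    exact Nat.le_floor (by simpa using Real.one_le_exp hb0)
  have hKb : Real.log K ≤ b := by
    rw [Real.log_le_iff_le_exp (by exact_mod_cast hK1), hK]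
    exact Nat.floor_le (Real.exp_pos _).le
  obtain ⟨M, hM⟩ : ∃ M, M = ∑ m ∈ Smo A K, (m : ℝ)⁻¹ := ⟨_, rfl⟩
  have hd0 : 0 ≤ 1 / A.Y := by positivity
  have hd1 : 1 / A.Y ≤ 1 / 2 := one_div_le_one_div_of_le (by norm_num) hY2
  -- the tail
  have h1 := prod_le_rankin hd0 (by linarith) (U_prime hU) K (F := Smo A K)
    (fun m h1 h2 h3 => mem_Smo.2 ⟨⟨Nat.pos_of_ne_zero h1, h2⟩, h3⟩)
    (fun m hm => ⟨by
      have := (mem_Smo.1 hm).1.1
      omega, (mem_Smo.1 hm).2⟩)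
  have h2 := prod_factor_le (s := A.U) (fun p hp => by
    have h3 := ((hU p).1 hp).2.1
    have := hA.hp
    omega) hd0 hd1
  have h3 : Real.exp (2 * ∑ p ∈ A.U, (p : ℝ)⁻¹ * |(p : ℝ) ^ (1 / A.Y) - 1|) ≤ Real.exp (2 * Cs) :=
    Real.exp_le_exp.2 (by linarith)
  have h4 : ((K : ℝ) + 1) ^ (-(1 / A.Y)) ≤ Real.exp (-(2 * Cs)) * (A.Y / a / 2) := by
    have h5 : Real.exp b ≤ (K : ℝ) + 1 := by
      rw [hK]
      exact (Nat.lt_floor_add_one _).le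
    refine (Real.rpow_le_rpow_of_nonpos (Real.exp_pos _) h5 (by linarith)).trans_eq ?_
    rw [← Real.exp_mul]
    have e1 : b * (-(1 / A.Y)) = -(2 * Cs) + (-Real.log (a / A.Y) - Real.log 2) := by
      rw [hb, hB]
      field_simp
      ring
    rw [e1, Real.exp_add, Real.exp_sub, Real.exp_neg (Real.log _), Real.exp_log (by positivity),
      Real.exp_log (by norm_num), inv_div]
  have hPUd : A.PU = ∏ p ∈ A.U, (1 - (p : ℝ)⁻¹)⁻¹ := rfl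
  rw [← hPUd, ← hM] at h1
  rw [← hPUd] at h2
  obtain ⟨x, hx⟩ : ∃ x, x = A.Y / a := ⟨_, rfl⟩
  have hx0 : 0 ≤ x := by rw [hx]; positivity
  have hx1 : x ≤ 1 := by rw [hx, div_le_one ha0]; exact hN
  have h5 : A.PU ≤ M + x / 2 * A.PU := by
    refine h1.trans (add_le_add le_rfl ?_)
    calc ((K : ℝ) + 1) ^ (-(1 / A.Y)) * ∏ p ∈ A.U, (1 - (p : ℝ) ^ (-1 + 1 / A.Y))⁻¹
        ≤ (Real.exp (-(2 * Cs)) * (A.Y / a / 2)) * (Real.exp (2 * Cs) * A.PU) := by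
          refine mul_le_mul h4 (h2.trans (mul_le_mul_of_nonneg_right h3 (by linarith))) ?_
            (by positivity)
          refine Finset.prod_nonneg fun p hp => inv_nonneg.2 ?_
          have hp1 : (1 : ℝ) ≤ p := by exact_mod_cast (U_prime hU p hp).one_lt.le
          have := Real.rpow_le_one_of_one_le_of_nonpos hp1 (z := -1 + 1 / A.Y) (by linarith)
          linarith
      _ = (Real.exp (-(2 * Cs)) * Real.exp (2 * Cs)) * (x / 2 * A.PU) := by rw [hx]; ring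
      _ = x / 2 * A.PU := by rw [← Real.exp_add, neg_add_cancel, Real.exp_zero, one_mul]
  -- the product
  have h6 : R * M ≤ 1 + (a + b) := by
    have h7 : R * M ≤ ∑ n ∈ Icc 1 (N * K), (n : ℝ)⁻¹ := by
      rw [hR, hM]
      refine sum_mul_le ?_ ?_
      · intro l hl m hm l' hl' m' hm' he
        obtain ⟨⟨h3, -⟩, h4⟩ := mem_Ro.1 hl
        obtain ⟨-, h4'⟩ := mem_Ro.1 hl'
        obtain ⟨⟨h5, -⟩, h6⟩ := mem_Smo.1 hm
        obtain ⟨-, h6'⟩ := mem_Smo.1 hm'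
        exact split_unique he (Nat.mul_ne_zero (by omega) (by omega)) h4 h6 h4' h6'
      · intro l hl m hm
        obtain ⟨⟨h3, h4⟩, -⟩ := mem_Ro.1 hl
        obtain ⟨⟨h5, h6⟩, -⟩ := mem_Smo.1 hm
        rw [mem_Icc]
        exact ⟨Nat.mul_pos h3 h5, Nat.mul_le_mul h4 h6⟩
    have hN0 : (N : ℝ) ≠ 0 := by
      rintro h
      rw [h, Real.log_zero] at ha
      linarith
    have h8 := harm_up (N * K)
    rw [Nat.cast_mul, Real.log_mul hN0 (by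
      have : (0 : ℝ) < K := by exact_mod_cast hK1
      exact this.ne')] at h8
    rw [← ha] at h8
    linarith
  have hM0 : 0 ≤ M := by
    rw [hM]
    exact Finset.sum_nonneg fun m _ => by positivity
  -- the conclusion
  have h7 : R * A.PU ≤ a + 2 * b + A.Y + 2 := by
    have h8 : R * A.PU * (1 - x / 2) ≤ 1 + (a + b) := by
      calc R * A.PU * (1 - x / 2) = R * (A.PU - x / 2 * A.PU) := by ring
        _ ≤ R * M := mul_le_mul_of_nonneg_left (by linarith) hR0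
        _ ≤ _ := h6
    have h9 : R * A.PU ≤ (1 + (a + b)) * (1 + x) := by
      have h10 : 0 ≤ R * A.PU := mul_nonneg hR0 (by linarith)
      nlinarith [mul_nonneg h10 (mul_nonneg hx0 (by linarith : (0 : ℝ) ≤ 1 - x))]
    have h10 : x * a = A.Y := by
      rw [hx]
      field_simp
    nlinarith
  have h8 := Y_le_PU hU
  have hP := one_le_P0 A.p0
  have hPU0 : 0 < A.PU := by linarith
  have h9 : (R - a / A.PU) * A.PU ≤ 2 * b + A.Y + 2 := by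
    rw [sub_mul, div_mul_cancel₀ _ hPU0.ne']
    linarith
  have h10 : 2 * b + A.Y + 2 ≤ A.Y * ((4 * Cs + 5) * (1 + Real.log (a / A.Y))) := by
    rw [hb, hB]
    have h11 : 0 ≤ Cs * Real.log (a / A.Y) := mul_nonneg hCs hla
    nlinarith [mul_nonneg hY0.le h11, mul_nonneg hY0.le hla, mul_nonneg hY0.le hCs]
  have h11 : 0 ≤ (4 * Cs + 5) * (1 + Real.log (a / A.Y)) := by positivity
  have h12 : (R - a / A.PU) * A.PU ≤
      (P0 A.p0 * (4 * Cs + 5) * (1 + Real.log (a / A.Y))) * A.PU := by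
    calc (R - a / A.PU) * A.PU ≤ A.Y * ((4 * Cs + 5) * (1 + Real.log (a / A.Y))) := h9.trans h10
      _ ≤ (P0 A.p0 * A.PU) * ((4 * Cs + 5) * (1 + Real.log (a / A.Y))) :=
          mul_le_mul_of_nonneg_right h8 h11
      _ = _ := by ring
  exact le_of_mul_le_mul_right h12 hPU0

omit hU in
/-- The divisor function on the rough numbers. -/
theorem part3_sq (N : ℕ) : ∑ l ∈ Ro A N, (l.divisors.card : ℝ) * (l : ℝ)⁻¹ ≤
    (∑ l ∈ Ro A N, (l : ℝ)⁻¹) ^ 2 := by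
  classical
  rw [sq, Finset.sum_mul_sum, ← Finset.sum_product']
  have e1 : ∀ l ∈ Ro A N, (l.divisors.card : ℝ) * (l : ℝ)⁻¹ =
      ∑ z ∈ (Ro A N ×ˢ Ro A N).filter (fun z : ℕ × ℕ => z.1 * z.2 = l), (z.1 : ℝ)⁻¹ * (z.2 : ℝ)⁻¹ := by
    intro l hl
    obtain ⟨⟨h1, h2⟩, h3⟩ := mem_Ro.1 hl
    have e2 : (Ro A N ×ˢ Ro A N).filter (fun z : ℕ × ℕ => z.1 * z.2 = l) = l.divisorsAntidiagonal := by
      ext z
      rw [mem_filter, mem_product, Nat.mem_divisorsAntidiagonal]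
      constructor
      · rintro ⟨-, h4⟩
        exact ⟨h4, by omega⟩
      · rintro ⟨h4, h5⟩
        have h6 : ∀ d, d ∣ l → d ∈ Ro A N := by
          intro d hd
          rw [mem_Ro]
          exact ⟨⟨Nat.pos_of_dvd_of_pos hd (by omega), (Nat.le_of_dvd (by omega) hd).trans h2⟩,
            fun p hp => h3 p (Nat.primeFactors_mono hd (by omega) hp)⟩
        exact ⟨⟨h6 _ ⟨z.2, h4.symm⟩, h6 _ ⟨z.1, by rw [mul_comm]; exact h4.symm⟩⟩, h4⟩
    rw [e2]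
    have e3 : ∀ z ∈ l.divisorsAntidiagonal, (z.1 : ℝ)⁻¹ * (z.2 : ℝ)⁻¹ = (l : ℝ)⁻¹ := by
      intro z hz
      rw [← inv_mul_cast, (Nat.mem_divisorsAntidiagonal.1 hz).1]
    rw [Finset.sum_congr rfl e3, Finset.sum_const, nsmul_eq_mul, ← Nat.map_div_right_divisors,
      Finset.card_map]
  rw [Finset.sum_congr rfl e1]
  have e4 : ∑ l ∈ Ro A N, ∑ z ∈ (Ro A N ×ˢ Ro A N).filter (fun z : ℕ × ℕ => z.1 * z.2 = l),
      (z.1 : ℝ)⁻¹ * (z.2 : ℝ)⁻¹ =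
      ∑ z ∈ (Ro A N ×ˢ Ro A N).filter (fun z : ℕ × ℕ => z.1 * z.2 ∈ Ro A N),
        (z.1 : ℝ)⁻¹ * (z.2 : ℝ)⁻¹ := by
    rw [← Finset.sum_fiberwise_of_maps_to (g := fun z : ℕ × ℕ => z.1 * z.2) (t := Ro A N)
      (fun z hz => (mem_filter.1 hz).2)]
    refine Finset.sum_congr rfl fun l hl => ?_
    rw [Finset.filter_filter]
    refine Finset.sum_congr ?_ fun _ _ => rfl
    ext z
    simp only [mem_filter]
    constructor
    · rintro ⟨h1, h2⟩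
      exact ⟨h1, by rw [h2]; exact hl, h2⟩
    · rintro ⟨h1, -, h2⟩
      exact ⟨h1, h2⟩
  rw [e4]
  exact Finset.sum_le_sum_of_subset_of_nonneg (filter_subset _ _) fun z _ _ => by positivity

end main

end T9

open T9 in
/-- **Row T9**: sums over rough numbers. -/
theorem rouNum (hG : GroupNum) (hP : PrimeSums) : RouNum := by
  intro p0 hp0
  obtain ⟨Cs, hCs, hS⟩ := hP
  have h1 := one_le_P0 p0
  refine ⟨16 * P0 p0 ^ 2 * (4 * Cs + 5), ?_, fun A hA hAp => ⟨fun α β hαβ N => ?_, fun N hN => ?_,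
    fun N => ?_⟩⟩
  · nlinarith [mul_nonneg (sq_nonneg (P0 p0)) hCs]
  all_goals
    have hU := (hG A hA).2.2.2.1
    have hY := hA.hY
    have hY0 : 0 < A.Y := by linarith
  · refine (part1 hU hA hαβ N).trans ?_
    rw [hAp]
    have h2 : 0 ≤ (β - α) / A.Y + 1 := by
      have : 0 ≤ (β - α) / A.Y := div_nonneg (by linarith) hY0.le
      linarith
    refine mul_le_mul_of_nonneg_right ?_ h2
    nlinarith [mul_nonneg (sq_nonneg (P0 p0)) hCs]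
  · have h2 := part2_low hU N
    have h3 := part2_up hU hA hCs ((hS A hA).2.2 (1 / A.Y) (by
      rw [abs_of_nonneg (by positivity)])).1 N hN
    have hPU : 1 ≤ A.PU := prod_ge_one (U_prime hU)
    have h4 : 0 ≤ (∑ l ∈ Ro A N, (l : ℝ)⁻¹) - Real.log N / A.PU := by
      rw [sub_nonneg, div_le_iff₀ (by linarith)]
      exact h2
    rw [abs_of_nonneg h4]
    refine h3.trans ?_
    rw [hAp]
    have h5 : 0 ≤ Real.log (Real.log N / A.Y) := Real.log_nonneg (by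
      rwa [le_div_iff₀ hY0, one_mul])
    refine mul_le_mul_of_nonneg_right ?_ (by linarith)
    refine mul_le_mul_of_nonneg_right ?_ (by linarith)
    nlinarith
  · refine (part3_sq N).trans ?_
    have hlog : 0 ≤ Real.log N := Real.log_natCast_nonneg N
    have h2 := part1 hU hA (α := -1) (β := Real.log N) (by linarith) N
    have e1 : (Ro A N).filter (fun l : ℕ => (-1 : ℝ) < Real.log l ∧ Real.log l ≤ Real.log N) =
        Ro A N := by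
      refine Finset.filter_true_of_mem fun l hl => ?_
      obtain ⟨⟨h3, h4⟩, -⟩ := mem_Ro.1 hl
      have h5 : (1 : ℝ) ≤ l := by exact_mod_cast h3
      have h6 := Real.log_nonneg h5
      exact ⟨by linarith, Real.log_le_log (by linarith) (by exact_mod_cast h4)⟩
    rw [e1, hAp] at h2
    have h3 : 0 ≤ ∑ l ∈ Ro A N, (l : ℝ)⁻¹ := Finset.sum_nonneg fun m _ => by positivity
    have h4 : (Real.log N - -1) / A.Y + 1 ≤ 2 * (Real.log N / A.Y + 1) := by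
      have h5 : 1 / A.Y ≤ 1 := by rw [div_le_one hY0]; exact hY
      have h6 : 0 ≤ Real.log N / A.Y := div_nonneg hlog hY0.le
      have h7 : (Real.log N - -1) / A.Y = Real.log N / A.Y + 1 / A.Y := by ring
      linarith
    have h5 : ∑ l ∈ Ro A N, (l : ℝ)⁻¹ ≤ 4 * P0 p0 * (Real.log N / A.Y + 1) := by
      refine h2.trans ?_
      have h6 := mul_le_mul_of_nonneg_left h4 (by linarith : (0 : ℝ) ≤ 2 * P0 p0)
      linarith
    have h6 := pow_le_pow_left₀ h3 h5 2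
    refine h6.trans ?_
    rw [mul_pow]
    refine mul_le_mul_of_nonneg_right ?_ (sq_nonneg _)
    nlinarith [mul_nonneg (sq_nonneg (P0 p0)) hCs, sq_nonneg (P0 p0)]

end Pool.Agent.Lib.G2
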