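import Mathlib
import Pool.Agent.Lib.MP_f9aece_nt_g2.StmtsZ
import Pool.Agent.Lib.MP_f9aece_nt_gt.D1

/-!
Z1: the approximate functional equation on the critical line with a smooth cut-off of width `w`,
as an approximate identity.
-/

set_option autoImplicit false

namespace Pool.Agent.Lib.G2

open MeasureTheory Complex Set Filter Topology
open scoped SchwartzMap ComplexConjugate ContDiff
open Pool.Agent.Lib.GT
open Pool.Agent.H20.Chi (chi norm_chi)
open Pool.Agent.H20.Smooth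

namespace Z1

/-- the smooth sums as sums over a fixed range -/
lemma sm_eq {w a : ℝ} (hw : 0 < w) {N : ℕ} (hN : Real.exp a ≤ N) (t : ℝ) :
    Sm w a (om t) = ∑ n ∈ Finset.Icc 1 N, Pool.Agent.H20.Smooth.sg ((a - Real.log n) / w)
      * (n : ℂ) ^ (-(1 / 2 + I * t) : ℂ) := by
  unfold Sm
  have hs : Finset.Icc 1 ⌊Real.exp a⌋₊ ⊆ Finset.Icc 1 N := by
    refine Finset.Icc_subset_Icc le_rfl ?_
    have h1 : ((⌊Real.exp a⌋₊ : ℕ) : ℝ) ≤ N := (Nat.floor_le (Real.exp_pos a).le).trans hN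
    exact_mod_cast h1
  rw [← Finset.sum_subset hs]
  · refine Finset.sum_congr rfl fun n hn => ?_
    have hn1 : 1 ≤ n := (Finset.mem_Icc.mp hn).1
    have hn0 : n ≠ 0 := by omega
    have hnC : (n : ℂ) ≠ 0 := by exact_mod_cast hn0
    rw [ch_om t hn0, ← Complex.cpow_add _ _ hnC]
    unfold Pool.Agent.H20.Smooth.sg
    congr 2
    ring
  · intro n hn hn'
    have hn1 : 1 ≤ n := (Finset.mem_Icc.mp hn).1
    have h2 : ¬ Real.log n ≤ a := fun h => hn' ((mem_iff hn1 a).mpr h)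
    rw [sg_zero, zero_mul]
    exact div_nonpos_of_nonpos_of_nonneg (by linarith) hw.le

/-- the smooth sums depend continuously on their length -/
lemma continuousOn_sm {w : ℝ} (hw : 0 < w) (B t : ℝ) :
    ContinuousOn (fun a => ‖Sm w a (om t)‖ ^ 2) (Iic B) := by
  set N : ℕ := ⌈Real.exp B⌉₊ with hN
  have hc : Continuous (fun a : ℝ => ‖∑ n ∈ Finset.Icc 1 N,
      Pool.Agent.H20.Smooth.sg ((a - Real.log n) / w)
      * (n : ℂ) ^ (-(1 / 2 + I * t) : ℂ)‖ ^ 2) := by
    refine (Continuous.norm ?_).pow 2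
    refine continuous_finsetSum _ fun n _ => Continuous.mul ?_ continuous_const
    exact sg_contDiff.continuous.comp (by fun_prop)
  refine hc.continuousOn.congr fun a ha => ?_
  simp only
  rw [sm_eq hw ((Real.exp_le_exp.mpr ha).trans (Nat.le_ceil _))]

/-- the sum over a window which is `1` on `[0, b - w]` -/
lemma sum_window {w a α b : ℝ} (hw : 0 < w) (h : Pr a α b w) (ha : a + α ≤ 0) {N : ℕ}
    (hN : Real.exp b ≤ N) (t : ℝ) :
    ∑ n ∈ Finset.Icc 1 N, BS h (Real.log n) * (n : ℂ) ^ (-(1 / 2 + I * t : ℂ))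
      = Sm w b (om t) := by
  rw [sm_eq hw hN]
  refine Finset.sum_congr rfl fun n _ => ?_
  have h0 : 0 ≤ Real.log n := Real.log_natCast_nonneg n
  rw [BS_apply, bm_right h (by linarith)]

/-- **Approximate functional equation** with smooth sums, as an approximate identity. -/
theorem afe_id : ∃ C : ℝ, 0 ≤ C ∧ ∀ Λ : ℝ, 200 ≤ Λ → ∀ t : ℝ, Real.exp (9 / 10 * Λ) ≤ t →
    t ≤ 3 * Real.exp Λ → ∀ w c : ℝ, 1 ≤ w → w ≤ Λ / 20 → w ≤ c → c ≤ 13 / 20 * Λ →
    w ≤ Real.log (t / (2 * Real.pi)) - c + w →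
    Real.log (t / (2 * Real.pi)) - c + w ≤ 13 / 20 * Λ →
    ‖ze t - (Sm w c (om t)
        + chi t * conj (Sm w (Real.log (t / (2 * Real.pi)) - c + w) (om t)))‖
      ≤ C * Real.exp (-(9 / 20 * Λ)) := by
  have hc1 := c1_nonneg
  set M : ℝ := Real.pi * (4 * cM 1 + 8 * cM 3 + 4 * cM 5) with hM
  have hpi := Real.pi_pos
  have hM0 : 0 ≤ M := by
    have h1 := cM_nonneg 1
    have h3 := cM_nonneg 3
    have h5 := cM_nonneg 5
    positivity
  refine ⟨8 * c1 + 60 * M, by positivity, ?_⟩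
  intro Λ hΛ t ht1 ht2 w c hw hwΛ hwc hc hwc' hc'
  have hw0 : 0 < w := by linarith
  have hΛ0 : 0 < Λ := by linarith
  have ht0 : 0 < t := (Real.exp_pos _).trans_le ht1
  have ht : 1 ≤ t := (Real.one_le_exp (by linarith)).trans ht1
  set l : ℝ := Real.log (t / (2 * Real.pi)) with hl
  have hlL : l ≤ 2 * Λ := by linarith
  -- windows
  have main : ∀ A : ℝ, 2 * Λ ≤ A → ∀ hA : 1 ≤ A,
      ‖Z1 (BS (pr_GA hA)) t - (Sm w c (om t) + chi t * conj (Sm w (l - c + w) (om t)))‖
      ≤ (8 * c1 + 60 * M) * Real.exp (-(9 / 20 * Λ)) := by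
    intro A hA2 hA
    have p1 : Pr (-(2 * A)) A c w := ⟨by linarith, by linarith, by linarith⟩
    have p3 : Pr (c - w) w (2 * A) A := ⟨by linarith, by linarith, by linarith⟩
    have p4 : Pr (l - 2 * A) A (l - c + w) w :=
      ⟨by linarith, by linarith, by linarith⟩
    have hA0 : A ≠ 0 := by positivity
    have hdec : ∀ x, BS (pr_GA hA) x = BS p1 x + BS p3 x := by
      intro x
      rw [BS_apply, BS_apply, BS_apply]
      unfold bm
      have e1 := sg_one_sub' ((c - x) / w)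
      have e3 : (1 : ℝ) - (c - x) / w = (x - (c - w)) / w := by
        field_simp
        ring
      rw [e3] at e1
      rw [e1]
      ring
    have hZ1 : Z1 (BS (pr_GA hA)) t = Z1 (BS p1) t + Z1 (BS p3) t := Z1_add hdec t
    have hrefl : ∀ y, BS p4 y = conj (BS p3 (l - y)) := by
      intro y
      rw [BS_apply, BS_apply]
      unfold bm
      have hcj : ∀ z, conj (Pool.Agent.H20.Smooth.sg z) = Pool.Agent.H20.Smooth.sg z := fun z => by
        unfold Pool.Agent.H20.Smooth.sg; rw [Complex.conj_ofReal]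
      rw [map_sub, map_add, hcj, hcj, map_one]
      have e1 : (l - y - (c - w)) / w = (l - c + w - y) / w := by ring
      have e2 : (2 * A - (l - y)) / A = (y - (l - 2 * A)) / A := by ring
      rw [e1, e2]
      ring
    have hR := reflect1 (κ := BS p3) (κ' := BS p4) ht hrefl
    have hM3 := M3_BS_le p3 hw hA
    -- polar terms
    have hexp : 4 * c1 * Real.exp (13 / 20 * Λ / 2) / t ≤ 4 * c1 * Real.exp (-(9 / 20 * Λ)) := by
      rw [div_le_iff₀ ht0]
      have h1 : Real.exp (13 / 20 * Λ / 2) ≤ Real.exp (-(9 / 20 * Λ)) * t := by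
        calc Real.exp (13 / 20 * Λ / 2) ≤ Real.exp (-(9 / 20 * Λ) + 9 / 10 * Λ) :=
              Real.exp_le_exp.mpr (by linarith)
          _ = Real.exp (-(9 / 20 * Λ)) * Real.exp (9 / 10 * Λ) := Real.exp_add _ _
          _ ≤ Real.exp (-(9 / 20 * Λ)) * t := by gcongr
      calc 4 * c1 * Real.exp (13 / 20 * Λ / 2) ≤ 4 * c1 * (Real.exp (-(9 / 20 * Λ)) * t) := by
            gcongr
        _ = _ := by ring
    have q1 := norm_polar_bm_le p1 hA hw (B := 13 / 20 * Λ) (by linarith) ht0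
    have q4 := norm_polar_bm_le p4 hA hw (B := 13 / 20 * Λ) (by linarith) ht0
    -- the sums
    set N : ℕ := ⌈Real.exp (13 / 20 * Λ)⌉₊ with hN
    have hNL : Real.exp (13 / 20 * Λ) ≤ N := Nat.le_ceil _
    have hN1 : 1 ≤ N := Nat.one_le_ceil_iff.mpr (Real.exp_pos _)
    have hlogN : 13 / 20 * Λ ≤ Real.log N := by
      have := Real.log_le_log (Real.exp_pos _) hNL
      rwa [Real.log_exp] at this
    have d1 := smooth_sum (BS p1) hN1 (fun x hx => by
      rw [BS_apply]; exact bm_zero_right p1 (by linarith)) t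
    have d4 := smooth_sum (BS p4) hN1 (fun x hx => by
      rw [BS_apply]; exact bm_zero_right p4 (by linarith)) t
    have s1 := sum_window hw0 p1 (by linarith) (N := N)
      ((Real.exp_le_exp.mpr (by linarith)).trans hNL) t
    have s4 := sum_window hw0 p4 (by linarith) (N := N)
      ((Real.exp_le_exp.mpr (by linarith)).trans hNL) t
    have z1 : ‖Z1 (BS p1) t - Sm w c (om t)‖ ≤ 4 * c1 * Real.exp (-(9 / 20 * Λ)) := by
      have e : Z1 (BS p1) t = (∑ n ∈ Finset.Icc 1 N, BS p1 (Real.log n) *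
          (n : ℂ) ^ (-(1 / 2 + I * t : ℂ)))
          - ∫ x, BS p1 x * cexp ((1 / 2 - I * t) * x) := by
        rw [d1]; unfold Z1; ring
      rw [e, s1, sub_right_comm, sub_self, zero_sub, norm_neg]
      exact q1.trans hexp
    have z4 : ‖Z1 (BS p4) t - Sm w (l - c + w) (om t)‖ ≤ 4 * c1 * Real.exp (-(9 / 20 * Λ)) := by
      have e : Z1 (BS p4) t = (∑ n ∈ Finset.Icc 1 N, BS p4 (Real.log n) *
          (n : ℂ) ^ (-(1 / 2 + I * t : ℂ)))
          - ∫ x, BS p4 x * cexp ((1 / 2 - I * t) * x) := by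
        rw [d4]; unfold Z1; ring
      rw [e, s4, sub_right_comm, sub_self, zero_sub, norm_neg]
      exact q4.trans hexp
    have z3 : ‖Z1 (BS p3) t - chi t * conj (Z1 (BS p4) t)‖ ≤ 60 * M * Real.exp (-(9 / 20 * Λ)) := by
      refine hR.trans ?_
      have hst : Real.exp (9 / 20 * Λ) ≤ Real.sqrt t := by
        refine Real.le_sqrt_of_sq_le ?_
        rw [← Real.exp_nat_mul]
        refine le_trans (le_of_eq ?_) ht1
        congr 1
        push_cast
        ring
      have hst0 : 0 < Real.sqrt t := Real.sqrt_pos.mpr ht0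
      have h60 : 60 / Real.sqrt t ≤ 60 * Real.exp (-(9 / 20 * Λ)) := by
        rw [Real.exp_neg, ← div_eq_mul_inv]
        gcongr
      have hM3' : 0 ≤ M3 (BS p3) := integral_nonneg fun v => by positivity
      calc 60 / Real.sqrt t * M3 (BS p3) ≤ 60 * Real.exp (-(9 / 20 * Λ)) * M := by gcongr
        _ = 60 * M * Real.exp (-(9 / 20 * Λ)) := by ring
    have z5 : ‖chi t * conj (Z1 (BS p4) t) - chi t * conj (Sm w (l - c + w) (om t))‖
        ≤ 4 * c1 * Real.exp (-(9 / 20 * Λ)) := by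
      rw [← mul_sub, ← map_sub, norm_mul, norm_chi, one_mul, Complex.norm_conj]
      exact z4
    rw [hZ1]
    have e : Z1 (BS p1) t + Z1 (BS p3) t
        - (Sm w c (om t) + chi t * conj (Sm w (l - c + w) (om t)))
        = (Z1 (BS p1) t - Sm w c (om t)) + (Z1 (BS p3) t - chi t * conj (Z1 (BS p4) t))
          + (chi t * conj (Z1 (BS p4) t) - chi t * conj (Sm w (l - c + w) (om t))) := by ring
    rw [e]
    refine (norm_add₃_le).trans ?_
    linarith
  have hlim := ((tendsto_Z1 t).sub_const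
    (Sm w c (om t) + chi t * conj (Sm w (l - c + w) (om t)))).norm
  refine le_of_tendsto hlim ?_
  obtain ⟨n0, hn0⟩ := exists_nat_ge (2 * Λ)
  filter_upwards [eventually_ge_atTop n0] with n hn
  have hn1 : (n0 : ℝ) ≤ n := by exact_mod_cast hn
  have h3 : (1 : ℝ) ≤ (n : ℝ) + 1 := by
    have : (0 : ℝ) ≤ n := Nat.cast_nonneg n
    linarith
  have h4 := main ((n : ℝ) + 1) (by linarith) h3
  rw [Z1_GA h3] at h4
  exact h4

end Z1

/-- Z1 -/
theorem afeW : AfeW := by
  obtain ⟨C, hC0, hC⟩ := Z1.afe_id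
  refine ⟨C, hC0, ?_⟩
  intro Λ hΛ t ht1 ht2 w c hw hwΛ hc1 hc2 hc3 hc4
  refine (hC Λ hΛ t ht1 ht2 w c hw hwΛ (by linarith) hc2 (by linarith) hc4).trans ?_
  have : Real.exp (-(9 / 20 * Λ)) ≤ Real.exp (-(1 / 4 * Λ)) := Real.exp_le_exp.mpr (by linarith)
  gcongr

end Pool.Agent.Lib.G2
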