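import Mathlib
import Pool.Agent.Lib.MP_f9aece_nt_g2.StmtsZ
import Pool.Agent.Lib.MP_f9aece_nt_g2.Z1

/-!
Z1b: upper bound for zeta through smooth sums of length about `T ^ (1/2)`, from the approximate
functional equation AfeW, by an average over the split point.
-/

set_option autoImplicit false

namespace Pool.Agent.Lib.G2

open MeasureTheory Complex Set Filter Topology
open scoped SchwartzMap ComplexConjugate ContDiff
open Pool.Agent.Lib.GT
open Pool.Agent.H20.Chi (chi norm_chi)

/-- Z1b -/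
theorem afeSq (hA : AfeW) : AfeSq := by
  obtain ⟨C, hC0, hC⟩ := hA
  refine ⟨6 + 3 * C ^ 2, Real.exp 200, by positivity, ?_, ?_⟩
  · have := Real.add_one_le_exp (200 : ℝ)
    linarith
  intro T e hT he he1 heT x t hx ht
  have hT0 : 0 < T := (Real.exp_pos _).trans_le hT
  set L : ℝ := Real.log T with hL
  have hTL : Real.exp L = T := Real.exp_log hT0
  have hL200 : 200 ≤ L := by
    rw [hL, Real.le_log_iff_exp_le hT0]
    exact hT
  have hL0 : 0 < L := by linarith
  have heL : 0 < e * L := by positivity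
  set w : ℝ := wd T e with hw
  have hwe : w = e * L / 20 := rfl
  have hw1 : 1 ≤ w := by rw [hwe]; linarith
  have hw0 : 0 < w := by linarith
  have heL1 : e * L ≤ 1 / 100 * L := by gcongr
  have hwL : w ≤ L / 20 := by rw [hwe]; linarith
  obtain ⟨ht1, ht2⟩ := ht
  have hTe : T ^ (1 - e / 4 : ℝ) = Real.exp ((1 - e / 4) * L) := by
    rw [Real.rpow_def_of_pos hT0, mul_comm]
  rw [hTe] at ht1
  have ht0 : 0 < t := (Real.exp_pos _).trans_le ht1
  have hpi := Real.pi_pos
  have hpi3 := Real.pi_gt_three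
  have hpi4 := Real.pi_le_four
  have hxT : x ≤ T := (le_abs_self x).trans hx
  set l : ℝ := Real.log (t / (2 * Real.pi)) with hl
  -- the size of `l`
  have hl1 : l ≤ L := by
    rw [hl, Real.log_le_iff_le_exp (by positivity), div_le_iff₀ (by positivity), hTL]
    nlinarith
  have hl2 : (1 - e / 4) * L - 3 ≤ l := by
    rw [hl, Real.le_log_iff_exp_le (by positivity), le_div_iff₀ (by positivity)]
    have h8 : (8 : ℝ) ≤ Real.exp 3 := by
      have h5 := Real.exp_one_gt_d9
      have h6 : Real.exp 3 = Real.exp 1 ^ 3 := by rw [← Real.exp_nat_mul]; norm_num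
      rw [h6]
      have h7 : (2 : ℝ) ≤ Real.exp 1 := by linarith
      calc (8 : ℝ) = 2 ^ 3 := by norm_num
        _ ≤ Real.exp 1 ^ 3 := by gcongr
    calc Real.exp ((1 - e / 4) * L - 3) * (2 * Real.pi)
        ≤ Real.exp ((1 - e / 4) * L - 3) * Real.exp 3 := by gcongr; linarith
      _ = Real.exp ((1 - e / 4) * L) := by rw [← Real.exp_add]; congr 1; ring
      _ ≤ t := ht1
  have hte : Real.exp (9 / 10 * L) ≤ t := by
    refine (Real.exp_le_exp.mpr ?_).trans ht1
    nlinarith
  have ht3 : t ≤ 3 * Real.exp L := by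
    rw [hTL]
    linarith
  set f : ℝ → ℝ := fun a => ‖Sm w a (om t)‖ ^ 2 with hf
  have hf0 : ∀ a, 0 ≤ f a := fun a => by positivity
  set K : ℝ := 3 * C ^ 2 * Real.exp (-(1 / 4 * L)) with hK
  have hK0 : 0 ≤ K := by positivity
  have hii : ∀ u v : ℝ, IntervalIntegrable f volume u v := fun u v =>
    ((Z1.continuousOn_sm hw0 (max u v) t).mono fun x hx =>
      (mem_uIcc.mp hx).elim (fun h => h.2.trans (le_max_right _ _))
        fun h => h.2.trans (le_max_left _ _)).intervalIntegrable
  have hpt : ∀ c ∈ Icc (L / 2) (L / 2 + w), ‖ze t‖ ^ 2 ≤ 3 * f c + 3 * f (l + w - c) + K := by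
    intro c hc
    obtain ⟨hc1, hc2⟩ := hc
    have h := hC L hL200 t hte ht3 w c hw1 hwL (by linarith) (by linarith)
      (by rw [← hl]; nlinarith) (by rw [← hl]; linarith)
    rw [← hl, show l - c + w = l + w - c by ring] at h
    have h1 : ‖ze t‖ ≤ ‖Sm w c (om t)‖ + ‖Sm w (l + w - c) (om t)‖
        + C * Real.exp (-(1 / 4 * L)) := by
      have e1 : ze t = (Sm w c (om t) + chi t * conj (Sm w (l + w - c) (om t)))
          + (ze t - (Sm w c (om t) + chi t * conj (Sm w (l + w - c) (om t)))) := by ring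
      rw [e1]
      refine (norm_add_le _ _).trans (add_le_add ((norm_add_le _ _).trans ?_) h)
      rw [norm_mul, norm_chi, one_mul, Complex.norm_conj]
    have hsq : ∀ x y z : ℝ, (x + y + z) ^ 2 ≤ 3 * x ^ 2 + 3 * y ^ 2 + 3 * z ^ 2 := fun x y z => by
      nlinarith [sq_nonneg (x - y), sq_nonneg (y - z), sq_nonneg (z - x)]
    have hexp : (C * Real.exp (-(1 / 4 * L))) ^ 2 ≤ C ^ 2 * Real.exp (-(1 / 4 * L)) := by
      rw [mul_pow]
      have h2 : Real.exp (-(1 / 4 * L)) ≤ 1 := Real.exp_le_one_iff.mpr (by linarith)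
      have h3 : Real.exp (-(1 / 4 * L)) ^ 2 ≤ Real.exp (-(1 / 4 * L)) := by
        have h4 := (Real.exp_pos (-(1 / 4 * L))).le
        nlinarith
      gcongr
    calc ‖ze t‖ ^ 2 ≤ (‖Sm w c (om t)‖ + ‖Sm w (l + w - c) (om t)‖
          + C * Real.exp (-(1 / 4 * L))) ^ 2 := by gcongr
      _ ≤ 3 * ‖Sm w c (om t)‖ ^ 2 + 3 * ‖Sm w (l + w - c) (om t)‖ ^ 2
          + 3 * (C * Real.exp (-(1 / 4 * L))) ^ 2 := hsq _ _ _
      _ ≤ 3 * f c + 3 * f (l + w - c) + K := by
          rw [hK, hf]
          simp only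
          linarith
  set J : ℝ := ∫ a in ((1 / 2 - e) * L)..((1 / 2 + e / 5) * L), f a with hJ
  have hsub : ∀ u v : ℝ, (1 / 2 - e) * L ≤ u → u ≤ v → v ≤ (1 / 2 + e / 5) * L →
      ∫ x in u..v, f x ≤ J := by
    intro u v h1 h2 h3
    exact intervalIntegral.integral_mono_interval h1 h2 h3 (Eventually.of_forall hf0) (hii _ _)
  have i1 := hsub (L / 2) (L / 2 + w) (by nlinarith) (by linarith) (by rw [hwe]; nlinarith)
  have i2 := hsub (l + w - (L / 2 + w)) (l + w - L / 2) (by nlinarith) (by linarith)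
    (by rw [hwe]; nlinarith)
  have hg2 : IntervalIntegrable (fun c => f (l + w - c)) volume (L / 2) (L / 2 + w) := by
    have := (hii (l + w - L / 2) (l + w - (L / 2 + w))).comp_sub_left (l + w)
    rwa [sub_sub_cancel, sub_sub_cancel] at this
  have hmono := intervalIntegral.integral_mono_on (μ := volume) (a := L / 2)
    (b := L / 2 + w) (by linarith) intervalIntegrable_const
    ((((hii _ _).const_mul 3).add (hg2.const_mul 3)).add intervalIntegrable_const) hpt
  rw [intervalIntegral.integral_add (((hii _ _).const_mul 3).add (hg2.const_mul 3))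
    intervalIntegrable_const, intervalIntegral.integral_add ((hii _ _).const_mul 3)
    (hg2.const_mul 3), intervalIntegral.integral_const_mul, intervalIntegral.integral_const_mul,
    intervalIntegral.integral_comp_sub_left (fun x => f x), intervalIntegral.integral_const,
    intervalIntegral.integral_const, smul_eq_mul, smul_eq_mul] at hmono
  have hJ0 : 0 ≤ J := intervalIntegral.integral_nonneg (by nlinarith) fun x _ => hf0 x
  have h8 : w * ‖ze t‖ ^ 2 ≤ 6 * J + w * K := by
    have e1 : L / 2 + w - L / 2 = w := by ring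
    rw [e1] at hmono
    linarith
  have h7 : ‖ze t‖ ^ 2 ≤ 6 / w * J + K := by
    have h9 : 6 / w * J + K = (6 * J + w * K) / w := by field_simp
    rw [h9, le_div_iff₀ hw0]
    linarith
  have hex : 0 ≤ Real.exp (-(1 / 4 * L)) := (Real.exp_pos _).le
  have h10 : 6 / w * J ≤ (6 + 3 * C ^ 2) / w * J := by
    gcongr
    nlinarith [sq_nonneg C]
  calc ‖ze t‖ ^ 2 ≤ 6 / w * J + K := h7
    _ ≤ (6 + 3 * C ^ 2) / w * J + (6 + 3 * C ^ 2) * Real.exp (-(1 / 4 * L)) := by
        nlinarith
    _ = _ := by rw [hJ, hf]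

end Pool.Agent.Lib.G2
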