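import Mathlib
import Pool.Agent.Lib.MP_f9aece_nt_g2.StmtsZ
import Pool.Agent.Lib.MP_f9aece_nt_gt.E4

/-!
Elementary facts on the smooth sums `Sm`: fixed range of summation, continuity, squares as
trigonometric polynomials; integrability for the mean `un`.
-/

set_option autoImplicit false

namespace Pool.Agent.Lib.G2

open MeasureTheory Set Filter Topology Complex ProbabilityTheory
open scoped ComplexConjugate
open Pool.Agent.Lib.GT

namespace SmB

/-- the smooth sums as sums over a fixed range -/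
noncomputable def SN (N : ℕ) (w : ℝ) (a : ℝ) (x : Om) : ℂ :=
  ∑ n ∈ Finset.Icc 1 N, (Real.smoothTransition ((a - Real.log n) / w) : ℂ)
    * ((n : ℂ) ^ (-(1 / 2) : ℂ) * ch x n)

lemma sm_eq {w a : ℝ} (hw : 0 < w) {N : ℕ} (hN : Real.exp a ≤ N) (x : Om) :
    Sm w a x = SN N w a x := by
  unfold Sm SN
  have hs : Finset.Icc 1 ⌊Real.exp a⌋₊ ⊆ Finset.Icc 1 N := by
    refine Finset.Icc_subset_Icc le_rfl ?_
    have h1 : ((⌊Real.exp a⌋₊ : ℕ) : ℝ) ≤ N := (Nat.floor_le (Real.exp_pos a).le).trans hN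
    exact_mod_cast h1
  refine Finset.sum_subset hs fun n hn hn' => ?_
  have hn1 : 1 ≤ n := (Finset.mem_Icc.mp hn).1
  have hn0 : (0 : ℝ) < n := by exact_mod_cast hn1
  have h2 : a ≤ Real.log n := by
    by_contra h
    push Not at h
    refine hn' (Finset.mem_Icc.mpr ⟨hn1, Nat.le_floor ?_⟩)
    exact ((Real.log_lt_iff_lt_exp hn0).mp h).le
  have h3 : (a - Real.log n) / w ≤ 0 :=
    div_nonpos_of_nonpos_of_nonneg (by linarith) hw.le
  rw [Real.smoothTransition.zero_of_nonpos h3]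
  simp

lemma continuous_SN (N : ℕ) (w : ℝ) : Continuous fun z : ℝ × Om => SN N w z.1 z.2 := by
  unfold SN
  refine continuous_finsetSum _ fun n _ => Continuous.mul ?_ (continuous_const.mul ?_)
  · refine Complex.continuous_ofReal.comp (Real.smoothTransition.continuous.comp ?_)
    exact (continuous_fst.sub continuous_const).div_const _
  · exact (continuous_ch n).comp continuous_snd

lemma continuous_Sm (w a : ℝ) : Continuous (Sm w a) := by
  unfold Sm
  exact continuous_finsetSum _ fun n _ => continuous_const.mul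
    (continuous_const.mul (continuous_ch n))

lemma norm_rpow (n : ℕ) (hn : 1 ≤ n) : ‖(n : ℂ) ^ (-(1 / 2) : ℂ)‖ = (n : ℝ) ^ (-(1 / 2) : ℝ) := by
  have e : (-(1 / 2) : ℂ).re = -(1 / 2) := by
    norm_num
  rw [Complex.norm_natCast_cpow_of_pos (by omega), e]

/-- sums of `n ^ (-1/2)` -/
lemma sum_half_le (N : ℕ) : ∑ n ∈ Finset.Icc 1 N, (n : ℝ) ^ (-(1 / 2) : ℝ) ≤ 2 * Real.sqrt N := by
  induction N with
  | zero => simp
  | succ N ih =>
    rw [Finset.sum_Icc_succ_top (by omega)]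
    have h1 : (0 : ℝ) < (N : ℝ) + 1 := by positivity
    have h2 : ((N + 1 : ℕ) : ℝ) ^ (-(1 / 2) : ℝ) = 1 / Real.sqrt ((N : ℝ) + 1) := by
      push_cast
      rw [Real.rpow_neg h1.le, Real.sqrt_eq_rpow]
      exact (one_div _).symm
    rw [h2]
    push_cast
    have h3 : 0 < Real.sqrt ((N : ℝ) + 1) := Real.sqrt_pos.mpr h1
    have h4 : 0 ≤ Real.sqrt (N : ℝ) := Real.sqrt_nonneg _
    have h5 : Real.sqrt (N : ℝ) ≤ Real.sqrt ((N : ℝ) + 1) := Real.sqrt_le_sqrt (by linarith)
    have h6 : Real.sqrt ((N : ℝ) + 1) * Real.sqrt ((N : ℝ) + 1) = (N : ℝ) + 1 :=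
      Real.mul_self_sqrt h1.le
    have h7 : Real.sqrt (N : ℝ) * Real.sqrt (N : ℝ) = (N : ℝ) := Real.mul_self_sqrt (by positivity)
    have h8 : 1 / Real.sqrt ((N : ℝ) + 1) ≤ 2 * Real.sqrt ((N : ℝ) + 1) - 2 * Real.sqrt (N : ℝ) := by
      rw [div_le_iff₀ h3]
      nlinarith
    linarith

/-- the sum of the norms of the coefficients -/
lemma coef_sum {a : ℝ} (f : ℕ → ℝ) (hf : ∀ n, 0 ≤ f n ∧ f n ≤ 1) :
    ∑ n ∈ Finset.Icc 1 ⌊Real.exp a⌋₊, ‖(f n : ℂ) * (n : ℂ) ^ (-(1 / 2) : ℂ)‖
      ≤ 2 * Real.exp (a / 2) := by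
  calc _ ≤ ∑ n ∈ Finset.Icc 1 ⌊Real.exp a⌋₊, (n : ℝ) ^ (-(1 / 2) : ℝ) := by
        refine Finset.sum_le_sum fun n hn => ?_
        have hn1 := (Finset.mem_Icc.mp hn).1
        rw [norm_mul, Complex.norm_real, Real.norm_of_nonneg (hf n).1, norm_rpow n hn1]
        exact mul_le_of_le_one_left (by positivity) (hf n).2
    _ ≤ 2 * Real.sqrt ⌊Real.exp a⌋₊ := sum_half_le _
    _ ≤ 2 * Real.exp (a / 2) := by
        refine mul_le_mul_of_nonneg_left ?_ (by norm_num)
        rw [Real.sqrt_le_left (Real.exp_pos _).le, ← Real.exp_nat_mul]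
        have e : ((2 : ℕ) : ℝ) * (a / 2) = a := by push_cast; ring
        rw [e]
        exact Nat.floor_le (Real.exp_pos a).le

/-- the square of a sum with coefficients between `0` and `1` -/
lemma tp_gen (a : ℝ) (f : ℕ → ℝ) (hf : ∀ n, 0 ≤ f n ∧ f n ≤ 1) :
    TP (Real.exp a) (4 * Real.exp a) fun x => ((‖∑ n ∈ Finset.Icc 1 ⌊Real.exp a⌋₊,
      ((f n : ℂ) * (n : ℂ) ^ (-(1 / 2) : ℂ)) * ch x n‖ ^ 2 : ℝ) : ℂ) := by
  have h1 : ∀ n ∈ Finset.Icc 1 ⌊Real.exp a⌋₊, 1 ≤ n ∧ (n : ℝ) ≤ Real.exp a := fun n hn =>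
    ⟨(Finset.mem_Icc.mp hn).1, (Nat.cast_le.mpr (Finset.mem_Icc.mp hn).2).trans
      (Nat.floor_le (Real.exp_pos a).le)⟩
  refine (LM.tp_sq (c := fun n => (f n : ℂ) * (n : ℂ) ^ (-(1 / 2) : ℂ)) h1).mono le_rfl ?_
  have h2 := coef_sum (a := a) f hf
  have h0 : 0 ≤ ∑ n ∈ Finset.Icc 1 ⌊Real.exp a⌋₊, ‖(f n : ℂ) * (n : ℂ) ^ (-(1 / 2) : ℂ)‖ :=
    Finset.sum_nonneg fun _ _ => norm_nonneg _
  calc _ ≤ (2 * Real.exp (a / 2)) * (2 * Real.exp (a / 2)) := mul_le_mul h2 h2 h0 (by positivity)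
    _ = 4 * (Real.exp (a / 2) * Real.exp (a / 2)) := by ring
    _ = 4 * Real.exp a := by
        rw [← Real.exp_add]
        congr 2
        ring

/-- the square of a smooth sum -/
lemma tp_sm (w a : ℝ) :
    TP (Real.exp a) (4 * Real.exp a) fun x => ((‖Sm w a x‖ ^ 2 : ℝ) : ℂ) := by
  refine (tp_gen a (fun n => Real.smoothTransition ((a - Real.log n) / w)) fun n =>
    ⟨Real.smoothTransition.nonneg _, Real.smoothTransition.le_one _⟩).congr fun x => ?_
  have e : Sm w a x = ∑ n ∈ Finset.Icc 1 ⌊Real.exp a⌋₊,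
      ((Real.smoothTransition ((a - Real.log n) / w) : ℂ) * (n : ℂ) ^ (-(1 / 2) : ℂ)) * ch x n := by
    unfold Sm
    exact Finset.sum_congr rfl fun n _ => by rw [mul_assoc]
  rw [e]

lemma monotone_sT : Monotone Real.smoothTransition := by
  intro x y h
  rcases le_or_gt y 0 with h0 | h0
  · rw [Real.smoothTransition.zero_of_nonpos h0, Real.smoothTransition.zero_of_nonpos (h.trans h0)]
  rcases le_or_gt 1 x with h1 | h1
  · rw [Real.smoothTransition.one_of_one_le h1, Real.smoothTransition.one_of_one_le (h1.trans h)]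
  rcases le_or_gt x 0 with h2 | h2
  · rw [Real.smoothTransition.zero_of_nonpos h2]
    exact Real.smoothTransition.nonneg _
  rcases le_or_gt 1 y with h3 | h3
  · rw [Real.smoothTransition.one_of_one_le h3]
    exact Real.smoothTransition.le_one _
  unfold Real.smoothTransition
  have hm : ∀ u v : ℝ, u ≤ v → expNegInvGlue u ≤ expNegInvGlue v := by
    intro u v huv
    rcases le_or_gt u 0 with hu | hu
    · rw [expNegInvGlue.zero_of_nonpos hu]
      exact expNegInvGlue.nonneg _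
    · unfold expNegInvGlue
      rw [if_neg (by linarith), if_neg (by linarith)]
      refine Real.exp_le_exp.mpr (neg_le_neg ?_)
      exact inv_anti₀ hu huv
  have a1 := hm x y h
  have a2 := hm (1 - y) (1 - x) (by linarith)
  have a3 : 0 < expNegInvGlue x := expNegInvGlue.pos_of_pos h2
  have a4 : 0 < expNegInvGlue (1 - y) := expNegInvGlue.pos_of_pos (by linarith)
  have a5 : 0 < expNegInvGlue y := lt_of_lt_of_le a3 a1
  have a6 : 0 < expNegInvGlue (1 - x) := lt_of_lt_of_le a4 a2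
  rw [div_le_div_iff₀ (by linarith) (by linarith)]
  nlinarith

/-- the square of the difference of two smooth sums -/
lemma tp_sub {w a c : ℝ} (hw : 0 < w) (hca : c ≤ a) :
    TP (Real.exp a) (4 * Real.exp a) fun x => ((‖Sm w a x - Sm w c x‖ ^ 2 : ℝ) : ℂ) := by
  refine (tp_gen a (fun n => Real.smoothTransition ((a - Real.log n) / w)
    - Real.smoothTransition ((c - Real.log n) / w)) fun n => ⟨?_, ?_⟩).congr fun x => ?_
  · have h1 : (c - Real.log n) / w ≤ (a - Real.log n) / w := by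
      gcongr
    have := monotone_sT h1
    linarith
  · have h1 := Real.smoothTransition.le_one ((a - Real.log n) / w)
    have h2 := Real.smoothTransition.nonneg ((c - Real.log n) / w)
    linarith
  · have e : Sm w a x - Sm w c x = ∑ n ∈ Finset.Icc 1 ⌊Real.exp a⌋₊,
      (((Real.smoothTransition ((a - Real.log n) / w)
        - Real.smoothTransition ((c - Real.log n) / w) : ℝ) : ℂ)
        * (n : ℂ) ^ (-(1 / 2) : ℂ)) * ch x n := by
      obtain ⟨N, hN⟩ : ∃ N : ℕ, N = ⌊Real.exp a⌋₊ := ⟨_, rfl⟩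
      have e1 : Sm w c x = ∑ n ∈ Finset.Icc 1 ⌊Real.exp a⌋₊,
          (Real.smoothTransition ((c - Real.log n) / w) : ℂ) * ((n : ℂ) ^ (-(1 / 2) : ℂ) * ch x n) := by
        unfold Sm
        refine Finset.sum_subset (Finset.Icc_subset_Icc le_rfl
          (Nat.floor_le_floor (Real.exp_le_exp.mpr hca))) fun n hn hn' => ?_
        have hn1 : 1 ≤ n := (Finset.mem_Icc.mp hn).1
        have hn0 : (0 : ℝ) < n := by exact_mod_cast hn1
        have h2 : c ≤ Real.log n := by
          by_contra h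
          push Not at h
          refine hn' (Finset.mem_Icc.mpr ⟨hn1, Nat.le_floor ?_⟩)
          exact ((Real.log_lt_iff_lt_exp hn0).mp h).le
        have h3 : (c - Real.log n) / w ≤ 0 :=
          div_nonpos_of_nonpos_of_nonneg (by linarith) hw.le
        rw [Real.smoothTransition.zero_of_nonpos h3]
        simp
      rw [e1]
      unfold Sm
      rw [← Finset.sum_sub_distrib]
      refine Finset.sum_congr rfl fun n _ => ?_
      push_cast
      ring
    rw [e]

/-! ### the mean `un` -/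

/-- continuous functions are integrable -/
lemma int_un {E : Type} [NormedAddCommGroup E] (x : ℝ) {T : ℝ} (hT : 0 < T) {f : ℝ → E}
    (hf : Continuous f) : Integrable f (un x T) := by
  unfold un
  refine Integrable.smul_measure (hf.integrableOn_Icc) ?_
  exact ENNReal.inv_ne_top.mpr (by simpa using hT)

lemma continuous_ze : Continuous ze := by
  unfold ze
  refine continuous_iff_continuousAt.mpr fun t => ?_
  have h : (1 / 2 + I * t : ℂ) ≠ 1 := by
    intro h
    have := congrArg Complex.re h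
    norm_num at this
  exact ContinuousAt.comp (g := riemannZeta) (f := fun t : ℝ => (1 / 2 + I * t : ℂ))
    (differentiableAt_riemannZeta h).continuousAt (by fun_prop)

end SmB

end Pool.Agent.Lib.G2
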