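import Mathlib
import Pool.Agent.Lib.MP_f9aece_nt_g2.StmtsZ
import Pool.Agent.Lib.MP_f9aece_nt_g2.Cont
import Pool.Agent.Lib.MP_f9aece_nt_g2.SmB
import Pool.Agent.Lib.MP_f9aece_nt_g2.T6

/-!
Z2: zeta is close to the sum of length `T ^ (1/2 - e)` and its dual.
-/

set_option autoImplicit false

namespace Pool.Agent.Lib.G2

open MeasureTheory Set Filter Topology Complex ProbabilityTheory
open scoped ComplexConjugate
open Pool.Agent.Lib.GT
open Pool.Agent.H20.Chi (chi)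

namespace Z2

/-- a reflection -/
lemma lint_sub_le {F : ℝ → ENNReal} {b c d a1 a2 : ℝ} (h : ∀ z ∈ Icc c d, b - z ∈ Icc a1 a2) :
    ∫⁻ z in Icc c d, F (b - z) ≤ ∫⁻ a in Icc a1 a2, F a := by
  rw [← lintegral_indicator measurableSet_Icc, ← lintegral_indicator measurableSet_Icc,
    ← lintegral_sub_left_eq_self (fun a => (Icc a1 a2).indicator F a) b]
  refine lintegral_mono fun z => ?_
  by_cases hz : z ∈ Icc c d
  · rw [indicator_of_mem hz, indicator_of_mem (h z hz)]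
  · rw [indicator_of_notMem hz]
    exact zero_le

lemma expBd_zero (A : Par) (hA : A.Ok) : ExpBd A 0 0 T6.D0 0 := by
  intro η η' _ _
  have hsg : (A.sg : ℂ) ^ 2 = 1 := by
    rcases hA.hsg with h | h <;> rw [h] <;> norm_num
  have h1 : sab A.U A.h (A.sz η) (A.sz η') 0 0 T6.D0
      = (A.zz η + conj (A.zz η')) ^ 2 * A.vt / 4 := by
    have h2 : sab A.U A.h (A.sz η) (A.sz η') 0 0 T6.D0
        = ((A.sg : ℂ) * (A.zz η + conj (A.zz η')) / 2) ^ 2 * A.vt := by
      unfold sab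
      rw [T6.hvt, Finset.mul_sum]
      refine Finset.sum_congr rfl fun p _ => ?_
      simp only [T6.D0, Par.sz, map_mul, Complex.conj_ofReal, map_zero]
      ring
    rw [h2]
    linear_combination ((A.zz η + conj (A.zz η')) ^ 2 / 4 * A.vt) * hsg
  rw [h1, T6.zz_add]
  have h3 : (((A.be : ℂ) + I * ((A.b * (η - η') : ℝ) : ℂ)) ^ 2 * A.vt / 4 : ℂ)
      = (((A.be ^ 2 - A.b ^ 2 * (η - η') ^ 2) * A.vt / 4 : ℝ) : ℂ)
        + I * ((A.be * (A.b * (η - η')) * A.vt / 2 : ℝ) : ℂ) := by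
    push_cast
    linear_combination ((A.b : ℂ) ^ 2 * ((η : ℂ) - η') ^ 2 * A.vt / 4) * Complex.I_sq
  rw [h3, Complex.add_re, Complex.ofReal_re, Complex.mul_re, Complex.I_re, Complex.I_im,
    Complex.ofReal_im, zero_mul, mul_zero, sub_zero, add_zero]

/-- the total mass of the weights on the torus -/
lemma mass (hW : WBd) : ∃ C : ℝ, 0 ≤ C ∧ ∀ A : Par, A.Ok → ∀ y : ℝ,
    ∫ z, A.W ∅ y z ∂mu ≤ C * A.G y := by
  obtain ⟨C, hC, hW⟩ := hW
  refine ⟨C, hC, fun A hA y => ?_⟩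
  have h1 := hW A hA 0 0 (by simp) (by simp) T6.D0 T6.D0_ok 0 (expBd_zero A hA) 1 (fun _ => 1)
    (T6.small_one A) y ∅ ∅ (Finset.Subset.refl _) (Finset.empty_subset _)
  simp only [T6.mo_zero, T6.HF_D0, map_one, mul_one, Finset.sum_empty, mul_zero, neg_zero,
    Real.exp_zero] at h1
  rw [integral_complex_ofReal, Complex.norm_real] at h1
  exact (le_abs_self _).trans h1

/-- the two sizes of the windows -/
lemma G_le (A : Par) (hA : A.Ok) (y : ℝ) : A.G y ≤ Real.exp A.vt * A.Gs y := by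
  have h1 := T6.exp_mul_G A y
  rw [← h1]
  have h2 := hA.G_pos y
  refine le_mul_of_one_le_left h2.le (Real.one_le_exp ?_)
  have h3 := A.vt_nonneg
  have h4 : |A.sg * A.be| ≤ 1 := by
    rw [abs_mul, hA.abs_sg, abs_of_pos hA.hbe, one_mul]
    have := hA.hbb
    have := hA.hb
    linarith
  have h5 := (abs_le.mp h4).1
  nlinarith

lemma vt_exp {C' : ℝ} (h : ∀ A : Par, 1000 ≤ A.p0 → 1 ≤ A.Y →
    (∀ p, p ∈ A.U ↔ p.Prime ∧ A.p0 < p ∧ (p : ℝ) ≤ Real.exp A.Y) →
    |A.vt - Real.log A.Y| ≤ C' + Real.log A.p0) (hN : GroupNum) {A : Par} (hA : A.Ok) :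
    Real.exp A.vt ≤ Real.exp C' * A.p0 * A.Y := by
  have g3 := h A hA.hp hA.hY (hN A hA).2.2.2.1
  have hp : (0 : ℝ) < A.p0 := by
    have : (1000 : ℝ) ≤ A.p0 := by exact_mod_cast hA.hp
    linarith
  have hY := hA.hY
  have g5 : A.vt ≤ C' + Real.log A.p0 + Real.log A.Y := by
    have := (abs_le.mp g3).2
    linarith
  calc Real.exp A.vt ≤ Real.exp (C' + Real.log A.p0 + Real.log A.Y) := Real.exp_le_exp.mpr g5
    _ = Real.exp C' * A.p0 * A.Y := by
        rw [Real.exp_add, Real.exp_add, Real.exp_log hp, Real.exp_log (by linarith)]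

lemma heights {A : Par} {T e x t : ℝ} (hL : Len A T e) (hx : |x| ≤ T ^ (9 / 10 : ℝ))
    (ht : t ∈ Rg x T e) : Real.exp (9 / 10 * Real.log T) ≤ t ∧ t ≤ 3 * Real.exp (Real.log T) ∧
      (1 - e / 4) * Real.log T - 2 ≤ Real.log (t / (2 * Real.pi)) ∧
      Real.log (t / (2 * Real.pi)) ≤ Real.log T := by
  have hT := hL.hT
  have hTp : 0 < T := by linarith
  have he := hL.he
  have he1 := hL.he1
  have hl : 0 < Real.log T := Real.log_pos (by linarith)
  obtain ⟨ht1, ht2⟩ := ht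
  rw [LM.rpow_eq hTp] at ht1 hx
  have hpi := Real.pi_gt_three
  have ht0 : 0 < t := (Real.exp_pos _).trans_le ht1
  have hx1 : x ≤ T := by
    have h1 := (le_abs_self x).trans hx
    have h2 : Real.exp (9 / 10 * Real.log T) ≤ Real.exp (Real.log T) :=
      Real.exp_le_exp.mpr (by linarith)
    rw [Real.exp_log hTp] at h2
    linarith
  refine ⟨?_, ?_, ?_, ?_⟩
  · exact (Real.exp_le_exp.mpr (by nlinarith)).trans ht1
  · rw [Real.exp_log hTp]
    linarith
  · rw [Real.log_div ht0.ne' (by positivity)]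
    have h1 : (1 - e / 4) * Real.log T ≤ Real.log t := (Real.le_log_iff_exp_le ht0).mpr ht1
    have h2 : Real.log (2 * Real.pi) ≤ 2 := by
      rw [Real.log_le_iff_le_exp (by positivity)]
      have h3 : (2.7182818283 : ℝ) < Real.exp 1 := Real.exp_one_gt_d9
      have h4 : Real.exp 2 = Real.exp 1 * Real.exp 1 := by
        rw [← Real.exp_add]
        norm_num
      have h5 := Real.pi_lt_d2
      rw [h4]
      nlinarith
    linarith
  · refine Real.log_le_log (by positivity) ?_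
    rw [div_le_iff₀ (by positivity)]
    nlinarith

/-- the numbers -/
lemma nums {A : Par} (hA : A.Ok) {T e : ℝ} (hL : Len A T e) : 4 * 10 ^ 12 ≤ Real.log T ∧
    4 * 10 ^ 10 ≤ e * Real.log T ∧ A.Y ≤ wd T e ∧ A.Y ≤ Real.log T := by
  have hv : (4 : ℝ) ≤ A.v := by exact_mod_cast hA.hv
  have hi : (0 : ℝ) ≤ A.i := Nat.cast_nonneg _
  have hY := hA.hY
  have h1 : 4 * A.Y ≤ A.KY := by
    unfold Par.KY
    nlinarith [mul_nonneg (by linarith : (0 : ℝ) ≤ A.v) hi]
  have h2 := hL.hK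
  have h3 := hL.he1
  have h4 := hL.he
  have h5 : 0 ≤ Real.log T := Real.log_nonneg (by linarith [hL.hT])
  have h6 : e * Real.log T ≤ 1 / 100 * Real.log T := mul_le_mul_of_nonneg_right h3 h5
  have h7 : wd T e = e * Real.log T / 20 := rfl
  refine ⟨by linarith, by linarith, ?_, by linarith⟩
  rw [h7]
  linarith

end Z2

open Z2

/-- Z2 -/
theorem nearE (h1 : AfeW) (h2 : GaMean) (h3 : SmWin) (h4 : Variance) (h5 : WBd) (hN : GroupNum) :
    NearE := by
  obtain ⟨C0, hC0, h1⟩ := h1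
  obtain ⟨T0, hT0, h2⟩ := h2
  obtain ⟨⟨C', hC', h4⟩, -⟩ := h4
  obtain ⟨C5, hC5, h5⟩ := mass h5
  intro p0 hp0
  obtain ⟨C1, hC1, h3⟩ := h3 p0 hp0
  have hp0' : (0 : ℝ) < p0 := by
    have : (1000 : ℝ) ≤ p0 := by exact_mod_cast hp0
    linarith
  obtain ⟨C2, hC2⟩ : ∃ C2 : ℝ, C2 = Real.exp C' * p0 := ⟨_, rfl⟩
  have hC2p : 0 < C2 := by
    rw [hC2]
    positivity
  have hC1' : 0 ≤ C1 := by linarith
  refine ⟨7 * (3 * C1 * C2 + 1) + 3 * C0 ^ 2 * (3 * C5 * C2 + 1) + 1, T0, by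
    have : 0 ≤ 7 * (3 * C1 * C2 + 1) := by positivity
    have : 0 ≤ 3 * C0 ^ 2 * (3 * C5 * C2 + 1) := by positivity
    linarith, hT0, fun A hA hAp T e hT hL x y hx => ?_⟩
  obtain ⟨n1, n2, n3, n4⟩ := nums hA hL
  have hTp : 0 < T := by linarith [hL.hT]
  have he := hL.he
  have he1 := hL.he1
  have hprob := prob_un x hTp
  have hGs := hA.Gs_pos y
  have hvt := vt_exp h4 hN hA
  rw [hAp, ← hC2] at hvt
  obtain ⟨L, hLd⟩ : ∃ L : ℝ, L = Real.log T := ⟨_, rfl⟩
  obtain ⟨w, hwd⟩ : ∃ w : ℝ, w = wd T e := ⟨_, rfl⟩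
  obtain ⟨c0', hcd⟩ : ∃ c0' : ℝ, c0' = cd T e := ⟨_, rfl⟩
  have hw20 : w = e * L / 20 := by
    rw [hwd, hLd]
    rfl
  have hc20 : c0' = (1 / 2 - e) * L := by
    rw [hcd, hLd]
    rfl
  rw [← hLd] at n1 n2 n4
  rw [← hwd] at n3
  rw [← hwd, ← hcd, ← hLd]
  have hw1 : 1 ≤ w := by
    rw [hw20]
    linarith
  have hw0 : 0 < w := by linarith
  have hY0 : 0 < A.Y := by linarith [hA.hY]
  have heL : e * L ≤ 1 / 100 * L := mul_le_mul_of_nonneg_right he1 (by linarith)
  have hwc : w ≤ c0' := by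
    rw [hw20, hc20]
    linarith
  have hc1 : 3 / 10 * L ≤ c0' := by
    rw [hc20]
    linarith
  have hc2 : c0' + 41 * w ≤ 13 / 20 * L := by
    rw [hw20, hc20]
    linarith
  have hc3 : c0' + 41 * w ≤ (1 - e / 2) * L := by
    rw [hw20, hc20]
    linarith
  -- the functions
  obtain ⟨N, hNd⟩ : ∃ N : ℕ, N = ⌈Real.exp (c0' + 41 * w)⌉₊ := ⟨_, rfl⟩
  have hsn : ∀ a ≤ c0' + 41 * w, ∀ z : Om, SmB.SN N w a z = Sm w a z := fun a ha z =>
    (SmB.sm_eq hw0 ((Real.exp_le_exp.mpr ha).trans (by rw [hNd]; exact Nat.le_ceil _)) z).symm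
  obtain ⟨E, hE⟩ : ∃ E : ℝ → ℝ → ℝ, E = fun a t => A.W ∅ y (om t)
    * ‖SmB.SN N w a (om t) - SmB.SN N w c0' (om t)‖ ^ 2 := ⟨_, rfl⟩
  have hW0 : ∀ z, 0 ≤ A.W ∅ y z := A.W_nonneg hA.b_pos.le ∅ y
  have hE0 : ∀ a t, 0 ≤ E a t := fun a t => by
    rw [hE]
    exact mul_nonneg (hW0 _) (by positivity)
  have hcW : Continuous fun t : ℝ => A.W ∅ y (om t) := (A.continuous_W' hA ∅ y).comp continuous_om
  have hcE : Continuous fun q : ℝ × ℝ => E q.1 q.2 := by
    rw [hE]
    have c1 : Continuous fun q : ℝ × ℝ => om q.2 := continuous_om.comp continuous_snd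
    have c2 : Continuous fun q : ℝ × ℝ => ((q.1, om q.2) : ℝ × Om) := continuous_fst.prodMk c1
    have c3 : Continuous fun q : ℝ × ℝ => SmB.SN N w q.1 (om q.2) :=
      Continuous.comp (g := fun z : ℝ × Om => SmB.SN N w z.1 z.2)
        (f := fun q : ℝ × ℝ => ((q.1, om q.2) : ℝ × Om)) (SmB.continuous_SN N w) c2
    have c4 : Continuous fun q : ℝ × ℝ => ((c0', om q.2) : ℝ × Om) := continuous_const.prodMk c1
    have c5 : Continuous fun q : ℝ × ℝ => SmB.SN N w c0' (om q.2) :=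
      Continuous.comp (g := fun z : ℝ × Om => SmB.SN N w z.1 z.2)
        (f := fun q : ℝ × ℝ => ((c0', om q.2) : ℝ × Om)) (SmB.continuous_SN N w) c4
    exact (hcW.comp continuous_snd).mul ((c3.sub c5).norm.pow 2)
  -- the mean for every length
  obtain ⟨K, hK⟩ : ∃ K : ℝ, K = (3 * C1 * C2 + 1) * (w * A.Gs y) := ⟨_, rfl⟩
  have hL10 : A.Gs y / L ^ 10 ≤ A.Gs y := div_le_self hGs.le (one_le_pow₀ (by linarith))
  have hmean : ∀ a ∈ Icc c0' (c0' + 41 * w), ∫⁻ t, ENNReal.ofReal (E a t) ∂(un x T)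
      ≤ ENNReal.ofReal K := by
    intro a ha
    obtain ⟨ha1, ha2⟩ := ha
    have ha3 : a ≤ 13 / 20 * L := ha2.trans hc2
    have g1 := h2 A hA T e hT hL x y ∅ ∅ (Finset.Subset.refl _) (Finset.empty_subset _) 0 (by simp)
      (Real.exp a) (4 * Real.exp a) (fun z => ‖Sm w a z - Sm w c0' z‖ ^ 2)
      (Real.one_le_exp (by linarith))
      (Real.exp_le_exp.mpr (by rw [← hLd]; exact ha2.trans hc3)) (by
        rw [← hLd]
        have e1 : (4 : ℝ) ≤ Real.exp L := by
          have := Real.add_one_le_exp L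
          linarith
        calc 4 * Real.exp a ≤ Real.exp L * Real.exp L := by
              gcongr
              linarith
          _ = Real.exp (2 * L) := by
              rw [← Real.exp_add]
              congr 1
              ring
          _ ≤ Real.exp (4 * L) := Real.exp_le_exp.mpr (by linarith))
      (fun _ => by positivity) (SmB.tp_sub hw0 ha1)
    have g2 := h3 A hA hAp w c0' a n3 hwc ha1 (by linarith) ∅ (Finset.empty_subset _) y
    simp only [T6.mo_zero, norm_one, one_pow, one_mul, Finset.sum_empty, mul_zero, neg_zero,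
      Real.exp_zero, mul_one] at g1 g2
    rw [← hLd] at g1
    have e2 : ∀ t, E a t = A.Wg ∅ ∅ y (om t) * ‖Sm w a (om t) - Sm w c0' (om t)‖ ^ 2 := by
      intro t
      rw [hE]
      simp only
      rw [hsn a ha2, hsn c0' (by linarith)]
      rfl
    simp only [e2]
    refine g1.trans (ENNReal.ofReal_le_ofReal ?_)
    have g3 : ∫ z, A.Wg ∅ ∅ y z * ‖Sm w a z - Sm w c0' z‖ ^ 2 ∂mu
        ≤ C1 * (w / A.Y) * (Real.exp A.vt * A.Gs y) := g2
    have g4 : C1 * (w / A.Y) * (Real.exp A.vt * A.Gs y) ≤ C1 * C2 * (w * A.Gs y) := by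
      calc C1 * (w / A.Y) * (Real.exp A.vt * A.Gs y)
          ≤ C1 * (w / A.Y) * ((C2 * A.Y) * A.Gs y) := by gcongr
        _ = C1 * C2 * (w * A.Gs y) := by
            field_simp
    have g5 : A.Gs y ≤ w * A.Gs y := le_mul_of_one_le_left hGs.le hw1
    rw [hK]
    linarith
  -- pointwise
  have hpt : ∀ c ∈ Icc c0' (c0' + w), ∀ t ∈ Rg x T e,
      ENNReal.ofReal (A.W ∅ y (om t)
        * ‖ze t - (Sm w c (om t) + chi t * conj (Sm w c (om t)))‖ ^ 2)
      ≤ ENNReal.ofReal (3 * E (Real.log (t / (2 * Real.pi)) + w - c) t)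
        + (ENNReal.ofReal (3 * E c t)
        + ENNReal.ofReal (3 * C0 ^ 2 * Real.exp (-(1 / 2 * L)) * A.W ∅ y (om t))) := by
    intro c hc t ht
    obtain ⟨hc4, hc5⟩ := hc
    obtain ⟨k1, k2, k3, k4⟩ := heights hL hx ht
    rw [← hLd] at k1 k2 k3 k4
    obtain ⟨l, hl⟩ : ∃ l : ℝ, l = Real.log (t / (2 * Real.pi)) := ⟨_, rfl⟩
    rw [← hl] at k3 k4 ⊢
    have k5 : c0' ≤ l + w - c := by
      rw [hw20, hc20] at *
      linarith
    have k6 : l + w - c ≤ c0' + 41 * w := by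
      rw [hw20, hc20] at *
      linarith
    have k7 := h1 L (by linarith) t k1 k2 w c hw1 (by rw [hw20]; linarith [heL]) (by linarith)
      (by linarith) (by rw [← hl]; linarith) (by rw [← hl]; linarith)
    rw [← hl, show l - c + w = l + w - c by ring] at k7
    have hWt := hW0 (om t)
    have hE1 := hE0 (l + w - c) t
    have hE2 := hE0 c t
    rw [← ENNReal.ofReal_add (by positivity) (by positivity),
      ← ENNReal.ofReal_add (by positivity) (by positivity)]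
    refine ENNReal.ofReal_le_ofReal ?_
    obtain ⟨a, ha⟩ : ∃ a : ℝ, a = l + w - c := ⟨_, rfl⟩
    rw [← ha] at k5 k6 k7 ⊢
    have e1 : E a t = A.W ∅ y (om t) * ‖Sm w a (om t) - Sm w c0' (om t)‖ ^ 2 := by
      rw [hE]
      simp only
      rw [hsn a k6, hsn c0' (by linarith)]
    have e2 : E c t = A.W ∅ y (om t) * ‖Sm w c (om t) - Sm w c0' (om t)‖ ^ 2 := by
      rw [hE]
      simp only
      rw [hsn c (by linarith), hsn c0' (by linarith)]
    rw [e1, e2]
    have k8 : ‖ze t - (Sm w c (om t) + chi t * conj (Sm w c (om t)))‖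
        ≤ C0 * Real.exp (-(1 / 4 * L)) + ‖Sm w a (om t) - Sm w c0' (om t)‖
          + ‖Sm w c (om t) - Sm w c0' (om t)‖ := by
      have e3 : ze t - (Sm w c (om t) + chi t * conj (Sm w c (om t)))
          = (ze t - (Sm w c (om t) + chi t * conj (Sm w a (om t))))
            + chi t * conj (Sm w a (om t) - Sm w c (om t)) := by
        rw [map_sub]
        ring
      have e4 : Sm w a (om t) - Sm w c (om t) = (Sm w a (om t) - Sm w c0' (om t))
          - (Sm w c (om t) - Sm w c0' (om t)) := by ring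
      rw [e3]
      refine (norm_add_le _ _).trans ?_
      rw [norm_mul, Pool.Agent.H20.Chi.norm_chi, one_mul, Complex.norm_conj, e4]
      have := norm_sub_le (Sm w a (om t) - Sm w c0' (om t)) (Sm w c (om t) - Sm w c0' (om t))
      linarith
    obtain ⟨p, hp⟩ : ∃ p : ℝ, p = ‖Sm w a (om t) - Sm w c0' (om t)‖ := ⟨_, rfl⟩
    obtain ⟨q, hq⟩ : ∃ q : ℝ, q = ‖Sm w c (om t) - Sm w c0' (om t)‖ := ⟨_, rfl⟩
    have hp0 : 0 ≤ p := by rw [hp]; positivity
    have hq0 : 0 ≤ q := by rw [hq]; positivity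
    rw [← hp, ← hq] at k8 ⊢
    obtain ⟨r, hr⟩ : ∃ r : ℝ, r = C0 * Real.exp (-(1 / 4 * L)) := ⟨_, rfl⟩
    have hr0 : 0 ≤ r := by rw [hr]; positivity
    have hr2 : r ^ 2 = C0 ^ 2 * Real.exp (-(1 / 2 * L)) := by
      rw [hr, mul_pow, ← Real.exp_nat_mul]
      congr 2
      push_cast
      ring
    rw [← hr] at k8
    have k9 : ‖ze t - (Sm w c (om t) + chi t * conj (Sm w c (om t)))‖ ^ 2
        ≤ 3 * p ^ 2 + 3 * q ^ 2 + 3 * r ^ 2 := by
      refine (pow_le_pow_left₀ (norm_nonneg _) k8 2).trans ?_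
      nlinarith [sq_nonneg (p - q), sq_nonneg (p - r), sq_nonneg (q - r)]
    rw [hr2] at k9
    calc _ ≤ A.W ∅ y (om t) * (3 * p ^ 2 + 3 * q ^ 2
          + 3 * (C0 ^ 2 * Real.exp (-(1 / 2 * L)))) := mul_le_mul_of_nonneg_left k9 hWt
      _ = _ := by ring
  -- the three parts
  have hI : volume (Icc c0' (c0' + w)) = ENNReal.ofReal w := by
    rw [Real.volume_Icc]
    congr 1
    ring
  have hJ : volume (Icc c0' (c0' + 41 * w)) = ENNReal.ofReal (41 * w) := by
    rw [Real.volume_Icc]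
    congr 1
    ring
  have hml : Measurable fun q : ℝ × ℝ =>
      (Real.log (q.2 / (2 * Real.pi)) + w - q.1, q.2) := by
    fun_prop
  have hm1 : Measurable fun q : ℝ × ℝ =>
      ENNReal.ofReal (3 * E (Real.log (q.2 / (2 * Real.pi)) + w - q.1) q.2) :=
    ENNReal.measurable_ofReal.comp ((hcE.measurable.comp hml).const_mul 3)
  have hm2 : Measurable fun q : ℝ × ℝ => ENNReal.ofReal (3 * E q.1 q.2) :=
    ENNReal.measurable_ofReal.comp (hcE.measurable.const_mul 3)
  have hm3 : Measurable fun t : ℝ =>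
      ENNReal.ofReal (3 * C0 ^ 2 * Real.exp (-(1 / 2 * L)) * A.W ∅ y (om t)) :=
    ENNReal.measurable_ofReal.comp (hcW.measurable.const_mul _)
  have hK0 : 0 ≤ K := by
    rw [hK]
    positivity
  -- second part
  have p2 : ∀ a ∈ Icc c0' (c0' + 41 * w),
      ∫⁻ t in Rg x T e, ENNReal.ofReal (3 * E a t) ∂(un x T) ≤ ENNReal.ofReal (3 * K) := by
    intro a ha
    calc ∫⁻ t in Rg x T e, ENNReal.ofReal (3 * E a t) ∂(un x T)
        ≤ ∫⁻ t, ENNReal.ofReal (3 * E a t) ∂(un x T) := setLIntegral_le_lintegral _ _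
      _ = ENNReal.ofReal 3 * ∫⁻ t, ENNReal.ofReal (E a t) ∂(un x T) := by
          rw [← lintegral_const_mul']
          · exact lintegral_congr fun t => ENNReal.ofReal_mul (by norm_num)
          · exact ENNReal.ofReal_ne_top
      _ ≤ ENNReal.ofReal 3 * ENNReal.ofReal K := by
          gcongr
          exact hmean a ha
      _ = ENNReal.ofReal (3 * K) := (ENNReal.ofReal_mul (by norm_num)).symm
  have q2 : ∫⁻ c in Icc c0' (c0' + w), ∫⁻ t in Rg x T e, ENNReal.ofReal (3 * E c t) ∂(un x T)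
      ≤ ENNReal.ofReal (3 * K * w) := by
    calc _ ≤ ∫⁻ _ in Icc c0' (c0' + w), ENNReal.ofReal (3 * K) :=
          setLIntegral_mono' measurableSet_Icc fun c hc => p2 c ⟨hc.1, by linarith [hc.2]⟩
      _ = _ := by rw [setLIntegral_const, hI, ← ENNReal.ofReal_mul (by positivity)]
  -- first part
  have q1 : ∫⁻ c in Icc c0' (c0' + w), ∫⁻ t in Rg x T e,
      ENNReal.ofReal (3 * E (Real.log (t / (2 * Real.pi)) + w - c) t) ∂(un x T)
      ≤ ENNReal.ofReal (3 * K * (41 * w)) := by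
    rw [lintegral_lintegral_swap (f := fun c t =>
      ENNReal.ofReal (3 * E (Real.log (t / (2 * Real.pi)) + w - c) t)) hm1.aemeasurable]
    calc _ ≤ ∫⁻ t in Rg x T e, (∫⁻ a in Icc c0' (c0' + 41 * w),
            ENNReal.ofReal (3 * E a t)) ∂(un x T) := by
          refine setLIntegral_mono' measurableSet_Icc fun t ht => ?_
          obtain ⟨k1, k2, k3, k4⟩ := heights hL hx ht
          rw [← hLd] at k3 k4
          refine lint_sub_le (F := fun a => ENNReal.ofReal (3 * E a t)) fun c hc => ?_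
          obtain ⟨hc4, hc5⟩ := hc
          constructor
          · rw [hw20, hc20] at *
            linarith
          · rw [hw20, hc20] at *
            linarith
      _ = ∫⁻ a in Icc c0' (c0' + 41 * w), (∫⁻ t in Rg x T e,
            ENNReal.ofReal (3 * E a t) ∂(un x T)) :=
          (lintegral_lintegral_swap (f := fun a t => ENNReal.ofReal (3 * E a t))
            hm2.aemeasurable).symm
      _ ≤ ∫⁻ _ in Icc c0' (c0' + 41 * w), ENNReal.ofReal (3 * K) :=
          setLIntegral_mono' measurableSet_Icc p2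
      _ = _ := by rw [setLIntegral_const, hJ, ← ENNReal.ofReal_mul (by positivity)]
  -- third part
  obtain ⟨K3, hK3⟩ : ∃ K3 : ℝ, K3 = 3 * C0 ^ 2 * (3 * C5 * C2 + 1) * A.Gs y := ⟨_, rfl⟩
  have hK30 : 0 ≤ K3 := by
    rw [hK3]
    positivity
  have p3 : ∫⁻ t in Rg x T e,
      ENNReal.ofReal (3 * C0 ^ 2 * Real.exp (-(1 / 2 * L)) * A.W ∅ y (om t)) ∂(un x T)
      ≤ ENNReal.ofReal K3 := by
    have g1 := h2 A hA T e hT hL x y ∅ ∅ (Finset.Subset.refl _) (Finset.empty_subset _) 0 (by simp)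
      1 1 (fun _ => 1) le_rfl (Real.one_le_exp (by rw [← hLd]; nlinarith))
      (Real.one_le_exp (by rw [← hLd]; linarith)) (fun _ => zero_le_one)
      (by simpa using TP.one le_rfl)
    simp only [T6.mo_zero, norm_one, one_pow, mul_one, Finset.sum_empty, neg_zero,
      Real.exp_zero, one_mul] at g1
    rw [← hLd] at g1
    have g2 : ∫ z, A.Wg ∅ ∅ y z ∂mu ≤ C5 * A.G y := h5 A hA y
    have g3 := G_le A hA y
    have g4 : A.G y ≤ C2 * L * A.Gs y := by
      refine g3.trans (mul_le_mul_of_nonneg_right (hvt.trans ?_) hGs.le)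
      gcongr
    have g5 : Real.exp (-(1 / 2 * L)) * L ≤ 1 := by
      rw [Real.exp_neg, inv_mul_le_iff₀ (Real.exp_pos _), mul_one]
      have := Real.quadratic_le_exp_of_nonneg (x := 1 / 2 * L) (by linarith)
      nlinarith
    calc _ ≤ ∫⁻ t, ENNReal.ofReal (3 * C0 ^ 2 * Real.exp (-(1 / 2 * L)) * A.W ∅ y (om t))
          ∂(un x T) := setLIntegral_le_lintegral _ _
      _ = ENNReal.ofReal (3 * C0 ^ 2 * Real.exp (-(1 / 2 * L)))
          * ∫⁻ t, ENNReal.ofReal (A.Wg ∅ ∅ y (om t)) ∂(un x T) := by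
          rw [← lintegral_const_mul']
          · exact lintegral_congr fun t => ENNReal.ofReal_mul (by positivity)
          · exact ENNReal.ofReal_ne_top
      _ ≤ ENNReal.ofReal (3 * C0 ^ 2 * Real.exp (-(1 / 2 * L)))
          * ENNReal.ofReal (3 * (∫ z, A.Wg ∅ ∅ y z ∂mu) + A.Gs y / L ^ 10) := by
          gcongr
      _ = ENNReal.ofReal (3 * C0 ^ 2 * Real.exp (-(1 / 2 * L))
          * (3 * (∫ z, A.Wg ∅ ∅ y z ∂mu) + A.Gs y / L ^ 10)) :=
          (ENNReal.ofReal_mul (by positivity)).symm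
      _ ≤ _ := by
          refine ENNReal.ofReal_le_ofReal ?_
          calc 3 * C0 ^ 2 * Real.exp (-(1 / 2 * L))
                * (3 * (∫ z, A.Wg ∅ ∅ y z ∂mu) + A.Gs y / L ^ 10)
              ≤ 3 * C0 ^ 2 * Real.exp (-(1 / 2 * L))
                * (3 * (C5 * (C2 * L * A.Gs y)) + L * A.Gs y) := by
                have g6 : A.Gs y / L ^ 10 ≤ L * A.Gs y :=
                  hL10.trans (le_mul_of_one_le_left hGs.le (by linarith))
                have g7 : ∫ z, A.Wg ∅ ∅ y z ∂mu ≤ C5 * (C2 * L * A.Gs y) :=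
                  g2.trans (mul_le_mul_of_nonneg_left g4 hC5)
                refine mul_le_mul_of_nonneg_left ?_ (by positivity)
                linarith
            _ = 3 * C0 ^ 2 * (3 * C5 * C2 + 1) * A.Gs y * (Real.exp (-(1 / 2 * L)) * L) := by ring
            _ ≤ 3 * C0 ^ 2 * (3 * C5 * C2 + 1) * A.Gs y * 1 := by
                gcongr
            _ = K3 := by rw [hK3, mul_one]
  have q3 : ∫⁻ _ in Icc c0' (c0' + w), ∫⁻ t in Rg x T e,
      ENNReal.ofReal (3 * C0 ^ 2 * Real.exp (-(1 / 2 * L)) * A.W ∅ y (om t)) ∂(un x T)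
      ≤ ENNReal.ofReal (K3 * w) := by
    calc _ ≤ ∫⁻ _ in Icc c0' (c0' + w), ENNReal.ofReal K3 :=
          setLIntegral_mono' measurableSet_Icc fun c hc => p3
      _ = _ := by rw [setLIntegral_const, hI, ← ENNReal.ofReal_mul (by positivity)]
  -- assembly
  have hsum : ∫⁻ c in Icc c0' (c0' + w), ∫⁻ t in Rg x T e, ENNReal.ofReal (A.W ∅ y (om t)
      * ‖ze t - (Sm w c (om t) + chi t * conj (Sm w c (om t)))‖ ^ 2) ∂(un x T)
      ≤ ENNReal.ofReal (3 * K * (41 * w)) + (ENNReal.ofReal (3 * K * w)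
        + ENNReal.ofReal (K3 * w)) := by
    have hm1' : Measurable fun c : ℝ => ∫⁻ t in Rg x T e,
        ENNReal.ofReal (3 * E (Real.log (t / (2 * Real.pi)) + w - c) t) ∂(un x T) :=
      Measurable.lintegral_prod_right' (f := fun q : ℝ × ℝ =>
        ENNReal.ofReal (3 * E (Real.log (q.2 / (2 * Real.pi)) + w - q.1) q.2)) hm1
    have hm2' : Measurable fun c : ℝ => ∫⁻ t in Rg x T e, ENNReal.ofReal (3 * E c t) ∂(un x T) :=
      Measurable.lintegral_prod_right' (f := fun q : ℝ × ℝ => ENNReal.ofReal (3 * E q.1 q.2)) hm2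
    calc _ ≤ ∫⁻ c in Icc c0' (c0' + w), ∫⁻ t in Rg x T e,
          (ENNReal.ofReal (3 * E (Real.log (t / (2 * Real.pi)) + w - c) t)
          + (ENNReal.ofReal (3 * E c t)
          + ENNReal.ofReal (3 * C0 ^ 2 * Real.exp (-(1 / 2 * L)) * A.W ∅ y (om t)))) ∂(un x T) :=
          setLIntegral_mono' measurableSet_Icc fun c hc =>
            setLIntegral_mono' measurableSet_Icc fun t ht => hpt c hc t ht
      _ = ∫⁻ c in Icc c0' (c0' + w), ((∫⁻ t in Rg x T e,
            ENNReal.ofReal (3 * E (Real.log (t / (2 * Real.pi)) + w - c) t) ∂(un x T))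
          + ((∫⁻ t in Rg x T e, ENNReal.ofReal (3 * E c t) ∂(un x T))
          + ∫⁻ t in Rg x T e,
            ENNReal.ofReal (3 * C0 ^ 2 * Real.exp (-(1 / 2 * L)) * A.W ∅ y (om t)) ∂(un x T))) := by
          refine lintegral_congr fun c => ?_
          have hm1c : Measurable fun t : ℝ =>
              ENNReal.ofReal (3 * E (Real.log (t / (2 * Real.pi)) + w - c) t) :=
            hm1.comp (g := fun q : ℝ × ℝ =>
              ENNReal.ofReal (3 * E (Real.log (q.2 / (2 * Real.pi)) + w - q.1) q.2))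
              (f := fun t : ℝ => ((c, t) : ℝ × ℝ)) (measurable_const.prodMk measurable_id)
          rw [lintegral_add_left hm1c, lintegral_add_right _ hm3]
      _ = (∫⁻ c in Icc c0' (c0' + w), ∫⁻ t in Rg x T e,
            ENNReal.ofReal (3 * E (Real.log (t / (2 * Real.pi)) + w - c) t) ∂(un x T))
          + ((∫⁻ c in Icc c0' (c0' + w), ∫⁻ t in Rg x T e, ENNReal.ofReal (3 * E c t) ∂(un x T))
          + ∫⁻ _ in Icc c0' (c0' + w), ∫⁻ t in Rg x T e,
            ENNReal.ofReal (3 * C0 ^ 2 * Real.exp (-(1 / 2 * L)) * A.W ∅ y (om t)) ∂(un x T)) := by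
          rw [lintegral_add_left hm1', lintegral_add_left hm2']
      _ ≤ _ := add_le_add q1 (add_le_add q2 q3)
  refine hsum.trans ?_
  rw [← ENNReal.ofReal_add (by positivity) (by positivity),
    ← ENNReal.ofReal_add (by positivity) (by positivity)]
  refine ENNReal.ofReal_le_ofReal ?_
  have hw20' : e * L = 20 * w := by
    rw [hw20]
    ring
  rw [hK, hK3, hw20']
  have z1 : 0 ≤ (3 * C1 * C2 + 1) * A.Gs y := by positivity
  have z2 : 0 ≤ 3 * C0 ^ 2 * (3 * C5 * C2 + 1) * A.Gs y := by positivity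
  have z3 : 3 * C0 ^ 2 * (3 * C5 * C2 + 1) * A.Gs y
      ≤ 3 * C0 ^ 2 * (3 * C5 * C2 + 1) * A.Gs y * (20 * w) :=
    le_mul_of_one_le_right z2 (by linarith)
  have z4 : 0 ≤ (3 * C1 * C2 + 1) * A.Gs y * w := by positivity
  have z5 : 0 ≤ A.Gs y * w := by positivity
  have key : 3 * ((3 * C1 * C2 + 1) * (w * A.Gs y)) * 41
      + (3 * ((3 * C1 * C2 + 1) * (w * A.Gs y)) + 3 * C0 ^ 2 * (3 * C5 * C2 + 1) * A.Gs y)
      ≤ (7 * (3 * C1 * C2 + 1) + 3 * C0 ^ 2 * (3 * C5 * C2 + 1) + 1) * (20 * w) * A.Gs y := by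
    nlinarith
  calc _ = w * (3 * ((3 * C1 * C2 + 1) * (w * A.Gs y)) * 41
      + (3 * ((3 * C1 * C2 + 1) * (w * A.Gs y))
        + 3 * C0 ^ 2 * (3 * C5 * C2 + 1) * A.Gs y)) := by ring
    _ ≤ w * ((7 * (3 * C1 * C2 + 1) + 3 * C0 ^ 2 * (3 * C5 * C2 + 1) + 1) * (20 * w)
        * A.Gs y) := mul_le_mul_of_nonneg_left key hw0.le

end Pool.Agent.Lib.G2
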