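import Mathlib
import Pool.Agent.Lib.MP_f9aece_nt_g2.StmtsZ
import Pool.Agent.Lib.MP_f9aece_nt_g2.Cont
import Pool.Agent.Lib.MP_f9aece_nt_g2.SmB
import Pool.Agent.Lib.MP_f9aece_nt_g2.T6
import Pool.Agent.Lib.MP_f9aece_nt_g2.Z2
import Pool.Agent.Lib.MP_f9aece_nt_gt.D6a

/-!
Z3: the mean of the windows under the measure `|zeta| ^ 2 / log T`.
-/

set_option autoImplicit false

namespace Pool.Agent.Lib.G2

open MeasureTheory Set Filter Topology Complex ProbabilityTheory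
open scoped ComplexConjugate
open Pool.Agent.Lib.GT
open Pool.Agent.H20.Chi (chi)

namespace Z3

/-- the square of a near value -/
lemma sq_near {z Z : ℂ} {s th : ℝ} (hth : 0 < th) (hs : 0 ≤ s) (hZ : ‖Z‖ ≤ 2 * s) :
    |‖z‖ ^ 2 - ‖Z‖ ^ 2| ≤ (1 + 2 / th) * ‖z - Z‖ ^ 2 + 2 * th * s ^ 2 := by
  obtain ⟨d, hd⟩ : ∃ d : ℝ, d = ‖z - Z‖ := ⟨_, rfl⟩
  have hd0 : 0 ≤ d := by
    rw [hd]
    positivity
  have h1 : |‖z‖ - ‖Z‖| ≤ d := by
    rw [hd]
    exact abs_norm_sub_norm_le z Z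
  rw [← hd]
  have hz := norm_nonneg z
  have hZ0 := norm_nonneg Z
  have h2 : ‖z‖ + ‖Z‖ ≤ d + 4 * s := by
    have := (abs_le.mp h1).2
    linarith
  have h3 : |‖z‖ ^ 2 - ‖Z‖ ^ 2| ≤ d * (d + 4 * s) := by
    have e1 : ‖z‖ ^ 2 - ‖Z‖ ^ 2 = (‖z‖ - ‖Z‖) * (‖z‖ + ‖Z‖) := by ring
    rw [e1, abs_mul, abs_of_nonneg (by linarith : 0 ≤ ‖z‖ + ‖Z‖)]
    exact mul_le_mul h1 h2 (by linarith) hd0
  have h4 : 4 * d * s ≤ 2 / th * d ^ 2 + 2 * th * s ^ 2 := by
    have e2 : 2 / th * d ^ 2 + 2 * th * s ^ 2 - 4 * d * s = 2 / th * (d - th * s) ^ 2 := by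
      field_simp
      ring
    have e3 : 0 ≤ 2 / th * (d - th * s) ^ 2 := by positivity
    linarith
  have h5 : (1 + 2 / th) * d ^ 2 = d ^ 2 + 2 / th * d ^ 2 := by ring
  have h6 : d * (d + 4 * s) = d ^ 2 + 4 * d * s := by ring
  rw [h5]
  linarith

/-- the square of the sum and its dual -/
lemma norm_sq_Z {s χ : ℂ} (hχ : ‖χ‖ = 1) :
    ‖s + χ * conj s‖ ^ 2 = 2 * ‖s‖ ^ 2 + 2 * (conj χ * s ^ 2).re := by
  have h1 : Complex.normSq (s + χ * conj s) = Complex.normSq s + Complex.normSq (χ * conj s)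
      + 2 * (s * conj (χ * conj s)).re := Complex.normSq_add _ _
  have h2 : s * conj (χ * conj s) = conj χ * s ^ 2 := by
    rw [map_mul, Complex.conj_conj]
    ring
  have h3 : ‖χ * conj s‖ = ‖s‖ := by
    rw [norm_mul, hχ, one_mul, Complex.norm_conj]
  rw [Complex.normSq_eq_norm_sq, Complex.normSq_eq_norm_sq, Complex.normSq_eq_norm_sq, h2, h3] at h1
  rw [h1]
  ring

lemma norm_Z_le {s χ : ℂ} (hχ : ‖χ‖ = 1) : ‖s + χ * conj s‖ ≤ 2 * ‖s‖ := by
  refine (norm_add_le _ _).trans ?_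
  rw [norm_mul, hχ, one_mul, Complex.norm_conj]
  linarith

/-- from lower integrals to integrals -/
lemma int_le {μ : Measure ℝ} {f : ℝ → ℝ} (hf : Continuous f) (h0 : ∀ t, 0 ≤ f t) {K : ℝ}
    (hK : 0 ≤ K) (h : ∫⁻ t, ENNReal.ofReal (f t) ∂μ ≤ ENNReal.ofReal K) : ∫ t, f t ∂μ ≤ K := by
  rw [integral_eq_lintegral_of_nonneg_ae (Eventually.of_forall h0) hf.aestronglyMeasurable]
  exact ENNReal.toReal_le_of_le_ofReal hK h

/-- a value below twice the mean -/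
lemma exists_le {F : ℝ → ENNReal} {c w K : ℝ} (hw : 0 < w) (hK : 0 < K)
    (h : ∫⁻ a in Icc c (c + w), F a ≤ ENNReal.ofReal (w * K)) :
    ∃ a ∈ Icc c (c + w), F a ≤ ENNReal.ofReal (2 * K) := by
  by_contra hn
  push Not at hn
  have h1 : ∫⁻ _ in Icc c (c + w), ENNReal.ofReal (2 * K) ≤ ∫⁻ a in Icc c (c + w), F a :=
    setLIntegral_mono' measurableSet_Icc fun a ha => (hn a ha).le
  rw [setLIntegral_const, Real.volume_Icc, add_sub_cancel_left,
    ← ENNReal.ofReal_mul (by positivity)] at h1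
  have h2 := h1.trans h
  rw [ENNReal.ofReal_le_ofReal_iff (by positivity)] at h2
  nlinarith [mul_pos hw hK]

/-- the Gaussian integral of the window -/
lemma H_le (hG : WGauss) : ∃ C : ℝ, 0 ≤ C ∧ ∀ A : Par, A.Ok → ∀ y : ℝ,
    |∫ z, HH A.be A.b (y - A.sg * A.vt) z ∂(gaussianReal 0 (Real.toNNReal A.s2))|
      ≤ C * A.Gs y := by
  obtain ⟨C, hC, hG⟩ := hG
  refine ⟨C, hC, fun A hA y => ?_⟩
  obtain ⟨h1, h2, -⟩ := hG A hA (y - A.sg * A.vt)
  refine le_trans ?_ h2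
  have hb := hA.b_pos
  have hc := Par.c0_nonneg
  have hbc : 0 ≤ A.b / c0 := by positivity
  rw [← Real.norm_eq_abs, ← Complex.norm_real, ← h1, norm_mul, Complex.norm_real,
    Real.norm_of_nonneg hbc]
  refine mul_le_mul_of_nonneg_left ?_ hbc
  refine norm_integral_le_of_norm_le ?_ (Eventually.of_forall fun w => le_of_eq ?_)
  · apply D6.integrable_me
    have := continuous_phi
    fun_prop
  · rw [norm_mul, Complex.norm_real, Real.norm_of_nonneg (mul_nonneg (phi_nonneg _) (phi_nonneg _)),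
      ← Complex.exp_add, Complex.norm_exp]
    congr 2
    have e1 : -((A.zz w.1 + conj (A.zz w.2)) * ((y - A.sg * A.vt : ℝ) : ℂ))
        + (A.zz w.1 + conj (A.zz w.2)) ^ 2 * A.vt / 4
        = ((-(A.be * (y - A.sg * A.vt)) + (A.be ^ 2 - A.b ^ 2 * (w.1 - w.2) ^ 2) * A.vt / 4 : ℝ) : ℂ)
          + I * ((-((A.b * (w.1 - w.2)) * (y - A.sg * A.vt))
            + A.be * (A.b * (w.1 - w.2)) * A.vt / 2 : ℝ) : ℂ) := by
      rw [T6.zz_add]
      push_cast
      linear_combination ((A.b : ℂ) ^ 2 * ((w.1 : ℂ) - w.2) ^ 2 * A.vt / 4) * Complex.I_sq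
    rw [e1, Complex.add_re, Complex.ofReal_re, Complex.mul_re, Complex.I_re, Complex.I_im,
      Complex.ofReal_im, zero_mul, mul_zero, sub_zero, add_zero]

/-- the density -/
lemma integral_nu (x : ℝ) {T : ℝ} (hT : 0 < Real.log T) (F : ℝ → ℝ) :
    ∫ t, F t ∂(nu x T) = 1 / Real.log T * ∫ t, F t * ‖ze t‖ ^ 2 ∂(un x T) := by
  have hz : Measurable fun t => ENNReal.ofReal (‖ze t‖ ^ 2 / Real.log T) :=
    ENNReal.measurable_ofReal.comp ((SmB.continuous_ze.norm.pow 2).measurable.div_const _)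
  unfold nu
  rw [integral_withDensity_eq_integral_toReal_smul hz
    (Eventually.of_forall fun t => ENNReal.ofReal_lt_top), ← integral_const_mul]
  refine integral_congr_ae (Eventually.of_forall fun t => ?_)
  beta_reduce
  rw [ENNReal.toReal_ofReal (by positivity), smul_eq_mul]
  field_simp

/-- the bound for the mean of the square of the sum -/
lemma e_bound {E m c H L G C2 C2' C3 a th δ Er : ℝ} (hL : 1 ≤ L) (hG : 0 < G) (hC2 : 1 ≤ C2)
    (hC2' : 1 ≤ C2') (hC3 : 0 ≤ C3) (ha3 : a ≤ 3) (hth1 : th ≤ 1) (hc3 : 0 ≤ c) (hc4 : c ≤ L / 2)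
    (g6 : |H| ≤ C3 * G) (r12 : |E - m| ≤ δ) (r13 : |m - c * H| ≤ Er)
    (r14 : Er ≤ (C2 * a * (L / 2) + C2' * (21 / 20 * (th * L))) * G) (hδ1 : δ ≤ G) :
    E ≤ L * G * (C3 + 3 * C2 + 2 * C2' + 1) := by
  have hL0 : 0 < L := by linarith
  have k1 := (abs_le.mp r12).2
  have k2 := (abs_le.mp r13).2
  have k3 := (abs_le.mp g6).2
  have k5 : 0 ≤ C3 * G := by positivity
  have k4 : c * H ≤ L * (C3 * G) := by
    calc c * H ≤ c * (C3 * G) := mul_le_mul_of_nonneg_left k3 hc3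
      _ ≤ L * (C3 * G) := mul_le_mul_of_nonneg_right (by linarith) k5
  have k6 : (C2 * a * (L / 2) + C2' * (21 / 20 * (th * L))) * G
      ≤ (C2 * 3 * (L / 2) + C2' * (21 / 20 * (1 * L))) * G := by
    gcongr
  have k7 : G ≤ L * G := le_mul_of_one_le_left hG.le hL
  have k8 : (C2 * 3 * (L / 2) + C2' * (21 / 20 * (1 * L))) * G
      = 3 / 2 * (C2 * (L * G)) + 21 / 20 * (C2' * (L * G)) := by ring
  have k9 : 0 ≤ C2 * (L * G) := by positivity
  have k10 : 0 ≤ C2' * (L * G) := by positivity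
  have k11 : L * G * (C3 + 3 * C2 + 2 * C2' + 1) = L * (C3 * G) + 3 * (C2 * (L * G))
      + 2 * (C2' * (L * G)) + L * G := by ring
  rw [k11]
  linarith

/-- the numbers together -/
lemma arith {M MR MC ZR DR E ER EC XR m c H L G C1 C2 C2' C3 a th e δ Er : ℝ} (hL0 : 0 < L)
    (hL : 1 ≤ L) (hG : 0 < G) (hC1 : 1 ≤ C1) (hC2 : 1 ≤ C2) (hC2' : 1 ≤ C2') (hC3 : 0 ≤ C3)
    (ha0 : 0 ≤ a) (ha3 : a ≤ 3) (he : 0 < e) (hth0 : 0 < th) (hthe : th * th = e) (hth1 : th ≤ 1)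
    (heth : e ≤ th) (hc3 : 0 ≤ c) (hc4 : c ≤ L / 2) (n2 : 4 * 10 ^ 10 ≤ e * L)
    (g6 : |H| ≤ C3 * G) (r1 : M = MR + MC) (r2 : E = ER + EC) (r3 : 0 ≤ MC) (r4 : MC ≤ δ)
    (r5 : 0 ≤ EC) (r6 : EC ≤ δ) (r7 : 0 ≤ ER) (r8 : DR ≤ 2 * (C1 * (e * L) * G)) (r9 : |XR| ≤ δ)
    (r10 : ZR = 2 * ER + 2 * XR) (r11 : |MR - ZR| ≤ (1 + 2 / th) * DR + 2 * th * ER)
    (r12 : |E - m| ≤ δ) (r13 : |m - c * H| ≤ Er)
    (r14 : Er ≤ (C2 * a * (L / 2) + C2' * (21 / 20 * (th * L))) * G) (hδ1 : δ ≤ G)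
    (hc7 : |2 * c - L| ≤ 2 * (e * L)) :
    |1 / L * M - H| ≤ (C2 * a + (6 * C1 + 2 * (C3 + 3 * C2 + 2 * C2' + 1) + 4 * C2' + 2 * C3 + 8)
      * th) * G := by
  have hE1 := e_bound hL hG hC2 hC2' hC3 ha3 hth1 hc3 hc4 g6 r12 r13 r14 hδ1
  have heL : e * L ≤ th * L := mul_le_mul_of_nonneg_right heth hL0.le
  have hthL : 0 ≤ th * L := by positivity
  have hδ2 : δ ≤ G * (th * L) / 100 := by
    have k1 : 1 ≤ th * L / 100 := by linarith
    have k2 : G ≤ G * (th * L / 100) := le_mul_of_one_le_right hG.le k1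
    linarith
  have t1 : (1 + 2 / th) * DR ≤ 6 * C1 * (th * L) * G := by
    have k1 : (1 + 2 / th) * DR ≤ (1 + 2 / th) * (2 * (C1 * (e * L) * G)) :=
      mul_le_mul_of_nonneg_left r8 (by positivity)
    have k2 : (1 + 2 / th) * (2 * (C1 * (e * L) * G))
        = 2 * C1 * (e * L) * G + 4 * C1 * (th * L) * G := by
      rw [← hthe]
      field_simp
      ring
    have k3 : 2 * C1 * (e * L) * G ≤ 2 * C1 * (th * L) * G := by
      gcongr
    have k4 : 6 * C1 * (th * L) * G = 2 * C1 * (th * L) * G + 4 * C1 * (th * L) * G := by ring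
    rw [k4]
    linarith
  have t2 : 2 * th * ER ≤ 2 * (C3 + 3 * C2 + 2 * C2' + 1) * (th * L) * G := by
    have k1 : ER ≤ E := by linarith
    have k2 : 2 * th * ER ≤ 2 * th * (L * G * (C3 + 3 * C2 + 2 * C2' + 1)) :=
      mul_le_mul_of_nonneg_left (k1.trans hE1) (by positivity)
    refine k2.trans (le_of_eq ?_)
    ring
  have t3 : |2 * c * H - L * H| ≤ 2 * C3 * (th * L) * G := by
    have k1 : 2 * c * H - L * H = (2 * c - L) * H := by ring
    rw [k1, abs_mul]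
    calc |2 * c - L| * |H| ≤ 2 * (e * L) * (C3 * G) :=
          mul_le_mul hc7 g6 (abs_nonneg _) (by positivity)
      _ ≤ 2 * (th * L) * (C3 * G) := by gcongr
      _ = _ := by ring
  have t4 : |M - L * H| ≤ (C2 * a * L + (6 * C1 + 2 * (C3 + 3 * C2 + 2 * C2' + 1) + 4 * C2'
      + 2 * C3 + 8) * (th * L)) * G := by
    have k1 := abs_le.mp r11
    have k2 := abs_le.mp r9
    have k3 := abs_le.mp r12
    have k4 := abs_le.mp r13
    have k5 := abs_le.mp t3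
    have k6 : (C2 * a * L + (6 * C1 + 2 * (C3 + 3 * C2 + 2 * C2' + 1) + 4 * C2'
      + 2 * C3 + 8) * (th * L)) * G = 2 * ((C2 * a * (L / 2) + C2' * (21 / 20 * (th * L))) * G)
      + 6 * C1 * (th * L) * G + 2 * (C3 + 3 * C2 + 2 * C2' + 1) * (th * L) * G
      + 2 * C3 * (th * L) * G + (C2' * (19 / 10) * (G * (th * L)) + 8 * (G * (th * L))) := by ring
    have k7 : 0 ≤ C2' * (19 / 10) * (G * (th * L)) := by positivity
    have k8 : 0 ≤ G * (th * L) := by positivity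
    rw [k6, abs_le]
    constructor
    · linarith [k1.1, k2.1, k3.1, k4.1, k5.1]
    · linarith [k1.2, k2.2, k3.2, k4.2, k5.2]
  have t5 : 1 / L * M - H = (M - L * H) / L := by
    field_simp
  rw [t5, abs_div, abs_of_pos hL0, div_le_iff₀ hL0]
  refine t4.trans (le_of_eq ?_)
  ring

end Z3

open Z3

/-- Z3 -/
theorem nuMain (h1 : NearE) (h2 : UnMean) (h3 : Cross) (h4 : SmallT) (h5 : SmMain)
    (h6 : WGauss) : NuMain := by
  obtain ⟨T2, hT2, h2⟩ := h2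
  obtain ⟨T3, hT3, h3⟩ := h3
  obtain ⟨T4, hT4, h4⟩ := h4
  obtain ⟨C2, hC2, h5⟩ := h5
  obtain ⟨C3, hC3, h6⟩ := H_le h6
  refine ⟨C2, hC2, fun p0 hp0 => ?_⟩
  obtain ⟨C1, T1, hC1, hT1, h1⟩ := h1 p0 hp0
  obtain ⟨C2', hC2', h5⟩ := h5 p0 hp0
  refine ⟨6 * C1 + 2 * (C3 + 3 * C2 + 2 * C2' + 1) + 4 * C2' + 2 * C3 + 8,
    max (max T1 T2) (max T3 T4), by linarith,
    hT1.trans ((le_max_left _ _).trans (le_max_left _ _)), fun A hA hAp T e hT hL x y hx => ?_⟩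
  have hTa : T1 ≤ T := ((le_max_left _ _).trans (le_max_left _ _)).trans hT
  have hTb : T2 ≤ T := ((le_max_right _ _).trans (le_max_left _ _)).trans hT
  have hTc : T3 ≤ T := ((le_max_left _ _).trans (le_max_right _ _)).trans hT
  have hTd : T4 ≤ T := ((le_max_right _ _).trans (le_max_right _ _)).trans hT
  obtain ⟨n1, n2, n3, n4⟩ := Z2.nums hA hL
  have hTp : 0 < T := by linarith [hL.hT]
  have he := hL.he
  have he1 := hL.he1
  have hprob := prob_un x hTp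
  have hG := hA.Gs_pos y
  have hY1 := hA.hY
  have hv : (4 : ℝ) ≤ A.v := by exact_mod_cast hA.hv
  have hp : (1000 : ℝ) ≤ A.p0 := by exact_mod_cast hA.hp
  -- `v * Y ≤ w`
  have n5 : A.v * A.Y ≤ wd T e := by
    have k1 : A.v * A.Y ≤ A.KY := by
      unfold Par.KY
      have hi : (0 : ℝ) ≤ A.i := Nat.cast_nonneg _
      nlinarith [mul_nonneg (mul_nonneg (by linarith : (0 : ℝ) ≤ A.v) hi)
        (by linarith : (0 : ℝ) ≤ A.Y)]
    have k2 := hL.hK
    have k3 : 0 ≤ A.v * A.Y := by nlinarith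
    have k4 : wd T e = e * Real.log T / 20 := rfl
    rw [k4]
    linarith
  have hxT : |x| ≤ T := by
    refine hx.trans ?_
    calc T ^ (9 / 10 : ℝ) ≤ T ^ (1 : ℝ) :=
          Real.rpow_le_rpow_of_exponent_le (by linarith [hL.hT]) (by norm_num)
      _ = T := Real.rpow_one T
  have g1 := h1 A hA hAp T e hTa hL x y hx
  have g2 := h2 A hA T e hTb hL x y
  have g3 := h3 A hA T e hTc hL x y
  have g4 := h4 A hA T e hTd hL x y hx ∅ ∅ (Finset.Subset.refl _) (Finset.empty_subset _)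
  have g6 := h6 A hA y
  simp only [Finset.sum_empty, neg_zero, Real.exp_zero, one_mul] at g4
  obtain ⟨g4, g4'⟩ := g4
  have hlog : 0 < Real.log T := by linarith
  rw [integral_nu x hlog]
  obtain ⟨L, hLd⟩ : ∃ L : ℝ, L = Real.log T := ⟨_, rfl⟩
  obtain ⟨w, hwd⟩ : ∃ w : ℝ, w = wd T e := ⟨_, rfl⟩
  obtain ⟨c0', hcd⟩ : ∃ c0' : ℝ, c0' = cd T e := ⟨_, rfl⟩
  obtain ⟨H, hH⟩ : ∃ H : ℝ, H = ∫ z, HH A.be A.b (y - A.sg * A.vt) z
    ∂(gaussianReal 0 (Real.toNNReal A.s2)) := ⟨_, rfl⟩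
  obtain ⟨G, hGd⟩ : ∃ G : ℝ, G = A.Gs y := ⟨_, rfl⟩
  obtain ⟨ρ, hρ⟩ : ∃ ρ : Measure ℝ, ρ = un x T := ⟨_, rfl⟩
  obtain ⟨R, hR⟩ : ∃ R : Set ℝ, R = Rg x T e := ⟨_, rfl⟩
  have hRm : MeasurableSet R := by
    rw [hR]
    exact measurableSet_Icc
  have hw20 : w = e * L / 20 := by
    rw [hwd, hLd]
    rfl
  have hc20 : c0' = (1 / 2 - e) * L := by
    rw [hcd, hLd]
    rfl
  rw [← hLd] at n1 n2 n4 g1 g2 g3 g4 g4' ⊢
  rw [← hwd] at n3 n5 g1 g3 g4'
  rw [← hcd] at g1 g3 g4'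
  rw [← hρ] at g1 g2 g3 g4 g4' ⊢
  rw [← hR] at g1 g3 g4 g4'
  rw [← hGd] at hG g1 g2 g3 g4 g4' g6 ⊢
  rw [← hH] at g6 ⊢
  have heL : e * L ≤ 1 / 100 * L := mul_le_mul_of_nonneg_right he1 (by linarith)
  have hw0 : 0 < w := by
    rw [hw20]
    linarith
  -- the choice of the length
  have hK0 : 0 < C1 * (e * L) * G := by positivity
  obtain ⟨c, ⟨hc1, hc2⟩, hD⟩ := exists_le hw0 hK0 g1
  have hc3 : 0 ≤ c := by
    rw [hc20] at hc1
    nlinarith
  have hc4 : c ≤ L / 2 := by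
    rw [hw20, hc20] at hc2
    nlinarith
  have hc5 : 2 * w ≤ c := by
    rw [hc20] at hc1
    rw [hw20]
    nlinarith
  have hc6 : 1 ≤ c := by
    rw [hw20] at hc5
    linarith
  have hc7 : |2 * c - L| ≤ 2 * (e * L) := by
    rw [abs_le]
    rw [hc20] at hc1
    constructor <;> nlinarith
  have hc8 : 2 * c ≤ (1 - 19 / 10 * e) * L := by
    rw [hw20, hc20] at hc2
    nlinarith
  -- the functions
  have hW0 : ∀ t, 0 ≤ A.W ∅ y (om t) := fun t => A.W_nonneg hA.b_pos.le ∅ y _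
  have hcW : Continuous fun t : ℝ => A.W ∅ y (om t) := (A.continuous_W' hA ∅ y).comp continuous_om
  have hcS : Continuous fun t : ℝ => Sm w c (om t) := (SmB.continuous_Sm w c).comp continuous_om
  have hcz : Continuous ze := SmB.continuous_ze
  have hcc : Continuous chi := Pool.Agent.H20.Chi.continuous_chi
  have hcc' : Continuous fun t : ℝ => conj (chi t) := Complex.continuous_conj.comp hcc
  have hint : ∀ f : ℝ → ℝ, Continuous f → Integrable f ρ := fun f hf => by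
    rw [hρ]
    exact SmB.int_un x hTp hf
  have hintc : ∀ f : ℝ → ℂ, Continuous f → Integrable f ρ := fun f hf => by
    rw [hρ]
    exact SmB.int_un x hTp hf
  obtain ⟨δ, hδ⟩ : ∃ δ : ℝ, δ = G / L ^ 10 := ⟨_, rfl⟩
  have hδ0 : 0 < δ := by
    rw [hδ]
    positivity
  rw [← hδ] at g2 g3 g4 g4'
  have hcZ : Continuous fun t : ℝ => Sm w c (om t) + chi t * conj (Sm w c (om t)) :=
    hcS.add (hcc.mul (Complex.continuous_conj.comp hcS))
  -- the integrands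
  have c1 : Continuous fun t : ℝ => A.W ∅ y (om t) * ‖ze t‖ ^ 2 := hcW.mul (hcz.norm.pow 2)
  have c2 : Continuous fun t : ℝ => A.W ∅ y (om t)
      * ‖Sm w c (om t) + chi t * conj (Sm w c (om t))‖ ^ 2 := hcW.mul (hcZ.norm.pow 2)
  have c3 : Continuous fun t : ℝ => A.W ∅ y (om t)
      * ‖ze t - (Sm w c (om t) + chi t * conj (Sm w c (om t)))‖ ^ 2 :=
    hcW.mul ((hcz.sub hcZ).norm.pow 2)
  have c4 : Continuous fun t : ℝ => A.W ∅ y (om t) * ‖Sm w c (om t)‖ ^ 2 :=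
    hcW.mul (hcS.norm.pow 2)
  have c5 : Continuous fun t : ℝ => conj (chi t) * Sm w c (om t) ^ 2 * (A.W ∅ y (om t) : ℂ) :=
    (hcc'.mul (hcS.pow 2)).mul (Complex.continuous_ofReal.comp hcW)
  have c6 : Continuous fun t : ℝ => A.W ∅ y (om t) * (conj (chi t) * Sm w c (om t) ^ 2).re :=
    hcW.mul (Complex.continuous_re.comp (hcc'.mul (hcS.pow 2)))
  -- the numbers
  obtain ⟨M, hM⟩ : ∃ M : ℝ, M = ∫ t, A.W ∅ y (om t) * ‖ze t‖ ^ 2 ∂ρ := ⟨_, rfl⟩
  obtain ⟨MR, hMR⟩ : ∃ MR : ℝ, MR = ∫ t in R, A.W ∅ y (om t) * ‖ze t‖ ^ 2 ∂ρ := ⟨_, rfl⟩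
  obtain ⟨MC, hMC⟩ : ∃ MC : ℝ, MC = ∫ t in Rᶜ, A.W ∅ y (om t) * ‖ze t‖ ^ 2 ∂ρ := ⟨_, rfl⟩
  obtain ⟨ZR, hZR⟩ : ∃ ZR : ℝ, ZR = ∫ t in R, A.W ∅ y (om t)
    * ‖Sm w c (om t) + chi t * conj (Sm w c (om t))‖ ^ 2 ∂ρ := ⟨_, rfl⟩
  obtain ⟨DR, hDR⟩ : ∃ DR : ℝ, DR = ∫ t in R, A.W ∅ y (om t)
    * ‖ze t - (Sm w c (om t) + chi t * conj (Sm w c (om t)))‖ ^ 2 ∂ρ := ⟨_, rfl⟩
  obtain ⟨E, hE⟩ : ∃ E : ℝ, E = ∫ t, A.W ∅ y (om t) * ‖Sm w c (om t)‖ ^ 2 ∂ρ := ⟨_, rfl⟩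
  obtain ⟨ER, hER⟩ : ∃ ER : ℝ, ER = ∫ t in R, A.W ∅ y (om t) * ‖Sm w c (om t)‖ ^ 2 ∂ρ := ⟨_, rfl⟩
  obtain ⟨EC, hEC⟩ : ∃ EC : ℝ, EC = ∫ t in Rᶜ, A.W ∅ y (om t) * ‖Sm w c (om t)‖ ^ 2 ∂ρ := ⟨_, rfl⟩
  obtain ⟨XR, hXR⟩ : ∃ XR : ℝ, XR = ∫ t in R, A.W ∅ y (om t)
    * (conj (chi t) * Sm w c (om t) ^ 2).re ∂ρ := ⟨_, rfl⟩
  obtain ⟨m, hm⟩ : ∃ m : ℝ, m = ∫ z, A.W ∅ y z * ‖Sm w c z‖ ^ 2 ∂mu := ⟨_, rfl⟩
  have r1 : M = MR + MC := by
    rw [hM, hMR, hMC, integral_add_compl hRm (hint _ c1)]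
  have r2 : E = ER + EC := by
    rw [hE, hER, hEC, integral_add_compl hRm (hint _ c4)]
  have r3 : 0 ≤ MC := by
    rw [hMC]
    exact integral_nonneg fun t => mul_nonneg (hW0 t) (by positivity)
  have r4 : MC ≤ δ := by
    rw [hMC]
    exact int_le c1 (fun t => mul_nonneg (hW0 t) (by positivity)) hδ0.le g4
  have r5 : 0 ≤ EC := by
    rw [hEC]
    exact integral_nonneg fun t => mul_nonneg (hW0 t) (by positivity)
  have r6 : EC ≤ δ := by
    rw [hEC]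
    exact int_le c4 (fun t => mul_nonneg (hW0 t) (by positivity)) hδ0.le (g4' c hc2)
  have r7 : 0 ≤ ER := by
    rw [hER]
    exact integral_nonneg fun t => mul_nonneg (hW0 t) (by positivity)
  have r8 : DR ≤ 2 * (C1 * (e * L) * G) := by
    rw [hDR]
    exact int_le c3 (fun t => mul_nonneg (hW0 t) (by positivity)) (by positivity) hD
  have r9 : |XR| ≤ δ := by
    have k1 := g3 c hxT hc6 hc2
    refine le_trans ?_ k1
    have k2 : XR = (∫ t in R, conj (chi t) * Sm w c (om t) ^ 2 * (A.W ∅ y (om t) : ℂ) ∂ρ).re := by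
      have k3 : RCLike.re (∫ t in R, conj (chi t) * Sm w c (om t) ^ 2
          * (A.W ∅ y (om t) : ℂ) ∂ρ) = ∫ t in R, RCLike.re (conj (chi t) * Sm w c (om t) ^ 2
          * (A.W ∅ y (om t) : ℂ)) ∂ρ := (integral_re (hintc _ c5).integrableOn).symm
      rw [hXR]
      refine Eq.trans ?_ k3.symm
      refine integral_congr_ae (Eventually.of_forall fun t => ?_)
      change A.W ∅ y (om t) * (conj (chi t) * Sm w c (om t) ^ 2).re
        = (conj (chi t) * Sm w c (om t) ^ 2 * (A.W ∅ y (om t) : ℂ)).re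
      rw [Complex.re_mul_ofReal, mul_comm]
    rw [k2]
    exact Complex.abs_re_le_norm _
  have r10 : ZR = 2 * ER + 2 * XR := by
    rw [hZR, hER, hXR, ← integral_const_mul, ← integral_const_mul, ← integral_add]
    · refine integral_congr_ae (Eventually.of_forall fun t => ?_)
      beta_reduce
      rw [norm_sq_Z (Pool.Agent.H20.Chi.norm_chi t)]
      ring
    · exact (hint _ (continuous_const.mul c4)).integrableOn
    · exact (hint _ (continuous_const.mul c6)).integrableOn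
  -- the approximation
  obtain ⟨th, hth⟩ : ∃ th : ℝ, th = Real.sqrt e := ⟨_, rfl⟩
  have hth0 : 0 < th := by
    rw [hth]
    exact Real.sqrt_pos.mpr he
  have hthe : th * th = e := by
    rw [hth]
    exact Real.mul_self_sqrt he.le
  have hth1 : th ≤ 1 := by nlinarith
  have heth : e ≤ th := by nlinarith
  have r11 : |MR - ZR| ≤ (1 + 2 / th) * DR + 2 * th * ER := by
    rw [hMR, hZR, ← integral_sub (hint _ c1).integrableOn (hint _ c2).integrableOn]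
    have k1 : |∫ t in R, (A.W ∅ y (om t) * ‖ze t‖ ^ 2 - A.W ∅ y (om t)
        * ‖Sm w c (om t) + chi t * conj (Sm w c (om t))‖ ^ 2) ∂ρ|
        ≤ ∫ t in R, ((1 + 2 / th) * (A.W ∅ y (om t)
          * ‖ze t - (Sm w c (om t) + chi t * conj (Sm w c (om t)))‖ ^ 2)
          + 2 * th * (A.W ∅ y (om t) * ‖Sm w c (om t)‖ ^ 2)) ∂ρ := by
      rw [← Real.norm_eq_abs]
      refine norm_integral_le_of_norm_le ?_ (Eventually.of_forall fun t => ?_)
      · exact (hint _ ((continuous_const.mul c3).add (continuous_const.mul c4))).integrableOn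
      · have k2 := sq_near (z := ze t) (Z := Sm w c (om t) + chi t * conj (Sm w c (om t))) hth0
          (norm_nonneg (Sm w c (om t))) (norm_Z_le (Pool.Agent.H20.Chi.norm_chi t))
        rw [Real.norm_eq_abs, ← mul_sub, abs_mul, abs_of_nonneg (hW0 t)]
        calc _ ≤ A.W ∅ y (om t) * ((1 + 2 / th)
              * ‖ze t - (Sm w c (om t) + chi t * conj (Sm w c (om t)))‖ ^ 2
              + 2 * th * ‖Sm w c (om t)‖ ^ 2) := mul_le_mul_of_nonneg_left k2 (hW0 t)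
          _ = _ := by ring
    refine k1.trans (le_of_eq ?_)
    have i3 : Integrable (fun t => (1 + 2 / th) * (A.W ∅ y (om t)
        * ‖ze t - (Sm w c (om t) + chi t * conj (Sm w c (om t)))‖ ^ 2)) (ρ.restrict R) :=
      (hint _ (continuous_const.mul c3)).integrableOn
    have i4 : Integrable (fun t => 2 * th * (A.W ∅ y (om t) * ‖Sm w c (om t)‖ ^ 2))
      (ρ.restrict R) := (hint _ (continuous_const.mul c4)).integrableOn
    rw [integral_add i3 i4, integral_const_mul, integral_const_mul, hDR, hER]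
  -- the torus
  have r12 : |E - m| ≤ δ := by
    have k1 := g2 (Real.exp c) (4 * Real.exp c) (fun z => ((‖Sm w c z‖ ^ 2 : ℝ) : ℂ))
      (Real.one_le_exp hc3) (by
        have e1 : (4 : ℝ) ≤ Real.exp (9 / 10 * (e * L)) := by
          have := Real.add_one_le_exp (9 / 10 * (e * L))
          linarith
        calc 4 * Real.exp c * Real.exp c = 4 * Real.exp (2 * c) := by
              rw [mul_assoc, ← Real.exp_add]
              congr 2
              ring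
          _ ≤ Real.exp (9 / 10 * (e * L)) * Real.exp ((1 - 19 / 10 * e) * L) := by
              gcongr
          _ = Real.exp ((1 - e) * L) := by
              rw [← Real.exp_add]
              congr 1
              ring) (SmB.tp_sm w c)
    have k2 : ∫ t, (A.W ∅ y (om t) : ℂ) * ((‖Sm w c (om t)‖ ^ 2 : ℝ) : ℂ) ∂ρ = (E : ℂ) := by
      rw [hE, ← integral_complex_ofReal]
      refine integral_congr_ae (Eventually.of_forall fun t => ?_)
      beta_reduce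
      rw [Complex.ofReal_mul]
    have k3 : ∫ z, (A.W ∅ y z : ℂ) * ((‖Sm w c z‖ ^ 2 : ℝ) : ℂ) ∂mu = (m : ℂ) := by
      rw [hm, ← integral_complex_ofReal]
      refine integral_congr_ae (Eventually.of_forall fun t => ?_)
      beta_reduce
      rw [Complex.ofReal_mul]
    rw [k2, k3, ← Complex.ofReal_sub, Complex.norm_real] at k1
    exact k1
  obtain ⟨Er, hEr⟩ : ∃ Er : ℝ, Er = (C2 * (Real.exp (-A.v) + 1 / A.p0 + A.Y / w) * c
    + C2' * (w + Real.sqrt (c * A.Y))) * G := ⟨_, rfl⟩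
  have r13 : |m - c * H| ≤ Er := by
    have k1 := h5 A hA hAp w c n3 hc5 y
    rw [← hm, ← hH, ← hGd, ← hEr] at k1
    exact k1
  -- the sizes
  have s1 : Real.exp (-A.v) ≤ 1 := Real.exp_le_one_iff.mpr (by linarith)
  have s2 : 1 / (A.p0 : ℝ) ≤ 1 := by
    rw [div_le_one (by linarith)]
    linarith
  have s3 : A.Y / w ≤ 1 / A.v := by
    rw [div_le_div_iff₀ hw0 (by linarith)]
    linarith
  have s4 : 1 / (A.v : ℝ) ≤ 1 := by
    rw [div_le_one (by linarith)]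
    linarith
  have hv0 : 0 < 1 / (A.v : ℝ) := by
    have : (0 : ℝ) < A.v := by linarith
    positivity
  have hp0' : 0 < 1 / (A.p0 : ℝ) := by
    have : (0 : ℝ) < A.p0 := by linarith
    positivity
  have s5 : Real.sqrt (c * A.Y) ≤ th * L := by
    rw [Real.sqrt_le_left (by positivity)]
    have k1 : A.Y ≤ e * L := by
      rw [hw20] at n3
      nlinarith
    have k2 : (th * L) ^ 2 = L * (e * L) := by
      rw [← hthe]
      ring
    rw [k2]
    have k3 : c ≤ L := by linarith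
    exact mul_le_mul k3 k1 (by linarith) (by linarith)
  have s6 : w ≤ th * L / 20 := by
    rw [hw20]
    have : e * L ≤ th * L := mul_le_mul_of_nonneg_right heth (by linarith)
    linarith
  have hL0 : 0 < L := by linarith
  obtain ⟨a, ha⟩ : ∃ a : ℝ, a = Real.exp (-A.v) + 1 / A.p0 + 1 / A.v := ⟨_, rfl⟩
  have ha0 : 0 ≤ a := by
    have := Real.exp_pos (-(A.v : ℝ))
    linarith
  have ha3 : a ≤ 3 := by linarith
  rw [← ha]
  have r14 : Er ≤ (C2 * a * (L / 2) + C2' * (21 / 20 * (th * L))) * G := by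
    rw [hEr]
    refine mul_le_mul_of_nonneg_right ?_ hG.le
    refine add_le_add ?_ ?_
    · have k1 : Real.exp (-A.v) + 1 / A.p0 + A.Y / w ≤ a := by linarith
      exact mul_le_mul (mul_le_mul_of_nonneg_left k1 (by linarith)) hc4 hc3
        (mul_nonneg (by linarith) ha0)
    · refine mul_le_mul_of_nonneg_left ?_ (by linarith)
      linarith
  have hδ1 : δ ≤ G := by
    rw [hδ]
    exact div_le_self hG.le (one_le_pow₀ (by linarith))
  rw [← hM]
  have fin := arith hL0 (by linarith) hG hC1 hC2 hC2' hC3 ha0 ha3 he hth0 hthe hth1 heth hc3 hc4 n2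
    g6 r1 r2 r3 r4 r5 r6 r7 r8 r9 r10 r11 r12 r13 r14 hδ1 hc7
  rw [hth] at fin
  exact fin

end Pool.Agent.Lib.G2
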