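import Mathlib
import Pool.Agent.Lib.MP_f9aece_nt_g2.M1
import Pool.Agent.Lib.MP_f9aece_nt_gt.E4

/-!
The law of `log |zeta|` under the measure `|zeta| ^ 2`: module Z4, upper bound under the measure
`|zeta| ^ 2 / log T`.
-/

set_option autoImplicit false

namespace Pool.Agent.Lib.G2

open MeasureTheory Set Filter Topology Complex ProbabilityTheory
open scoped ComplexConjugate
open Pool.Agent.Lib.GT

namespace Z4

lemma continuous_ze : Continuous ze := by
  unfold ze
  rw [continuous_iff_continuousAt]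
  intro t
  have h1 : (1 / 2 + I * (t : ℂ) : ℂ) ≠ 1 := by
    intro h
    have := congrArg Complex.re h
    simp at this
  exact ContinuousAt.comp (g := riemannZeta) (f := fun t : ℝ => (1 / 2 + I * t : ℂ))
    (differentiableAt_riemannZeta h1).continuousAt (by fun_prop)

/-- the smooth sums of width `Λ / 20` -/
lemma sm_eq_su (Λ a : ℝ) (x : Om) : Sm (Λ / 20) a x = SU Λ a 0 0 x := by
  unfold Sm SU
  refine Finset.sum_congr rfl fun n _ => ?_
  have h : (-(1 / 2 + ((0 : ℝ) : ℂ) + I * ((0 : ℝ) : ℂ)) : ℂ) = -(1 / 2) := by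
    simp
  rw [h]

/-! ### the plain weights -/

/-- no exponential factors -/
noncomputable def D0 : Dat :=
  ⟨fun _ => 0, fun _ => 0, fun _ => 0, fun _ => 0, fun _ => 0, fun _ => 0⟩

lemma D0_ok : D0.Ok := by
  intro p
  have h1 : 0 ≤ 2 / Real.sqrt p := by positivity
  have h2 : 0 ≤ 1 / Real.sqrt p := by positivity
  refine ⟨?_, ?_, ?_, ?_, ?_, ?_⟩ <;> simp only [D0, norm_zero] <;> assumption

lemma HF_D0 (S : Finset ℕ) (x : Om) : HF S D0 x = 1 := by
  unfold HF D0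
  simp

section

variable {A : Par}

lemma sab_D0 (z z' : ℂ) : sab A.U A.h z z' 0 0 D0 = (z + conj z') ^ 2 * A.vt / 4 := by
  unfold sab D0 Par.vt
  push_cast
  rw [Finset.mul_sum, Finset.sum_div]
  refine Finset.sum_congr rfl fun p _ => ?_
  simp only [map_zero, add_zero]
  ring

lemma zz_sum (η η' : ℝ) : A.zz η + conj (A.zz η') = (A.be : ℂ) + I * (A.b * (η - η') : ℝ) := by
  unfold Par.zz
  rw [map_add, map_div₀, map_mul, map_mul, Complex.conj_I, Complex.conj_ofReal, Complex.conj_ofReal,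
    Complex.conj_ofReal, map_ofNat]
  push_cast
  ring

lemma sq_sz (hA : A.Ok) (η η' : ℝ) : (A.sz η + conj (A.sz η')) ^ 2 =
    (A.zz η + conj (A.zz η')) ^ 2 := by
  have h : A.sz η + conj (A.sz η') = A.sg * (A.zz η + conj (A.zz η')) := by
    unfold Par.sz
    rw [map_mul, Complex.conj_ofReal]
    ring
  rw [h, mul_pow]
  have h2 : (A.sg : ℂ) ^ 2 = 1 := by
    rw [← Complex.ofReal_pow, hA.sg_sq, Complex.ofReal_one]
  rw [h2, one_mul]

lemma re_sq_zz (η η' : ℝ) : ((A.zz η + conj (A.zz η')) ^ 2).re =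
    A.be ^ 2 - A.b ^ 2 * (η - η') ^ 2 := by
  rw [zz_sum, pow_two]
  simp only [Complex.mul_re, Complex.add_re, Complex.add_im, Complex.mul_im, Complex.ofReal_re,
    Complex.ofReal_im, Complex.I_re, Complex.I_im]
  ring

lemma expBd_D0 (hA : A.Ok) : ExpBd A 0 0 D0 0 := by
  intro η η' _ _
  rw [sab_D0, sq_sz hA]
  have e : (A.zz η + conj (A.zz η')) ^ 2 * (A.vt : ℂ) / 4 =
      ((A.vt / 4 : ℝ) : ℂ) * (A.zz η + conj (A.zz η')) ^ 2 := by
    push_cast
    ring
  rw [e, Complex.re_ofReal_mul, re_sq_zz]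
  apply le_of_eq
  ring

lemma small_one : Small A 1 fun _ => 1 :=
  ⟨measurable_const, fun _ _ _ => rfl, fun _ => by simp⟩

/-- `G` and `Gs` -/
lemma G_le_Gs (hN : GroupNum) (hA : A.Ok) (y : ℝ) : A.G y ≤ Real.exp A.KY * A.Gs y := by
  have e : A.G y = A.G (y - A.sg * A.vt) * Real.exp (-(A.be * (y - (y - A.sg * A.vt)))) :=
    A.G_shift _ _
  rw [e, mul_comm]
  have h1 := M1.vt_le hN hA
  have hK := M1.KY_ge hA
  have hbe := hA.hbe
  have hbe1 : A.be ≤ 1 / 20 := hA.hbb.trans hA.hb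
  have hvt : 0 ≤ A.vt := A.vt_nonneg
  have hsg : -(1 : ℝ) ≤ A.sg := by
    rcases hA.hsg with h | h
    · rw [h]
      norm_num
    · rw [h]
  have h9 : -(A.be * A.vt) ≤ A.be * (A.sg * A.vt) := by
    have : 0 ≤ A.be * A.vt := by positivity
    nlinarith
  have h10 : A.be * A.vt ≤ A.KY := by nlinarith
  refine mul_le_mul_of_nonneg_right (Real.exp_le_exp.mpr ?_) (hA.G_pos _).le
  nlinarith

/-- the mollifier with parameter `0` -/
lemma mo_zero (s : Finset ℕ) (x : Om) : A.mo 0 s x = 1 := by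
  unfold Par.mo
  refine Finset.prod_eq_one fun g _ => ?_
  rw [zero_mul, EE.tex_zero]

/-- the mean of the weights on the torus -/
lemma w_mean (hB : WBd) : ∃ CB : ℝ, 0 ≤ CB ∧ ∀ A : Par, A.Ok → GroupNum → ∀ (y : ℝ) (s s' : Finset ℕ),
    s ⊆ s' → s' ⊆ Finset.range A.J →
    ∫ w, A.Wg s s' y w ∂mu
      ≤ CB * Real.exp (-∑ g ∈ s', (A.r g : ℝ)) * (Real.exp A.KY * A.Gs y) := by
  obtain ⟨CB, hCB, hB⟩ := hB
  refine ⟨CB, hCB, fun A hA hN y s s' hss hs => ?_⟩
  have h1 := hB A hA 0 0 (by simp) (by simp) D0 D0_ok 0 (expBd_D0 hA) 1 (fun _ => 1) small_one y s s'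
    hss hs
  have e1 : ∀ w : Om, (A.Wg s s' y w : ℂ) * (A.mo 0 s w * conj (A.mo 0 s w)) * (HF A.U D0 w * 1)
      = ((A.Wg s s' y w : ℝ) : ℂ) := by
    intro w
    rw [mo_zero, map_one, HF_D0]
    ring
  simp only [e1] at h1
  rw [integral_complex_ofReal, Complex.norm_real, mul_one, Real.exp_zero, mul_one] at h1
  have h2 := (le_abs_self _).trans h1
  have h8 : 0 ≤ ∑ g ∈ s', (A.r g : ℝ) := Finset.sum_nonneg fun _ _ => by positivity
  have h11 : Real.exp (-(2 * ∑ g ∈ s', (A.r g : ℝ))) ≤ Real.exp (-∑ g ∈ s', (A.r g : ℝ)) :=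
    Real.exp_le_exp.mpr (by linarith)
  have hG := G_le_Gs hN hA y
  have hG0 := hA.G_pos y
  refine h2.trans ?_
  gcongr

end

/-- the density -/
lemma lintegral_nu (x : ℝ) {T : ℝ} (hT : 0 < Real.log T) {F : ℝ → ℝ} (hF : Measurable F) :
    ∫⁻ t, ENNReal.ofReal (F t) ∂(nu x T)
      = ENNReal.ofReal (1 / Real.log T) * ∫⁻ t, ENNReal.ofReal (F t * ‖ze t‖ ^ 2) ∂(un x T) := by
  have hz : Measurable fun t => ENNReal.ofReal (‖ze t‖ ^ 2 / Real.log T) :=
    ENNReal.measurable_ofReal.comp ((continuous_ze.norm.pow 2).measurable.div_const _)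
  have hF1 : Measurable fun t => ENNReal.ofReal (F t) := ENNReal.measurable_ofReal.comp hF
  unfold nu
  rw [lintegral_withDensity_eq_lintegral_mul _ hz hF1,
    ← lintegral_const_mul' _ _ ENNReal.ofReal_ne_top]
  refine lintegral_congr fun t => ?_
  simp only [Pi.mul_apply]
  rw [← ENNReal.ofReal_mul (by positivity), ← ENNReal.ofReal_mul (by positivity)]
  congr 1
  field_simp

lemma continuous_E {A : Par} (hA : A.Ok) (s s' : Finset ℕ) (y : ℝ) (N : ℕ) (Λ : ℝ) :
    Continuous fun q : ℝ × ℝ => A.Wg s s' y (om q.2) * ‖LM.SN N Λ 0 0 q.1 (om q.2)‖ ^ 2 := by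
  have c1 : Continuous fun q : ℝ × ℝ => om q.2 := continuous_om.comp continuous_snd
  have c2 : Continuous fun q : ℝ × ℝ => ((q.1, om q.2) : ℝ × Om) := continuous_fst.prodMk c1
  have c3 : Continuous fun q : ℝ × ℝ => LM.SN N Λ 0 0 q.1 (om q.2) :=
    Continuous.comp (g := fun z : ℝ × Om => LM.SN N Λ 0 0 z.1 z.2)
      (f := fun q : ℝ × ℝ => ((q.1, om q.2) : ℝ × Om)) (LM.continuous_SN N Λ 0 0) c2
  have c4 : Continuous fun q : ℝ × ℝ => A.Wg s s' y (om q.2) := (A.continuous_Wg' hA s s' y).comp c1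
  exact c4.mul (c3.norm.pow 2)

lemma rpow_eq {T : ℝ} (hT : 0 < T) (e : ℝ) : T ^ e = Real.exp (e * Real.log T) := by
  rw [Real.rpow_def_of_pos hT, mul_comm]

lemma height {T x e t : ℝ} (hT : 0 < T) (hΛ : 200 ≤ Real.log T) (he1 : e ≤ 1 / 100)
    (hx : |x| ≤ T) (ht : t ∈ Rg x T e) :
    Real.exp (9 / 10 * Real.log T) ≤ t ∧ t ≤ 3 * Real.exp (Real.log T) := by
  unfold Rg at ht
  have h1 := abs_le.mp hx
  have ht1 := ht.1
  have ht2 := ht.2
  rw [rpow_eq hT] at ht1
  rw [Real.exp_log hT]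
  constructor
  · refine le_trans (Real.exp_le_exp.mpr ?_) ht1
    nlinarith
  · linarith [h1.2]

end Z4

open Z4

/-- Z4: upper bound under the measure `|zeta| ^ 2 / log T` -/
theorem nuUp (h1 : SmoothAfe) (h2 : GaMean) (h3 : SmUp) (h4 : SmallT) (h5 : Variance) (hB : WBd)
    (hN : GroupNum) : NuUp := by
  obtain ⟨C0, hC0, h1⟩ := h1
  obtain ⟨T2, hT2, h2⟩ := h2
  obtain ⟨T4, hT4, h4⟩ := h4
  obtain ⟨⟨CV, hCV, h5⟩, -⟩ := h5
  obtain ⟨CB, hCB, hB⟩ := w_mean hB
  intro p0 hp0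
  have hp0' : (0 : ℝ) < p0 := by
    have : (1000 : ℝ) ≤ p0 := by exact_mod_cast hp0
    linarith
  obtain ⟨C3, hC3, h3⟩ := h3 p0 hp0
  -- the constants
  set K1 : ℝ := 3 * (C3 * 169 * (Real.exp CV * p0)) + 1 with hK1
  have hK1p : 1 ≤ K1 := by
    have : 0 ≤ 3 * (C3 * 169 * (Real.exp CV * p0)) := by positivity
    linarith
  refine ⟨C0 * K1 + C0 * (3 * CB + 1) + 1, max T2 T4, by
    have : 0 ≤ C0 * K1 := by positivity
    have : 0 ≤ C0 * (3 * CB + 1) := by positivity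
    linarith, hT2.trans (le_max_left _ _), fun A hA hAp T e hT hL x y hx s s' hss hs => ?_⟩
  have hT0' : T2 ≤ T := (le_max_left _ _).trans hT
  have hT4' : T4 ≤ T := (le_max_right _ _).trans hT
  have hTp : 0 < T := by linarith
  obtain ⟨hΛ1, hΛ2⟩ := M1.log_ge hA hL
  have hK := M1.KY_ge hA
  have hYK := M1.Y_le_KY hA
  have hprob := prob_un x hTp
  have hY1 := hA.hY
  have hY0 : 0 < A.Y := by linarith
  have hG := hA.Gs_pos y
  have he := hL.he
  have he1 := hL.he1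
  have hx' : |x| ≤ T := by
    refine hx.trans ?_
    calc T ^ (9 / 10 : ℝ) ≤ T ^ (1 : ℝ) :=
          Real.rpow_le_rpow_of_exponent_le (by linarith [hL.hT]) (by norm_num)
      _ = T := Real.rpow_one T
  set Λ : ℝ := Real.log T with hΛ
  have hΛ200 : 200 ≤ Λ := by linarith
  have hΛ0 : 0 < Λ := by linarith
  have hYΛ : A.Y ≤ Λ / 20 := by linarith
  set R : ℝ := ∑ g ∈ s', (A.r g : ℝ) with hR
  have hR0 : 0 ≤ R := Finset.sum_nonneg fun _ _ => by positivity
  have hW0 : ∀ z, 0 ≤ A.Wg s s' y z := A.Wg_nonneg hA.b_pos.le s s' y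
  set Q : ℝ := Real.exp (-R) * A.Gs y with hQ
  have hQp : 0 < Q := by positivity
  have hlog10 : 1 ≤ Λ ^ 10 := one_le_pow₀ (by linarith)
  have hvt : Real.exp A.vt ≤ Real.exp CV * p0 * A.Y := by
    have g3 := h5 A hA.hp hA.hY (hN A hA).2.2.2.1
    have g5 : A.vt ≤ CV + Real.log p0 + Real.log A.Y := by
      have := (abs_le.mp g3).2
      rw [hAp] at this
      linarith
    calc Real.exp A.vt ≤ Real.exp (CV + Real.log p0 + Real.log A.Y) := Real.exp_le_exp.mpr g5
      _ = Real.exp CV * p0 * A.Y := by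
          rw [Real.exp_add, Real.exp_add, Real.exp_log hp0', Real.exp_log (by linarith)]
  -- the mean of the weights
  have hmW : ∫⁻ t, ENNReal.ofReal (A.Wg s s' y (om t)) ∂(un x T)
      ≤ ENNReal.ofReal ((3 * CB + 1) * (Real.exp A.KY * Q)) := by
    have g1 := h2 A hA T e hT0' hL x y s s' hss hs 0 (by simp) 1 1 (fun _ => 1) le_rfl
      (Real.one_le_exp (mul_nonneg (by linarith) (by linarith)))
      (Real.one_le_exp (by linarith)) (fun _ => zero_le_one) (by simpa using TP.one le_rfl)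
    simp only [mul_one, mo_zero, norm_one, one_pow] at g1
    refine g1.trans (ENNReal.ofReal_le_ofReal ?_)
    have g2 := hB A hA hN y s s' hss hs
    have g3 : Q / Λ ^ 10 ≤ Real.exp A.KY * Q := by
      calc Q / Λ ^ 10 ≤ Q := div_le_self hQp.le hlog10
        _ = 1 * Q := (one_mul _).symm
        _ ≤ Real.exp A.KY * Q := by
            have : 1 ≤ Real.exp A.KY := Real.one_le_exp (by linarith)
            gcongr
    calc 3 * (∫ w, A.Wg s s' y w ∂mu) + Real.exp (-R) * A.Gs y / Λ ^ 10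
        ≤ 3 * (CB * Real.exp (-R) * (Real.exp A.KY * A.Gs y)) + Real.exp A.KY * Q := by linarith
      _ = _ := by rw [hQ]; ring
  -- the sums over a fixed range
  set N : ℕ := ⌈Real.exp (13 / 20 * Λ)⌉₊ with hNd
  set E : ℝ → ℝ → ℝ := fun a t => A.Wg s s' y (om t) * ‖LM.SN N Λ 0 0 a (om t)‖ ^ 2 with hE
  have hE0 : ∀ a t, 0 ≤ E a t := fun a t => mul_nonneg (hW0 _) (by positivity)
  have hsn : ∀ a ≤ 13 / 20 * Λ, ∀ z : Om, LM.SN N Λ 0 0 a z = SU Λ a 0 0 z := fun a ha z =>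
    (LM.su_eq hΛ0 ((Real.exp_le_exp.mpr ha).trans (Nat.le_ceil _)) 0 0 z).symm
  have hcE : Continuous fun q : ℝ × ℝ => E q.1 q.2 := continuous_E hA s s' y N Λ
  -- the mean for every length
  have hmean : ∀ a ∈ Icc (3 / 10 * Λ) (13 / 20 * Λ), ∫⁻ t, ENNReal.ofReal (E a t) ∂(un x T)
      ≤ ENNReal.ofReal (K1 * (Λ * Q)) := by
    intro a ha
    have ha1 := ha.1
    have ha2 := ha.2
    have tp := LM.tp_su Λ a (le_refl (0 : ℝ)) 0
    have g1 := h2 A hA T e hT0' hL x y s s' hss hs 0 (by simp) (Real.exp a) (Real.exp (2 * a)) _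
      (Real.one_le_exp (by linarith)) (Real.exp_le_exp.mpr (by nlinarith))
      (Real.exp_le_exp.mpr (by linarith)) (fun _ => by positivity) tp
    simp only [mo_zero, norm_one, one_pow, one_mul] at g1
    have e1 : ∀ t, E a t = A.Wg s s' y (om t) * ‖SU Λ a 0 0 (om t)‖ ^ 2 := by
      intro t
      rw [hE]
      simp only
      rw [hsn a ha2]
    simp only [e1]
    refine g1.trans (ENNReal.ofReal_le_ofReal ?_)
    have g2 := h3 A hA hAp (Λ / 20) a hYΛ (by linarith) s s' hss hs y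
    simp only [sm_eq_su] at g2
    have k1 : (a / (Λ / 20)) ^ 2 ≤ 169 := by
      have k2 : a / (Λ / 20) ≤ 13 := by
        rw [div_le_iff₀ (by positivity)]
        linarith
      have k3 : 0 ≤ a / (Λ / 20) := by
        have : 0 ≤ a := by linarith
        positivity
      nlinarith
    have k4 : a / A.Y ≤ Λ / A.Y := by
      gcongr
      linarith
    have k5 : Real.exp (-(2 * R)) ≤ Real.exp (-R) := Real.exp_le_exp.mpr (by linarith)
    have k6 : 0 ≤ a / A.Y := by
      have : 0 ≤ a := by linarith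
      positivity
    have g3 : C3 * (a / (Λ / 20)) ^ 2 * (a / A.Y) * Real.exp (-(2 * R)) * (Real.exp A.vt * A.Gs y)
        ≤ C3 * 169 * (Λ / A.Y) * Real.exp (-R) * ((Real.exp CV * p0 * A.Y) * A.Gs y) := by
      gcongr
    have g4 : C3 * 169 * (Λ / A.Y) * Real.exp (-R) * ((Real.exp CV * p0 * A.Y) * A.Gs y)
        = C3 * 169 * (Real.exp CV * p0) * (Λ * Q) := by
      rw [hQ]
      field_simp
    have g5 : Real.exp (-R) * A.Gs y / Λ ^ 10 ≤ Λ * Q := by
      calc Q / Λ ^ 10 ≤ Q := div_le_self hQp.le hlog10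
        _ = 1 * Q := (one_mul _).symm
        _ ≤ Λ * Q := by
            have : 1 ≤ Λ := by linarith
            gcongr
    rw [hK1]
    linarith
  -- pointwise
  have hpt : ∀ t ∈ Rg x T e,
      ENNReal.ofReal (A.Wg s s' y (om t) * ‖ze t‖ ^ 2)
      ≤ ENNReal.ofReal (C0 / Λ) * (∫⁻ a in Ioc (3 / 10 * Λ) (13 / 20 * Λ), ENNReal.ofReal (E a t))
        + ENNReal.ofReal (C0 * Real.exp (-(3 / 10 * Λ)))
          * ENNReal.ofReal (A.Wg s s' y (om t)) := by
    intro t ht
    obtain ⟨k1, k2⟩ := height hTp hΛ200 he1 hx' ht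
    have k3 := h1 Λ hΛ200 t k1 k2
    have e1 : (∫ a in (3 / 10 * Λ)..(13 / 20 * Λ), ‖SU Λ a 0 0 (om t)‖ ^ 2)
        = ∫ a in (3 / 10 * Λ)..(13 / 20 * Λ), ‖LM.SN N Λ 0 0 a (om t)‖ ^ 2 := by
      refine intervalIntegral.integral_congr fun a ha => ?_
      rw [uIcc_of_le (by linarith)] at ha
      rw [hsn a ha.2]
    rw [e1] at k3
    set D : ℝ := A.Wg s s' y (om t) with hD
    have hD0 : 0 ≤ D := hW0 _
    have k4 : D * ‖ze t‖ ^ 2
        ≤ C0 / Λ * (∫ a in (3 / 10 * Λ)..(13 / 20 * Λ), E a t)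
          + C0 * Real.exp (-(3 / 10 * Λ)) * D := by
      have e2 : (∫ a in (3 / 10 * Λ)..(13 / 20 * Λ), E a t)
          = D * ∫ a in (3 / 10 * Λ)..(13 / 20 * Λ), ‖LM.SN N Λ 0 0 a (om t)‖ ^ 2 := by
        rw [← intervalIntegral.integral_const_mul]
      rw [e2]
      calc D * ‖ze t‖ ^ 2
          ≤ D * (C0 / Λ * (∫ a in (3 / 10 * Λ)..(13 / 20 * Λ), ‖LM.SN N Λ 0 0 a (om t)‖ ^ 2)
            + C0 * Real.exp (-(3 / 10 * Λ))) := mul_le_mul_of_nonneg_left k3 hD0
        _ = _ := by ring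
    have hint : IntegrableOn (fun a => E a t) (Ioc (3 / 10 * Λ) (13 / 20 * Λ)) := by
      have hc : Continuous fun a => E a t := hcE.comp (f := fun a : ℝ => ((a, t) : ℝ × ℝ))
        (by fun_prop)
      exact (hc.integrableOn_Icc).mono_set Ioc_subset_Icc_self
    refine (ENNReal.ofReal_le_ofReal k4).trans ?_
    have hi0 : 0 ≤ ∫ a in (3 / 10 * Λ)..(13 / 20 * Λ), E a t :=
      intervalIntegral.integral_nonneg (by linarith) fun a _ => hE0 a t
    rw [ENNReal.ofReal_add (by positivity) (by positivity), ENNReal.ofReal_mul (by positivity),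
      ENNReal.ofReal_mul (by positivity) (p := C0 * Real.exp (-(3 / 10 * Λ)))]
    refine add_le_add ?_ le_rfl
    rw [intervalIntegral.integral_of_le (by linarith),
      ofReal_integral_eq_lintegral_ofReal hint (Eventually.of_forall fun a => hE0 a t)]
  have hmeas : Measurable fun q : ℝ × ℝ => ENNReal.ofReal (E q.2 q.1) :=
    ENNReal.measurable_ofReal.comp (hcE.comp (f := fun q : ℝ × ℝ => (q.2, q.1)) (by fun_prop)).measurable
  have hmI : Measurable fun t : ℝ =>
      ∫⁻ a in Ioc (3 / 10 * Λ) (13 / 20 * Λ), ENNReal.ofReal (E a t) :=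
    hmeas.lintegral_prod_right'
  have hmRg : MeasurableSet (Rg x T e) := measurableSet_Icc
  -- the main range
  have hmain : ∫⁻ t in Rg x T e, ENNReal.ofReal (A.Wg s s' y (om t) * ‖ze t‖ ^ 2) ∂(un x T)
      ≤ ENNReal.ofReal (C0 * K1 * (Λ * Q) + C0 * (3 * CB + 1) * (Λ * Q)) := by
    calc ∫⁻ t in Rg x T e, ENNReal.ofReal (A.Wg s s' y (om t) * ‖ze t‖ ^ 2) ∂(un x T)
        ≤ ∫⁻ t in Rg x T e, (ENNReal.ofReal (C0 / Λ)
            * (∫⁻ a in Ioc (3 / 10 * Λ) (13 / 20 * Λ), ENNReal.ofReal (E a t))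
          + ENNReal.ofReal (C0 * Real.exp (-(3 / 10 * Λ)))
            * ENNReal.ofReal (A.Wg s s' y (om t))) ∂(un x T) :=
          setLIntegral_mono' hmRg hpt
      _ ≤ ∫⁻ t, (ENNReal.ofReal (C0 / Λ)
            * (∫⁻ a in Ioc (3 / 10 * Λ) (13 / 20 * Λ), ENNReal.ofReal (E a t))
          + ENNReal.ofReal (C0 * Real.exp (-(3 / 10 * Λ)))
            * ENNReal.ofReal (A.Wg s s' y (om t))) ∂(un x T) :=
          setLIntegral_le_lintegral _ _
      _ = ENNReal.ofReal (C0 / Λ) * (∫⁻ t, (∫⁻ a in Ioc (3 / 10 * Λ) (13 / 20 * Λ),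
            ENNReal.ofReal (E a t)) ∂(un x T))
          + ENNReal.ofReal (C0 * Real.exp (-(3 / 10 * Λ)))
            * ∫⁻ t, ENNReal.ofReal (A.Wg s s' y (om t)) ∂(un x T) := by
          rw [lintegral_add_left (hmI.const_mul _), lintegral_const_mul _ hmI,
            lintegral_const_mul' _ _ ENNReal.ofReal_ne_top]
      _ ≤ ENNReal.ofReal (C0 / Λ) * (ENNReal.ofReal (K1 * (Λ * Q)) * ENNReal.ofReal (7 / 20 * Λ))
          + ENNReal.ofReal (C0 * Real.exp (-(3 / 10 * Λ)))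
            * ENNReal.ofReal ((3 * CB + 1) * (Real.exp A.KY * Q)) := by
          refine add_le_add (mul_le_mul_right ?_ _) (mul_le_mul_right hmW _)
          rw [lintegral_lintegral_swap hmeas.aemeasurable]
          calc ∫⁻ a in Ioc (3 / 10 * Λ) (13 / 20 * Λ), (∫⁻ t, ENNReal.ofReal (E a t) ∂(un x T))
              ≤ ∫⁻ a in Ioc (3 / 10 * Λ) (13 / 20 * Λ), ENNReal.ofReal (K1 * (Λ * Q)) :=
                setLIntegral_mono' measurableSet_Ioc fun a ha => hmean a (Ioc_subset_Icc_self ha)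
            _ = _ := by
                rw [setLIntegral_const, Real.volume_Ioc]
                congr 2
                ring
      _ ≤ ENNReal.ofReal (C0 * K1 * (Λ * Q) + C0 * (3 * CB + 1) * (Λ * Q)) := by
          rw [← ENNReal.ofReal_mul (by positivity), ← ENNReal.ofReal_mul (by positivity),
            ← ENNReal.ofReal_mul (by positivity), ← ENNReal.ofReal_add (by positivity) (by positivity)]
          refine ENNReal.ofReal_le_ofReal (add_le_add ?_ ?_)
          · have e1 : C0 / Λ * (K1 * (Λ * Q) * (7 / 20 * Λ)) = 7 / 20 * (C0 * K1 * (Λ * Q)) := by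
              field_simp
            rw [e1]
            have : 0 ≤ C0 * K1 * (Λ * Q) := by positivity
            linarith
          · have e2 : C0 * Real.exp (-(3 / 10 * Λ)) * ((3 * CB + 1) * (Real.exp A.KY * Q))
                = C0 * (3 * CB + 1) * (Real.exp (-(3 / 10 * Λ) + A.KY) * Q) := by
              rw [Real.exp_add]
              ring
            rw [e2]
            have h9 : Real.exp (-(3 / 10 * Λ) + A.KY) ≤ 1 :=
              Real.exp_le_one_iff.mpr (by linarith)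
            have h10 : Real.exp (-(3 / 10 * Λ) + A.KY) * Q ≤ Λ * Q := by
              have : Real.exp (-(3 / 10 * Λ) + A.KY) ≤ Λ := by linarith
              gcongr
            gcongr
  have hrest := (h4 A hA T e hT4' hL x y hx s s' hss hs).1
  have hcW : Continuous fun t : ℝ => A.Wg s s' y (om t) := (A.continuous_Wg' hA s s' y).comp continuous_om
  rw [lintegral_nu x hΛ0 hcW.measurable,
    ← lintegral_add_compl _ hmRg]
  calc ENNReal.ofReal (1 / Λ) * ((∫⁻ t in Rg x T e, ENNReal.ofReal (A.Wg s s' y (om t) * ‖ze t‖ ^ 2)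
        ∂(un x T)) + ∫⁻ t in (Rg x T e)ᶜ, ENNReal.ofReal (A.Wg s s' y (om t) * ‖ze t‖ ^ 2) ∂(un x T))
      ≤ ENNReal.ofReal (1 / Λ) * (ENNReal.ofReal (C0 * K1 * (Λ * Q) + C0 * (3 * CB + 1) * (Λ * Q))
        + ENNReal.ofReal (Real.exp (-R) * A.Gs y / Λ ^ 10)) := by gcongr
    _ ≤ _ := by
        rw [← ENNReal.ofReal_add (by positivity) (by positivity), ← ENNReal.ofReal_mul (by positivity)]
        refine ENNReal.ofReal_le_ofReal ?_
        have g5 : Real.exp (-R) * A.Gs y / Λ ^ 10 ≤ Λ * Q := by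
          calc Q / Λ ^ 10 ≤ Q := div_le_self hQp.le hlog10
            _ = 1 * Q := (one_mul _).symm
            _ ≤ Λ * Q := by
                have : 1 ≤ Λ := by linarith
                gcongr
        have e3 : (C0 * K1 + C0 * (3 * CB + 1) + 1) * Real.exp (-R) * A.Gs y
            = 1 / Λ * (C0 * K1 * (Λ * Q) + C0 * (3 * CB + 1) * (Λ * Q) + Λ * Q) := by
          rw [hQ]
          field_simp
        rw [e3]
        gcongr

end Pool.Agent.Lib.G2
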