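import Mathlib
import Pool.Agent.Lib.MP_f9aece_nt_g2.StmtsZ
import Pool.Agent.Lib.MP_f9aece_nt_gt.E5a

/-!
Elementary facts about the smooth sums `Sm w a`: continuity, length.
-/

set_option autoImplicit false

namespace Pool.Agent.Lib.G2

open MeasureTheory Set Filter Topology Complex ProbabilityTheory
open scoped ComplexConjugate
open Pool.Agent.Lib.GT

namespace SmL

/-- the smooth sum with a fixed number of terms -/
noncomputable def SmN (N : ℕ) (w a : ℝ) (x : Om) : ℂ :=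
  ∑ n ∈ Finset.Icc 1 N, (Real.smoothTransition ((a - Real.log n) / w) : ℂ)
    * ((n : ℂ) ^ (-(1 / 2) : ℂ) * ch x n)

lemma sm_eq {w a : ℝ} (hw : 0 < w) {N : ℕ} (hN : Real.exp a ≤ N) (x : Om) : Sm w a x = SmN N w a x := by
  unfold Sm SmN
  have hsub : Finset.Icc 1 ⌊Real.exp a⌋₊ ⊆ Finset.Icc 1 N := by
    refine Finset.Icc_subset_Icc_right ?_
    have h1 : (⌊Real.exp a⌋₊ : ℝ) ≤ N := (Nat.floor_le (Real.exp_pos a).le).trans hN
    exact_mod_cast h1
  refine Finset.sum_subset hsub fun n hn hn' => ?_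
  rw [Finset.mem_Icc] at hn hn'
  have hn1 : 1 ≤ n := hn.1
  have h2 : ⌊Real.exp a⌋₊ < n := by
    by_contra h
    exact hn' ⟨hn1, not_lt.1 h⟩
  have h3 : Real.exp a < n := (Nat.floor_lt (Real.exp_pos a).le).1 h2
  have h4 : a < Real.log n := by
    rwa [Real.lt_log_iff_exp_lt (by exact_mod_cast hn1)]
  have h5 : (a - Real.log n) / w ≤ 0 := div_nonpos_of_nonpos_of_nonneg (by linarith) hw.le
  rw [Real.smoothTransition.zero_of_nonpos h5]
  simp

lemma continuous_SmN (N : ℕ) (w : ℝ) : Continuous fun q : ℝ × Om => SmN N w q.1 q.2 := by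
  unfold SmN
  refine continuous_finsetSum _ fun n _ => ?_
  have h1 : Continuous fun q : ℝ × Om => Real.smoothTransition ((q.1 - Real.log n) / w) :=
    Real.smoothTransition.continuous.comp (by fun_prop)
  exact (Complex.continuous_ofReal.comp h1).mul
    (continuous_const.mul ((continuous_ch n).comp continuous_snd))

lemma continuous_Sm (w a : ℝ) : Continuous (Sm w a) := by
  unfold Sm
  refine continuous_finsetSum _ fun n _ => ?_
  exact continuous_const.mul (continuous_const.mul (continuous_ch n))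

lemma abs_smooth_le (u : ℝ) : |Real.smoothTransition u| ≤ 1 := by
  rw [abs_of_nonneg (Real.smoothTransition.nonneg u)]
  exact Real.smoothTransition.le_one u

lemma norm_cpow_le {n : ℕ} (hn : 1 ≤ n) : ‖(n : ℂ) ^ (-(1 / 2) : ℂ)‖ ≤ 1 := by
  have hn0 : (0 : ℝ) < n := by exact_mod_cast hn
  have h1 : ‖(n : ℂ) ^ (-(1 / 2) : ℂ)‖ = (n : ℝ) ^ (-(1 / 2) : ℝ) := by
    rw [← Complex.ofReal_natCast, Complex.norm_cpow_eq_rpow_re_of_pos hn0]
    norm_num
  rw [h1]
  refine Real.rpow_le_one_of_one_le_of_nonpos (by exact_mod_cast hn) (by norm_num)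

/-- the smooth sum is short -/
lemma ap_sm (w a : ℝ) : AP (Real.exp a) (Real.exp a) (Sm w a) := by
  have h1 : ∀ n ∈ Finset.Icc 1 ⌊Real.exp a⌋₊, 1 ≤ n ∧ (n : ℝ) ≤ Real.exp a := fun n hn =>
    ⟨(Finset.mem_Icc.mp hn).1, (Nat.cast_le.mpr (Finset.mem_Icc.mp hn).2).trans
      (Nat.floor_le (Real.exp_pos a).le)⟩
  have h2 : ∑ n ∈ Finset.Icc 1 ⌊Real.exp a⌋₊,
      ‖(Real.smoothTransition ((a - Real.log n) / w) : ℂ)
      * (n : ℂ) ^ (-(1 / 2) : ℂ)‖ ≤ Real.exp a := by
    calc _ ≤ ∑ n ∈ Finset.Icc 1 ⌊Real.exp a⌋₊, (1 : ℝ) :=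
          Finset.sum_le_sum fun n hn => by
            rw [norm_mul, Complex.norm_real, Real.norm_eq_abs]
            exact mul_le_one₀ (abs_smooth_le _) (norm_nonneg _) (norm_cpow_le (h1 n hn).1)
      _ = (⌊Real.exp a⌋₊ : ℝ) := by simp
      _ ≤ _ := Nat.floor_le (Real.exp_pos a).le
  refine (LM.ap_sum h1 h2).congr fun x => ?_
  unfold Sm
  exact Finset.sum_congr rfl fun n _ => by rw [mul_assoc]

/-- the square of a product of two smooth sums -/
lemma tp_sq_mul (w a c : ℝ) : TP (Real.exp (c + a)) (Real.exp (2 * (c + a)))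
    fun x => ((‖Sm w c x‖ ^ 2 * ‖Sm w a x‖ ^ 2 : ℝ) : ℂ) := by
  have h := ((ap_sm w c).mul (ap_sm w a)).normSq
  rw [← Real.exp_add, ← Real.exp_add, show c + a + (c + a) = 2 * (c + a) by ring] at h
  refine h.congr fun x => ?_
  rw [norm_mul, mul_pow]

/-- the square of a smooth sum -/
lemma tp_sq (w a : ℝ) : TP (Real.exp a) (Real.exp (2 * a)) fun x => ((‖Sm w a x‖ ^ 2 : ℝ) : ℂ) := by
  have h := (ap_sm w a).normSq
  rwa [← Real.exp_add, show a + a = 2 * a by ring] at h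

end SmL

end Pool.Agent.Lib.G2
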