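import Mathlib
import Pool.Agent.Lib.MP_f9aece_nt_g2.SmLem
import Pool.Agent.Lib.MP_f9aece_nt_g2.Cont
import Pool.Agent.Lib.MP_f9aece_nt_g2.M2
import Pool.Agent.Lib.MP_f9aece_nt_g2.N1

/-!
The law of `log |zeta|` under the measure `|zeta| ^ 2`: row Z5 (`nuUI`), uniform integrability.
-/

set_option autoImplicit false

namespace Pool.Agent.Lib.G2

open MeasureTheory Set Filter Topology Complex ProbabilityTheory
open scoped ComplexConjugate
open Pool.Agent.Lib.MP_f9aece_nt (VV)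
open Pool.Agent.Lib.J4 (V2)
open Pool.Agent.Lib.GT
open Pool.Agent.H20.Chi (chi)

namespace Z5

/-! ### the mean of the weights -/

/-- the zero data -/
noncomputable def D0 : Dat :=
  ⟨fun _ => 0, fun _ => 0, fun _ => 0, fun _ => 0, fun _ => 0, fun _ => 0⟩

lemma D0_ok : D0.Ok := by
  intro p
  have h1 : (0 : ℝ) ≤ 2 / Real.sqrt p := by positivity
  have h2 : (0 : ℝ) ≤ 1 / Real.sqrt p := by positivity
  simp only [D0, norm_zero]
  exact ⟨h1, h1, h2, h2, h2, h2⟩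

lemma HF_D0 (S : Finset ℕ) (x : Om) : HF S D0 x = 1 := by
  simp [HF, D0]

lemma expBd_D0 {A : Par} (hA : A.Ok) : ExpBd A 0 0 D0 0 := by
  intro η η' _ _
  have h1 : sab A.U A.h (A.sz η) (A.sz η') 0 0 D0
      = ((A.sz η + conj (A.sz η')) / 2) ^ 2 * (A.vt : ℂ) := by
    unfold sab Par.vt
    push_cast
    rw [Finset.mul_sum]
    refine Finset.sum_congr rfl fun p _ => ?_
    simp only [D0, map_zero, add_zero]
    ring
  have h2 : (A.sz η + conj (A.sz η')) / 2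
      = A.sg * (((A.be / 2 : ℝ) : ℂ) + ((A.b * (η - η') / 2 : ℝ) : ℂ) * I) := by
    unfold Par.sz Par.zz
    simp only [map_mul, map_add, map_div₀, Complex.conj_ofReal, Complex.conj_I, map_ofNat]
    push_cast
    ring
  have h3 : ((A.sg : ℂ)) ^ 2 = 1 := by
    exact_mod_cast hA.sg_sq
  have h4 : ((((A.be / 2 : ℝ) : ℂ) + ((A.b * (η - η') / 2 : ℝ) : ℂ) * I) ^ 2 * (A.vt : ℂ)).re
      = ((A.be / 2) ^ 2 - (A.b * (η - η') / 2) ^ 2) * A.vt := by
    rw [Complex.re_mul_ofReal, sq, Complex.mul_re, Complex.add_re, Complex.add_im,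
      Complex.ofReal_re, Complex.ofReal_im, Complex.re_ofReal_mul, Complex.im_ofReal_mul,
      Complex.I_re, Complex.I_im]
    ring
  rw [h1, h2, mul_pow, h3, one_mul, h4]
  exact le_of_eq (by ring)

lemma small_one {A : Par} : Small A 1 fun _ => 1 :=
  ⟨measurable_const, fun _ _ _ => rfl, fun _ => by simp⟩

lemma G_le {A : Par} (hA : A.Ok) {T e : ℝ} (hL : Len A T e) (y : ℝ) :
    A.G y ≤ Real.exp (e * Real.log T / 100) * A.Gs y := by
  have h1 := A.G_shift y (y - A.sg * A.vt)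
  have h2 := M2.vt_le hA
  have h3 := hA.Gs_pos y
  have h4 := hA.hY
  have h5 := M2.expY_le hA hL
  have hv0 := A.vt_nonneg
  have hbe := hA.hbe
  have hbb := hA.hbb
  have hb := hA.hb
  have h6 : -(A.be * (y - (y - A.sg * A.vt))) ≤ A.Y := by
    have h7 : |A.be * (A.sg * A.vt)| ≤ A.Y := by
      rw [abs_mul, abs_mul, abs_of_pos hbe, abs_of_nonneg hv0, hA.abs_sg, one_mul]
      nlinarith
    have h8 := (abs_le.mp h7).1
    have h9 : A.be * (y - (y - A.sg * A.vt)) = A.be * (A.sg * A.vt) := by ring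
    rw [h9]
    linarith
  have h7 : Real.exp (-(A.be * (y - (y - A.sg * A.vt)))) ≤ Real.exp (e * Real.log T / 100) :=
    (Real.exp_le_exp.2 h6).trans h5
  rw [h1]
  change A.Gs y * _ ≤ _
  rw [mul_comm]
  exact mul_le_mul_of_nonneg_right h7 h3.le

/-- crude bound for the mean of the weights -/
lemma W_mean (h1 : WBd) (h2 : UnMean) : ∃ C T0 : ℝ, 1 ≤ C ∧ 3 ≤ T0 ∧ ∀ A : Par, A.Ok → ∀ T e : ℝ,
    T0 ≤ T → Len A T e → ∀ x y : ℝ,
    ∫⁻ t, ENNReal.ofReal (A.W ∅ y (om t)) ∂(un x T)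
      ≤ ENNReal.ofReal (C * (Real.exp (e * Real.log T / 100) * A.Gs y)) := by
  obtain ⟨C, hC, h1⟩ := h1
  obtain ⟨T0, hT0, h2⟩ := h2
  refine ⟨C + 1, T0, by linarith, hT0, ?_⟩
  intro A hA T e hT hL x y
  have hTpos : 0 < T := by linarith
  have := prob_un x hTpos
  have hG := hA.Gs_pos y
  have hW0 : ∀ z, 0 ≤ A.W ∅ y z := A.W_nonneg hA.b_pos.le ∅ y
  have hc : Continuous fun t : ℝ => A.W ∅ y (om t) := (A.continuous_W' hA ∅ y).comp continuous_om
  obtain ⟨B', hB'⟩ := A.W_le hA ∅ y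
  have hi : Integrable (fun t : ℝ => A.W ∅ y (om t)) (un x T) := by
    refine Integrable.of_bound hc.aestronglyMeasurable B' (Eventually.of_forall fun t => ?_)
    rw [Real.norm_of_nonneg (hW0 _)]
    exact hB' _
  rw [← ofReal_integral_eq_lintegral_ofReal hi (Eventually.of_forall fun t => hW0 _)]
  refine ENNReal.ofReal_le_ofReal ?_
  have hlog := M2.log_pos hL
  have he := hL.he
  have he1 := hL.he1
  -- the torus
  have e1 := h1 A hA 0 0 (by simp) (by simp) D0 D0_ok 0 (expBd_D0 hA) 1 (fun _ => 1) small_one y ∅ ∅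
    (Finset.Subset.refl _) (Finset.empty_subset _)
  simp only [M2.mo_zero, map_one, mul_one, HF_D0, Finset.sum_empty, mul_zero, neg_zero,
    Real.exp_zero] at e1
  have e1' : ‖∫ z, (A.W ∅ y z : ℂ) ∂mu‖ ≤ C * A.G y := e1
  rw [integral_complex_ofReal] at e1'
  have e1'' : ∫ z, A.W ∅ y z ∂mu ≤ C * A.G y := by
    rw [Complex.norm_real] at e1'
    exact (le_abs_self _).trans e1'
  -- the flow
  have e2 := h2 A hA T e hT hL x y 1 1 (fun _ => 1) le_rfl (by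
    rw [one_mul]
    exact Real.one_le_exp (mul_nonneg (by linarith) (by linarith))) (TP.one le_rfl)
  simp only [mul_one] at e2
  rw [integral_complex_ofReal, integral_complex_ofReal, ← Complex.ofReal_sub, Complex.norm_real] at e2
  have e3 := (le_abs_self _).trans e2
  have e4 : A.Gs y / Real.log T ^ 10 ≤ A.Gs y := div_le_self hG.le (one_le_pow₀ hlog)
  have e5 := G_le hA hL y
  have e6 : 1 ≤ Real.exp (e * Real.log T / 100) := Real.one_le_exp (by positivity)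
  have e7 : C * A.G y ≤ C * (Real.exp (e * Real.log T / 100) * A.Gs y) :=
    mul_le_mul_of_nonneg_left e5 hC
  have e8 : A.Gs y ≤ Real.exp (e * Real.log T / 100) * A.Gs y :=
    le_mul_of_one_le_left hG.le e6
  linarith

/-! ### products of two sums -/

/-- the mean of two sums and the mollifier -/
lemma pair_le (h1 : GaMean) (h2 : SmFour) (h3 : Variance) (p0 : ℕ) (hp0 : 1000 ≤ p0) :
    ∃ C T0 : ℝ, 1 ≤ C ∧ 3 ≤ T0 ∧ ∀ A : Par, A.Ok → A.p0 = p0 → ∀ T e : ℝ, T0 ≤ T → Len A T e →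
    ∀ x y c a : ℝ, cd T e ≤ c → c ≤ cd T e + wd T e → cd T e ≤ a →
    a ≤ (1 / 2 + e / 5) * Real.log T →
    ∫⁻ t, ENNReal.ofReal (A.W ∅ y (om t) * (‖A.mo (-1) ∅ (om t)‖ ^ 2
        * (‖Sm (wd T e) c (om t)‖ ^ 2 * ‖Sm (wd T e) a (om t)‖ ^ 2))) ∂(un x T)
      ≤ ENNReal.ofReal (C * ((Real.log T / A.Y) ^ 8 * (A.Y * A.Gs y))) := by
  obtain ⟨T0, hT0, h1⟩ := h1
  obtain ⟨C2, hC2, h2⟩ := h2 p0 hp0
  obtain ⟨⟨C3, hC3, h3⟩, -⟩ := h3
  set C6 : ℝ := Real.exp (C3 + Real.log p0) with hC6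
  have hC60 : 0 < C6 := Real.exp_pos _
  refine ⟨3 * (C2 * 20 ^ 4 * C6) + 1, T0, ?_, hT0, ?_⟩
  · have : 0 ≤ C2 * 20 ^ 4 * C6 := by positivity
    linarith
  intro A hA hAp T e hT hL x y c a hc1 hc2 ha1 ha2
  have hG := hA.Gs_pos y
  have hlog := M2.log_pos hL
  have he := hL.he
  have he1 := hL.he1
  have hK := hL.hK
  have hKY := M2.KY_ge hA
  have hY := hA.hY
  have hcd : cd T e = (1 / 2 - e) * Real.log T := rfl
  have hwd : wd T e = e * Real.log T / 20 := rfl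
  set L : ℝ := Real.log T with hLdef
  have hL0 : 0 < L := by linarith
  have heL0 : 0 < e * L := mul_pos he hL0
  have heL : 10 ^ 10 * (4 * A.Y) ≤ e * L := le_trans (by linarith) hK
  have heL1 : e * L ≤ L / 100 := by nlinarith
  -- transfer
  have k1 := h1 A hA T e hT hL x y ∅ ∅ (Finset.Subset.refl _) (Finset.empty_subset _) (-1) (by simp)
    (Real.exp (c + a)) (Real.exp (2 * (c + a)))
    (fun z => ‖Sm (wd T e) c z‖ ^ 2 * ‖Sm (wd T e) a z‖ ^ 2)
    (Real.one_le_exp (by rw [hcd] at hc1 ha1; nlinarith))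
    (Real.exp_le_exp.2 (by rw [hcd, hwd] at hc2; nlinarith))
    (Real.exp_le_exp.2 (by rw [hcd, hwd] at hc2; nlinarith))
    (fun z => by positivity) (SmL.tp_sq_mul (wd T e) a c)
  refine k1.trans (ENNReal.ofReal_le_ofReal ?_)
  -- torus
  have k2 := h2 A hA hAp (wd T e) c a L (by rw [hwd]; linarith) (by rw [hcd] at hc1; rw [hwd]; nlinarith)
    (by rw [hcd] at ha1; rw [hwd]; nlinarith) (by rw [hcd, hwd] at hc2; nlinarith) (by nlinarith) y
  have k3 : ∫ z, A.Wg ∅ ∅ y z * (‖A.mo (-1) ∅ z‖ ^ 2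
      * (‖Sm (wd T e) c z‖ ^ 2 * ‖Sm (wd T e) a z‖ ^ 2)) ∂mu
      ≤ C2 * (L / wd T e) ^ 4 * (L / A.Y) ^ 4 * (Real.exp A.vt * A.Gs y) := by
    refine le_trans (le_of_eq ?_) k2
    refine integral_congr_ae (Eventually.of_forall fun z => ?_)
    change A.W ∅ y z * _ = A.W ∅ y z * _ * _
    ring
  have k4 : Real.exp A.vt ≤ C6 * A.Y := by
    have hU := (groupNum A hA).2.2.2.1
    have h4 := h3 A hA.hp hA.hY hU
    have h5 := (abs_le.mp h4).2
    rw [hAp] at h5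
    have h6 : A.vt ≤ (C3 + Real.log p0) + Real.log A.Y := by linarith
    have h7 := Real.exp_le_exp.2 h6
    rwa [Real.exp_add, Real.exp_log (by linarith)] at h7
  have k5 : L / wd T e ≤ 20 * (L / A.Y) := by
    rw [hwd]
    have hY0 : 0 < A.Y := by linarith
    have e1 : L / (e * L / 20) = 20 * (L / (e * L)) := by
      field_simp
    rw [e1]
    refine mul_le_mul_of_nonneg_left ?_ (by norm_num)
    exact div_le_div_of_nonneg_left hL0.le hY0 (by linarith)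
  have k6 : 1 ≤ L / A.Y := by
    rw [le_div_iff₀ (by linarith)]
    linarith
  have hw0 : 0 ≤ L / wd T e := by rw [hwd]; positivity
  have k7 : (L / wd T e) ^ 4 ≤ 20 ^ 4 * (L / A.Y) ^ 4 := by
    rw [← mul_pow]
    exact pow_le_pow_left₀ hw0 k5 4
  have k8 : C2 * (L / wd T e) ^ 4 * (L / A.Y) ^ 4 * (Real.exp A.vt * A.Gs y)
      ≤ C2 * 20 ^ 4 * C6 * ((L / A.Y) ^ 8 * (A.Y * A.Gs y)) := by
    calc C2 * (L / wd T e) ^ 4 * (L / A.Y) ^ 4 * (Real.exp A.vt * A.Gs y)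
        ≤ C2 * (20 ^ 4 * (L / A.Y) ^ 4) * (L / A.Y) ^ 4 * (C6 * A.Y * A.Gs y) := by gcongr
      _ = _ := by ring
  have k9 : Real.exp (-∑ g ∈ (∅ : Finset ℕ), (A.r g : ℝ)) * A.Gs y / L ^ 10
      ≤ (L / A.Y) ^ 8 * (A.Y * A.Gs y) := by
    rw [Finset.sum_empty, neg_zero, Real.exp_zero, one_mul]
    have h4 : A.Gs y / L ^ 10 ≤ A.Gs y := div_le_self hG.le (one_le_pow₀ hlog)
    have h5 : 1 * (1 * A.Gs y) ≤ (L / A.Y) ^ 8 * (A.Y * A.Gs y) := by
      refine mul_le_mul (one_le_pow₀ k6) (mul_le_mul_of_nonneg_right hY hG.le) (by positivity)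
        (by positivity)
    linarith
  linarith

/-- the pointwise inequality -/
lemma pt {z S m χ : ℂ} (hχ : ‖χ‖ = 1) {K M sm : ℝ} (hK : 0 < K) (hKz : K < ‖z‖ * ‖m‖) (hM : 0 ≤ M)
    (hsm : 0 ≤ sm) (hz : ‖z‖ ^ 2 ≤ M + sm) :
    ‖z‖ ^ 2 ≤ 2 * ‖z - (S + χ * conj S)‖ ^ 2 + (2 * sm + 16 / K ^ 2 * (‖m‖ ^ 2 * (‖S‖ ^ 2 * M))) := by
  rcases le_total M sm with h | h
  · have h1 : 0 ≤ ‖z - (S + χ * conj S)‖ ^ 2 := by positivity
    have h2 : 0 ≤ 16 / K ^ 2 * (‖m‖ ^ 2 * (‖S‖ ^ 2 * M)) := by positivity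
    linarith
  · have hz' : ‖z‖ ^ 2 ≤ 2 * M := by linarith
    have h1 : ‖S + χ * conj S‖ ≤ 2 * ‖S‖ := by
      refine (norm_add_le _ _).trans ?_
      rw [norm_mul, hχ, one_mul, Complex.norm_conj]
      linarith
    have h2 : ‖z‖ ≤ ‖z - (S + χ * conj S)‖ + ‖S + χ * conj S‖ := by
      have := norm_add_le (z - (S + χ * conj S)) (S + χ * conj S)
      rwa [sub_add_cancel] at this
    have h3 : ‖z‖ ≤ ‖z - (S + χ * conj S)‖ + 2 * ‖S‖ := by linarith
    have h4 : ‖z‖ ^ 2 ≤ 2 * ‖z - (S + χ * conj S)‖ ^ 2 + 8 * ‖S‖ ^ 2 := by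
      have h5 : ‖z‖ ^ 2 ≤ (‖z - (S + χ * conj S)‖ + 2 * ‖S‖) ^ 2 :=
        pow_le_pow_left₀ (norm_nonneg _) h3 2
      nlinarith [sq_nonneg (‖z - (S + χ * conj S)‖ - 2 * ‖S‖)]
    have h6 : K ^ 2 ≤ 2 * M * ‖m‖ ^ 2 := by
      have h7 : K ^ 2 ≤ (‖z‖ * ‖m‖) ^ 2 := pow_le_pow_left₀ hK.le hKz.le 2
      rw [mul_pow] at h7
      have h8 : 0 ≤ ‖m‖ ^ 2 := by positivity
      nlinarith
    have h7 : 8 * ‖S‖ ^ 2 ≤ 16 / K ^ 2 * (‖m‖ ^ 2 * (‖S‖ ^ 2 * M)) := by
      have h8 : 0 < K ^ 2 := by positivity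
      rw [div_mul_eq_mul_div, le_div_iff₀ h8]
      have h9 : 0 ≤ ‖S‖ ^ 2 := by positivity
      nlinarith
    linarith

lemma continuous_ze : Continuous ze := Pool.Agent.H20.Smooth.continuous_zeta

/-- the mean with the square function of `AfeSq` -/
lemma mid_le {A : Par} (hA : A.Ok) {T : ℝ} (hT : 0 < T) {x y w c α β M0 : ℝ} (hw : 0 < w)
    (hαβ : α ≤ β) (hM0 : 0 ≤ M0) {k : ℝ} (hk : 0 ≤ k)
    (h : ∀ a : ℝ, α < a → a ≤ β → ∫⁻ t, ENNReal.ofReal (A.W ∅ y (om t) * (‖A.mo (-1) ∅ (om t)‖ ^ 2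
        * (‖Sm w c (om t)‖ ^ 2 * ‖Sm w a (om t)‖ ^ 2))) ∂(un x T) ≤ ENNReal.ofReal M0) :
    ∫⁻ t, ENNReal.ofReal (A.W ∅ y (om t) * (‖A.mo (-1) ∅ (om t)‖ ^ 2
        * (‖Sm w c (om t)‖ ^ 2 * (k * ∫ a in α..β, ‖Sm w a (om t)‖ ^ 2)))) ∂(un x T)
      ≤ ENNReal.ofReal (k * (M0 * (β - α))) := by
  have := prob_un x hT
  have hW0 : ∀ z, 0 ≤ A.W ∅ y z := A.W_nonneg hA.b_pos.le ∅ y
  set N : ℕ := ⌈Real.exp β⌉₊ with hN
  have hN1 : Real.exp β ≤ N := Nat.le_ceil _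
  have hSm : ∀ a : ℝ, a ≤ β → ∀ z : Om, Sm w a z = SmL.SmN N w a z := fun a ha z =>
    SmL.sm_eq hw ((Real.exp_le_exp.2 ha).trans hN1) z
  set F : ℝ → ℝ → ℝ := fun t a => A.W ∅ y (om t) * (‖A.mo (-1) ∅ (om t)‖ ^ 2
        * (‖Sm w c (om t)‖ ^ 2 * ‖SmL.SmN N w a (om t)‖ ^ 2)) with hF
  have hF0 : ∀ t a, 0 ≤ F t a := fun t a => mul_nonneg (hW0 _) (by positivity)
  have hcF : Continuous fun q : ℝ × ℝ => F q.1 q.2 := by
    have c1 : Continuous fun q : ℝ × ℝ => om q.1 := continuous_om.comp continuous_fst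
    have c4 : Continuous fun q : ℝ × ℝ => A.W ∅ y (om q.1) := (A.continuous_W' hA ∅ y).comp c1
    have c5 : Continuous fun q : ℝ × ℝ => A.mo (-1) ∅ (om q.1) := (A.continuous_mo (-1) ∅).comp c1
    have c6 : Continuous fun q : ℝ × ℝ => Sm w c (om q.1) := (SmL.continuous_Sm w c).comp c1
    have c7 : Continuous fun q : ℝ × ℝ => SmL.SmN N w q.2 (om q.1) :=
      (SmL.continuous_SmN N w).comp (continuous_snd.prodMk c1)
    exact c4.mul ((c5.norm.pow 2).mul ((c6.norm.pow 2).mul (c7.norm.pow 2)))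
  have hpt : ∀ t : ℝ, ENNReal.ofReal (A.W ∅ y (om t) * (‖A.mo (-1) ∅ (om t)‖ ^ 2
        * (‖Sm w c (om t)‖ ^ 2 * (k * ∫ a in α..β, ‖Sm w a (om t)‖ ^ 2))))
      = ENNReal.ofReal k * ∫⁻ a in Ioc α β, ENNReal.ofReal (F t a) := by
    intro t
    have hc : Continuous fun a : ℝ => F t a :=
      hcF.comp (f := fun a : ℝ => ((t, a) : ℝ × ℝ)) (by fun_prop)
    rw [← ofReal_integral_eq_lintegral_ofReal (hc.integrableOn_Ioc)
      (Eventually.of_forall fun a => hF0 t a), ← ENNReal.ofReal_mul hk]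
    congr 1
    rw [intervalIntegral.integral_of_le hαβ]
    have e1 : ∫ a in Ioc α β, F t a = ∫ a in Ioc α β, (A.W ∅ y (om t) * (‖A.mo (-1) ∅ (om t)‖ ^ 2
        * ‖Sm w c (om t)‖ ^ 2)) * ‖Sm w a (om t)‖ ^ 2 := by
      refine setIntegral_congr_fun measurableSet_Ioc fun a ha => ?_
      simp only [hF]
      rw [hSm a ha.2]
      ring
    rw [e1, integral_const_mul]
    ring
  have hmeas : Measurable fun q : ℝ × ℝ => ENNReal.ofReal (F q.1 q.2) :=
    ENNReal.measurable_ofReal.comp hcF.measurable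
  refine (le_of_eq (lintegral_congr fun t => hpt t)).trans ?_
  rw [lintegral_const_mul' _ _ ENNReal.ofReal_ne_top, lintegral_lintegral_swap hmeas.aemeasurable,
    ENNReal.ofReal_mul hk]
  refine mul_le_mul_right ?_ _
  calc ∫⁻ a in Ioc α β, (∫⁻ t, ENNReal.ofReal (F t a) ∂(un x T))
      ≤ ∫⁻ a in Ioc α β, ENNReal.ofReal M0 := by
        refine setLIntegral_mono' measurableSet_Ioc fun a ha => ?_
        refine le_trans (le_of_eq (lintegral_congr fun t => ?_)) (h a ha.1 ha.2)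
        simp only [hF]
        rw [hSm a ha.2]
    _ = ENNReal.ofReal (M0 * (β - α)) := by
        rw [setLIntegral_const, Real.volume_Ioc, ENNReal.ofReal_mul hM0]

/-- averaging over the cut-off -/
lemma avg_le {A : Par} (hA : A.Ok) {T : ℝ} (hT : 0 < T) {x y w d K sm X E0 : ℝ} (hw : 0 < w)
    (hK : 0 < K) (hsm : 0 ≤ sm) (hX : 0 ≤ X) (hE0 : 0 ≤ E0) {R : Set ℝ} (hR : MeasurableSet R)
    (M : ℝ → ℝ) (hM : ∀ t, 0 ≤ M t) (hz : ∀ t ∈ R, ‖ze t‖ ^ 2 ≤ M t + sm)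
    (h1 : ∫⁻ c in Icc d (d + w), ∫⁻ t in R, ENNReal.ofReal (A.W ∅ y (om t)
      * ‖ze t - (Sm w c (om t) + chi t * conj (Sm w c (om t)))‖ ^ 2) ∂(un x T)
      ≤ ENNReal.ofReal (w * E0))
    (h2 : ∀ c : ℝ, d ≤ c → c ≤ d + w → ∫⁻ t, ENNReal.ofReal (A.W ∅ y (om t)
      * (‖A.mo (-1) ∅ (om t)‖ ^ 2 * (‖Sm w c (om t)‖ ^ 2 * M t))) ∂(un x T) ≤ ENNReal.ofReal X)
    {Wb : ℝ} (hWb : 0 ≤ Wb) (h3 : ∫⁻ t, ENNReal.ofReal (A.W ∅ y (om t)) ∂(un x T) ≤ ENNReal.ofReal Wb) :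
    ∫⁻ t in {t | K < ‖ze t‖ * ‖A.mo (-1) ∅ (om t)‖} ∩ R,
        ENNReal.ofReal (A.W ∅ y (om t) * ‖ze t‖ ^ 2) ∂(un x T)
      ≤ ENNReal.ofReal (2 * E0 + (2 * sm * Wb + 16 / K ^ 2 * X)) := by
  have hW0 : ∀ z, 0 ≤ A.W ∅ y z := A.W_nonneg hA.b_pos.le ∅ y
  have hcW : Continuous fun t : ℝ => A.W ∅ y (om t) := (A.continuous_W' hA ∅ y).comp continuous_om
  have hcm : Continuous fun t : ℝ => A.mo (-1) ∅ (om t) := (A.continuous_mo (-1) ∅).comp continuous_om
  have hB : MeasurableSet {t : ℝ | K < ‖ze t‖ * ‖A.mo (-1) ∅ (om t)‖} :=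
    (isOpen_lt continuous_const (continuous_ze.norm.mul hcm.norm)).measurableSet
  set B : Set ℝ := {t : ℝ | K < ‖ze t‖ * ‖A.mo (-1) ∅ (om t)‖} with hBdef
  set Q : ENNReal := ∫⁻ t in B ∩ R, ENNReal.ofReal (A.W ∅ y (om t) * ‖ze t‖ ^ 2) ∂(un x T) with hQ
  have hKK : 0 ≤ 16 / K ^ 2 := by positivity
  have hone : ∀ c : ℝ, d ≤ c → c ≤ d + w → Q ≤ ENNReal.ofReal 2 *
      (∫⁻ t in R, ENNReal.ofReal (A.W ∅ y (om t)
        * ‖ze t - (Sm w c (om t) + chi t * conj (Sm w c (om t)))‖ ^ 2) ∂(un x T))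
      + ENNReal.ofReal (2 * sm * Wb + 16 / K ^ 2 * X) := by
    intro c hc1 hc2
    have hcS : Continuous fun t : ℝ => Sm w c (om t) := (SmL.continuous_Sm w c).comp continuous_om
    set f1 : ℝ → ENNReal := fun t => ENNReal.ofReal (A.W ∅ y (om t)
        * ‖ze t - (Sm w c (om t) + chi t * conj (Sm w c (om t)))‖ ^ 2) with hf1
    set f2 : ℝ → ENNReal := fun t => ENNReal.ofReal (A.W ∅ y (om t)) with hf2
    set f3 : ℝ → ENNReal := fun t => ENNReal.ofReal (A.W ∅ y (om t)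
      * (‖A.mo (-1) ∅ (om t)‖ ^ 2 * (‖Sm w c (om t)‖ ^ 2 * M t))) with hf3
    have m1 : Measurable f1 := by
      refine ENNReal.measurable_ofReal.comp (Continuous.measurable ?_)
      exact hcW.mul ((continuous_ze.sub (hcS.add (Pool.Agent.H20.Chi.continuous_chi.mul
        (Complex.continuous_conj.comp hcS)))).norm.pow 2)
    have m2 : Measurable f2 := ENNReal.measurable_ofReal.comp hcW.measurable
    calc Q ≤ ∫⁻ t in B ∩ R, (ENNReal.ofReal 2 * f1 t + (ENNReal.ofReal (2 * sm) * f2 t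
          + ENNReal.ofReal (16 / K ^ 2) * f3 t)) ∂(un x T) := by
          refine setLIntegral_mono' (hB.inter hR) fun t ht => ?_
          have h4 := pt (z := ze t) (S := Sm w c (om t)) (m := A.mo (-1) ∅ (om t)) (χ := chi t)
            (Pool.Agent.H20.Chi.norm_chi t) hK ht.1 (hM t) hsm (hz t ht.2)
          have h5 := mul_le_mul_of_nonneg_left h4 (hW0 (om t))
          have h6 : A.W ∅ y (om t) * (2 * ‖ze t - (Sm w c (om t) + chi t * conj (Sm w c (om t)))‖ ^ 2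
              + (2 * sm + 16 / K ^ 2 * (‖A.mo (-1) ∅ (om t)‖ ^ 2 * (‖Sm w c (om t)‖ ^ 2 * M t))))
              = 2 * (A.W ∅ y (om t) * ‖ze t - (Sm w c (om t) + chi t * conj (Sm w c (om t)))‖ ^ 2)
              + (2 * sm * A.W ∅ y (om t) + 16 / K ^ 2 * (A.W ∅ y (om t)
                * (‖A.mo (-1) ∅ (om t)‖ ^ 2 * (‖Sm w c (om t)‖ ^ 2 * M t)))) := by ring
          rw [h6] at h5
          refine (ENNReal.ofReal_le_ofReal h5).trans (le_of_eq ?_)
          have p1 : 0 ≤ A.W ∅ y (om t)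
              * ‖ze t - (Sm w c (om t) + chi t * conj (Sm w c (om t)))‖ ^ 2 :=
            mul_nonneg (hW0 _) (by positivity)
          have p3 : 0 ≤ A.W ∅ y (om t)
                * (‖A.mo (-1) ∅ (om t)‖ ^ 2 * (‖Sm w c (om t)‖ ^ 2 * M t)) :=
            mul_nonneg (hW0 _) (mul_nonneg (by positivity) (mul_nonneg (by positivity) (hM t)))
          have p2 := hW0 (om t)
          rw [ENNReal.ofReal_add (by positivity) (by positivity),
            ENNReal.ofReal_add (by positivity) (by positivity), ENNReal.ofReal_mul (by norm_num),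
            ENNReal.ofReal_mul (p := 2 * sm) (by positivity),
            ENNReal.ofReal_mul (p := 16 / K ^ 2) (by positivity)]
      _ ≤ ∫⁻ t in R, (ENNReal.ofReal 2 * f1 t + (ENNReal.ofReal (2 * sm) * f2 t
          + ENNReal.ofReal (16 / K ^ 2) * f3 t)) ∂(un x T) :=
          lintegral_mono_set inter_subset_right
      _ = ENNReal.ofReal 2 * (∫⁻ t in R, f1 t ∂(un x T)) + (ENNReal.ofReal (2 * sm)
          * (∫⁻ t in R, f2 t ∂(un x T)) + ENNReal.ofReal (16 / K ^ 2)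
          * (∫⁻ t in R, f3 t ∂(un x T))) := by
          rw [lintegral_add_left (m1.const_mul _), lintegral_add_left (m2.const_mul _),
            lintegral_const_mul' _ _ ENNReal.ofReal_ne_top,
            lintegral_const_mul' _ _ ENNReal.ofReal_ne_top,
            lintegral_const_mul' _ _ ENNReal.ofReal_ne_top]
      _ ≤ ENNReal.ofReal 2 * (∫⁻ t in R, f1 t ∂(un x T)) + (ENNReal.ofReal (2 * sm)
          * ENNReal.ofReal Wb + ENNReal.ofReal (16 / K ^ 2) * ENNReal.ofReal X) := by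
          refine add_le_add le_rfl (add_le_add (mul_le_mul_right ?_ _) (mul_le_mul_right ?_ _))
          · exact (setLIntegral_le_lintegral _ _).trans h3
          · exact (setLIntegral_le_lintegral _ _).trans (h2 c hc1 hc2)
      _ = _ := by
          rw [← ENNReal.ofReal_mul (by positivity), ← ENNReal.ofReal_mul hKK,
            ← ENNReal.ofReal_add (by positivity) (by positivity)]
  have hw' : ENNReal.ofReal w ≠ 0 := by
    rw [Ne, ENNReal.ofReal_eq_zero, not_le]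
    exact hw
  have hfin : ENNReal.ofReal w * Q ≤ ENNReal.ofReal w
      * ENNReal.ofReal (2 * E0 + (2 * sm * Wb + 16 / K ^ 2 * X)) := by
    calc ENNReal.ofReal w * Q = ∫⁻ _c in Icc d (d + w), Q := by
          rw [setLIntegral_const, Real.volume_Icc, show d + w - d = w by ring, mul_comm]
      _ ≤ ∫⁻ c in Icc d (d + w), (ENNReal.ofReal 2 *
          (∫⁻ t in R, ENNReal.ofReal (A.W ∅ y (om t)
            * ‖ze t - (Sm w c (om t) + chi t * conj (Sm w c (om t)))‖ ^ 2) ∂(un x T))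
          + ENNReal.ofReal (2 * sm * Wb + 16 / K ^ 2 * X)) :=
          setLIntegral_mono' measurableSet_Icc fun c hc => hone c hc.1 hc.2
      _ = ENNReal.ofReal 2 * (∫⁻ c in Icc d (d + w), ∫⁻ t in R, ENNReal.ofReal (A.W ∅ y (om t)
            * ‖ze t - (Sm w c (om t) + chi t * conj (Sm w c (om t)))‖ ^ 2) ∂(un x T))
          + ENNReal.ofReal (2 * sm * Wb + 16 / K ^ 2 * X) * ENNReal.ofReal w := by
          rw [lintegral_add_right _ measurable_const,
            lintegral_const_mul' _ _ ENNReal.ofReal_ne_top, setLIntegral_const, Real.volume_Icc,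
            show d + w - d = w by ring]
      _ ≤ ENNReal.ofReal 2 * ENNReal.ofReal (w * E0)
          + ENNReal.ofReal (2 * sm * Wb + 16 / K ^ 2 * X) * ENNReal.ofReal w :=
          add_le_add (mul_le_mul_right h1 _) le_rfl
      _ = _ := by
          rw [← ENNReal.ofReal_mul (by norm_num), ← ENNReal.ofReal_mul (by positivity),
            ← ENNReal.ofReal_add (by positivity) (by positivity), ← ENNReal.ofReal_mul hw.le]
          congr 1
          ring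
  exact (ENNReal.mul_le_mul_iff_right hw' ENNReal.ofReal_ne_top).1 hfin

end Z5

open Z5 in
/-- **Z5** -/
theorem nuUI (h1 : GaMean) (h2 : SmFour) (h3 : Variance) (h4 : WBd) (h5 : UnMean) (h6 : AfeSq)
    (h7 : NearE) (h8 : SmallT) : NuUI := by
  intro p0 hp0
  obtain ⟨C1, T1, hC1, hT1, hp⟩ := pair_le h1 h2 h3 p0 hp0
  obtain ⟨C2, T2, hC2, hT2, hw⟩ := W_mean h4 h5
  obtain ⟨C3, T3, hC3, hT3, hz⟩ := h6
  obtain ⟨C4, T4, hC4, hT4, hn⟩ := h7 p0 hp0
  obtain ⟨T5, hT5, hs⟩ := h8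
  refine ⟨2 * C4 + 384 * C3 * C1 + 2 * C3 * C2 + 1, max (max T1 T2) (max T3 (max T4 T5)), ?_,
    (hT1.trans (le_max_left _ _)).trans (le_max_left _ _), ?_⟩
  · have : 0 ≤ 384 * C3 * C1 + 2 * C3 * C2 := by positivity
    linarith
  intro A hA hAp T e hT hL x y K hx hK
  have hTT1 : T1 ≤ T := ((le_max_left _ _).trans (le_max_left _ _)).trans hT
  have hTT2 : T2 ≤ T := ((le_max_right _ _).trans (le_max_left _ _)).trans hT
  have hTT3 : T3 ≤ T := ((le_max_left _ _).trans (le_max_right _ _)).trans hT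
  have hTT4 : T4 ≤ T := (((le_max_left _ _).trans (le_max_right _ _)).trans (le_max_right _ _)).trans hT
  have hTT5 : T5 ≤ T := (((le_max_right _ _).trans (le_max_right _ _)).trans (le_max_right _ _)).trans hT
  have hT0 : 0 < T := by linarith
  have hT1' : 1 ≤ T := by linarith
  have hG := hA.Gs_pos y
  have hlog := M2.log_pos hL
  have he := hL.he
  have he1 := hL.he1
  have hKY := M2.KY_ge hA
  have hLK := hL.hK
  have hY := hA.hY
  have hK0 : 0 < K := by linarith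
  have hxT : |x| ≤ T := hx.trans (by
    conv_rhs => rw [← Real.rpow_one T]
    exact Real.rpow_le_rpow_of_exponent_le hT1' (by norm_num))
  have hW0 : ∀ z, 0 ≤ A.W ∅ y z := A.W_nonneg hA.b_pos.le ∅ y
  have hcW : Continuous fun t : ℝ => A.W ∅ y (om t) := (A.continuous_W' hA ∅ y).comp continuous_om
  have hcm : Continuous fun t : ℝ => A.mo (-1) ∅ (om t) := (A.continuous_mo (-1) ∅).comp continuous_om
  have hB : MeasurableSet {t : ℝ | K < ‖ze t‖ * ‖A.mo (-1) ∅ (om t)‖} :=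
    (isOpen_lt continuous_const (continuous_ze.norm.mul hcm.norm)).measurableSet
  have hR : MeasurableSet (Rg x T e) := measurableSet_Icc
  have a1 := hp A hA hAp T e hTT1 hL x y
  have a2 := hw A hA T e hTT2 hL x y
  have a4 := hn A hA hAp T e hTT4 hL x y hx
  have a5 := (hs A hA T e hTT5 hL x y hx ∅ ∅ (Finset.Subset.refl _) (Finset.empty_subset _)).1
  rw [Finset.sum_empty, neg_zero, Real.exp_zero, one_mul] at a5
  have hcd : cd T e = (1 / 2 - e) * Real.log T := rfl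
  have hwd : wd T e = e * Real.log T / 20 := rfl
  have a3 := fun t => hz T e hTT3 he he1 (by linarith) x t hxT
  set L : ℝ := Real.log T with hLdef
  have hL0 : 0 < L := by linarith
  have heL0 : 0 < e * L := mul_pos he hL0
  have hw0 : 0 < wd T e := by rw [hwd]; positivity
  have hY0 : 0 < A.Y := by linarith
  set w : ℝ := wd T e with hwdef
  set M0 : ℝ := C1 * ((L / A.Y) ^ 8 * (A.Y * A.Gs y)) with hM0
  have hM00 : 0 ≤ M0 := by positivity
  set sm : ℝ := C3 * Real.exp (-(1 / 4 * L)) with hsm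
  have hsm0 : 0 ≤ sm := by positivity
  set α : ℝ := (1 / 2 - e) * L with hα
  set β : ℝ := (1 / 2 + e / 5) * L with hβ
  have hαβ : α ≤ β := by rw [hα, hβ]; nlinarith
  have hba : β - α = 24 * w := by rw [hα, hβ, hwd]; ring
  have hk : 0 ≤ C3 / w := by positivity
  set M : ℝ → ℝ := fun t => C3 / w * ∫ a in α..β, ‖Sm w a (om t)‖ ^ 2 with hMdef
  have hM : ∀ t, 0 ≤ M t := fun t => mul_nonneg hk
    (intervalIntegral.integral_nonneg hαβ fun a _ => by positivity)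
  set X : ℝ := C3 / w * (M0 * (β - α)) with hX
  have hX0 : 0 ≤ X := mul_nonneg hk (mul_nonneg hM00 (by linarith))
  have hXe : X = 24 * C3 * M0 := by
    rw [hX, hba]
    field_simp
  have b1 := avg_le hA hT0 (x := x) (y := y) (w := w) (d := cd T e) (K := K) (sm := sm) (X := X)
    (E0 := C4 * (e * L) * A.Gs y) hw0 hK0 hsm0 hX0 (by positivity) hR M hM
    (fun t ht => a3 t ht) a4
    (fun c hc1 hc2 => mid_le hA hT0 hw0 hαβ hM00 hk fun a ha1 ha2 => a1 c a hc1 hc2 ha1.le ha2)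
    (Wb := C2 * (Real.exp (e * L / 100) * A.Gs y)) (by positivity) a2
  -- assembly
  set B : Set ℝ := {t : ℝ | K < ‖ze t‖ * ‖A.mo (-1) ∅ (om t)‖} with hBdef
  have hg : Measurable fun t : ℝ => ENNReal.ofReal (A.W ∅ y (om t)) :=
    ENNReal.measurable_ofReal.comp hcW.measurable
  have hf : Measurable fun t : ℝ => ENNReal.ofReal (‖ze t‖ ^ 2 / L) :=
    ENNReal.measurable_ofReal.comp ((continuous_ze.norm.pow 2).div_const L).measurable
  have c1 : ∫⁻ t in B, ENNReal.ofReal (A.W ∅ y (om t)) ∂(nu x T)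
      = ENNReal.ofReal (1 / L) * ∫⁻ t in B, ENNReal.ofReal (A.W ∅ y (om t) * ‖ze t‖ ^ 2) ∂(un x T) := by
    unfold nu
    rw [setLIntegral_withDensity_eq_setLIntegral_mul _ hf hg hB,
      ← lintegral_const_mul' _ _ ENNReal.ofReal_ne_top]
    refine lintegral_congr fun t => ?_
    rw [Pi.mul_apply, ← ENNReal.ofReal_mul (by positivity), ← ENNReal.ofReal_mul (by positivity)]
    congr 1
    ring
  have c2 : ∫⁻ t in B, ENNReal.ofReal (A.W ∅ y (om t) * ‖ze t‖ ^ 2) ∂(un x T)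
      ≤ ENNReal.ofReal (2 * (C4 * (e * L) * A.Gs y)
        + (2 * sm * (C2 * (Real.exp (e * L / 100) * A.Gs y)) + 16 / K ^ 2 * X))
        + ENNReal.ofReal (A.Gs y / L ^ 10) := by
    rw [← lintegral_inter_add_sdiff _ B hR]
    refine add_le_add b1 ?_
    refine (lintegral_mono_set (fun t ht => ht.2)).trans a5
  rw [c1]
  refine (mul_le_mul_right c2 _).trans ?_
  rw [← ENNReal.ofReal_add (by positivity) (by positivity), ← ENNReal.ofReal_mul (by positivity)]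
  refine ENNReal.ofReal_le_ofReal ?_
  -- numbers
  have heL1 : 1 ≤ e * L := by linarith
  have h1L : 1 / L ≤ e := by
    rw [div_le_iff₀ hL0]
    exact heL1
  have hLY : 1 ≤ L / A.Y := by
    rw [le_div_iff₀ hY0]
    nlinarith
  have d1 : 1 / L * (2 * (C4 * (e * L) * A.Gs y)) = 2 * C4 * (e * A.Gs y) := by
    field_simp
  have d2 : 1 / L * (2 * sm * (C2 * (Real.exp (e * L / 100) * A.Gs y)))
      ≤ 2 * C3 * C2 * (e * A.Gs y) := by
    have h9 : Real.exp (-(1 / 4 * L)) * Real.exp (e * L / 100) ≤ 1 := by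
      rw [← Real.exp_add]
      refine Real.exp_le_one_iff.2 ?_
      nlinarith
    calc 1 / L * (2 * sm * (C2 * (Real.exp (e * L / 100) * A.Gs y)))
        = 2 * C3 * C2 * (1 / L * ((Real.exp (-(1 / 4 * L)) * Real.exp (e * L / 100)) * A.Gs y)) := by
          rw [hsm]; ring
      _ ≤ 2 * C3 * C2 * (e * (1 * A.Gs y)) := by gcongr
      _ = _ := by ring
  have d3 : 1 / L * (16 / K ^ 2 * X) ≤ 384 * C3 * C1 * ((L / A.Y) ^ 10 / K ^ 2 * A.Gs y) := by
    have h9 : 1 / L * ((L / A.Y) ^ 8 * A.Y) ≤ (L / A.Y) ^ 10 := by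
      have h10 : 1 / L * ((L / A.Y) ^ 8 * A.Y) = (L / A.Y) ^ 7 := by
        field_simp
      rw [h10]
      exact pow_le_pow_right₀ hLY (by norm_num)
    calc 1 / L * (16 / K ^ 2 * X)
        = 384 * C3 * C1 * ((1 / L * ((L / A.Y) ^ 8 * A.Y)) / K ^ 2 * A.Gs y) := by
          rw [hXe, hM0]; ring
      _ ≤ _ := by gcongr
  have d4 : 1 / L * (A.Gs y / L ^ 10) ≤ e * A.Gs y := by
    have h9 : A.Gs y / L ^ 10 ≤ A.Gs y := div_le_self hG.le (one_le_pow₀ hlog)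
    exact mul_le_mul h1L h9 (by positivity) he.le
  have d5 : 0 ≤ (L / A.Y) ^ 10 / K ^ 2 * A.Gs y := by positivity
  have d6 : 0 ≤ e * A.Gs y := by positivity
  calc 1 / L * (2 * (C4 * (e * L) * A.Gs y)
        + (2 * sm * (C2 * (Real.exp (e * L / 100) * A.Gs y)) + 16 / K ^ 2 * X) + A.Gs y / L ^ 10)
      = 1 / L * (2 * (C4 * (e * L) * A.Gs y)) + (1 / L * (2 * sm * (C2 * (Real.exp (e * L / 100)
        * A.Gs y))) + 1 / L * (16 / K ^ 2 * X)) + 1 / L * (A.Gs y / L ^ 10) := by ring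
    _ ≤ 2 * C4 * (e * A.Gs y) + (2 * C3 * C2 * (e * A.Gs y)
        + 384 * C3 * C1 * ((L / A.Y) ^ 10 / K ^ 2 * A.Gs y)) + e * A.Gs y := by
        rw [d1]
        linarith
    _ ≤ (2 * C4 + 384 * C3 * C1 + 2 * C3 * C2 + 1) * (e * A.Gs y)
        + (2 * C4 + 384 * C3 * C1 + 2 * C3 * C2 + 1) * ((L / A.Y) ^ 10 / K ^ 2 * A.Gs y) := by
        have q1 : 0 ≤ 384 * C3 * C1 * (e * A.Gs y) := by positivity
        have q2 : 0 ≤ (2 * C4 + 2 * C3 * C2 + 1) * ((L / A.Y) ^ 10 / K ^ 2 * A.Gs y) := by positivity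
        nlinarith
    _ = _ := by ring

end Pool.Agent.Lib.G2
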