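import Mathlib
import Pool.Agent.Lib.MP_f9aece_nt_gt.All
import Pool.Agent.Lib.MP_f9aece_nt_g2.B1
import Pool.Agent.Lib.MP_f9aece_nt_g2.B2
import Pool.Agent.Lib.MP_f9aece_nt_g2.B3
import Pool.Agent.Lib.MP_f9aece_nt_g2.B4
import Pool.Agent.Lib.MP_f9aece_nt_g2.B5
import Pool.Agent.Lib.MP_f9aece_nt_g2.B6
import Pool.Agent.Lib.MP_f9aece_nt_g2.B7
import Pool.Agent.Lib.MP_f9aece_nt_g2.N1
import Pool.Agent.Lib.MP_f9aece_nt_g2.N2
import Pool.Agent.Lib.MP_f9aece_nt_g2.N3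
import Pool.Agent.Lib.MP_f9aece_nt_g2.C3
import Pool.Agent.Lib.MP_f9aece_nt_g2.C5
import Pool.Agent.Lib.MP_f9aece_nt_g2.C6
import Pool.Agent.Lib.MP_f9aece_nt_g2.C7
import Pool.Agent.Lib.MP_f9aece_nt_g2.C8
import Pool.Agent.Lib.MP_f9aece_nt_g2.C9
import Pool.Agent.Lib.MP_f9aece_nt_g2.C10
import Pool.Agent.Lib.MP_f9aece_nt_g2.T0a
import Pool.Agent.Lib.MP_f9aece_nt_g2.T0b
import Pool.Agent.Lib.MP_f9aece_nt_g2.K1
import Pool.Agent.Lib.MP_f9aece_nt_g2.K2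
import Pool.Agent.Lib.MP_f9aece_nt_g2.T1
import Pool.Agent.Lib.MP_f9aece_nt_g2.T1b
import Pool.Agent.Lib.MP_f9aece_nt_g2.T2
import Pool.Agent.Lib.MP_f9aece_nt_g2.T3
import Pool.Agent.Lib.MP_f9aece_nt_g2.T4
import Pool.Agent.Lib.MP_f9aece_nt_g2.T5
import Pool.Agent.Lib.MP_f9aece_nt_g2.T6
import Pool.Agent.Lib.MP_f9aece_nt_g2.T8
import Pool.Agent.Lib.MP_f9aece_nt_g2.T9
import Pool.Agent.Lib.MP_f9aece_nt_g2.M1
import Pool.Agent.Lib.MP_f9aece_nt_g2.M2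
import Pool.Agent.Lib.MP_f9aece_nt_g2.M3
import Pool.Agent.Lib.MP_f9aece_nt_g2.M4
import Pool.Agent.Lib.MP_f9aece_nt_g2.Z1
import Pool.Agent.Lib.MP_f9aece_nt_g2.Z1b
import Pool.Agent.Lib.MP_f9aece_nt_g2.Z2
import Pool.Agent.Lib.MP_f9aece_nt_g2.Z3
import Pool.Agent.Lib.MP_f9aece_nt_g2.Z4
import Pool.Agent.Lib.MP_f9aece_nt_g2.Z5
import Pool.Agent.Lib.MP_f9aece_nt_g2.F1
import Pool.Agent.Lib.MP_f9aece_nt_g2.F3
import Pool.Agent.Lib.MP_f9aece_nt_g2.H0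
import Pool.Agent.Lib.MP_f9aece_nt_g2.H1
import Pool.Agent.Lib.MP_f9aece_nt_g2.H2
import Pool.Agent.Lib.MP_f9aece_nt_g2.H3
import Pool.Agent.Lib.MP_f9aece_nt_g2.H4
import Pool.Agent.Lib.MP_f9aece_nt_g2.H5
import Pool.Agent.Lib.MP_f9aece_nt_g2.H6
import Pool.Agent.Lib.MP_f9aece_nt_g2.H7
import Pool.Agent.Lib.MP_f9aece_nt_g2.H8

/-!
The law of `log |zeta|` under the measures `1` and `|zeta| ^ 2`: the assembly.
-/

set_option autoImplicit false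

namespace Pool.Agent.Lib.G2

open Pool.Agent.Lib.GT (psiBd winDecay smoothAfe compare tailFacts gaussianTails)

/-- the law of `log |zeta|` under `|zeta| ^ 2` -/
theorem mainTwo' : MainTwo := by
  have hN1 := groupNum
  have hN2 := primeSums
  have hV := variance
  have hB2 := prodPrimes onePrime
  have hB4 := groupMain hB2 expMom
  have hB5 := groupBad expMom
  have hB6 := allMain hB4 hN1
  have hB7 := allBd hB4 hB5 hN1
  have hC1 := psiBd winDecay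
  have hC3 := wForm
  have hC4 := wLen hN1
  have hC5 := wTransfer hC3 hC4
  have hC6 := wGauss hC1
  have hC7 := wMain hC3 hB6 hC6 hN1
  have hC8 := wBd hC3 hB6 hB7 hC6 hN1
  have hC9 := pointwise winDecay
  have hC10 := wPoint hC1 hC9
  have hC11 := compare hC1
  have hT1 := fuBd hC8 hN2
  have hT1b := fuDiff hT1
  have hT2 := fuFour hC8 hN2
  have hT6 := fuMain hC7 hC6
  have hT7 := moBd hC8
  have hT9 := rouNum hN1 hN2
  have hT3 := smWin sForm sKer ker1 ker2 hT1 hT9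
  have hT4 := smUp sForm sKer ker1 hT1 hT9
  have hT5 := smMain hN1 hV sForm sKer ker1 hT1 hT1b hT6 hT9
  have hT8 := smFour sForm sKer ker1 hT2 hT9
  have hM1 := gaMean hC5 hN1
  have hZ6 := moUp hM1 hT7 hV hN1
  have hM2 := unMean hC5
  have hM3 := cross hC3 hC4
  have hM4 := smallT hC3 hC4 hN1
  have hZ1b := afeSq afeW
  have hZ4 := nuUp smoothAfe hM1 hT4 hM4 hV hC8 hN1
  have hZ2 := nearE afeW hM1 hT3 hV hC8 hN1
  have hZ3 := nuMain hZ2 hM2 hM3 hM4 hT5 hC6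
  have hZ5 := nuUI hM1 hT8 hV hC8 hM2 hZ1b hZ2 hM4
  have hF1 := tiltUp hC10
  have hF2 := tiltLow hC10
  have hF3 := lawNu hZ3 hZ4 hC10 hC11 hC6 hN1 hC1
  have hH0 := lastLevel hF1 hZ4 hZ5 hV hN1
  have hH1 := nuUpper hF1 hZ4 hZ5 hH0 hC10 hN1 hV
  have hH2 := nuLower hF1 hZ6 hC10
  have hH3 := nuUpperS hF1 hF2 hZ6 hZ4 hC10 hN1
  have hH4 := nuLowerS hF1 hZ5 hC10
  exact mainTwo hF3 hH1 hH2 hH3 hH4 hV tailFacts

/-- everything -/
theorem all : Final :=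
  final (finZero gaussianTails) (finTwo (mainTwo')) momTwo

end Pool.Agent.Lib.G2
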