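import Mathlib
import Pool.Agent.Lib.MP_f9aece_nt_g2.StmtsZ

/-!
The law of `log |zeta|` under the measure `|zeta| ^ 2`: row H0, the last level is good up to a small
set.
-/

set_option autoImplicit false

namespace Pool.Agent.Lib.G2

open MeasureTheory Set Filter Topology Complex ProbabilityTheory
open scoped ComplexConjugate
open Pool.Agent.Lib.GT

namespace H0

lemma cont_lin (S : Finset ℕ) (c : ℕ → ℂ) : Continuous fun t : ℝ => lin S c (om t) := by
  have h : Continuous fun x : Om => lin S c x := by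
    unfold lin
    fun_prop
  exact h.comp continuous_om

lemma cont_mo (A : Par) (μ : ℂ) (s : Finset ℕ) : Continuous fun t : ℝ => A.mo μ s (om t) := by
  unfold Par.mo
  refine continuous_finsetProd _ fun g _ => ?_
  have h : Continuous fun t : ℝ => A.P g (om t) := cont_lin _ _
  unfold tex
  fun_prop

lemma cont_ze : Continuous ze := by
  rw [continuous_iff_continuousAt]
  intro t
  have h1 : (1 / 2 + I * t : ℂ) ≠ 1 := by
    intro h
    have := congrArg Complex.re h
    norm_num at this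
  have h2 : ContinuousAt (fun t : ℝ => (1 / 2 + I * t : ℂ)) t := by fun_prop
  exact ContinuousAt.comp (g := riemannZeta) (f := fun t : ℝ => (1 / 2 + I * t : ℂ))
    (differentiableAt_riemannZeta h1).continuousAt h2

/-- the sum over the sets of groups -/
lemma sum_sets (J : ℕ) (a : ℕ → ℝ) (ε : ℝ) (hε : 0 ≤ ε) (hε1 : ε ≤ 1)
    (h : ∑ g ∈ Finset.range J, Real.exp (-a g) ≤ 2 * ε) :
    ∑ s ∈ (Finset.range J).powerset.erase ∅, Real.exp (-∑ g ∈ s, a g) ≤ 16 * ε ∧
      ∑ s ∈ (Finset.range J).powerset, Real.exp (-∑ g ∈ s, a g) ≤ 17 := by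
  have h1 : ∑ s ∈ (Finset.range J).powerset, Real.exp (-∑ g ∈ s, a g)
      = ∏ g ∈ Finset.range J, (1 + Real.exp (-a g)) := by
    rw [Finset.prod_one_add]
    refine Finset.sum_congr rfl fun s _ => ?_
    rw [← Real.exp_sum, Finset.sum_neg_distrib]
  have h2 : ∏ g ∈ Finset.range J, (1 + Real.exp (-a g)) ≤ Real.exp (2 * ε) := by
    calc ∏ g ∈ Finset.range J, (1 + Real.exp (-a g))
        ≤ ∏ g ∈ Finset.range J, Real.exp (Real.exp (-a g)) := by
          refine Finset.prod_le_prod (fun g _ => by positivity) fun g _ => ?_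
          have := Real.add_one_le_exp (Real.exp (-a g))
          linarith
      _ = Real.exp (∑ g ∈ Finset.range J, Real.exp (-a g)) := (Real.exp_sum _ _).symm
      _ ≤ Real.exp (2 * ε) := Real.exp_le_exp.2 h
  have h3 : Real.exp (2 * ε) ≤ 1 + 16 * ε := by
    have hc := convexOn_exp.2 (Set.mem_univ (0 : ℝ)) (Set.mem_univ (2 : ℝ))
      (show (0 : ℝ) ≤ 1 - ε by linarith) hε (by ring)
    simp only [smul_eq_mul, mul_zero, zero_add, Real.exp_zero, mul_one] at hc
    have he : Real.exp 2 ≤ 9 := by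
      have h4 := Real.exp_one_lt_d9
      have h5 : Real.exp 2 = Real.exp 1 * Real.exp 1 := by rw [← Real.exp_add]; norm_num
      rw [h5]
      nlinarith [Real.exp_pos 1]
    have : ε * 2 = 2 * ε := by ring
    rw [this] at hc
    nlinarith
  have h4 : (∅ : Finset ℕ) ∈ (Finset.range J).powerset := Finset.empty_mem_powerset _
  have h5 := Finset.add_sum_erase _ (fun s : Finset ℕ => Real.exp (-∑ g ∈ s, a g)) h4
  simp only [Finset.sum_empty, neg_zero, Real.exp_zero] at h5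
  constructor <;> linarith

/-! ### the last level with another tilt -/

/-- the data of level `I` of `A` with another tilt -/
noncomputable def lv (A : Par) (I : ℕ) (sg be : ℝ) : Par where
  v := A.v
  p0 := A.p0
  J := A.J - I
  i := A.i + I
  Y := A.Yf I
  sg := sg
  be := be
  b := be

variable (A : Par)

lemma Yf_anti (hY : 0 ≤ A.Y) {g h : ℕ} (hgh : g ≤ h) : A.Yf h ≤ A.Yf g := by
  unfold Par.Yf
  refine mul_le_mul_of_nonneg_left (Real.exp_le_exp.2 ?_) hY
  have h1 : (g : ℝ) ≤ h := by exact_mod_cast hgh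
  have h2 : (0 : ℝ) ≤ A.v := Nat.cast_nonneg _
  nlinarith

lemma Yf_zero : A.Yf 0 = A.Y := by
  unfold Par.Yf
  simp

lemma lv_Yf (I : ℕ) (sg be : ℝ) (g : ℕ) : (lv A I sg be).Yf g = A.Yf (I + g) := by
  change A.Yf I * Real.exp (-((A.v : ℝ) * g)) = _
  unfold Par.Yf
  rw [mul_assoc, ← Real.exp_add]
  push_cast
  ring_nf

/-- the primes of the groups -/
lemma mem_U (hY : 0 ≤ A.Y) (hp : 1 ≤ A.p0) (hJ : A.Yf A.J ≤ Real.log A.p0) (p : ℕ) :
    p ∈ A.U ↔ p.Prime ∧ A.p0 < p ∧ (p : ℝ) ≤ Real.exp A.Y := by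
  classical
  unfold Par.U
  simp only [Finset.mem_biUnion, Finset.mem_range, Par.S, Finset.mem_filter, Finset.mem_Icc]
  constructor
  · rintro ⟨g, -, ⟨h1, h2⟩, h3, h4, -⟩
    refine ⟨h3, h4, ?_⟩
    have h5 : (p : ℝ) ≤ Real.exp (A.Yf g) :=
      (Nat.le_floor_iff (Real.exp_nonneg _)).1 h2
    refine h5.trans (Real.exp_le_exp.2 ?_)
    have := Yf_anti A hY (Nat.zero_le g)
    rwa [Yf_zero] at this
  · rintro ⟨h1, h2, h3⟩
    have hp0 : (0 : ℝ) < p := by exact_mod_cast h1.pos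
    have hp00 : (0 : ℝ) < A.p0 := by exact_mod_cast hp
    have hlog : Real.log A.p0 < Real.log p := Real.log_lt_log hp00 (by exact_mod_cast h2)
    have hex : ∃ k, A.Yf k < Real.log p := ⟨A.J, hJ.trans_lt hlog⟩
    have hk := Nat.find_spec hex
    have hkJ : Nat.find hex ≤ A.J := Nat.find_le (hJ.trans_lt hlog)
    have hk0 : Nat.find hex ≠ 0 := by
      intro h0
      rw [h0, Yf_zero] at hk
      have : Real.log p ≤ A.Y := by
        rw [← Real.log_exp A.Y]
        exact Real.log_le_log hp0 h3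
      linarith
    obtain ⟨g, hg⟩ := Nat.exists_eq_succ_of_ne_zero hk0
    refine ⟨g, by omega, ⟨h1.one_lt.le, ?_⟩, h1, h2, ?_⟩
    · have hm := Nat.find_min hex (m := g) (by omega)
      rw [not_lt] at hm
      refine (Nat.le_floor_iff (Real.exp_nonneg _)).2 ?_
      rw [← Real.exp_log hp0]
      exact Real.exp_le_exp.2 hm
    · rw [hg] at hk
      rw [← Real.exp_log hp0]
      exact Real.exp_lt_exp.2 hk

lemma Gs_eq (y : ℝ) : A.Gs y = Real.exp (A.be * (A.sg * A.vt)) * A.G y := by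
  unfold Par.Gs Par.G
  rw [mul_left_comm, ← Real.exp_add]
  ring_nf

lemma G_le (hs : 1 ≤ A.s2) (y : ℝ) : A.G y ≤ Real.exp (-(A.be * y) + A.be ^ 2 * A.s2 / 2) := by
  unfold Par.G
  have h1 : 1 ≤ Real.sqrt A.s2 := by
    rw [show (1 : ℝ) = Real.sqrt 1 by simp]
    exact Real.sqrt_le_sqrt hs
  have h2 : 1 / Real.sqrt A.s2 ≤ 1 := by
    rw [div_le_one (by positivity)]
    exact h1
  calc 1 / Real.sqrt A.s2 * Real.exp (-(A.be * y) + A.be ^ 2 * A.s2 / 2)
      ≤ 1 * Real.exp (-(A.be * y) + A.be ^ 2 * A.s2 / 2) := by gcongr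
    _ = _ := one_mul _

variable {A} in
lemma I_lt (hA : A.Ok) {I : ℕ} (hI : Real.log A.p0 < A.Yf I) : I < A.J := by
  by_contra h
  rw [not_lt] at h
  have h1 := Yf_anti A (by linarith [hA.hY]) h
  linarith [hA.hJ.1]

variable {A} in
lemma lv_J (hA : A.Ok) {I : ℕ} (hI : Real.log A.p0 < A.Yf I) (sg be : ℝ) :
    (lv A I sg be).Yf (lv A I sg be).J ≤ Real.log (lv A I sg be).p0 := by
  have h := I_lt hA hI
  rw [lv_Yf]
  change A.Yf (I + (A.J - I)) ≤ Real.log A.p0
  rw [Nat.add_sub_cancel' h.le]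
  exact hA.hJ.1

variable {A} in
lemma lv_vt {C : ℝ} (hC : ∀ A : Par, 1000 ≤ A.p0 → 1 ≤ A.Y →
    (∀ p, p ∈ A.U ↔ p.Prime ∧ A.p0 < p ∧ (p : ℝ) ≤ Real.exp A.Y) →
    |A.vt - Real.log A.Y| ≤ C + Real.log A.p0) (hA : A.Ok) {I : ℕ}
    (hI : Real.log A.p0 < A.Yf I) (hI1 : 1 ≤ A.Yf I) (sg be : ℝ) :
    |(lv A I sg be).vt - Real.log (A.Yf I)| ≤ C + Real.log A.p0 := by
  refine hC (lv A I sg be) hA.hp hI1 (mem_U _ ?_ ?_ (lv_J hA hI sg be))
  · change 0 ≤ A.Yf I
    linarith
  · have := hA.hp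
    change 1 ≤ A.p0
    omega

variable {A} in
lemma lv_ok {C : ℝ} (hC : ∀ A : Par, 1000 ≤ A.p0 → 1 ≤ A.Y →
    (∀ p, p ∈ A.U ↔ p.Prime ∧ A.p0 < p ∧ (p : ℝ) ≤ Real.exp A.Y) →
    |A.vt - Real.log A.Y| ≤ C + Real.log A.p0) (hA : A.Ok) {I : ℕ}
    (hI : Real.log A.p0 < A.Yf I) (hI1 : 1 ≤ A.Yf I)
    (hI2 : 2 ≤ Real.log (A.Yf I) - (C + Real.log A.p0)) {sg be : ℝ} (hsg : sg = 1 ∨ sg = -1)
    (hbe : 0 < be) (hb : be ≤ 1 / 20) : (lv A I sg be).Ok where
  hv := hA.hv
  hp := hA.hp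
  hY := hI1
  hJ := by
    refine ⟨lv_J hA hI sg be, fun g hg => ?_⟩
    rw [lv_Yf]
    change g < A.J - I at hg
    exact hA.hJ.2 _ (by omega)
  hsg := hsg
  hbe := hbe
  hbb := le_rfl
  hb := hb
  hs := by
    have h1 := abs_le.1 (lv_vt hC hA hI hI1 sg be)
    have h2 : (lv A I sg be).s2 = (lv A I sg be).vt / 2 := rfl
    linarith [h1.1]

/-- the density -/
noncomputable def dn (T : ℝ) (t : ℝ) : ENNReal := ENNReal.ofReal (‖ze t‖ ^ 2 / Real.log T)

lemma meas_dn (T : ℝ) : Measurable (dn T) :=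
  ENNReal.measurable_ofReal.comp ((cont_ze.norm.pow 2).div_const _).measurable

lemma nu_eq (x T : ℝ) : nu x T = (un x T).withDensity (dn T) := rfl

/-- from the weights to sets, for the measure `nu` -/
lemma nu_tilt {C : ℝ} (hTU : ∀ s : Finset ℕ,
    s ⊆ Finset.range A.J → ∀ (x T κ : ℝ), 0 < T → 0 ≤ κ → ∀ H : ℝ → ENNReal, Measurable H →
    (∀ y : ℝ, ∫⁻ t, ENNReal.ofReal (A.W s y (om t)) * H t ∂(un x T) ≤ ENNReal.ofReal (κ * A.G y)) →
    ∀ V : ℝ, ∫⁻ t in {t | A.Good s (om t) ∧ A.Bad s (om t) ∧ V < A.X s (om t)}, H t ∂(un x T)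
      ≤ ENNReal.ofReal (C * κ * (A.G V / A.be)))
    {s : Finset ℕ} (hs : s ⊆ Finset.range A.J) {x T κ : ℝ} (hT : 0 < T) (hκ : 0 ≤ κ) {S : Set ℝ}
    (hS : MeasurableSet S)
    (h : ∀ y : ℝ, ∫⁻ t in S, ENNReal.ofReal (A.W s y (om t)) ∂(nu x T)
      ≤ ENNReal.ofReal (κ * A.Gs y)) (V : ℝ) :
    nu x T ({t | A.Good s (om t) ∧ A.Bad s (om t) ∧ V < A.X s (om t)} ∩ S)
      ≤ ENNReal.ofReal (C * (κ * Real.exp (A.be * (A.sg * A.vt))) * (A.G V / A.be)) := by
  have hpr : IsProbabilityMeasure (un x T) := prob_un x hT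
  have key := hTU s hs x T (κ * Real.exp (A.be * (A.sg * A.vt))) hT (by positivity)
    (S.indicator (dn T)) ((meas_dn T).indicator hS) ?_ V
  · refine le_trans (le_of_eq ?_) key
    rw [setLIntegral_indicator hS, nu_eq, withDensity_apply', Set.inter_comm]
  · intro y
    have h1 := h y
    rw [nu_eq, setLIntegral_withDensity_eq_setLIntegral_mul_non_measurable _ (meas_dn T) _ hS
      (Eventually.of_forall fun t => by unfold dn; exact ENNReal.ofReal_lt_top)] at h1
    have h2 : ∀ t, ENNReal.ofReal (A.W s y (om t)) * S.indicator (dn T) t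
        = S.indicator (dn T * fun t => ENNReal.ofReal (A.W s y (om t))) t := by
      intro t
      by_cases ht : t ∈ S
      · rw [Set.indicator_of_mem ht, Set.indicator_of_mem ht, Pi.mul_apply, mul_comm]
      · rw [Set.indicator_of_notMem ht, Set.indicator_of_notMem ht, mul_zero]
    simp_rw [h2]
    rw [lintegral_indicator hS]
    refine h1.trans (ENNReal.ofReal_le_ofReal (le_of_eq ?_))
    rw [Gs_eq]
    ring

/-! ### numerical facts -/

section num

variable {A} {M lam T : ℝ} {I : ℕ}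

lemma vI_le (hM : 1 ≤ M) (hY : A.Y = Real.exp lam / M) (hlo : 1 ≤ A.Yf I) : (A.v : ℝ) * I ≤ lam := by
  have h1 : A.Yf I ≤ Real.exp (lam - A.v * I) := by
    unfold Par.Yf
    rw [hY, sub_eq_add_neg, Real.exp_add]
    have : Real.exp lam / M ≤ Real.exp lam := div_le_self (Real.exp_nonneg _) hM
    gcongr
  have h2 : Real.exp 0 ≤ Real.exp (lam - A.v * I) := by
    rw [Real.exp_zero]
    linarith
  have := Real.exp_le_exp.1 h2
  linarith

lemma eps_le (hM : 1 ≤ M) (hY : A.Y = Real.exp lam / M)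
    (hhi : A.Yf I ≤ Real.exp A.v * Real.exp (lam / 2)) :
    Real.exp (-(A.v * (I + 1) : ℝ)) ≤ M * Real.exp (-(lam / 2)) := by
  have hM0 : 0 < M := by linarith
  have h1 : Real.exp (-((A.v : ℝ) * I)) = A.Yf I * M * Real.exp (-lam) := by
    unfold Par.Yf
    rw [hY, Real.exp_neg lam]
    field_simp
  have h2 : Real.exp (-(A.v * (I + 1) : ℝ)) = Real.exp (-(A.v : ℝ)) * Real.exp (-((A.v : ℝ) * I)) := by
    rw [← Real.exp_add]
    ring_nf
  rw [h2, h1]
  calc Real.exp (-(A.v : ℝ)) * (A.Yf I * M * Real.exp (-lam))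
      ≤ Real.exp (-(A.v : ℝ)) * (Real.exp A.v * Real.exp (lam / 2) * M * Real.exp (-lam)) := by gcongr
    _ = M * (Real.exp (-(A.v : ℝ)) * Real.exp A.v * (Real.exp (lam / 2) * Real.exp (-lam))) := by ring
    _ = M * Real.exp (-(lam / 2)) := by
        rw [← Real.exp_add, ← Real.exp_add, neg_add_cancel, Real.exp_zero, one_mul]
        ring_nf

lemma KY_le (hM : 1 ≤ M) (hY : A.Y = Real.exp lam / M) (hlo : 1 ≤ A.Yf I)
    (hhi : A.Yf I ≤ Real.exp A.v * Real.exp (lam / 2)) :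
    A.v * (I + 1) * A.Yf I ≤ (lam + A.v) * Real.exp A.v * Real.exp (lam / 2) := by
  have h1 := vI_le hM hY hlo
  have h2 : (0 : ℝ) ≤ A.v := Nat.cast_nonneg _
  have h3 : (0 : ℝ) ≤ I := Nat.cast_nonneg _
  have h4 : 0 ≤ lam := by nlinarith [mul_nonneg h2 h3]
  calc A.v * (I + 1) * A.Yf I ≤ (lam + A.v) * (Real.exp A.v * Real.exp (lam / 2)) := by
        refine mul_le_mul (by linarith) hhi (by linarith) (by linarith)
    _ = _ := by ring

lemma len_lv (hA : A.Ok) (hi : A.i = 0) (hT : 3 ≤ T) (hlam : Real.log T = Real.exp lam)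
    (hlo : Real.exp (lam / 2) ≤ A.Yf I)
    (he : 10 ^ 10 * (A.v * (I + 1) * A.Yf I) / Real.exp lam ≤ 1 / 100) (h0 : 0 ≤ lam) (sg be : ℝ) :
    Len (lv A I sg be) T (10 ^ 10 * (A.v * (I + 1) * A.Yf I) / Real.exp lam) := by
  have hv : (4 : ℝ) ≤ A.v := by exact_mod_cast hA.hv
  have h3 : (0 : ℝ) ≤ I := Nat.cast_nonneg _
  have hy : 0 < A.Yf I := (Real.exp_pos _).trans_le hlo
  have hK : (lv A I sg be).KY = A.v * (I + 1) * A.Yf I := by
    unfold Par.KY
    change (A.v : ℝ) * (((A.i + I : ℕ) : ℝ) + 1) * A.Yf I = _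
    rw [hi, zero_add]
  have hpos : 0 < A.v * (I + 1) * A.Yf I := by positivity
  have hmul : 10 ^ 10 * (A.v * (I + 1) * A.Yf I) / Real.exp lam * Real.log T
      = 10 ^ 10 * (A.v * (I + 1) * A.Yf I) := by
    rw [hlam]
    field_simp
  refine ⟨by positivity, he, hT, ?_, ?_⟩
  · rw [hK, hmul]
  · rw [hmul, hlam, ← Real.exp_nat_mul]
    refine Real.exp_le_exp.2 ?_
    have h5 : lam / 2 + 1 ≤ Real.exp (lam / 2) := Real.add_one_le_exp _
    have h6 : 4 * Real.exp (lam / 2) ≤ A.v * (I + 1) * A.Yf I := by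
      refine mul_le_mul ?_ hlo (Real.exp_nonneg _) (by positivity)
      nlinarith
    push_cast
    linarith

lemma final_num {C1 C2 C3 M v c lam : ℝ} (h1 : 0 ≤ C1) (h2 : 0 ≤ C2) (h3 : 0 ≤ C3) (hM : 0 ≤ M)
    (hv : 0 ≤ v) (hl : 0 ≤ lam)
    (hB : (1600 * (C1 * C2 * M) + 100 * (C1 * C3) * (10 ^ 10 * ((100 + v) * Real.exp v)
      + Real.exp v ^ 2) + 340 * (C1 * C2)) * Real.exp c ≤ Real.exp (31 / 200 * lam)) :
    C1 * C2 * (16 * (M * Real.exp (-(lam / 2)))) * (100 * Real.exp (21 / 100 * lam + c))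
      + C1 * C3 * (10 ^ 10 * ((lam + v) * Real.exp v * Real.exp (-(lam / 2)))
        + (Real.exp v * Real.exp (-(lam / 2))) ^ 2) * (100 * Real.exp (21 / 100 * lam + c))
      + C1 * C2 * 17 * (20 * Real.exp (-(9 / 10 * lam) + c)) ≤ Real.exp (-(1 / 8 * lam)) := by
  have e1 : Real.exp (-(lam / 2)) * Real.exp (21 / 100 * lam + c)
      ≤ Real.exp c * Real.exp (-(28 / 100 * lam)) := by
    rw [← Real.exp_add, ← Real.exp_add]
    exact Real.exp_le_exp.2 (by linarith)
  have e2 : (lam + v) * (Real.exp (-(lam / 2)) * Real.exp (21 / 100 * lam + c))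
      ≤ (100 + v) * (Real.exp c * Real.exp (-(28 / 100 * lam))) := by
    have h4 : lam + v ≤ (100 + v) * Real.exp (lam / 100) := by
      have h5 : lam / 100 + 1 ≤ Real.exp (lam / 100) := Real.add_one_le_exp _
      have h6 : 1 ≤ Real.exp (lam / 100) := Real.one_le_exp (by positivity)
      nlinarith
    calc (lam + v) * (Real.exp (-(lam / 2)) * Real.exp (21 / 100 * lam + c))
        ≤ (100 + v) * Real.exp (lam / 100) * (Real.exp (-(lam / 2)) * Real.exp (21 / 100 * lam + c)) := by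
          gcongr
      _ = (100 + v) * (Real.exp (lam / 100) * (Real.exp (-(lam / 2)) * Real.exp (21 / 100 * lam + c))) := by
          ring
      _ = (100 + v) * (Real.exp c * Real.exp (-(28 / 100 * lam))) := by
          rw [← Real.exp_add, ← Real.exp_add, ← Real.exp_add]
          ring_nf
  have e3 : Real.exp (-(lam / 2)) ^ 2 * Real.exp (21 / 100 * lam + c)
      ≤ Real.exp c * Real.exp (-(28 / 100 * lam)) := by
    rw [← Real.exp_nat_mul, ← Real.exp_add, ← Real.exp_add]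
    refine Real.exp_le_exp.2 ?_
    push_cast
    linarith
  have e4 : Real.exp (-(9 / 10 * lam) + c) ≤ Real.exp c * Real.exp (-(28 / 100 * lam)) := by
    rw [← Real.exp_add]
    exact Real.exp_le_exp.2 (by linarith)
  have e5 : Real.exp (31 / 200 * lam) * Real.exp (-(28 / 100 * lam)) = Real.exp (-(1 / 8 * lam)) := by
    rw [← Real.exp_add]
    ring_nf
  rw [← e5]
  refine le_trans ?_ (mul_le_mul_of_nonneg_right hB (Real.exp_nonneg _))
  have t1 : C1 * C2 * (16 * (M * Real.exp (-(lam / 2)))) * (100 * Real.exp (21 / 100 * lam + c))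
      ≤ 1600 * (C1 * C2 * M) * (Real.exp c * Real.exp (-(28 / 100 * lam))) := by
    calc _ = 1600 * (C1 * C2 * M) * (Real.exp (-(lam / 2)) * Real.exp (21 / 100 * lam + c)) := by ring
      _ ≤ _ := by gcongr
  have t2 : C1 * C3 * (10 ^ 10 * ((lam + v) * Real.exp v * Real.exp (-(lam / 2)))
        + (Real.exp v * Real.exp (-(lam / 2))) ^ 2) * (100 * Real.exp (21 / 100 * lam + c))
      ≤ 100 * (C1 * C3) * (10 ^ 10 * ((100 + v) * Real.exp v)
      + Real.exp v ^ 2) * (Real.exp c * Real.exp (-(28 / 100 * lam))) := by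
    calc _ = 100 * (C1 * C3) * (10 ^ 10 * Real.exp v * ((lam + v)
              * (Real.exp (-(lam / 2)) * Real.exp (21 / 100 * lam + c)))
            + Real.exp v ^ 2 * (Real.exp (-(lam / 2)) ^ 2 * Real.exp (21 / 100 * lam + c))) := by ring
      _ ≤ 100 * (C1 * C3) * (10 ^ 10 * Real.exp v * ((100 + v) * (Real.exp c * Real.exp (-(28 / 100 * lam))))
            + Real.exp v ^ 2 * (Real.exp c * Real.exp (-(28 / 100 * lam)))) := by gcongr
      _ = _ := by ring
  have t3 : C1 * C2 * 17 * (20 * Real.exp (-(9 / 10 * lam) + c))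
      ≤ 340 * (C1 * C2) * (Real.exp c * Real.exp (-(28 / 100 * lam))) := by
    calc _ = 340 * (C1 * C2) * Real.exp (-(9 / 10 * lam) + c) := by ring
      _ ≤ _ := by gcongr
  calc _ ≤ 1600 * (C1 * C2 * M) * (Real.exp c * Real.exp (-(28 / 100 * lam)))
        + 100 * (C1 * C3) * (10 ^ 10 * ((100 + v) * Real.exp v)
      + Real.exp v ^ 2) * (Real.exp c * Real.exp (-(28 / 100 * lam)))
        + 340 * (C1 * C2) * (Real.exp c * Real.exp (-(28 / 100 * lam))) := by
        gcongr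
    _ = _ := by ring

end num

end H0

open H0 in
/-- H0 -/
theorem lastLevel (h1 : TiltUp) (h2 : NuUp) (h3 : NuUI) (h4 : Variance) (h5 : GroupNum) :
    LastLevel := by
  classical
  obtain ⟨C1, v1, hC1, H1⟩ := h1
  obtain ⟨⟨Cv, hCv, HV⟩, -⟩ := h4
  intro p0 hp0
  obtain ⟨C2, T2, hC2, hT2, H2⟩ := h2 p0 hp0
  obtain ⟨C3, T3, hC3, hT3, H3⟩ := h3 p0 hp0
  refine ⟨v1, fun v hv M hM => ?_⟩
  have hlp : 0 ≤ Real.log p0 := Real.log_natCast_nonneg _
  set c1 : ℝ := v + (Cv + Real.log p0) with hc1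
  have hc10 : 0 ≤ c1 := by positivity
  set B : ℝ := (1600 * (C1 * C2 * M) + 100 * (C1 * C3) * (10 ^ 10 * ((100 + (v : ℝ)) * Real.exp v)
      + Real.exp v ^ 2) + 340 * (C1 * C2)) * Real.exp c1 with hB
  -- large heights
  have evx : ∀ (c b : ℝ), 0 < c → ∀ᶠ lam : ℝ in atTop, b ≤ Real.exp (c * lam) := fun c b hc =>
    (Real.tendsto_exp_atTop.comp (tendsto_id.const_mul_atTop hc)).eventually_ge_atTop b
  have ev1 : ∀ᶠ lam : ℝ in atTop, 1 ≤ lam ∧ Real.log p0 + 1 ≤ Real.exp (1 / 2 * lam) ∧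
      2 + (Cv + Real.log p0) ≤ 1 / 2 * lam ∧
      100 * (10 ^ 10 * ((100 + (v : ℝ)) * Real.exp v)) ≤ Real.exp (49 / 100 * lam) ∧
      B ≤ Real.exp (31 / 200 * lam) := by
    refine (eventually_ge_atTop 1).and ((evx _ _ (by norm_num)).and (Eventually.and ?_
      ((evx _ _ (by norm_num)).and (evx _ _ (by norm_num)))))
    exact (tendsto_id.const_mul_atTop (by norm_num : (0 : ℝ) < 1 / 2)).eventually_ge_atTop _
  have ev2 : ∀ᶠ T : ℝ in atTop, 1 ≤ Real.log (Real.log T) ∧
      Real.log p0 + 1 ≤ Real.exp (1 / 2 * Real.log (Real.log T)) ∧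
      2 + (Cv + Real.log p0) ≤ 1 / 2 * Real.log (Real.log T) ∧
      100 * (10 ^ 10 * ((100 + (v : ℝ)) * Real.exp v)) ≤ Real.exp (49 / 100 * Real.log (Real.log T)) ∧
      B ≤ Real.exp (31 / 200 * Real.log (Real.log T)) :=
    (Real.tendsto_log_atTop.comp Real.tendsto_log_atTop).eventually ev1
  obtain ⟨T4, hT4⟩ := eventually_atTop.1 ev2
  refine ⟨max 3 (max T2 (max T3 T4)), le_max_left _ _, ?_⟩
  intro A hA hAv hAp hAi T hT hY x hx I hlo hhi
  have hT0' : 3 ≤ T := (le_max_left _ _).trans hT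
  have hTm := (le_max_right _ _).trans hT
  have hT2' : T2 ≤ T := (le_max_left _ _).trans hTm
  have hTm' := (le_max_right _ _).trans hTm
  have hT3' : T3 ≤ T := (le_max_left _ _).trans hTm'
  obtain ⟨g1, g2, g3, g4, g5⟩ := hT4 T ((le_max_right _ _).trans hTm')
  clear hTm hTm'
  have hT0 : 0 < T := by linarith
  have hlT : 0 < Real.log T := by
    have := Real.log_lt_log (by norm_num) (show (1 : ℝ) < T by linarith)
    rwa [Real.log_one] at this
  set lam : ℝ := Real.log (Real.log T) with hlam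
  have hexp : Real.log T = Real.exp lam := (Real.exp_log hlT).symm
  have hl0 : 0 ≤ lam := by linarith
  have hM0 : 0 < M := by linarith
  have hsq : Real.log T ^ (1 / 2 : ℝ) = Real.exp (lam / 2) := by
    rw [hexp, ← Real.exp_mul]
    ring_nf
  rw [hsq] at hlo hhi
  rw [hexp] at hY
  subst hAv
  subst hAp
  have hpos : 1 ≤ Real.exp (lam / 2) := Real.one_le_exp (by positivity)
  have hlo1 : 1 ≤ A.Yf I := hpos.trans hlo
  have hlogY : lam / 2 ≤ Real.log (A.Yf I) := by
    rw [← Real.log_exp (lam / 2)]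
    exact Real.log_le_log (Real.exp_pos _) hlo
  have hlogY' : Real.log (A.Yf I) ≤ A.v + lam / 2 := by
    have := Real.log_le_log (by linarith) hhi
    rwa [← Real.exp_add, Real.log_exp] at this
  have hIp : Real.log A.p0 < A.Yf I := by
    have e : (1 / 2 : ℝ) * lam = lam / 2 := by ring
    rw [e] at g2
    linarith
  have hI2 : 2 ≤ Real.log (A.Yf I) - (Cv + Real.log A.p0) := by linarith
  -- the two tilts
  set B1 : Par := lv A I 1 (1 / 100) with hB1
  set B2 : Par := lv A I (-1) (1 / 20) with hB2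
  have ok1 : B1.Ok := lv_ok HV hA hIp hlo1 hI2 (Or.inl rfl) (by norm_num) (by norm_num)
  have ok2 : B2.Ok := lv_ok HV hA hIp hlo1 hI2 (Or.inr rfl) (by norm_num) (by norm_num)
  have vt1 : B1.vt ≤ lam / 2 + c1 ∧ 2 ≤ B1.vt := by
    have := abs_le.1 (lv_vt HV hA hIp hlo1 1 (1 / 100))
    constructor <;> linarith [this.1, this.2]
  have vt2 : B2.vt = B1.vt := rfl
  -- the lengths
  have hKY := KY_le hM hY hlo1 hhi
  set e : ℝ := 10 ^ 10 * (A.v * (I + 1) * A.Yf I) / Real.exp lam with he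
  have he1 : e ≤ 10 ^ 10 * ((lam + A.v) * Real.exp A.v * Real.exp (-(lam / 2))) := by
    rw [he, div_le_iff₀ (Real.exp_pos _)]
    have e1 : 10 ^ 10 * ((lam + A.v) * Real.exp A.v * Real.exp (-(lam / 2))) * Real.exp lam
        = 10 ^ 10 * ((lam + A.v) * Real.exp A.v * (Real.exp (-(lam / 2)) * Real.exp lam)) := by ring
    rw [e1, ← Real.exp_add, show -(lam / 2) + lam = lam / 2 by ring]
    linarith
  have he2 : e ≤ 1 / 100 := by
    refine he1.trans ?_
    have h4 : lam + A.v ≤ (100 + A.v) * Real.exp (lam / 100) := by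
      have h5 : lam / 100 + 1 ≤ Real.exp (lam / 100) := Real.add_one_le_exp _
      have h6 : 1 ≤ Real.exp (lam / 100) := Real.one_le_exp (by positivity)
      have h7 : (0 : ℝ) ≤ A.v := Nat.cast_nonneg _
      nlinarith
    calc 10 ^ 10 * ((lam + A.v) * Real.exp A.v * Real.exp (-(lam / 2)))
        ≤ 10 ^ 10 * ((100 + A.v) * Real.exp (lam / 100) * Real.exp A.v * Real.exp (-(lam / 2))) := by
          gcongr
      _ = 10 ^ 10 * ((100 + A.v) * Real.exp A.v) * (Real.exp (lam / 100) * Real.exp (-(lam / 2))) := by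
          ring
      _ ≤ 1 / 100 * Real.exp (49 / 100 * lam) * (Real.exp (lam / 100) * Real.exp (-(lam / 2))) :=
          mul_le_mul_of_nonneg_right (by linarith) (by positivity)
      _ = 1 / 100 := by
          rw [mul_assoc, ← Real.exp_add, ← Real.exp_add,
            show 49 / 100 * lam + (lam / 100 + -(lam / 2)) = 0 by ring, Real.exp_zero, mul_one]
  have he0 : 0 ≤ e := by positivity
  have len1 : Len B1 T e := len_lv hA hAi hT0' hexp hlo he2 hl0 _ _
  have len2 : Len B2 T e := len_lv hA hAi hT0' hexp hlo he2 hl0 _ _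
  -- notation
  set ν := nu x T with hν
  set P := (Finset.range B1.J).powerset with hP
  set w : Finset ℕ → ℝ := fun s => Real.exp (-∑ g ∈ s, (B1.r g : ℝ)) with hw
  set K : ℝ := (Real.log T / A.Yf I) ^ 6 with hK
  set S : Set ℝ := {t | K < ‖ze t‖ * ‖B1.mo (-1) ∅ (om t)‖} with hS
  have hSm : MeasurableSet S := by
    refine measurableSet_lt measurable_const ?_
    exact (cont_ze.norm.mul (cont_mo B1 (-1) ∅).norm).measurable
  have hY1 : A.Yf I ≤ Real.log T := by
    have q1 : A.Yf I ≤ A.Y := by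
      have := Yf_anti A (by linarith [hA.hY]) (Nat.zero_le I)
      rwa [Yf_zero] at this
    refine q1.trans ?_
    rw [hY, hexp]
    exact div_le_self (Real.exp_nonneg _) hM
  have hYI : 0 < A.Yf I := by linarith
  have hK1 : 1 ≤ K := by
    refine one_le_pow₀ ?_
    rw [one_le_div hYI]
    exact hY1
  set EA : Finset ℕ → Set ℝ := fun s => {t | B1.Good s (om t) ∧ B1.Bad s (om t) ∧
    -(20 * lam) < B1.X s (om t)} with hEA
  set EB : Finset ℕ → Set ℝ := fun s => {t | B2.Good s (om t) ∧ B2.Bad s (om t) ∧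
    19 * lam < B2.X s (om t)} with hEB
  -- the densities of the tilts
  have G1 : Real.exp (B1.be * (B1.sg * B1.vt)) * (B1.G (-(20 * lam)) / B1.be)
      ≤ 100 * Real.exp (21 / 100 * lam + c1) := by
    have q1 := G_le B1 ok1.hs (-(20 * lam))
    have q2 : B1.s2 = B1.vt / 2 := rfl
    have q3 : B1.be = 1 / 100 := rfl
    have q4 : B1.sg = 1 := rfl
    rw [q2, q3] at q1
    rw [q3, q4]
    calc Real.exp (1 / 100 * (1 * B1.vt)) * (B1.G (-(20 * lam)) / (1 / 100))
        ≤ Real.exp (1 / 100 * (1 * B1.vt)) * (Real.exp (-(1 / 100 * -(20 * lam))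
          + (1 / 100) ^ 2 * (B1.vt / 2) / 2) / (1 / 100)) := by gcongr
      _ = 100 * Real.exp (1 / 5 * lam + 401 / 40000 * B1.vt) := by
          rw [div_div_eq_mul_div, div_one, ← mul_assoc, ← Real.exp_add, mul_comm]
          ring_nf
      _ ≤ 100 * Real.exp (21 / 100 * lam + c1) := by
          gcongr 100 * Real.exp ?_
          linarith [vt1.1]
  have G2 : Real.exp (B2.be * (B2.sg * B2.vt)) * (B2.G (19 * lam) / B2.be)
      ≤ 20 * Real.exp (-(9 / 10 * lam) + c1) := by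
    have q1 := G_le B2 ok2.hs (19 * lam)
    have q2 : B2.s2 = B1.vt / 2 := rfl
    have q3 : B2.be = 1 / 20 := rfl
    have q4 : B2.sg = -1 := rfl
    rw [q2, q3] at q1
    rw [q3, q4, vt2]
    calc Real.exp (1 / 20 * (-1 * B1.vt)) * (B2.G (19 * lam) / (1 / 20))
        ≤ Real.exp (1 / 20 * (-1 * B1.vt)) * (Real.exp (-(1 / 20 * (19 * lam))
          + (1 / 20) ^ 2 * (B1.vt / 2) / 2) / (1 / 20)) := by gcongr
      _ = 20 * Real.exp (-(19 / 20 * lam) - 79 / 1600 * B1.vt) := by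
          rw [div_div_eq_mul_div, div_one, ← mul_assoc, ← Real.exp_add, mul_comm]
          ring_nf
      _ ≤ 20 * Real.exp (-(9 / 10 * lam) + c1) := by
          gcongr 20 * Real.exp ?_
          linarith [vt1.2]
  have hG1 : 0 ≤ B1.G (-(20 * lam)) / B1.be := by
    have : B1.be = 1 / 100 := rfl
    rw [this]
    unfold Par.G
    positivity
  have hG2 : 0 ≤ B2.G (19 * lam) / B2.be := by
    have : B2.be = 1 / 20 := rfl
    rw [this]
    unfold Par.G
    positivity
  -- bounds for one set of groups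
  have bA : ∀ s ∈ P, ν (EA s) ≤ ENNReal.ofReal (C1 * (C2 * w s)
      * (100 * Real.exp (21 / 100 * lam + c1))) := by
    intro s hs
    rw [hP, Finset.mem_powerset] at hs
    have key := nu_tilt B1 (fun s hs => H1 B1 ok1 hv s hs) hs (x := x) (κ := C2 * w s) hT0
      (by positivity) (S := univ) MeasurableSet.univ (fun y => by
        rw [Measure.restrict_univ]
        exact H2 B1 ok1 rfl T e hT2' len1 x y hx s s (Finset.Subset.refl _) hs) (-(20 * lam))
    rw [Set.inter_univ] at key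
    refine key.trans (ENNReal.ofReal_le_ofReal ?_)
    calc C1 * (C2 * w s * Real.exp (B1.be * (B1.sg * B1.vt))) * (B1.G (-(20 * lam)) / B1.be)
        = C1 * (C2 * w s) * (Real.exp (B1.be * (B1.sg * B1.vt)) * (B1.G (-(20 * lam)) / B1.be)) := by
          ring
      _ ≤ _ := by gcongr
  have bB : ∀ s ∈ P, ν (EB s) ≤ ENNReal.ofReal (C1 * (C2 * w s)
      * (20 * Real.exp (-(9 / 10 * lam) + c1))) := by
    intro s hs
    rw [hP, Finset.mem_powerset] at hs
    have key := nu_tilt B2 (fun s hs => H1 B2 ok2 hv s hs) hs (x := x) (κ := C2 * w s) hT0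
      (by positivity) (S := univ) MeasurableSet.univ (fun y => by
        rw [Measure.restrict_univ]
        exact H2 B2 ok2 rfl T e hT2' len2 x y hx s s (Finset.Subset.refl _) hs) (19 * lam)
    rw [Set.inter_univ] at key
    refine key.trans (ENNReal.ofReal_le_ofReal ?_)
    calc C1 * (C2 * w s * Real.exp (B2.be * (B2.sg * B2.vt))) * (B2.G (19 * lam) / B2.be)
        = C1 * (C2 * w s) * (Real.exp (B2.be * (B2.sg * B2.vt)) * (B2.G (19 * lam) / B2.be)) := by
          ring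
      _ ≤ _ := by gcongr
  have bS : ν (EA ∅ ∩ S) ≤ ENNReal.ofReal (C1 * C3 * (10 ^ 10 * ((lam + A.v) * Real.exp A.v
      * Real.exp (-(lam / 2))) + (Real.exp A.v * Real.exp (-(lam / 2))) ^ 2)
      * (100 * Real.exp (21 / 100 * lam + c1))) := by
    have key := nu_tilt B1 (fun s hs => H1 B1 ok1 hv s hs) (Finset.empty_subset _) (x := x)
      (κ := C3 * (e + (Real.log T / A.Yf I) ^ 10 / K ^ 2)) hT0
      (by positivity) (S := S) hSm (fun y => H3 B1 ok1 rfl T e hT3' len1 x y K hx hK1) (-(20 * lam))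
    refine key.trans (ENNReal.ofReal_le_ofReal ?_)
    have q1 : (Real.log T / A.Yf I) ^ 10 / K ^ 2 ≤ (Real.exp A.v * Real.exp (-(lam / 2))) ^ 2 := by
      have q2 : (Real.log T / A.Yf I) ^ 10 / K ^ 2 = (A.Yf I / Real.log T) ^ 2 := by
        rw [hK]
        field_simp
      rw [q2]
      refine pow_le_pow_left₀ (by positivity) ?_ 2
      rw [div_le_iff₀ hlT, hexp]
      calc A.Yf I ≤ Real.exp A.v * Real.exp (lam / 2) := hhi
        _ = Real.exp A.v * Real.exp (-(lam / 2)) * Real.exp lam := by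
            rw [mul_assoc, ← Real.exp_add (-(lam / 2))]
            ring_nf
    calc C1 * (C3 * (e + (Real.log T / A.Yf I) ^ 10 / K ^ 2) * Real.exp (B1.be * (B1.sg * B1.vt)))
          * (B1.G (-(20 * lam)) / B1.be)
        = C1 * C3 * (e + (Real.log T / A.Yf I) ^ 10 / K ^ 2)
          * (Real.exp (B1.be * (B1.sg * B1.vt)) * (B1.G (-(20 * lam)) / B1.be)) := by ring
      _ ≤ _ := by gcongr
  -- the covering
  have cov : {t | ¬((lev A I).Good ∅ (om t) ∧ ‖ze t‖ * ‖(lev A I).mo (-1) ∅ (om t)‖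
      ≤ (Real.log T / A.Yf I) ^ 6)}
      ⊆ (⋃ s ∈ P.erase ∅, EA s) ∪ ((EA ∅ ∩ S) ∪ ⋃ s ∈ P, EB s) := by
    intro t ht
    set s : Finset ℕ := (Finset.range B1.J).filter fun g => RR (B1.r g) < ‖B1.P g (om t)‖ with hs
    have hsP : s ∈ P := Finset.mem_powerset.2 (Finset.filter_subset _ _)
    have hgood : B1.Good s (om t) := by
      intro g hg
      rw [Finset.mem_sdiff, hs, Finset.mem_filter, not_and, not_lt] at hg
      exact hg.2 hg.1
    have hbad : B1.Bad s (om t) := by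
      intro g hg
      rw [hs, Finset.mem_filter] at hg
      exact hg.2
    rcases lt_or_ge (-(20 * lam)) (B1.X s (om t)) with hX | hX
    · by_cases hs0 : s = ∅
      · right
        left
        rw [hs0] at hgood hX hbad
        refine ⟨⟨hgood, hbad, hX⟩, ?_⟩
        by_contra hnot
        have hnot' : ¬ (K < ‖ze t‖ * ‖B1.mo (-1) ∅ (om t)‖) := hnot
        exact ht ⟨hgood, not_lt.1 hnot'⟩
      · left
        simp only [Set.mem_iUnion]
        exact ⟨s, Finset.mem_erase.2 ⟨hs0, hsP⟩, hgood, hbad, hX⟩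
    · right
      right
      simp only [Set.mem_iUnion]
      refine ⟨s, hsP, hgood, hbad, ?_⟩
      have q1 : B1.X s (om t) = 1 * B1.Xt s (om t) := rfl
      have q2 : B2.X s (om t) = -1 * B1.Xt s (om t) := rfl
      rw [q2]
      rw [q1] at hX
      linarith
  -- the sums
  have hiI : (B1.i : ℝ) = I := by
    have : B1.i = A.i + I := rfl
    rw [this, hAi, zero_add]
  have hgn := (h5 B1 ok1).2.2.2.2.2.1
  rw [hiI] at hgn
  have hε := eps_le hM hY hhi
  obtain ⟨s1, s2⟩ := sum_sets B1.J (fun g => (B1.r g : ℝ)) (Real.exp (-(A.v * (I + 1) : ℝ)))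
    (Real.exp_nonneg _) (Real.exp_le_one_iff.2 (by
      have : (0 : ℝ) ≤ A.v * (I + 1) := by positivity
      linarith)) hgn
  have t1 : ν (⋃ s ∈ P.erase ∅, EA s) ≤ ENNReal.ofReal (C1 * C2 * (16 * (M * Real.exp (-(lam / 2))))
      * (100 * Real.exp (21 / 100 * lam + c1))) := by
    refine (measure_biUnion_finset_le _ _).trans ?_
    refine (Finset.sum_le_sum fun s hs => bA s (Finset.mem_of_mem_erase hs)).trans ?_
    rw [← ENNReal.ofReal_sum_of_nonneg (fun s _ => by positivity)]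
    refine ENNReal.ofReal_le_ofReal ?_
    rw [← Finset.sum_mul, ← Finset.mul_sum, ← Finset.mul_sum]
    have q1 : ∑ s ∈ P.erase ∅, w s ≤ 16 * (M * Real.exp (-(lam / 2))) := by
      refine s1.trans ?_
      gcongr
    calc C1 * (C2 * ∑ s ∈ P.erase ∅, w s) * (100 * Real.exp (21 / 100 * lam + c1))
        = C1 * C2 * (∑ s ∈ P.erase ∅, w s) * (100 * Real.exp (21 / 100 * lam + c1)) := by ring
      _ ≤ _ := by gcongr
  have t2 : ν (⋃ s ∈ P, EB s) ≤ ENNReal.ofReal (C1 * C2 * 17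
      * (20 * Real.exp (-(9 / 10 * lam) + c1))) := by
    refine (measure_biUnion_finset_le _ _).trans ?_
    refine (Finset.sum_le_sum fun s hs => bB s hs).trans ?_
    rw [← ENNReal.ofReal_sum_of_nonneg (fun s _ => by positivity)]
    refine ENNReal.ofReal_le_ofReal ?_
    rw [← Finset.sum_mul, ← Finset.mul_sum, ← Finset.mul_sum]
    calc C1 * (C2 * ∑ s ∈ P, w s) * (20 * Real.exp (-(9 / 10 * lam) + c1))
        = C1 * C2 * (∑ s ∈ P, w s) * (20 * Real.exp (-(9 / 10 * lam) + c1)) := by ring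
      _ ≤ _ := by gcongr
  have hfin := final_num (C1 := C1) (C2 := C2) (C3 := C3) (M := M) (v := A.v) (c := c1) (lam := lam)
    (by linarith) (by linarith) (by linarith) hM0.le (Nat.cast_nonneg _) hl0 g5
  refine (measure_mono cov).trans ?_
  refine (measure_union_le _ _).trans ?_
  have e9 : Real.log T ^ (-(1 / 8) : ℝ) = Real.exp (-(1 / 8 * lam)) := by
    rw [hexp, ← Real.exp_mul]
    ring_nf
  rw [e9]
  refine le_trans ?_ (ENNReal.ofReal_le_ofReal hfin)
  rw [ENNReal.ofReal_add (by positivity) (by positivity),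
    ENNReal.ofReal_add (by positivity) (by positivity), add_assoc]
  exact add_le_add t1 ((measure_union_le _ _).trans (add_le_add bS t2))

end Pool.Agent.Lib.G2
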