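import Mathlib
import Pool.Agent.Lib.MP_f9aece_nt_h20.Bmp
import Pool.Agent.Lib.MP_f9aece_nt_g2.Stmts

/-!
The law of `log |zeta|` under the measure `|zeta| ^ 2`, module K2: windows with an exponential
factor as transforms.
-/

set_option autoImplicit false

namespace Pool.Agent.Lib.G2

open MeasureTheory Complex Set Filter Topology
open scoped SchwartzMap ContDiff
open Pool.Agent.H20.Smooth

namespace K2

/-- bounds for the derivatives of the step -/
lemma exists_iter_sg_le (n : ℕ) : ∃ B : ℝ, 1 ≤ B ∧ ∀ j ≤ n, ∀ x, ‖iteratedDeriv j sg x‖ ≤ B := by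
  induction n with
  | zero =>
    refine ⟨1, le_rfl, fun j hj x => ?_⟩
    obtain rfl : j = 0 := by omega
    rw [iteratedDeriv_zero]
    exact norm_sg_le x
  | succ n ih =>
    obtain ⟨B, hB, h⟩ := ih
    obtain ⟨x0, hx0⟩ := (iter_sg_continuous (n + 1)).norm.exists_forall_ge_of_hasCompactSupport
      (iter_sg_compact n).norm
    refine ⟨max B ‖iteratedDeriv (n + 1) sg x0‖, le_max_of_le_left hB, fun j hj x => ?_⟩
    rcases Nat.lt_or_ge j (n + 1) with hj' | hj'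
    · exact le_max_of_le_left (h j (by omega) x)
    · obtain rfl : j = n + 1 := by omega
      exact le_max_of_le_right (hx0 x)

/-- the window -/
noncomputable def F0 (w c a : ℝ) (x : ℝ) : ℂ := sg ((a - x) / w) - sg ((c - x) / w)

/-- the window with the exponential factor -/
noncomputable def F (w Y c a : ℝ) (x : ℝ) : ℂ := cexp (-(1 / Y : ℂ) * x) * F0 w c a x

variable {w Y c a : ℝ}

lemma F0_contDiff : ContDiff ℝ ∞ (F0 w c a) := by
  have h1 : ContDiff ℝ ∞ (fun x : ℝ => sg ((a - x) / w)) := sg_contDiff.comp (by fun_prop)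
  have h2 : ContDiff ℝ ∞ (fun x : ℝ => sg ((c - x) / w)) := sg_contDiff.comp (by fun_prop)
  exact h1.sub h2

lemma exp_contDiff (z : ℂ) : ContDiff ℝ ∞ (fun x : ℝ => cexp (z * x)) := by
  have h : ContDiff ℝ ∞ (fun x : ℝ => (x : ℂ)) := Complex.ofRealCLM.contDiff
  exact (contDiff_const.mul h).cexp

lemma F_contDiff : ContDiff ℝ ∞ (F w Y c a) := (exp_contDiff _).mul F0_contDiff

lemma F0_left (hw : 0 < w) (hca : c ≤ a) {x : ℝ} (hx : x ≤ c - w) : F0 w c a x = 0 := by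
  unfold F0
  rw [sg_one, sg_one, sub_self]
  · rw [le_div_iff₀ hw]; linarith
  · rw [le_div_iff₀ hw]; linarith

lemma F0_right (hw : 0 < w) (hca : c ≤ a) {x : ℝ} (hx : a ≤ x) : F0 w c a x = 0 := by
  unfold F0
  rw [sg_zero, sg_zero, sub_self]
  · exact div_nonpos_of_nonpos_of_nonneg (by linarith) hw.le
  · exact div_nonpos_of_nonpos_of_nonneg (by linarith) hw.le

lemma F_compact (hw : 0 < w) (hca : c ≤ a) : HasCompactSupport (F w Y c a) := by
  refine HasCompactSupport.intro (isCompact_Icc (a := c - w) (b := a)) fun x hx => ?_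
  rw [mem_Icc, not_and_or, not_le, not_le] at hx
  unfold F
  rcases hx with hx | hx
  · rw [F0_left hw hca hx.le, mul_zero]
  · rw [F0_right hw hca hx.le, mul_zero]

lemma iter_exp (z : ℂ) (n : ℕ) :
    iteratedDeriv n (fun x : ℝ => cexp (z * x)) = fun x : ℝ => z ^ n * cexp (z * x) := by
  induction n with
  | zero => rw [iteratedDeriv_zero]; funext x; simp
  | succ n ih =>
    rw [iteratedDeriv_succ, ih]
    funext x
    have h : HasDerivAt (fun x : ℝ => z ^ n * cexp (z * x)) (z ^ n * (cexp (z * x) * (z * 1))) x := by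
      have h1 : HasDerivAt (fun x : ℝ => (x : ℂ)) 1 x := Complex.ofRealCLM.hasDerivAt
      exact ((h1.const_mul z).cexp).const_mul _
    rw [h.deriv]
    ring

lemma iter_F0 (hw : 0 < w) {B : ℝ} {n : ℕ} (hB : ∀ j ≤ n, ∀ x, ‖iteratedDeriv j sg x‖ ≤ B) {j : ℕ}
    (hj : j ≤ n) (x : ℝ) : ‖iteratedDeriv j (F0 w c a) x‖ ≤ 2 * B * (w⁻¹) ^ j := by
  have h1 : ContDiff ℝ ∞ (fun x : ℝ => sg ((a - x) / w)) := sg_contDiff.comp (by fun_prop)
  have h2 : ContDiff ℝ ∞ (fun x : ℝ => sg ((c - x) / w)) := sg_contDiff.comp (by fun_prop)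
  have h1' : ContDiff ℝ (j : ℕ∞) (fun x : ℝ => sg ((a - x) / w)) := h1.of_le (by exact_mod_cast le_top)
  have h2' : ContDiff ℝ (j : ℕ∞) (fun x : ℝ => sg ((c - x) / w)) := h2.of_le (by exact_mod_cast le_top)
  have e : F0 w c a = (fun x : ℝ => sg ((a - x) / w)) - fun x : ℝ => sg ((c - x) / w) := rfl
  rw [e, iteratedDeriv_sub h1'.contDiffAt h2'.contDiffAt, iter_down, iter_down]
  have hn : ‖(-1 : ℝ) ^ j‖ = 1 := by rw [norm_pow, norm_neg, norm_one, one_pow]
  have ha : ‖(w⁻¹) ^ j‖ = (w⁻¹) ^ j := Real.norm_of_nonneg (by positivity)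
  refine (norm_sub_le _ _).trans ?_
  rw [norm_smul, norm_smul, norm_smul, norm_smul, hn, ha, one_mul, one_mul]
  have h3 := hB j hj ((a - x) / w)
  have h4 := hB j hj ((c - x) / w)
  have hw' : 0 ≤ (w⁻¹) ^ j := by positivity
  nlinarith

lemma iter_F_zero (hw : 0 < w) (hca : c ≤ a) (m : ℕ) {x : ℝ} (hx : x < c - w) :
    iteratedDeriv m (F w Y c a) x = 0 := by
  have h : F w Y c a =ᶠ[𝓝 x] fun _ => 0 := by
    filter_upwards [Iio_mem_nhds hx] with y hy
    unfold F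
    rw [F0_left hw hca (le_of_lt hy), mul_zero]
  rw [h.iteratedDeriv_eq m]
  rw [iteratedDeriv_const]
  split_ifs <;> rfl

lemma norm_exp (x : ℝ) : ‖cexp (-(1 / Y : ℂ) * x)‖ = Real.exp (-(1 / Y) * x) := by
  have : (-(1 / Y : ℂ) * x) = ((-(1 / Y) * x : ℝ) : ℂ) := by push_cast; ring
  rw [this, ← Complex.ofReal_exp, Complex.norm_real, Real.norm_of_nonneg (Real.exp_pos _).le]

lemma iter_F_le (hY : 0 < Y) (hw : Y ≤ w) {B : ℝ} {n : ℕ} (hB1 : 1 ≤ B)
    (hB : ∀ j ≤ n, ∀ x, ‖iteratedDeriv j sg x‖ ≤ B) {m : ℕ} (hm : m ≤ n) (x : ℝ) :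
    ‖iteratedDeriv m (F w Y c a) x‖ ≤ 2 ^ (m + 1) * B * (Y⁻¹) ^ m * Real.exp (-(1 / Y) * x) := by
  have hw0 : 0 < w := hY.trans_le hw
  have h := norm_iteratedFDeriv_mul_le (𝕜 := ℝ) (N := ∞) (exp_contDiff (-(1 / Y : ℂ)))
    (F0_contDiff (w := w) (c := c) (a := a)) x (n := m) (by exact_mod_cast le_top)
  rw [norm_iteratedFDeriv_eq_norm_iteratedDeriv] at h
  refine h.trans ?_
  have hYw : w⁻¹ ≤ Y⁻¹ := inv_anti₀ hY hw
  have h1 : ∀ i ∈ Finset.range (m + 1), (m.choose i : ℝ)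
      * ‖iteratedFDeriv ℝ i (fun x : ℝ => cexp (-(1 / Y : ℂ) * x)) x‖
      * ‖iteratedFDeriv ℝ (m - i) (F0 w c a) x‖
      ≤ (m.choose i : ℝ) * (2 * B * (Y⁻¹) ^ m * Real.exp (-(1 / Y) * x)) := by
    intro i hi
    have hi' : i ≤ m := by have := Finset.mem_range.mp hi; omega
    rw [norm_iteratedFDeriv_eq_norm_iteratedDeriv, norm_iteratedFDeriv_eq_norm_iteratedDeriv, iter_exp,
      mul_assoc]
    refine mul_le_mul_of_nonneg_left ?_ (Nat.cast_nonneg _)
    rw [norm_mul, norm_pow, norm_exp]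
    have e1 : ‖(-(1 / Y : ℂ))‖ = Y⁻¹ := by
      rw [norm_neg, one_div, norm_inv, Complex.norm_real, Real.norm_of_nonneg hY.le]
    rw [e1]
    have h2 := iter_F0 (c := c) (a := a) hw0 hB (j := m - i) (by omega) x
    have h3 : (w⁻¹) ^ (m - i) ≤ (Y⁻¹) ^ (m - i) := pow_le_pow_left₀ (by positivity) hYw _
    have h4 : (Y⁻¹) ^ i * (Y⁻¹) ^ (m - i) = (Y⁻¹) ^ m := by rw [← pow_add]; congr 1; omega
    calc (Y⁻¹) ^ i * Real.exp (-(1 / Y) * x) * ‖iteratedDeriv (m - i) (F0 w c a) x‖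
        ≤ (Y⁻¹) ^ i * Real.exp (-(1 / Y) * x) * (2 * B * (Y⁻¹) ^ (m - i)) := by
          refine mul_le_mul_of_nonneg_left (h2.trans ?_) (by positivity)
          exact mul_le_mul_of_nonneg_left h3 (by linarith)
      _ = 2 * B * ((Y⁻¹) ^ i * (Y⁻¹) ^ (m - i)) * Real.exp (-(1 / Y) * x) := by ring
      _ = _ := by rw [h4]
  refine (Finset.sum_le_sum h1).trans (le_of_eq ?_)
  rw [← Finset.sum_mul, ← Nat.cast_sum, Nat.sum_range_choose]
  push_cast
  ring

/-- the window as a Schwartz function -/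
noncomputable def FS (hw : 0 < w) (hca : c ≤ a) : 𝓢(ℝ, ℂ) :=
  (F_compact (Y := Y) hw hca).toSchwartzMap F_contDiff

lemma FS_apply (hw : 0 < w) (hca : c ≤ a) (x : ℝ) : FS (Y := Y) hw hca x = F w Y c a x := rfl

lemma FS_coe (hw : 0 < w) (hca : c ≤ a) : (FS (Y := Y) hw hca : ℝ → ℂ) = F w Y c a := rfl

lemma int_exp (hY : 0 < Y) (b : ℝ) :
    IntegrableOn (fun x => Real.exp (-(1 / Y) * x)) (Ici b) ∧
      ∫ x in Ici b, Real.exp (-(1 / Y) * x) = Y * Real.exp (-(b / Y)) := by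
  have h1 : -(1 / Y) < 0 := by rw [neg_lt_zero]; positivity
  refine ⟨?_, ?_⟩
  · rw [integrableOn_Ici_iff_integrableOn_Ioi]
    exact integrableOn_exp_mul_Ioi h1 b
  · rw [integral_Ici_eq_integral_Ioi, integral_exp_mul_Ioi h1]
    have e : -(1 / Y) * b = -(b / Y) := by ring
    rw [e]
    field_simp

lemma I1_FS_le (hY : 0 < Y) (hw : Y ≤ w) (hca : c ≤ a) (hw0 : 0 < w) {B : ℝ} {n : ℕ} (hB1 : 1 ≤ B)
    (hB : ∀ j ≤ n, ∀ x, ‖iteratedDeriv j sg x‖ ≤ B) {m : ℕ} (hm : m ≤ n) :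
    I1 (FS (Y := Y) hw0 hca) m
      ≤ 2 ^ (m + 1) * B * (Y⁻¹) ^ m * (Y * Real.exp (-((c - w) / Y))) := by
  unfold I1
  rw [FS_coe]
  obtain ⟨hi, he⟩ := int_exp hY (c - w)
  rw [← he, ← integral_const_mul, ← integral_indicator measurableSet_Ici]
  refine integral_mono_of_nonneg (Eventually.of_forall fun _ => norm_nonneg _) ?_
    (Eventually.of_forall fun x => ?_)
  · exact (integrable_indicator_iff measurableSet_Ici).mpr (hi.const_mul _)
  · by_cases hx : x < c - w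
    · simp only
      rw [iter_F_zero hw0 hca m hx, norm_zero]
      exact indicator_nonneg (fun _ _ => by positivity) _
    · rw [indicator_of_mem (by rw [mem_Ici]; linarith)]
      exact iter_F_le hY hw hB1 hB hm x

end K2

open K2 in
theorem ker2 : Ker2 := by
  obtain ⟨B, hB1, hB⟩ := exists_iter_sg_le 8
  refine ⟨128 * (514 * B), by linarith, fun w Y c a hY hw hc hca ha => ?_⟩
  have hw0 : 0 < w := hY.trans_le hw
  have hca' : c ≤ a := by linarith
  set κ := FS (Y := Y) hw0 hca' with hκ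
  set E := Real.exp (-((c - w) / Y)) with hE
  have hE0 : 0 < E := Real.exp_pos _
  have hcomp : HasCompactSupport κ := F_compact hw0 hca'
  refine ⟨fun u => 1 / (2 * Real.pi) * KF κ u, ?_, ?_, ?_⟩
  · rw [KF_eq]
    exact continuous_const.mul (KS κ).continuous
  · intro u
    have h0 := pow_KF_le κ hcomp 0 u
    have h8 := pow_KF_le κ hcomp 8 u
    have i0 := I1_FS_le hY hw hca' hw0 hB1 hB (m := 0) (by norm_num)
    have i8 := I1_FS_le hY hw hca' hw0 hB1 hB (m := 8) le_rfl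
    rw [pow_zero, one_mul] at h0
    rw [pow_zero, mul_one] at i0
    have j0 : ‖KF κ u‖ ≤ 2 * B * (Y * E) := by
      refine h0.trans (i0.trans (le_of_eq ?_))
      ring
    have j8 : |u| ^ 8 * ‖KF κ u‖ ≤ 512 * B * (Y⁻¹) ^ 8 * (Y * E) := by
      refine h8.trans (i8.trans (le_of_eq ?_))
      rw [hE]
      norm_num
    have h2 : ‖(1 / (2 * Real.pi) : ℂ)‖ ≤ 1 := by
      have e : (1 / (2 * Real.pi) : ℂ) = ((1 / (2 * Real.pi) : ℝ) : ℂ) := by push_cast; ring
      rw [e, Complex.norm_real, Real.norm_of_nonneg (by positivity), div_le_one (by positivity)]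
      linarith [Real.pi_gt_three]
    show ‖1 / (2 * Real.pi) * KF κ u‖ ≤ _
    rw [norm_mul]
    have h3 : ‖(1 / (2 * Real.pi) : ℂ)‖ * ‖KF κ u‖ ≤ 1 * ‖KF κ u‖ :=
      mul_le_mul_of_nonneg_right h2 (norm_nonneg _)
    refine h3.trans ?_
    rw [one_mul, ← mul_div_assoc, ← mul_div_assoc, le_div_iff₀ (by positivity)]
    have h4 : (1 + Y * |u|) ^ 8 ≤ 128 * (1 + (Y * |u|) ^ 8) := by
      have h4 := add_pow_le (zero_le_one : (0 : ℝ) ≤ 1) (by positivity : 0 ≤ Y * |u|) 8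
      norm_num at h4
      linarith
    calc ‖KF κ u‖ * (1 + Y * |u|) ^ 8 ≤ ‖KF κ u‖ * (128 * (1 + (Y * |u|) ^ 8)) :=
          mul_le_mul_of_nonneg_left h4 (norm_nonneg _)
      _ = 128 * (‖KF κ u‖ + Y ^ 8 * (|u| ^ 8 * ‖KF κ u‖)) := by ring
      _ ≤ 128 * (2 * B * (Y * E) + Y ^ 8 * (512 * B * (Y⁻¹) ^ 8 * (Y * E))) := by gcongr
      _ = 128 * (514 * B) * (E * Y) := by
          field_simp
          ring
  · intro ξ hξ
    have h1 := inversion κ ξ
    rw [hκ, FS_apply] at h1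
    have h2 : (Real.smoothTransition ((a - ξ) / w) - Real.smoothTransition ((c - ξ) / w) : ℂ)
        = F0 w c a ξ := rfl
    have h3 : F0 w c a ξ = Real.exp (1 / Y * ξ) * F w Y c a ξ := by
      unfold F
      have e : (Real.exp (1 / Y * ξ) : ℂ) = cexp ((1 / Y : ℂ) * ξ) := by push_cast; rfl
      rw [e, ← mul_assoc, ← Complex.exp_add]
      have : (1 / Y : ℂ) * ξ + -(1 / Y : ℂ) * ξ = 0 := by ring
      rw [this, Complex.exp_zero, one_mul]
    rw [h2, h3, h1, ← integral_const_mul]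
    congr 1
    refine integral_congr_ae (Eventually.of_forall fun v => ?_)
    simp only
    ring

end Pool.Agent.Lib.G2
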