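import Mathlib
import Pool.Agent.Lib.MP_f9aece_nt_g2.Stmts

/-!
The law of `log |zeta|` under the measure `|zeta| ^ 2`, module N3: the variance.
-/

set_option autoImplicit false

namespace Pool.Agent.Lib.G2

open Pool.Agent.Lib.MP_f9aece_nt (VV)
open Pool.Agent.Lib.J4 (V2)
open Pool.Agent.Lib.GT

lemma N3.h_sq (A : Par) {p : ℕ} (hp : 0 < p) : A.h p ^ 2 = (p : ℝ)⁻¹ := by
  have hp0 : (0 : ℝ) < p := by exact_mod_cast hp
  unfold Par.h
  rw [← Real.rpow_natCast, ← Real.rpow_mul hp0.le, ← Real.rpow_neg_one]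
  congr 1
  norm_num

/-- the elements of the groups are large primes -/
lemma N3.mem_U (A : Par) {p : ℕ} (h : p ∈ A.U) : p.Prime ∧ A.p0 < p := by
  obtain ⟨g, -, hg⟩ := Finset.mem_biUnion.mp h
  obtain ⟨-, h1, h2, -⟩ := Finset.mem_filter.mp hg
  exact ⟨h1, h2⟩

lemma N3.vt_eq_VV (A : Par) : A.vt = VV A.U := by
  unfold Par.vt VV
  exact Finset.sum_congr rfl fun p hp => h_sq A (mem_U A hp).1.pos

lemma N3.neg_log_one_sub_le {x : ℝ} (h0 : 0 ≤ x) (h1 : x ≤ 1 / 2) : -Real.log (1 - x) ≤ x + x ^ 2 := by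
  have h2 : 0 < 1 - x := by linarith
  have h3 : Real.exp (-(x + x ^ 2)) ≤ 1 - x := by
    have h4 := Real.quadratic_le_exp_of_nonneg (by positivity : 0 ≤ x + x ^ 2)
    rw [Real.exp_neg, inv_le_comm₀ (Real.exp_pos _) h2]
    refine le_trans ?_ h4
    rw [inv_le_iff_one_le_mul₀' h2]
    have h5 : 0 ≤ 1 - x - x ^ 2 - x ^ 3 := by
      have h6 : x ^ 2 ≤ (1 / 2) ^ 2 := pow_le_pow_left₀ h0 h1 2
      have h7 : x ^ 3 ≤ (1 / 2) ^ 3 := pow_le_pow_left₀ h0 h1 3
      norm_num at h6 h7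
      linarith
    nlinarith [mul_nonneg (mul_nonneg h0 h0) h5]
  have h4 := (Real.le_log_iff_exp_le h2).mpr h3
  linarith

open N3 in
theorem variance : Variance := by
  refine ⟨⟨5, by norm_num, fun A hp hY hU => ?_⟩, fun A hA => ?_⟩
  · have hlp : 0 ≤ Real.log A.p0 := Real.log_natCast_nonneg _
    have hU' : A.U = MP_f9aece_nt_h6.Pall A.Y A.p0 := by
      ext p
      rw [hU, MP_f9aece_nt_h6.mem_Pall, Finset.mem_Icc, Nat.le_floor_iff (Real.exp_pos _).le]
      constructor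
      · rintro ⟨h1, h2, h3⟩
        exact ⟨⟨h1.pos, h3⟩, h1, h2⟩
      · rintro ⟨⟨-, h3⟩, h1, h2⟩
        exact ⟨h1, h2, h3⟩
    have h1 := MP_f9aece_nt_h6.VV_Pall_ge (p0 := A.p0) hY
    have h2 := MP_f9aece_nt_h6.VV_Pall_le (p0 := A.p0) hY
    rw [← hU', ← vt_eq_VV] at h1 h2
    rw [abs_le]
    constructor <;> linarith
  · have hp0 : 1000 ≤ A.p0 := hA.hp
    have hp0' : (1000 : ℝ) ≤ A.p0 := by exact_mod_cast hp0
    have hPU : A.PU = Real.exp (∑ p ∈ A.U, -Real.log (1 - (p : ℝ)⁻¹)) := by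
      rw [Real.exp_sum]
      unfold Par.PU
      refine Finset.prod_congr rfl fun p hp => ?_
      obtain ⟨h1, h2⟩ := mem_U A hp
      have h3 : (1000 : ℝ) ≤ p := by exact_mod_cast (by omega : 1000 ≤ p)
      have h4 : (p : ℝ)⁻¹ ≤ 1 / 1000 := by
        rw [inv_eq_one_div]
        exact one_div_le_one_div_of_le (by norm_num) h3
      rw [Real.exp_neg, Real.exp_log (by linarith)]
    have hlow : A.vt ≤ ∑ p ∈ A.U, -Real.log (1 - (p : ℝ)⁻¹) := by
      rw [vt_eq_VV]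
      unfold VV
      refine Finset.sum_le_sum fun p hp => ?_
      obtain ⟨h1, h2⟩ := mem_U A hp
      have h3 : (1000 : ℝ) ≤ p := by exact_mod_cast (by omega : 1000 ≤ p)
      have h4 : (p : ℝ)⁻¹ ≤ 1 / 1000 := by
        rw [inv_eq_one_div]
        exact one_div_le_one_div_of_le (by norm_num) h3
      have h5 := Real.log_le_sub_one_of_pos (by linarith : 0 < 1 - (p : ℝ)⁻¹)
      linarith
    have hup : ∑ p ∈ A.U, -Real.log (1 - (p : ℝ)⁻¹) ≤ A.vt + 1 / A.p0 := by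
      have h6 : ∑ p ∈ A.U, -Real.log (1 - (p : ℝ)⁻¹)
          ≤ ∑ p ∈ A.U, ((p : ℝ)⁻¹ + ((p : ℝ)⁻¹) ^ 2) := by
        refine Finset.sum_le_sum fun p hp => ?_
        obtain ⟨h1, h2⟩ := mem_U A hp
        have h3 : (1000 : ℝ) ≤ p := by exact_mod_cast (by omega : 1000 ≤ p)
        have h4 : (p : ℝ)⁻¹ ≤ 1 / 1000 := by
          rw [inv_eq_one_div]
          exact one_div_le_one_div_of_le (by norm_num) h3
        exact neg_log_one_sub_le (by positivity) (by linarith)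
      have h7 := MP_f9aece_nt.sum_inv_sq_le A.p0 (by omega) A.U fun p hp => (mem_U A hp).2
      rw [Finset.sum_add_distrib] at h6
      rw [vt_eq_VV]
      unfold VV
      refine h6.trans ?_
      gcongr
    rw [hPU]
    refine ⟨Real.exp_le_exp.mpr hlow, ?_⟩
    have h8 : Real.exp (1 / A.p0) ≤ 1 + 4 / A.p0 := by
      have h9 : (1 : ℝ) / A.p0 ≤ 1 := by
        rw [div_le_one (by linarith)]; linarith
      have h10 : (0 : ℝ) ≤ 1 / A.p0 := by positivity
      have h11 : |(1 : ℝ) / A.p0| ≤ 1 := by rwa [abs_of_nonneg h10]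
      have h12 := Real.abs_exp_sub_one_le h11
      rw [abs_of_nonneg h10] at h12
      have h13 := (abs_le.mp h12).2
      have h14 : 4 / (A.p0 : ℝ) = 4 * (1 / A.p0) := by ring
      rw [h14]
      linarith
    calc Real.exp (∑ p ∈ A.U, -Real.log (1 - (p : ℝ)⁻¹))
        ≤ Real.exp (A.vt + 1 / A.p0) := Real.exp_le_exp.mpr hup
      _ = Real.exp (1 / A.p0) * Real.exp A.vt := by rw [Real.exp_add]; ring
      _ ≤ _ := mul_le_mul_of_nonneg_right h8 (Real.exp_pos _).le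

end Pool.Agent.Lib.G2
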